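import Mathlib

/-!
# MP_aca35e_co: rank-3 Tits arrangements, the definitions of the problem
-/

set_option autoImplicit false

namespace Pool.ACA

/-- real 3-space -/
abbrev V3 : Type := Fin 3 → ℝ

/-- A rank-3 arrangement `(A, T)`: `T` is an open convex cone, `A` is a set of planes which meet `T`,
locally finite in `T`. -/
structure IsArr (T : Set V3) (A : Set (Submodule ℝ V3)) : Prop where
  isOpen : IsOpen T
  convex : Convex ℝ T
  cone : ∀ x ∈ T, ∀ c : ℝ, 0 < c → c • x ∈ T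
  plane : ∀ H ∈ A, Module.finrank ℝ H = 2
  meets : ∀ H ∈ A, ((H : Set V3) ∩ T).Nonempty
  locfin : ∀ x ∈ T, ∃ U : Set V3, IsOpen U ∧ x ∈ U ∧ U ⊆ T ∧
    {H ∈ A | ((H : Set V3) ∩ U).Nonempty}.Finite

/-- the complement of the planes in `T` -/
def comp (T : Set V3) (A : Set (Submodule ℝ V3)) : Set V3 := {x ∈ T | ∀ H ∈ A, x ∉ H}

/-- chambers are the connected components of the complement -/
def IsChamber (T : Set V3) (A : Set (Submodule ℝ V3)) (K : Set V3) : Prop :=
  ∃ x ∈ comp T A, K = connectedComponentIn (comp T A) x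

/-- walls of a chamber -/
def IsWall (K : Set V3) (H : Submodule ℝ V3) : Prop :=
  Module.finrank ℝ H = 2 ∧ (H : Set V3) ∩ K = ∅ ∧
    Submodule.span ℝ ((H : Set V3) ∩ closure K) = H

/-- open simplicial cones -/
def IsSimplicialCone (K : Set V3) : Prop :=
  ∃ b : Module.Basis (Fin 3) ℝ V3, K = {x | ∃ c : Fin 3 → ℝ, (∀ i, 0 < c i) ∧ x = ∑ i, c i • b i}

/-- Tits arrangements: thin and simplicial -/
structure IsTits (T : Set V3) (A : Set (Submodule ℝ V3)) : Prop extends IsArr T A where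
  thin : ∀ K, IsChamber T A K → ∀ H, IsWall K H → H ∈ A
  simplicial : ∀ K, IsChamber T A K → IsSimplicialCone K

/-- affine: the boundary of `T` is a plane `ker α` -/
def IsAffine (T : Set V3) : Prop :=
  ∃ α : V3 →ₗ[ℝ] ℝ, α ≠ 0 ∧ frontier T = {x | α x = 0}

/-- `A* ⊆ V(P)`: `P` vanishes at all normal vectors of all planes of `A` -/
def OnCurve (A : Set (Submodule ℝ V3)) (P : MvPolynomial (Fin 3) ℝ) : Prop :=
  ∀ H ∈ A, ∀ a : V3, a ≠ 0 → (∀ x : V3, x ∈ H ↔ a 0 * x 0 + a 1 * x 1 + a 2 * x 2 = 0) →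
    MvPolynomial.eval a P = 0

end Pool.ACA
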