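import Pool.Agent.Lib.MP_aca35e_co.Defs
import Pool.Agent.Lib.MP_aca35e_co.Stmt

/-!
# MP_aca35e_co: the affine picture of an affine Tits arrangement
-/

set_option autoImplicit false

namespace Pool.ACA

open Set Filter Topology

/-- irreducible: for every chamber the Coxeter graph on its walls (`H - H'` iff more than two
planes of `A` contain `H ∩ H'`) is connected -/
def IsIrred (T : Set V3) (A : Set (Submodule ℝ V3)) : Prop :=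
  ∀ K, IsChamber T A K → ∀ H H', IsWall K H → IsWall K H' →
    Relation.ReflTransGen
      (fun F F' => IsWall K F ∧ IsWall K F' ∧ F ≠ F' ∧ 2 < {E ∈ A | F ⊓ F' ≤ E}.encard) H H'

/-- dehomogenisation -/
noncomputable def deh (P : MvPolynomial (Fin 3) ℝ) : MvPolynomial (Fin 2) ℝ :=
  MvPolynomial.aeval ![MvPolynomial.X 0, MvPolynomial.X 1, 1] P

/-- open triangle -/
def tri (a b c : ℝ × ℝ) : Set (ℝ × ℝ) :=
  {X | ∃ r s t : ℝ, 0 < r ∧ 0 < s ∧ 0 < t ∧ r + s + t = 1 ∧ X = r • a + s • b + t • c}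

/-- open half-strip with vertices `a, b` in direction `v` -/
def hstrip (a b v : ℝ × ℝ) : Set (ℝ × ℝ) :=
  {X | ∃ r s t : ℝ, 0 < r ∧ 0 < s ∧ 0 < t ∧ r + s = 1 ∧ X = r • a + s • b + t • v}

/-- cross product -/
def cr (v w : ℝ × ℝ) : ℝ := v.1 * w.2 - v.2 * w.1

/-- `X` is in a chamber which is a triangle with sides on lines of `W` -/
def InTri (W : Set (ℝ × ℝ)) (X : ℝ × ℝ) : Prop :=
  ∃ a b c : ℝ × ℝ, X ∈ tri a b c ∧ cr (b - a) (c - a) ≠ 0 ∧ (∀ w ∈ W, ∀ Y ∈ tri a b c, ¬ on w Y) ∧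
    ∃ wa ∈ W, ∃ wb ∈ W, ∃ wc ∈ W, on wa b ∧ on wa c ∧ on wb a ∧ on wb c ∧ on wc a ∧ on wc b

/-- `X` is in a chamber which is a half-strip with sides on lines of `W` -/
def InStrip (W : Set (ℝ × ℝ)) (X : ℝ × ℝ) : Prop :=
  ∃ a b v : ℝ × ℝ, X ∈ hstrip a b v ∧ cr (b - a) v ≠ 0 ∧ (∀ w ∈ W, ∀ Y ∈ hstrip a b v, ¬ on w Y) ∧
    ∃ wa ∈ W, ∃ wb ∈ W, ∃ wc ∈ W, (on wa a ∧ wa.1 * v.1 + wa.2 * v.2 = 0) ∧
      (on wb b ∧ wb.1 * v.1 + wb.2 * v.2 = 0) ∧ on wc a ∧ on wc b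

/-- the affine picture of an affine Tits arrangement -/
structure Aff (W : Set (ℝ × ℝ)) : Prop where
  ne : (0, 0) ∉ W
  fin : ∀ ε > 0, {w ∈ W | ε ≤ |w.1| ∨ ε ≤ |w.2|}.Finite
  cham : ∀ X, (∀ w ∈ W, ¬ on w X) → InTri W X ∨ InStrip W X

end Pool.ACA
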