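import Pool.Agent.Lib.MP_aca35e_co.Defs
import Pool.Agent.Lib.MP_aca35e_co.ADefs

/-!
# MP_aca35e_co, row A1

`T` is an open half-space. `T` is nonempty (else the frontier is empty, but `0 ∈ ker α`). `T ∩ frontier T = ∅` (open), so `α ≠ 0` on `T`; `T` is convex, so `α` has a constant sign on `T`;
replace `α` by `-α` so that `T ⊆ {0 < α}`. `{0 < α}` is convex, hence preconnected, `T` is open and `closure T ∩ {0 < α} = T` (a point of the closure is in `T` or in the frontier `ker α`), so
`T = {0 < α}` (`IsPreconnected.subset_of_closure_inter_subset` or similar).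
-/

set_option autoImplicit false
set_option linter.unusedVariables false

namespace Pool.ACA

open Set Filter Topology

private theorem halfspace_aux (T : Set V3) (ho : IsOpen T) (hn : T.Nonempty)
    (β : V3 →ₗ[ℝ] ℝ) (hf : frontier T = {x | β x = 0}) (hp : ∀ x ∈ T, 0 < β x) :
    T = {x | 0 < β x} := by
  apply Subset.antisymm hp
  have hc : Convex ℝ {x : V3 | 0 < β x} := by
    have := convex_halfSpace_gt (f := fun x : V3 => β x) β.isLinear 0
    exact this
  refine hc.isPreconnected.subset_of_closure_inter_subset ho ?_ ?_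
  · obtain ⟨x, hx⟩ := hn
    exact ⟨x, hp x hx, hx⟩
  · rintro x ⟨hx, hx0⟩
    by_contra hxT
    have : x ∈ frontier T := by
      rw [frontier, ho.interior_eq]
      exact ⟨hx, hxT⟩
    rw [hf] at this
    have h1 : β x = 0 := this
    have h2 : 0 < β x := hx0
    linarith

theorem halfspace (T : Set V3) (A : Set (Submodule ℝ V3)) (h : IsArr T A) (ha : IsAffine T) :
    ∃ α : V3 →ₗ[ℝ] ℝ, α ≠ 0 ∧ T = {x | 0 < α x} := by
  obtain ⟨α, hα, hf⟩ := ha
  have hn : T.Nonempty := by
    by_contra hn
    rw [not_nonempty_iff_eq_empty] at hn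
    have h0 : (0 : V3) ∈ frontier T := by rw [hf]; simp
    rw [hn] at h0
    simp at h0
  have hne : ∀ x ∈ T, α x ≠ 0 := by
    intro x hx h0
    have h1 : x ∈ frontier T := by rw [hf]; exact h0
    rw [frontier, h.isOpen.interior_eq] at h1
    exact h1.2 hx
  have hs : ∀ x ∈ T, ∀ y ∈ T, α x < 0 → 0 < α y → False := by
    intro x hx y hy h1 h2
    have hd : 0 < α y - α x := by linarith
    have hz := h.convex hx hy (a := α y / (α y - α x)) (b := -α x / (α y - α x))
      (by positivity) (div_nonneg (by linarith) hd.le) (by field_simp; ring)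
    apply hne _ hz
    rw [map_add, map_smul, map_smul, smul_eq_mul, smul_eq_mul]
    field_simp
    ring
  obtain ⟨x0, hx0⟩ := hn
  rcases lt_or_gt_of_ne (hne x0 hx0) with h1 | h1
  · refine ⟨-α, neg_ne_zero.2 hα, ?_⟩
    apply halfspace_aux T h.isOpen ⟨x0, hx0⟩
    · rw [hf]; ext x; simp
    · intro x hx
      rcases lt_or_gt_of_ne (hne x hx) with h2 | h2
      · simpa using h2
      · exact (hs x0 hx0 x hx h1 h2).elim
  · refine ⟨α, hα, ?_⟩
    apply halfspace_aux T h.isOpen ⟨x0, hx0⟩ _ hf
    intro x hx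
    rcases lt_or_gt_of_ne (hne x hx) with h2 | h2
    · exact (hs x hx x0 hx0 h2 h1).elim
    · exact h2

end Pool.ACA
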