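import Pool.Agent.Lib.MP_aca35e_co.Defs
import Pool.Agent.Lib.MP_aca35e_co.ADefs

/-!
# MP_aca35e_co, row A2

The chamber of `x`. `K = connectedComponentIn (comp T A) x` is an open simplicial cone with basis `b` (`simplicial`), `x ∈ K` (`mem_connectedComponentIn`), `K ⊆ comp T A`.
For `i : Fin 3` the plane `H = span {b j | j ≠ i}` is a wall: `finrank = 2` (two basis vectors), `H ∩ K = ∅` (`i`-th coordinate `0` against `> 0`), `b j ∈ closure K` for every `j`
(limit of `b j + ε Σ b`), so `span (H ∩ closure K) ⊇ H`. `thin` gives `H ∈ A`.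
-/

set_option autoImplicit false
set_option linter.unusedVariables false

namespace Pool.ACA

open Set Filter Topology

private lemma a2_mem (b : Module.Basis (Fin 3) ℝ V3) (y : V3) :
    y ∈ {x : V3 | ∃ c : Fin 3 → ℝ, (∀ i, 0 < c i) ∧ x = ∑ i, c i • b i} ↔
      ∀ i, 0 < b.repr y i := by
  constructor
  · rintro ⟨c, hc, rfl⟩ i
    have : b.repr (∑ i, c i • b i) i = c i := by
      rw [Module.Basis.repr_sum_self]
    rw [this]; exact hc i
  · intro hy
    exact ⟨fun i => b.repr y i, hy, (b.sum_repr y).symm⟩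

private lemma a2_span (b : Module.Basis (Fin 3) ℝ V3) (i : Fin 3) :
    Submodule.span ℝ (b '' {j | j ≠ i}) = LinearMap.ker (b.coord i) := by
  ext y
  rw [Module.Basis.mem_span_image, LinearMap.mem_ker, Module.Basis.coord_apply]
  constructor
  · intro hy
    by_contra hne
    have : i ∈ (((b.repr y).support : Finset (Fin 3)) : Set (Fin 3)) := by
      simpa using hne
    exact (hy this) rfl
  · intro hy j hj hji
    have hj' : b.repr y j ≠ 0 := by simpa using hj
    exact hj' (by rw [hji]; exact hy)

theorem chamber_basis (T : Set V3) (A : Set (Submodule ℝ V3)) (h : IsTits T A) (x : V3)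
    (hx : x ∈ comp T A) :
    ∃ b : Module.Basis (Fin 3) ℝ V3, (∀ i, 0 < b.repr x i) ∧
      (∀ y : V3, (∀ i, 0 < b.repr y i) → y ∈ comp T A) ∧
      ∀ i, Submodule.span ℝ (b '' {j | j ≠ i}) ∈ A := by
  set K := connectedComponentIn (comp T A) x with hKdef
  have hxK : x ∈ K := mem_connectedComponentIn hx
  have hKsub : K ⊆ comp T A := connectedComponentIn_subset _ _
  have hKch : IsChamber T A K := ⟨x, hx, rfl⟩
  obtain ⟨b, hb⟩ := h.simplicial K hKch
  have hmem : ∀ y : V3, y ∈ K ↔ ∀ i, 0 < b.repr y i := by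
    intro y
    rw [hb]
    exact a2_mem b y
  refine ⟨b, (hmem x).1 hxK, fun y hy => hKsub ((hmem y).2 hy), fun i => ?_⟩
  refine h.thin K hKch _ ⟨?_, ?_, ?_⟩
  · rw [a2_span]
    have h1 := LinearMap.finrank_range_add_finrank_ker (b.coord i)
    have h2 : LinearMap.range (b.coord i) = ⊤ := by
      rw [LinearMap.range_eq_top]
      intro r
      refine ⟨r • b i, ?_⟩
      simp [Module.Basis.coord_apply]
    rw [h2, finrank_top] at h1
    have h3 : Module.finrank ℝ ℝ = 1 := Module.finrank_self ℝ
    have h4 : Module.finrank ℝ V3 = 3 := by simp [V3]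
    rw [h3, h4] at h1
    omega
  · rw [Set.eq_empty_iff_forall_notMem]
    rintro y ⟨hy1, hy2⟩
    rw [SetLike.mem_coe, a2_span, LinearMap.mem_ker, Module.Basis.coord_apply] at hy1
    have := (hmem y).1 hy2 i
    rw [hy1] at this
    exact lt_irrefl _ this
  · apply le_antisymm
    · rw [Submodule.span_le]
      exact Set.inter_subset_left
    · refine Submodule.span_mono ?_
      rintro _ ⟨j, hj, rfl⟩
      refine ⟨Submodule.subset_span ⟨j, hj, rfl⟩, ?_⟩
      have hcont : Continuous (fun ε : ℝ => b j + ε • ∑ k, b k) := by fun_prop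
      have htend : Tendsto (fun ε : ℝ => b j + ε • ∑ k, b k) (𝓝[>] 0) (𝓝 (b j)) := by
        have h1 := (hcont.tendsto 0).mono_left (nhdsWithin_le_nhds (s := Ioi (0 : ℝ)))
        simpa using h1
      refine mem_closure_of_tendsto htend ?_
      filter_upwards [self_mem_nhdsWithin] with ε hε
      rw [hmem]
      intro k
      have hε' : (0 : ℝ) < ε := hε
      have hsum : b.repr (∑ l, b l) k = 1 := by
        have : (∑ l, b l) = ∑ l, (fun _ => (1 : ℝ)) l • b l := by simp
        rw [this, Module.Basis.repr_sum_self]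
      rw [map_add, map_smul, Finsupp.add_apply, Finsupp.smul_apply, hsum, Module.Basis.repr_self,
        Finsupp.single_apply, smul_eq_mul, mul_one]
      split_ifs <;> linarith

end Pool.ACA
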