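import Pool.Agent.Lib.MP_aca35e_co.Defs
import Pool.Agent.Lib.MP_aca35e_co.ADefs

/-!
# MP_aca35e_co, row A3

The complement is dense in `T`: near `x ∈ T` only finitely many planes of `A` meet `U` (`locfin`); a finite union of planes has empty interior (each has measure zero: `Measure.addHaar_submodule`, or it
is closed with empty interior: `Submodule.eq_top_of_nonempty_interior'`, Baire / `interior_union_isClosed_of_interior_empty`).
-/

set_option autoImplicit false
set_option linter.unusedVariables false

namespace Pool.ACA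

open Set Filter Topology

theorem comp_dense (T : Set V3) (A : Set (Submodule ℝ V3)) (h : IsArr T A) (x : V3) (hx : x ∈ T)
    (U : Set V3) (hU : IsOpen U) (hxU : x ∈ U) : (U ∩ comp T A).Nonempty := by
  obtain ⟨U', hU', hxU', hU'T, hfin⟩ := h.locfin x hx
  have hV : IsOpen (U ∩ U') := hU.inter hU'
  have hVne : (U ∩ U').Nonempty := ⟨x, hxU, hxU'⟩
  have hpos : 0 < MeasureTheory.volume (U ∩ U') := hV.measure_pos _ hVne
  have hnull : MeasureTheory.volume
      (⋃ H ∈ {H ∈ A | ((H : Set V3) ∩ U').Nonempty}, (H : Set V3)) = 0 := by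
    rw [MeasureTheory.measure_biUnion_null_iff hfin.countable]
    intro H hH
    apply MeasureTheory.Measure.addHaar_submodule
    intro htop
    have h2 := h.plane H hH.1
    rw [htop, finrank_top, Module.finrank_fin_fun] at h2
    omega
  have hns : ¬ (U ∩ U') ⊆ ⋃ H ∈ {H ∈ A | ((H : Set V3) ∩ U').Nonempty}, (H : Set V3) := by
    intro hsub
    have := MeasureTheory.measure_mono (μ := MeasureTheory.volume) hsub
    rw [hnull] at this
    exact absurd hpos (not_lt.2 this)
  obtain ⟨y, hy, hyn⟩ := Set.not_subset.1 hns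
  refine ⟨y, hy.1, hU'T hy.2, ?_⟩
  intro H hH hyH
  apply hyn
  simp only [mem_ofPred_eq, mem_iUnion]
  exact ⟨H, ⟨hH, ⟨y, hyH, hy.2⟩⟩, hyH⟩

end Pool.ACA
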