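import Pool.Agent.Lib.MP_aca35e_co.Defs
import Pool.Agent.Lib.MP_aca35e_co.ADefs
import Pool.Agent.Lib.MP_aca35e_co.A2
import Pool.Agent.Lib.MP_aca35e_co.A3

/-!
# MP_aca35e_co, row A4

Degree 1 (and 0). `P` homogeneous of degree 1: `eval a P = c 0 a 0 + c 1 a 1 + c 2 a 2`, `c ≠ 0` as `P ≠ 0`. Every plane `H ∈ A` has a normal vector `a ≠ 0` (`finrank = 2`), and `eval a P = 0` means
`c ∈ H`. `T` is nonempty, so there is `x ∈ comp T A` (A3) and (A2) a basis `b` with `c ∈ span {b j | j ≠ i}` for all `i`, so all coordinates of `c` vanish: contradiction.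
Degree 0: a homogeneous polynomial of degree 0 is a constant, zero or a unit, so not irreducible.
-/

set_option autoImplicit false
set_option linter.unusedVariables false

namespace Pool.ACA

open Set Filter Topology

theorem normal_exists (H : Submodule ℝ V3) (h : Module.finrank ℝ H = 2) :
    ∃ a : V3, a ≠ 0 ∧ ∀ x : V3, x ∈ H ↔ a 0 * x 0 + a 1 * x 1 + a 2 * x 2 = 0 := by
  have h3 : Module.finrank ℝ V3 = 3 := by simp [V3]
  have hlt : H < ⊤ := by
    rw [lt_top_iff_ne_top]
    rintro rfl
    rw [finrank_top, h3] at h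
    omega
  obtain ⟨f, hf, hle⟩ := Submodule.exists_le_ker_of_lt_top H hlt
  have hker : Module.finrank ℝ (LinearMap.ker f) + 1 = Module.finrank ℝ V3 :=
    Module.Dual.finrank_ker_add_one_of_ne_zero hf
  have hE : H = LinearMap.ker f := Submodule.eq_of_le_of_finrank_eq hle (by omega)
  have hfx : ∀ x : V3, f x = f (Pi.single 0 1) * x 0 + f (Pi.single 1 1) * x 1 +
      f (Pi.single 2 1) * x 2 := by
    intro x
    have hx : x = x 0 • (Pi.single 0 1 : V3) + x 1 • (Pi.single 1 1 : V3) +
        x 2 • (Pi.single 2 1 : V3) := by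
      ext i
      fin_cases i <;> simp [Pi.single_apply]
    conv_lhs => rw [hx]
    simp only [map_add, map_smul, smul_eq_mul]
    ring
  refine ⟨fun i => f (Pi.single i 1), ?_, ?_⟩
  · intro h0
    apply hf
    ext i
    simpa using congrFun h0 i
  · intro x
    rw [hE, LinearMap.mem_ker, hfx x]

private lemma hom_one (P : MvPolynomial (Fin 3) ℝ) (hP : P.IsHomogeneous 1) :
    P = ∑ i : Fin 3, MvPolynomial.C (P.coeff (Finsupp.single i 1)) * MvPolynomial.X i := by
  ext d
  rw [MvPolynomial.coeff_sum]
  simp only [MvPolynomial.coeff_C_mul, MvPolynomial.coeff_X']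
  by_cases hd : d.degree = 1
  · obtain ⟨j, rfl⟩ : ∃ j, d = Finsupp.single j 1 := by
      have h1 : d.sum (fun _ n => n) = 1 := by
        rw [← hd]; rfl
      obtain ⟨j, hj⟩ := (Finsupp.sum_eq_one_iff d).1 h1
      exact ⟨j, hj⟩
    rw [Finset.sum_eq_single j]
    · simp
    · intro i _ hij
      rw [if_neg, mul_zero]
      intro h
      exact hij (Finsupp.single_left_injective one_ne_zero h)
    · simp
  · rw [hP.coeff_eq_zero hd]
    symm
    apply Finset.sum_eq_zero
    intro i _
    rw [if_neg, mul_zero]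
    intro h
    apply hd
    rw [← h]
    simp

theorem deg_ge_two (T : Set V3) (A : Set (Submodule ℝ V3)) (h : IsTits T A) (hT : T.Nonempty)
    (P : MvPolynomial (Fin 3) ℝ) (n : ℕ) (hP : P.IsHomogeneous n) (hirr : Irreducible P)
    (hc : OnCurve A P) : 2 ≤ n := by
  by_contra hn
  have hn' : n = 0 ∨ n = 1 := by omega
  rcases hn' with rfl | rfl
  · have h0 : P.totalDegree = 0 := (MvPolynomial.totalDegree_zero_iff_isHomogeneous _).2 hP
    have h1 := MvPolynomial.totalDegree_eq_zero_iff_eq_C.1 h0
    apply hirr.not_isUnit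
    rw [h1]
    apply IsUnit.map
    rw [isUnit_iff_ne_zero]
    intro h2
    apply hirr.ne_zero
    rw [h1, h2, map_zero]
  · obtain ⟨x0, hx0⟩ := hT
    obtain ⟨x, _, hx⟩ := comp_dense T A h.toIsArr x0 hx0 Set.univ isOpen_univ (Set.mem_univ _)
    obtain ⟨b, _, _, hb⟩ := chamber_basis T A h x hx
    set c : V3 := fun i => P.coeff (Finsupp.single i 1) with hcdef
    have hev : ∀ a : V3, MvPolynomial.eval a P = a 0 * c 0 + a 1 * c 1 + a 2 * c 2 := by
      intro a
      conv_lhs => rw [hom_one P hP]
      rw [Fin.sum_univ_three]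
      simp only [map_add, map_mul, MvPolynomial.eval_C, MvPolynomial.eval_X, hcdef]
      ring
    have hc0 : c = 0 := by
      have hrep : b.repr c = 0 := by
        ext i
        obtain ⟨a, ha, hax⟩ := normal_exists _ (h.plane _ (hb i))
        have h1 := hc _ (hb i) a ha hax
        rw [hev a] at h1
        have h2 : c ∈ Submodule.span ℝ (b '' {j | j ≠ i}) := (hax c).2 h1
        rw [Module.Basis.mem_span_image] at h2
        by_contra hne
        have h3 : i ∈ (b.repr c).support := by
          rw [Finsupp.mem_support_iff]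
          simpa using hne
        exact h2 h3 rfl
      simpa using hrep
    apply hirr.ne_zero
    rw [hom_one P hP]
    apply Finset.sum_eq_zero
    intro i _
    have : P.coeff (Finsupp.single i 1) = 0 := congrFun hc0 i
    rw [this]
    simp

end Pool.ACA
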