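import Pool.Agent.Lib.MP_aca35e_co.Defs
import Pool.Agent.Lib.MP_aca35e_co.ADefs
import Pool.Agent.Lib.MP_aca35e_co.A2
import Pool.Agent.Lib.MP_aca35e_co.A3
import Pool.Agent.Lib.MP_aca35e_co.A4

/-!
# MP_aca35e_co, row A5: the affine chart
-/

set_option autoImplicit false
set_option linter.unusedVariables false

namespace Pool.ACA

open Set Filter Topology

/-! ### The linear substitution -/

/-- the linear substitution with matrix `M` -/
private noncomputable def subs (M : Fin 3 → Fin 3 → ℝ) :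
    MvPolynomial (Fin 3) ℝ →ₐ[ℝ] MvPolynomial (Fin 3) ℝ :=
  MvPolynomial.aeval (fun i => ∑ j, MvPolynomial.C (M i j) * MvPolynomial.X j)

private theorem subs_comp (M N : Fin 3 → Fin 3 → ℝ)
    (h : ∀ i k, ∑ j, N i j * M j k = if i = k then 1 else 0) :
    (subs M).comp (subs N) = AlgHom.id ℝ _ := by
  apply MvPolynomial.algHom_ext
  intro i
  simp only [subs, AlgHom.comp_apply, MvPolynomial.aeval_X, map_sum, map_mul,
    MvPolynomial.algHom_C, AlgHom.id_apply, Finset.mul_sum]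
  rw [Finset.sum_comm]
  have : ∀ k, ∑ j, (algebraMap ℝ (MvPolynomial (Fin 3) ℝ)) (N i j) *
      (MvPolynomial.C (M j k) * MvPolynomial.X k) =
      MvPolynomial.C (if i = k then (1 : ℝ) else 0) * MvPolynomial.X k := by
    intro k
    rw [← h, map_sum, Finset.sum_mul]
    refine Finset.sum_congr rfl fun j _ => ?_
    rw [MvPolynomial.algebraMap_eq, map_mul, mul_assoc]
  simp_rw [this]
  rw [Finset.sum_eq_single i]
  · simp
  · intro j _ hj
    simp [hj.symm]
  · simp

private theorem subs_irr (M N : Fin 3 → Fin 3 → ℝ)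
    (h : ∀ i k, ∑ j, M i j * N j k = if i = k then 1 else 0)
    (h' : ∀ i k, ∑ j, N i j * M j k = if i = k then 1 else 0)
    (P : MvPolynomial (Fin 3) ℝ) (hP : Irreducible P) : Irreducible (subs M P) := by
  let e : MvPolynomial (Fin 3) ℝ ≃ₐ[ℝ] MvPolynomial (Fin 3) ℝ :=
    AlgEquiv.ofAlgHom (subs M) (subs N) (subs_comp M N h') (subs_comp N M h)
  have : subs M P = e P := rfl
  rw [this]
  exact (MulEquiv.irreducible_iff e.toMulEquiv).mpr hP

private theorem subs_hom (M : Fin 3 → Fin 3 → ℝ) (P : MvPolynomial (Fin 3) ℝ) (n : ℕ)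
    (hP : P.IsHomogeneous n) : (subs M P).IsHomogeneous n := by
  have := hP.aeval (n := 1) (fun i => ∑ j, MvPolynomial.C (M i j) * MvPolynomial.X j) (by
    intro i
    apply MvPolynomial.IsHomogeneous.sum
    intro j _
    have := (MvPolynomial.isHomogeneous_C (Fin 3) (M i j)).mul
      (MvPolynomial.isHomogeneous_X ℝ j)
    simpa using this)
  rw [one_mul] at this
  exact this

private theorem subs_eval (M : Fin 3 → Fin 3 → ℝ) (P : MvPolynomial (Fin 3) ℝ)
    (v : Fin 3 → ℝ) :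
    MvPolynomial.eval v (subs M P) = MvPolynomial.eval (fun i => ∑ j, M i j * v j) P := by
  have : ((MvPolynomial.aeval v).comp (subs M) : MvPolynomial (Fin 3) ℝ →ₐ[ℝ] ℝ) =
      MvPolynomial.aeval (fun i => ∑ j, M i j * v j) := by
    apply MvPolynomial.algHom_ext
    intro i
    simp [subs]
  have h2 := congrArg (fun f => f P) this
  simp only [AlgHom.comp_apply] at h2
  simpa only [MvPolynomial.aeval_def, MvPolynomial.algebraMap_eq, Algebra.algebraMap_self,
    MvPolynomial.eval₂_id] using h2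

/-! ### The chart -/

/-- the linear form with coefficient vector `a` -/
private noncomputable def hl (a : V3) : V3 →ₗ[ℝ] ℝ :=
  a 0 • LinearMap.proj 0 + a 1 • LinearMap.proj 1 + a 2 • LinearMap.proj 2

private theorem hl_apply (a x : V3) : hl a x = a 0 * x 0 + a 1 * x 1 + a 2 * x 2 := by
  simp [hl]

private theorem hl_single (a : V3) (i : Fin 3) : hl a (Pi.single i 1) = a i := by
  rw [hl_apply]
  fin_cases i <;> simp

/-- the chart -/
private noncomputable def pt (B : Module.Basis (Fin 3) ℝ V3) (X : ℝ × ℝ) : V3 :=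
  B 2 + X.1 • B 0 + X.2 • B 1

private theorem exists_basis (α : V3 →ₗ[ℝ] ℝ) (o : V3) (ho : α o = 1) :
    ∃ B : Module.Basis (Fin 3) ℝ V3, α (B 0) = 0 ∧ α (B 1) = 0 ∧ B 2 = o := by
  have hr : Module.finrank ℝ (LinearMap.ker α) = 2 := by
    have h1 := LinearMap.finrank_range_add_finrank_ker α
    have h2 : LinearMap.range α = ⊤ := by
      rw [LinearMap.range_eq_top]
      intro y
      exact ⟨y • o, by simp [ho]⟩
    rw [h2, finrank_top] at h1
    simp at h1
    omega
  let bk := Module.finBasisOfFinrankEq ℝ (LinearMap.ker α) hr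
  have h0 : α (bk 0 : V3) = 0 := (bk 0).2
  have h1 : α (bk 1 : V3) = 0 := (bk 1).2
  have li : LinearIndependent ℝ (![(bk 0 : V3), (bk 1 : V3), o] : Fin 3 → V3) := by
    rw [Fintype.linearIndependent_iff]
    intro g hg
    rw [Fin.sum_univ_three] at hg
    change g 0 • (bk 0 : V3) + g 1 • (bk 1 : V3) + g 2 • o = 0 at hg
    have h2 := congrArg α hg
    simp only [map_add, map_smul, h0, h1, ho, smul_eq_mul, mul_zero, mul_one, zero_add,
      map_zero] at h2
    rw [h2, zero_smul, add_zero] at hg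
    have li2 := (Fintype.linearIndependent_iff.mp bk.linearIndependent) ![g 0, g 1] (by
      rw [Fin.sum_univ_two]
      apply Subtype.ext
      simpa using hg)
    intro i
    fin_cases i
    · exact li2 0
    · exact li2 1
    · exact h2
  refine ⟨basisOfLinearIndependentOfCardEqFinrank li (by simp), ?_, ?_, ?_⟩
  · simp
  · simp
  · simp

section
variable {α : V3 →ₗ[ℝ] ℝ} {B : Module.Basis (Fin 3) ℝ V3}

private theorem al_pt (h0 : α (B 0) = 0) (h1 : α (B 1) = 0) (h2 : α (B 2) = 1) (X : ℝ × ℝ) :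
    α (pt B X) = 1 := by
  simp [pt, h0, h1, h2]

private theorem pt_inj {X Y : ℝ × ℝ} (h : pt B X = pt B Y) : X = Y := by
  have e : ∀ Z : ℝ × ℝ, B.repr (pt B Z) 0 = Z.1 ∧ B.repr (pt B Z) 1 = Z.2 := by
    intro Z
    simp [pt]
  have hX := e X
  have hY := e Y
  rw [h] at hX
  exact Prod.ext (hX.1.symm.trans hY.1) (hX.2.symm.trans hY.2)

private theorem exp3 (h0 : α (B 0) = 0) (h1 : α (B 1) = 0) (h2 : α (B 2) = 1) (x : V3) :
    x = B.repr x 0 • B 0 + B.repr x 1 • B 1 + α x • B 2 := by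
  have hx := B.sum_repr x
  rw [Fin.sum_univ_three] at hx
  have : α x = B.repr x 2 := by
    have := congrArg α hx
    simpa [h0, h1, h2] using this.symm
  rw [this]
  exact hx.symm

private theorem pt_surj (h0 : α (B 0) = 0) (h1 : α (B 1) = 0) (h2 : α (B 2) = 1) (x : V3)
    (hx : α x = 1) : ∃ X : ℝ × ℝ, pt B X = x := by
  refine ⟨(B.repr x 0, B.repr x 1), ?_⟩
  have := exp3 h0 h1 h2 x
  rw [hx, one_smul] at this
  rw [pt]
  refine Eq.trans ?_ this.symm
  simp only
  abel

private theorem cont_pt : Continuous (pt B) := by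
  unfold pt
  fun_prop

/-- the dual point of the plane with normal `a` -/
private noncomputable def dl (B : Module.Basis (Fin 3) ℝ V3) (a : V3) : ℝ × ℝ :=
  (-(hl a (B 0)) / hl a (B 2), -(hl a (B 1)) / hl a (B 2))

private theorem on_dl (a : V3) (ha : hl a (B 2) ≠ 0) (X : ℝ × ℝ) :
    on (dl B a) X ↔ hl a (pt B X) = 0 := by
  simp only [on, dl, pt, map_add, map_smul, smul_eq_mul]
  field_simp
  constructor
  · intro h
    linarith
  · intro h
    linarith

private theorem pt_comb (r s t : ℝ) (X Y Z : ℝ × ℝ) (h : r + s + t = 1) :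
    pt B (r • X + s • Y + t • Z) = r • pt B X + s • pt B Y + t • pt B Z := by
  have : B 2 = (r + s + t) • B 2 := by rw [h, one_smul]
  simp only [pt, Prod.fst_add, Prod.snd_add, Prod.smul_fst, Prod.smul_snd, smul_eq_mul]
  nth_rewrite 1 [this]
  module

private theorem pt_comb' (r s t : ℝ) (X Y v : ℝ × ℝ) (h : r + s = 1) :
    pt B (r • X + s • Y + t • v) = r • pt B X + s • pt B Y + t • (v.1 • B 0 + v.2 • B 1) := by
  have : B 2 = (r + s) • B 2 := by rw [h, one_smul]
  simp only [pt, Prod.fst_add, Prod.snd_add, Prod.smul_fst, Prod.smul_snd, smul_eq_mul]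
  nth_rewrite 1 [this]
  module

end

private theorem sum3 {M : Type*} [AddCommMonoid M] (f : Fin 3 → M) (i j k : Fin 3)
    (hij : i ≠ j) (hjk : j ≠ k) (hik : i ≠ k) : ∑ l, f l = f i + f j + f k := by
  have : (Finset.univ : Finset (Fin 3)) = {i, j, k} := by
    revert i j k
    decide
  rw [this, Finset.sum_insert, Finset.sum_pair hjk, add_assoc]
  simp [hij, hik]

private theorem fin3 (i j k l : Fin 3) (hij : i ≠ j) (hjk : j ≠ k) (hik : i ≠ k) :
    l = i ∨ l = j ∨ l = k := by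
  revert i j k l
  decide

private theorem repr3 (b : Module.Basis (Fin 3) ℝ V3) (i j k : Fin 3) (hij : i ≠ j)
    (hjk : j ≠ k) (hik : i ≠ k) (p q r : ℝ) (hp : 0 < p) (hq : 0 < q) (hr : 0 < r) (l : Fin 3) :
    0 < b.repr (p • b i + q • b j + r • b k) l := by
  rcases fin3 i j k l hij hjk hik with rfl | rfl | rfl
  · simpa [Finsupp.single_apply, hij.symm, hik.symm] using hp
  · simpa [Finsupp.single_apply, hij, hjk.symm] using hq
  · simpa [Finsupp.single_apply, hik, hjk] using hr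

private theorem fin_planes {T : Set V3} {A : Set (Submodule ℝ V3)} (h : IsArr T A) (K : Set V3)
    (hK : IsCompact K) (hKT : K ⊆ T) : {H ∈ A | ((H : Set V3) ∩ K).Nonempty}.Finite := by
  refine hK.induction_on (p := fun K => {H ∈ A | ((H : Set V3) ∩ K).Nonempty}.Finite)
    ?_ ?_ ?_ ?_
  · simp
  · intro s t hst ht
    exact ht.subset fun H hH => ⟨hH.1, hH.2.mono (inter_subset_inter_right _ hst)⟩
  · intro s t hs ht
    refine (hs.union ht).subset ?_
    rintro H ⟨hH, x, hx, hx'⟩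
    rcases hx' with hx' | hx'
    · exact Or.inl ⟨hH, x, hx, hx'⟩
    · exact Or.inr ⟨hH, x, hx, hx'⟩
  · intro x hx
    obtain ⟨U, hU, hxU, -, hf⟩ := h.locfin x (hKT hx)
    exact ⟨U, mem_nhdsWithin_of_mem_nhds (hU.mem_nhds hxU), hf⟩

private theorem cr_ne (v w : ℝ × ℝ)
    (h : ∀ Y : ℝ × ℝ, ∃ s t : ℝ, Y = s • v + t • w) : cr v w ≠ 0 := by
  obtain ⟨s, t, h1⟩ := h (1, 0)
  obtain ⟨s', t', h2⟩ := h (0, 1)
  have h11 := congrArg Prod.fst h1
  have h12 := congrArg Prod.snd h1
  have h21 := congrArg Prod.fst h2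
  have h22 := congrArg Prod.snd h2
  simp only [Prod.fst_add, Prod.snd_add, Prod.smul_fst, Prod.smul_snd, smul_eq_mul] at *
  intro h0
  have : (s * v.1 + t * w.1) * (s' * v.2 + t' * w.2) -
      (s * v.2 + t * w.2) * (s' * v.1 + t' * w.1) = (s * t' - t * s') * cr v w := by
    unfold cr
    ring
  rw [← h11, ← h12, ← h21, ← h22, h0] at this
  norm_num at this

/-- the data of the chart -/
private structure Dat (T : Set V3) (A : Set (Submodule ℝ V3)) (α : V3 →ₗ[ℝ] ℝ)
    (B : Module.Basis (Fin 3) ℝ V3) (N : Submodule ℝ V3 → V3) (W : Set (ℝ × ℝ)) : Prop where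
  h : IsTits T A
  hT : T = {x | 0 < α x}
  h0 : α (B 0) = 0
  h1 : α (B 1) = 0
  h2 : α (B 2) = 1
  mem : ∀ H ∈ A, ∀ x, x ∈ H ↔ hl (N H) x = 0
  ne : ∀ H ∈ A, hl (N H) (B 2) ≠ 0
  W : W = (fun H => dl B (N H)) '' A

section
variable {T : Set V3} {A : Set (Submodule ℝ V3)} {α : V3 →ₗ[ℝ] ℝ}
  {B : Module.Basis (Fin 3) ℝ V3} {N : Submodule ℝ V3 → V3} {W : Set (ℝ × ℝ)}

private theorem on_iff (D : Dat T A α B N W) (H : Submodule ℝ V3) (hH : H ∈ A) (X : ℝ × ℝ) :
    on (dl B (N H)) X ↔ pt B X ∈ H := by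
  rw [on_dl _ (D.ne H hH), D.mem H hH]

private theorem comp_iff (D : Dat T A α B N W) (X : ℝ × ℝ) :
    pt B X ∈ comp T A ↔ ∀ w ∈ W, ¬ on w X := by
  rw [D.W]
  constructor
  · rintro ⟨-, h⟩ w ⟨H, hH, rfl⟩ hw
    exact h H hH ((on_iff D H hH X).mp hw)
  · intro h
    refine ⟨?_, ?_⟩
    · rw [D.hT]
      simp [al_pt D.h0 D.h1 D.h2]
    · intro H hH hx
      exact h _ ⟨H, hH, rfl⟩ ((on_iff D H hH X).mpr hx)

private theorem tri_case (D : Dat T A α B N W) (X : ℝ × ℝ) (b : Module.Basis (Fin 3) ℝ V3)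
    (hx : ∀ i, 0 < b.repr (pt B X) i)
    (hc : ∀ y : V3, (∀ i, 0 < b.repr y i) → y ∈ comp T A)
    (hs : ∀ i, Submodule.span ℝ (b '' {j | j ≠ i}) ∈ A) (hp : ∀ i, 0 < α (b i)) :
    InTri W X := by
  have ha : ∀ i, ∃ a, pt B a = (α (b i))⁻¹ • b i := fun i =>
    pt_surj D.h0 D.h1 D.h2 _ (by
      rw [map_smul, smul_eq_mul, inv_mul_cancel₀ (hp i).ne'])
  choose a ha using ha
  have key : ∀ Y : ℝ × ℝ, b.repr (pt B Y) 0 * α (b 0) + b.repr (pt B Y) 1 * α (b 1) +
      b.repr (pt B Y) 2 * α (b 2) = 1 ∧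
      Y = (b.repr (pt B Y) 0 * α (b 0)) • a 0 + (b.repr (pt B Y) 1 * α (b 1)) • a 1 +
      (b.repr (pt B Y) 2 * α (b 2)) • a 2 := by
    intro Y
    have hY := b.sum_repr (pt B Y)
    rw [Fin.sum_univ_three] at hY
    have h1 : b.repr (pt B Y) 0 * α (b 0) + b.repr (pt B Y) 1 * α (b 1) +
      b.repr (pt B Y) 2 * α (b 2) = 1 := by
      have := congrArg α hY
      rw [al_pt D.h0 D.h1 D.h2] at this
      simpa using this
    refine ⟨h1, ?_⟩
    apply pt_inj (B := B)
    rw [pt_comb _ _ _ _ _ _ h1, ha, ha, ha, smul_smul, smul_smul, smul_smul,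
      mul_assoc, mul_assoc, mul_assoc, mul_inv_cancel₀ (hp 0).ne', mul_inv_cancel₀ (hp 1).ne',
      mul_inv_cancel₀ (hp 2).ne', mul_one, mul_one, mul_one, hY]
  have side : ∀ i j, j ≠ i → on (dl B (N (Submodule.span ℝ (b '' {j | j ≠ i})))) (a j) := by
    intro i j hij
    rw [on_iff D _ (hs i), ha]
    exact Submodule.smul_mem _ _ (Submodule.subset_span ⟨j, hij, rfl⟩)
  have sW : ∀ i, dl B (N (Submodule.span ℝ (b '' {j | j ≠ i}))) ∈ W := by
    intro i
    rw [D.W]
    exact ⟨_, hs i, rfl⟩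
  refine ⟨a 0, a 1, a 2, ?_, ?_, ?_, _, sW 0, _, sW 1, _, sW 2, side 0 1 (by decide),
    side 0 2 (by decide), side 1 0 (by decide), side 1 2 (by decide), side 2 0 (by decide),
    side 2 1 (by decide)⟩
  · obtain ⟨k1, k2⟩ := key X
    exact ⟨_, _, _, mul_pos (hx 0) (hp 0), mul_pos (hx 1) (hp 1), mul_pos (hx 2) (hp 2), k1, k2⟩
  · apply cr_ne
    intro Y
    obtain ⟨k1, k2⟩ := key (a 0 + Y)
    set r := b.repr (pt B (a 0 + Y)) 0 * α (b 0)
    set s := b.repr (pt B (a 0 + Y)) 1 * α (b 1)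
    set t := b.repr (pt B (a 0 + Y)) 2 * α (b 2)
    refine ⟨s, t, ?_⟩
    have hr : r = 1 - s - t := by linarith
    have : Y = (a 0 + Y) - a 0 := by abel
    rw [this]
    nth_rewrite 1 [k2]
    rw [hr]
    module
  · rintro w hw Y ⟨r, s, t, hr, hs', ht, h1, rfl⟩
    refine (comp_iff D _).mp (hc _ ?_) w hw
    intro i
    rw [pt_comb _ _ _ _ _ _ h1, ha, ha, ha, smul_smul, smul_smul, smul_smul]
    exact repr3 b 0 1 2 (by decide) (by decide) (by decide) _ _ _
      (mul_pos hr (inv_pos.mpr (hp 0))) (mul_pos hs' (inv_pos.mpr (hp 1)))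
      (mul_pos ht (inv_pos.mpr (hp 2))) i

private theorem strip_case (D : Dat T A α B N W) (X : ℝ × ℝ) (b : Module.Basis (Fin 3) ℝ V3)
    (hx : ∀ i, 0 < b.repr (pt B X) i)
    (hc : ∀ y : V3, (∀ i, 0 < b.repr y i) → y ∈ comp T A)
    (hs : ∀ i, Submodule.span ℝ (b '' {j | j ≠ i}) ∈ A) (i j k : Fin 3) (hij : i ≠ j)
    (hjk : j ≠ k) (hik : i ≠ k) (hi : α (b i) = 0) (hj : 0 < α (b j)) (hk : 0 < α (b k)) :
    InStrip W X := by
  have ha : ∀ l, 0 < α (b l) → ∃ a, pt B a = (α (b l))⁻¹ • b l := fun l hl =>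
    pt_surj D.h0 D.h1 D.h2 _ (by
      rw [map_smul, smul_eq_mul, inv_mul_cancel₀ hl.ne'])
  obtain ⟨a, haj⟩ := ha j hj
  obtain ⟨c, hck⟩ := ha k hk
  obtain ⟨v, hv⟩ : ∃ v : ℝ × ℝ, v.1 • B 0 + v.2 • B 1 = b i := by
    refine ⟨(B.repr (b i) 0, B.repr (b i) 1), ?_⟩
    have := exp3 D.h0 D.h1 D.h2 (b i)
    rw [hi, zero_smul, add_zero] at this
    exact this.symm
  have key : ∀ Y : ℝ × ℝ, b.repr (pt B Y) j * α (b j) + b.repr (pt B Y) k * α (b k) = 1 ∧
      Y = (b.repr (pt B Y) j * α (b j)) • a + (b.repr (pt B Y) k * α (b k)) • c +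
      b.repr (pt B Y) i • v := by
    intro Y
    have hY := b.sum_repr (pt B Y)
    rw [sum3 _ j k i hjk hik.symm hij.symm] at hY
    have h1 : b.repr (pt B Y) j * α (b j) + b.repr (pt B Y) k * α (b k) = 1 := by
      have := congrArg α hY
      rw [al_pt D.h0 D.h1 D.h2] at this
      simpa [hi] using this
    refine ⟨h1, ?_⟩
    apply pt_inj (B := B)
    rw [pt_comb' _ _ _ _ _ _ h1, haj, hck, hv, smul_smul, smul_smul,
      mul_assoc, mul_assoc, mul_inv_cancel₀ hj.ne', mul_inv_cancel₀ hk.ne', mul_one, mul_one, hY]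
  have sW : ∀ i, dl B (N (Submodule.span ℝ (b '' {j | j ≠ i}))) ∈ W := by
    intro i
    rw [D.W]
    exact ⟨_, hs i, rfl⟩
  have sa : ∀ l, j ≠ l → on (dl B (N (Submodule.span ℝ (b '' {j | j ≠ l})))) a := by
    intro l hl
    rw [on_iff D _ (hs l), haj]
    exact Submodule.smul_mem _ _ (Submodule.subset_span ⟨j, hl, rfl⟩)
  have sc : ∀ l, k ≠ l → on (dl B (N (Submodule.span ℝ (b '' {j | j ≠ l})))) c := by
    intro l hl
    rw [on_iff D _ (hs l), hck]
    exact Submodule.smul_mem _ _ (Submodule.subset_span ⟨k, hl, rfl⟩)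
  have sv : ∀ l, i ≠ l → (dl B (N (Submodule.span ℝ (b '' {j | j ≠ l})))).1 * v.1 +
      (dl B (N (Submodule.span ℝ (b '' {j | j ≠ l})))).2 * v.2 = 0 := by
    intro l hl'
    have h1 : b i ∈ Submodule.span ℝ (b '' {j | j ≠ l}) := Submodule.subset_span ⟨i, hl', rfl⟩
    rw [D.mem _ (hs l), ← hv, map_add, map_smul, map_smul, smul_eq_mul, smul_eq_mul] at h1
    have h2 := D.ne _ (hs l)
    simp only [dl]
    rw [div_mul_eq_mul_div, div_mul_eq_mul_div, ← add_div, div_eq_zero_iff]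
    left
    linarith
  refine ⟨a, c, v, ?_, ?_, ?_, _, sW k, _, sW j, _, sW i, ⟨sa k hjk, sv k hik⟩,
    ⟨sc j hjk.symm, sv j hij⟩, sa i hij.symm, sc i hik.symm⟩
  · obtain ⟨k1, k2⟩ := key X
    exact ⟨_, _, _, mul_pos (hx j) hj, mul_pos (hx k) hk, hx i, k1, k2⟩
  · apply cr_ne
    intro Y
    obtain ⟨k1, k2⟩ := key (a + Y)
    set r := b.repr (pt B (a + Y)) j * α (b j)
    set s := b.repr (pt B (a + Y)) k * α (b k)
    set t := b.repr (pt B (a + Y)) i
    refine ⟨s, t, ?_⟩
    have hr : r = 1 - s := by linarith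
    have : Y = (a + Y) - a := by abel
    rw [this]
    nth_rewrite 1 [k2]
    rw [hr]
    module
  · rintro w hw Y ⟨r, s, t, hr, hs', ht, h1, rfl⟩
    refine (comp_iff D _).mp (hc _ ?_) w hw
    intro l
    rw [pt_comb' _ _ _ _ _ _ h1, haj, hck, hv, smul_smul, smul_smul]
    exact repr3 b j k i hjk hik.symm hij.symm _ _ _
      (mul_pos hr (inv_pos.mpr hj)) (mul_pos hs' (inv_pos.mpr hk)) ht l

private theorem cham_case (D : Dat T A α B N W) (X : ℝ × ℝ) (hX : ∀ w ∈ W, ¬ on w X) :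
    InTri W X ∨ InStrip W X := by
  obtain ⟨b, hx, hc, hs⟩ := chamber_basis T A D.h (pt B X) ((comp_iff D X).mpr hX)
  have hnn : ∀ i, 0 ≤ α (b i) := by
    intro i
    by_contra hlt
    push Not at hlt
    set S := α (b 0) + α (b 1) + α (b 2) with hS
    obtain ⟨e, he, he'⟩ : ∃ e : ℝ, 0 < e ∧ α (b i) + e * S < 0 := by
      refine ⟨-α (b i) / (2 * (|S| + 1)), by
        apply div_pos (by linarith)
        positivity, ?_⟩
      have h1 : S ≤ |S| + 1 := by linarith [le_abs_self S]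
      have h2 : 0 < -α (b i) / (2 * (|S| + 1)) := by
        apply div_pos (by linarith)
        positivity
      have h3 := mul_le_mul_of_nonneg_left h1 h2.le
      have h4 : -α (b i) / (2 * (|S| + 1)) * (|S| + 1) = -α (b i) / 2 := by
        have : |S| + 1 ≠ 0 := by positivity
        field_simp
      linarith
    have h1 := (hc (b i + e • (b 0 + b 1 + b 2)) (by
      intro l
      simp only [map_add, map_smul, Finsupp.coe_add, Finsupp.coe_smul, Pi.add_apply,
        Pi.smul_apply, Module.Basis.repr_self, smul_eq_mul]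
      have h5 : 0 ≤ (Finsupp.single i (1 : ℝ)) l := by
        rw [Finsupp.single_apply]
        split_ifs <;> norm_num
      have h6 : (Finsupp.single (0 : Fin 3) (1 : ℝ)) l + (Finsupp.single (1 : Fin 3) (1 : ℝ)) l +
          (Finsupp.single (2 : Fin 3) (1 : ℝ)) l = 1 := by
        fin_cases l <;> simp
      rw [h6]
      linarith)).1
    rw [D.hT, mem_ofPred_eq] at h1
    simp only [map_add, map_smul, smul_eq_mul] at h1
    rw [← hS] at h1
    linarith
  by_cases hp : ∀ i, 0 < α (b i)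
  · exact Or.inl (tri_case D X b hx hc hs hp)
  right
  push Not at hp
  obtain ⟨i, hi⟩ := hp
  have hi0 : α (b i) = 0 := le_antisymm hi (hnn i)
  have hpos : ∀ j k, i ≠ j → j ≠ k → i ≠ k → 0 < α (b j) := by
    intro j k hij hjk hik
    refine lt_of_le_of_ne (hnn j) ?_
    intro hj0
    obtain ⟨x, hx1, hx2⟩ := D.h.meets _ (hs k)
    have : Submodule.span ℝ (b '' {l | l ≠ k}) ≤ LinearMap.ker α := by
      rw [Submodule.span_le]
      rintro y ⟨l, hl', rfl⟩
      rcases fin3 i j k l hij hjk hik with rfl | rfl | rfl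
      · exact hi0
      · exact hj0.symm
      · exact absurd rfl hl'
    have h3 : α x = 0 := this hx1
    rw [D.hT, mem_ofPred_eq, h3] at hx2
    exact lt_irrefl _ hx2
  obtain ⟨j, k, hij, hjk, hik⟩ : ∃ j k : Fin 3, i ≠ j ∧ j ≠ k ∧ i ≠ k := by
    clear hi hi0 hpos
    revert i
    decide
  exact strip_case D X b hx hc hs i j k hij hjk hik hi0 (hpos j k hij hjk hik)
    (hpos k j hik hjk.symm hij)

private theorem fin_case (D : Dat T A α B N W) (ε : ℝ) (hε : 0 < ε) :
    {w ∈ W | ε ≤ |w.1| ∨ ε ≤ |w.2|}.Finite := by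
  set K : Set V3 := pt B '' Metric.closedBall (0 : ℝ × ℝ) (1 / ε) with hK
  have hKc : IsCompact K := (isCompact_closedBall _ _).image cont_pt
  have hKT : K ⊆ T := by
    rintro x ⟨X, -, rfl⟩
    rw [D.hT]
    simp [al_pt D.h0 D.h1 D.h2]
  refine ((fin_planes D.h.toIsArr K hKc hKT).image (fun H => dl B (N H))).subset ?_
  rintro w ⟨hw, hw'⟩
  rw [D.W] at hw
  obtain ⟨H, hH, rfl⟩ := hw
  refine ⟨H, ⟨hH, ?_⟩, rfl⟩
  set w := (fun H => dl B (N H)) H with hwdef
  obtain ⟨X, hX, hXn⟩ : ∃ X : ℝ × ℝ, on w X ∧ X ∈ Metric.closedBall (0 : ℝ × ℝ) (1 / ε) := by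
    rcases hw' with h1 | h1
    · have h0 : w.1 ≠ 0 := by
        intro h0
        rw [h0, abs_zero] at h1
        linarith
      refine ⟨(1 / w.1, 0), ?_, ?_⟩
      · simp [on, h0]
      · rw [mem_closedBall_zero_iff, Prod.norm_def]
        simp only [norm_zero, Real.norm_eq_abs, abs_div, abs_one]
        rw [max_eq_left (by positivity)]
        exact one_div_le_one_div_of_le hε h1
    · have h0 : w.2 ≠ 0 := by
        intro h0
        rw [h0, abs_zero] at h1
        linarith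
      refine ⟨(0, 1 / w.2), ?_, ?_⟩
      · simp [on, h0]
      · rw [mem_closedBall_zero_iff, Prod.norm_def]
        simp only [norm_zero, Real.norm_eq_abs, abs_div, abs_one]
        rw [max_eq_right (by positivity)]
        exact one_div_le_one_div_of_le hε h1
  exact ⟨pt B X, (on_iff D H hH X).mp hX, X, hXn, rfl⟩

private theorem ne_case (D : Dat T A α B N W) : (0, 0) ∉ W := by
  rw [D.W]
  rintro ⟨H, hH, h0⟩
  obtain ⟨x, hx, hxT⟩ := D.h.meets H hH
  have hne := D.ne H hH
  have e1 : hl (N H) (B 0) = 0 := by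
    have := congrArg Prod.fst h0
    simp only [dl, div_eq_zero_iff, neg_eq_zero] at this
    exact this.resolve_right hne
  have e2 : hl (N H) (B 1) = 0 := by
    have := congrArg Prod.snd h0
    simp only [dl, div_eq_zero_iff, neg_eq_zero] at this
    exact this.resolve_right hne
  have h3 : hl (N H) x = 0 := (D.mem H hH x).mp hx
  rw [exp3 D.h0 D.h1 D.h2 x, map_add, map_add, map_smul, map_smul, map_smul, e1, e2] at h3
  simp only [smul_eq_mul, mul_zero, zero_add, mul_eq_zero] at h3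
  rcases h3 with h3 | h3
  · rw [D.hT, mem_ofPred_eq, h3] at hxT
    exact lt_irrefl _ hxT
  · exact hne h3

end

theorem chart (T : Set V3) (A : Set (Submodule ℝ V3)) (h : IsTits T A) (α : V3 →ₗ[ℝ] ℝ)
    (hα : α ≠ 0) (hT : T = {x | 0 < α x}) (P : MvPolynomial (Fin 3) ℝ) (n : ℕ)
    (hP : P.IsHomogeneous n) (hirr : Irreducible P) (hc : OnCurve A P) :
    ∃ (P' : MvPolynomial (Fin 3) ℝ) (W : Set (ℝ × ℝ)), P'.IsHomogeneous n ∧ Irreducible P' ∧
      (∀ w ∈ W, MvPolynomial.eval ![w.1, w.2, 1] P' = 0) ∧ Aff W := by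
  classical
  obtain ⟨y, hy⟩ : ∃ y, 0 < α y := by
    by_contra hcon
    push Not at hcon
    apply hα
    refine LinearMap.ext fun x => ?_
    apply le_antisymm (by simpa using hcon x)
    have := hcon (-x)
    rw [map_neg] at this
    simpa using this
  obtain ⟨o₀, -, ho₀, ho₀'⟩ := comp_dense T A h.toIsArr y (by rw [hT]; exact hy) univ isOpen_univ
    (mem_univ _)
  rw [hT, mem_ofPred_eq] at ho₀
  obtain ⟨B, h0, h1, hB2⟩ := exists_basis α ((α o₀)⁻¹ • o₀) (by
    rw [map_smul, smul_eq_mul, inv_mul_cancel₀ ho₀.ne'])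
  have h2 : α (B 2) = 1 := by
    rw [hB2, map_smul, smul_eq_mul, inv_mul_cancel₀ ho₀.ne']
  choose! N hN0 hN using normal_exists
  have hmem : ∀ H ∈ A, ∀ x, x ∈ H ↔ hl (N H) x = 0 := by
    intro H hH x
    rw [hN H (h.plane H hH), hl_apply]
  have hne : ∀ H ∈ A, hl (N H) (B 2) ≠ 0 := by
    intro H hH h3
    rw [← hmem H hH, hB2, Submodule.smul_mem_iff _ (inv_ne_zero ho₀.ne')] at h3
    exact ho₀' H hH h3
  have D : Dat T A α B N ((fun H => dl B (N H)) '' A) := ⟨h, hT, h0, h1, h2, hmem, hne, rfl⟩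
  set s : Fin 3 → ℝ := ![-1, -1, 1] with hs
  have hss : ∀ i, s i * s i = 1 := by
    intro i
    fin_cases i <;> simp [hs]
  set M : Fin 3 → Fin 3 → ℝ := fun i j => s j * B.repr (Pi.single i 1) j with hM
  set M' : Fin 3 → Fin 3 → ℝ := fun j l => s j * B j l with hM'
  have hMM' : ∀ i k, ∑ j, M i j * M' j k = if i = k then 1 else 0 := by
    intro i k
    have h3 := congrArg (fun f => f k) (B.sum_repr (Pi.single i 1))
    simp only [Finset.sum_apply, Pi.smul_apply, smul_eq_mul, Pi.single_apply] at h3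
    rw [show (if i = k then (1 : ℝ) else 0) = if k = i then 1 else 0 by simp [eq_comm], ← h3]
    refine Finset.sum_congr rfl fun j _ => ?_
    have := hss j
    simp only [hM, hM']
    linear_combination (B.repr (Pi.single i 1) j * B j k) * this
  have hM'M : ∀ i k, ∑ j, M' i j * M j k = if i = k then 1 else 0 := by
    intro i k
    have h3 : B.repr (∑ j, B i j • (Pi.single j (1 : ℝ) : V3)) k = B.repr (B i) k := by
      congr 2
      ext l
      simp [Pi.single_apply]
    rw [map_sum] at h3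
    simp only [Finsupp.coe_finsetSum, Finset.sum_apply, map_smul, Finsupp.coe_smul,
      Pi.smul_apply, smul_eq_mul, Module.Basis.repr_self] at h3
    have h4 : ∑ j, M' i j * M j k = s i * s k *
        ∑ j, B i j * B.repr (Pi.single j 1) k := by
      rw [Finset.mul_sum]
      refine Finset.sum_congr rfl fun j _ => ?_
      simp only [hM, hM']
      ring
    rw [h4, h3, Finsupp.single_apply]
    split_ifs with hik
    · rw [← hik, hss, one_mul]
    · simp
  refine ⟨subs M P, (fun H => dl B (N H)) '' A, subs_hom M P n hP,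
    subs_irr M M' hMM' hM'M P hirr, ?_, ne_case D, fun ε hε => fin_case D ε hε,
    fun X hX => cham_case D X hX⟩
  rintro w ⟨H, hH, rfl⟩
  rw [subs_eval]
  have hne' := hne H hH
  have e : (fun i => ∑ j, M i j * (![(dl B (N H)).1, (dl B (N H)).2, 1] : Fin 3 → ℝ) j) =
      (hl (N H) (B 2))⁻¹ • N H := by
    funext i
    rw [Fin.sum_univ_three]
    have h5 := congrArg (hl (N H)) (B.sum_repr (Pi.single i 1))
    rw [Fin.sum_univ_three, hl_single] at h5
    simp only [map_add, map_smul, smul_eq_mul] at h5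
    simp only [hM, hs, dl, Matrix.cons_val_zero, Matrix.cons_val_one, Matrix.cons_val,
      Pi.smul_apply, smul_eq_mul]
    rw [← h5]
    field_simp
  change MvPolynomial.eval (fun i => ∑ j, M i j *
    (![(dl B (N H)).1, (dl B (N H)).2, 1] : Fin 3 → ℝ) j) P = 0
  rw [e]
  apply hc H hH
  · intro h6
    rcases smul_eq_zero.mp h6 with h7 | h7
    · exact inv_ne_zero hne' h7
    · exact hN0 H (h.plane H hH) h7
  · intro x
    rw [hN H (h.plane H hH)]
    simp only [Pi.smul_apply, smul_eq_mul]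
    constructor
    · intro h8
      linear_combination (hl (N H) (B 2))⁻¹ * h8
    · intro h8
      have h9 : (hl (N H) (B 2))⁻¹ * (N H 0 * x 0 + N H 1 * x 1 + N H 2 * x 2) = 0 := by
        linear_combination h8
      exact (mul_eq_zero.mp h9).resolve_left (inv_ne_zero hne')

end Pool.ACA
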