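import Pool.Agent.Lib.MP_aca35e_co.Defs
import Pool.Agent.Lib.MP_aca35e_co.ADefs

/-!
# MP_aca35e_co, row A6

No half-strips. A half-strip chamber with direction `v`, whose parallel side with the larger value of
`cr v ·` has the value `μ`, produces another one with a larger value (`step`); the values belong to
the finite set of the lines of `W` parallel to `v`.
-/

set_option autoImplicit false
set_option linter.unusedVariables false

namespace Pool.ACA

open Set Filter Topology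

private def Str (W : Set (ℝ × ℝ)) (v a b : ℝ × ℝ) : Prop :=
  cr v a < cr v b ∧ (∀ w ∈ W, ∀ Y ∈ hstrip a b v, ¬ on w Y) ∧
    (∃ w ∈ W, on w a ∧ w.1 * v.1 + w.2 * v.2 = 0) ∧
    (∃ w ∈ W, on w b ∧ w.1 * v.1 + w.2 * v.2 = 0)

private lemma Str.ne {W : Set (ℝ × ℝ)} {v a b : ℝ × ℝ} (h : Str W v a b) : v ≠ 0 := by
  rintro rfl
  have := h.1
  simp [cr] at this

private lemma sq_pos' {v : ℝ × ℝ} (h : v ≠ 0) : 0 < v.1 * v.1 + v.2 * v.2 := by
  by_cases h1 : v.1 = 0
  · have h2 : v.2 ≠ 0 := fun h2 => h (Prod.ext h1 h2)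
    have := mul_self_pos.2 h2
    nlinarith [mul_self_nonneg v.1]
  · have := mul_self_pos.2 h1
    nlinarith [mul_self_nonneg v.2]

/-- two vectors orthogonal to a nonzero vector have cross product zero -/
private lemma cr_zero {l x y : ℝ × ℝ} (hl : l ≠ 0) (hx : l.1 * x.1 + l.2 * x.2 = 0)
    (hy : l.1 * y.1 + l.2 * y.2 = 0) : cr x y = 0 := by
  have h := sq_pos' hl
  have h1 : l.1 * cr x y = 0 := by
    simp only [cr]
    linear_combination y.2 * hx - x.2 * hy
  have h2 : l.2 * cr x y = 0 := by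
    simp only [cr]
    linear_combination x.1 * hy - y.1 * hx
  have h3 : (l.1 * l.1 + l.2 * l.2) * cr x y = 0 := by
    linear_combination l.1 * h1 + l.2 * h2
  exact (mul_eq_zero.1 h3).resolve_left h.ne'

private lemma par {l v x : ℝ × ℝ} (hl : l ≠ 0) (hv : v ≠ 0) (hlv : l.1 * v.1 + l.2 * v.2 = 0)
    (hx : l.1 * x.1 + l.2 * x.2 = 0) : ∃ τ : ℝ, x = τ • v := by
  have h0 := cr_zero hl hlv hx
  have h1 := sq_pos' hv
  obtain ⟨τ, hτ⟩ : ∃ τ, τ * (v.1 * v.1 + v.2 * v.2) = x.1 * v.1 + x.2 * v.2 :=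
    ⟨(x.1 * v.1 + x.2 * v.2) / (v.1 * v.1 + v.2 * v.2), div_mul_cancel₀ _ h1.ne'⟩
  refine ⟨τ, ?_⟩
  simp only [cr] at h0
  refine Prod.ext ?_ ?_
  · simp only [Prod.smul_fst, smul_eq_mul]
    refine mul_right_cancel₀ h1.ne' ?_
    linear_combination (-v.2) * h0 - v.1 * hτ
  · simp only [Prod.smul_snd, smul_eq_mul]
    refine mul_right_cancel₀ h1.ne' ?_
    linear_combination v.1 * h0 - v.2 * hτ

private lemma on_ne {l x : ℝ × ℝ} (h : on l x) : l ≠ 0 := by
  rintro rfl
  simp [on] at h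

private lemma cr_ne {l v b : ℝ × ℝ} (hv : v ≠ 0) (hlb : on l b)
    (hlv : l.1 * v.1 + l.2 * v.2 = 0) : cr v b ≠ 0 := by
  intro h0
  simp only [cr] at h0
  simp only [on] at hlb
  apply hv
  refine Prod.ext ?_ ?_
  · show v.1 = 0
    linear_combination (-v.1) * hlb + l.2 * h0 + b.1 * hlv
  · show v.2 = 0
    linear_combination (-v.2) * hlb - l.1 * h0 + b.2 * hlv

private lemma uniq_line {l w v b : ℝ × ℝ} (hv : v ≠ 0) (hlb : on l b)
    (hlv : l.1 * v.1 + l.2 * v.2 = 0) (hwb : on w b) (hwv : w.1 * v.1 + w.2 * v.2 = 0) :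
    w = l := by
  have h0 := cr_ne hv hlb hlv
  have h1 : (w.1 - l.1) * cr v b = 0 := by
    simp only [cr, on] at *
    linear_combination b.2 * (hwv - hlv) - v.2 * (hwb - hlb)
  have h2 : (w.2 - l.2) * cr v b = 0 := by
    simp only [cr, on] at *
    linear_combination v.1 * (hwb - hlb) - b.1 * (hwv - hlv)
  refine Prod.ext ?_ ?_
  · exact sub_eq_zero.1 ((mul_eq_zero.1 h1).resolve_right h0)
  · exact sub_eq_zero.1 ((mul_eq_zero.1 h2).resolve_right h0)

/-- only one line passes through the points of the open ray -/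
private lemma ray {W : Set (ℝ × ℝ)} {v a b : ℝ × ℝ} (h : Str W v a b) {l : ℝ × ℝ}
    (hlb : on l b) (hlv : l.1 * v.1 + l.2 * v.2 = 0) {t : ℝ} (ht : 0 < t) {w : ℝ × ℝ}
    (hw : w ∈ W) (hon : on w (b + t • v)) : w = l := by
  have hv := h.ne
  by_cases hwv : w.1 * v.1 + w.2 * v.2 = 0
  · refine uniq_line hv hlb hlv ?_ hwv
    simp only [on, Prod.fst_add, Prod.snd_add, Prod.smul_fst, Prod.smul_snd, smul_eq_mul] at hon ⊢
    linear_combination hon - t * hwv
  · exfalso
    set κ : ℝ := (w.1 * (a.1 - b.1) + w.2 * (a.2 - b.2)) / (w.1 * v.1 + w.2 * v.2) with hκ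
    have hκ' : κ * (w.1 * v.1 + w.2 * v.2) = w.1 * (a.1 - b.1) + w.2 * (a.2 - b.2) := by
      rw [hκ]; field_simp
    set ε : ℝ := min (1 / 2) (t / (2 * (|κ| + 1))) with hε
    have hκ0 : 0 ≤ |κ| := abs_nonneg _
    have hε0 : 0 < ε := lt_min (by norm_num) (by positivity)
    have hε1 : ε ≤ 1 / 2 := min_le_left _ _
    have hε2 : ε ≤ t / (2 * (|κ| + 1)) := min_le_right _ _
    have hε3 : ε * (2 * (|κ| + 1)) ≤ t := by
      rwa [le_div_iff₀ (by positivity)] at hε2
    have hε4 : ε * κ < t := by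
      have h1 : ε * κ ≤ ε * |κ| := mul_le_mul_of_nonneg_left (le_abs_self κ) hε0.le
      nlinarith
    refine h.2.1 w hw (ε • a + (1 - ε) • b + (t - ε * κ) • v) ⟨ε, 1 - ε, t - ε * κ, hε0,
      by linarith, by linarith, by ring, rfl⟩ ?_
    simp only [on, Prod.fst_add, Prod.snd_add, Prod.smul_fst, Prod.smul_snd, smul_eq_mul] at hon ⊢
    linear_combination hon - ε * hκ'

private lemma side {W : Set (ℝ × ℝ)} {v a b : ℝ × ℝ} (h : Str W v a b) {l : ℝ × ℝ}
    (hlb : on l b) (hlv : l.1 * v.1 + l.2 * v.2 = 0) {p q : ℝ × ℝ} (hp : on l p) (hq : on l q)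
    {s t : ℝ} (hs : 0 ≤ s) (ht : 0 ≤ t) (hst : s + t = 1) (hM : b + v = s • p + t • q) :
    (∀ w ∈ W, on w p → w = l) ∨ (∀ w ∈ W, on w q → w = l) := by
  have hv := h.ne
  have hl := on_ne hlb
  obtain ⟨τ, hτ⟩ : ∃ τ : ℝ, p - b = τ • v := by
    refine par hl hv hlv ?_
    simp only [on, Prod.fst_sub, Prod.snd_sub] at *
    linear_combination hp - hlb
  obtain ⟨τ', hτ'⟩ : ∃ τ : ℝ, q - b = τ • v := by
    refine par hl hv hlv ?_
    simp only [on, Prod.fst_sub, Prod.snd_sub] at *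
    linear_combination hq - hlb
  have hp' : p = b + τ • v := by rw [← hτ]; abel
  have hq' : q = b + τ' • v := by rw [← hτ']; abel
  have hsum : s * τ + t * τ' = 1 := by
    have h1 : v = (s * τ + t * τ') • v := by
      have h2 : b + v = b + (s * τ + t * τ') • v := by
        calc b + v = s • p + t • q := hM
          _ = (s + t) • b + (s * τ + t * τ') • v := by
              rw [hp', hq']; module
          _ = b + (s * τ + t * τ') • v := by rw [hst, one_smul]
      exact add_left_cancel h2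
    have h3 : (1 - (s * τ + t * τ')) • v = 0 := by
      rw [sub_smul, one_smul, ← h1, sub_self]
    have := (smul_eq_zero.1 h3).resolve_right hv
    linarith
  by_cases hτ0 : 0 < τ
  · left
    intro w hw hon
    rw [hp'] at hon
    exact ray h hlb hlv hτ0 hw hon
  · right
    have hτ1 : 0 < τ' := by
      by_contra hcon
      push Not at hcon hτ0
      nlinarith [mul_nonneg hs (neg_nonneg.2 hτ0), mul_nonneg ht (neg_nonneg.2 hcon)]
    intro w hw hon
    rw [hq'] at hon
    exact ray h hlb hlv hτ1 hw hon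

private lemma sign' {r r0 : ℝ} (hr0 : 0 < r0)
    (hne : ∀ σ : ℝ, 0 < σ → σ ≤ 1 → (1 - σ) * r + σ * r0 ≠ 0) : 0 ≤ r := by
  by_contra hr
  push Not at hr
  have hpos : 0 < r0 - r := by linarith
  refine hne (-r / (r0 - r)) (div_pos (by linarith) hpos) ?_ ?_
  · rw [div_le_one hpos]; linarith
  · field_simp
    ring

private lemma bary {W : Set (ℝ × ℝ)} {M u : ℝ × ℝ} {η : ℝ} (hη : 0 < η)
    (hno : ∀ σ : ℝ, 0 < σ → σ ≤ η → ∀ w ∈ W, ¬ on w (M + σ • u))
    {a b c : ℝ × ℝ} {A B C : ℝ} {w : ℝ × ℝ} (hw : w ∈ W)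
    (hb : w.1 * b.1 + w.2 * b.2 = B) (hc : w.1 * c.1 + w.2 * c.2 = C)
    {r s t r0 s0 t0 : ℝ} (h1 : r * A + s * B + t * C = 1) (h10 : r0 * A + s0 * B + t0 * C = 1)
    (hM : M = r • a + s • b + t • c) (hY : M + η • u = r0 • a + s0 • b + t0 • c)
    (hr0 : 0 < r0) : 0 ≤ r ∧ (r = 0 → on w M) := by
  have hM1 : M.1 = r * a.1 + s * b.1 + t * c.1 := by
    rw [hM]; simp
  have hM2 : M.2 = r * a.2 + s * b.2 + t * c.2 := by
    rw [hM]; simp
  have hY1 : M.1 + η * u.1 = r0 * a.1 + s0 * b.1 + t0 * c.1 := by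
    have := congrArg Prod.fst hY
    simpa using this
  have hY2 : M.2 + η * u.2 = r0 * a.2 + s0 * b.2 + t0 * c.2 := by
    have := congrArg Prod.snd hY
    simpa using this
  constructor
  · refine sign' hr0 ?_
    intro σ hσ hσ1 h0
    refine hno (σ * η) (by positivity) (by nlinarith) w hw ?_
    simp only [on, Prod.fst_add, Prod.snd_add, Prod.smul_fst, Prod.smul_snd, smul_eq_mul]
    linear_combination (1 - σ) * w.1 * hM1 + (1 - σ) * w.2 * hM2 + σ * w.1 * hY1 + σ * w.2 * hY2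
      + ((1 - σ) * s + σ * s0) * hb + ((1 - σ) * t + σ * t0) * hc
      + (w.1 * a.1 + w.2 * a.2 - A) * h0 + (1 - σ) * h1 + σ * h10
  · intro h0
    simp only [on]
    linear_combination w.1 * hM1 + w.2 * hM2 + s * hb + t * hc
      + (w.1 * a.1 + w.2 * a.2 - A) * h0 + h1

private lemma coord {a b c : ℝ × ℝ} (h : cr (b - a) (c - a) ≠ 0) (M : ℝ × ℝ) :
    ∃ r s t : ℝ, r + s + t = 1 ∧ M = r • a + s • b + t • c := by
  obtain ⟨s, hs⟩ : ∃ s, s * cr (b - a) (c - a) = cr (M - a) (c - a) :=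
    ⟨cr (M - a) (c - a) / cr (b - a) (c - a), div_mul_cancel₀ _ h⟩
  obtain ⟨t, ht⟩ : ∃ t, t * cr (b - a) (c - a) = cr (b - a) (M - a) :=
    ⟨cr (b - a) (M - a) / cr (b - a) (c - a), div_mul_cancel₀ _ h⟩
  refine ⟨1 - s - t, s, t, by ring, ?_⟩
  simp only [cr, Prod.fst_sub, Prod.snd_sub] at h hs ht
  refine Prod.ext ?_ ?_
  · simp only [Prod.fst_add, Prod.smul_fst, smul_eq_mul]
    refine mul_right_cancel₀ h ?_
    linear_combination (-(b.1 - a.1)) * hs - (c.1 - a.1) * ht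
  · simp only [Prod.snd_add, Prod.smul_snd, smul_eq_mul]
    refine mul_right_cancel₀ h ?_
    linear_combination (-(b.2 - a.2)) * hs - (c.2 - a.2) * ht

private lemma coord' {a b v : ℝ × ℝ} (h : cr (b - a) v ≠ 0) (M : ℝ × ℝ) :
    ∃ r s t : ℝ, r + s = 1 ∧ M = r • a + s • b + t • v := by
  obtain ⟨s, hs⟩ : ∃ s, s * cr (b - a) v = cr (M - a) v :=
    ⟨cr (M - a) v / cr (b - a) v, div_mul_cancel₀ _ h⟩
  obtain ⟨t, ht⟩ : ∃ t, t * cr (b - a) v = cr (b - a) (M - a) :=
    ⟨cr (b - a) (M - a) / cr (b - a) v, div_mul_cancel₀ _ h⟩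
  refine ⟨1 - s, s, t, by ring, ?_⟩
  simp only [cr, Prod.fst_sub, Prod.snd_sub] at h hs ht
  refine Prod.ext ?_ ?_
  · simp only [Prod.fst_add, Prod.smul_fst, smul_eq_mul]
    refine mul_right_cancel₀ h ?_
    linear_combination (-(b.1 - a.1)) * hs - v.1 * ht
  · simp only [Prod.snd_add, Prod.smul_snd, smul_eq_mul]
    refine mul_right_cancel₀ h ?_
    linear_combination (-(b.2 - a.2)) * hs - v.2 * ht

/-- near a point of exactly one line there are no other lines -/
private lemma near {W : Set (ℝ × ℝ)} (h : Aff W) {M l : ℝ × ℝ}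
    (hM : ∀ w ∈ W, on w M → w = l) : ∀ᶠ Y in 𝓝 M, ∀ w ∈ W, on w Y → w = l := by
  set R : ℝ := ‖M‖ + 1 with hR
  have hRpos : 0 < R := by positivity
  have hF := h.fin (1 / (2 * R)) (by positivity)
  have e1 : ∀ᶠ Y in 𝓝 M, ‖Y‖ < R :=
    (continuous_norm.tendsto M).eventually (gt_mem_nhds (by rw [hR]; linarith))
  have e2 : ∀ᶠ Y in 𝓝 M, ∀ w ∈ {w ∈ W | 1 / (2 * R) ≤ |w.1| ∨ 1 / (2 * R) ≤ |w.2|},
      on w Y → w = l := by
    rw [Filter.eventually_all_finite hF]
    rintro w ⟨hw, -⟩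
    by_cases hwl : w = l
    · exact Filter.Eventually.of_forall fun Y _ => hwl
    · have hne : w.1 * M.1 + w.2 * M.2 ≠ 1 := fun h1 => hwl (hM w hw h1)
      have hcont : Continuous fun Y : ℝ × ℝ => w.1 * Y.1 + w.2 * Y.2 := by fun_prop
      filter_upwards [(hcont.tendsto M).eventually_ne hne] with Y hY hon
      exact absurd hon hY
  filter_upwards [e1, e2] with Y hY1 hY2 w hw hon
  refine hY2 w ⟨hw, ?_⟩ hon
  by_contra hcon
  push Not at hcon
  obtain ⟨h1, h2⟩ := hcon
  have hy1 : |Y.1| ≤ R := by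
    have : ‖Y.1‖ ≤ ‖Y‖ := norm_fst_le Y
    rw [Real.norm_eq_abs] at this
    linarith
  have hy2 : |Y.2| ≤ R := by
    have : ‖Y.2‖ ≤ ‖Y‖ := norm_snd_le Y
    rw [Real.norm_eq_abs] at this
    linarith
  have h3 : |w.1| * |Y.1| ≤ |w.1| * R := mul_le_mul_of_nonneg_left hy1 (abs_nonneg _)
  have h4 : |w.2| * |Y.2| ≤ |w.2| * R := mul_le_mul_of_nonneg_left hy2 (abs_nonneg _)
  have h5 : |w.1| * R < 1 / 2 := by
    have := mul_lt_mul_of_pos_right h1 hRpos
    have h6 : 1 / (2 * R) * R = 1 / 2 := by field_simp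
    linarith
  have h6 : |w.2| * R < 1 / 2 := by
    have := mul_lt_mul_of_pos_right h2 hRpos
    have h6 : 1 / (2 * R) * R = 1 / 2 := by field_simp
    linarith
  have h7 : (1 : ℝ) ≤ |w.1| * |Y.1| + |w.2| * |Y.2| := by
    have h8 : (1 : ℝ) = |w.1 * Y.1 + w.2 * Y.2| := by
      rw [show w.1 * Y.1 + w.2 * Y.2 = 1 from hon, abs_one]
    rw [h8, ← abs_mul, ← abs_mul]
    exact abs_add_le _ _
  linarith

/-- a half-strip which is bounded by the ray produces a new half-strip -/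
private lemma newstrip {W : Set (ℝ × ℝ)} {v a b : ℝ × ℝ} (hs : Str W v a b) {l : ℝ × ℝ}
    (hlb : on l b) (hlv : l.1 * v.1 + l.2 * v.2 = 0)
    {a' b' v' : ℝ × ℝ} (hD : cr (b' - a') v' ≠ 0)
    (hno : ∀ w ∈ W, ∀ Y ∈ hstrip a' b' v', ¬ on w Y)
    {wa wb wc : ℝ × ℝ} (hwa : wa ∈ W) (hwb : wb ∈ W) (hwc : wc ∈ W)
    (ha : on wa a') (hav : wa.1 * v'.1 + wa.2 * v'.2 = 0)
    (hb : on wb b') (hbv : wb.1 * v'.1 + wb.2 * v'.2 = 0) (hca : on wc a') (hcb : on wc b')
    (hal : wa = l) {r t : ℝ} (hr : r = 1) (ht : 0 ≤ t) (hM : b + v = r • a' + t • v')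
    {Y : ℝ × ℝ} (hY : Y ∈ hstrip a' b' v') (hYb : cr v b < cr v Y) :
    ∃ a'' b'', Str W v a'' b'' ∧ cr v b < cr v b'' := by
  subst hal
  subst hr
  have hv := hs.ne
  have hl := on_ne hlb
  obtain ⟨κ, hκ⟩ := par hl hv hlv hav
  obtain ⟨τ, hτ⟩ : ∃ τ : ℝ, a' - b = τ • v := by
    refine par hl hv hlv ?_
    simp only [on, Prod.fst_sub, Prod.snd_sub] at *
    linear_combination ha - hlb
  have ha' : a' = b + τ • v := by rw [← hτ]; abel
  have hsum : τ + t * κ = 1 := by
    have h1 : b + v = b + (τ + t * κ) • v := by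
      rw [hM, ha', hκ]; module
    have h2 : v = (τ + t * κ) • v := add_left_cancel h1
    have h3 : (1 - (τ + t * κ)) • v = 0 := by
      rw [sub_smul, one_smul, ← h2, sub_self]
    have := (smul_eq_zero.1 h3).resolve_right hv
    linarith
  have hκ0 : 0 < κ := by
    by_contra hcon
    push Not at hcon
    have hτ0 : 0 < τ := by nlinarith [mul_nonneg ht (neg_nonneg.2 hcon)]
    have hcl : wc = wa := by
      refine ray hs hlb hlv hτ0 hwc ?_
      rw [← ha']; exact hca
    subst hcl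
    refine hD (cr_zero hl ?_ hav)
    simp only [on, Prod.fst_sub, Prod.snd_sub] at *
    linear_combination hcb - hca
  have hcra : cr v a' = cr v b := by
    rw [ha']; simp only [cr, Prod.fst_add, Prod.snd_add, Prod.smul_fst, Prod.smul_snd, smul_eq_mul]
    ring
  have hlt : cr v a' < cr v b' := by
    obtain ⟨x, y, z, hx, hy, hz, hxy, rfl⟩ := hY
    have h1 : cr v (x • a' + y • b' + z • v') = x * cr v a' + y * cr v b' := by
      rw [hκ]
      simp only [cr, Prod.fst_add, Prod.snd_add, Prod.smul_fst, Prod.smul_snd, smul_eq_mul]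
      ring
    rw [h1, ← hcra] at hYb
    have h2 : x = 1 - y := by linarith
    rw [h2] at hYb
    have h3 : 0 < y * (cr v b' - cr v a') := by linarith
    have := (mul_pos_iff_of_pos_left hy).1 h3
    linarith
  refine ⟨a', b', ⟨hlt, ?_, ⟨wa, hwa, ha, hlv⟩, ⟨wb, hwb, hb, ?_⟩⟩, by rw [← hcra]; exact hlt⟩
  · rintro w hw Z ⟨x, y, z, hx, hy, hz, hxy, rfl⟩
    refine hno w hw _ ⟨x, y, z / κ, hx, hy, div_pos hz hκ0, hxy, ?_⟩
    rw [hκ, smul_smul, div_mul_cancel₀ _ hκ0.ne']
  · rw [hκ] at hbv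
    simp only [Prod.smul_fst, Prod.smul_snd, smul_eq_mul] at hbv
    have h1 : κ * (wb.1 * v.1 + wb.2 * v.2) = 0 := by linear_combination hbv
    exact (mul_eq_zero.1 h1).resolve_left hκ0.ne'

private lemma step {W : Set (ℝ × ℝ)} (h : Aff W) {v a b : ℝ × ℝ} (hs : Str W v a b) :
    ∃ a' b', Str W v a' b' ∧ cr v b < cr v b' := by
  have hv := hs.ne
  obtain ⟨l, hl, hlb, hlv⟩ := hs.2.2.2
  have hl0 := on_ne hlb
  have hlM : on l (b + v) := by
    simp only [on, Prod.fst_add, Prod.snd_add] at hlb ⊢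
    linear_combination hlb + hlv
  have hMl : ∀ w ∈ W, on w (b + v) → w = l := by
    intro w hw hon
    refine ray hs hlb hlv (t := 1) one_pos hw ?_
    rwa [one_smul]
  have hlu : l.1 * (b - a).1 + l.2 * (b - a).2 ≠ 0 := by
    intro h0
    have h1 := cr_zero hl0 hlv h0
    have h2 := hs.1
    simp only [cr, Prod.fst_sub, Prod.snd_sub] at h1 h2
    linarith
  -- the segment
  obtain ⟨η, hη, hno⟩ : ∃ η : ℝ, 0 < η ∧
      ∀ σ : ℝ, 0 < σ → σ ≤ η → ∀ w ∈ W, ¬ on w (b + v + σ • (b - a)) := by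
    have hc : Continuous fun σ : ℝ => b + v + σ • (b - a) := by fun_prop
    have h1 := hc.tendsto 0
    simp only [zero_smul, add_zero] at h1
    have h2 := h1.eventually (near h hMl)
    obtain ⟨ε, hε, h3⟩ := Metric.eventually_nhds_iff.1 h2
    refine ⟨ε / 2, by linarith, fun σ hσ hσ' w hw hon => ?_⟩
    have hwl : w = l := by
      refine h3 ?_ w hw hon
      rw [Real.dist_eq, sub_zero, abs_of_pos hσ]
      linarith
    subst hwl
    simp only [on, Prod.fst_add, Prod.snd_add, Prod.smul_fst, Prod.smul_snd, smul_eq_mul,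
      Prod.fst_sub, Prod.snd_sub] at hlM hon hlu
    have h4 : σ * (w.1 * (b.1 - a.1) + w.2 * (b.2 - a.2)) = 0 := by
      linear_combination hon - hlM
    exact hlu ((mul_eq_zero.1 h4).resolve_left hσ.ne')
  have hYcr : cr v b < cr v (b + v + η • (b - a)) := by
    have h1 : cr v (b + v + η • (b - a)) = cr v b + η * (cr v b - cr v a) := by
      simp only [cr, Prod.fst_add, Prod.snd_add, Prod.smul_fst, Prod.smul_snd, smul_eq_mul,
        Prod.fst_sub, Prod.snd_sub]
      ring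
    rw [h1]
    have := mul_pos hη (sub_pos.2 hs.1)
    linarith
  rcases h.cham (b + v + η • (b - a)) (hno η hη le_rfl) with hT | hS
  · exfalso
    obtain ⟨p, q, c, ⟨r0, s0, t0, hr0, hs0, ht0, hsum0, hY⟩, hD, hch, wa, hwa, wb, hwb, wc, hwc,
      h1, h2, h3, h4, h5, h6⟩ := hT
    obtain ⟨r, s, t, hsum, hM⟩ := coord hD (b + v)
    have B1 := bary hη hno (a := p) (b := q) (c := c) (A := 1) (B := 1) (C := 1) (w := wa) hwa
      h1 h2 (r := r) (s := s) (t := t) (r0 := r0) (s0 := s0) (t0 := t0)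
      (by linarith) (by linarith) hM hY hr0
    have B2 := bary hη hno (a := q) (b := p) (c := c) (A := 1) (B := 1) (C := 1) (w := wb) hwb
      h3 h4 (r := s) (s := r) (t := t) (r0 := s0) (s0 := r0) (t0 := t0)
      (by linarith) (by linarith) (by rw [hM]; abel) (by rw [hY]; abel) hs0
    have B3 := bary hη hno (a := c) (b := p) (c := q) (A := 1) (B := 1) (C := 1) (w := wc) hwc
      h5 h6 (r := t) (s := r) (t := s) (r0 := t0) (s0 := r0) (t0 := s0)
      (by linarith) (by linarith) (by rw [hM]; abel) (by rw [hY]; abel) ht0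
    have hthree : on l p → on l q → on l c → False := by
      intro e1 e2 e3
      refine hD (cr_zero hl0 ?_ ?_)
      · simp only [on, Prod.fst_sub, Prod.snd_sub] at *
        linear_combination e2 - e1
      · simp only [on, Prod.fst_sub, Prod.snd_sub] at *
        linear_combination e3 - e1
    by_cases hr : r = 0
    · have hal := hMl wa hwa (B1.2 hr)
      rw [hal] at h1 h2
      have := side hs hlb hlv h1 h2 B2.1 B3.1 (by linarith)
        (by rw [hM, hr]; module)
      rcases this with hp | hq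
      · have := hp wc hwc h6
        rw [this] at h5
        exact hthree h5 h1 h2
      · have := hq wb hwb h4
        rw [this] at h3
        exact hthree h3 h1 h2
    by_cases hs' : s = 0
    · have hal := hMl wb hwb (B2.2 hs')
      rw [hal] at h3 h4
      have := side hs hlb hlv h3 h4 B1.1 B3.1 (by linarith)
        (by rw [hM, hs']; module)
      rcases this with hp | hq
      · have := hp wc hwc h5
        rw [this] at h6
        exact hthree h3 h6 h4
      · have := hq wa hwa h2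
        rw [this] at h1
        exact hthree h3 h1 h4
    by_cases ht' : t = 0
    · have hal := hMl wc hwc (B3.2 ht')
      rw [hal] at h5 h6
      have := side hs hlb hlv h5 h6 B1.1 B2.1 (by linarith)
        (by rw [hM, ht']; module)
      rcases this with hp | hq
      · have := hp wb hwb h3
        rw [this] at h4
        exact hthree h5 h6 h4
      · have := hq wa hwa h1
        rw [this] at h2
        exact hthree h5 h6 h2
    exact hch l hl (b + v) ⟨r, s, t, lt_of_le_of_ne B1.1 (Ne.symm hr),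
      lt_of_le_of_ne B2.1 (Ne.symm hs'), lt_of_le_of_ne B3.1 (Ne.symm ht'), hsum, hM⟩ hlM
  · obtain ⟨p, q, v', ⟨r0, s0, t0, hr0, hs0, ht0, hsum0, hY⟩, hD, hch, wa, hwa, wb, hwb, wc, hwc,
      ⟨h1, h2⟩, ⟨h3, h4⟩, h5, h6⟩ := hS
    obtain ⟨r, s, t, hsum, hM⟩ := coord' hD (b + v)
    -- `r` vanishes on the line `wb`, `s` on the line `wa`, `t` on the line `wc`
    have B1 := bary hη hno (a := p) (b := q) (c := v') (A := 1) (B := 1) (C := 0) (w := wb) hwb
      h3 h4 (r := r) (s := s) (t := t) (r0 := r0) (s0 := s0) (t0 := t0)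
      (by linarith) (by linarith) hM hY hr0
    have B2 := bary hη hno (a := q) (b := p) (c := v') (A := 1) (B := 1) (C := 0) (w := wa) hwa
      h1 h2 (r := s) (s := r) (t := t) (r0 := s0) (s0 := r0) (t0 := t0)
      (by linarith) (by linarith) (by rw [hM]; abel) (by rw [hY]; abel) hs0
    have B3 := bary hη hno (a := v') (b := p) (c := q) (A := 0) (B := 1) (C := 1) (w := wc) hwc
      h5 h6 (r := t) (s := r) (t := s) (r0 := t0) (s0 := r0) (t0 := s0)
      (by linarith) (by linarith) (by rw [hM]; abel) (by rw [hY]; abel) ht0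
    have hYin : b + v + η • (b - a) ∈ hstrip p q v' :=
      ⟨r0, s0, t0, hr0, hs0, ht0, hsum0, hY⟩
    by_cases ht' : t = 0
    · exfalso
      have hal := hMl wc hwc (B3.2 ht')
      rw [hal] at h5 h6
      have := side hs hlb hlv h5 h6 B1.1 B2.1 (by linarith)
        (by rw [hM, ht']; module)
      have hq : l.1 * (q - p).1 + l.2 * (q - p).2 = 0 := by
        simp only [on, Prod.fst_sub, Prod.snd_sub] at *
        linear_combination h6 - h5
      rcases this with hp | hq'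
      · have := hp wa hwa h1
        rw [this] at h2
        exact hD (cr_zero hl0 hq h2)
      · have := hq' wb hwb h3
        rw [this] at h4
        exact hD (cr_zero hl0 hq h4)
    by_cases hr : r = 0
    · have hal := hMl wb hwb (B1.2 hr)
      have hD' : cr (p - q) v' ≠ 0 := by
        intro h0
        apply hD
        simp only [cr, Prod.fst_sub, Prod.snd_sub] at h0 ⊢
        linear_combination -h0
      have hsw : ∀ Z, Z ∈ hstrip q p v' → Z ∈ hstrip p q v' := by
        rintro Z ⟨x, y, z, hx, hy, hz, hxy, rfl⟩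
        exact ⟨y, x, z, hy, hx, hz, by linarith, by abel⟩
      refine newstrip hs hlb hlv hD' (fun w hw Y hY => hch w hw Y (hsw Y hY)) hwb hwa hwc
        h3 h4 h1 h2 h6 h5 hal (r := s) (t := t) (by linarith) B3.1 (by rw [hM, hr]; module)
        (Y := b + v + η • (b - a)) ?_ hYcr
      exact ⟨s0, r0, t0, hs0, hr0, ht0, by linarith, by rw [hY]; abel⟩
    by_cases hs' : s = 0
    · have hal := hMl wa hwa (B2.2 hs')
      exact newstrip hs hlb hlv hD hch hwa hwb hwc
        h1 h2 h3 h4 h5 h6 hal (r := r) (t := t) (by linarith) B3.1 (by rw [hM, hs']; module)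
        (Y := b + v + η • (b - a)) hYin hYcr
    exfalso
    exact hch l hl (b + v) ⟨r, s, t, lt_of_le_of_ne B1.1 (Ne.symm hr),
      lt_of_le_of_ne B2.1 (Ne.symm hs'), lt_of_le_of_ne B3.1 (Ne.symm ht'), hsum, hM⟩ hlM

private lemma no_str {W : Set (ℝ × ℝ)} (h : Aff W)
    (hpar : ∀ v : ℝ × ℝ, v ≠ 0 → {w ∈ W | w.1 * v.1 + w.2 * v.2 = 0}.Finite) {v a b : ℝ × ℝ}
    (hs : Str W v a b) : False := by
  have hv := hs.ne
  set L : Set ℝ := {μ | ∃ a b, Str W v a b ∧ μ = cr v b} with hL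
  have hfin : L.Finite := by
    refine ((hpar v hv).image fun w => (v.1 * v.1 + v.2 * v.2) / cr v w).subset ?_
    rintro μ ⟨a', b', hs', rfl⟩
    obtain ⟨w, hw, hwb, hwv⟩ := hs'.2.2.2
    refine ⟨w, ⟨hw, hwv⟩, ?_⟩
    have h1 : cr v b' * cr v w = v.1 * v.1 + v.2 * v.2 := by
      simp only [cr, on] at *
      linear_combination (v.1 * v.1 + v.2 * v.2) * hwb - (v.1 * b'.1 + v.2 * b'.2) * hwv
    have h2 : cr v w ≠ 0 := by
      intro h0
      rw [h0, mul_zero] at h1
      exact (sq_pos' hv).ne h1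
    show (v.1 * v.1 + v.2 * v.2) / cr v w = cr v b'
    rw [div_eq_iff h2, h1]
  have hne : L.Nonempty := ⟨cr v b, a, b, hs, rfl⟩
  obtain ⟨μ, ⟨a', b', hs', rfl⟩, hmax⟩ := Set.exists_max_image L id hfin hne
  obtain ⟨a'', b'', hs'', hlt⟩ := step h hs'
  have := hmax (cr v b'') ⟨a'', b'', hs'', rfl⟩
  simp only [id] at this
  linarith

theorem no_strip (W : Set (ℝ × ℝ)) (h : Aff W)
    (hpar : ∀ v : ℝ × ℝ, v ≠ 0 → {w ∈ W | w.1 * v.1 + w.2 * v.2 = 0}.Finite) :
    ∀ X, (∀ w ∈ W, ¬ on w X) → InTri W X := by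
  intro X hX
  rcases h.cham X hX with hT | hS
  · exact hT
  · exfalso
    obtain ⟨a, b, v, hXs, hD, hch, wa, hwa, wb, hwb, wc, hwc, ⟨h1, h2⟩, ⟨h3, h4⟩, h5, h6⟩ := hS
    rcases lt_trichotomy (cr v a) (cr v b) with hlt | heq | hgt
    · exact no_str h hpar (v := v) (a := a) (b := b)
        ⟨hlt, hch, ⟨wa, hwa, h1, h2⟩, ⟨wb, hwb, h3, h4⟩⟩
    · apply hD
      simp only [cr, Prod.fst_sub, Prod.snd_sub] at heq ⊢
      linear_combination heq
    · refine no_str h hpar (v := v) (a := b) (b := a)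
        ⟨hgt, ?_, ⟨wb, hwb, h3, h4⟩, ⟨wa, hwa, h1, h2⟩⟩
      rintro w hw Z ⟨x, y, z, hx, hy, hz, hxy, rfl⟩
      exact hch w hw _ ⟨y, x, z, hy, hx, hz, by linarith, by abel⟩

end Pool.ACA
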