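import Pool.Agent.Lib.MP_aca35e_co.Defs
import Pool.Agent.Lib.MP_aca35e_co.ADefs

/-!
# MP_aca35e_co, row A7

`V1`. Let `w ∈ W`, `X ≠ Y` on `w` double points with other lines `y ∋ X`, `z ∋ Y`, and suppose no `w' ≠ w` of `W` meets the open segment `(X, Y)`. Let `M` be the midpoint. By `fin` only finitely many lines meet a
ball around `M`, and all but `w` avoid `M`; so there is `ε > 0` such that the ball `B(M, ε)` meets no line of `W` but `w`. Let `M⁺, M⁻` be points of the ball on the two sides of `w`. `InTri` for `M⁺`: triangle `a b c`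
with side lines in `W`. The open half-ball around `M` is convex and meets no side line, so it is contained in the triangle; so `M` is in the closure of the triangle, not in the triangle, and only
one side line passes through it, namely `w`; so `w` is a side line, say `a, b ∈ w`, `M ∈ (a, b)`. `a, b ∉ (X, Y)` (another side line, `≠ w`, passes through `a`), so `[X, Y] ⊆ [a, b]`; if `X ∈ (a, b)` then the line
`y`, through `X` and different from `w`, meets the open triangle: contradiction. So `{a, b} = {X, Y}`, the side lines through them are `y` and `z` (double points), and `c = y ∩ z` is on the side of `M⁺`. In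
the same way `y ∩ z` is on the side of `M⁻`; but `y ≠ z` have at most one common point. (`y = z` would contain `X, Y`, so be equal to `w`.)
-/

set_option autoImplicit false
set_option linter.unusedVariables false

namespace Pool.ACA

open Set Filter Topology

/-- two different points determine the line -/
private theorem a7_two (u v P Q : ℝ × ℝ) (hPQ : P ≠ Q) (h1 : on u P) (h2 : on u Q) (h3 : on v P)
    (h4 : on v Q) : u = v := by
  unfold on at h1 h2 h3 h4
  have hD : P.1 * Q.2 - P.2 * Q.1 ≠ 0 := by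
    intro hD
    apply hPQ
    refine Prod.ext ?_ ?_
    · linear_combination Q.1 * h1 - P.1 * h2 + u.2 * hD
    · linear_combination Q.2 * h1 - P.2 * h2 - u.1 * hD
  refine Prod.ext ?_ ?_
  · apply mul_left_cancel₀ hD
    linear_combination Q.2 * h1 - P.2 * h2 - Q.2 * h3 + P.2 * h4
  · apply mul_left_cancel₀ hD
    linear_combination -Q.1 * h1 + P.1 * h2 + Q.1 * h3 - P.1 * h4

/-- points of a line are affine combinations of two given points -/
private theorem a7_par (w X Y P : ℝ × ℝ) (hw0 : w ≠ (0, 0)) (hXY : X ≠ Y) (hX : on w X)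
    (hY : on w Y) (hP : on w P) :
    ∃ μ : ℝ, P.1 = X.1 + μ * (Y.1 - X.1) ∧ P.2 = X.2 + μ * (Y.2 - X.2) := by
  unfold on at hX hY hP
  have hc : (P.1 - X.1) * (Y.2 - X.2) - (P.2 - X.2) * (Y.1 - X.1) = 0 := by
    by_contra hne
    apply hw0
    refine Prod.ext ?_ ?_
    · apply mul_left_cancel₀ hne
      linear_combination (Y.2 - X.2) * (hP - hX) - (P.2 - X.2) * (hY - hX)
    · apply mul_left_cancel₀ hne
      linear_combination -(Y.1 - X.1) * (hP - hX) + (P.1 - X.1) * (hY - hX)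
  have hN : (Y.1 - X.1) ^ 2 + (Y.2 - X.2) ^ 2 ≠ 0 := by
    intro h0
    apply hXY
    have e1 : Y.1 - X.1 = 0 := by nlinarith [sq_nonneg (Y.1 - X.1), sq_nonneg (Y.2 - X.2)]
    have e2 : Y.2 - X.2 = 0 := by nlinarith [sq_nonneg (Y.1 - X.1), sq_nonneg (Y.2 - X.2)]
    exact Prod.ext (by linarith) (by linarith)
  refine ⟨((P.1 - X.1) * (Y.1 - X.1) + (P.2 - X.2) * (Y.2 - X.2)) /
    ((Y.1 - X.1) ^ 2 + (Y.2 - X.2) ^ 2), ?_, ?_⟩
  · field_simp
    linear_combination (Y.2 - X.2) * hc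
  · field_simp
    linear_combination -(Y.1 - X.1) * hc

/-- a functional with opposite signs at two vertices vanishes in the triangle -/
private theorem a7_sign (fa fb fc : ℝ) (h : fa * fb < 0) :
    ∃ r s t : ℝ, 0 < r ∧ 0 < s ∧ 0 < t ∧ r + s + t = 1 ∧ r * fa + s * fb + t * fc = 0 := by
  have key : ∃ r s t : ℝ, 0 < r ∧ 0 < s ∧ 0 < t ∧ r * fa + s * fb + t * fc = 0 := by
    rcases mul_neg_iff.1 h with ⟨ha, hb⟩ | ⟨ha, hb⟩
    · rcases le_total 0 fc with hc | hc
      · refine ⟨1, (fa + fc) / (-fb), 1, one_pos, div_pos (by linarith) (by linarith), one_pos, ?_⟩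
        have : fb ≠ 0 := hb.ne
        field_simp
        ring
      · refine ⟨(-fb - fc) / fa, 1, 1, div_pos (by linarith) ha, one_pos, one_pos, ?_⟩
        have : fa ≠ 0 := ha.ne'
        field_simp
        ring
    · rcases le_total 0 fc with hc | hc
      · refine ⟨(fb + fc) / (-fa), 1, 1, div_pos (by linarith) (by linarith), one_pos, one_pos, ?_⟩
        have : fa ≠ 0 := ha.ne
        field_simp
        ring
      · refine ⟨1, (-fa - fc) / fb, 1, one_pos, div_pos (by linarith) hb, one_pos, ?_⟩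
        have : fb ≠ 0 := hb.ne'
        field_simp
        ring
  obtain ⟨r, s, t, hr, hs, ht, e⟩ := key
  have hS : 0 < r + s + t := by linarith
  refine ⟨r / (r + s + t), s / (r + s + t), t / (r + s + t), div_pos hr hS, div_pos hs hS,
    div_pos ht hS, ?_, ?_⟩
  · field_simp
  · have : r / (r + s + t) * fa + s / (r + s + t) * fb + t / (r + s + t) * fc =
        (r * fa + s * fb + t * fc) / (r + s + t) := by ring
    rw [this, e, zero_div]

/-- near `M` only the line `w` -/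
private theorem a7_free (W : Set (ℝ × ℝ)) (h : Aff W) (w M : ℝ × ℝ) (hw : w ∈ W) (hM : on w M)
    (hno : ∀ w' ∈ W, w' ≠ w → ¬ on w' M) :
    ∃ ε > 0, ∀ t : ℝ, t ≠ 0 → |t| ≤ ε → ∀ w' ∈ W, ¬ on w' (M.1 + t * w.1, M.2 + t * w.2) := by
  set B : ℝ := |M.1| + |M.2| + |w.1| + |w.2| + 1 with hB
  have hBpos : 0 < B := by positivity
  have hfin := h.fin (1 / B) (by positivity)
  set F : Set (ℝ × ℝ) := {w' ∈ W | 1 / B ≤ |w'.1| ∨ 1 / B ≤ |w'.2|} with hF
  have ev1 : ∀ᶠ t in 𝓝 (0 : ℝ), ∀ w' ∈ F, w' ≠ w → ¬ on w' (M.1 + t * w.1, M.2 + t * w.2) := by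
    refine (Filter.eventually_all_finite hfin).2 fun w' hw' => ?_
    by_cases hww : w' = w
    · exact Eventually.of_forall fun t h' => absurd hww h'
    · have hne : w'.1 * (M.1 + 0 * w.1) + w'.2 * (M.2 + 0 * w.2) ≠ 1 := by
        have := hno w' hw'.1 hww
        unfold on at this
        simpa using this
      have hcont : Continuous fun t : ℝ => w'.1 * (M.1 + t * w.1) + w'.2 * (M.2 + t * w.2) := by
        fun_prop
      have := hcont.continuousAt.eventually_ne hne
      filter_upwards [this] with t ht _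
      exact ht
  have ev2 : ∀ᶠ t in 𝓝 (0 : ℝ), |t| < 1 := by
    have : Metric.ball (0 : ℝ) 1 ∈ 𝓝 (0 : ℝ) := Metric.ball_mem_nhds _ one_pos
    filter_upwards [this] with t ht
    simpa using ht
  obtain ⟨ε, hε, hball⟩ := Metric.eventually_nhds_iff.1 (ev1.and ev2)
  refine ⟨ε / 2, by positivity, fun t ht0 ht w' hw' hon => ?_⟩
  have hd : dist t 0 < ε := by
    rw [Real.dist_eq, sub_zero]
    linarith
  obtain ⟨hb1, hb2⟩ := hball hd
  by_cases hww : w' = w
  · subst hww
    unfold on at hon hM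
    simp only at hon
    have h0 : t * (w'.1 ^ 2 + w'.2 ^ 2) = 0 := by linear_combination hon - hM
    rcases mul_eq_zero.1 h0 with h1 | h1
    · exact ht0 h1
    · apply h.ne
      have e1 : w'.1 = 0 := by nlinarith [sq_nonneg w'.1, sq_nonneg w'.2]
      have e2 : w'.2 = 0 := by nlinarith [sq_nonneg w'.1, sq_nonneg w'.2]
      have : w' = (0, 0) := Prod.ext e1 e2
      rw [← this]
      exact hw'
  · by_cases hwF : w' ∈ F
    · exact hb1 w' hwF hww hon
    · have hsm : ¬ (1 / B ≤ |w'.1| ∨ 1 / B ≤ |w'.2|) := fun h' => hwF ⟨hw', h'⟩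
      push Not at hsm
      obtain ⟨hs1, hs2⟩ := hsm
      unfold on at hon
      simp only at hon
      have b1 : |M.1 + t * w.1| ≤ |M.1| + |w.1| := by
        calc |M.1 + t * w.1| ≤ |M.1| + |t * w.1| := abs_add_le _ _
          _ = |M.1| + |t| * |w.1| := by rw [abs_mul]
          _ ≤ |M.1| + |w.1| := by nlinarith [abs_nonneg w.1, abs_nonneg t]
      have b2 : |M.2 + t * w.2| ≤ |M.2| + |w.2| := by
        calc |M.2 + t * w.2| ≤ |M.2| + |t * w.2| := abs_add_le _ _
          _ = |M.2| + |t| * |w.2| := by rw [abs_mul]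
          _ ≤ |M.2| + |w.2| := by nlinarith [abs_nonneg w.2, abs_nonneg t]
      have b3 : |w'.1 * (M.1 + t * w.1)| ≤ 1 / B * (|M.1| + |w.1|) := by
        rw [abs_mul]
        exact mul_le_mul hs1.le b1 (abs_nonneg _) (by positivity)
      have b4 : |w'.2 * (M.2 + t * w.2)| ≤ 1 / B * (|M.2| + |w.2|) := by
        rw [abs_mul]
        exact mul_le_mul hs2.le b2 (abs_nonneg _) (by positivity)
      have b5 : (1 : ℝ) ≤ 1 / B * (|M.1| + |w.1|) + 1 / B * (|M.2| + |w.2|) := by
        calc (1 : ℝ) = |w'.1 * (M.1 + t * w.1) + w'.2 * (M.2 + t * w.2)| := by rw [hon, abs_one]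
          _ ≤ |w'.1 * (M.1 + t * w.1)| + |w'.2 * (M.2 + t * w.2)| := abs_add_le _ _
          _ ≤ _ := add_le_add b3 b4
      have b6 : 1 / B * (|M.1| + |w.1|) + 1 / B * (|M.2| + |w.2|) = (B - 1) / B := by
        rw [hB]
        ring
      rw [b6, le_div_iff₀ hBpos] at b5
      linarith

/-- coordinates stay nonnegative up to `M` -/
private theorem a7_nonneg (α r k : ℝ) (hr : 0 < r)
    (h : ∀ l : ℝ, 0 < l → l < 1 → (1 - l) * (α * k) + l * (r * k) ≠ 0) : 0 ≤ α := by
  by_contra hα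
  push Not at hα
  have hd : 0 < r - α := by linarith
  refine h (-α / (r - α)) (div_pos (by linarith) hd) ?_ ?_
  · rw [div_lt_one hd]
    linarith
  · have : r - α ≠ 0 := hd.ne'
    field_simp
    ring

/-- the linear functional -/
private def lf (w P : ℝ × ℝ) : ℝ := w.1 * P.1 + w.2 * P.2

private theorem a7_one (W : Set (ℝ × ℝ)) (w X Y y z a b c wa wb wc M : ℝ × ℝ)
    (s α β r₀ s₀ t₀ : ℝ) (hw0 : w ≠ (0, 0)) (hXY : X ≠ Y) (hX : on w X) (hY : on w Y)
    (hy : y ∈ W) (hyw : y ≠ w) (hyX : on y X) (hyu : ∀ w' ∈ W, w' ≠ w → on w' X → w' = y)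
    (hz : z ∈ W) (hzw : z ≠ w) (hzY : on z Y) (hzu : ∀ w' ∈ W, w' ≠ w → on w' Y → w' = z)
    (hno : ∀ μ : ℝ, 0 < μ → μ < 1 → ∀ w' ∈ W, w' ≠ w →
      ¬ on w' (X.1 + μ * (Y.1 - X.1), X.2 + μ * (Y.2 - X.2)))
    (hD : cr (b - a) (c - a) ≠ 0)
    (htri : ∀ w' ∈ W, ∀ r s t : ℝ, 0 < r → 0 < s → 0 < t → r + s + t = 1 →
      r * lf w' a + s * lf w' b + t * lf w' c ≠ 1)
    (hwa : wa ∈ W) (hwb : wb ∈ W) (hwc : wc ∈ W)
    (h1 : on wa b) (h2 : on wa c) (h3 : on wb a) (h4 : on wb c) (h5 : on wc a) (h6 : on wc b)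
    (hM1 : M.1 = X.1 + 1 / 2 * (Y.1 - X.1)) (hM2 : M.2 = X.2 + 1 / 2 * (Y.2 - X.2))
    (hα : 0 ≤ α) (hβ : 0 ≤ β) (hαβ : α + β = 1) (hMa : M.1 = α * a.1 + β * b.1)
    (hMb : M.2 = α * a.2 + β * b.2)
    (ht₀ : 0 < t₀) (hrst : r₀ + s₀ + t₀ = 1)
    (hP : 0 < s * (r₀ * lf w a + s₀ * lf w b + t₀ * lf w c - 1)) :
    on y c ∧ on z c ∧ 0 < s * (lf w c - 1) := by
  have hwcw : wc = w := by
    by_contra hne
    apply hno (1 / 2) (by norm_num) (by norm_num) wc hwc hne
    rw [← hM1, ← hM2]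
    unfold on at h5 h6 ⊢
    simp only
    rw [hMa, hMb]
    linear_combination α * h5 + β * h6 + hαβ
  rw [hwcw] at h5 h6
  have hcw : ¬ on w c := by
    intro hc
    apply hD
    unfold on at h5 h6 hc
    unfold cr
    simp only [Prod.fst_sub, Prod.snd_sub]
    by_contra hne
    apply hw0
    refine Prod.ext ?_ ?_
    · apply mul_left_cancel₀ hne
      linear_combination (c.2 - a.2) * (h6 - h5) - (b.2 - a.2) * (hc - h5)
    · apply mul_left_cancel₀ hne
      linear_combination -(c.1 - a.1) * (h6 - h5) + (b.1 - a.1) * (hc - h5)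
  have hwaw : wa ≠ w := fun e => hcw (e ▸ h2)
  have hwbw : wb ≠ w := fun e => hcw (e ▸ h4)
  have hside : 0 < s * (lf w c - 1) := by
    have ea : lf w a = 1 := h5
    have eb : lf w b = 1 := h6
    rw [ea, eb] at hP
    have : s * (r₀ * 1 + s₀ * 1 + t₀ * lf w c - 1) = t₀ * (s * (lf w c - 1)) := by
      linear_combination s * hrst
    rw [this] at hP
    exact (pos_iff_pos_of_mul_pos hP).1 ht₀
  obtain ⟨μa, ha1, ha2⟩ := a7_par w X Y a hw0 hXY hX hY h5
  obtain ⟨μb, hb1, hb2⟩ := a7_par w X Y b hw0 hXY hX hY h6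
  have hmid : α * μa + β * μb = 1 / 2 := by
    by_contra hne
    apply hXY
    have hne' : α * μa + β * μb - 1 / 2 ≠ 0 := sub_ne_zero.2 hne
    have e1 : (α * μa + β * μb - 1 / 2) * (Y.1 - X.1) = 0 := by
      rw [ha1, hb1, hM1] at hMa
      linear_combination -hMa - X.1 * hαβ
    have e2 : (α * μa + β * μb - 1 / 2) * (Y.2 - X.2) = 0 := by
      rw [ha2, hb2, hM2] at hMb
      linear_combination -hMb - X.2 * hαβ
    have e1' := (mul_eq_zero.1 e1).resolve_left hne'
    have e2' := (mul_eq_zero.1 e2).resolve_left hne'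
    exact Prod.ext (by linarith) (by linarith)
  have hμa : ¬ (0 < μa ∧ μa < 1) := by
    rintro ⟨p, q⟩
    apply hno μa p q wb hwb hwbw
    rw [← ha1, ← ha2]
    exact h3
  have hμb : ¬ (0 < μb ∧ μb < 1) := by
    rintro ⟨p, q⟩
    apply hno μb p q wa hwa hwaw
    rw [← hb1, ← hb2]
    exact h1
  have hnm : ∀ w' ∈ W, ¬ (lf w' a - 1) * (lf w' b - 1) < 0 := by
    intro w' hw' hneg
    obtain ⟨r, s', t, hr, hs, ht, hsum, e⟩ := a7_sign _ _ (lf w' c - 1) hneg
    apply htri w' hw' r s' t hr hs ht hsum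
    linear_combination e + hsum
  have hκy : lf y Y - 1 ≠ 0 := by
    intro h0
    apply hyw
    refine a7_two y w X Y hXY hyX ?_ hX hY
    unfold lf at h0
    unfold on
    linarith
  have hκz : lf z X - 1 ≠ 0 := by
    intro h0
    apply hzw
    refine a7_two z w X Y hXY ?_ hzY hX hY
    unfold lf at h0
    unfold on
    linarith
  have hyab : 0 ≤ μa * μb := by
    by_contra hneg
    push Not at hneg
    apply hnm y hy
    have e1 : lf y a - 1 = μa * (lf y Y - 1) := by
      unfold lf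
      unfold on at hyX
      rw [ha1, ha2]
      linear_combination (1 - μa) * hyX
    have e2 : lf y b - 1 = μb * (lf y Y - 1) := by
      unfold lf
      unfold on at hyX
      rw [hb1, hb2]
      linear_combination (1 - μb) * hyX
    rw [e1, e2]
    have : μa * (lf y Y - 1) * (μb * (lf y Y - 1)) = μa * μb * (lf y Y - 1) ^ 2 := by ring
    rw [this]
    exact mul_neg_of_neg_of_pos hneg (by positivity)
  have hzab : 0 ≤ (1 - μa) * (1 - μb) := by
    by_contra hneg
    push Not at hneg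
    apply hnm z hz
    have e1 : lf z a - 1 = (1 - μa) * (lf z X - 1) := by
      unfold lf
      unfold on at hzY
      rw [ha1, ha2]
      linear_combination μa * hzY
    have e2 : lf z b - 1 = (1 - μb) * (lf z X - 1) := by
      unfold lf
      unfold on at hzY
      rw [hb1, hb2]
      linear_combination μb * hzY
    rw [e1, e2]
    have : (1 - μa) * (lf z X - 1) * ((1 - μb) * (lf z X - 1)) =
      (1 - μa) * (1 - μb) * (lf z X - 1) ^ 2 := by ring
    rw [this]
    exact mul_neg_of_neg_of_pos hneg (by positivity)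
  have hcases : (μa = 0 ∧ μb = 1) ∨ (μa = 1 ∧ μb = 0) := by
    rcases le_or_gt μa 0 with ha | ha
    · have hb : 1 ≤ μb := by
        by_contra hb
        push Not at hb
        have hb0 : μb ≤ 0 := by
          by_contra hb0
          push Not at hb0
          exact hμb ⟨hb0, hb⟩
        nlinarith [mul_nonneg hα (neg_nonneg.2 ha), mul_nonneg hβ (neg_nonneg.2 hb0)]
      left
      constructor
      · by_contra hne
        have : μa < 0 := lt_of_le_of_ne ha hne
        nlinarith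
      · by_contra hne
        have : 1 < μb := lt_of_le_of_ne hb (Ne.symm hne)
        nlinarith
    · have ha1' : 1 ≤ μa := by
        by_contra h'
        push Not at h'
        exact hμa ⟨ha, h'⟩
      have hb0 : μb ≤ 0 := by
        by_contra hb0
        push Not at hb0
        have hb1' : 1 ≤ μb := by
          by_contra h'
          push Not at h'
          exact hμb ⟨hb0, h'⟩
        nlinarith [mul_nonneg hα (sub_nonneg.2 ha1'), mul_nonneg hβ (sub_nonneg.2 hb1')]
      right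
      constructor
      · by_contra hne
        have : 1 < μa := lt_of_le_of_ne ha1' (Ne.symm hne)
        nlinarith
      · by_contra hne
        have : μb < 0 := lt_of_le_of_ne hb0 hne
        nlinarith
  rcases hcases with ⟨e1, e2⟩ | ⟨e1, e2⟩
  · have haX : a = X := Prod.ext (by rw [ha1, e1]; ring) (by rw [ha2, e1]; ring)
    have hbY : b = Y := Prod.ext (by rw [hb1, e2]; ring) (by rw [hb2, e2]; ring)
    have hby : wb = y := hyu wb hwb hwbw (haX ▸ h3)
    have haz : wa = z := hzu wa hwa hwaw (hbY ▸ h1)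
    exact ⟨hby ▸ h4, haz ▸ h2, hside⟩
  · have haY : a = Y := Prod.ext (by rw [ha1, e1]; ring) (by rw [ha2, e1]; ring)
    have hbX : b = X := Prod.ext (by rw [hb1, e2]; ring) (by rw [hb2, e2]; ring)
    have hbz : wb = z := hzu wb hwb hwbw (haY ▸ h3)
    have hay : wa = y := hyu wa hwa hwaw (hbX ▸ h1)
    exact ⟨hay ▸ h2, hbz ▸ h4, hside⟩

private theorem a7_side (W : Set (ℝ × ℝ)) (h : Aff W)
    (ht : ∀ X, (∀ w ∈ W, ¬ on w X) → InTri W X) (w X Y y z : ℝ × ℝ) (hw : w ∈ W)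
    (hXY : X ≠ Y) (hX : on w X) (hY : on w Y)
    (hy : y ∈ W) (hyw : y ≠ w) (hyX : on y X) (hyu : ∀ w' ∈ W, w' ≠ w → on w' X → w' = y)
    (hz : z ∈ W) (hzw : z ≠ w) (hzY : on z Y) (hzu : ∀ w' ∈ W, w' ≠ w → on w' Y → w' = z)
    (hno : ∀ μ : ℝ, 0 < μ → μ < 1 → ∀ w' ∈ W, w' ≠ w →
      ¬ on w' (X.1 + μ * (Y.1 - X.1), X.2 + μ * (Y.2 - X.2)))
    (s : ℝ) (hs : s = 1 ∨ s = -1) :
    ∃ c : ℝ × ℝ, on y c ∧ on z c ∧ 0 < s * (lf w c - 1) := by
  have hw0 : w ≠ (0, 0) := fun e => h.ne (e ▸ hw)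
  obtain ⟨M, hM1, hM2⟩ : ∃ M : ℝ × ℝ, M.1 = X.1 + 1 / 2 * (Y.1 - X.1) ∧
      M.2 = X.2 + 1 / 2 * (Y.2 - X.2) := ⟨(_, _), rfl, rfl⟩
  have hMw : on w M := by
    unfold on at hX hY ⊢
    rw [hM1, hM2]
    linear_combination 1 / 2 * hX + 1 / 2 * hY
  have hMno : ∀ w' ∈ W, w' ≠ w → ¬ on w' M := by
    intro w' hw' hne hon
    apply hno (1 / 2) (by norm_num) (by norm_num) w' hw' hne
    rw [← hM1, ← hM2]
    exact hon
  obtain ⟨ε, hε, hfree⟩ := a7_free W h w M hw hMw hMno
  have hs2 : s * s = 1 := by rcases hs with rfl | rfl <;> norm_num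
  have hsabs : |s| = 1 := by rcases hs with rfl | rfl <;> simp
  have hs0 : s ≠ 0 := by rcases hs with rfl | rfl <;> norm_num
  have hn : 0 < w.1 ^ 2 + w.2 ^ 2 := by
    rcases eq_or_ne w.1 0 with h1 | h1
    · have h2 : w.2 ≠ 0 := fun h2 => hw0 (Prod.ext h1 h2)
      positivity
    · positivity
  -- points of the segment
  have hseg : ∀ l : ℝ, 0 < l → l ≤ 1 → ∀ w' ∈ W,
      ¬ on w' (M.1 + (l * (s * ε)) * w.1, M.2 + (l * (s * ε)) * w.2) := by
    intro l hl0 hl1
    apply hfree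
    · exact mul_ne_zero hl0.ne' (mul_ne_zero hs0 hε.ne')
    · rw [abs_mul, abs_mul, hsabs, abs_of_pos hl0, abs_of_pos hε]
      nlinarith
  obtain ⟨a, b, c, hP, hD, htri0, wa, hwa, wb, hwb, wc, hwc, h1, h2, h3, h4, h5, h6⟩ :=
    ht (M.1 + (1 * (s * ε)) * w.1, M.2 + (1 * (s * ε)) * w.2)
      (hseg 1 one_pos le_rfl)
  obtain ⟨r₀, s₀, t₀, hr₀, hs₀, ht₀, hrst, hPe⟩ := hP
  have hP1 : M.1 + s * ε * w.1 = r₀ * a.1 + s₀ * b.1 + t₀ * c.1 := by
    have := congrArg Prod.fst hPe
    simp only [Prod.fst_add, Prod.smul_fst, smul_eq_mul, one_mul] at this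
    exact this
  have hP2 : M.2 + s * ε * w.2 = r₀ * a.2 + s₀ * b.2 + t₀ * c.2 := by
    have := congrArg Prod.snd hPe
    simp only [Prod.snd_add, Prod.smul_snd, smul_eq_mul, one_mul] at this
    exact this
  -- the functional condition
  have htri : ∀ w' ∈ W, ∀ r s t : ℝ, 0 < r → 0 < s → 0 < t → r + s + t = 1 →
      r * lf w' a + s * lf w' b + t * lf w' c ≠ 1 := by
    intro w' hw' r s' t hr hs' ht' hsum e
    apply htri0 w' hw' (r • a + s' • b + t • c) ⟨r, s', t, hr, hs', ht', hsum, rfl⟩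
    unfold on
    unfold lf at e
    simp only [Prod.fst_add, Prod.snd_add, Prod.smul_fst, Prod.smul_snd, smul_eq_mul]
    linear_combination e
  have hPside : 0 < s * (r₀ * lf w a + s₀ * lf w b + t₀ * lf w c - 1) := by
    have e : s * (r₀ * lf w a + s₀ * lf w b + t₀ * lf w c - 1) = ε * (w.1 ^ 2 + w.2 ^ 2) := by
      unfold lf
      unfold on at hMw
      linear_combination (-s * w.1) * hP1 + (-s * w.2) * hP2 + s * hMw +
        ε * (w.1 ^ 2 + w.2 ^ 2) * hs2
    rw [e]
    positivity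
  -- barycentric coordinates of M
  obtain ⟨α, β, γ, hsum, hMa, hMb⟩ : ∃ α β γ : ℝ, α + β + γ = 1 ∧
      M.1 = α * a.1 + β * b.1 + γ * c.1 ∧ M.2 = α * a.2 + β * b.2 + γ * c.2 := by
    refine ⟨cr (b - M) (c - M) / cr (b - a) (c - a), cr (c - M) (a - M) / cr (b - a) (c - a),
      cr (a - M) (b - M) / cr (b - a) (c - a), ?_, ?_, ?_⟩
    · field_simp
      unfold cr
      simp only [Prod.fst_sub, Prod.snd_sub]
      ring
    · field_simp
      unfold cr
      simp only [Prod.fst_sub, Prod.snd_sub]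
      ring
    · field_simp
      unfold cr
      simp only [Prod.fst_sub, Prod.snd_sub]
      ring
  have hαn : 0 ≤ α := by
    refine a7_nonneg α r₀ (lf wa a - 1) hr₀ fun l hl0 hl1 e => ?_
    apply hseg l hl0 hl1.le wa hwa
    unfold on at h1 h2 ⊢
    unfold lf at e
    simp only
    linear_combination e + l * wa.1 * hP1 + l * wa.2 * hP2 + (1 - l) * wa.1 * hMa +
      (1 - l) * wa.2 * hMb + ((1 - l) * β + l * s₀) * h1 + ((1 - l) * γ + l * t₀) * h2 +
      (1 - l) * hsum + l * hrst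
  have hβn : 0 ≤ β := by
    refine a7_nonneg β s₀ (lf wb b - 1) hs₀ fun l hl0 hl1 e => ?_
    apply hseg l hl0 hl1.le wb hwb
    unfold on at h3 h4 ⊢
    unfold lf at e
    simp only
    linear_combination e + l * wb.1 * hP1 + l * wb.2 * hP2 + (1 - l) * wb.1 * hMa +
      (1 - l) * wb.2 * hMb + ((1 - l) * α + l * r₀) * h3 + ((1 - l) * γ + l * t₀) * h4 +
      (1 - l) * hsum + l * hrst
  have hγn : 0 ≤ γ := by
    refine a7_nonneg γ t₀ (lf wc c - 1) ht₀ fun l hl0 hl1 e => ?_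
    apply hseg l hl0 hl1.le wc hwc
    unfold on at h5 h6 ⊢
    unfold lf at e
    simp only
    linear_combination e + l * wc.1 * hP1 + l * wc.2 * hP2 + (1 - l) * wc.1 * hMa +
      (1 - l) * wc.2 * hMb + ((1 - l) * α + l * r₀) * h5 + ((1 - l) * β + l * s₀) * h6 +
      (1 - l) * hsum + l * hrst
  rcases hγn.eq_or_lt with hγ | hγ
  · refine ⟨c, a7_one W w X Y y z a b c wa wb wc M s α β r₀ s₀ t₀ hw0 hXY hX hY hy hyw hyX hyu
      hz hzw hzY hzu hno hD htri hwa hwb hwc h1 h2 h3 h4 h5 h6 hM1 hM2 hαn hβn ?_ ?_ ?_ ht₀ hrst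
      hPside⟩
    · linarith
    · rw [hMa, ← hγ]; ring
    · rw [hMb, ← hγ]; ring
  rcases hβn.eq_or_lt with hβ | hβ
  · refine ⟨b, a7_one W w X Y y z c a b wc wa wb M s γ α t₀ r₀ s₀ hw0 hXY hX hY hy hyw hyX hyu
      hz hzw hzY hzu hno ?_ ?_ hwc hwa hwb h5 h6 h2 h1 h4 h3 hM1 hM2 hγn hαn ?_ ?_ ?_ hs₀ ?_
      ?_⟩
    · intro e
      apply hD
      unfold cr at e ⊢
      simp only [Prod.fst_sub, Prod.snd_sub] at e ⊢
      linear_combination e
    · intro w' hw' r s' t hr hs' ht' hsum' e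
      apply htri w' hw' s' t r hs' ht' hr (by linarith)
      linear_combination e
    · linarith
    · rw [hMa, ← hβ]; ring
    · rw [hMb, ← hβ]; ring
    · linarith
    · have : t₀ * lf w c + r₀ * lf w a + s₀ * lf w b - 1 =
        r₀ * lf w a + s₀ * lf w b + t₀ * lf w c - 1 := by ring
      rw [this]
      exact hPside
  rcases hαn.eq_or_lt with hα | hα
  · refine ⟨a, a7_one W w X Y y z b c a wb wc wa M s β γ s₀ t₀ r₀ hw0 hXY hX hY hy hyw hyX hyu
      hz hzw hzY hzu hno ?_ ?_ hwb hwc hwa h4 h3 h6 h5 h1 h2 hM1 hM2 hβn hγn ?_ ?_ ?_ hr₀ ?_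
      ?_⟩
    · intro e
      apply hD
      unfold cr at e ⊢
      simp only [Prod.fst_sub, Prod.snd_sub] at e ⊢
      linear_combination e
    · intro w' hw' r s' t hr hs' ht' hsum' e
      apply htri w' hw' t r s' ht' hr hs' (by linarith)
      linear_combination e
    · linarith
    · rw [hMa, ← hα]; ring
    · rw [hMb, ← hα]; ring
    · linarith
    · have : s₀ * lf w b + t₀ * lf w c + r₀ * lf w a - 1 =
        r₀ * lf w a + s₀ * lf w b + t₀ * lf w c - 1 := by ring
      rw [this]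
      exact hPside
  · exfalso
    apply htri w hw α β γ hα hβ hγ hsum
    unfold lf
    unfold on at hMw
    linear_combination hMw - w.1 * hMa - w.2 * hMb

theorem aff_v1 (W : Set (ℝ × ℝ)) (h : Aff W) (ht : ∀ X, (∀ w ∈ W, ¬ on w X) → InTri W X) :
    V1 W := by
  rintro w hw X Y hXY hX hY ⟨y, ⟨hy, hyw, hyX⟩, hyu⟩ ⟨z, ⟨hz, hzw, hzY⟩, hzu⟩
  by_contra hcon
  push Not at hcon
  have hno : ∀ μ : ℝ, 0 < μ → μ < 1 → ∀ w' ∈ W, w' ≠ w →
      ¬ on w' (X.1 + μ * (Y.1 - X.1), X.2 + μ * (Y.2 - X.2)) := by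
    intro μ h0 h1 w' hw' hne
    refine hcon _ ?_ w' hw' hne
    refine ⟨1 - μ, μ, by linarith, h0, by ring, ?_⟩
    refine Prod.ext ?_ ?_
    · simp only [Prod.fst_add, Prod.smul_fst, smul_eq_mul]
      ring
    · simp only [Prod.snd_add, Prod.smul_snd, smul_eq_mul]
      ring
  have hyu' : ∀ w' ∈ W, w' ≠ w → on w' X → w' = y := fun w' a b c => hyu w' ⟨a, b, c⟩
  have hzu' : ∀ w' ∈ W, w' ≠ w → on w' Y → w' = z := fun w' a b c => hzu w' ⟨a, b, c⟩
  obtain ⟨c, hc1, hc2, hc3⟩ := a7_side W h ht w X Y y z hw hXY hX hY hy hyw hyX hyu' hz hzw hzY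
    hzu' hno 1 (Or.inl rfl)
  obtain ⟨c', hc1', hc2', hc3'⟩ := a7_side W h ht w X Y y z hw hXY hX hY hy hyw hyX hyu' hz hzw
    hzY hzu' hno (-1) (Or.inr rfl)
  have hcc : c ≠ c' := by
    intro e
    rw [e] at hc3
    linarith
  have hyz : y = z := a7_two y z c c' hcc hc1 hc1' hc2 hc2'
  exact hyw (a7_two y w X Y hXY hyX (hyz ▸ hzY) hX hY)

end Pool.ACA
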