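import Pool.Agent.Lib.MP_aca35e_co.Defs
import Pool.Agent.Lib.MP_aca35e_co.ADefs

/-!
# MP_aca35e_co, row A8

`W` is infinite, and degree 2 is impossible. `aff_inf`: if `W` is finite there are finitely many vertices (points on two different lines of `W`), all triangles of `InTri` have their vertices among them (the three
side lines are different since `cr ≠ 0`), so all `X` not on a line are bounded: but a finite union of lines does not cover the complement of a ball.
`deg2`: take `X` on no line (finitely many lines meet a ball, `fin`), its triangle `a b c`, side line `wc ∋ a, b`. `wb ≠ wc`, `wa ≠ wc`. By `hmul` `a` and `b` are double points of `wc`. `V1` gives `Z ∈ (a, b)` on another line `w' ∈ W`,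
which meets the open triangle: contradiction.
-/

set_option autoImplicit false
set_option linter.unusedVariables false

namespace Pool.ACA

open Set Filter Topology

/-- three points on one line have zero cross product -/
private theorem cr_zero (w a b c : ℝ × ℝ) (ha : on w a) (hb : on w b) (hc : on w c) :
    cr (b - a) (c - a) = 0 := by
  unfold on at ha hb hc
  simp only [cr, Prod.fst_sub, Prod.snd_sub]
  have h1 : w.1 * (b.1 - a.1) + w.2 * (b.2 - a.2) = 0 := by linarith
  have h2 : w.1 * (c.1 - a.1) + w.2 * (c.2 - a.2) = 0 := by linarith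
  have e1 : w.1 * ((b.1 - a.1) * (c.2 - a.2) - (b.2 - a.2) * (c.1 - a.1)) = 0 := by
    linear_combination (c.2 - a.2) * h1 - (b.2 - a.2) * h2
  have e2 : w.2 * ((b.1 - a.1) * (c.2 - a.2) - (b.2 - a.2) * (c.1 - a.1)) = 0 := by
    linear_combination (b.1 - a.1) * h2 - (c.1 - a.1) * h1
  rcases mul_eq_zero.1 e1 with h | h
  · rcases mul_eq_zero.1 e2 with h' | h'
    · rw [h, h'] at ha; norm_num at ha
    · exact h'
  · exact h

/-- two points on two different lines are equal -/
private theorem eq_of_on (w w' a b : ℝ × ℝ) (ha : on w a) (hb : on w b) (ha' : on w' a)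
    (hb' : on w' b) (hab : a ≠ b) : w = w' := by
  unfold on at ha hb ha' hb'
  have h1 : (w.1 - w'.1) * a.1 + (w.2 - w'.2) * a.2 = 0 := by linarith
  have h2 : (w.1 - w'.1) * b.1 + (w.2 - w'.2) * b.2 = 0 := by linarith
  have h3 : w.1 * (a.1 - b.1) + w.2 * (a.2 - b.2) = 0 := by linarith
  have e1 : (w.1 - w'.1) * (a.1 * b.2 - a.2 * b.1) = 0 := by
    linear_combination b.2 * h1 - a.2 * h2
  have e2 : (w.2 - w'.2) * (a.1 * b.2 - a.2 * b.1) = 0 := by
    linear_combination a.1 * h2 - b.1 * h1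
  by_cases hd : a.1 * b.2 - a.2 * b.1 = 0
  · exfalso
    apply hab
    have f1 : a.1 - b.1 = 0 := by
      linear_combination (a.1 - b.1) * (-ha) + a.1 * h3 + w.2 * hd
    have f2 : a.2 - b.2 = 0 := by
      linear_combination (a.2 - b.2) * (-ha) + a.2 * h3 - w.1 * hd
    exact Prod.ext (by linarith) (by linarith)
  · rcases mul_eq_zero.1 e1 with h | h
    · rcases mul_eq_zero.1 e2 with h' | h'
      · exact Prod.ext (by linarith) (by linarith)
      · exact absurd h' hd
    · exact absurd h hd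

private theorem weights (A B C : ℝ) (h : A * B < 0) :
    ∃ r s t : ℝ, 0 < r ∧ 0 < s ∧ 0 < t ∧ r + s + t = 1 ∧ r * A + s * B + t * C = 0 := by
  have key : ∀ A B C : ℝ, 0 < A → B < 0 →
      ∃ r s t : ℝ, 0 < r ∧ 0 < s ∧ 0 < t ∧ r + s + t = 1 ∧ r * A + s * B + t * C = 0 := by
    intro A B C hA hB
    obtain ⟨r, s, hr, hs, he⟩ : ∃ r s : ℝ, 0 < r ∧ 0 < s ∧ r * A + s * B + C = 0 := by
      rcases le_total C 0 with hC | hC
      · refine ⟨-B + (-C) / A, A, ?_, hA, ?_⟩
        · have : 0 ≤ (-C) / A := div_nonneg (by linarith) hA.le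
          linarith
        · field_simp; ring
      · refine ⟨-B, A + C / (-B), by linarith, ?_, ?_⟩
        · have : 0 ≤ C / (-B) := div_nonneg hC (by linarith)
          linarith
        · have hB' : -B ≠ 0 := by linarith
          have e : C / (-B) * B = -C := by
            rw [div_mul_eq_mul_div, div_eq_iff hB']; ring
          linear_combination e
    have hp : 0 < r + s + 1 := by linarith
    refine ⟨r / (r + s + 1), s / (r + s + 1), 1 / (r + s + 1), by positivity, by positivity,
      by positivity, by field_simp, ?_⟩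
    have : r / (r + s + 1) * A + s / (r + s + 1) * B + 1 / (r + s + 1) * C
        = (r * A + s * B + C) / (r + s + 1) := by ring
    rw [this, he, zero_div]
  rcases mul_neg_iff.1 h with ⟨h1, h2⟩ | ⟨h1, h2⟩
  · exact key A B C h1 h2
  · obtain ⟨r, s, t, hr, hs, ht, h1', h2'⟩ := key B A C h2 h1
    exact ⟨s, r, t, hs, hr, ht, by linarith, by linarith⟩

theorem aff_inf (W : Set (ℝ × ℝ)) (h : Aff W) (ht : ∀ X, (∀ w ∈ W, ¬ on w X) → InTri W X) :
    W.Infinite := by
  intro hW
  -- finitely many vertices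
  set g : (ℝ × ℝ) × (ℝ × ℝ) → ℝ × ℝ := fun q =>
    ((q.2.2 - q.1.2) / (q.1.1 * q.2.2 - q.2.1 * q.1.2),
     (q.1.1 - q.2.1) / (q.1.1 * q.2.2 - q.2.1 * q.1.2)) with hg
  set V : Set (ℝ × ℝ) := g '' (W ×ˢ W) with hVdef
  have hV : V.Finite := (hW.prod hW).image g
  have hmem : ∀ w ∈ W, ∀ w' ∈ W, w ≠ w' → ∀ p, on w p → on w' p → p ∈ V := by
    intro w hw w' hw' hne p hp hp'
    refine ⟨(w, w'), ⟨hw, hw'⟩, ?_⟩
    unfold on at hp hp'
    have hd : w.1 * w'.2 - w'.1 * w.2 ≠ 0 := by
      intro hd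
      apply hne
      have e1 : w'.2 - w.2 = 0 := by
        linear_combination (-w'.2) * hp + w.2 * hp' + p.1 * hd
      have e2 : w.1 - w'.1 = 0 := by
        linear_combination w'.1 * hp - w.1 * hp' + p.2 * hd
      exact Prod.ext (by linarith) (by linarith)
    simp only [hg]
    ext
    · simp only
      rw [div_eq_iff hd]
      linear_combination (-w'.2) * hp + w.2 * hp'
    · simp only
      rw [div_eq_iff hd]
      linear_combination w'.1 * hp - w.1 * hp'
  obtain ⟨R, hR⟩ : ∃ R : ℝ, ∀ p ∈ V, p.1 ≤ R := by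
    obtain ⟨R, hR⟩ := (hV.image Prod.fst).bddAbove
    exact ⟨R, fun p hp => hR ⟨p, hp, rfl⟩⟩
  have hbd : ∀ X, (∀ w ∈ W, ¬ on w X) → X.1 ≤ R := by
    intro X hX
    obtain ⟨a, b, c, ⟨r, s, t, hr, hs, ht', hsum, rfl⟩, hcr, -, wa, hwa, wb, hwb, wc, hwc,
      hab, hac, hba, hbc, hca, hcb⟩ := ht X hX
    have hbc' : wb ≠ wc := by
      rintro rfl
      exact hcr (cr_zero wb a b c hba hcb hbc)
    have hac' : wa ≠ wc := by
      rintro rfl
      exact hcr (cr_zero wa a b c hca hab hac)
    have hab' : wa ≠ wb := by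
      rintro rfl
      exact hcr (cr_zero wa a b c hba hab hac)
    have h1 := hR a (hmem wb hwb wc hwc hbc' a hba hca)
    have h2 := hR b (hmem wa hwa wc hwc hac' b hab hcb)
    have h3 := hR c (hmem wa hwa wb hwb hab' c hac hbc)
    simp only [Prod.fst_add, Prod.smul_fst, smul_eq_mul]
    have e : R = r * R + s * R + t * R := by rw [← add_mul, ← add_mul, hsum, one_mul]
    linarith [mul_le_mul_of_nonneg_left h1 hr.le, mul_le_mul_of_nonneg_left h2 hs.le,
      mul_le_mul_of_nonneg_left h3 ht'.le]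
  obtain ⟨x, hx, hx'⟩ : ∃ x, R < x ∧ x ∉ (fun w : ℝ × ℝ => 1 / w.1) '' W := by
    have := (Set.Ioi_infinite R).sdiff (hW.image (fun w : ℝ × ℝ => 1 / w.1))
    obtain ⟨x, hx⟩ := this.nonempty
    exact ⟨x, hx.1, hx.2⟩
  obtain ⟨y, hy⟩ : ∃ y, y ∉ (fun w : ℝ × ℝ => (1 - w.1 * x) / w.2) '' W :=
    (hW.image (fun w : ℝ × ℝ => (1 - w.1 * x) / w.2)).exists_notMem
  have := hbd (x, y) (by
    intro w hw hon
    unfold on at hon
    simp only at hon
    by_cases h2 : w.2 = 0
    · rw [h2] at hon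
      have h1 : w.1 ≠ 0 := by
        rintro h1; rw [h1] at hon; norm_num at hon
      exact hx' ⟨w, hw, by simp only; field_simp; linarith⟩
    · exact hy ⟨w, hw, by simp only; field_simp; linarith⟩)
  simp only at this
  linarith

theorem deg2 (W : Set (ℝ × ℝ)) (h : Aff W) (ht : ∀ X, (∀ w ∈ W, ¬ on w X) → InTri W X)
    (hV : V1 W) (hmul : ∀ (X : ℝ × ℝ) (S : Finset (ℝ × ℝ)), (∀ w ∈ S, w ∈ W ∧ on w X) → S.card ≤ 2) :
    False := by
  classical
  obtain ⟨a, b, c, -, hcr, hno, wa, hwa, wb, hwb, wc, hwc, hab, hac, hba, hbc, hca, hcb⟩ :=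
    ht (0, 0) (by intro w hw hon; unfold on at hon; simp at hon)
  have hbc' : wb ≠ wc := by
    rintro rfl
    exact hcr (cr_zero wb a b c hba hcb hbc)
  have hac' : wa ≠ wc := by
    rintro rfl
    exact hcr (cr_zero wa a b c hca hab hac)
  have hne : a ≠ b := by
    rintro rfl
    apply hcr
    simp [cr]
  have huniq : ∀ (p w0 : ℝ × ℝ), w0 ∈ W → w0 ≠ wc → on w0 p → on wc p →
      ∃! w₁, w₁ ∈ W ∧ w₁ ≠ wc ∧ on w₁ p := by
    intro p w0 h0 h1 h2 h3
    refine ⟨w0, ⟨h0, h1, h2⟩, ?_⟩
    rintro w1 ⟨k0, k1, k2⟩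
    by_contra hcon
    have := hmul p {w1, w0, wc} (by
      intro w hw
      simp only [Finset.mem_insert, Finset.mem_singleton] at hw
      rcases hw with rfl | rfl | rfl
      · exact ⟨k0, k2⟩
      · exact ⟨h0, h2⟩
      · exact ⟨hwc, h3⟩)
    rw [Finset.card_eq_three.2 ⟨w1, w0, wc, hcon, k1, h1, rfl⟩] at this
    omega
  obtain ⟨Z, ⟨r0, s0, hr0, hs0, hrs, rfl⟩, w', hw', hw'c, hZ⟩ :=
    hV wc hwc a b hne hca hcb (huniq a wb hwb hbc' hba hca) (huniq b wa hwa hac' hab hcb)
  set A := w'.1 * a.1 + w'.2 * a.2 - 1 with hA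
  set B := w'.1 * b.1 + w'.2 * b.2 - 1 with hB
  set C := w'.1 * c.1 + w'.2 * c.2 - 1 with hC
  have hzero : r0 * A + s0 * B = 0 := by
    unfold on at hZ
    simp only [Prod.fst_add, Prod.snd_add, Prod.smul_fst, Prod.smul_snd, smul_eq_mul] at hZ
    rw [hA, hB]
    linear_combination hZ - hrs
  have hA0 : A ≠ 0 := by
    intro h0
    rw [h0, mul_zero, zero_add] at hzero
    have hB0 : B = 0 := by
      rcases mul_eq_zero.1 hzero with h1 | h1
      · exact absurd h1 hs0.ne'
      · exact h1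
    apply hw'c
    exact eq_of_on w' wc a b (by unfold on; linarith) (by unfold on; linarith) hca hcb hne
  have hAB : A * B < 0 := by
    have e : s0 * (A * B) = -(r0 * A ^ 2) := by linear_combination A * hzero
    have : s0 * (A * B) < 0 := by
      rw [e]
      have : 0 < A ^ 2 := by positivity
      nlinarith
    by_contra hcon
    push Not at hcon
    nlinarith
  obtain ⟨r, s, t, hr, hs, ht', hsum, he⟩ := weights A B C hAB
  apply hno w' hw' (r • a + s • b + t • c) ⟨r, s, t, hr, hs, ht', hsum, rfl⟩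
  unfold on
  simp only [Prod.fst_add, Prod.snd_add, Prod.smul_fst, Prod.smul_snd, smul_eq_mul]
  rw [hA, hB, hC] at he
  linear_combination he + hsum

end Pool.ACA
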