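import Pool.Agent.Lib.MP_aca35e_co.Defs
import Pool.Agent.Lib.MP_aca35e_co.ADefs

/-!
# MP_aca35e_co, row B1

Dimension of the space of ternary forms. The monomials of degree `n` are a basis of `homogeneousSubmodule (Fin 3) ℝ n`; their number is the number of `d : Fin 3 →₀ ℕ` with sum `n`, `(n+2).choose 2`
(`Finset.card_finsuppAntidiag`? `Sym.card_sym_eq_choose`, or map `(d 0, d 1, d 2) ↦ (d 0, d 1)`, `d 0 + d 1 ≤ n`). Only `≤`/`≥` in the form needed in B5 may be enough, but please prove the equality.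
-/

set_option autoImplicit false
set_option linter.unusedVariables false

namespace Pool.ACA

open Set Filter Topology

private lemma set_eq (n : ℕ) :
    ({d | d.degree = n} : Set (Fin 3 →₀ ℕ)) =
      ↑(Finset.finsuppAntidiag (Finset.univ : Finset (Fin 3)) n) := by
  ext d
  simp [Finset.mem_finsuppAntidiag, Finsupp.degree_eq_sum]

private noncomputable def homEquiv (n : ℕ) :
    MvPolynomial.homogeneousSubmodule (Fin 3) ℝ n ≃ₗ[ℝ]
      (({d | d.degree = n} : Set (Fin 3 →₀ ℕ)) →₀ ℝ) :=
  (LinearEquiv.ofEq _ _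
    (MvPolynomial.homogeneousSubmodule_eq_finsupp_supported (Fin 3) ℝ n)).trans
    (AddMonoidAlgebra.supportedEquivFinsupp _)

theorem finrank_hom (n : ℕ) :
    Module.Finite ℝ (MvPolynomial.homogeneousSubmodule (Fin 3) ℝ n) ∧
    Module.finrank ℝ (MvPolynomial.homogeneousSubmodule (Fin 3) ℝ n) = (n + 2).choose 2 := by
  classical
  haveI hft : Fintype ({d | d.degree = n} : Set (Fin 3 →₀ ℕ)) :=
    Fintype.ofEquiv (↑(Finset.finsuppAntidiag (Finset.univ : Finset (Fin 3)) n) :
      Set (Fin 3 →₀ ℕ)) (Equiv.setCongr (set_eq n).symm)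
  have hcard : Fintype.card ({d | d.degree = n} : Set (Fin 3 →₀ ℕ)) = (n + 2).choose 2 := by
    have h1 : Fintype.card ({d | d.degree = n} : Set (Fin 3 →₀ ℕ)) =
        (Finset.finsuppAntidiag (Finset.univ : Finset (Fin 3)) n).card := by
      rw [← Fintype.card_coe]
      exact Fintype.card_congr (Equiv.setCongr (set_eq n))
    rw [h1, Finset.card_finsuppAntidiag_nat_eq_choose, Finset.card_univ, Fintype.card_fin]
    have h2 : 3 + n - 1 = n + 2 := by omega
    rw [h2]
    exact (Nat.choose_symm_of_eq_add (by omega : n + 2 = 2 + n)).symm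
  refine ⟨Module.Finite.equiv (homEquiv n).symm, ?_⟩
  rw [(homEquiv n).finrank_eq, Module.finrank_finsupp_self, hcard]

end Pool.ACA
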