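import Pool.Agent.Lib.MP_aca35e_co.Defs
import Pool.Agent.Lib.MP_aca35e_co.ADefs

/-!
# MP_aca35e_co, row B2

Evaluation at finitely many points is onto for large degree. For `w₀ ∈ S` take the product over `w ∈ S ∖ {w₀}` of a linear form (in `x, y, z`) vanishing at `(w.1, w.2, 1)` and not at `(w₀.1, w₀.2, 1)`:
`X 0 - C w.1 * X 2` if `w.1 ≠ w₀.1`, otherwise `X 1 - C w.2 * X 2`; multiply by a power of `X 2` to get degree `n`. Linear combinations.
-/

set_option autoImplicit false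
set_option linter.unusedVariables false

namespace Pool.ACA

open Set Filter Topology

private noncomputable def lf (w₀ w : ℝ × ℝ) : MvPolynomial (Fin 3) ℝ :=
  if w.1 = w₀.1 then MvPolynomial.X 1 - MvPolynomial.C w.2 * MvPolynomial.X 2
  else MvPolynomial.X 0 - MvPolynomial.C w.1 * MvPolynomial.X 2

private lemma lf_hom (w₀ w : ℝ × ℝ) : (lf w₀ w).IsHomogeneous 1 := by
  unfold lf
  split_ifs
  · refine (MvPolynomial.isHomogeneous_X _ _).sub ?_
    simpa using (MvPolynomial.isHomogeneous_C (Fin 3) w.2).mul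
      (MvPolynomial.isHomogeneous_X ℝ (2 : Fin 3))
  · refine (MvPolynomial.isHomogeneous_X _ _).sub ?_
    simpa using (MvPolynomial.isHomogeneous_C (Fin 3) w.1).mul
      (MvPolynomial.isHomogeneous_X ℝ (2 : Fin 3))

private lemma lf_eval (w₀ w u : ℝ × ℝ) :
    MvPolynomial.eval ![u.1, u.2, 1] (lf w₀ w) =
      if w.1 = w₀.1 then u.2 - w.2 else u.1 - w.1 := by
  unfold lf
  split_ifs <;> simp

private noncomputable def pf (S : Finset (ℝ × ℝ)) (n : ℕ) (w₀ : ℝ × ℝ) :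
    MvPolynomial (Fin 3) ℝ :=
  (∏ w ∈ S.erase w₀, lf w₀ w) * MvPolynomial.X 2 ^ (n - (S.card - 1))

private lemma pf_hom (S : Finset (ℝ × ℝ)) (n : ℕ) (hn : S.card ≤ n) (w₀ : ℝ × ℝ) (h : w₀ ∈ S) :
    (pf S n w₀).IsHomogeneous n := by
  unfold pf
  have h1 : (∏ w ∈ S.erase w₀, lf w₀ w).IsHomogeneous (∑ w ∈ S.erase w₀, 1) :=
    MvPolynomial.IsHomogeneous.prod _ _ _ (fun w _ => lf_hom w₀ w)
  have h2 : (MvPolynomial.X (2 : Fin 3) ^ (n - (S.card - 1)) : MvPolynomial (Fin 3) ℝ).IsHomogeneous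
      (1 * (n - (S.card - 1))) := (MvPolynomial.isHomogeneous_X ℝ (2 : Fin 3)).pow _
  have h3 := h1.mul h2
  have h4 : (∑ w ∈ S.erase w₀, 1) + 1 * (n - (S.card - 1)) = n := by
    rw [Finset.sum_const, smul_eq_mul, mul_one, Finset.card_erase_of_mem h]
    omega
  rwa [h4] at h3

private lemma pf_eval_self (S : Finset (ℝ × ℝ)) (n : ℕ) (w₀ : ℝ × ℝ) :
    MvPolynomial.eval ![w₀.1, w₀.2, 1] (pf S n w₀) ≠ 0 := by
  unfold pf
  rw [map_mul, map_prod, map_pow, MvPolynomial.eval_X]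
  refine mul_ne_zero (Finset.prod_ne_zero_iff.mpr ?_) (pow_ne_zero _ (by simp))
  intro w hw
  rw [lf_eval]
  have hne : w ≠ w₀ := (Finset.mem_erase.mp hw).1
  split_ifs with h
  · intro h0
    exact hne (Prod.ext h (by linarith))
  · intro h0
    exact h (by linarith)

private lemma pf_eval_other (S : Finset (ℝ × ℝ)) (n : ℕ) (w₀ u : ℝ × ℝ) (hu : u ∈ S)
    (hne : u ≠ w₀) : MvPolynomial.eval ![u.1, u.2, 1] (pf S n w₀) = 0 := by
  unfold pf
  rw [map_mul, map_prod]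
  have : ∏ w ∈ S.erase w₀, MvPolynomial.eval ![u.1, u.2, 1] (lf w₀ w) = 0 := by
    refine Finset.prod_eq_zero (Finset.mem_erase.mpr ⟨hne, hu⟩) ?_
    rw [lf_eval]
    split_ifs <;> simp
  rw [this, zero_mul]

theorem eval_surj (S : Finset (ℝ × ℝ)) (n : ℕ) (hn : S.card ≤ n) (f : ℝ × ℝ → ℝ) :
    ∃ A : MvPolynomial (Fin 3) ℝ, A.IsHomogeneous n ∧
      ∀ w ∈ S, MvPolynomial.eval ![w.1, w.2, 1] A = f w := by
  classical
  refine ⟨∑ w₀ ∈ S, MvPolynomial.C (f w₀ / MvPolynomial.eval ![w₀.1, w₀.2, 1] (pf S n w₀)) *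
    pf S n w₀, ?_, ?_⟩
  · refine MvPolynomial.IsHomogeneous.sum _ _ _ (fun w hw => ?_)
    simpa using (MvPolynomial.isHomogeneous_C (Fin 3) _).mul (pf_hom S n hn w hw)
  · intro w hw
    rw [map_sum, Finset.sum_eq_single_of_mem w hw]
    · rw [map_mul, MvPolynomial.eval_C, div_mul_cancel₀ _ (pf_eval_self S n w)]
    · intro b hb hne
      rw [map_mul, pf_eval_other S n b w hw (Ne.symm hne), mul_zero]

end Pool.ACA
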