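import Pool.Agent.Lib.MP_aca35e_co.Defs
import Pool.Agent.Lib.MP_aca35e_co.ADefs

/-!
# MP_aca35e_co, row B3

Homogenisation. `Q = Σ_{m ∈ support q} monomial (m 0, m 1, E - m 0 - m 1) (coeff m q)`, `E = q.totalDegree`. `deh_inj`: a form of degree `n` is determined by its dehomogenisation (the monomials
`x^a y^b z^(n-a-b)` go to different monomials). `eval_deh`: `MvPolynomial.eval₂`/`aeval` computation. `deh` is an algebra homomorphism. `deh_deg`: `totalDegree (deh P) ≤ n`.
-/

set_option autoImplicit false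
set_option linter.unusedVariables false

namespace Pool.ACA

open Set Filter Topology

theorem eval_deh (P : MvPolynomial (Fin 3) ℝ) (w : ℝ × ℝ) :
    pv (deh P) w = MvPolynomial.eval ![w.1, w.2, 1] P := by
  have h : (MvPolynomial.eval ![w.1, w.2]).comp
      (MvPolynomial.aeval (R := ℝ) ![(MvPolynomial.X 0 : MvPolynomial (Fin 2) ℝ),
        MvPolynomial.X 1, 1]).toRingHom = MvPolynomial.eval ![w.1, w.2, 1] := by
    apply MvPolynomial.ringHom_ext
    · intro r
      simp
    · intro i
      fin_cases i <;> simp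
  exact congrArg (fun f => f P) h

private theorem deh_monomial (d : Fin 3 →₀ ℕ) (c : ℝ) :
    deh (MvPolynomial.monomial d c) =
      MvPolynomial.C c * (MvPolynomial.X 0 ^ d 0 * MvPolynomial.X 1 ^ d 1) := by
  unfold deh
  rw [MvPolynomial.aeval_monomial, Finsupp.prod_fintype _ _ (fun i => pow_zero _),
    Fin.prod_univ_three]
  simp [MvPolynomial.algebraMap_eq]

private theorem deh_sum (P : MvPolynomial (Fin 3) ℝ) :
    deh P = ∑ d ∈ P.support, MvPolynomial.C (P.coeff d) *
      (MvPolynomial.X 0 ^ d 0 * MvPolynomial.X 1 ^ d 1) := by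
  conv_lhs => rw [P.as_sum]
  have h : deh (∑ v ∈ P.support, MvPolynomial.monomial v (P.coeff v)) =
      ∑ v ∈ P.support, deh (MvPolynomial.monomial v (P.coeff v)) := map_sum _ _ _
  rw [h]
  exact Finset.sum_congr rfl fun d _ => deh_monomial d _

theorem deh_deg (P : MvPolynomial (Fin 3) ℝ) (n : ℕ) (hP : P.IsHomogeneous n) :
    (deh P).totalDegree ≤ n := by
  rw [deh_sum]
  refine MvPolynomial.totalDegree_finsetSum_le fun d hd => ?_
  have hdeg : d 0 + d 1 + d 2 = n := by
    have h := hP (MvPolynomial.mem_support_iff.mp hd)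
    rw [Finsupp.weight_apply, Finsupp.sum_fintype _ _ (fun i => by simp)] at h
    simpa [Fin.sum_univ_three] using h
  calc _ ≤ (MvPolynomial.C (P.coeff d) : MvPolynomial (Fin 2) ℝ).totalDegree +
        (MvPolynomial.X 0 ^ d 0 * MvPolynomial.X 1 ^ d 1 : MvPolynomial (Fin 2) ℝ).totalDegree :=
        MvPolynomial.totalDegree_mul _ _
    _ ≤ 0 + (d 0 + d 1) := by
        refine add_le_add (by simp) ((MvPolynomial.totalDegree_mul _ _).trans ?_)
        exact add_le_add (by simp [MvPolynomial.totalDegree_X_pow])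
          (by simp [MvPolynomial.totalDegree_X_pow])
    _ ≤ n := by omega

theorem exists_hom (q : MvPolynomial (Fin 2) ℝ) (hq : q ≠ 0) :
    ∃ Q : MvPolynomial (Fin 3) ℝ, Q.IsHomogeneous q.totalDegree ∧ Q ≠ 0 ∧ deh Q = q := by
  classical
  let e : (Fin 2 →₀ ℕ) → (Fin 3 →₀ ℕ) := fun m =>
    Finsupp.equivFunOnFinite.symm ![m 0, m 1, q.totalDegree - m 0 - m 1]
  have e0 : ∀ m, e m 0 = m 0 := fun m => rfl
  have e1 : ∀ m, e m 1 = m 1 := fun m => rfl
  have e2 : ∀ m, e m 2 = q.totalDegree - m 0 - m 1 := fun m => rfl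
  have hdeh : deh (∑ m ∈ q.support, MvPolynomial.monomial (e m) (q.coeff m)) = q := by
    have h : deh (∑ m ∈ q.support, MvPolynomial.monomial (e m) (q.coeff m)) =
        ∑ m ∈ q.support, deh (MvPolynomial.monomial (e m) (q.coeff m)) := map_sum _ _ _
    rw [h]
    conv_rhs => rw [q.as_sum]
    refine Finset.sum_congr rfl fun m _ => ?_
    rw [deh_monomial, e0, e1, MvPolynomial.monomial_eq,
      Finsupp.prod_fintype _ _ (fun i => pow_zero _), Fin.prod_univ_two]
  refine ⟨∑ m ∈ q.support, MvPolynomial.monomial (e m) (q.coeff m), ?_, ?_, hdeh⟩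
  · refine MvPolynomial.IsHomogeneous.sum _ _ _ fun m hm => ?_
    refine MvPolynomial.isHomogeneous_monomial _ ?_
    have h1 := MvPolynomial.le_totalDegree hm
    rw [Finsupp.sum_fintype _ _ (fun i => rfl), Fin.sum_univ_two] at h1
    rw [Finsupp.degree_eq_sum, Fin.sum_univ_three, e0, e1, e2]
    omega
  · intro h0
    apply hq
    rw [← hdeh, h0]
    exact map_zero _

end Pool.ACA
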