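import Pool.Agent.Lib.MP_aca35e_co.Defs
import Pool.Agent.Lib.MP_aca35e_co.ADefs

/-!
# MP_aca35e_co, row B4

The kernel. `P ∣ B * Q` (as `A P = -B Q`); `P` is prime (`MvPolynomial` over a field is a UFD: `Irreducible.prime`), `P ∤ Q` since `Q ≠ 0` has smaller total degree (`MvPolynomial.totalDegree_mul_of_isDomain`), so
`B = P * C`. Replace `C` by its homogeneous component: `B` and `P` are homogeneous, so `B = P * (homogeneousComponent (b - D) C)` (compare components of degree `b`; if `b < D` then `B = 0`,
`C = 0`: then `C = 0` works). Then `A P = - P C Q`, `A = - C Q`.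
-/

set_option autoImplicit false
set_option linter.unusedVariables false

namespace Pool.ACA

open Set Filter Topology

attribute [local instance] MvPolynomial.gradedAlgebra in
theorem kernel {D E a b : ℕ} {P Q A B : MvPolynomial (Fin 3) ℝ} (hP : P.IsHomogeneous D)
    (hirr : Irreducible P) (hQ : Q.IsHomogeneous E) (hQ0 : Q ≠ 0) (hE : E < D)
    (hA : A.IsHomogeneous a) (hB : B.IsHomogeneous b) (h : A * P + B * Q = 0) (hb : D ≤ b) :
    ∃ C : MvPolynomial (Fin 3) ℝ, C.IsHomogeneous (b - D) ∧ B = P * C ∧ A = -(C * Q) := by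
  classical
  have hP0 : P ≠ 0 := hirr.ne_zero
  have hprime : Prime P := hirr.prime
  have hPQ : ¬ P ∣ Q := by
    rintro ⟨R, hR⟩
    have hR0 : R ≠ 0 := by
      rintro rfl
      exact hQ0 (by rw [hR, mul_zero])
    have h1 := MvPolynomial.totalDegree_mul_of_isDomain hP0 hR0
    rw [← hR, hP.totalDegree hP0, hQ.totalDegree hQ0] at h1
    omega
  have hdvd : P ∣ B * Q := ⟨-A, by linear_combination h⟩
  obtain ⟨C, hC⟩ := (hprime.dvd_or_dvd hdvd).resolve_right hPQ
  have hBC : B = P * MvPolynomial.homogeneousComponent (b - D) C := by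
    have h1 := DirectSum.coe_decompose_mul_of_left_mem_of_le
      (MvPolynomial.homogeneousSubmodule (Fin 3) ℝ) (a := P) (b := C) (n := b) hP hb
    rw [← hC] at h1
    have h2 : ∀ (F : MvPolynomial (Fin 3) ℝ) (i : ℕ),
        ((DirectSum.decompose (MvPolynomial.homogeneousSubmodule (Fin 3) ℝ) F i :
          MvPolynomial.homogeneousSubmodule (Fin 3) ℝ i) : MvPolynomial (Fin 3) ℝ) =
          MvPolynomial.homogeneousComponent i F := fun F i =>
      MvPolynomial.decomposition.decompose'_apply F i
    rw [h2, h2, MvPolynomial.homogeneousComponent_of_mem hB, if_pos rfl] at h1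
    exact h1
  refine ⟨MvPolynomial.homogeneousComponent (b - D) C,
    MvPolynomial.homogeneousComponent_isHomogeneous _ _, hBC, ?_⟩
  have h3 : P * A = P * -(MvPolynomial.homogeneousComponent (b - D) C * Q) := by
    rw [hBC] at h
    linear_combination h
  exact mul_left_cancel₀ hP0 h3

end Pool.ACA
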