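import Pool.Agent.Lib.MP_aca35e_co.Defs
import Pool.Agent.Lib.MP_aca35e_co.ADefs
import Pool.Agent.Lib.MP_aca35e_co.B1
import Pool.Agent.Lib.MP_aca35e_co.B2
import Pool.Agent.Lib.MP_aca35e_co.B3
import Pool.Agent.Lib.MP_aca35e_co.B4

/-!
# MP_aca35e_co, row B5

Bezout by dimension count. Let `q ≠ 0`, `E = q.totalDegree < D`, `Q` from B3, `S` a finite set of common zeros, `n = S.card + D + E`. `V k` = forms of degree `k`. `Φ : V (n-D) × V (n-E) → V n`, `(A, B) ↦ A P + B Q`;
by B4 the kernel is the image of `V (n-D-E)` under `C ↦ (-C Q, P C)`, so its dimension is at most (equal to) `dim V (n-D-E)`. The range of `Φ` is contained in the kernel of the evaluation `V n → (S → ℝ)`, which is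
onto (B2). So `S.card ≤ dim V n - dim V (n-D) - dim V (n-E) + dim V (n-D-E) = D E` (`choose 2` identity; work in `ℤ` or `ℚ` with `(k+2).choose 2 = (k+2)(k+1)/2`).
-/

set_option autoImplicit false
set_option linter.unusedVariables false

namespace Pool.ACA

open Set Filter Topology MvPolynomial

private lemma choose_id (s D E : ℕ) :
    ((s + D + E + 2).choose 2 + (s + 2).choose 2 : ℕ) =
      (s + E + 2).choose 2 + (s + D + 2).choose 2 + D * E := by
  have h : ∀ k : ℕ, ((k + 2).choose 2 : ℚ) = (k + 2) * (k + 1) / 2 := by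
    intro k
    rw [Nat.cast_choose_two]
    push_cast
    ring
  have h1 : (((s + D + E + 2).choose 2 + (s + 2).choose 2 : ℕ) : ℚ) =
      (((s + E + 2).choose 2 + (s + D + 2).choose 2 + D * E : ℕ) : ℚ) := by
    push_cast
    rw [h, h, h, h]
    push_cast
    ring
  exact_mod_cast h1

theorem bezout {D : ℕ} {P : MvPolynomial (Fin 3) ℝ} (hP : P.IsHomogeneous D)
    (hirr : Irreducible P) : Curve D (deh P) := by
  refine ⟨deh_deg P D hP, ?_⟩
  intro q hq hqD S hS
  obtain ⟨Q, hQ, hQ0, hQq⟩ := exists_hom q hq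
  set E := q.totalDegree with hE
  have hPS : ∀ w ∈ S, MvPolynomial.eval ![w.1, w.2, 1] P = 0 := by
    intro w hw
    rw [← eval_deh]
    exact (hS w hw).1
  have hQS : ∀ w ∈ S, MvPolynomial.eval ![w.1, w.2, 1] Q = 0 := by
    intro w hw
    rw [← eval_deh, hQq]
    exact (hS w hw).2
  have hP0 : P ≠ 0 := hirr.ne_zero
  set n := S.card + D + E with hn
  let V : ℕ → Submodule ℝ (MvPolynomial (Fin 3) ℝ) := fun k => homogeneousSubmodule (Fin 3) ℝ k
  have hfin : ∀ k, Module.Finite ℝ (V k) := fun k => (finrank_hom k).1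
  have hdim : ∀ k, Module.finrank ℝ (V k) = (k + 2).choose 2 := fun k => (finrank_hom k).2
  -- evaluation
  let ev' : MvPolynomial (Fin 3) ℝ →ₗ[ℝ] (S → ℝ) :=
    LinearMap.pi fun w => (MvPolynomial.aeval (R := ℝ) ![w.1.1, w.1.2, (1 : ℝ)]).toLinearMap
  have hev' : ∀ A w, ev' A w = MvPolynomial.eval ![w.1.1, w.1.2, 1] A := by
    intro A w
    simp [ev', MvPolynomial.aeval_eq_eval]
  let e : V n →ₗ[ℝ] (S → ℝ) := ev'.comp (V n).subtype
  have hesurj : Function.Surjective e := by
    intro f
    obtain ⟨A, hA, hAf⟩ := eval_surj S n (by omega) (fun w => if h : w ∈ S then f ⟨w, h⟩ else 0)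
    refine ⟨⟨A, hA⟩, ?_⟩
    ext w
    have := hAf w.1 w.2
    rw [dif_pos w.2] at this
    simp only [e, LinearMap.comp_apply, Submodule.subtype_apply]
    rw [hev', this]
  have hker : Module.finrank ℝ (LinearMap.ker e) + S.card = (n + 2).choose 2 := by
    have h1 := LinearMap.finrank_range_add_finrank_ker e
    rw [LinearMap.range_eq_top.2 hesurj, finrank_top, hdim] at h1
    simp only [Module.finrank_fintype_fun_eq_card, Fintype.card_coe] at h1
    omega
  -- the map Φ
  let Φ : (V (n - D)) × (V (n - E)) →ₗ[ℝ] MvPolynomial (Fin 3) ℝ :=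
    ((LinearMap.mulRight ℝ P).comp (V (n - D)).subtype).coprod
      ((LinearMap.mulRight ℝ Q).comp (V (n - E)).subtype)
  have hΦ : ∀ A B, Φ (A, B) = (A : MvPolynomial (Fin 3) ℝ) * P + (B : MvPolynomial (Fin 3) ℝ) * Q := by
    intro A B
    simp [Φ]
  have hrange : LinearMap.range Φ ≤ (LinearMap.ker e).map (V n).subtype := by
    rintro _ ⟨⟨A, B⟩, rfl⟩
    rw [hΦ]
    have h1 : ((A : MvPolynomial (Fin 3) ℝ) * P).IsHomogeneous n := by
      have := A.2.mul hP
      rwa [show n - D + D = n by omega] at this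
    have h2 : ((B : MvPolynomial (Fin 3) ℝ) * Q).IsHomogeneous n := by
      have := B.2.mul hQ
      rwa [show n - E + E = n by omega] at this
    refine ⟨⟨_, h1.add h2⟩, ?_, rfl⟩
    rw [SetLike.mem_coe, LinearMap.mem_ker]
    ext w
    simp only [e, LinearMap.comp_apply, Submodule.subtype_apply]
    rw [hev']
    simp [hPS w.1 w.2, hQS w.1 w.2]
  have hr1 : Module.finrank ℝ (LinearMap.range Φ) ≤ Module.finrank ℝ (LinearMap.ker e) := by
    refine (Submodule.finrank_mono hrange).trans ?_
    exact Submodule.finrank_map_le _ _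
  have hr2 := LinearMap.finrank_range_add_finrank_ker Φ
  rw [Module.finrank_prod, hdim, hdim] at hr2
  -- the kernel
  have hk : Module.finrank ℝ (LinearMap.ker Φ) ≤ (n - E - D + 2).choose 2 := by
    let g : LinearMap.ker Φ →ₗ[ℝ] MvPolynomial (Fin 3) ℝ :=
      ((V (n - E)).subtype.comp (LinearMap.snd ℝ (V (n - D)) (V (n - E)))).comp
        (LinearMap.ker Φ).subtype
    have hg : ∀ x, g x = ((x.1.2 : V (n - E)) : MvPolynomial (Fin 3) ℝ) := fun x => rfl
    have hginj : Function.Injective g := by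
      intro x y hxy
      rw [hg, hg] at hxy
      obtain ⟨⟨A, B⟩, hx⟩ := x
      obtain ⟨⟨A', B'⟩, hy⟩ := y
      simp only at hxy
      have hB : B = B' := Subtype.ext hxy
      subst hB
      rw [LinearMap.mem_ker, hΦ] at hx hy
      have h3 : (A : MvPolynomial (Fin 3) ℝ) * P = (A' : MvPolynomial (Fin 3) ℝ) * P := by
        have := hx.trans hy.symm
        exact add_right_cancel this
      have h4 : A = A' := Subtype.ext (mul_right_cancel₀ hP0 h3)
      subst h4
      rfl
    have hgr : LinearMap.range g ≤ (V (n - E - D)).map (LinearMap.mulLeft ℝ P) := by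
      rintro _ ⟨⟨⟨A, B⟩, hx⟩, rfl⟩
      rw [LinearMap.mem_ker, hΦ] at hx
      obtain ⟨C, hC, hBC, -⟩ := kernel hP hirr hQ hQ0 hqD A.2 B.2 hx (by omega)
      exact ⟨C, hC, by rw [hg]; exact hBC.symm⟩
    calc Module.finrank ℝ (LinearMap.ker Φ) = Module.finrank ℝ (LinearMap.range g) :=
          (LinearMap.finrank_range_of_inj hginj).symm
      _ ≤ Module.finrank ℝ ((V (n - E - D)).map (LinearMap.mulLeft ℝ P)) :=
          Submodule.finrank_mono hgr
      _ ≤ Module.finrank ℝ (V (n - E - D)) := Submodule.finrank_map_le _ _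
      _ = _ := hdim _
  have e1 : n - D = S.card + E := by omega
  have e2 : n - E = S.card + D := by omega
  have e3 : n - E - D = S.card := by omega
  rw [e3] at hk
  have c1 : (n - D + 2).choose 2 = (S.card + E + 2).choose 2 := by rw [e1]
  have c2 : (n - E + 2).choose 2 = (S.card + D + 2).choose 2 := by rw [e2]
  have hc := choose_id S.card D E
  rw [← hn] at hc
  omega

end Pool.ACA
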