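import Pool.Agent.Lib.MP_aca35e_co.Defs

/-!
# MP_aca35e_co, row C1

Lines and the curve.
-/

set_option autoImplicit false
set_option linter.unusedVariables false

namespace Pool.ACA

open Set Filter Topology

private lemma c1_eval (a b c : ℝ) (w : ℝ × ℝ) :
    pv (MvPolynomial.C a * MvPolynomial.X 0 + MvPolynomial.C b * MvPolynomial.X 1 -
      MvPolynomial.C c) w = a * w.1 + b * w.2 - c := by
  simp [pv]

private lemma c1_ne (a b c : ℝ) (hab : a ≠ 0 ∨ b ≠ 0) :
    (MvPolynomial.C a * MvPolynomial.X 0 + MvPolynomial.C b * MvPolynomial.X 1 -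
      MvPolynomial.C c : MvPolynomial (Fin 2) ℝ) ≠ 0 := by
  intro h
  have h0 : ∀ w : ℝ × ℝ, a * w.1 + b * w.2 - c = 0 := by
    intro w
    rw [← c1_eval a b c w, h]
    simp [pv]
  have h1 := h0 (0, 0)
  have h2 := h0 (1, 0)
  have h3 := h0 (0, 1)
  simp only [mul_zero, mul_one, add_zero, zero_add] at h1 h2 h3
  rcases hab with h | h
  · exact h (by linarith)
  · exact h (by linarith)

private lemma c1_deg (a b c : ℝ) :
    (MvPolynomial.C a * MvPolynomial.X 0 + MvPolynomial.C b * MvPolynomial.X 1 -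
      MvPolynomial.C c : MvPolynomial (Fin 2) ℝ).totalDegree ≤ 1 := by
  have hm : ∀ (r : ℝ) (i : Fin 2),
      (MvPolynomial.C r * MvPolynomial.X i : MvPolynomial (Fin 2) ℝ).totalDegree ≤ 1 := by
    intro r i
    refine (MvPolynomial.totalDegree_mul _ _).trans ?_
    rw [MvPolynomial.totalDegree_C, MvPolynomial.totalDegree_X]
  refine (MvPolynomial.totalDegree_sub _ _).trans (max_le ?_ ?_)
  · exact (MvPolynomial.totalDegree_add _ _).trans (max_le (hm a 0) (hm b 1))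
  · rw [MvPolynomial.totalDegree_C]
    exact Nat.zero_le 1

theorem fin_line {D : ℕ} {p : MvPolynomial (Fin 2) ℝ} (hc : Curve D p) (hD : 2 ≤ D) (a b c : ℝ)
    (hab : a ≠ 0 ∨ b ≠ 0) (S : Finset (ℝ × ℝ))
    (hS : ∀ w ∈ S, pv p w = 0 ∧ a * w.1 + b * w.2 = c) : S.card ≤ D := by
  have hdeg := c1_deg a b c
  refine (hc.bz _ (c1_ne a b c hab) (by omega) S ?_).trans ?_
  · intro w hw
    refine ⟨(hS w hw).1, ?_⟩
    rw [c1_eval, (hS w hw).2, sub_self]
  · calc D * _ ≤ D * 1 := Nat.mul_le_mul_left D hdeg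
      _ = D := mul_one D

/-- no line is contained in the curve: `w₀ + t (a, b)`, `t ∈ (0, 1)` -/
theorem no_line {D : ℕ} {p : MvPolynomial (Fin 2) ℝ} (hc : Curve D p) (hD : 2 ≤ D) (w₀ : ℝ × ℝ)
    (a b : ℝ) (hab : a ≠ 0 ∨ b ≠ 0) : ∃ t ∈ Ioo (0 : ℝ) 1, pv p (w₀.1 + t * a, w₀.2 + t * b) ≠ 0 := by
  by_contra hcon
  push Not at hcon
  have hD0 : (0 : ℝ) < (D : ℝ) + 2 := by positivity
  let t : ℕ → ℝ := fun i => ((i : ℝ) + 1) / ((D : ℝ) + 2)
  let P : ℕ → ℝ × ℝ := fun i => (w₀.1 + t i * a, w₀.2 + t i * b)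
  have ht : Function.Injective t := by
    intro i j hij
    have h1 : ((i : ℝ) + 1) / ((D : ℝ) + 2) = ((j : ℝ) + 1) / ((D : ℝ) + 2) := hij
    rw [div_left_inj' hD0.ne'] at h1
    exact_mod_cast add_right_cancel h1
  have hP : Function.Injective P := by
    intro i j hij
    have h1 : w₀.1 + t i * a = w₀.1 + t j * a := congrArg Prod.fst hij
    have h2 : w₀.2 + t i * b = w₀.2 + t j * b := congrArg Prod.snd hij
    apply ht
    rcases hab with h | h
    · exact mul_right_cancel₀ h (add_left_cancel h1)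
    · exact mul_right_cancel₀ h (add_left_cancel h2)
  have hb : (b ≠ 0 ∨ -a ≠ 0) := by
    rcases hab with h | h
    · exact Or.inr (neg_ne_zero.2 h)
    · exact Or.inl h
  have h := fin_line hc hD b (-a) (b * w₀.1 + -a * w₀.2) hb ((Finset.range (D + 1)).image P) (by
    intro w hw
    rw [Finset.mem_image] at hw
    obtain ⟨i, hi, rfl⟩ := hw
    rw [Finset.mem_range] at hi
    refine ⟨hcon (t i) ⟨?_, ?_⟩, ?_⟩
    · show 0 < ((i : ℝ) + 1) / ((D : ℝ) + 2)
      positivity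
    · show ((i : ℝ) + 1) / ((D : ℝ) + 2) < 1
      rw [div_lt_one hD0]
      have : (i : ℝ) < (D : ℝ) + 1 := by exact_mod_cast hi
      linarith
    · show b * (w₀.1 + t i * a) + -a * (w₀.2 + t i * b) = b * w₀.1 + -a * w₀.2
      ring)
  rw [Finset.card_image_of_injective _ hP, Finset.card_range] at h
  omega

/-- multiplicity of a point of the chart is at most `D` -/
theorem mult {D : ℕ} {p : MvPolynomial (Fin 2) ℝ} (hc : Curve D p) (hD : 2 ≤ D) (x ρ : ℝ)
    (S : Finset (ℝ × ℝ)) (hS : ∀ w ∈ S, pv p w = 0 ∧ ev w x = ρ) : S.card ≤ D := by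
  refine fin_line hc hD (-x) 1 ρ (Or.inr one_ne_zero) S ?_
  intro w hw
  refine ⟨(hS w hw).1, ?_⟩
  have h := (hS w hw).2
  unfold ev at h
  linarith

end Pool.ACA
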