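import Pool.Agent.Lib.MP_aca35e_co.Defs
import Pool.Agent.Lib.MP_aca35e_co.C1

/-!
# MP_aca35e_co, row C2

Finiteness of critical points. In each case `Curve.bz` with a polynomial `q ≠ 0` of degree `< D`
(a set all of whose finite subsets have bounded cardinality is finite).
`crit_v`: `q = pderiv 1 p`. If `q = 0`, then `t ↦ pv p (w₀.1, w₀.2 + t)` is constant `= 0`: contradiction to `no_line`.
`crit_c`: `q = pderiv 0 p + C c * pderiv 1 p`; if `q = 0` then `p` is constant on the line `w₀ + t (1, c)`.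
`crit_rad`: `q = C D * p - X 0 * pderiv 0 p - X 1 * pderiv 1 p`; its coefficient at a monomial of degree
`k` is `(D - k)` times the one of `p`, so `totalDegree q < D` (as `totalDegree p ≤ D`); on the curve
`q = -(u p_u + v p_v)`. If `q = 0` then `u p_u + v p_v = D p`, so `t ^ (-D) * pv p (t w₀)` is constant for
`t > 0`, `= 0`, so the curve contains the segment `t w₀`, `t ∈ (1,2)`: contradiction to `no_line`.
Derivative of `t ↦ pv p (w₀ + t (a,b))` is `a * pv (pderiv 0 p) + b * pv (pderiv 1 p)` (prove it as the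
first lemma by `MvPolynomial.induction_on`; it is `hasDerivAt_pv` below).
-/

set_option autoImplicit false
set_option linter.unusedVariables false

namespace Pool.ACA

open Set Filter Topology

private theorem pv_add (p q : MvPolynomial (Fin 2) ℝ) (w : ℝ × ℝ) : pv (p + q) w = pv p w + pv q w := by
  simp [pv]

private theorem pv_sub (p q : MvPolynomial (Fin 2) ℝ) (w : ℝ × ℝ) : pv (p - q) w = pv p w - pv q w := by
  simp [pv]

private theorem pv_mul (p q : MvPolynomial (Fin 2) ℝ) (w : ℝ × ℝ) : pv (p * q) w = pv p w * pv q w := by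
  simp [pv]

private theorem pv_C (c : ℝ) (w : ℝ × ℝ) : pv (MvPolynomial.C c) w = c := by
  simp [pv]

private theorem pv_X0 (w : ℝ × ℝ) : pv (MvPolynomial.X 0) w = w.1 := by
  simp [pv]

private theorem pv_X1 (w : ℝ × ℝ) : pv (MvPolynomial.X 1) w = w.2 := by
  simp [pv]

theorem hasDerivAt_pv (p : MvPolynomial (Fin 2) ℝ) (f g : ℝ → ℝ) (f' g' t : ℝ)
    (hf : HasDerivAt f f' t) (hg : HasDerivAt g g' t) :
    HasDerivAt (fun s => pv p (f s, g s))
      (f' * pv (MvPolynomial.pderiv 0 p) (f t, g t) + g' * pv (MvPolynomial.pderiv 1 p) (f t, g t)) t := by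
  induction p using MvPolynomial.induction_on with
  | C a =>
    simp only [pv_C, MvPolynomial.pderiv_C]
    have : f' * pv 0 (f t, g t) + g' * pv 0 (f t, g t) = 0 := by simp [pv]
    rw [this]
    exact hasDerivAt_const t a
  | add p q hp hq =>
    simp only [pv_add, map_add]
    exact (hp.add hq).congr_deriv (by ring)
  | mul_X p i hp =>
    fin_cases i
    · have h := hp.mul hf
      have e0 : (MvPolynomial.pderiv 1) (MvPolynomial.X 0 : MvPolynomial (Fin 2) ℝ) = 0 :=
        MvPolynomial.pderiv_X_of_ne (by decide)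
      simp only [Fin.zero_eta, Fin.isValue, pv_mul, pv_X0, MvPolynomial.pderiv_mul,
        MvPolynomial.pderiv_X_self, pv_add, e0]
      refine h.congr_deriv ?_
      simp only [pv, map_zero, map_one]
      ring
    · have h := hp.mul hg
      have e1 : (MvPolynomial.pderiv 0) (MvPolynomial.X 1 : MvPolynomial (Fin 2) ℝ) = 0 :=
        MvPolynomial.pderiv_X_of_ne (by decide)
      simp only [Fin.mk_one, Fin.isValue, pv_mul, pv_X1, MvPolynomial.pderiv_mul,
        MvPolynomial.pderiv_X_self, pv_add, e1]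
      refine h.congr_deriv ?_
      simp only [pv, map_zero, map_one]
      ring

private theorem fin_bz {D : ℕ} {p : MvPolynomial (Fin 2) ℝ} (hc : Curve D p)
    (q : MvPolynomial (Fin 2) ℝ) (hq : q ≠ 0) (hd : q.totalDegree < D) :
    {w | pv p w = 0 ∧ pv q w = 0}.Finite := by
  by_contra h
  obtain ⟨S, hS, hcard⟩ := Set.Infinite.exists_subset_card_eq h (D * q.totalDegree + 1)
  have h1 := hc.bz q hq hd S (fun w hw => hS hw)
  omega

private theorem deg_pderiv (i : Fin 2) (p : MvPolynomial (Fin 2) ℝ) (D : ℕ) (hD : 0 < D)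
    (h : p.totalDegree ≤ D) : (MvPolynomial.pderiv i p).totalDegree < D := by
  rw [MvPolynomial.totalDegree, Finset.sup_lt_iff (by simpa using hD)]
  intro m hm
  rw [MvPolynomial.mem_support_iff, MvPolynomial.coeff_pderiv] at hm
  have h1 : m + Finsupp.single i 1 ∈ p.support := by
    rw [MvPolynomial.mem_support_iff]
    exact left_ne_zero_of_mul hm
  have h2 := MvPolynomial.le_totalDegree h1
  rw [Finsupp.sum_add_index' (by simp) (by simp)] at h2
  rw [Finsupp.sum_single_index rfl] at h2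
  omega

private theorem coeff_X_pderiv (i : Fin 2) (p : MvPolynomial (Fin 2) ℝ) (m : Fin 2 →₀ ℕ) :
    (MvPolynomial.X i * MvPolynomial.pderiv i p).coeff m = (m i : ℝ) * p.coeff m := by
  classical
  induction p using MvPolynomial.induction_on' with
  | add p q hp hq => simp [mul_add, hp, hq]
  | monomial n a =>
    rw [MvPolynomial.X_mul_pderiv_monomial, MvPolynomial.coeff_smul, MvPolynomial.coeff_monomial]
    split_ifs with h
    · subst h
      simp
    · simp

private theorem deg_rad (p : MvPolynomial (Fin 2) ℝ) (D : ℕ) (hD : 0 < D)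
    (h : p.totalDegree ≤ D) :
    (MvPolynomial.C (D : ℝ) * p - MvPolynomial.X 0 * MvPolynomial.pderiv 0 p
      - MvPolynomial.X 1 * MvPolynomial.pderiv 1 p).totalDegree < D := by
  rw [MvPolynomial.totalDegree, Finset.sup_lt_iff (by simpa using hD)]
  intro m hm
  rw [MvPolynomial.mem_support_iff, MvPolynomial.coeff_sub, MvPolynomial.coeff_sub,
    MvPolynomial.coeff_C_mul, coeff_X_pderiv, coeff_X_pderiv] at hm
  have hm2 : ((D : ℝ) - m 0 - m 1) * p.coeff m ≠ 0 := by
    intro h0
    apply hm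
    linarith
  have h1 : m ∈ p.support := by
    rw [MvPolynomial.mem_support_iff]
    exact right_ne_zero_of_mul hm2
  have h2 := MvPolynomial.le_totalDegree h1
  have h3 : (m.sum fun _ e => e) = m 0 + m 1 := by
    rw [Finsupp.sum_fintype _ _ (by simp)]
    simp
  rw [h3] at h2 ⊢
  have h4 : D ≠ m 0 + m 1 := by
    intro h5
    apply left_ne_zero_of_mul hm2
    rw [h5]
    push_cast
    ring
  omega

/-- a function with zero derivative along a line -/
private theorem const_line {p : MvPolynomial (Fin 2) ℝ} (w₀ : ℝ × ℝ) (h₀ : pv p w₀ = 0) (a b : ℝ)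
    (h : ∀ w, a * pv (MvPolynomial.pderiv 0 p) w + b * pv (MvPolynomial.pderiv 1 p) w = 0) (t : ℝ) :
    pv p (w₀.1 + t * a, w₀.2 + t * b) = 0 := by
  have hd : ∀ s : ℝ, HasDerivAt (fun s => pv p (w₀.1 + s * a, w₀.2 + s * b)) 0 s := by
    intro s
    have h1 : HasDerivAt (fun s : ℝ => w₀.1 + s * a) a s := by
      simpa using ((hasDerivAt_id s).mul_const a).const_add w₀.1
    have h2 : HasDerivAt (fun s : ℝ => w₀.2 + s * b) b s := by
      simpa using ((hasDerivAt_id s).mul_const b).const_add w₀.2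
    have h3 := hasDerivAt_pv p _ _ _ _ s h1 h2
    rwa [h] at h3
  have h4 := is_const_of_deriv_eq_zero (fun s => (hd s).differentiableAt) (fun s => (hd s).deriv) t 0
  simp only [zero_mul, add_zero] at h4
  rw [h4]
  exact h₀

theorem crit_v {D : ℕ} {p : MvPolynomial (Fin 2) ℝ} (hc : Curve D p) (hD : 2 ≤ D) (w₀ : ℝ × ℝ)
    (h₀ : pv p w₀ = 0) :
    {w | pv p w = 0 ∧ pv (MvPolynomial.pderiv 1 p) w = 0}.Finite := by
  by_cases hq : MvPolynomial.pderiv 1 p = 0
  · exfalso
    obtain ⟨t, -, ht⟩ := no_line hc hD w₀ 0 1 (Or.inr one_ne_zero)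
    apply ht
    apply const_line w₀ h₀
    intro w
    rw [hq]
    simp [pv]
  · exact fin_bz hc _ hq (deg_pderiv 1 p D (by omega) hc.deg)

theorem crit_c {D : ℕ} {p : MvPolynomial (Fin 2) ℝ} (hc : Curve D p) (hD : 2 ≤ D) (w₀ : ℝ × ℝ)
    (h₀ : pv p w₀ = 0) (c : ℝ) :
    {w | pv p w = 0 ∧ pv (MvPolynomial.pderiv 0 p) w + c * pv (MvPolynomial.pderiv 1 p) w = 0}.Finite := by
  by_cases hq : MvPolynomial.pderiv 0 p + MvPolynomial.C c * MvPolynomial.pderiv 1 p = 0
  · exfalso
    obtain ⟨t, -, ht⟩ := no_line hc hD w₀ 1 c (Or.inl one_ne_zero)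
    apply ht
    apply const_line w₀ h₀
    intro w
    have h1 : pv (MvPolynomial.pderiv 0 p + MvPolynomial.C c * MvPolynomial.pderiv 1 p) w = 0 := by
      rw [hq]
      simp [pv]
    rw [pv_add, pv_mul, pv_C] at h1
    linarith
  · have h1 := fin_bz hc _ hq (lt_of_le_of_lt (MvPolynomial.totalDegree_add _ _)
      (max_lt (deg_pderiv 0 p D (by omega) hc.deg) (lt_of_le_of_lt
        (MvPolynomial.totalDegree_mul _ _) (by
          rw [MvPolynomial.totalDegree_C, zero_add]
          exact deg_pderiv 1 p D (by omega) hc.deg))))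
    simpa only [pv_add, pv_mul, pv_C] using h1

theorem crit_rad {D : ℕ} {p : MvPolynomial (Fin 2) ℝ} (hc : Curve D p) (hD : 2 ≤ D) (w₀ : ℝ × ℝ)
    (h₀ : pv p w₀ = 0) (h₀' : w₀ ≠ (0, 0)) :
    {w | pv p w = 0 ∧ w.1 * pv (MvPolynomial.pderiv 0 p) w
      + w.2 * pv (MvPolynomial.pderiv 1 p) w = 0}.Finite := by
  by_cases hq : MvPolynomial.C (D : ℝ) * p - MvPolynomial.X 0 * MvPolynomial.pderiv 0 p
      - MvPolynomial.X 1 * MvPolynomial.pderiv 1 p = 0
  · exfalso
    have hab : w₀.1 ≠ 0 ∨ w₀.2 ≠ 0 := by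
      by_contra h
      push Not at h
      exact h₀' (Prod.ext h.1 h.2)
    obtain ⟨t, ht, ht2⟩ := no_line hc hD w₀ w₀.1 w₀.2 hab
    apply ht2
    have hE : ∀ w, (D : ℝ) * pv p w = w.1 * pv (MvPolynomial.pderiv 0 p) w
        + w.2 * pv (MvPolynomial.pderiv 1 p) w := by
      intro w
      have h1 : pv (MvPolynomial.C (D : ℝ) * p - MvPolynomial.X 0 * MvPolynomial.pderiv 0 p
          - MvPolynomial.X 1 * MvPolynomial.pderiv 1 p) w = 0 := by
        rw [hq]
        simp [pv]
      rw [pv_sub, pv_sub, pv_mul, pv_mul, pv_mul, pv_C, pv_X0, pv_X1] at h1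
      linarith
    have hd : ∀ s ∈ Ioi (0 : ℝ),
        HasDerivAt (fun s => pv p (s * w₀.1, s * w₀.2) * (s ^ D)⁻¹) 0 s := by
      intro s hs
      have hs0 : s ≠ 0 := ne_of_gt hs
      have h1 : HasDerivAt (fun s : ℝ => s * w₀.1) w₀.1 s := by
        simpa using (hasDerivAt_id s).mul_const w₀.1
      have h2 : HasDerivAt (fun s : ℝ => s * w₀.2) w₀.2 s := by
        simpa using (hasDerivAt_id s).mul_const w₀.2
      have h3 := hasDerivAt_pv p _ _ _ _ s h1 h2
      have h4 : HasDerivAt (fun s : ℝ => (s ^ D)⁻¹) (-(D * s ^ (D - 1)) / (s ^ D) ^ 2) s :=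
        (hasDerivAt_pow D s).inv (pow_ne_zero _ hs0)
      have h5 := h3.mul h4
      refine h5.congr_deriv ?_
      have h6 := hE (s * w₀.1, s * w₀.2)
      simp only at h6
      obtain ⟨k, rfl⟩ : ∃ k, D = k + 1 := ⟨D - 1, by omega⟩
      rw [Nat.add_sub_cancel]
      have h7 : w₀.1 * pv (MvPolynomial.pderiv 0 p) (s * w₀.1, s * w₀.2)
          + w₀.2 * pv (MvPolynomial.pderiv 1 p) (s * w₀.1, s * w₀.2)
          = ((k + 1 : ℕ) : ℝ) * pv p (s * w₀.1, s * w₀.2) / s := by
        rw [h6]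
        field_simp
      rw [h7]
      field_simp
      ring
    have hcst : pv p ((1 + t) * w₀.1, (1 + t) * w₀.2) * ((1 + t) ^ D)⁻¹
        = pv p (1 * w₀.1, 1 * w₀.2) * ((1 : ℝ) ^ D)⁻¹ := by
      apply IsOpen.is_const_of_deriv_eq_zero isOpen_Ioi isPreconnected_Ioi
        (fun s hs => (hd s hs).differentiableAt.differentiableWithinAt)
        (fun s hs => (hd s hs).deriv)
      · exact mem_Ioi.2 (by linarith [ht.1])
      · exact mem_Ioi.2 one_pos
    simp only [one_mul, one_pow, inv_one, mul_one] at hcst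
    have h8 : pv p (w₀.1, w₀.2) = 0 := h₀
    rw [h8] at hcst
    have h9 : (1 + t) ^ D ≠ 0 := pow_ne_zero _ (by linarith [ht.1])
    have h10 : pv p ((1 + t) * w₀.1, (1 + t) * w₀.2) = 0 := by
      rcases mul_eq_zero.1 hcst with h | h
      · exact h
      · exact absurd h (inv_ne_zero h9)
    convert h10 using 2
    ext <;> simp <;> ring
  · apply (fin_bz hc _ hq (deg_rad p D (by omega) hc.deg)).subset
    intro w hw
    refine ⟨hw.1, ?_⟩
    rw [pv_sub, pv_sub, pv_mul, pv_mul, pv_mul, pv_C, pv_X0, pv_X1, hw.1]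
    linarith [hw.2]

end Pool.ACA
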