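import Pool.Agent.Lib.MP_aca35e_co.Defs

/-!
# MP_aca35e_co, row C3

Local structure of the real roots of `p (u, ·)` in `[-δ, δ]` near `u₀`, where all roots are simple.
`pv p` is continuous on `ℝ × ℝ`. Choose `r < r₀` small: the closed intervals `[v - r, v + r]`, `v ∈ R`, are
disjoint, inside `(-δ, δ)`, and `pv (pderiv 1 p) ≠ 0` on `{(u, v') | |u - u₀| ≤ η₀, |v' - v| ≤ r}` (continuity;
constant sign on this box, as it is connected), so `p (u, ·)` is strictly monotone on `[v - r, v + r]`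
for these `u`. `p (u₀, v ± r)` have opposite signs, and so for `u` near `u₀`: exactly one root in
`(v-r, v+r)` (IVT). The set `K = [-δ,δ] ∖ ⋃ (v - r, v + r)` is compact and `p (u₀, ·) ≠ 0` on it, so
`p (u, ·) ≠ 0` on it for `u` near `u₀` (tube lemma or uniform continuity).
-/

set_option autoImplicit false
set_option linter.unusedVariables false

namespace Pool.ACA

open Set Filter Topology

private theorem cont_pv (p : MvPolynomial (Fin 2) ℝ) : Continuous (fun w : ℝ × ℝ => pv p w) := by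
  have h1 : Continuous (fun w : ℝ × ℝ => (![w.1, w.2] : Fin 2 → ℝ)) := by
    refine continuous_pi fun i => ?_
    fin_cases i
    · exact continuous_fst
    · exact continuous_snd
  exact (MvPolynomial.continuous_eval p).comp h1

private theorem hasDeriv_v (p : MvPolynomial (Fin 2) ℝ) (u v : ℝ) :
    HasDerivAt (fun s => pv p (u, s)) (pv (MvPolynomial.pderiv 1 p) (u, v)) v := by
  induction p using MvPolynomial.induction_on with
  | C a =>
    have e1 : (fun s => pv (MvPolynomial.C a) (u, s)) = fun _ : ℝ => a := by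
      funext s
      simp [pv]
    have e2 : pv (MvPolynomial.pderiv 1 (MvPolynomial.C a)) (u, v) = 0 := by
      rw [MvPolynomial.pderiv_C]
      simp [pv]
    rw [e1, e2]
    exact hasDerivAt_const v a
  | add p q hp hq =>
    have e1 : (fun s => pv (p + q) (u, s)) = (fun s => pv p (u, s)) + fun s => pv q (u, s) := by
      funext s
      simp [pv]
    rw [e1]
    refine (hp.add hq).congr_deriv ?_
    simp [pv]
  | mul_X p i hp =>
    fin_cases i
    · have e1 : (fun s => pv (p * MvPolynomial.X 0) (u, s)) = fun s => pv p (u, s) * u := by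
        funext s
        simp [pv]
      have e0 : (MvPolynomial.pderiv 1) (MvPolynomial.X 0 : MvPolynomial (Fin 2) ℝ) = 0 :=
        MvPolynomial.pderiv_X_of_ne (by decide)
      simp only [Fin.zero_eta, Fin.isValue, e1, MvPolynomial.pderiv_mul, e0]
      refine (hp.mul_const u).congr_deriv ?_
      simp [pv]
    · have e1 : (fun s => pv (p * MvPolynomial.X 1) (u, s))
          = (fun s => pv p (u, s)) * fun s => s := by
        funext s
        simp [pv]
      simp only [Fin.mk_one, Fin.isValue, e1, MvPolynomial.pderiv_mul,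
        MvPolynomial.pderiv_X_self]
      refine (hp.mul (hasDerivAt_id' v)).congr_deriv ?_
      simp [pv]

/-- nonvanishing derivative on an interval: injectivity -/
private theorem inj_v (p : MvPolynomial (Fin 2) ℝ) (u a b : ℝ)
    (h : ∀ v ∈ Icc a b, pv (MvPolynomial.pderiv 1 p) (u, v) ≠ 0) :
    InjOn (fun v => pv p (u, v)) (Icc a b) := by
  have key : ∀ x ∈ Icc a b, ∀ y ∈ Icc a b, x < y → pv p (u, x) ≠ pv p (u, y) := by
    intro x hx y hy hxy he
    obtain ⟨c, hc, hc2⟩ := exists_hasDerivAt_eq_zero hxy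
      (fun v _ => (hasDeriv_v p u v).continuousAt.continuousWithinAt) he
      (fun v _ => hasDeriv_v p u v)
    exact h c ⟨hx.1.trans hc.1.le, hc.2.le.trans hy.2⟩ hc2
  intro x hx y hy hxy
  rcases lt_trichotomy x y with h1 | h1 | h1
  · exact absurd hxy (key x hx y hy h1)
  · exact h1
  · exact absurd hxy.symm (key y hy x hx h1)

theorem loc_roots (p : MvPolynomial (Fin 2) ℝ) (δ u₀ : ℝ) (hδ : 0 < δ) (R : Finset ℝ)
    (hR : ∀ v, v ∈ R ↔ (|v| ≤ δ ∧ pv p (u₀, v) = 0))
    (h1 : pv p (u₀, δ) ≠ 0) (h2 : pv p (u₀, -δ) ≠ 0)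
    (hs : ∀ v ∈ R, pv (MvPolynomial.pderiv 1 p) (u₀, v) ≠ 0) (r₀ : ℝ) (hr₀ : 0 < r₀) :
    ∃ r, 0 < r ∧ r < r₀ ∧ (∀ v ∈ R, ∀ v' ∈ R, v ≠ v' → 2 * r < |v - v'|) ∧
      (∀ v ∈ R, |v| + r < δ) ∧
      ∃ η > 0, ∀ u, |u - u₀| < η →
        (∀ v ∈ R, ∃! v', |v' - v| < r ∧ pv p (u, v') = 0) ∧
        ∀ v', |v'| ≤ δ → pv p (u, v') = 0 → ∃ v ∈ R, |v' - v| < r := by
  have hlt : ∀ v ∈ R, |v| < δ := by
    intro v hv
    obtain ⟨ha, hb⟩ := (hR v).1 hv
    refine lt_of_le_of_ne ha ?_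
    intro he
    rcases abs_eq hδ.le |>.1 he with h | h
    · exact h1 (h ▸ hb)
    · exact h2 (h ▸ hb)
  -- choice of `r`
  have ev1 : ∀ᶠ r : ℝ in 𝓝[>] 0, 0 < r := eventually_mem_nhdsWithin
  have ev2 : ∀ᶠ r : ℝ in 𝓝[>] 0, r < r₀ := nhdsWithin_le_nhds (Iio_mem_nhds hr₀)
  have ev3 : ∀ᶠ r : ℝ in 𝓝[>] 0, ∀ v ∈ R, ∀ v' ∈ R, v ≠ v' → 2 * r < |v - v'| := by
    rw [eventually_all_finset]
    intro v _
    rw [eventually_all_finset]
    intro v' _
    rw [eventually_imp_distrib_left]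
    intro hne
    have h3 : 0 < |v - v'| / 2 := by
      have := abs_pos.2 (sub_ne_zero.2 hne)
      positivity
    filter_upwards [nhdsWithin_le_nhds (Iio_mem_nhds h3)] with r hr
    have hr' : r < |v - v'| / 2 := hr
    linarith
  have ev4 : ∀ᶠ r : ℝ in 𝓝[>] 0, ∀ v ∈ R, |v| + r < δ := by
    rw [eventually_all_finset]
    intro v hv
    have h3 : 0 < δ - |v| := sub_pos.2 (hlt v hv)
    filter_upwards [nhdsWithin_le_nhds (Iio_mem_nhds h3)] with r hr
    have hr' : r < δ - |v| := hr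
    linarith
  have ev5 : ∀ᶠ r : ℝ in 𝓝[>] 0, ∀ v ∈ R, ∀ u v', |u - u₀| ≤ r → |v' - v| ≤ r →
      pv (MvPolynomial.pderiv 1 p) (u, v') ≠ 0 := by
    rw [eventually_all_finset]
    intro v hv
    have h3 : ∀ᶠ w in 𝓝 (u₀, v), pv (MvPolynomial.pderiv 1 p) w ≠ 0 :=
      (cont_pv _).continuousAt.eventually_ne (hs v hv)
    obtain ⟨ε, hε, h4⟩ := Metric.eventually_nhds_iff.1 h3
    filter_upwards [nhdsWithin_le_nhds (Iio_mem_nhds hε)] with r hr u v' hu hv'
    have hr' : r < ε := hr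
    apply h4
    rw [Prod.dist_eq]
    exact max_lt (by rw [Real.dist_eq]; exact lt_of_le_of_lt hu hr')
      (by rw [Real.dist_eq]; exact lt_of_le_of_lt hv' hr')
  obtain ⟨r, hr0, hr1, hr3, hr4, hr5⟩ := (ev1.and (ev2.and (ev3.and (ev4.and ev5)))).exists
  refine ⟨r, hr0, hr1, hr3, hr4, ?_⟩
  -- opposite signs
  have hsgn : ∀ v ∈ R, pv p (u₀, v - r) * pv p (u₀, v + r) < 0 := by
    intro v hv
    have hz : pv p (u₀, v) = 0 := ((hR v).1 hv).2
    have hinj := inj_v p u₀ (v - r) (v + r) (fun v' hv' => hr5 v hv u₀ v' (by simpa using hr0.le)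
      (abs_le.2 ⟨by linarith [hv'.1], by linarith [hv'.2]⟩))
    have hcont : ContinuousOn (fun v => pv p (u₀, v)) (Icc (v - r) (v + r)) :=
      fun x _ => (hasDeriv_v p u₀ x).continuousAt.continuousWithinAt
    have m0 : v - r ∈ Icc (v - r) (v + r) := ⟨le_rfl, by linarith⟩
    have m1 : v ∈ Icc (v - r) (v + r) := ⟨by linarith, by linarith⟩
    have m2 : v + r ∈ Icc (v - r) (v + r) := ⟨by linarith, le_rfl⟩
    rcases hcont.strictMonoOn_of_injOn_Icc' (by linarith) hinj with hm | hm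
    · have a1 := hm m0 m1 (by linarith)
      have a2 := hm m1 m2 (by linarith)
      simp only [hz] at a1 a2
      exact mul_neg_of_neg_of_pos a1 a2
    · have a1 := hm m0 m1 (by linarith)
      have a2 := hm m1 m2 (by linarith)
      simp only [hz] at a1 a2
      exact mul_neg_of_pos_of_neg a1 a2
  have hK : IsCompact {v' : ℝ | |v'| ≤ δ ∧ ∀ v ∈ R, r ≤ |v' - v|} := by
    have hcl : IsClosed {v' : ℝ | |v'| ≤ δ ∧ ∀ v ∈ R, r ≤ |v' - v|} := by
      have e1 : {v' : ℝ | |v'| ≤ δ ∧ ∀ v ∈ R, r ≤ |v' - v|}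
          = {v' : ℝ | |v'| ≤ δ} ∩ ⋂ v ∈ R, {v' : ℝ | r ≤ |v' - v|} := by
        ext x
        simp
      rw [e1]
      exact (isClosed_le continuous_abs continuous_const).inter
        (isClosed_biInter fun v _ => isClosed_le continuous_const
          (continuous_abs.comp (continuous_id.sub continuous_const)))
    refine Metric.isCompact_of_isClosed_isBounded hcl ?_
    refine (Metric.isBounded_Icc (-δ) δ).subset ?_
    intro x hx
    exact abs_le.1 hx.1
  have e1 : ∀ᶠ u in 𝓝 u₀, ∀ v' ∈ {v' : ℝ | |v'| ≤ δ ∧ ∀ v ∈ R, r ≤ |v' - v|},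
      pv p (u, v') ≠ 0 := by
    apply hK.eventually_forall_of_forall_eventually
    intro y hy
    apply (cont_pv p).continuousAt.eventually_ne
    intro h0
    have h3 := hy.2 y ((hR y).2 ⟨hy.1, h0⟩)
    rw [sub_self, abs_zero] at h3
    linarith
  have e2 : ∀ᶠ u in 𝓝 u₀, ∀ v ∈ R, pv p (u, v - r) * pv p (u, v + r) < 0 := by
    rw [eventually_all_finset]
    intro v hv
    have hc : Continuous (fun u => pv p (u, v - r) * pv p (u, v + r)) :=
      ((cont_pv p).comp (continuous_id.prodMk continuous_const)).mul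
        ((cont_pv p).comp (continuous_id.prodMk continuous_const))
    exact hc.continuousAt.eventually_lt continuousAt_const (hsgn v hv)
  have e3 : ∀ᶠ u in 𝓝 u₀, |u - u₀| < r := by
    have := Metric.ball_mem_nhds u₀ hr0
    filter_upwards [this] with u hu
    rwa [Metric.mem_ball, Real.dist_eq] at hu
  obtain ⟨η, hη, hall⟩ := Metric.eventually_nhds_iff.1 (e1.and (e2.and e3))
  refine ⟨η, hη, fun u hu => ?_⟩
  obtain ⟨g1, g2, g3⟩ := hall (by rwa [Real.dist_eq])
  refine ⟨fun v hv => ?_, fun v' hv' hz => ?_⟩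
  · have hne : ∀ v' ∈ Icc (v - r) (v + r), pv (MvPolynomial.pderiv 1 p) (u, v') ≠ 0 :=
      fun v' hv' => hr5 v hv u v' g3.le (abs_le.2 ⟨by linarith [hv'.1], by linarith [hv'.2]⟩)
    have hinj := inj_v p u (v - r) (v + r) hne
    have hcont : ContinuousOn (fun v => pv p (u, v)) (Icc (v - r) (v + r)) :=
      fun x _ => (hasDeriv_v p u x).continuousAt.continuousWithinAt
    have hle : v - r ≤ v + r := by linarith
    have hex : ∃ c ∈ Ioo (v - r) (v + r), pv p (u, c) = 0 := by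
      rcases mul_neg_iff.1 (g2 v hv) with ⟨ha, hb⟩ | ⟨ha, hb⟩
      · have := intermediate_value_Ioo' hle hcont
          (⟨hb, ha⟩ : (0 : ℝ) ∈ Ioo (pv p (u, v + r)) (pv p (u, v - r)))
        obtain ⟨c, hc, hc2⟩ := this
        exact ⟨c, hc, hc2⟩
      · have := intermediate_value_Ioo hle hcont
          (⟨ha, hb⟩ : (0 : ℝ) ∈ Ioo (pv p (u, v - r)) (pv p (u, v + r)))
        obtain ⟨c, hc, hc2⟩ := this
        exact ⟨c, hc, hc2⟩
    obtain ⟨c, hc, hc2⟩ := hex
    refine ⟨c, ⟨abs_lt.2 ⟨by linarith [hc.1], by linarith [hc.2]⟩, hc2⟩, ?_⟩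
    rintro c' ⟨hc', hc'2⟩
    have h3 := abs_lt.1 hc'
    apply hinj ⟨by linarith [h3.1], by linarith [h3.2]⟩ ⟨hc.1.le, hc.2.le⟩
    simp only [hc2, hc'2]
  · by_contra hcon
    push Not at hcon
    exact g1 v' ⟨hv', hcon⟩ hz

end Pool.ACA
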