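import Pool.Agent.Lib.MP_aca35e_co.Defs
import Pool.Agent.Lib.MP_aca35e_co.C3

/-!
# MP_aca35e_co, row C4

Global branches over `(0, u₁)`. For `u ∈ (0,u₁)` let `R u` be the finset of roots of `p (u, ·)` in `[-δ, δ]`.
By `loc_roots` (C3) `(R u).card` is locally constant, so constant `= N` on the connected set `(0, u₁)`
(`IsPreconnected`, e.g. `IsPreconnected.constant` for a locally constant function on the subtype or the
sSup argument). Let `φ i u` be the `i`-th root: `(R u).orderEmbOfFin`. Continuity at `u₀`: for `ε > 0` take `r₀ = ε`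
in `loc_roots`: for `u` near `u₀` the `N` roots of `u` are one in each interval `(v - r, v + r)`, `v ∈ R u₀`, these
intervals are disjoint and ordered, so the `i`-th root of `u` is within `r` of the `i`-th root of `u₀`
(a strictly monotone map `Fin N → Fin N` is the identity).
-/

set_option autoImplicit false
set_option linter.unusedVariables false

namespace Pool.ACA

open Set Filter Topology

private theorem loc_bij (p : MvPolynomial (Fin 2) ℝ) (δ u₁ : ℝ) (hδ : 0 < δ)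
    (h1 : ∀ u ∈ Ioo 0 u₁, pv p (u, δ) ≠ 0 ∧ pv p (u, -δ) ≠ 0)
    (h2 : ∀ u ∈ Ioo 0 u₁, ∀ v, |v| ≤ δ → pv p (u, v) = 0 →
      pv (MvPolynomial.pderiv 1 p) (u, v) ≠ 0)
    (R : ℝ → Finset ℝ)
    (hR : ∀ u ∈ Ioo 0 u₁, ∀ v, v ∈ R u ↔ (|v| ≤ δ ∧ pv p (u, v) = 0))
    (u₀ : ℝ) (hu₀ : u₀ ∈ Ioo 0 u₁) (ε : ℝ) (hε : 0 < ε) :
    ∃ η > 0, ∀ u ∈ Ioo 0 u₁, |u - u₀| < η → ∃ f : ℝ → ℝ,
      (∀ v ∈ R u₀, f v ∈ R u ∧ |f v - v| < ε) ∧
      (∀ v ∈ R u₀, ∀ w ∈ R u₀, v < w → f v < f w) ∧ (R u).card = (R u₀).card := by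
  obtain ⟨r, hr, hrε, hsep, hin, η, hη, H⟩ := loc_roots p δ u₀ hδ (R u₀) (hR u₀ hu₀)
    (h1 u₀ hu₀).1 (h1 u₀ hu₀).2
    (fun v hv => h2 u₀ hu₀ v ((hR u₀ hu₀ v).1 hv).1 ((hR u₀ hu₀ v).1 hv).2) ε hε
  refine ⟨η, hη, fun u hu hun => ?_⟩
  obtain ⟨hex, hcov⟩ := H u hun
  choose! f hf hfu using hex
  have hmem : ∀ v ∈ R u₀, f v ∈ R u := by
    intro v hv
    rw [hR u hu]
    refine ⟨?_, (hf v hv).2⟩
    have h3 := hin v hv
    have h4 := (hf v hv).1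
    have h5 : |f v| ≤ |f v - v| + |v| := by
      have := abs_add_le (f v - v) v
      simpa using this
    linarith
  have hmono : ∀ v ∈ R u₀, ∀ w ∈ R u₀, v < w → f v < f w := by
    intro v hv w hw hvw
    have h3 := hsep v hv w hw hvw.ne
    have h4 := (abs_lt.1 (hf v hv).1).2
    have h5 := (abs_lt.1 (hf w hw).1).1
    rw [abs_sub_comm, abs_of_pos (by linarith)] at h3
    linarith
  refine ⟨f, fun v hv => ⟨hmem v hv, (hf v hv).1.trans hrε⟩, hmono, ?_⟩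
  symm
  refine Finset.card_bij (fun v _ => f v) hmem ?_ ?_
  · intro v hv w hw hvw
    by_contra hne
    rcases lt_or_gt_of_ne hne with h | h
    · exact absurd hvw (hmono v hv w hw h).ne
    · exact absurd hvw (hmono w hw v hv h).ne'
  · intro v' hv'
    have h3 := (hR u hu v').1 hv'
    obtain ⟨v, hv, hvv⟩ := hcov v' h3.1 h3.2
    exact ⟨v, hv, (hfu v hv v' ⟨hvv, h3.2⟩).symm⟩

theorem branches (p : MvPolynomial (Fin 2) ℝ) (δ u₁ : ℝ) (hδ : 0 < δ) (hu₁ : 0 < u₁)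
    (h1 : ∀ u ∈ Ioo 0 u₁, pv p (u, δ) ≠ 0 ∧ pv p (u, -δ) ≠ 0)
    (h2 : ∀ u ∈ Ioo 0 u₁, ∀ v, |v| ≤ δ → pv p (u, v) = 0 →
      pv (MvPolynomial.pderiv 1 p) (u, v) ≠ 0)
    (h3 : ∀ u ∈ Ioo 0 u₁, {v : ℝ | |v| ≤ δ ∧ pv p (u, v) = 0}.Finite) :
    ∃ (N : ℕ) (φ : Fin N → ℝ → ℝ), (∀ i, ContinuousOn (φ i) (Ioo 0 u₁)) ∧
      (∀ i, ∀ u ∈ Ioo 0 u₁, |φ i u| < δ ∧ pv p (u, φ i u) = 0) ∧
      (∀ i j, i < j → ∀ u ∈ Ioo 0 u₁, φ i u < φ j u) ∧
      ∀ u ∈ Ioo 0 u₁, ∀ v, |v| ≤ δ → pv p (u, v) = 0 → ∃ i, v = φ i u := by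
  classical
  set R : ℝ → Finset ℝ := fun u => if hu : u ∈ Ioo 0 u₁ then (h3 u hu).toFinset else ∅ with hRdef
  have hR : ∀ u ∈ Ioo 0 u₁, ∀ v, v ∈ R u ↔ (|v| ≤ δ ∧ pv p (u, v) = 0) := by
    intro u hu v
    simp only [hRdef, dif_pos hu, Set.Finite.mem_toFinset, mem_ofPred_eq]
  have hcont : ContinuousOn (fun u => (R u).card) (Ioo 0 u₁) := by
    intro u₀ hu₀
    obtain ⟨η, hη, H⟩ := loc_bij p δ u₁ hδ h1 h2 R hR u₀ hu₀ 1 one_pos
    have hev : ∀ᶠ u in 𝓝[Ioo 0 u₁] u₀, (R u).card = (R u₀).card := by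
      filter_upwards [self_mem_nhdsWithin,
        mem_nhdsWithin_of_mem_nhds (Metric.ball_mem_nhds u₀ hη)] with u hu hb
      rw [Metric.mem_ball, Real.dist_eq] at hb
      obtain ⟨f, -, -, hc⟩ := H u hu hb
      exact hc
    exact (tendsto_const_nhds (x := (R u₀).card)).congr' (hev.mono fun u hu => hu.symm)
  have hmid : u₁ / 2 ∈ Ioo 0 u₁ := ⟨by linarith, by linarith⟩
  have hcard : ∀ u ∈ Ioo 0 u₁, (R u).card = (R (u₁ / 2)).card := fun u hu =>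
    isPreconnected_Ioo.constant hcont hu hmid
  set N := (R (u₁ / 2)).card with hN
  set φ : Fin N → ℝ → ℝ := fun i u => if h : (R u).card = N then (R u).orderEmbOfFin h i else 0
    with hφ
  have hφu : ∀ u (hu : u ∈ Ioo 0 u₁) (i : Fin N), φ i u = (R u).orderEmbOfFin (hcard u hu) i := by
    intro u hu i
    simp only [hφ, dif_pos (hcard u hu)]
  have hmem : ∀ u ∈ Ioo 0 u₁, ∀ i, φ i u ∈ R u := by
    intro u hu i
    rw [hφu u hu]
    exact Finset.orderEmbOfFin_mem _ _ _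
  have hmono : ∀ u ∈ Ioo 0 u₁, ∀ i j, i < j → φ i u < φ j u := by
    intro u hu i j hij
    rw [hφu u hu, hφu u hu]
    exact (Finset.orderEmbOfFin _ _).strictMono hij
  refine ⟨N, φ, ?_, ?_, fun i j hij u hu => hmono u hu i j hij, ?_⟩
  · intro i u₀ hu₀
    rw [Metric.continuousWithinAt_iff]
    intro ε hε
    obtain ⟨η, hη, H⟩ := loc_bij p δ u₁ hδ h1 h2 R hR u₀ hu₀ ε hε
    refine ⟨η, hη, fun u hu hd => ?_⟩
    rw [Real.dist_eq] at hd
    obtain ⟨f, hf1, hf2, -⟩ := H u hu hd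
    have key : (fun i => f (φ i u₀)) = (R u).orderEmbOfFin (hcard u hu) := by
      refine Finset.orderEmbOfFin_unique (hcard u hu) (fun j => (hf1 _ (hmem u₀ hu₀ j)).1) ?_
      intro j k hjk
      exact hf2 _ (hmem u₀ hu₀ j) _ (hmem u₀ hu₀ k) (hmono u₀ hu₀ j k hjk)
    have : φ i u = f (φ i u₀) := by
      rw [hφu u hu]
      exact (congrFun key i).symm
    rw [this, Real.dist_eq]
    exact (hf1 _ (hmem u₀ hu₀ i)).2
  · intro i u hu
    have h4 := (hR u hu _).1 (hmem u hu i)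
    refine ⟨lt_of_le_of_ne h4.1 ?_, h4.2⟩
    intro h5
    rcases (abs_eq hδ.le).1 h5 with h6 | h6
    · have := h4.2
      rw [h6] at this
      exact (h1 u hu).1 this
    · have := h4.2
      rw [h6] at this
      exact (h1 u hu).2 this
  · intro u hu v hv hp
    have h4 : v ∈ R u := (hR u hu v).2 ⟨hv, hp⟩
    have h5 : v ∈ Set.range ((R u).orderEmbOfFin (hcard u hu)) := by
      rw [Finset.range_orderEmbOfFin]
      exact h4
    obtain ⟨i, hi⟩ := h5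
    exact ⟨i, by rw [hφu u hu, hi]⟩

end Pool.ACA
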