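import Pool.Agent.Lib.MP_aca35e_co.Defs
import Pool.Agent.Lib.MP_aca35e_co.C2

/-!
# MP_aca35e_co, row C5

Implicit function theorem and the derivative of a branch.
`ift`: `f` is analytic, so `ContDiffAt ℝ ω f (x₀, g x₀)`; use `ContDiffAt.implicitFunction` with `n = ω`
(file Mathlib/Analysis/Calculus/ImplicitContDiff.lean): the partial derivative in the second variable is
multiplication by `deriv (fun y => f (x₀, y)) (g x₀) ≠ 0`, invertible. `eventually_apply_eq_iff_implicitFunction`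
gives `g x = ψ x` for `x` near `x₀` (as `(x, g x) → (x₀, g x₀)` by continuity), and `ψ` is `ContDiffAt ω`, so
analytic at `x₀`. `analytic_branch`: apply it to `f = pv p`. `deriv_branch`: `hasDerivAt_pv` of C2.
-/

set_option autoImplicit false
set_option linter.unusedVariables false

namespace Pool.ACA

open Set Filter Topology

theorem ift (f : ℝ × ℝ → ℝ) (g : ℝ → ℝ) (x₀ : ℝ) (hf : AnalyticAt ℝ f (x₀, g x₀))
    (hg : ContinuousAt g x₀) (h0 : ∀ᶠ x in 𝓝 x₀, f (x, g x) = 0)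
    (hd : deriv (fun y => f (x₀, y)) (g x₀) ≠ 0) : AnalyticAt ℝ g x₀ := by
  have cdf : ContDiffAt ℝ (⊤ : WithTop ℕ∞) f (x₀, g x₀) := hf.contDiffAt
  have pn : (⊤ : WithTop ℕ∞) ≠ 0 := by simp
  have hfd : HasFDerivAt f (fderiv ℝ f (x₀, g x₀)) (x₀, g x₀) := hf.differentiableAt.hasFDerivAt
  have hline : HasDerivAt (fun y : ℝ => ((x₀, y) : ℝ × ℝ)) ((0 : ℝ), (1 : ℝ)) (g x₀) :=
    (hasDerivAt_const (g x₀) x₀).prodMk (hasDerivAt_id (g x₀))
  have hcomp : HasDerivAt (fun y => f (x₀, y)) (fderiv ℝ f (x₀, g x₀) ((0 : ℝ), (1 : ℝ))) (g x₀) :=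
    HasFDerivAt.comp_hasDerivAt (g x₀) hfd hline
  have hc : fderiv ℝ f (x₀, g x₀) ((0 : ℝ), (1 : ℝ)) ≠ 0 := by
    rw [hcomp.deriv] at hd
    exact hd
  have if₂ : (fderiv ℝ f (x₀, g x₀) ∘L .inr ℝ ℝ ℝ).IsInvertible := by
    refine ⟨ContinuousLinearEquiv.unitsEquivAut ℝ (Units.mk0 _ hc), ?_⟩
    ext
    simp
  have hev := cdf.eventually_apply_eq_iff_implicitFunction pn if₂
  have hψ := cdf.contDiffAt_implicitFunction pn if₂
  have h00 : f (x₀, g x₀) = 0 := h0.self_of_nhds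
  have htend : Tendsto (fun x => (x, g x)) (𝓝 x₀) (𝓝 (x₀, g x₀)) :=
    tendsto_id.prodMk_nhds hg
  have hev' := htend.eventually hev
  have hψa : AnalyticAt ℝ (cdf.implicitFunction pn if₂) x₀ := hψ.analyticAt
  refine hψa.congr ?_
  filter_upwards [hev', h0] with x hx hx0
  exact hx.1 (by rw [hx0, h00])

theorem analyticAt_pv (p : MvPolynomial (Fin 2) ℝ) (w : ℝ × ℝ) : AnalyticAt ℝ (pv p) w := by
  induction p using MvPolynomial.induction_on with
  | C a =>
    have : pv (MvPolynomial.C a) = fun _ => a := by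
      funext w; simp [pv]
    rw [this]; exact analyticAt_const
  | add p q hp hq =>
    have : pv (p + q) = fun w => pv p w + pv q w := by
      funext w; simp [pv]
    rw [this]; exact hp.add hq
  | mul_X p i hp =>
    have : pv (p * MvPolynomial.X i) = fun w => pv p w * (![w.1, w.2] i) := by
      funext w; simp [pv]
    rw [this]
    refine hp.mul ?_
    fin_cases i
    · simpa using (analyticAt_fst (𝕜 := ℝ) (p := w))
    · simpa using (analyticAt_snd (𝕜 := ℝ) (p := w))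

theorem analytic_branch (p : MvPolynomial (Fin 2) ℝ) (φ : ℝ → ℝ) (U : Set ℝ) (hU : IsOpen U)
    (hφ : ContinuousOn φ U) (h0 : ∀ u ∈ U, pv p (u, φ u) = 0)
    (h1 : ∀ u ∈ U, pv (MvPolynomial.pderiv 1 p) (u, φ u) ≠ 0) : AnalyticOnNhd ℝ φ U := by
  intro u hu
  have hnhds : U ∈ 𝓝 u := hU.mem_nhds hu
  refine ift (pv p) φ u (analyticAt_pv p _) (hφ.continuousAt hnhds) ?_ ?_
  · filter_upwards [hnhds] with x hx
    exact h0 x hx
  · have h := hasDerivAt_pv p (fun _ => u) (fun s => s) 0 1 (φ u) (hasDerivAt_const _ _)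
      (hasDerivAt_id' _)
    have h2 : deriv (fun y => pv p (u, y)) (φ u)
        = 0 * pv (MvPolynomial.pderiv 0 p) (u, φ u) + 1 * pv (MvPolynomial.pderiv 1 p) (u, φ u) :=
      h.deriv
    rw [h2]
    simpa using h1 u hu

theorem deriv_branch (p : MvPolynomial (Fin 2) ℝ) (φ : ℝ → ℝ) (u : ℝ) (hφ : DifferentiableAt ℝ φ u)
    (h0 : ∀ᶠ x in 𝓝 u, pv p (x, φ x) = 0) :
    pv (MvPolynomial.pderiv 0 p) (u, φ u)
      + deriv φ u * pv (MvPolynomial.pderiv 1 p) (u, φ u) = 0 := by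
  have h := hasDerivAt_pv p (fun s => s) φ 1 (deriv φ u) u (hasDerivAt_id' _) hφ.hasDerivAt
  have h2 : HasDerivAt (fun s => pv p (s, φ s)) 0 u := by
    have h3 : HasDerivAt (fun _ : ℝ => (0 : ℝ)) 0 u := hasDerivAt_const _ _
    refine h3.congr_of_eventuallyEq ?_
    filter_upwards [h0] with x hx
    exact hx
  have h4 := h.unique h2
  linarith

end Pool.ACA
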