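import Pool.Agent.Lib.MP_aca35e_co.Defs
import Pool.Agent.Lib.MP_aca35e_co.C1
import Pool.Agent.Lib.MP_aca35e_co.C2

/-!
# MP_aca35e_co, row C6

Choice of the window `|v| ≤ δ`, `|u| < u₁`. `p (0, ·)` is a nonzero polynomial function with finitely many roots
(`fin_line` for `u = 0`), so there is `δ > 0` with `p (0, v) ≠ 0` for `0 < |v| ≤ δ`. By continuity there is `u₁` with
`p (u, ±δ) ≠ 0` for `|u| < u₁`; make `u₁` smaller than all `|w.1| > 0` of the finitely many critical points (C2).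
Last claim (roots tend to 0): `p (0, ·) ≠ 0` on the compact set `ε ≤ |v| ≤ δ`. `finite`: `fin_line` for the
line `u = const`.
-/

set_option autoImplicit false
set_option linter.unusedVariables false

namespace Pool.ACA

open Set Filter Topology

private lemma pv_cont (p : MvPolynomial (Fin 2) ℝ) : Continuous (fun w : ℝ × ℝ => pv p w) := by
  unfold pv
  have h1 : Continuous (fun w : ℝ × ℝ => (![w.1, w.2] : Fin 2 → ℝ)) := by
    refine continuous_pi ?_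
    intro i
    fin_cases i
    · exact continuous_fst
    · exact continuous_snd
  exact (MvPolynomial.continuous_eval p).comp h1

private lemma fin_col {D : ℕ} {p : MvPolynomial (Fin 2) ℝ} (hc : Curve D p) (hD : 2 ≤ D) (u : ℝ) :
    {v : ℝ | pv p (u, v) = 0}.Finite := by
  by_contra hinf
  have hinf' : {v : ℝ | pv p (u, v) = 0}.Infinite := hinf
  obtain ⟨T, hT, hcard⟩ := hinf'.exists_subset_card_eq (D + 1)
  have hinj : Function.Injective (fun v : ℝ => (u, v)) := by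
    intro v w h
    exact (Prod.mk.injEq _ _ _ _ ▸ h : _ ∧ _).2
  have h1 := fin_line hc hD 1 0 u (Or.inl one_ne_zero) (T.map ⟨fun v : ℝ => (u, v), hinj⟩) (by
    intro w hw
    rw [Finset.mem_map] at hw
    obtain ⟨v, hv, rfl⟩ := hw
    refine ⟨hT hv, ?_⟩
    simp)
  rw [Finset.card_map, hcard] at h1
  omega

private lemma punct (S : Set ℝ) (hS : S.Finite) : ∃ d > 0, ∀ x, 0 < |x| → |x| < d → x ∉ S := by
  have h1 : IsClosed (S \ {0}) := (hS.subset Set.diff_subset).isClosed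
  have h2 : (S \ {0})ᶜ ∈ 𝓝 (0 : ℝ) := h1.isOpen_compl.mem_nhds (by simp)
  obtain ⟨d, hd, hball⟩ := Metric.mem_nhds_iff.1 h2
  refine ⟨d, hd, ?_⟩
  intro x hx0 hxd hxS
  have h3 : x ∈ Metric.ball (0 : ℝ) d := by
    rw [Metric.mem_ball, Real.dist_eq, sub_zero]
    exact hxd
  have h4 := hball h3
  apply h4
  refine ⟨hxS, ?_⟩
  intro h5
  rw [Set.mem_singleton_iff] at h5
  rw [h5, abs_zero] at hx0
  exact lt_irrefl _ hx0

private lemma near {p : MvPolynomial (Fin 2) ℝ} (v : ℝ) (h : pv p (0, v) ≠ 0) :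
    ∃ d > 0, ∀ u, |u| < d → pv p (u, v) ≠ 0 := by
  have h1 : Continuous (fun u : ℝ => pv p (u, v)) :=
    (pv_cont p).comp (continuous_id.prodMk continuous_const)
  have h2 : ∀ᶠ u in 𝓝 (0 : ℝ), pv p (u, v) ≠ 0 := h1.continuousAt.eventually_ne h
  obtain ⟨d, hd, hball⟩ := Metric.eventually_nhds_iff.1 h2
  refine ⟨d, hd, ?_⟩
  intro u hu
  apply hball
  rw [Real.dist_eq, sub_zero]
  exact hu

theorem window {D : ℕ} {p : MvPolynomial (Fin 2) ℝ} (hc : Curve D p) (hD : 2 ≤ D) (w₀ : ℝ × ℝ)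
    (h₀ : pv p w₀ = 0) (h₀' : w₀ ≠ (0, 0)) :
    ∃ δ > 0, ∃ u₁ > 0, (∀ u, |u| < u₁ → pv p (u, δ) ≠ 0 ∧ pv p (u, -δ) ≠ 0) ∧
      (∀ u v, 0 < |u| → |u| < u₁ → |v| ≤ δ → pv p (u, v) = 0 →
        pv (MvPolynomial.pderiv 1 p) (u, v) ≠ 0 ∧
        u * pv (MvPolynomial.pderiv 0 p) (u, v) + v * pv (MvPolynomial.pderiv 1 p) (u, v) ≠ 0) ∧
      (∀ u, {v : ℝ | |v| ≤ δ ∧ pv p (u, v) = 0}.Finite) ∧
      ∀ ε > 0, ∃ η > 0, ∀ u v, |u| < η → |v| ≤ δ → pv p (u, v) = 0 → |v| < ε := by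
  obtain ⟨d₀, hd₀, hd₀'⟩ := punct _ (fin_col hc hD 0)
  have hδ : 0 < d₀ / 2 := by positivity
  have hz : ∀ v, 0 < |v| → |v| ≤ d₀ / 2 → pv p (0, v) ≠ 0 := by
    intro v hv hv'
    exact hd₀' v hv (by linarith)
  obtain ⟨d₁, hd₁, hd₁'⟩ := near (p := p) (d₀ / 2) (hz _ (abs_pos.2 hδ.ne') (abs_of_pos hδ).le)
  obtain ⟨d₂, hd₂, hd₂'⟩ := near (p := p) (-(d₀ / 2))
    (hz _ (by rw [abs_neg]; exact abs_pos.2 hδ.ne') (by rw [abs_neg]; exact (abs_of_pos hδ).le))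
  obtain ⟨d₃, hd₃, hd₃'⟩ := punct _ ((crit_v hc hD w₀ h₀).image Prod.fst)
  obtain ⟨d₄, hd₄, hd₄'⟩ := punct _ ((crit_rad hc hD w₀ h₀ h₀').image Prod.fst)
  refine ⟨d₀ / 2, hδ, min (min d₁ d₂) (min d₃ d₄), ?_, ?_, ?_, ?_, ?_⟩
  · exact lt_min (lt_min hd₁ hd₂) (lt_min hd₃ hd₄)
  · intro u hu
    rw [lt_min_iff, lt_min_iff, lt_min_iff] at hu
    exact ⟨hd₁' u hu.1.1, hd₂' u hu.1.2⟩
  · intro u v hu0 hu hv hp
    rw [lt_min_iff, lt_min_iff, lt_min_iff] at hu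
    constructor
    · intro h
      exact hd₃' u hu0 hu.2.1 ⟨(u, v), ⟨hp, h⟩, rfl⟩
    · intro h
      exact hd₄' u hu0 hu.2.2 ⟨(u, v), ⟨hp, h⟩, rfl⟩
  · intro u
    exact (fin_col hc hD u).subset (fun v hv => hv.2)
  · intro ε hε
    have hK : IsCompact {v : ℝ | ε ≤ |v| ∧ |v| ≤ d₀ / 2} := by
      have h1 : {v : ℝ | ε ≤ |v| ∧ |v| ≤ d₀ / 2} = Metric.closedBall 0 (d₀ / 2) ∩ {v : ℝ | ε ≤ |v|} := by
        ext v
        simp only [Set.mem_setOf_eq, Set.mem_inter_iff, Metric.mem_closedBall, Real.dist_eq, sub_zero]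
        tauto
      rw [h1]
      exact (isCompact_closedBall _ _).inter_right (isClosed_le continuous_const continuous_abs)
    have h2 : ∀ᶠ u in 𝓝 (0 : ℝ), ∀ v ∈ {v : ℝ | ε ≤ |v| ∧ |v| ≤ d₀ / 2}, pv p (u, v) ≠ 0 := by
      apply hK.eventually_forall_of_forall_eventually (P := fun u v => pv p (u, v) ≠ 0)
      intro v hv
      have h3 : pv p ((0 : ℝ), v) ≠ 0 := hz v (lt_of_lt_of_le hε hv.1) hv.2
      exact (pv_cont p).continuousAt.eventually_ne h3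
    obtain ⟨η, hη, hball⟩ := Metric.eventually_nhds_iff.1 h2
    refine ⟨η, hη, ?_⟩
    intro u v hu hv hp
    by_contra hcon
    rw [not_lt] at hcon
    have h4 : dist u 0 < η := by
      rw [Real.dist_eq, sub_zero]
      exact hu
    exact hball h4 v ⟨hcon, hv⟩ hp

end Pool.ACA
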