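import Pool.Agent.Lib.MP_aca35e_co.Defs
import Pool.Agent.Lib.MP_aca35e_co.C1
import Pool.Agent.Lib.MP_aca35e_co.C4
import Pool.Agent.Lib.MP_aca35e_co.C5
import Pool.Agent.Lib.MP_aca35e_co.C6

/-!
# MP_aca35e_co, row C7

Existence of the germs. Take `δ, u₁` from C6 (with `w₀ ∈ W`, `w₀ ≠ 0`). Apply C4 to `p` on `(0, u₁)` (gives `N₊`
functions) and to `p⁻ = p (-u, v)` (`MvPolynomial.bind₁ ![-X 0, X 1] p`) on `(0, u₁)` (gives `N₋` functions `g`, put
`φ u = g (-u)` for `u ∈ (-u₁, 0)`); index set `Fin (N₊ + N₋)` (`Fin.append` / `Fin.addCases`), `s = 1` resp. `-1`.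
`an`: C5 `analytic_branch`. `ne`: different order (different signs: the domains are disjoint). `lim`: last claim
of C6. `gen`: `φ u = c u` happens only at finitely many points of the curve (`fin_line` C1, line
`v - c u = 0`); `deriv φ u = c` implies `p_u + c p_v = 0` at `(u, φ u)` (`deriv_branch` C5), finitely many (C2
`crit_c`); a finite set of points with `u ≠ 0` stays away from `u = 0`. `rad`: `deriv φ u * u = φ u` and
`deriv_branch` give `u p_u + φ p_v = 0`, excluded by C6.
-/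

set_option autoImplicit false
set_option linter.unusedVariables false

namespace Pool.ACA

open Set Filter Topology

/-- the polynomial `p (s u, v)` -/
private noncomputable def flip (s : ℝ) (p : MvPolynomial (Fin 2) ℝ) : MvPolynomial (Fin 2) ℝ :=
  MvPolynomial.bind₁ ![MvPolynomial.C s * MvPolynomial.X 0, MvPolynomial.X 1] p

private theorem pv_flip (s : ℝ) (p : MvPolynomial (Fin 2) ℝ) (u v : ℝ) :
    pv (flip s p) (u, v) = pv p (s * u, v) := by
  unfold pv flip
  rw [← MvPolynomial.coe_aeval_eq_eval, ← MvPolynomial.coe_aeval_eq_eval]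
  simp only [RingHom.coe_coe]
  rw [MvPolynomial.aeval_bind₁]
  congr 1
  congr 1
  funext i
  fin_cases i <;> simp

private theorem pderiv_flip (s : ℝ) (p : MvPolynomial (Fin 2) ℝ) (u v : ℝ) :
    pv (MvPolynomial.pderiv 1 (flip s p)) (u, v) = pv (MvPolynomial.pderiv 1 p) (s * u, v) := by
  have h1 := hasDerivAt_pv (flip s p) (fun _ => u) (fun t => t) 0 1 v (hasDerivAt_const v u)
    (hasDerivAt_id v)
  have h2 := hasDerivAt_pv p (fun _ => s * u) (fun t => t) 0 1 v (hasDerivAt_const v (s * u))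
    (hasDerivAt_id v)
  have h3 : (fun t => pv (flip s p) ((fun _ => u) t, (fun t => t) t))
      = fun t => pv p ((fun _ => s * u) t, (fun t => t) t) := by
    funext t
    exact pv_flip s p u t
  rw [h3] at h1
  have h4 := h1.unique h2
  simpa using h4

private theorem finite_of_card_le {α : Type*} (S : Set α) (D : ℕ)
    (h : ∀ F : Finset α, (∀ w ∈ F, w ∈ S) → F.card ≤ D) : S.Finite := by
  by_contra hinf
  obtain ⟨F, hF, hcard⟩ := (show S.Infinite from hinf).exists_subset_card_eq (D + 1)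
  have := h F (fun w hw => hF (by exact_mod_cast hw))
  omega

private theorem avoid (S : Set (ℝ × ℝ)) (hS : S.Finite) (U : Set ℝ) (hU : ∀ u ∈ U, u ≠ 0)
    (φ : ℝ → ℝ) : ∀ᶠ u in 𝓝[U] 0, (u, φ u) ∉ S := by
  have hF : ((Prod.fst '' S) \ {0}).Finite := (hS.image _).subset sdiff_subset
  have h0 : ((Prod.fst '' S) \ {0})ᶜ ∈ 𝓝 (0 : ℝ) := hF.isClosed.isOpen_compl.mem_nhds (by simp)
  filter_upwards [mem_nhdsWithin_of_mem_nhds h0, self_mem_nhdsWithin] with u hu hu' hmem
  exact hu ⟨⟨_, hmem, rfl⟩, hU u hu'⟩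

private theorem dom_open (s u₁ : ℝ) : IsOpen (dom s u₁) := by
  have h : dom s u₁ = (fun u => s * u) ⁻¹' (Ioo 0 u₁) := rfl
  rw [h]
  exact isOpen_Ioo.preimage (by fun_prop)

private theorem half {D : ℕ} {p : MvPolynomial (Fin 2) ℝ} (hc : Curve D p) (hD : 2 ≤ D)
    (w₀ : ℝ × ℝ) (h₀ : pv p w₀ = 0) (δ : ℝ) (hδ : 0 < δ) (u₁ : ℝ) (hu₁ : 0 < u₁)
    (h1 : ∀ u, |u| < u₁ → pv p (u, δ) ≠ 0 ∧ pv p (u, -δ) ≠ 0)
    (h2 : ∀ u v, 0 < |u| → |u| < u₁ → |v| ≤ δ → pv p (u, v) = 0 →
        pv (MvPolynomial.pderiv 1 p) (u, v) ≠ 0 ∧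
        u * pv (MvPolynomial.pderiv 0 p) (u, v) + v * pv (MvPolynomial.pderiv 1 p) (u, v) ≠ 0)
    (h3 : ∀ u, {v : ℝ | |v| ≤ δ ∧ pv p (u, v) = 0}.Finite)
    (h4 : ∀ ε > 0, ∃ η > 0, ∀ u v, |u| < η → |v| ≤ δ → pv p (u, v) = 0 → |v| < ε)
    (s : ℝ) (hs : s = 1 ∨ s = -1) :
    ∃ (N : ℕ) (φ : Fin N → ℝ → ℝ),
      (∀ i, AnalyticOnNhd ℝ (φ i) (dom s u₁)) ∧
      (∀ i, ∀ u ∈ dom s u₁, pv p (u, φ i u) = 0) ∧
      (∀ i j, i ≠ j → ∀ u ∈ dom s u₁, φ i u ≠ φ j u) ∧
      (∀ w : ℝ × ℝ, pv p w = 0 → w.1 ∈ dom s u₁ → |w.2| < δ → ∃ i, w.2 = φ i w.1) ∧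
      (∀ i, Tendsto (φ i) (𝓝[dom s u₁] 0) (𝓝 0)) ∧
      (∀ i, ∀ c : ℝ, ∀ᶠ u in 𝓝[dom s u₁] 0, φ i u ≠ c * u ∧ deriv (φ i) u ≠ c) ∧
      (∀ i, ∀ u ∈ dom s u₁, deriv (φ i) u * u ≠ φ i u) := by
  have hss : s * s = 1 := by rcases hs with rfl | rfl <;> norm_num
  have habs : ∀ u, |s * u| = |u| := by
    intro u
    rcases hs with rfl | rfl <;> simp
  have hds : ∀ u ∈ dom s u₁, 0 < |u| ∧ |u| < u₁ := by
    intro u hu
    have h5 : |u| = s * u := by rw [← habs, abs_of_pos hu.1]
    rw [h5]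
    exact hu
  have hsu : ∀ u, s * (s * u) = u := by
    intro u
    rw [← mul_assoc, hss, one_mul]
  obtain ⟨N, g, g1, g2, g3, g4⟩ := branches (flip s p) δ u₁ hδ hu₁
    (by
      intro u hu
      rw [pv_flip, pv_flip]
      apply h1
      rw [habs, abs_of_pos hu.1]
      exact hu.2)
    (by
      intro u hu v hv hz
      rw [pderiv_flip]
      rw [pv_flip] at hz
      refine (h2 (s * u) v ?_ ?_ hv hz).1
      · rw [habs, abs_of_pos hu.1]
        exact hu.1
      · rw [habs, abs_of_pos hu.1]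
        exact hu.2)
    (by
      intro u hu
      have := h3 (s * u)
      simpa only [pv_flip] using this)
  have hz : ∀ i, ∀ u ∈ dom s u₁, |g i (s * u)| < δ ∧ pv p (u, g i (s * u)) = 0 := by
    intro i u hu
    obtain ⟨k1, k2⟩ := g2 i (s * u) hu
    rw [pv_flip, hsu] at k2
    exact ⟨k1, k2⟩
  have hcont : ∀ i, ContinuousOn (fun u => g i (s * u)) (dom s u₁) := by
    intro i
    exact (g1 i).comp (by fun_prop) (fun u hu => hu)
  have han : ∀ i, AnalyticOnNhd ℝ (fun u => g i (s * u)) (dom s u₁) := by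
    intro i
    refine analytic_branch p _ _ (dom_open s u₁) (hcont i) (fun u hu => (hz i u hu).2) ?_
    intro u hu
    exact (h2 u _ (hds u hu).1 (hds u hu).2 (hz i u hu).1.le (hz i u hu).2).1
  have hder : ∀ i, ∀ u ∈ dom s u₁, pv (MvPolynomial.pderiv 0 p) (u, g i (s * u))
      + deriv (fun u => g i (s * u)) u * pv (MvPolynomial.pderiv 1 p) (u, g i (s * u)) = 0 := by
    intro i u hu
    refine deriv_branch p (fun u => g i (s * u)) u ((han i u hu).differentiableAt) ?_
    filter_upwards [(dom_open s u₁).mem_nhds hu] with x hx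
    exact (hz i x hx).2
  have hne0 : ∀ u ∈ dom s u₁, u ≠ 0 := by
    intro u hu h
    have := (hds u hu).1
    rw [h] at this
    simp at this
  refine ⟨N, fun i u => g i (s * u), han, fun i u hu => (hz i u hu).2, ?_, ?_, ?_, ?_, ?_⟩
  · intro i j hij u hu
    rcases lt_or_gt_of_ne hij with h | h
    · exact (g3 i j h (s * u) hu).ne
    · exact (g3 j i h (s * u) hu).ne'
  · intro w hw hw1 hw2
    refine g4 (s * w.1) hw1 w.2 hw2.le ?_
    rw [pv_flip, hsu]
    exact hw
  · intro i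
    rw [Metric.tendsto_nhdsWithin_nhds]
    intro ε hε
    obtain ⟨η, hη, hη'⟩ := h4 ε hε
    refine ⟨η, hη, ?_⟩
    intro u hu hdist
    rw [Real.dist_eq, sub_zero] at hdist ⊢
    exact hη' u _ hdist (hz i u hu).1.le (hz i u hu).2
  · intro i c
    have hS1 : {w : ℝ × ℝ | pv p w = 0 ∧ c * w.1 + (-1) * w.2 = 0}.Finite := by
      apply finite_of_card_le _ D
      intro F hF
      exact fin_line hc hD c (-1) 0 (Or.inr (by norm_num)) F hF
    have hS2 := crit_c hc hD w₀ h₀ c
    filter_upwards [avoid _ hS1 (dom s u₁) hne0 (fun u => g i (s * u)),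
      avoid _ hS2 (dom s u₁) hne0 (fun u => g i (s * u)), self_mem_nhdsWithin] with u k1 k2 hu
    constructor
    · intro h
      apply k1
      refine ⟨(hz i u hu).2, ?_⟩
      rw [show g i (s * u) = c * u from h]
      ring
    · intro h
      apply k2
      refine ⟨(hz i u hu).2, ?_⟩
      have := hder i u hu
      rw [h] at this
      exact this
  · intro i u hu h
    refine (h2 u (g i (s * u)) (hds u hu).1 (hds u hu).2 (hz i u hu).1.le (hz i u hu).2).2 ?_
    have k := hder i u hu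
    have h' : deriv (fun u => g i (s * u)) u * u = g i (s * u) := h
    calc u * pv (MvPolynomial.pderiv 0 p) (u, g i (s * u))
          + g i (s * u) * pv (MvPolynomial.pderiv 1 p) (u, g i (s * u))
        = u * pv (MvPolynomial.pderiv 0 p) (u, g i (s * u))
          + (deriv (fun u => g i (s * u)) u * u) * pv (MvPolynomial.pderiv 1 p) (u, g i (s * u)) := by
          rw [h']
      _ = u * (pv (MvPolynomial.pderiv 0 p) (u, g i (s * u))
          + deriv (fun u => g i (s * u)) u * pv (MvPolynomial.pderiv 1 p) (u, g i (s * u))) := by ring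
      _ = 0 := by rw [k, mul_zero]

private theorem dom_disj (u₁ u : ℝ) (h1 : u ∈ dom 1 u₁) (h2 : u ∈ dom (-1) u₁) : False := by
  have a := h1.1
  have b := h2.1
  linarith

theorem germs_exist {D : ℕ} {p : MvPolynomial (Fin 2) ℝ} (hc : Curve D p) (hD : 2 ≤ D)
    (w₀ : ℝ × ℝ) (h₀ : pv p w₀ = 0) (h₀' : w₀ ≠ (0, 0)) :
    ∃ N : ℕ, Nonempty (Germs p N) := by
  obtain ⟨δ, hδ, u₁, hu₁, h1, h2, h3, h4⟩ := window hc hD w₀ h₀ h₀'
  obtain ⟨N, φ, a1, a2, a3, a4, a5, a6, a7⟩ :=
    half hc hD w₀ h₀ δ hδ u₁ hu₁ h1 h2 h3 h4 1 (Or.inl rfl)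
  obtain ⟨M, χ, b1, b2, b3, b4, b5, b6, b7⟩ :=
    half hc hD w₀ h₀ δ hδ u₁ hu₁ h1 h2 h3 h4 (-1) (Or.inr rfl)
  refine ⟨N + M, ⟨{
    u₁ := u₁
    δ := δ
    s := Fin.append (fun _ => 1) (fun _ => -1)
    φ := Fin.append φ χ
    hu₁ := hu₁
    hδ := hδ
    hs := ?_
    an := ?_
    zero := ?_
    ne := ?_
    cover := ?_
    lim := ?_
    gen := ?_
    rad := ?_ }⟩⟩
  · intro i
    refine Fin.addCases (fun i => ?_) (fun i => ?_) i
    · left; simp
    · right; simp
  · intro i
    refine Fin.addCases (fun i => ?_) (fun i => ?_) i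
    · simpa only [Fin.append_left] using a1 i
    · simpa only [Fin.append_right] using b1 i
  · intro i
    refine Fin.addCases (fun i => ?_) (fun i => ?_) i
    · simpa only [Fin.append_left] using a2 i
    · simpa only [Fin.append_right] using b2 i
  · intro i
    refine Fin.addCases (fun i => ?_) (fun i => ?_) i
    · intro j
      refine Fin.addCases (fun j => ?_) (fun j => ?_) j
      · simp only [Fin.append_left]
        intro hij u hu _
        exact a3 i j (fun h => hij (by rw [h])) u hu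
      · simp only [Fin.append_left, Fin.append_right]
        intro hij u hu hu'
        exact (dom_disj u₁ u hu hu').elim
    · intro j
      refine Fin.addCases (fun j => ?_) (fun j => ?_) j
      · simp only [Fin.append_left, Fin.append_right]
        intro hij u hu hu'
        exact (dom_disj u₁ u hu' hu).elim
      · simp only [Fin.append_right]
        intro hij u hu _
        exact b3 i j (fun h => hij (by rw [h])) u hu
  · intro w hw hw1 hw2 hw3
    rcases lt_or_gt_of_ne hw1 with h | h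
    · have hm : w.1 ∈ dom (-1) u₁ := by
        rw [abs_of_neg h] at hw2
        exact ⟨by linarith, by linarith⟩
      obtain ⟨i, hi⟩ := b4 w hw hm hw3
      refine ⟨Fin.natAdd N i, ?_, ?_⟩
      · simpa only [Fin.append_right] using hm
      · simpa only [Fin.append_right] using hi
    · have hm : w.1 ∈ dom 1 u₁ := by
        rw [abs_of_pos h] at hw2
        exact ⟨by linarith, by linarith⟩
      obtain ⟨i, hi⟩ := a4 w hw hm hw3
      refine ⟨Fin.castAdd M i, ?_, ?_⟩
      · simpa only [Fin.append_left] using hm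
      · simpa only [Fin.append_left] using hi
  · intro i
    refine Fin.addCases (fun i => ?_) (fun i => ?_) i
    · simpa only [Fin.append_left] using a5 i
    · simpa only [Fin.append_right] using b5 i
  · intro i
    refine Fin.addCases (fun i => ?_) (fun i => ?_) i
    · simpa only [Fin.append_left] using a6 i
    · simpa only [Fin.append_right] using b6 i
  · intro i
    refine Fin.addCases (fun i => ?_) (fun i => ?_) i
    · simpa only [Fin.append_left] using a7 i
    · simpa only [Fin.append_right] using b7 i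

end Pool.ACA
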