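import Pool.Agent.Lib.MP_aca35e_co.Defs

/-!
# MP_aca35e_co, row D1

Monotonicity of the slope. With `u = s t`, `s² = 1`, `t > 0`: `d/dt psi = (deriv φ u * u - φ u) s / u²` `= (deriv φ u - φ u / u) / t`,
nonzero by `G.rad` and continuous in `t`, so of constant sign on the interval.
`germ_dich`: by `G.gen` there is `η > 0` with `φ u ≠ c u` and `deriv φ u ≠ c` for `u ∈ dom s η`. On this interval (connected)
`φ u - c u` and `deriv φ u - c` (continuous) have constant signs. `φ u - c u → 0` as `u → 0` (`G.lim`); so for `s = 1`: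
`deriv φ > c` iff `φ u - c u > 0` iff `φ u / u > c`; for `s = -1`: `deriv φ > c` iff `φ u - c u` is increasing with limit
`0` at `0⁻` iff `φ u - c u < 0` iff `φ u / u > c`. (`𝓝[dom s u₁] 0` eventually = for all `u ∈ dom s η`, some `η > 0`.)
-/

set_option autoImplicit false
set_option linter.unusedVariables false

namespace Pool.ACA

open Set Filter Topology

private theorem abs_of_dom {s : ℝ} (hs : s = 1 ∨ s = -1) {u : ℝ} (hu : 0 < s * u) : |u| = s * u := by
  rcases hs with rfl | rfl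
  · rw [one_mul] at hu ⊢
    exact abs_of_pos hu
  · have : u < 0 := by linarith
    rw [abs_of_neg this]
    ring

theorem dom_eventually (s u₁ : ℝ) (hs : s = 1 ∨ s = -1) (hu : 0 < u₁) (P : ℝ → Prop) :
    (∀ᶠ u in 𝓝[dom s u₁] 0, P u) ↔ ∃ η, 0 < η ∧ η ≤ u₁ ∧ ∀ u ∈ dom s η, P u := by
  rw [eventually_nhdsWithin_iff, Metric.eventually_nhds_iff]
  constructor
  · rintro ⟨ε, hε, h⟩
    refine ⟨min ε u₁, lt_min hε hu, min_le_right _ _, ?_⟩
    rintro u ⟨h1, h2⟩
    refine h ?_ ⟨h1, lt_of_lt_of_le h2 (min_le_right _ _)⟩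
    rw [Real.dist_eq, sub_zero, abs_of_dom hs h1]
    exact lt_of_lt_of_le h2 (min_le_left _ _)
  · rintro ⟨η, hη, hηu, h⟩
    refine ⟨η, hη, ?_⟩
    rintro u hd ⟨h1, _⟩
    rw [Real.dist_eq, sub_zero, abs_of_dom hs h1] at hd
    exact h u ⟨h1, hd⟩

private theorem s_sq {s : ℝ} (hs : s = 1 ∨ s = -1) : s * s = 1 := by
  rcases hs with rfl | rfl <;> norm_num

private theorem s_ne {s : ℝ} (hs : s = 1 ∨ s = -1) : s ≠ 0 := by
  rcases hs with rfl | rfl <;> norm_num

private theorem mem_dom {s : ℝ} (hs : s = 1 ∨ s = -1) {η t : ℝ} (ht : t ∈ Ioo 0 η) :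
    s * t ∈ dom s η := by
  have h : s * (s * t) = t := by rw [← mul_assoc, s_sq hs, one_mul]
  refine ⟨?_, ?_⟩
  · rw [h]; exact ht.1
  · rw [h]; exact ht.2

private theorem of_dom {s : ℝ} (hs : s = 1 ∨ s = -1) {η u : ℝ} (hu : u ∈ dom s η) :
    s * u ∈ Ioo 0 η ∧ s * (s * u) = u := by
  refine ⟨⟨hu.1, hu.2⟩, ?_⟩
  rw [← mul_assoc, s_sq hs, one_mul]

private theorem dom_mono (s : ℝ) {η u₁ : ℝ} (h : η ≤ u₁) : dom s η ⊆ dom s u₁ :=
  fun _ hu => ⟨hu.1, lt_of_lt_of_le hu.2 h⟩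

theorem psi_cont {p : MvPolynomial (Fin 2) ℝ} {N : ℕ} (G : Germs p N) (i : Fin N) :
    ContinuousOn (psi G i) (Ioo 0 G.u₁) := by
  have hs := G.hs i
  have hc : ContinuousOn (fun t : ℝ => G.s i * t) (Ioo 0 G.u₁) := by fun_prop
  have h1 : ContinuousOn (fun t : ℝ => G.φ i (G.s i * t)) (Ioo 0 G.u₁) :=
    (G.an i).continuousOn.comp hc (fun t ht => mem_dom hs ht)
  exact h1.div hc (fun t ht => mul_ne_zero (s_ne hs) (ne_of_gt ht.1))

private theorem sign_const {f : ℝ → ℝ} {η : ℝ} (hf : ContinuousOn f (Ioo 0 η))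
    (h0 : ∀ t ∈ Ioo 0 η, f t ≠ 0) : (∀ t ∈ Ioo 0 η, 0 < f t) ∨ ∀ t ∈ Ioo 0 η, f t < 0 := by
  by_contra hcon
  rw [not_or] at hcon
  obtain ⟨h1, h2⟩ := hcon
  push Not at h1 h2
  obtain ⟨a, ha, ha'⟩ := h1
  obtain ⟨b, hb, hb'⟩ := h2
  obtain ⟨x, hx, hx'⟩ := (isPreconnected_Ioo.intermediate_value ha hb hf) ⟨ha', hb'⟩
  exact h0 x hx hx'

theorem psi_mono {p : MvPolynomial (Fin 2) ℝ} {N : ℕ} (G : Germs p N) (i : Fin N) :
    StrictMonoOn (psi G i) (Ioo 0 G.u₁) ∨ StrictAntiOn (psi G i) (Ioo 0 G.u₁) := by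
  have hs := G.hs i
  have hss := s_sq hs
  have hc : ContinuousOn (fun t : ℝ => G.s i * t) (Ioo 0 G.u₁) := by fun_prop
  have h1 : ContinuousOn (fun t : ℝ => G.φ i (G.s i * t)) (Ioo 0 G.u₁) :=
    (G.an i).continuousOn.comp hc (fun t ht => mem_dom hs ht)
  have h2 : ContinuousOn (fun t : ℝ => deriv (G.φ i) (G.s i * t)) (Ioo 0 G.u₁) :=
    (G.an i).deriv.continuousOn.comp hc (fun t ht => mem_dom hs ht)
  have hg : ContinuousOn (fun t : ℝ => G.s i * (deriv (G.φ i) (G.s i * t) * (G.s i * t)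
      - G.φ i (G.s i * t))) (Ioo 0 G.u₁) :=
    continuousOn_const.mul ((h2.mul hc).sub h1)
  have hne : ∀ t ∈ Ioo 0 G.u₁, G.s i * (deriv (G.φ i) (G.s i * t) * (G.s i * t)
      - G.φ i (G.s i * t)) ≠ 0 := by
    intro t ht
    exact mul_ne_zero (s_ne hs) (sub_ne_zero.mpr (G.rad i _ (mem_dom hs ht)))
  have hder : ∀ t ∈ Ioo 0 G.u₁, HasDerivAt (psi G i)
      (G.s i * (deriv (G.φ i) (G.s i * t) * (G.s i * t) - G.φ i (G.s i * t)) /
        (G.s i * t) ^ 2) t := by
    intro t ht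
    have hm := mem_dom hs ht
    have ha : HasDerivAt (G.φ i) (deriv (G.φ i) (G.s i * t)) (G.s i * t) :=
      ((G.an i) _ hm).differentiableAt.hasDerivAt
    have hb : HasDerivAt (fun t : ℝ => G.s i * t) (G.s i) t := by
      simpa using (hasDerivAt_id t).const_mul (G.s i)
    have hne' : G.s i * t ≠ 0 := mul_ne_zero (s_ne hs) (ne_of_gt ht.1)
    have hcomp : HasDerivAt (fun t : ℝ => G.φ i (G.s i * t))
        (deriv (G.φ i) (G.s i * t) * G.s i) t := ha.comp t hb
    have hd := hcomp.div hb hne'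
    refine hd.congr_deriv ?_
    ring
  have hint : interior (Ioo (0 : ℝ) G.u₁) = Ioo 0 G.u₁ := isOpen_Ioo.interior_eq
  rcases sign_const hg hne with hp | hn
  · left
    refine strictMonoOn_of_deriv_pos (convex_Ioo _ _) (psi_cont G i) ?_
    rw [hint]
    intro t ht
    rw [(hder t ht).deriv]
    have hne' : G.s i * t ≠ 0 := mul_ne_zero (s_ne hs) (ne_of_gt ht.1)
    exact div_pos (hp t ht) (by positivity)
  · right
    refine strictAntiOn_of_deriv_neg (convex_Ioo _ _) (psi_cont G i) ?_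
    rw [hint]
    intro t ht
    rw [(hder t ht).deriv]
    have hne' : G.s i * t ≠ 0 := mul_ne_zero (s_ne hs) (ne_of_gt ht.1)
    exact div_neg_of_neg_of_pos (hn t ht) (by positivity)

private theorem pos_of_strictMono {f : ℝ → ℝ} {η : ℝ} (hf : StrictMonoOn f (Ioo 0 η))
    (hl : Tendsto f (𝓝[>] 0) (𝓝 0)) : ∀ t ∈ Ioo 0 η, 0 < f t := by
  intro t ht
  have ht2 : t / 2 ∈ Ioo 0 η := ⟨by linarith [ht.1], by linarith [ht.1, ht.2]⟩
  have h1 : f (t / 2) < f t := hf ht2 ht (by linarith [ht.1])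
  have h2 : (0 : ℝ) ≤ f (t / 2) := by
    refine le_of_tendsto hl ?_
    have hmem : Ioo (0 : ℝ) (t / 2) ∈ 𝓝[>] (0 : ℝ) := Ioo_mem_nhdsGT (by linarith [ht.1])
    filter_upwards [hmem] with r hr
    exact (hf ⟨hr.1, lt_trans hr.2 ht2.2⟩ ht2 hr.2).le
  linarith

theorem germ_dich {p : MvPolynomial (Fin 2) ℝ} {N : ℕ} (G : Germs p N) (i : Fin N) (c : ℝ) :
    ∃ η, 0 < η ∧ η ≤ G.u₁ ∧ ((∀ u ∈ dom (G.s i) η, c < G.φ i u / u ∧ c < deriv (G.φ i) u) ∨
      ∀ u ∈ dom (G.s i) η, G.φ i u / u < c ∧ deriv (G.φ i) u < c) := by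
  have hs := G.hs i
  have hss := s_sq hs
  obtain ⟨η, hη, hηu, hgen⟩ := (dom_eventually (G.s i) G.u₁ hs G.hu₁ _).mp (G.gen i c)
  refine ⟨η, hη, hηu, ?_⟩
  have hmem : ∀ t ∈ Ioo 0 η, G.s i * t ∈ dom (G.s i) G.u₁ :=
    fun t ht => dom_mono _ hηu (mem_dom hs ht)
  have hc : ContinuousOn (fun t : ℝ => G.s i * t) (Ioo 0 η) := by fun_prop
  have h2 : ContinuousOn (fun t : ℝ => deriv (G.φ i) (G.s i * t) - c) (Ioo 0 η) :=
    ((G.an i).deriv.continuousOn.comp hc hmem).sub continuousOn_const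
  have hk : ∀ t ∈ Ioo 0 η, deriv (G.φ i) (G.s i * t) - c ≠ 0 :=
    fun t ht => sub_ne_zero.mpr (hgen _ (mem_dom hs ht)).2
  -- the function `s (φ (s t) - c s t)`
  obtain ⟨f, hf⟩ : ∃ f : ℝ → ℝ, f = fun t => G.s i * (G.φ i (G.s i * t) - c * (G.s i * t)) :=
    ⟨_, rfl⟩
  have hder : ∀ t ∈ Ioo 0 η, HasDerivAt f (deriv (G.φ i) (G.s i * t) - c) t := by
    intro t ht
    have ha : HasDerivAt (G.φ i) (deriv (G.φ i) (G.s i * t)) (G.s i * t) :=
      ((G.an i) _ (hmem t ht)).differentiableAt.hasDerivAt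
    have hb : HasDerivAt (fun t : ℝ => G.s i * t) (G.s i) t := by
      simpa using (hasDerivAt_id t).const_mul (G.s i)
    have hcomp : HasDerivAt (fun t : ℝ => G.φ i (G.s i * t))
        (deriv (G.φ i) (G.s i * t) * G.s i) t := ha.comp t hb
    have hd := (hcomp.sub (hb.const_mul c)).const_mul (G.s i)
    rw [hf]
    refine hd.congr_deriv ?_
    linear_combination (deriv (G.φ i) (G.s i * t) - c) * hss
  have hfc : ContinuousOn f (Ioo 0 η) :=
    fun t ht => (hder t ht).continuousAt.continuousWithinAt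
  have hlim : Tendsto f (𝓝[>] 0) (𝓝 0) := by
    have h1 : Tendsto (fun t : ℝ => G.s i * t) (𝓝[>] 0) (𝓝[dom (G.s i) G.u₁] 0) := by
      rw [tendsto_nhdsWithin_iff]
      constructor
      · have : Tendsto (fun t : ℝ => G.s i * t) (𝓝 0) (𝓝 (G.s i * 0)) :=
          (continuous_const.mul continuous_id).tendsto 0
        rw [mul_zero] at this
        exact this.mono_left nhdsWithin_le_nhds
      · filter_upwards [Ioo_mem_nhdsGT hη] with t ht
        exact hmem t ht
    have h3 := (G.lim i).comp h1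
    have h4 : Tendsto (fun t : ℝ => G.s i * t) (𝓝[>] 0) (𝓝 0) :=
      h1.mono_right nhdsWithin_le_nhds
    have h5 := (h3.sub (h4.const_mul c)).const_mul (G.s i)
    rw [hf]
    simpa using h5
  have hint : interior (Ioo (0 : ℝ) η) = Ioo 0 η := isOpen_Ioo.interior_eq
  rcases sign_const h2 hk with hp | hn
  · left
    have hmono : StrictMonoOn f (Ioo 0 η) := by
      refine strictMonoOn_of_deriv_pos (convex_Ioo _ _) hfc ?_
      rw [hint]
      intro t ht
      rw [(hder t ht).deriv]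
      exact hp t ht
    have hpos := pos_of_strictMono hmono hlim
    intro u hu
    obtain ⟨ht, hsu⟩ := of_dom hs hu
    have h6 := hpos _ ht
    have h7 := hp _ ht
    rw [hf] at h6
    simp only [hsu] at h6 h7
    have hu0 : u ≠ 0 := by
      rintro rfl
      simp at ht
    refine ⟨?_, by linarith⟩
    have h8 : G.φ i u / u - c = (G.s i * (G.φ i u - c * u)) / (G.s i * u) := by
      field_simp [s_ne hs]
    have h9 : 0 < G.φ i u / u - c := by
      rw [h8]
      exact div_pos h6 ht.1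
    linarith
  · right
    have hmono : StrictMonoOn (fun t => - f t) (Ioo 0 η) := by
      refine strictMonoOn_of_deriv_pos (convex_Ioo _ _) hfc.neg ?_
      rw [hint]
      intro t ht
      have h3 : deriv (fun t => - f t) t = - (deriv (G.φ i) (G.s i * t) - c) :=
        (hder t ht).neg.deriv
      rw [h3]
      linarith [hn t ht]
    have hlim' : Tendsto (fun t => - f t) (𝓝[>] 0) (𝓝 0) := by simpa using hlim.neg
    have hpos := pos_of_strictMono hmono hlim'
    intro u hu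
    obtain ⟨ht, hsu⟩ := of_dom hs hu
    have h6 := hpos _ ht
    have h7 := hn _ ht
    rw [hf] at h6
    simp only [hsu] at h6 h7
    have hu0 : u ≠ 0 := by
      rintro rfl
      simp at ht
    refine ⟨?_, by linarith⟩
    have h8 : G.φ i u / u - c = (G.s i * (G.φ i u - c * u)) / (G.s i * u) := by
      field_simp [s_ne hs]
    have h9 : G.φ i u / u - c < 0 := by
      rw [h8]
      exact div_neg_of_neg_of_pos (by linarith) ht.1
    linarith

end Pool.ACA
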