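import Pool.Agent.Lib.MP_aca35e_co.Defs
import Pool.Agent.Lib.MP_aca35e_co.D1

/-!
# MP_aca35e_co, row D2

Choice of `c'`. Let `H i` hold iff `psi G i > m` near `0` and for all `c₀ > m`, `psi G i < c₀` near `0`.
For `H i`: if `psi` were strictly decreasing, take `t₀` with `psi t₀ > m` and `c₀ = psi t₀`: contradiction; so strictly
increasing (D1) and `> m` everywhere. For `¬ H i`: by `germ_dich` (at `m`, then at some `c₀ > m`): `psi < m` near `0`, or
`psi > c₀` near `0` for some `c₀ > m`. Let `u₂ < u₁` be smaller than all these ranges. The set `E` of `w ∈ W` with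
`¬ (|w.1| < u₂ ∧ |w.2| < δ)` is finite (`Setup.fin`). Choose `c' > m`: smaller than all `c₀`, than `psi G i u₂` for `H i`,
than all slopes `> m` of elements of `E`, and not in the countable set of slopes of `W` (W is countable by `Setup.fin`
and `ne`). Third claim: `w ∉ E`, so by `G.cover` `w = (u, φ i u)`, `0 < s u < u₂`, and `¬ H i` is impossible.
-/

set_option autoImplicit false
set_option linter.unusedVariables false

namespace Pool.ACA

open Set Filter Topology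

private theorem D2_ss {p : MvPolynomial (Fin 2) ℝ} {N : ℕ} (G : Germs p N) (i : Fin N) :
    G.s i * G.s i = 1 := by
  rcases G.hs i with h | h <;> rw [h] <;> norm_num

private theorem D2_dom {p : MvPolynomial (Fin 2) ℝ} {N : ℕ} (G : Germs p N) (i : Fin N)
    {t η : ℝ} (ht : t ∈ Ioo 0 η) : G.s i * t ∈ dom (G.s i) η := by
  have h := D2_ss G i
  have e : G.s i * (G.s i * t) = t := by rw [← mul_assoc, h, one_mul]
  exact ⟨by rw [e]; exact ht.1, by rw [e]; exact ht.2⟩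

private theorem D2_psi {p : MvPolynomial (Fin 2) ℝ} {N : ℕ} (G : Germs p N) (i : Fin N) (u : ℝ) :
    psi G i (G.s i * u) = G.φ i u / u := by
  have h := D2_ss G i
  have e : G.s i * (G.s i * u) = u := by rw [← mul_assoc, h, one_mul]
  unfold psi
  rw [e]

private theorem D2_countable {D : ℕ} {p : MvPolynomial (Fin 2) ℝ} {W : Set (ℝ × ℝ)}
    (h : Setup D p W) : W.Countable := by
  have hc : (⋃ n : ℕ, {w ∈ W | 1 / ((n : ℝ) + 1) ≤ |w.1| ∨ 1 / ((n : ℝ) + 1) ≤ |w.2|}).Countable :=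
    Set.countable_iUnion fun n => (h.fin _ (by positivity)).countable
  refine hc.mono fun w hw => ?_
  rw [Set.mem_iUnion]
  by_cases h1 : w.1 = 0
  · have h2 : w.2 ≠ 0 := fun h2 => h.ne (by
      have : w = (0, 0) := Prod.ext h1 h2
      rwa [this] at hw)
    obtain ⟨n, hn⟩ := exists_nat_one_div_lt (abs_pos.2 h2)
    exact ⟨n, hw, Or.inr hn.le⟩
  · obtain ⟨n, hn⟩ := exists_nat_one_div_lt (abs_pos.2 h1)
    exact ⟨n, hw, Or.inl hn.le⟩

/-- the half-branches whose slope tends to `m` from above -/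
private def D2_H {p : MvPolynomial (Fin 2) ℝ} {N : ℕ} (G : Germs p N) (m : ℝ) (i : Fin N) : Prop :=
  (∃ η > 0, ∀ t ∈ Ioo 0 η, m < psi G i t) ∧
    ∀ ε > 0, ∃ η > 0, ∀ t ∈ Ioo 0 η, psi G i t < m + ε

private theorem D2_mono {p : MvPolynomial (Fin 2) ℝ} {N : ℕ} (G : Germs p N) (m : ℝ) (i : Fin N)
    (hi : D2_H G m i) : StrictMonoOn (psi G i) (Ioo 0 G.u₁) ∧
      ∀ t ∈ Ioo 0 G.u₁, m < psi G i t := by
  obtain ⟨⟨η, hη, h1⟩, h2⟩ := hi
  have hu := G.hu₁
  have hmono : StrictMonoOn (psi G i) (Ioo 0 G.u₁) := by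
    rcases psi_mono G i with h | h
    · exact h
    · exfalso
      have hm : 0 < min η G.u₁ := lt_min hη hu
      have ht1 : min η G.u₁ / 2 ∈ Ioo 0 η :=
        ⟨by linarith, by have := min_le_left η G.u₁; linarith⟩
      have ht2 : min η G.u₁ / 2 ∈ Ioo 0 G.u₁ :=
        ⟨by linarith, by have := min_le_right η G.u₁; linarith⟩
      obtain ⟨η', hη', h3⟩ := h2 (psi G i (min η G.u₁ / 2) - m) (sub_pos.2 (h1 _ ht1))
      have hm2 : 0 < min η' (min η G.u₁ / 2) := lt_min hη' (by linarith)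
      have hs1 : min η' (min η G.u₁ / 2) / 2 ∈ Ioo 0 η' :=
        ⟨by linarith, by have := min_le_left η' (min η G.u₁ / 2); linarith⟩
      have hs3 : min η' (min η G.u₁ / 2) / 2 < min η G.u₁ / 2 := by
        have := min_le_right η' (min η G.u₁ / 2)
        linarith
      have hs2 : min η' (min η G.u₁ / 2) / 2 ∈ Ioo 0 G.u₁ :=
        ⟨by linarith, by linarith [ht2.2]⟩
      have h4 := h hs2 ht2 hs3
      have h5 := h3 _ hs1
      linarith
  refine ⟨hmono, fun t ht => ?_⟩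
  have hm : 0 < min η t := lt_min hη ht.1
  have ht1 : min η t / 2 ∈ Ioo 0 η := ⟨by linarith, by have := min_le_left η t; linarith⟩
  have hlt : min η t / 2 < t := by have := min_le_right η t; linarith
  have ht2 : min η t / 2 ∈ Ioo 0 G.u₁ := ⟨by linarith, by linarith [ht.2]⟩
  exact (h1 _ ht1).trans (hmono ht2 ht hlt)

private theorem D2_not {p : MvPolynomial (Fin 2) ℝ} {N : ℕ} (G : Germs p N) (m : ℝ) (i : Fin N) :
    ∃ η c : ℝ, 0 < η ∧ m < c ∧ (¬ D2_H G m i → ∀ t ∈ Ioo 0 η, psi G i t < m ∨ c < psi G i t) := by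
  by_cases hi : D2_H G m i
  · exact ⟨1, m + 1, one_pos, by linarith, fun h => absurd hi h⟩
  obtain ⟨η, hη, -, h1 | h1⟩ := germ_dich G i m
  · have h1' : ∀ t ∈ Ioo 0 η, m < psi G i t := fun t ht => (h1 _ (D2_dom G i ht)).1
    have h2 : ¬ ∀ ε > 0, ∃ η > 0, ∀ t ∈ Ioo 0 η, psi G i t < m + ε :=
      fun h2 => hi ⟨⟨η, hη, h1'⟩, h2⟩
    push Not at h2
    obtain ⟨ε, hε, h2⟩ := h2
    obtain ⟨η₂, hη₂, -, h3 | h3⟩ := germ_dich G i (m + ε / 2)
    · exact ⟨η₂, m + ε / 2, hη₂, by linarith, fun _ t ht => Or.inr (h3 _ (D2_dom G i ht)).1⟩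
    · exfalso
      obtain ⟨t, ht, h4⟩ := h2 η₂ hη₂
      have h5 : psi G i t < m + ε / 2 := (h3 _ (D2_dom G i ht)).1
      linarith
  · exact ⟨η, m + 1, hη, by linarith, fun _ t ht => Or.inl (h1 _ (D2_dom G i ht)).1⟩

theorem choose_c' {D : ℕ} {p : MvPolynomial (Fin 2) ℝ} {W : Set (ℝ × ℝ)} (h : Setup D p W)
    {N : ℕ} (G : Germs p N) (m : ℝ) :
    ∃ (u₂ c' : ℝ) (H : Fin N → Prop), 0 < u₂ ∧ u₂ < G.u₁ ∧ m < c' ∧
      (∀ i, H i → StrictMonoOn (psi G i) (Ioo 0 G.u₁) ∧ (∀ t ∈ Ioo 0 G.u₁, m < psi G i t) ∧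
        (∀ ε > 0, ∃ η > 0, ∀ t ∈ Ioo 0 η, psi G i t < m + ε) ∧ c' < psi G i u₂) ∧
      (∀ i, ¬ H i → ∀ t ∈ Ioo 0 u₂, psi G i t < m ∨ c' < psi G i t) ∧
      (∀ w ∈ W, w.1 ≠ 0 → m < w.2 / w.1 → w.2 / w.1 ≤ c' →
        ∃ i, H i ∧ 0 < G.s i * w.1 ∧ G.s i * w.1 < u₂ ∧ w.2 = G.φ i w.1) ∧
      ∀ w ∈ W, w.1 ≠ 0 → w.2 / w.1 ≠ c' := by
  choose η c hη hc hnot using D2_not G m
  -- choice of `u₂`
  have hev : ∀ᶠ u in 𝓝[>] (0 : ℝ), (0 < u ∧ u < G.u₁) ∧ ∀ i, 0 < u ∧ u < η i := by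
    refine Filter.Eventually.and (Ioo_mem_nhdsGT G.hu₁) ?_
    rw [Filter.eventually_all]
    intro i
    exact Ioo_mem_nhdsGT (hη i)
  obtain ⟨u₂, ⟨hu₂, hu₂'⟩, hu₂η⟩ := hev.exists
  have hE : {w ∈ W | min u₂ G.δ ≤ |w.1| ∨ min u₂ G.δ ≤ |w.2|}.Finite :=
    h.fin _ (lt_min hu₂ G.hδ)
  -- choice of `c'`
  have hev2 : ∀ᶠ x in 𝓝[>] m, (∀ i, m < x ∧ x < c i) ∧
      (∀ i, D2_H G m i → x < psi G i u₂) ∧
      ∀ w ∈ {w ∈ W | min u₂ G.δ ≤ |w.1| ∨ min u₂ G.δ ≤ |w.2|}, m < w.2 / w.1 → x < w.2 / w.1 := by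
    refine Filter.Eventually.and ?_ (Filter.Eventually.and ?_ ?_)
    · rw [Filter.eventually_all]
      intro i
      exact Ioo_mem_nhdsGT (hc i)
    · rw [Filter.eventually_all]
      intro i
      by_cases hi : D2_H G m i
      · have h1 := (D2_mono G m i hi).2 u₂ ⟨hu₂, hu₂'⟩
        filter_upwards [Ioo_mem_nhdsGT h1] with x hx _ using hx.2
      · exact Filter.Eventually.of_forall fun x hx => absurd hx hi
    · rw [hE.eventually_all]
      intro w _
      by_cases hw : m < w.2 / w.1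
      · filter_upwards [Ioo_mem_nhdsGT hw] with x hx _ using hx.2
      · exact Filter.Eventually.of_forall fun x hx => absurd hx hw
  obtain ⟨b, hmb, hb⟩ := (mem_nhdsGT_iff_exists_Ioo_subset.1 hev2)
  have hcount : ((fun w : ℝ × ℝ => w.2 / w.1) '' W).Countable := (D2_countable h).image _
  obtain ⟨c', hc'1, hc'2⟩ := (hcount.dense_compl ℝ).exists_between (show m < b from hmb)
  have hgood := hb hc'2
  obtain ⟨hg1, hg2, hg3⟩ := hgood
  refine ⟨u₂, c', D2_H G m, hu₂, hu₂', hc'2.1, fun i hi => ?_, fun i hi t ht => ?_,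
    fun w hw hw1 hm1 hm2 => ?_, fun w hw hw1 he => hc'1 ⟨w, hw, he⟩⟩
  · obtain ⟨h1, h2⟩ := D2_mono G m i hi
    exact ⟨h1, h2, hi.2, hg2 i hi⟩
  · rcases hnot i hi t ⟨ht.1, ht.2.trans (hu₂η i).2⟩ with h1 | h1
    · exact Or.inl h1
    · exact Or.inr ((hg1 i).2.trans h1)
  · have hnE : w ∉ {w ∈ W | min u₂ G.δ ≤ |w.1| ∨ min u₂ G.δ ≤ |w.2|} := fun hE' => by
      have := hg3 w hE' hm1
      linarith
    have h1 : |w.1| < u₂ := by
      by_contra hcon
      push Not at hcon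
      exact hnE ⟨hw, Or.inl ((min_le_left _ _).trans hcon)⟩
    have h2 : |w.2| < G.δ := by
      by_contra hcon
      push Not at hcon
      exact hnE ⟨hw, Or.inr ((min_le_right _ _).trans hcon)⟩
    obtain ⟨i, hi1, hi2⟩ := G.cover w (h.zero w hw) hw1 (h1.trans hu₂') h2
    have hsu : G.s i * w.1 < u₂ := by
      refine lt_of_le_of_lt ?_ h1
      rcases G.hs i with hs | hs
      · rw [hs, one_mul]
        exact le_abs_self _
      · rw [hs, neg_one_mul]
        exact neg_le_abs _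
    have hpsi : psi G i (G.s i * w.1) = w.2 / w.1 := by rw [D2_psi, hi2]
    have hH : D2_H G m i := by
      by_contra hi
      rcases hnot i hi _ ⟨hi1.1, hsu.trans (hu₂η i).2⟩ with h3 | h3
      · rw [hpsi] at h3
        linarith
      · rw [hpsi] at h3
        have := (hg1 i).2
        linarith
    exact ⟨i, hH, hi1.1, hsu, hi2⟩

end Pool.ACA
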