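import Pool.Agent.Lib.MP_aca35e_co.Defs
import Pool.Agent.Lib.MP_aca35e_co.D1
import Pool.Agent.Lib.MP_aca35e_co.D2

/-!
# MP_aca35e_co, row D3

Choice of `c` and of the sector. Take `u₂, c', H` from D2. By `N2` (with `ε = c' - m`) infinitely many `w ∈ W` have slope in
`(m, c')` (for `w.1 < 0`: slope `> m` iff `w.2 < m * w.1`); take `m₀` of them; let `c ∈ (m, min slope)` avoid the countable set
of slopes of `W`. `a i, b i`: IVT for `psi G i` (continuous on `(0, u₁)`, `< c` near `0`, `> c'` at `u₂`). `fixed`: `ev w x = 0`,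
`x ∈ [c, c']`: `w.1 ≠ 0` (else `w = (0,0)`), slope `= x ∈ (m, c']`, so D2 gives `i`, `H i`, `psi G i (s w.1) = x ≠ c, c'`, and
`a i < s w.1 < b i` by monotonicity. `far`, `u₃`: `germ_dich` (D1) at `c` and at `c'`: for `H i` near `0` `psi < c`, so the second
alternative at `c`; for `¬ H i`: first alternative at `c'`, or `psi < c'` hence (D2) `psi < m < c`, second alternative at `c`.
`pos`: `N2` with `ε = c - m`: for `w.1 < 0`, `c * w.1 < w.2`, `x ≥ c`: `ev w x = w.2 - w.1 x ≥ w.2 - c w.1 > 0`.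
-/

set_option autoImplicit false
set_option linter.unusedVariables false

namespace Pool.ACA

open Set Filter Topology

private theorem d3_countable {D : ℕ} {p : MvPolynomial (Fin 2) ℝ} {W : Set (ℝ × ℝ)}
    (h : Setup D p W) : W.Countable := by
  have h1 : W ⊆ ⋃ n : ℕ, {w ∈ W | (1 : ℝ) / (n + 1) ≤ |w.1| ∨ (1 : ℝ) / (n + 1) ≤ |w.2|} := by
    intro w hw
    rw [mem_iUnion]
    have h2 : w.1 ≠ 0 ∨ w.2 ≠ 0 := by
      by_contra hc
      push Not at hc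
      refine h.ne ?_
      have : w = (0, 0) := Prod.ext hc.1 hc.2
      rwa [this] at hw
    rcases h2 with h2 | h2
    · obtain ⟨n, hn⟩ := exists_nat_one_div_lt (abs_pos.2 h2)
      exact ⟨n, hw, Or.inl hn.le⟩
    · obtain ⟨n, hn⟩ := exists_nat_one_div_lt (abs_pos.2 h2)
      exact ⟨n, hw, Or.inr hn.le⟩
  refine Set.Countable.mono h1 (countable_iUnion fun n => ?_)
  exact (h.fin _ Nat.one_div_pos_of_nat).countable

private theorem d3_min {N : ℕ} (η : Fin N → ℝ) (hη : ∀ i, 0 < η i) (u₁ : ℝ) (hu : 0 < u₁) :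
    ∃ u₃, 0 < u₃ ∧ u₃ ≤ u₁ ∧ ∀ i, u₃ ≤ η i := by
  have hne : (insert u₁ (Finset.univ.image η)).Nonempty := Finset.insert_nonempty _ _
  refine ⟨(insert u₁ (Finset.univ.image η)).min' hne, ?_, ?_, fun i => ?_⟩
  · rw [Finset.lt_min'_iff]
    intro y hy
    rw [Finset.mem_insert, Finset.mem_image] at hy
    rcases hy with rfl | ⟨i, _, rfl⟩
    · exact hu
    · exact hη i
  · exact Finset.min'_le _ _ (Finset.mem_insert_self _ _)
  · exact Finset.min'_le _ _ (Finset.mem_insert_of_mem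
      (Finset.mem_image_of_mem _ (Finset.mem_univ i)))

private theorem d3_slope (S : Finset (ℝ × ℝ)) (m c' : ℝ) (hm : m < c')
    (hS : ∀ w ∈ S, m < w.2 / w.1) : ∃ c₁, m < c₁ ∧ c₁ ≤ c' ∧ ∀ w ∈ S, c₁ ≤ w.2 / w.1 := by
  have hne : (insert c' (S.image fun w => w.2 / w.1)).Nonempty := Finset.insert_nonempty _ _
  refine ⟨(insert c' (S.image fun w => w.2 / w.1)).min' hne, ?_, ?_, fun w hw => ?_⟩
  · rw [Finset.lt_min'_iff]
    intro y hy
    rw [Finset.mem_insert, Finset.mem_image] at hy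
    rcases hy with rfl | ⟨w, hw, rfl⟩
    · exact hm
    · exact hS w hw
  · exact Finset.min'_le _ _ (Finset.mem_insert_self _ _)
  · exact Finset.min'_le _ _ (Finset.mem_insert_of_mem (Finset.mem_image_of_mem _ hw))

private theorem d3_ab {p : MvPolynomial (Fin 2) ℝ} {N : ℕ} (G : Germs p N) (i : Fin N)
    {m c c' u₂ : ℝ} (hmc : m < c) (hcc : c < c') (hu₂ : 0 < u₂) (hu₂' : u₂ < G.u₁)
    (hmono : StrictMonoOn (psi G i) (Ioo 0 G.u₁))
    (hlim : ∀ ε > 0, ∃ η > 0, ∀ t ∈ Ioo 0 η, psi G i t < m + ε) (hc' : c' < psi G i u₂) :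
    ∃ ab : ℝ × ℝ, 0 < ab.1 ∧ ab.1 < ab.2 ∧ ab.2 < G.u₁ ∧ psi G i ab.1 = c ∧
      psi G i ab.2 = c' := by
  obtain ⟨η, hη, hη'⟩ := hlim (c - m) (by linarith)
  obtain ⟨t₀, h0, h0'⟩ := exists_between (lt_min hη hu₂)
  have ht1 : t₀ < η := h0'.trans_le (min_le_left _ _)
  have ht2 : t₀ < u₂ := h0'.trans_le (min_le_right _ _)
  have hpsi : psi G i t₀ < c := by
    have := hη' t₀ ⟨h0, ht1⟩
    linarith
  have hcont : ContinuousOn (psi G i) (Icc t₀ u₂) :=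
    (psi_cont G i).mono fun x hx => ⟨h0.trans_le hx.1, hx.2.trans_lt hu₂'⟩
  obtain ⟨a, ha, ha'⟩ := intermediate_value_Icc ht2.le hcont
    (show c ∈ Icc (psi G i t₀) (psi G i u₂) from ⟨hpsi.le, by linarith⟩)
  obtain ⟨b, hb, hb'⟩ := intermediate_value_Icc ht2.le hcont
    (show c' ∈ Icc (psi G i t₀) (psi G i u₂) from ⟨by linarith, hc'.le⟩)
  have hA : a ∈ Ioo 0 G.u₁ := ⟨h0.trans_le ha.1, ha.2.trans_lt hu₂'⟩
  have hB : b ∈ Ioo 0 G.u₁ := ⟨h0.trans_le hb.1, hb.2.trans_lt hu₂'⟩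
  refine ⟨(a, b), hA.1, ?_, hB.2, ha', hb'⟩
  exact (hmono.lt_iff_lt hA hB).1 (by rw [ha', hb']; exact hcc)

private theorem d3_psi {p : MvPolynomial (Fin 2) ℝ} {N : ℕ} (G : Germs p N) (i : Fin N) (u : ℝ) :
    psi G i (G.s i * u) = G.φ i u / u := by
  have h1 : G.s i * (G.s i * u) = u := by
    rcases G.hs i with h | h <;> rw [h] <;> ring
  unfold psi
  rw [h1]

private theorem d3_mem {p : MvPolynomial (Fin 2) ℝ} {N : ℕ} (G : Germs p N) (i : Fin N)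
    {t η : ℝ} (ht : 0 < t) (ht' : t < η) : G.s i * t ∈ dom (G.s i) η := by
  have h1 : G.s i * (G.s i * t) = t := by
    rcases G.hs i with h | h <;> rw [h] <;> ring
  exact ⟨by rw [h1]; exact ht, by rw [h1]; exact ht'⟩

private theorem d3_below {p : MvPolynomial (Fin 2) ℝ} {N : ℕ} (G : Germs p N) (i : Fin N)
    {c η₀ : ℝ} (hη₀ : 0 < η₀) (hpsi : ∀ t ∈ Ioo 0 η₀, psi G i t < c) :
    ∃ η, 0 < η ∧ ∀ u ∈ dom (G.s i) η, G.φ i u / u < c ∧ deriv (G.φ i) u < c := by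
  obtain ⟨η, hη, hη', h | h⟩ := germ_dich G i c
  · exfalso
    obtain ⟨t, ht, ht'⟩ := exists_between (lt_min hη hη₀)
    have h1 := (h _ (d3_mem G i ht (ht'.trans_le (min_le_left _ _)))).1
    have h2 := hpsi t ⟨ht, ht'.trans_le (min_le_right _ _)⟩
    unfold psi at h2
    linarith
  · exact ⟨η, hη, h⟩

theorem sector_exists {D : ℕ} {p : MvPolynomial (Fin 2) ℝ} {W : Set (ℝ × ℝ)} (h : Setup D p W)
    {m : ℝ} (hN : N2 W m) {N : ℕ} (G : Germs p N) (m₀ : ℕ) : Nonempty (Sector W G m₀) := by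
  classical
  obtain ⟨u₂, c', H, hu₂, hu₂', hmc', h1, h2, h3, h4⟩ := choose_c' h G m
  obtain ⟨S, hS, hcard⟩ := (hN (c' - m) (by linarith)).exists_subset_card_eq m₀
  have hSslope : ∀ w ∈ S, w ∈ W ∧ w.1 ≠ 0 ∧ m < w.2 / w.1 ∧ w.2 / w.1 < c' := by
    intro w hw
    obtain ⟨hwW, hw1, hw2, hw3⟩ := hS hw
    refine ⟨hwW, hw1.ne, ?_, ?_⟩
    · rw [lt_div_iff_of_neg hw1]
      exact hw2
    · rw [div_lt_iff_of_neg hw1]
      have : m + (c' - m) = c' := by ring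
      rwa [this] at hw3
  obtain ⟨c₁, hc₁, hc₁', hc₁''⟩ := d3_slope S m c' hmc' fun w hw => (hSslope w hw).2.2.1
  have hcount : (((fun w : ℝ × ℝ => w.2 / w.1) '' W)).Countable := (d3_countable h).image _
  obtain ⟨c, hc, hmc, hcc₁⟩ := (hcount.dense_compl ℝ).exists_between hc₁
  have hcc' : c < c' := hcc₁.trans_le hc₁'
  have hslope : ∀ w ∈ W, w.2 / w.1 ≠ c := fun w hw he => hc ⟨w, hw, he⟩
  -- `a`, `b`
  have hab : ∀ i, ∃ ab : ℝ × ℝ, H i → 0 < ab.1 ∧ ab.1 < ab.2 ∧ ab.2 < G.u₁ ∧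
      psi G i ab.1 = c ∧ psi G i ab.2 = c' := by
    intro i
    by_cases hi : H i
    · obtain ⟨hm, -, hl, hc''⟩ := h1 i hi
      obtain ⟨ab, hab⟩ := d3_ab G i hmc hcc' hu₂ hu₂' hm hl hc''
      exact ⟨ab, fun _ => hab⟩
    · exact ⟨(0, 0), fun hi' => absurd hi' hi⟩
  choose ab hab using hab
  -- `u₃`
  have hfar : ∀ i, ∃ η, 0 < η ∧
      ((∀ u ∈ dom (G.s i) η, c' < G.φ i u / u ∧ c' < deriv (G.φ i) u) ∨
      (∀ u ∈ dom (G.s i) η, G.φ i u / u < c ∧ deriv (G.φ i) u < c)) := by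
    intro i
    by_cases hi : H i
    · obtain ⟨-, -, hl, -⟩ := h1 i hi
      obtain ⟨η₀, hη₀, hη₀'⟩ := hl (c - m) (by linarith)
      obtain ⟨η, hη, hη'⟩ := d3_below G i (c := c) hη₀ fun t ht => by
        have := hη₀' t ht
        linarith
      exact ⟨η, hη, Or.inr hη'⟩
    · obtain ⟨η, hη, hη', hd | hd⟩ := germ_dich G i c'
      · exact ⟨η, hη, Or.inl hd⟩
      · obtain ⟨η₁, hη₁, hη₁'⟩ := d3_below G i (c := c) (lt_min hη hu₂) fun t ht => by
          have ht1 : t < η := ht.2.trans_le (min_le_left _ _)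
          have ht2 : t < u₂ := ht.2.trans_le (min_le_right _ _)
          rcases h2 i hi t ⟨ht.1, ht2⟩ with h5 | h5
          · exact h5.trans hmc
          · exfalso
            have h6 := (hd _ (d3_mem G i ht.1 ht1)).1
            unfold psi at h5
            linarith
        exact ⟨η₁, hη₁, Or.inr hη₁'⟩
  choose η hη hη' using hfar
  obtain ⟨u₃, hu₃, hu₃', hu₃''⟩ := d3_min η hη G.u₁ G.hu₁
  refine ⟨Sector.mk c c' hcc' H (fun i => (ab i).1) (fun i => (ab i).2)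
    (fun i hi => ⟨(hab i hi).1, (hab i hi).2.1, (hab i hi).2.2.1⟩)
    (fun i hi => (hab i hi).2.2.2.1) (fun i hi => (hab i hi).2.2.2.2)
    (fun i hi => (h1 i hi).1) ?_ ?_ u₃ hu₃ hu₃' ?_ ?_⟩
  · rintro w hw ⟨x, hx, hx0⟩
    have hw1 : w.1 ≠ 0 := by
      intro h0
      refine h.ne ?_
      have hw2 : w.2 = 0 := by
        unfold ev at hx0
        rw [h0] at hx0
        linarith
      have : w = (0, 0) := Prod.ext h0 hw2
      rwa [this] at hw
    have hsl : w.2 / w.1 = x := by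
      rw [div_eq_iff hw1]
      unfold ev at hx0
      linarith
    obtain ⟨i, hi, hi1, hi2, hi3⟩ := h3 w hw hw1 (by rw [hsl]; exact hmc.trans_le hx.1)
      (by rw [hsl]; exact hx.2)
    have hps : psi G i (G.s i * w.1) = x := by
      rw [d3_psi, ← hi3, hsl]
    have hxc : c < x := lt_of_le_of_ne hx.1 fun he => hslope w hw (by rw [hsl, ← he])
    have hxc' : x < c' := lt_of_le_of_ne hx.2 fun he => h4 w hw hw1 (by rw [hsl, he])
    obtain ⟨ha1, ha2, ha3, ha4, ha5⟩ := hab i hi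
    have hmem : G.s i * w.1 ∈ Ioo 0 G.u₁ := ⟨hi1, hi2.trans hu₂'⟩
    refine ⟨i, hi, ?_, ?_, hi3⟩
    · refine ((h1 i hi).1.lt_iff_lt ⟨ha1, ha2.trans ha3⟩ hmem).1 ?_
      rw [ha4, hps]
      exact hxc
    · refine ((h1 i hi).1.lt_iff_lt hmem ⟨ha1.trans ha2, ha3⟩).1 ?_
      rw [ha5, hps]
      exact hxc'
  · refine ⟨S, hcard.ge, fun w hw => ?_⟩
    obtain ⟨hwW, hw1, hw2, hw3⟩ := hSslope w hw
    exact ⟨hwW, hw1, hcc₁.trans_le (hc₁'' w hw), hw3⟩
  · intro i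
    have hsub : ∀ u ∈ dom (G.s i) u₃, u ∈ dom (G.s i) (η i) := fun u hu =>
      ⟨hu.1, hu.2.trans_le (hu₃'' i)⟩
    rcases hη' i with h5 | h5
    · exact Or.inl fun u hu => h5 u (hsub u hu)
    · exact Or.inr fun u hu => h5 u (hsub u hu)
  · refine (hN (c - m) (by linarith)).mono ?_
    rintro w ⟨hwW, hw1, hw2, hw3⟩
    refine ⟨hwW, fun x hx => ?_⟩
    have h5 : m + (c - m) = c := by ring
    rw [h5] at hw3
    have h6 : w.1 * x ≤ w.1 * c := mul_le_mul_of_nonpos_left hx.1 hw1.le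
    unfold ev
    linarith

end Pool.ACA
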