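import Mathlib

/-!
# MP_aca35e_co : Tits arrangements on an irreducible curve. Common definitions

Paper proof: `aca_h23.md` (team store).

A point `w = (u, v)` of the dual plane is the line `{X | u X₁ + v X₂ = 1}` of the plane (`on w X`).
In the chart `X = (-x/ρ, 1/ρ)`, `ρ > 0`, this line is the graph of the affine function
`x ↦ v - u x` (`ev w x`), so `X` lies on the line `w` iff `ev w x = ρ`.
-/

set_option autoImplicit false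

namespace Pool.ACA

open Set Filter Topology

noncomputable section

/-- value of a bivariate polynomial at a dual point -/
def pv (p : MvPolynomial (Fin 2) ℝ) (w : ℝ × ℝ) : ℝ := MvPolynomial.eval ![w.1, w.2] p

/-- the point `X` lies on the line dual to `w` -/
def on (w X : ℝ × ℝ) : Prop := w.1 * X.1 + w.2 * X.2 = 1

/-- the affine function attached to `w = (u, v)`, in the chart -/
def ev (w : ℝ × ℝ) (x : ℝ) : ℝ := w.2 - w.1 * x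

/-- `p` has degree `≤ D`, and Bezout holds for `p` and all polynomials of degree `< D`. -/
structure Curve (D : ℕ) (p : MvPolynomial (Fin 2) ℝ) : Prop where
  deg : p.totalDegree ≤ D
  bz : ∀ q : MvPolynomial (Fin 2) ℝ, q ≠ 0 → q.totalDegree < D → ∀ S : Finset (ℝ × ℝ),
    (∀ w ∈ S, pv p w = 0 ∧ pv q w = 0) → S.card ≤ D * q.totalDegree

/-- Two different double points of a line of `W` are separated on this line by another vertex. -/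
def V1 (W : Set (ℝ × ℝ)) : Prop :=
  ∀ w ∈ W, ∀ X Y : ℝ × ℝ, X ≠ Y → on w X → on w Y →
    (∃! w₁, w₁ ∈ W ∧ w₁ ≠ w ∧ on w₁ X) → (∃! w₂, w₂ ∈ W ∧ w₂ ≠ w ∧ on w₂ Y) →
    ∃ Z ∈ openSegment ℝ X Y, ∃ w' ∈ W, w' ≠ w ∧ on w' Z

/-- Chart version of `V1`. -/
def V1c (W : Set (ℝ × ℝ)) : Prop :=
  ∀ w ∈ W, ∀ a b : ℝ, a < b → 0 < ev w a → 0 < ev w b →
    (∃! w₁, w₁ ∈ W ∧ w₁ ≠ w ∧ ev w₁ a = ev w a) →
    (∃! w₂, w₂ ∈ W ∧ w₂ ≠ w ∧ ev w₂ b = ev w b) →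
    ∃ x ∈ Ioo a b, ∃ w' ∈ W, w' ≠ w ∧ ev w' x = ev w x

/-- The data from which we derive a contradiction (Theorem M). -/
structure Setup (D : ℕ) (p : MvPolynomial (Fin 2) ℝ) (W : Set (ℝ × ℝ)) : Prop where
  hD : 4 ≤ D
  cur : Curve D p
  zero : ∀ w ∈ W, pv p w = 0
  inf : W.Infinite
  ne : (0, 0) ∉ W
  fin : ∀ ε > 0, {w ∈ W | ε ≤ |w.1| ∨ ε ≤ |w.2|}.Finite
  v1 : V1 W

/-- Infinitely many `w = (u, v) ∈ W` with `u < 0` have slope `v / u` in `(m, m + ε)`,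
for every `ε > 0`. -/
def N2 (W : Set (ℝ × ℝ)) (m : ℝ) : Prop :=
  ∀ ε > 0, {w ∈ W | w.1 < 0 ∧ w.2 < m * w.1 ∧ (m + ε) * w.1 < w.2}.Infinite

/-- domain of a half-branch: `0 < s u < u₁`, where `s = ±1` -/
def dom (s u₁ : ℝ) : Set ℝ := {u | 0 < s * u ∧ s * u < u₁}

/-- The half-branches `v = φ i u`, `u ∈ dom (s i) u₁`, of the curve `p = 0` at the origin. -/
structure Germs (p : MvPolynomial (Fin 2) ℝ) (N : ℕ) where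
  u₁ : ℝ
  δ : ℝ
  s : Fin N → ℝ
  φ : Fin N → ℝ → ℝ
  hu₁ : 0 < u₁
  hδ : 0 < δ
  hs : ∀ i, s i = 1 ∨ s i = -1
  an : ∀ i, AnalyticOnNhd ℝ (φ i) (dom (s i) u₁)
  zero : ∀ i, ∀ u ∈ dom (s i) u₁, pv p (u, φ i u) = 0
  ne : ∀ i j, i ≠ j → ∀ u, u ∈ dom (s i) u₁ → u ∈ dom (s j) u₁ → φ i u ≠ φ j u
  cover : ∀ w : ℝ × ℝ, pv p w = 0 → w.1 ≠ 0 → |w.1| < u₁ → |w.2| < δ →
    ∃ i, w.1 ∈ dom (s i) u₁ ∧ w.2 = φ i w.1
  lim : ∀ i, Tendsto (φ i) (𝓝[dom (s i) u₁] 0) (𝓝 0)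
  gen : ∀ i, ∀ c : ℝ, ∀ᶠ u in 𝓝[dom (s i) u₁] 0, φ i u ≠ c * u ∧ deriv (φ i) u ≠ c
  rad : ∀ i, ∀ u ∈ dom (s i) u₁, deriv (φ i) u * u ≠ φ i u

/-- slope `φ / u` of the half-branch `i` at `|u| = t` -/
def psi {p : MvPolynomial (Fin 2) ℝ} {N : ℕ} (G : Germs p N) (i : Fin N) (t : ℝ) : ℝ :=
  G.φ i (G.s i * t) / (G.s i * t)

/-- The sector `[c, c']` of slopes. -/
structure Sector {p : MvPolynomial (Fin 2) ℝ} {N : ℕ} (W : Set (ℝ × ℝ)) (G : Germs p N)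
    (m₀ : ℕ) where
  c : ℝ
  c' : ℝ
  hc : c < c'
  /-- half-branches which produce lines with slope in `[c, c']` -/
  H : Fin N → Prop
  a : Fin N → ℝ
  b : Fin N → ℝ
  hab : ∀ i, H i → 0 < a i ∧ a i < b i ∧ b i < G.u₁
  ha : ∀ i, H i → psi G i (a i) = c
  hb : ∀ i, H i → psi G i (b i) = c'
  mono : ∀ i, H i → StrictMonoOn (psi G i) (Ioo 0 G.u₁)
  fixed : ∀ w ∈ W, (∃ x ∈ Icc c c', ev w x = 0) →
    ∃ i, H i ∧ a i < G.s i * w.1 ∧ G.s i * w.1 < b i ∧ w.2 = G.φ i w.1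
  many : ∃ S : Finset (ℝ × ℝ), m₀ ≤ S.card ∧
    ∀ w ∈ S, w ∈ W ∧ w.1 ≠ 0 ∧ c < w.2 / w.1 ∧ w.2 / w.1 < c'
  u₃ : ℝ
  hu₃ : 0 < u₃
  hu₃' : u₃ ≤ G.u₁
  far : ∀ i, (∀ u ∈ dom (G.s i) u₃, c' < G.φ i u / u ∧ c' < deriv (G.φ i) u) ∨
    (∀ u ∈ dom (G.s i) u₃, G.φ i u / u < c ∧ deriv (G.φ i) u < c)
  pos : {w ∈ W | ∀ x ∈ Icc c c', 0 < ev w x}.Infinite

/-- A one-parameter family of lines `(u, φ u)`, `u ∈ U`, of the curve, which sweeps the open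
region `Ω` of the chart: every point of `Ω` is on exactly one of these lines, of parameter
`par X`. -/
structure Fam (p : MvPolynomial (Fin 2) ℝ) (Ω : Set (ℝ × ℝ)) where
  U : Set ℝ
  φ : ℝ → ℝ
  par : ℝ × ℝ → ℝ
  isOpen : IsOpen U
  mem : ∀ X ∈ Ω, par X ∈ U
  inc : ∀ X ∈ Ω, ev (par X, φ (par X)) X.1 = X.2
  uniq : ∀ X ∈ Ω, ∀ u ∈ U, ev (u, φ u) X.1 = X.2 → u = par X
  zero : ∀ u ∈ U, pv p (u, φ u) = 0
  an : AnalyticOnNhd ℝ φ U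
  der : ∀ X ∈ Ω, deriv φ (par X) ≠ X.1
  cont : ContinuousOn par Ω

/-- The family `A` contains the line `w`. -/
def Fam.has {p : MvPolynomial (Fin 2) ℝ} {Ω : Set (ℝ × ℝ)} (A : Fam p Ω) (w : ℝ × ℝ) : Prop :=
  w.1 ∈ A.U ∧ w.2 = A.φ w.1

/-- No line is in both families. -/
def Fam.Disj {p : MvPolynomial (Fin 2) ℝ} {Ω : Set (ℝ × ℝ)} (A B : Fam p Ω) : Prop :=
  ∀ w : ℝ × ℝ, ¬ (A.has w ∧ B.has w)

/-- The region of a web. -/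
def reg (x₀ x₁ ρ : ℝ) : Set (ℝ × ℝ) := Ioo x₀ x₁ ×ˢ Ioo 0 ρ

/-- A region which is swept by finitely many families (far and fixed), to which all lines of `W`
meeting the region belong. `mr 0 < ... < mr K` are the markers. -/
structure Web (p : MvPolynomial (Fin 2) ℝ) (W : Set (ℝ × ℝ)) (K m : ℕ) where
  n : ℕ
  n_le : n ≤ 2 * K
  far : Fin n → Prop
  far_le : Nat.card {i // far i} ≤ K
  mr : ℕ → ℝ
  mono : ∀ i < K, mr i < mr (i + 1)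
  ρ : ℝ
  hρ : 0 < ρ
  fam : Fin n → Fam p (reg (mr 0) (mr K) ρ)
  disj : ∀ i j, i ≠ j → (fam i).Disj (fam j)
  cover : ∀ w ∈ W, ∀ x ∈ Ioo (mr 0) (mr K), 0 < ev w x → ev w x < ρ → ∃ i, (fam i).has w
  farne : ∃ i, far i
  farpos : ∀ i, far i → ∀ w, (fam i).has w → ∀ x ∈ Icc (mr 0) (mr K), 0 < ev w x
  farmono : ∀ i, far i → ∀ w w', (fam i).has w → (fam i).has w' → |w.1| < |w'.1| →
    ∀ x ∈ Icc (mr 0) (mr K), ev w x < ev w' x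
  farsign : ∀ i, far i → (∀ u ∈ (fam i).U, 0 < u) ∨ (∀ u ∈ (fam i).U, u < 0)
  farinf : ∀ i, far i → {w ∈ W | (fam i).has w}.Infinite
  fixedmk : ∀ i, ¬ far i → ∀ w ∈ W, (fam i).has w → ∀ k ≤ K, ρ ≤ |ev w (mr k)|
  fixedcross : ∀ i j, ¬ far i → ¬ far j → ∀ w ∈ W, ∀ w' ∈ W, (fam i).has w → (fam j).has w' →
    ∀ x ∈ Ioo (mr 0) (mr K), 0 < ev w x → ev w x < ρ → ev w x = ev w' x → w = w'
  fixedfin : {w ∈ W | ∃ i, ¬ far i ∧ (fam i).has w}.Finite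
  many : ∀ k < K, ∃ S : Finset (ℝ × ℝ), m ≤ S.card ∧
    ∀ w ∈ S, w ∈ W ∧ (∃ i, ¬ far i ∧ (fam i).has w) ∧ ev w (mr k) * ev w (mr (k + 1)) < 0

/-- A window: consecutive lines `x 0, ..., x r` of one far family, over the block `(α, β)`. -/
structure Window {p : MvPolynomial (Fin 2) ℝ} {W : Set (ℝ × ℝ)} {K m : ℕ} (w : Web p W K m)
    (C d₀ : ℕ) where
  j : Fin w.n
  hj : w.far j
  α : ℝ
  β : ℝ
  hα : w.mr 0 ≤ α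
  hαβ : α < β
  hβ : β ≤ w.mr K
  r : ℕ
  d : ℕ
  x : ℕ → ℝ × ℝ
  hxW : ∀ i ≤ r, x i ∈ W
  hx : ∀ i ≤ r, (w.fam j).has (x i)
  xmono : ∀ i k, i < k → k ≤ r → (x i).1 < (x k).1
  pos : ∀ i ≤ r, ∀ y ∈ Icc α β, 0 < ev (x i) y ∧ ev (x i) y < w.ρ
  hd₀ : d₀ ≤ d
  hdr : d ≤ C * r
  hrd : r ≤ d
  Λ : Finset (ℝ × ℝ)
  ΛW : ∀ y ∈ Λ, y ∈ W
  Λcard : Λ.card ≤ 2 * d
  cross : ∀ i ≤ r, ∃ S ⊆ Λ, d ≤ 2 * S.card ∧ ∀ y ∈ S, y ≠ x i ∧ ∃ t ∈ Ioo α β, ev y t = ev (x i) t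
  all : ∀ i ≤ r, ∀ y ∈ W, y ≠ x i → (∃ t ∈ Ioo α β, ev y t = ev (x i) t) → y ∈ Λ

/-- A complete bipartite pattern of pairs of concurrent triples with fixed shifts. -/
structure KGrid (p : MvPolynomial (Fin 2) ℝ) (M S : ℕ) where
  Ω : Set (ℝ × ℝ)
  open_Ω : IsOpen Ω
  convex_Ω : Convex ℝ Ω
  A : Fam p Ω
  B : Fam p Ω
  C : Fam p Ω
  AB : A.Disj B
  AC : A.Disj C
  BC : B.Disj C
  /-- the parameters of the lines of the families `A` and `C` -/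
  s : ℕ → ℝ
  t : ℕ → ℝ
  r : ℕ
  q : ℕ
  smono : ∀ i k, i < k → k ≤ r → s i < s k
  tmono : ∀ i k, i < k → k ≤ q → t i < t k
  δ : ℕ
  ε : ℤ
  hδ : 1 ≤ δ
  hδM : δ ≤ M
  hε : ε ≠ 0
  hεM : |ε| ≤ M
  I : Finset ℕ
  J : Finset ℕ
  cardI : S ≤ I.card
  cardJ : S ≤ J.card
  hI : ∀ i ∈ I, i + δ ≤ r
  hJ : ∀ b ∈ J, b ≤ q ∧ 0 ≤ (b : ℤ) + ε ∧ (b : ℤ) + ε ≤ q
  inc : ∀ i ∈ I, ∀ b ∈ J, ∃ X ∈ Ω, ∃ Y ∈ Ω, A.par X = s i ∧ C.par X = t b ∧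
    A.par Y = s (i + δ) ∧ C.par Y = t ((b : ℤ) + ε).toNat ∧ B.par X = B.par Y

/-- A perfect triangular grid of lines whose dual points lie on the curve. -/
structure Grid (p : MvPolynomial (Fin 2) ℝ) (n : ℕ) where
  x : ℕ → ℝ × ℝ
  y : ℤ → ℝ × ℝ
  z : ℕ → ℝ × ℝ
  Q : ℕ → ℕ → ℝ × ℝ
  px : ∀ a ≤ n, pv p (x a) = 0
  py : ∀ e : ℤ, |e| ≤ n → pv p (y e) = 0
  pz : ∀ c ≤ n, pv p (z c) = 0
  xQ : ∀ a ≤ n, ∀ c ≤ n, ∀ a' ≤ n, ev (x a') (Q a c).1 = (Q a c).2 ↔ a' = a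
  zQ : ∀ a ≤ n, ∀ c ≤ n, ∀ c' ≤ n, ev (z c') (Q a c).1 = (Q a c).2 ↔ c' = c
  yQ : ∀ a ≤ n, ∀ c ≤ n, ∀ e : ℤ, |e| ≤ n → (ev (y e) (Q a c).1 = (Q a c).2 ↔ e = (c : ℤ) - a)

/-- `a` and `b` are algebraically dependent functions on `J`, with degrees `≤ N`. -/
def AlgDep (N : ℕ) (J : Set ℝ) (a b : ℝ → ℝ) : Prop :=
  ∃ H : Polynomial (Polynomial ℝ), H ≠ 0 ∧ H.natDegree ≤ N ∧ (∀ i, (H.coeff i).natDegree ≤ N) ∧
    ∀ s ∈ J, (H.map (Polynomial.evalRingHom (a s))).eval (b s) = 0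

/-- `t` is the `B`-parameter of the point of the line `z` in `Ω` with `A`-parameter `s`. -/
def Corr {p : MvPolynomial (Fin 2) ℝ} {Ω : Set (ℝ × ℝ)} (A B : Fam p Ω) (z : ℝ × ℝ)
    (s t : ℝ) : Prop :=
  ∃ X ∈ Ω, ev z X.1 = X.2 ∧ A.par X = s ∧ B.par X = t

end

end Pool.ACA
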