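import Pool.Agent.Lib.MP_aca35e_co.ADefs

/-!
# MP_aca35e_co, stage 2 (cubics): definitions
-/

set_option autoImplicit false

namespace Pool.ACA

open Set Filter Topology

/-- The hypotheses of stage 2: all chambers are bounded triangles with sides on lines of `W`, at most three lines of
`W` through a point, finitely many parallel lines. -/
structure S3 (W : Set (ℝ × ℝ)) : Prop where
  aff : Aff W
  tri : ∀ X, (∀ w ∈ W, ¬ on w X) → InTri W X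
  mul : ∀ (X : ℝ × ℝ) (S : Finset (ℝ × ℝ)), (∀ w ∈ S, w ∈ W ∧ on w X) → S.card ≤ 3
  par : ∀ v : ℝ × ℝ, v ≠ 0 → {w ∈ W | w.1 * v.1 + w.2 * v.2 = 0}.Finite

/-- closed triangle -/
def ctri (a b c : ℝ × ℝ) : Set (ℝ × ℝ) :=
  {X | ∃ r s t : ℝ, 0 ≤ r ∧ 0 ≤ s ∧ 0 ≤ t ∧ r + s + t = 1 ∧ X = r • a + s • b + t • c}

/-- chamber triangle: nondegenerate, free of lines of `W`, sides on lines of `W` -/
structure FT (W : Set (ℝ × ℝ)) (a b c : ℝ × ℝ) : Prop where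
  nd : cr (b - a) (c - a) ≠ 0
  free : ∀ w ∈ W, ∀ Y ∈ Pool.ACA.tri a b c, ¬ on w Y
  sa : ∃ w ∈ W, on w b ∧ on w c
  sb : ∃ w ∈ W, on w a ∧ on w c
  sc : ∃ w ∈ W, on w a ∧ on w b

/-- the lines of `W` through `X` -/
def linesAt (W : Set (ℝ × ℝ)) (X : ℝ × ℝ) : Set (ℝ × ℝ) := {w ∈ W | on w X}

/-- chamber with lowest vertex `a`, middle vertex `b`, highest vertex `c` -/
def Ch (W : Set (ℝ × ℝ)) (a b c : ℝ × ℝ) : Prop := a.2 < b.2 ∧ b.2 < c.2 ∧ FT W a b c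

/-- the polygon cut out by a finite set of lines -/
def Pol (V : Finset (ℝ × ℝ)) : Set (ℝ × ℝ) := {X | ∀ w ∈ V, w.1 * X.1 + w.2 * X.2 ≤ 1}

/-- interior of the polygon -/
def PolI (V : Finset (ℝ × ℝ)) : Set (ℝ × ℝ) := {X | ∀ w ∈ V, w.1 * X.1 + w.2 * X.2 < 1}

/-- the horizontal direction `s = ±1` at `v` points into the interior of the polygon -/
def ins (V : Finset (ℝ × ℝ)) (v : ℝ × ℝ) (s : ℝ) : Prop := ∃ ε > 0, (v.1 + s * ε, v.2) ∈ PolI V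

end Pool.ACA
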