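import Pool.Agent.Lib.MP_aca35e_co.Defs
import Pool.Agent.Lib.MP_aca35e_co.TDefs

/-!
# MP_aca35e_co, row T1

Basic facts about triangles. `tri_sub`: a preconnected (e.g. convex) set `S` which meets no line of `W` and meets the open triangle is contained in it (the open triangle is the intersection of
three open half-planes bounded by the side lines, `w.1 X.1 + w.2 X.2 - 1` has a constant sign on `S`; express the barycentric coordinates of `X` as positive multiples of `± (w·X - 1)` for the three side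
lines). `ctri_seg`: `X` in the closed and `Y` in the open triangle: the open segment is in the open triangle. `side_free`: if a line `w'` passes through a point `Z` of the open side `(a, b)` and not through both `a`
and `b` then it crosses: `Z + ε d` is in the open triangle for a direction `d` of `w'`, contradiction to `free`. `tri_vertex`: `v` is not in the open triangle; if it is in an open side then `side_free` says that
all lines of `W` through `v` contain that side, so there is only one. `perm`: symmetry.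
-/

set_option autoImplicit false
set_option linter.unusedVariables false

namespace Pool.ACA

open Set Filter Topology

private theorem ext2 {X Y : ℝ × ℝ} (h1 : X.1 = Y.1) (h2 : X.2 = Y.2) : X = Y := Prod.ext h1 h2

private theorem tri_iff (a b c X : ℝ × ℝ) : X ∈ tri a b c ↔ ∃ r s t : ℝ, 0 < r ∧ 0 < s ∧ 0 < t ∧
    r + s + t = 1 ∧ X.1 = r * a.1 + s * b.1 + t * c.1 ∧ X.2 = r * a.2 + s * b.2 + t * c.2 := by
  constructor
  · rintro ⟨r, s, t, hr, hs, ht, h, rfl⟩
    exact ⟨r, s, t, hr, hs, ht, h, by simp, by simp⟩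
  · rintro ⟨r, s, t, hr, hs, ht, h, h1, h2⟩
    exact ⟨r, s, t, hr, hs, ht, h, ext2 (by simpa using h1) (by simpa using h2)⟩

private theorem bary {a b c : ℝ × ℝ} (h : cr (b - a) (c - a) ≠ 0) (X : ℝ × ℝ) :
    ∃ r s t : ℝ, r + s + t = 1 ∧ X.1 = r * a.1 + s * b.1 + t * c.1 ∧
      X.2 = r * a.2 + s * b.2 + t * c.2 := by
  refine ⟨1 - cr (X - a) (c - a) / cr (b - a) (c - a) - cr (b - a) (X - a) / cr (b - a) (c - a),
    cr (X - a) (c - a) / cr (b - a) (c - a), cr (b - a) (X - a) / cr (b - a) (c - a), by ring, ?_, ?_⟩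
  · field_simp
    simp only [cr, Prod.fst_sub, Prod.snd_sub]
    ring
  · field_simp
    simp only [cr, Prod.fst_sub, Prod.snd_sub]
    ring

private theorem two_pts {w w' a b : ℝ × ℝ} (hab : a ≠ b) (h1 : on w a) (h2 : on w b)
    (h3 : on w' a) (h4 : on w' b) : w = w' := by
  unfold on at *
  have hcr : w.1 * w'.2 - w.2 * w'.1 = 0 := by
    by_contra hne
    apply hab
    have e1 : (w.1 * w'.2 - w.2 * w'.1) * (a.1 - b.1) = 0 := by
      linear_combination w'.2 * (h1 - h2) - w.2 * (h3 - h4)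
    have e2 : (w.1 * w'.2 - w.2 * w'.1) * (a.2 - b.2) = 0 := by
      linear_combination w.1 * (h3 - h4) - w'.1 * (h1 - h2)
    have e3 := (mul_eq_zero.1 e1).resolve_left hne
    have e4 := (mul_eq_zero.1 e2).resolve_left hne
    exact ext2 (by linarith) (by linarith)
  exact ext2 (by linear_combination -w.1 * h3 + w'.1 * h1 + a.2 * hcr)
    (by linear_combination -w.2 * h3 + w'.2 * h1 - a.1 * hcr)

/-- the third vertex is not on a side line -/
private theorem not_on {a b c w : ℝ × ℝ} (h : cr (b - a) (c - a) ≠ 0) (h1 : on w b) (h2 : on w c) :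
    w.1 * a.1 + w.2 * a.2 - 1 ≠ 0 := by
  intro h0
  apply h
  unfold on at h1 h2
  simp only [cr, Prod.fst_sub, Prod.snd_sub]
  have e1 : w.1 * ((b.1 - a.1) * (c.2 - a.2) - (b.2 - a.2) * (c.1 - a.1)) = 0 := by
    linear_combination (h1 - h0) * (c.2 - a.2) - (h2 - h0) * (b.2 - a.2)
  have e2 : w.2 * ((b.1 - a.1) * (c.2 - a.2) - (b.2 - a.2) * (c.1 - a.1)) = 0 := by
    linear_combination (h2 - h0) * (b.1 - a.1) - (h1 - h0) * (c.1 - a.1)
  rcases mul_eq_zero.1 e1 with h3 | h3
  · rcases mul_eq_zero.1 e2 with h4 | h4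
    · rw [h3, h4] at h0
      norm_num at h0
    · exact h4
  · exact h3

private theorem same_sign {w : ℝ × ℝ} {S : Set (ℝ × ℝ)} (hS : IsPreconnected S)
    (hW : ∀ X ∈ S, ¬ on w X) (X Y : ℝ × ℝ) (hX : X ∈ S) (hY : Y ∈ S) :
    0 < (w.1 * X.1 + w.2 * X.2 - 1) * (w.1 * Y.1 + w.2 * Y.2 - 1) := by
  have hc : ContinuousOn (fun Z : ℝ × ℝ => w.1 * Z.1 + w.2 * Z.2 - 1) S := by
    fun_prop
  have hne : ∀ Z ∈ S, w.1 * Z.1 + w.2 * Z.2 - 1 ≠ 0 := fun Z hZ h0 => hW Z hZ (by
    unfold on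
    linarith)
  by_contra hcon
  push Not at hcon
  rcases mul_nonpos_iff.1 hcon with ⟨h1, h2⟩ | ⟨h1, h2⟩
  · obtain ⟨Z, hZ, hZ2⟩ := hS.intermediate_value hY hX hc ⟨h2, h1⟩
    exact hne Z hZ hZ2
  · obtain ⟨Z, hZ, hZ2⟩ := hS.intermediate_value hX hY hc ⟨h1, h2⟩
    exact hne Z hZ hZ2

private theorem coord_pos {a b c w : ℝ × ℝ} {S : Set (ℝ × ℝ)} (hnd : cr (b - a) (c - a) ≠ 0)
    (hS : IsPreconnected S) (hW : ∀ X ∈ S, ¬ on w X) (h1 : on w b) (h2 : on w c)
    {X Y : ℝ × ℝ} (hX : X ∈ S) (hY : Y ∈ S) {r s t r' s' t' : ℝ} (hr : 0 < r)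
    (e1 : r + s + t = 1) (e2 : X.1 = r * a.1 + s * b.1 + t * c.1)
    (e3 : X.2 = r * a.2 + s * b.2 + t * c.2) (e1' : r' + s' + t' = 1)
    (e2' : Y.1 = r' * a.1 + s' * b.1 + t' * c.1)
    (e3' : Y.2 = r' * a.2 + s' * b.2 + t' * c.2) : 0 < r' := by
  have hs := same_sign hS hW X Y hX hY
  have hn := not_on hnd h1 h2
  unfold on at h1 h2
  have f1 : w.1 * X.1 + w.2 * X.2 - 1 = r * (w.1 * a.1 + w.2 * a.2 - 1) := by
    rw [e2, e3]
    linear_combination s * h1 + t * h2 + e1
  have f2 : w.1 * Y.1 + w.2 * Y.2 - 1 = r' * (w.1 * a.1 + w.2 * a.2 - 1) := by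
    rw [e2', e3']
    linear_combination s' * h1 + t' * h2 + e1'
  rw [f1, f2] at hs
  have h3 : 0 < (r * r') * (w.1 * a.1 + w.2 * a.2 - 1) ^ 2 := by
    calc _ < _ := hs
      _ = _ := by ring
  have h4 : 0 < (w.1 * a.1 + w.2 * a.2 - 1) ^ 2 := by positivity
  have h5 := (pos_iff_pos_of_mul_pos h3).2 h4
  exact (pos_iff_pos_of_mul_pos h5).1 hr

theorem FT.perm1 {W : Set (ℝ × ℝ)} {a b c : ℝ × ℝ} (h : FT W a b c) : FT W b a c := by
  have hp : tri b a c = tri a b c := by
    ext X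
    rw [tri_iff, tri_iff]
    constructor
    · rintro ⟨r, s, t, hr, hs, ht, h, h1, h2⟩
      exact ⟨s, r, t, hs, hr, ht, by linarith, by linarith, by linarith⟩
    · rintro ⟨r, s, t, hr, hs, ht, h, h1, h2⟩
      exact ⟨s, r, t, hs, hr, ht, by linarith, by linarith, by linarith⟩
  refine ⟨?_, ?_, h.sb, h.sa, ?_⟩
  · intro h0
    apply h.nd
    simp only [cr, Prod.fst_sub, Prod.snd_sub] at h0 ⊢
    linarith
  · rw [hp]
    exact h.free
  · obtain ⟨w, hw, h1, h2⟩ := h.sc
    exact ⟨w, hw, h2, h1⟩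

theorem FT.perm2 {W : Set (ℝ × ℝ)} {a b c : ℝ × ℝ} (h : FT W a b c) : FT W a c b := by
  have hp : tri a c b = tri a b c := by
    ext X
    rw [tri_iff, tri_iff]
    constructor
    · rintro ⟨r, s, t, hr, hs, ht, h, h1, h2⟩
      exact ⟨r, t, s, hr, ht, hs, by linarith, by linarith, by linarith⟩
    · rintro ⟨r, s, t, hr, hs, ht, h, h1, h2⟩
      exact ⟨r, t, s, hr, ht, hs, by linarith, by linarith, by linarith⟩
  refine ⟨?_, ?_, ?_, h.sc, h.sb⟩
  · intro h0
    apply h.nd
    simp only [cr, Prod.fst_sub, Prod.snd_sub] at h0 ⊢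
    linarith
  · rw [hp]
    exact h.free
  · obtain ⟨w, hw, h1, h2⟩ := h.sa
    exact ⟨w, hw, h2, h1⟩

theorem tri_perm1 (a b c : ℝ × ℝ) : tri a b c = tri b a c := by
  ext X
  rw [tri_iff, tri_iff]
  constructor
  · rintro ⟨r, s, t, hr, hs, ht, h, h1, h2⟩
    exact ⟨s, r, t, hs, hr, ht, by linarith, by linarith, by linarith⟩
  · rintro ⟨r, s, t, hr, hs, ht, h, h1, h2⟩
    exact ⟨s, r, t, hs, hr, ht, by linarith, by linarith, by linarith⟩

theorem tri_perm2 (a b c : ℝ × ℝ) : tri a b c = tri a c b := by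
  ext X
  rw [tri_iff, tri_iff]
  constructor
  · rintro ⟨r, s, t, hr, hs, ht, h, h1, h2⟩
    exact ⟨r, t, s, hr, ht, hs, by linarith, by linarith, by linarith⟩
  · rintro ⟨r, s, t, hr, hs, ht, h, h1, h2⟩
    exact ⟨r, t, s, hr, ht, hs, by linarith, by linarith, by linarith⟩

theorem tri_sub {W : Set (ℝ × ℝ)} {a b c : ℝ × ℝ} (h : FT W a b c) (S : Set (ℝ × ℝ))
    (hS : IsPreconnected S) (hW : ∀ w ∈ W, ∀ X ∈ S, ¬ on w X) (hm : (S ∩ tri a b c).Nonempty) :
    S ⊆ tri a b c := by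
  obtain ⟨X, hXS, hXT⟩ := hm
  obtain ⟨r, s, t, hr, hs, ht, e1, e2, e3⟩ := (tri_iff a b c X).1 hXT
  intro Y hY
  obtain ⟨r', s', t', e1', e2', e3'⟩ := bary h.nd Y
  rw [tri_iff]
  obtain ⟨wa, hwa, ha1, ha2⟩ := h.sa
  obtain ⟨wb, hwb, hb1, hb2⟩ := h.sb
  obtain ⟨wc, hwc, hc1, hc2⟩ := h.sc
  refine ⟨r', s', t', ?_, ?_, ?_, e1', e2', e3'⟩
  · exact coord_pos h.nd hS (hW wa hwa) ha1 ha2 hXS hY hr e1 e2 e3 e1' e2' e3'
  · exact coord_pos h.perm1.nd hS (hW wb hwb) hb1 hb2 hXS hY hs (s := r) (t := t) (s' := r')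
      (t' := t') (by linarith) (by linarith) (by linarith) (by linarith) (by linarith)
      (by linarith)
  · exact coord_pos h.perm2.perm1.nd hS (hW wc hwc) hc1 hc2 hXS hY ht (s := r) (t := s)
      (s' := r') (t' := s') (by linarith) (by linarith) (by linarith) (by linarith)
      (by linarith) (by linarith)

theorem ctri_seg {a b c : ℝ × ℝ} (X Y : ℝ × ℝ) (hX : X ∈ ctri a b c) (hY : Y ∈ tri a b c) :
    openSegment ℝ X Y ⊆ tri a b c := by
  intro Z hZ
  obtain ⟨p, q, hp, hq, hpq, rfl⟩ := hZ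
  obtain ⟨r, s, t, hr, hs, ht, h1, rfl⟩ := hX
  obtain ⟨r', s', t', hr', hs', ht', h2, rfl⟩ := hY
  refine ⟨p * r + q * r', p * s + q * s', p * t + q * t', ?_, ?_, ?_, ?_, ?_⟩
  · have := mul_pos hq hr'
    have := mul_nonneg hp.le hr
    linarith
  · have := mul_pos hq hs'
    have := mul_nonneg hp.le hs
    linarith
  · have := mul_pos hq ht'
    have := mul_nonneg hp.le ht
    linarith
  · calc _ = p * (r + s + t) + q * (r' + s' + t') := by ring
      _ = 1 := by rw [h1, h2]; linarith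
  · module

theorem side_free {W : Set (ℝ × ℝ)} {a b c : ℝ × ℝ} (h : FT W a b c) (w : ℝ × ℝ) (hw : w ∈ W)
    (Z : ℝ × ℝ) (hZ : Z ∈ openSegment ℝ a b) (hwZ : on w Z) : on w a ∧ on w b := by
  obtain ⟨p, q, hp, hq, hpq, rfl⟩ := hZ
  unfold on at hwZ
  simp only [Prod.fst_add, Prod.snd_add, Prod.smul_fst, Prod.smul_snd, smul_eq_mul] at hwZ
  have hfa : w.1 * a.1 + w.2 * a.2 - 1 = 0 := by
    by_contra hne
    obtain ⟨A, hA⟩ : ∃ A, A = w.1 * a.1 + w.2 * a.2 - 1 := ⟨_, rfl⟩
    obtain ⟨B, hB⟩ : ∃ B, B = w.1 * b.1 + w.2 * b.2 - 1 := ⟨_, rfl⟩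
    obtain ⟨C, hC⟩ : ∃ C, C = w.1 * c.1 + w.2 * c.2 - 1 := ⟨_, rfl⟩
    have h0 : p * A + q * B = 0 := by
      rw [hA, hB]
      linear_combination hwZ - hpq
    rw [← hA] at hne
    have hAB : A - B ≠ 0 := by
      intro h1
      have h2 : B = A := by linarith
      rw [h2, ← add_mul, hpq, one_mul] at h0
      exact hne h0
    obtain ⟨k, hk⟩ : ∃ k, k = C / (A - B) := ⟨_, rfl⟩
    have hk' : k * (A - B) = C := by
      rw [hk]
      field_simp
    have hK : 0 < 1 + |k| := by positivity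
    obtain ⟨e, he⟩ : ∃ e, e = min p q / (2 * (1 + |k|)) := ⟨_, rfl⟩
    have hmin : 0 < min p q := lt_min hp hq
    have he0 : 0 < e := by
      rw [he]
      positivity
    have he1 : e * (1 + |k|) = min p q / 2 := by
      rw [he]
      field_simp
    have hk1 := le_abs_self k
    have hk2 := neg_abs_le k
    have hmp := min_le_left p q
    have hmq := min_le_right p q
    have hr : 0 < (1 - e) * p - e * k := by
      have h1 : e * (p + k) ≤ e * (1 + |k|) := mul_le_mul_of_nonneg_left (by linarith) he0.le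
      have : (1 - e) * p - e * k = p - e * (p + k) := by ring
      linarith
    have hs : 0 < (1 - e) * q + e * k := by
      have h1 : e * (q - k) ≤ e * (1 + |k|) := mul_le_mul_of_nonneg_left (by linarith) he0.le
      have : (1 - e) * q + e * k = q - e * (q - k) := by ring
      linarith
    apply h.free w hw (((1 - e) * p - e * k) • a + ((1 - e) * q + e * k) • b + e • c)
      ⟨_, _, _, hr, hs, he0, by linear_combination (1 - e) * hpq, rfl⟩
    unfold on
    simp only [Prod.fst_add, Prod.snd_add, Prod.smul_fst, Prod.smul_snd, smul_eq_mul]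
    rw [hA, hB] at h0
    rw [hA, hB, hC] at hk'
    linear_combination (1 - e) * h0 - e * hk' + (1 - e) * hpq
  have hfb : w.1 * b.1 + w.2 * b.2 - 1 = 0 := by
    have h1 : q * (w.1 * b.1 + w.2 * b.2 - 1) = 0 := by
      linear_combination hwZ - hpq - p * hfa
    exact (mul_eq_zero.1 h1).resolve_left hq.ne'
  exact ⟨by unfold on; linarith, by unfold on; linarith⟩

theorem tri_vertex {W : Set (ℝ × ℝ)} {a b c : ℝ × ℝ} (h : FT W a b c) (v : ℝ × ℝ)
    (hv : v ∈ ctri a b c) (w w' : ℝ × ℝ) (hw : w ∈ W) (hw' : w' ∈ W) (hne : w ≠ w') (h1 : on w v)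
    (h2 : on w' v) : v = a ∨ v = b ∨ v = c := by
  obtain ⟨r, s, t, hr, hs, ht, h0, hv'⟩ := hv
  have key : ∀ {a b c : ℝ × ℝ}, FT W a b c → ∀ p q : ℝ, 0 < p → 0 < q → p + q = 1 →
      v = p • a + q • b → False := by
    intro a b c h p q hp hq hpq he
    have hZ : v ∈ openSegment ℝ a b := ⟨p, q, hp, hq, hpq, he.symm⟩
    obtain ⟨g1, g2⟩ := side_free h w hw v hZ h1
    obtain ⟨g3, g4⟩ := side_free h w' hw' v hZ h2
    refine hne (two_pts ?_ g1 g2 g3 g4)
    rintro rfl
    apply h.nd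
    simp [cr]
  rcases hr.eq_or_lt with hr0 | hr0
  · subst hr0
    rcases hs.eq_or_lt with hs0 | hs0
    · subst hs0
      right; right
      have : t = 1 := by linarith
      subst this
      rw [hv']
      simp
    · rcases ht.eq_or_lt with ht0 | ht0
      · subst ht0
        right; left
        have : s = 1 := by linarith
        subst this
        rw [hv']
        simp
      · exfalso
        exact key h.perm1.perm2 s t hs0 ht0 (by linarith) (by rw [hv']; simp)
  · rcases hs.eq_or_lt with hs0 | hs0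
    · subst hs0
      rcases ht.eq_or_lt with ht0 | ht0
      · subst ht0
        left
        have : r = 1 := by linarith
        subst this
        rw [hv']
        simp
      · exfalso
        exact key h.perm2 r t hr0 ht0 (by linarith) (by rw [hv']; simp)
    · rcases ht.eq_or_lt with ht0 | ht0
      · subst ht0
        exfalso
        exact key h r s hr0 hs0 (by linarith) (by rw [hv']; simp)
      · exfalso
        exact h.free w hw v ⟨r, s, t, hr0, hs0, ht0, h0, hv'⟩ h1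

end Pool.ACA
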