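import Pool.Agent.Lib.MP_aca35e_co.Defs
import Pool.Agent.Lib.MP_aca35e_co.TDefs
import Pool.Agent.Lib.MP_aca35e_co.T1

/-!
# MP_aca35e_co, row T2

Uniqueness. `ft_unique`: both open triangles are convex and free, so (`tri_sub`) they are equal; their closures are equal (`a` is a limit of points of the open triangle), so (`tri_vertex`: `a` is on two different lines
of `W`, the side lines) `a ∈ {a', b', c'}` etc. `ray_unique`: `p` and `p'` are on the ray from `v`; if `p' = v + λ (p - v)`, `λ < 1`, then `p'` is in the open side `(v, p)` and is on another line of `W` (side line of the second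
triangle through `p'` and `q'`, not through `v`): contradiction to `side_free`; `λ > 1` the same with the roles exchanged. `side_unique`: moreover if `q, q'` are on the same side of the line `v p` then the triangles
overlap near the midpoint of `v p`, so they are equal by `ft_unique` and `q = q'`.
-/

set_option autoImplicit false
set_option linter.unusedVariables false

namespace Pool.ACA

open Set Filter Topology

private theorem tri_conv (a b c : ℝ × ℝ) : Convex ℝ (tri a b c) := by
  rw [convex_iff_openSegment_subset]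
  intro X hX Y hY
  obtain ⟨r, s, t, hr, hs, ht, h, e⟩ := hX
  exact ctri_seg X Y ⟨r, s, t, hr.le, hs.le, ht.le, h, e⟩ hY

private theorem third_bary (a b c : ℝ × ℝ) : (1 / 3 : ℝ) • a + (1 / 3 : ℝ) • b + (1 / 3 : ℝ) • c
    ∈ tri a b c :=
  ⟨1 / 3, 1 / 3, 1 / 3, by norm_num, by norm_num, by norm_num, by norm_num, rfl⟩

/-- a vertex of a triangle contained in `tri a b c` is in the closed triangle -/
private theorem vert_mem {a b c a' b' c' : ℝ × ℝ} (hnd : cr (b - a) (c - a) ≠ 0)
    (hsub : tri a' b' c' ⊆ tri a b c) : a' ∈ ctri a b c := by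
  have hcl : IsClosed {X : ℝ × ℝ | 0 ≤ 1 - cr (X - a) (c - a) / cr (b - a) (c - a)
      - cr (b - a) (X - a) / cr (b - a) (c - a) ∧ 0 ≤ cr (X - a) (c - a) / cr (b - a) (c - a) ∧
      0 ≤ cr (b - a) (X - a) / cr (b - a) (c - a)} := by
    have c2 : Continuous (fun X : ℝ × ℝ => cr (X - a) (c - a) / cr (b - a) (c - a)) := by
      unfold cr
      fun_prop
    have c3 : Continuous (fun X : ℝ × ℝ => cr (b - a) (X - a) / cr (b - a) (c - a)) := by
      unfold cr
      fun_prop
    have c1 := (continuous_const (y := (1 : ℝ)) |>.sub c2).sub c3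
    exact (isClosed_le continuous_const c1).inter
      ((isClosed_le continuous_const c2).inter (isClosed_le continuous_const c3))
  have hin : tri a b c ⊆ {X : ℝ × ℝ | 0 ≤ 1 - cr (X - a) (c - a) / cr (b - a) (c - a)
      - cr (b - a) (X - a) / cr (b - a) (c - a) ∧ 0 ≤ cr (X - a) (c - a) / cr (b - a) (c - a) ∧
      0 ≤ cr (b - a) (X - a) / cr (b - a) (c - a)} := by
    rintro X ⟨r, s, t, hr, hs, ht, h, rfl⟩
    have hr1 : r = 1 - s - t := by linarith
    have e1 : cr (r • a + s • b + t • c - a) (c - a) / cr (b - a) (c - a) = s := by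
      rw [div_eq_iff hnd, hr1]
      simp only [cr, Prod.fst_sub, Prod.snd_sub, Prod.fst_add, Prod.snd_add, Prod.smul_fst,
        Prod.smul_snd, smul_eq_mul]
      ring
    have e2 : cr (b - a) (r • a + s • b + t • c - a) / cr (b - a) (c - a) = t := by
      rw [div_eq_iff hnd, hr1]
      simp only [cr, Prod.fst_sub, Prod.snd_sub, Prod.fst_add, Prod.snd_add, Prod.smul_fst,
        Prod.smul_snd, smul_eq_mul]
      ring
    show _ ∧ _ ∧ _
    rw [e1, e2]
    exact ⟨by linarith, hs.le, ht.le⟩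
  have hlim : Tendsto (fun e : ℝ => (1 - e) • a' + e • ((1 / 3 : ℝ) • a' + (1 / 3 : ℝ) • b'
      + (1 / 3 : ℝ) • c')) (𝓝[>] 0) (𝓝 a') := by
    have h1 : Continuous (fun e : ℝ => (1 - e) • a' + e • ((1 / 3 : ℝ) • a' + (1 / 3 : ℝ) • b'
      + (1 / 3 : ℝ) • c')) := by fun_prop
    have h2 := h1.tendsto 0
    simp only [sub_zero, one_smul, zero_smul, add_zero] at h2
    exact h2.mono_left nhdsWithin_le_nhds
  have hmem := hcl.mem_of_tendsto hlim (by
    have e1 : ∀ᶠ e : ℝ in 𝓝[>] 0, e ∈ Ioo (0 : ℝ) 1 := Ioo_mem_nhdsGT one_pos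
    filter_upwards [e1] with e he
    apply hin
    apply hsub
    exact ctri_seg a' _ ⟨1, 0, 0, by norm_num, le_rfl, le_rfl, by norm_num, by simp⟩
      (third_bary a' b' c') ⟨1 - e, e, by linarith [he.2], he.1, by ring, rfl⟩)
  obtain ⟨h1, h2, h3⟩ := hmem
  refine ⟨_, _, _, h1, h2, h3, by ring, ?_⟩
  refine Prod.ext ?_ ?_
  · simp only [Prod.fst_add, Prod.smul_fst, smul_eq_mul]
    field_simp
    simp only [cr, Prod.fst_sub, Prod.snd_sub]
    ring
  · simp only [Prod.snd_add, Prod.smul_snd, smul_eq_mul]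
    field_simp
    simp only [cr, Prod.fst_sub, Prod.snd_sub]
    ring

private theorem col {w a b c : ℝ × ℝ} (h1 : on w a) (h2 : on w b) (h3 : on w c) :
    cr (b - a) (c - a) = 0 := by
  unfold on at h1 h2 h3
  simp only [cr, Prod.fst_sub, Prod.snd_sub]
  have e1 : w.1 * ((b.1 - a.1) * (c.2 - a.2) - (b.2 - a.2) * (c.1 - a.1)) = 0 := by
    linear_combination (h2 - h1) * (c.2 - a.2) - (h3 - h1) * (b.2 - a.2)
  have e2 : w.2 * ((b.1 - a.1) * (c.2 - a.2) - (b.2 - a.2) * (c.1 - a.1)) = 0 := by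
    linear_combination (h3 - h1) * (b.1 - a.1) - (h2 - h1) * (c.1 - a.1)
  rcases mul_eq_zero.1 e1 with h4 | h4
  · rcases mul_eq_zero.1 e2 with h5 | h5
    · rw [h4, h5] at h1
      norm_num at h1
    · exact h5
  · exact h4

/-- a vertex of one chamber triangle inside another is a vertex -/
private theorem vert_eq {W : Set (ℝ × ℝ)} {a b c a' b' c' : ℝ × ℝ} (h : FT W a b c)
    (h' : FT W a' b' c') (hsub : tri a' b' c' ⊆ tri a b c) : a' = a ∨ a' = b ∨ a' = c := by
  obtain ⟨w, hw, h1, h2⟩ := h'.sb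
  obtain ⟨w', hw', h3, h4⟩ := h'.sc
  refine tri_vertex h a' (vert_mem h.nd hsub) w w' hw hw' ?_ h1 h3
  rintro rfl
  exact h'.nd (col h1 h4 h2)

theorem ft_unique {W : Set (ℝ × ℝ)} {a b c a' b' c' : ℝ × ℝ} (h : FT W a b c) (h' : FT W a' b' c')
    (hm : (tri a b c ∩ tri a' b' c').Nonempty) :
    tri a b c = tri a' b' c' ∧ (a' = a ∨ a' = b ∨ a' = c) ∧ (b' = a ∨ b' = b ∨ b' = c) ∧
      (c' = a ∨ c' = b ∨ c' = c) := by
  have hs1 : tri a b c ⊆ tri a' b' c' :=
    tri_sub h' _ (tri_conv a b c).isPreconnected (fun w hw X hX => h.free w hw X hX) hm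
  have hs2 : tri a' b' c' ⊆ tri a b c :=
    tri_sub h _ (tri_conv a' b' c').isPreconnected (fun w hw X hX => h'.free w hw X hX)
      (by rwa [inter_comm])
  refine ⟨Subset.antisymm hs1 hs2, vert_eq h h' hs2, ?_, ?_⟩
  · exact vert_eq h h'.perm1 (by rwa [← tri_perm1])
  · exact vert_eq h h'.perm2.perm1 (by rwa [← tri_perm1, ← tri_perm2])

theorem ch_unique {W : Set (ℝ × ℝ)} {a b c a' b' c' : ℝ × ℝ} (h : Ch W a b c) (h' : Ch W a' b' c')
    (hm : (tri a b c ∩ tri a' b' c').Nonempty) : a = a' ∧ b = b' ∧ c = c' := by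
  obtain ⟨-, h1, h2, h3⟩ := ft_unique h.2.2 h'.2.2 hm
  have g1 := h.1
  have g2 := h.2.1
  have g3 := h'.1
  have g4 := h'.2.1
  rcases h1 with rfl | rfl | rfl <;> rcases h2 with rfl | rfl | rfl <;>
    rcases h3 with rfl | rfl | rfl <;> first | exact ⟨rfl, rfl, rfl⟩ | (exfalso; linarith)

theorem ray_unique {W : Set (ℝ × ℝ)} {v p q p' q' : ℝ × ℝ} (h : FT W v p q) (h' : FT W v p' q')
    (l : ℝ) (hl : 0 < l) (hp : p' - v = l • (p - v)) : p' = p := by
  rcases lt_trichotomy l 1 with h1 | h1 | h1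
  · exfalso
    obtain ⟨w, hw, g1, g2⟩ := h'.sa
    have hmem : p' ∈ openSegment ℝ v p := by
      refine ⟨1 - l, l, by linarith, hl, by ring, ?_⟩
      have : p' = v + l • (p - v) := by rw [← hp]; simp
      rw [this]
      module
    obtain ⟨g3, -⟩ := side_free h w hw p' hmem g1
    exact h'.nd (col g3 g1 g2)
  · subst h1
    rw [one_smul] at hp
    exact sub_left_injective hp
  · exfalso
    obtain ⟨w, hw, g1, g2⟩ := h.sa
    have hmem : p ∈ openSegment ℝ v p' := by
      refine ⟨1 - l⁻¹, l⁻¹, ?_, by positivity, by ring, ?_⟩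
      · have := inv_lt_one_of_one_lt₀ h1
        linarith
      · have h2 : p' = v + l • (p - v) := by rw [← hp]; simp
        rw [h2, smul_add, smul_smul, inv_mul_cancel₀ hl.ne', one_smul]
        module
    obtain ⟨g3, -⟩ := side_free h' w hw p hmem g1
    exact h.nd (col g3 g1 g2)

theorem side_unique {W : Set (ℝ × ℝ)} {v p q p' q' : ℝ × ℝ} (h : FT W v p q) (h' : FT W v p' q')
    (l : ℝ) (hl : 0 < l) (hp : p' - v = l • (p - v))
    (hq : 0 < cr (p - v) (q - v) * cr (p - v) (q' - v)) : p' = p ∧ q' = q := by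
  have hpp := ray_unique h h' l hl hp
  refine ⟨hpp, ?_⟩
  subst hpp
  have hnd := h.nd
  obtain ⟨D, hD⟩ : ∃ D, D = cr (p' - v) (q - v) := ⟨_, rfl⟩
  obtain ⟨x, hx⟩ : ∃ x, x = cr (q' - v) (q - v) / D := ⟨_, rfl⟩
  obtain ⟨y, hy⟩ : ∃ y, y = cr (p' - v) (q' - v) / D := ⟨_, rfl⟩
  rw [← hD] at hnd hq
  have hy0 : 0 < y := by
    rw [hy]
    rcases lt_or_gt_of_ne hnd with h1 | h1
    · exact div_pos_of_neg_of_neg (by nlinarith) h1
    · exact div_pos (by nlinarith) h1
  have hq1 : q' = (1 - x - y) • v + x • p' + y • q := by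
    rw [hx, hy]
    refine Prod.ext ?_ ?_
    · simp only [Prod.fst_add, Prod.smul_fst, smul_eq_mul]
      field_simp
      rw [hD]
      simp only [cr, Prod.fst_sub, Prod.snd_sub]
      ring
    · simp only [Prod.snd_add, Prod.smul_snd, smul_eq_mul]
      field_simp
      rw [hD]
      simp only [cr, Prod.fst_sub, Prod.snd_sub]
      ring
  obtain ⟨e, he⟩ : ∃ e, e = 1 / (4 * (1 + |x| + |y|)) := ⟨_, rfl⟩
  have hK : 0 < 1 + |x| + |y| := by positivity
  have he0 : 0 < e := by
    rw [he]
    positivity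
  have he1 : e * (1 + |x| + |y|) = 1 / 4 := by
    rw [he]
    field_simp
  have he2 : e ≤ 1 / 4 := by
    have h1 : e * 1 ≤ e * (1 + |x| + |y|) := mul_le_mul_of_nonneg_left (by
      have := abs_nonneg x
      have := abs_nonneg y
      linarith) he0.le
    linarith
  have hm : (tri v p' q ∩ tri v p' q').Nonempty := by
    refine ⟨((1 - e) / 2) • v + ((1 - e) / 2) • p' + e • q', ?_, ?_⟩
    · refine ⟨(1 - e) / 2 + e * (1 - x - y), (1 - e) / 2 + e * x, e * y, ?_, ?_, by positivity,
        by ring, ?_⟩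
      · have h1 : e * (-(1 - x - y)) ≤ e * (1 + |x| + |y|) :=
          mul_le_mul_of_nonneg_left (by
            have := le_abs_self x
            have := le_abs_self y
            linarith) he0.le
        linarith
      · have h1 : e * (-x) ≤ e * (1 + |x| + |y|) :=
          mul_le_mul_of_nonneg_left (by
            have := neg_abs_le x
            have := abs_nonneg y
            linarith) he0.le
        linarith
      · rw [hq1]
        module
    · exact ⟨_, _, _, by linarith, by linarith, he0, by ring, rfl⟩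
  obtain ⟨-, -, -, h3⟩ := ft_unique h h' hm
  rcases h3 with h3 | h3 | h3
  · exfalso
    apply h'.nd
    rw [h3]
    simp [cr]
  · exfalso
    apply h'.nd
    rw [h3]
    simp only [cr]
    ring
  · exact h3

end Pool.ACA
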