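import Pool.Agent.Lib.MP_aca35e_co.Defs
import Pool.Agent.Lib.MP_aca35e_co.TDefs
import Pool.Agent.Lib.MP_aca35e_co.T1

/-!
# MP_aca35e_co, row T3

Chambers at a vertex and at an edge. `sector`: `linesAt W v` is finite and only finitely many lines of `W` meet a small ball around `v` (`Aff.fin`), so there is `ε > 0` such that the segment `(v, v + ε d]` meets no line of `W`
(lines through `v` are not parallel to `d`). `S3.tri` at `v + ε d`: an `FT` triangle `a b c`; by `tri_sub` it contains the half-open segment, so `v` is in the closed triangle, and by `tri_vertex` `v` is a vertex, say `v = a` (permute),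
`p = b`, `q = c`; `v + ε d` in the open triangle gives `d = α (p - v) + β (q - v)`. `edge_tri`: in the same way with a point close to `M` on the side `s` of `w` (direction `d = s • w`); `M` is in the closed triangle, not in the open one, not a
vertex (a vertex is on two lines), so in an open side, which lies on `w` (the only line through `M`); `c` is on the side `s` since the open triangle contains points on that side and does not meet `w`.
-/

set_option autoImplicit false
set_option linter.unusedVariables false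

namespace Pool.ACA

open Set Filter Topology

/-- finitely many lines of `W` meet a bounded set -/
theorem near_finite {W : Set (ℝ × ℝ)} (h : Aff W) (R : ℝ) :
    {w ∈ W | ∃ X : ℝ × ℝ, |X.1| ≤ R ∧ |X.2| ≤ R ∧ on w X}.Finite := by
  have hR : 0 < |R| + 1 := by positivity
  have hR2 : R ≤ |R| + 1 := by
    have := le_abs_self R
    linarith
  refine (h.fin (1 / (2 * (|R| + 1))) (by positivity)).subset ?_
  rintro w ⟨hw, X, h1, h2, h3⟩
  refine ⟨hw, ?_⟩
  by_contra hcon
  push Not at hcon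
  obtain ⟨c1, c2⟩ := hcon
  unfold on at h3
  have e1 : w.1 * X.1 ≤ |w.1| * (|R| + 1) := by
    calc w.1 * X.1 ≤ |w.1 * X.1| := le_abs_self _
      _ = |w.1| * |X.1| := abs_mul _ _
      _ ≤ |w.1| * (|R| + 1) := mul_le_mul_of_nonneg_left (h1.trans hR2) (abs_nonneg _)
  have e2 : w.2 * X.2 ≤ |w.2| * (|R| + 1) := by
    calc w.2 * X.2 ≤ |w.2 * X.2| := le_abs_self _
      _ = |w.2| * |X.2| := abs_mul _ _
      _ ≤ |w.2| * (|R| + 1) := mul_le_mul_of_nonneg_left (h2.trans hR2) (abs_nonneg _)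
  have e3 : |w.1| * (|R| + 1) < 1 / 2 := by
    calc |w.1| * (|R| + 1) < 1 / (2 * (|R| + 1)) * (|R| + 1) := mul_lt_mul_of_pos_right c1 hR
      _ = 1 / 2 := by field_simp
  have e4 : |w.2| * (|R| + 1) < 1 / 2 := by
    calc |w.2| * (|R| + 1) < 1 / (2 * (|R| + 1)) * (|R| + 1) := mul_lt_mul_of_pos_right c2 hR
      _ = 1 / 2 := by field_simp
  linarith

theorem linesAt_finite {W : Set (ℝ × ℝ)} (h : Aff W) (X : ℝ × ℝ) : (linesAt W X).Finite := by
  refine (near_finite h (max |X.1| |X.2|)).subset ?_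
  rintro w ⟨hw, hX⟩
  exact ⟨hw, X, le_max_left _ _, le_max_right _ _, hX⟩

/-- a short segment from `v` in a direction `d` which is not on a line of `W` meets no line of `W` -/
theorem t3_seg {W : Set (ℝ × ℝ)} (h : Aff W) (v d : ℝ × ℝ)
    (hd : ∀ u ∈ W, on u v → u.1 * d.1 + u.2 * d.2 ≠ 0) :
    ∃ ε : ℝ, 0 < ε ∧ ∀ t, 0 < t → t < ε → ∀ w ∈ W, ¬ on w (v + t • d) := by
  set R : ℝ := |v.1| + |v.2| + |d.1| + |d.2| with hR
  have hfin := near_finite h R
  have key : ∀ᶠ t in 𝓝[>] (0 : ℝ), ∀ w ∈ {w ∈ W | ∃ X : ℝ × ℝ, |X.1| ≤ R ∧ |X.2| ≤ R ∧ on w X},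
      ¬ on w (v + t • d) := by
    rw [Filter.eventually_all_finite hfin]
    rintro w ⟨hw, -⟩
    by_cases hv : on w v
    · have h1 := hd w hw hv
      filter_upwards [self_mem_nhdsWithin] with t ht hcon
      unfold on at hcon hv
      simp only [Prod.fst_add, Prod.snd_add, Prod.smul_fst, Prod.smul_snd, smul_eq_mul] at hcon
      have : t * (w.1 * d.1 + w.2 * d.2) = 0 := by linarith
      rcases mul_eq_zero.1 this with h2 | h2
      · exact (ne_of_gt (show (0 : ℝ) < t from ht)) h2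
      · exact h1 h2
    · have hc : ContinuousAt (fun t : ℝ => w.1 * (v.1 + t * d.1) + w.2 * (v.2 + t * d.2)) 0 := by
        fun_prop
      have hne : (fun t : ℝ => w.1 * (v.1 + t * d.1) + w.2 * (v.2 + t * d.2)) 0 ≠ 1 := by
        simpa [on] using hv
      have := (hc.eventually_ne hne).filter_mono (nhdsWithin_le_nhds (s := Ioi (0 : ℝ)))
      filter_upwards [this] with t ht hcon
      apply ht
      simpa [on] using hcon
  have hlt : ∀ᶠ t in 𝓝[>] (0 : ℝ), t < 1 := by
    exact (eventually_lt_nhds (zero_lt_one (α := ℝ))).filter_mono nhdsWithin_le_nhds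
  obtain ⟨ε, hε, hsub⟩ := mem_nhdsGT_iff_exists_Ioo_subset.1 (key.and hlt)
  refine ⟨ε, hε, ?_⟩
  intro t ht0 ht1 w hw hcon
  obtain ⟨h1, h2⟩ := hsub ⟨ht0, ht1⟩
  refine h1 w ⟨hw, v + t • d, ?_, ?_, hcon⟩ hcon
  · have e1 : |(v + t • d).1| ≤ |v.1| + |t * d.1| := by
      simpa using abs_add_le v.1 (t * d.1)
    have e2 : |t * d.1| ≤ |d.1| := by
      rw [abs_mul, abs_of_pos ht0]
      exact mul_le_of_le_one_left (abs_nonneg _) h2.le
    have := abs_nonneg v.2
    have := abs_nonneg d.2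
    linarith
  · have e1 : |(v + t • d).2| ≤ |v.2| + |t * d.2| := by
      simpa using abs_add_le v.2 (t * d.2)
    have e2 : |t * d.2| ≤ |d.2| := by
      rw [abs_mul, abs_of_pos ht0]
      exact mul_le_of_le_one_left (abs_nonneg _) h2.le
    have := abs_nonneg v.1
    have := abs_nonneg d.1
    linarith

/-- barycentric coordinates -/
theorem t3_coord (a b c : ℝ × ℝ) (r s t : ℝ) (hsum : r + s + t = 1) :
    cr (b - (r • a + s • b + t • c)) (c - (r • a + s • b + t • c)) = r * cr (b - a) (c - a) ∧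
    cr (c - (r • a + s • b + t • c)) (a - (r • a + s • b + t • c)) = s * cr (b - a) (c - a) ∧
    cr (a - (r • a + s • b + t • c)) (b - (r • a + s • b + t • c)) = t * cr (b - a) (c - a) := by
  have hr : r = 1 - s - t := by linarith
  subst hr
  unfold cr
  simp only [Prod.fst_add, Prod.snd_add, Prod.smul_fst, Prod.smul_snd, smul_eq_mul, Prod.fst_sub,
    Prod.snd_sub]
  refine ⟨?_, ?_, ?_⟩ <;> ring

theorem t3_repr (a b c X : ℝ × ℝ) (h : cr (b - a) (c - a) ≠ 0) :
    cr (b - X) (c - X) / cr (b - a) (c - a) + cr (c - X) (a - X) / cr (b - a) (c - a) +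
      cr (a - X) (b - X) / cr (b - a) (c - a) = 1 ∧
    X = (cr (b - X) (c - X) / cr (b - a) (c - a)) • a +
      (cr (c - X) (a - X) / cr (b - a) (c - a)) • b +
      (cr (a - X) (b - X) / cr (b - a) (c - a)) • c := by
  constructor
  · rw [← add_div, ← add_div, div_eq_one_iff_eq h]
    unfold cr
    simp only [Prod.fst_sub, Prod.snd_sub]
    ring
  · ext
    · simp only [Prod.fst_add, Prod.smul_fst, smul_eq_mul]
      rw [div_mul_eq_mul_div, div_mul_eq_mul_div, div_mul_eq_mul_div, ← add_div, ← add_div,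
        eq_div_iff h]
      unfold cr
      simp only [Prod.fst_sub, Prod.snd_sub]
      ring
    · simp only [Prod.snd_add, Prod.smul_snd, smul_eq_mul]
      rw [div_mul_eq_mul_div, div_mul_eq_mul_div, div_mul_eq_mul_div, ← add_div, ← add_div,
        eq_div_iff h]
      unfold cr
      simp only [Prod.fst_sub, Prod.snd_sub]
      ring

/-- a limit of points of the open triangle is in the closed triangle -/
theorem t3_lim {a b c v d : ℝ × ℝ} (h : cr (b - a) (c - a) ≠ 0) (ε : ℝ) (hε : 0 < ε)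
    (hs : ∀ t, 0 < t → t < ε → v + t • d ∈ tri a b c) : v ∈ ctri a b c := by
  have hev : ∀ᶠ t in 𝓝[>] (0 : ℝ), v + t • d ∈ tri a b c := by
    filter_upwards [Ioo_mem_nhdsGT hε] with t ht
    exact hs t ht.1 ht.2
  obtain ⟨hsum, hX⟩ := t3_repr a b c v h
  refine ⟨_, _, _, ?_, ?_, ?_, hsum, hX⟩
  · have hc : Tendsto (fun t : ℝ => cr (b - (v + t • d)) (c - (v + t • d)) / cr (b - a) (c - a))
        (𝓝[>] 0) (𝓝 (cr (b - v) (c - v) / cr (b - a) (c - a))) := by
      have : ContinuousAt (fun t : ℝ => cr (b - (v + t • d)) (c - (v + t • d)) /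
          cr (b - a) (c - a)) 0 := by
        unfold cr
        simp only [Prod.fst_add, Prod.snd_add, Prod.smul_fst, Prod.smul_snd, smul_eq_mul,
          Prod.fst_sub, Prod.snd_sub]
        fun_prop
      have h2 := this.tendsto.mono_left (nhdsWithin_le_nhds (s := Ioi (0 : ℝ)))
      simpa using h2
    refine ge_of_tendsto hc ?_
    filter_upwards [hev] with t ht
    obtain ⟨r, s, u, hr, hs', hu, hsum', hX'⟩ := ht
    rw [hX', (t3_coord a b c r s u hsum').1, mul_div_cancel_right₀ _ h]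
    exact hr.le
  · have hc : Tendsto (fun t : ℝ => cr (c - (v + t • d)) (a - (v + t • d)) / cr (b - a) (c - a))
        (𝓝[>] 0) (𝓝 (cr (c - v) (a - v) / cr (b - a) (c - a))) := by
      have : ContinuousAt (fun t : ℝ => cr (c - (v + t • d)) (a - (v + t • d)) /
          cr (b - a) (c - a)) 0 := by
        unfold cr
        simp only [Prod.fst_add, Prod.snd_add, Prod.smul_fst, Prod.smul_snd, smul_eq_mul,
          Prod.fst_sub, Prod.snd_sub]
        fun_prop
      have h2 := this.tendsto.mono_left (nhdsWithin_le_nhds (s := Ioi (0 : ℝ)))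
      simpa using h2
    refine ge_of_tendsto hc ?_
    filter_upwards [hev] with t ht
    obtain ⟨r, s, u, hr, hs', hu, hsum', hX'⟩ := ht
    rw [hX', (t3_coord a b c r s u hsum').2.1, mul_div_cancel_right₀ _ h]
    exact hs'.le
  · have hc : Tendsto (fun t : ℝ => cr (a - (v + t • d)) (b - (v + t • d)) / cr (b - a) (c - a))
        (𝓝[>] 0) (𝓝 (cr (a - v) (b - v) / cr (b - a) (c - a))) := by
      have : ContinuousAt (fun t : ℝ => cr (a - (v + t • d)) (b - (v + t • d)) /
          cr (b - a) (c - a)) 0 := by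
        unfold cr
        simp only [Prod.fst_add, Prod.snd_add, Prod.smul_fst, Prod.smul_snd, smul_eq_mul,
          Prod.fst_sub, Prod.snd_sub]
        fun_prop
      have h2 := this.tendsto.mono_left (nhdsWithin_le_nhds (s := Ioi (0 : ℝ)))
      simpa using h2
    refine ge_of_tendsto hc ?_
    filter_upwards [hev] with t ht
    obtain ⟨r, s, u, hr, hs', hu, hsum', hX'⟩ := ht
    rw [hX', (t3_coord a b c r s u hsum').2.2, mul_div_cancel_right₀ _ h]
    exact hu.le

/-- the chamber into which the direction `d` at `v` points -/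
theorem t3_main {W : Set (ℝ × ℝ)} (h : S3 W) (v d : ℝ × ℝ)
    (hd : ∀ u ∈ W, on u v → u.1 * d.1 + u.2 * d.2 ≠ 0) :
    ∃ a b c : ℝ × ℝ, FT W a b c ∧ v ∈ ctri a b c ∧
      ∃ ε : ℝ, 0 < ε ∧ ∀ t, 0 < t → t < ε → v + t • d ∈ tri a b c := by
  obtain ⟨ε, hε, hseg⟩ := t3_seg h.aff v d hd
  obtain ⟨a, b, c, hin, hnd, hfree, wa, hwa, wb, hwb, wc, hwc, h1, h2, h3, h4, h5, h6⟩ :=
    h.tri (v + (ε / 2) • d) (hseg (ε / 2) (by positivity) (by linarith))
  have hFT : FT W a b c := ⟨hnd, hfree, ⟨wa, hwa, h1, h2⟩, ⟨wb, hwb, h3, h4⟩, ⟨wc, hwc, h5, h6⟩⟩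
  have hS : IsPreconnected ((fun t : ℝ => v + t • d) '' Ioo 0 ε) :=
    isPreconnected_Ioo.image _ (by fun_prop)
  have hsub := tri_sub hFT ((fun t : ℝ => v + t • d) '' Ioo 0 ε) hS
    (by
      rintro w hw X ⟨t, ht, rfl⟩
      exact hseg t ht.1 ht.2 w hw)
    ⟨v + (ε / 2) • d, ⟨ε / 2, ⟨by positivity, by linarith⟩, rfl⟩, hin⟩
  have hall : ∀ t, 0 < t → t < ε → v + t • d ∈ tri a b c := fun t h0 h1 =>
    hsub ⟨t, ⟨h0, h1⟩, rfl⟩
  exact ⟨a, b, c, hFT, t3_lim hnd ε hε hall, ε, hε, hall⟩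

/-- direction `d` in the cone of the triangle at `v` -/
theorem t3_cone {v p q d : ℝ × ℝ} (t : ℝ) (ht : 0 < t) (h : v + t • d ∈ tri v p q) :
    ∃ α β : ℝ, 0 < α ∧ 0 < β ∧ d = α • (p - v) + β • (q - v) := by
  obtain ⟨r, s, u, hr, hs, hu, hsum, hX⟩ := h
  refine ⟨s / t, u / t, by positivity, by positivity, ?_⟩
  have hr' : r = 1 - s - u := by linarith
  subst hr'
  have hx1 := congrArg Prod.fst hX
  have hx2 := congrArg Prod.snd hX
  simp only [Prod.fst_add, Prod.snd_add, Prod.smul_fst, Prod.smul_snd, smul_eq_mul] at hx1 hx2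
  ext
  · simp only [Prod.fst_add, Prod.smul_fst, smul_eq_mul, Prod.fst_sub]
    field_simp
    linarith
  · simp only [Prod.snd_add, Prod.smul_snd, smul_eq_mul, Prod.snd_sub]
    field_simp
    linarith

theorem sector {W : Set (ℝ × ℝ)} (h : S3 W) (v w w' d : ℝ × ℝ) (hw : w ∈ W) (hw' : w' ∈ W)
    (hne : w ≠ w') (h1 : on w v) (h2 : on w' v)
    (hd : ∀ u ∈ W, on u v → u.1 * d.1 + u.2 * d.2 ≠ 0) :
    ∃ p q : ℝ × ℝ, FT W v p q ∧ ∃ α β : ℝ, 0 < α ∧ 0 < β ∧ d = α • (p - v) + β • (q - v) := by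
  obtain ⟨a, b, c, hFT, hv, ε, hε, hall⟩ := t3_main h v d hd
  have hh := hall (ε / 2) (by positivity) (by linarith)
  rcases tri_vertex hFT v hv w w' hw hw' hne h1 h2 with rfl | rfl | rfl
  · exact ⟨b, c, hFT, t3_cone (ε / 2) (by positivity) hh⟩
  · refine ⟨a, c, hFT.perm1, t3_cone (ε / 2) (by positivity) ?_⟩
    rw [← tri_perm1]
    exact hh
  · refine ⟨a, b, hFT.perm2.perm1, t3_cone (ε / 2) (by positivity) ?_⟩
    rw [← tri_perm1, ← tri_perm2]
    exact hh

/-- the side lines of a nondegenerate triangle are different -/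
theorem t3_side_ne {w w' a b c : ℝ × ℝ} (hnd : cr (b - a) (c - a) ≠ 0) (h1 : on w a) (h2 : on w b)
    (h3 : on w' a) (h4 : on w' c) : w ≠ w' := by
  rintro rfl
  unfold on at h1 h2 h3 h4
  apply hnd
  have e1 : w.1 * (b.1 - a.1) + w.2 * (b.2 - a.2) = 0 := by linarith
  have e2 : w.1 * (c.1 - a.1) + w.2 * (c.2 - a.2) = 0 := by linarith
  unfold cr
  simp only [Prod.fst_sub, Prod.snd_sub]
  by_cases hw1 : w.1 = 0
  · by_cases hw2 : w.2 = 0
    · rw [hw1, hw2] at h1
      norm_num at h1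
    · rw [hw1, zero_mul, zero_add] at e1 e2
      have e3 : b.2 - a.2 = 0 := by
        rcases mul_eq_zero.1 e1 with h | h
        · exact absurd h hw2
        · exact h
      have e4 : c.2 - a.2 = 0 := by
        rcases mul_eq_zero.1 e2 with h | h
        · exact absurd h hw2
        · exact h
      rw [e3, e4]
      ring
  · have : w.1 * ((b.1 - a.1) * (c.2 - a.2) - (b.2 - a.2) * (c.1 - a.1)) = 0 := by
      linear_combination (c.2 - a.2) * e1 - (b.2 - a.2) * e2
    rcases mul_eq_zero.1 this with h | h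
    · exact absurd h hw1
    · exact h

/-- the last step of `edge_tri`: `M` has third coordinate `0` -/
theorem t3_edge {W : Set (ℝ × ℝ)} (w M : ℝ × ℝ) (hM : on w M)
    (hM' : ∀ u ∈ W, on u M → u = w) (s : ℝ) (hs : s = 1 ∨ s = -1) {a b c : ℝ × ℝ}
    (hFT : FT W a b c) (r r' : ℝ) (hr : 0 < r) (hr' : 0 < r') (hsum : r + r' = 1)
    (hX : M = r • a + r' • b) (ε : ℝ) (hε : 0 < ε) (hh : M + ε • (s • w) ∈ tri a b c) :
    ∃ p q c : ℝ × ℝ, FT W p q c ∧ on w p ∧ on w q ∧ M ∈ openSegment ℝ p q ∧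
      0 < s * (w.1 * c.1 + w.2 * c.2 - 1) := by
  obtain ⟨w', hw', h1, h2⟩ := hFT.sc
  have hw'M : on w' M := by
    unfold on at h1 h2 ⊢
    rw [hX]
    simp only [Prod.fst_add, Prod.snd_add, Prod.smul_fst, Prod.smul_snd, smul_eq_mul]
    linear_combination r * h1 + r' * h2 + hsum
  have hww := hM' w' hw' hw'M
  subst hww
  refine ⟨a, b, c, hFT, h1, h2, ⟨r, r', hr, hr', hsum, hX.symm⟩, ?_⟩
  obtain ⟨x, y, z, hx, hy, hz, hxyz, hX'⟩ := hh
  have hx1 := congrArg Prod.fst hX'
  have hx2 := congrArg Prod.snd hX'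
  simp only [Prod.fst_add, Prod.snd_add, Prod.smul_fst, Prod.smul_snd, smul_eq_mul] at hx1 hx2
  unfold on at h1 h2 hM
  have hw0 : 0 < w'.1 ^ 2 + w'.2 ^ 2 := by
    by_contra hcon
    push Not at hcon
    have e1 : w'.1 ^ 2 = 0 := le_antisymm (by nlinarith [sq_nonneg w'.2]) (sq_nonneg _)
    have e2 : w'.2 ^ 2 = 0 := le_antisymm (by nlinarith [sq_nonneg w'.1]) (sq_nonneg _)
    have e3 : w'.1 = 0 := by simpa using e1
    have e4 : w'.2 = 0 := by simpa using e2
    rw [e3, e4] at h1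
    norm_num at h1
  have key : ε * s * (w'.1 ^ 2 + w'.2 ^ 2) = z * (w'.1 * c.1 + w'.2 * c.2 - 1) := by
    have hxx : x = 1 - y - z := by linarith
    subst hxx
    linear_combination w'.1 * hx1 + w'.2 * hx2 - hM + (1 - y - z) * h1 + y * h2
  have hs2 : s * s = 1 := by
    rcases hs with rfl | rfl <;> norm_num
  have key2 : z * (s * (w'.1 * c.1 + w'.2 * c.2 - 1)) = ε * (w'.1 ^ 2 + w'.2 ^ 2) := by
    linear_combination (-s) * key + ε * (w'.1 ^ 2 + w'.2 ^ 2) * hs2
  have hpos : 0 < z * (s * (w'.1 * c.1 + w'.2 * c.2 - 1)) := by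
    rw [key2]
    positivity
  exact (mul_pos_iff_of_pos_left hz).1 hpos

theorem edge_tri {W : Set (ℝ × ℝ)} (h : S3 W) (w M : ℝ × ℝ) (hw : w ∈ W) (hM : on w M)
    (hM' : ∀ u ∈ W, on u M → u = w) (s : ℝ) (hs : s = 1 ∨ s = -1) :
    ∃ p q c : ℝ × ℝ, FT W p q c ∧ on w p ∧ on w q ∧ M ∈ openSegment ℝ p q ∧
      0 < s * (w.1 * c.1 + w.2 * c.2 - 1) := by
  have hs0 : s ≠ 0 := by rcases hs with rfl | rfl <;> norm_num
  have hw0 : w.1 ^ 2 + w.2 ^ 2 ≠ 0 := by
    intro hcon
    have e1 : w.1 ^ 2 = 0 := le_antisymm (by nlinarith [sq_nonneg w.2]) (sq_nonneg _)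
    have e2 : w.2 ^ 2 = 0 := le_antisymm (by nlinarith [sq_nonneg w.1]) (sq_nonneg _)
    have e3 : w.1 = 0 := by simpa using e1
    have e4 : w.2 = 0 := by simpa using e2
    unfold on at hM
    rw [e3, e4] at hM
    norm_num at hM
  obtain ⟨a, b, c, hFT, hv, ε, hε, hall⟩ := t3_main h M (s • w) (by
    intro u hu huM
    rw [hM' u hu huM]
    simp only [Prod.smul_fst, Prod.smul_snd, smul_eq_mul]
    intro hcon
    apply hw0
    have : s * (w.1 ^ 2 + w.2 ^ 2) = 0 := by linear_combination hcon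
    rcases mul_eq_zero.1 this with h | h
    · exact absurd h hs0
    · exact h)
  have hh := hall (ε / 2) (by positivity) (by linarith)
  have hε2 : 0 < ε / 2 := by positivity
  -- `M` is not a vertex
  have nota : ∀ {a b c : ℝ × ℝ}, FT W a b c → M ≠ a := by
    rintro a b c hF rfl
    obtain ⟨w₁, hw₁, g1, g2⟩ := hF.sc
    obtain ⟨w₂, hw₂, g3, g4⟩ := hF.sb
    exact t3_side_ne hF.nd g1 g2 g3 g4 ((hM' w₁ hw₁ g1).trans (hM' w₂ hw₂ g3).symm)
  obtain ⟨x, y, z, hx, hy, hz, hxyz, hX⟩ := hv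
  rcases hx.eq_or_lt with hx0 | hx0
  · -- `x = 0`: side `b c`
    subst hx0
    have hX' : M = y • b + z • c := by rw [hX]; simp
    have hyz : y + z = 1 := by linarith
    have hy0 : 0 < y := by
      rcases hy.eq_or_lt with h0 | h0
      · exfalso
        subst h0
        have hz1 : z = 1 := by linarith
        subst hz1
        exact nota (a := c) (b := a) (c := b) hFT.perm2.perm1 (by rw [hX']; simp)
      · exact h0
    have hz0 : 0 < z := by
      rcases hz.eq_or_lt with h0 | h0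
      · exfalso
        subst h0
        have hy1 : y = 1 := by linarith
        subst hy1
        exact nota (a := b) (b := a) (c := c) hFT.perm1 (by rw [hX']; simp)
      · exact h0
    refine t3_edge w M hM hM' s hs (a := b) (b := c) (c := a) hFT.perm1.perm2 y z hy0 hz0 hyz hX'
      (ε / 2) hε2 ?_
    rw [tri_perm2, ← tri_perm1]
    exact hh
  · rcases hy.eq_or_lt with hy0 | hy0
    · -- `y = 0`: side `a c`
      subst hy0
      have hX' : M = x • a + z • c := by rw [hX]; simp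
      have hxz : x + z = 1 := by linarith
      have hz0 : 0 < z := by
        rcases hz.eq_or_lt with h0 | h0
        · exfalso
          subst h0
          have hx1 : x = 1 := by linarith
          subst hx1
          exact nota hFT (by rw [hX']; simp)
        · exact h0
      refine t3_edge w M hM hM' s hs (a := a) (b := c) (c := b) hFT.perm2 x z hx0 hz0 hxz hX'
        (ε / 2) hε2 ?_
      rw [tri_perm2]
      exact hh
    · rcases hz.eq_or_lt with hz0 | hz0
      · subst hz0
        have hX' : M = x • a + y • b := by rw [hX]; simp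
        have hxy : x + y = 1 := by linarith
        exact t3_edge w M hM hM' s hs (a := a) (b := b) (c := c) hFT x y hx0 hy0 hxy hX'
          (ε / 2) hε2 hh
      · exfalso
        exact hFT.free w hw M ⟨x, y, z, hx0, hy0, hz0, hxyz, hX⟩ hM

end Pool.ACA
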