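import Pool.Agent.Lib.MP_aca35e_co.Defs
import Pool.Agent.Lib.MP_aca35e_co.TDefs
import Pool.Agent.Lib.MP_aca35e_co.T1
import Pool.Agent.Lib.MP_aca35e_co.T2
import Pool.Agent.Lib.MP_aca35e_co.T3

/-!
# MP_aca35e_co, row T9

Two neighbouring triangles on a line. `T = (p, q, c)`, `T' = (q, q', c')` are chambers with `p, q, q'` on `w`, `q` between `p` and `q'`, `c, c'` on the same side of `w`; `q`, `c` (and for the last claim `c'`) have exactly three lines. Then there is `e ∈ W` through `c` and `c'` which is none of the side lines.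
Proof: let `z ∋ q, c` and `y' ∋ q, c'` be side lines. If `z = y'` the third line at `q` would enter `T` or `T'` near `q`. So `z ≠ y'`, the lines at `q` are `w, z, y'`. `sector` (T3) at `q` with `d = (c - q) + (c' - q)`: no line through `q` is parallel to `d` (`w` is not: `c, c'` on the same side; `z, y'` are not),
`FT W q g g'` with `d` in the open cone of `g - q`, `g' - q`; the side lines at `q` are among `w, z, y'` and do not separate, so `g` is on the ray `q c` and `g'` on the ray `q c'` (or exchanged). By `ray_unique` (T2) `g = c`, `g' = c'`. So the third side of this chamber `M` lies on `e ∈ W`, `e ∋ c, c'`, `e` does not contain `q`.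
If `e` contains `p` (i.e. `e` is the side line `y ∋ p, c`), then at `c` the rays to `p` and to `c'` are opposite; the third line at `c` (not `y = e`, not `z`) enters the chamber `T` (cone of `p - c`, `q - c`) or the chamber `M` (cone of `q - c`, `c' - c = - λ (p - c)`): contradiction to `free`. In the same way `e` does not contain `q'` when `c'` is triple.
-/

set_option autoImplicit false
set_option linter.unusedVariables false

namespace Pool.ACA

open Set Filter Topology

private lemma t9_unique {u v a b : ℝ × ℝ} (hab : a ≠ b) (h1 : on u a) (h2 : on u b) (h3 : on v a)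
    (h4 : on v b) : u = v := by
  unfold on at h1 h2 h3 h4
  have hD : a.1 * b.2 - a.2 * b.1 ≠ 0 := by
    intro hD
    apply hab
    have e1 : a.1 = b.1 := by
      linear_combination (-a.1) * h2 + b.1 * h1 + u.2 * hD
    have e2 : a.2 = b.2 := by
      linear_combination (-a.2) * h2 + b.2 * h1 - u.1 * hD
    exact Prod.ext e1 e2
  have e1 : (u.1 - v.1) * (a.1 * b.2 - a.2 * b.1) = 0 := by
    linear_combination b.2 * h1 - b.2 * h3 - a.2 * h2 + a.2 * h4
  have e2 : (u.2 - v.2) * (a.1 * b.2 - a.2 * b.1) = 0 := by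
    linear_combination (-b.1) * h1 + b.1 * h3 + a.1 * h2 - a.1 * h4
  rcases mul_eq_zero.1 e1 with h | h
  · rcases mul_eq_zero.1 e2 with h' | h'
    · exact Prod.ext (by linarith) (by linarith)
    · exact absurd h' hD
  · exact absurd h hD

private lemma t9_hit {W : Set (ℝ × ℝ)} {v p q : ℝ × ℝ} (h : FT W v p q) {u : ℝ × ℝ} (hu : u ∈ W)
    (huv : on u v) (d : ℝ × ℝ) (hd : u.1 * d.1 + u.2 * d.2 = 0) (α β : ℝ) (hα : 0 < α) (hβ : 0 < β)
    (hd1 : d.1 = α * (p.1 - v.1) + β * (q.1 - v.1)) (hd2 : d.2 = α * (p.2 - v.2) + β * (q.2 - v.2)) :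
    False := by
  have hs : 0 < α + β := by linarith
  have hne : α + β ≠ 0 := ne_of_gt hs
  set ε : ℝ := 1 / (2 * (α + β)) with hε
  have hεpos : 0 < ε := by positivity
  have hεs : ε * (α + β) = 1 / 2 := by
    rw [hε]; field_simp
  refine h.free u hu (v.1 + ε * d.1, v.2 + ε * d.2) ?_ ?_
  · refine ⟨1 / 2, ε * α, ε * β, by norm_num, by positivity, by positivity, ?_, ?_⟩
    · linarith
    · refine Prod.ext ?_ ?_
      · simp only [Prod.fst_add, Prod.smul_fst, smul_eq_mul]
        rw [hd1]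
        linear_combination (-v.1) * hεs
      · simp only [Prod.snd_add, Prod.smul_snd, smul_eq_mul]
        rw [hd2]
        linear_combination (-v.2) * hεs
  · unfold on at huv ⊢
    linear_combination huv + ε * hd

/-- a line `u` with `u · A = 0` and `u · B = 0` -/
private lemma t9_par {u A B : ℝ × ℝ} (hu : u ≠ (0, 0)) (hA : u.1 * A.1 + u.2 * A.2 = 0)
    (hB : u.1 * B.1 + u.2 * B.2 = 0) : cr A B = 0 := by
  unfold cr
  by_contra hne
  apply hu
  have e1 : u.1 * (A.1 * B.2 - A.2 * B.1) = 0 := by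
    linear_combination B.2 * hA - A.2 * hB
  have e2 : u.2 * (A.1 * B.2 - A.2 * B.1) = 0 := by
    linear_combination (-B.1) * hA + A.1 * hB
  rcases mul_eq_zero.1 e1 with h | h
  · rcases mul_eq_zero.1 e2 with h' | h'
    · exact Prod.ext h h'
    · exact absurd h' hne
  · exact absurd h hne

private lemma t9_smul {A B : ℝ × ℝ} (hA : A ≠ (0, 0)) (h : cr A B = 0) :
    ∃ s : ℝ, B.1 = s * A.1 ∧ B.2 = s * A.2 := by
  unfold cr at h
  by_cases h1 : A.1 = 0
  · have h2 : A.2 ≠ 0 := by
      intro h2; exact hA (Prod.ext h1 h2)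
    refine ⟨B.2 / A.2, ?_, ?_⟩
    · have : A.2 * B.1 = 0 := by rw [h1] at h; linarith
      rcases mul_eq_zero.1 this with h3 | h3
      · exact absurd h3 h2
      · rw [h3, h1]; ring
    · field_simp
  · refine ⟨B.1 / A.1, ?_, ?_⟩
    · field_simp
    · field_simp
      linarith

private lemma t9_ne {u a : ℝ × ℝ} (h : on u a) : u ≠ (0, 0) := by
  intro h0
  unfold on at h
  rw [h0] at h
  simp at h

private lemma t9_third {W : Set (ℝ × ℝ)} {v a b a' b' : ℝ × ℝ} (h : FT W v a b) (h' : FT W v b' a')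
    (l m : ℝ) (hl : 0 < l) (hm : 0 < m) (hb1 : b'.1 - v.1 = m * (b.1 - v.1))
    (hb2 : b'.2 - v.2 = m * (b.2 - v.2)) (ha1 : a'.1 - v.1 = -l * (a.1 - v.1))
    (ha2 : a'.2 - v.2 = -l * (a.2 - v.2)) (u : ℝ × ℝ) (hu : u ∈ W) (huv : on u v) :
    u.1 * (a.1 - v.1) + u.2 * (a.2 - v.2) = 0 ∨ u.1 * (b.1 - v.1) + u.2 * (b.2 - v.2) = 0 := by
  by_contra hcon
  rw [not_or] at hcon
  obtain ⟨hA, hB⟩ := hcon
  set S : ℝ := u.1 * (a.1 - v.1) + u.2 * (a.2 - v.2) with hS
  set R : ℝ := u.1 * (b.1 - v.1) + u.2 * (b.2 - v.2) with hR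
  -- direction d = R • A - S • B or its negative
  have key : ∀ x y : ℝ, 0 < y → x ≠ 0 → x * S + y * R = 0 → False := by
    intro x y hy hx hxy
    rcases lt_or_gt_of_ne hx with hx' | hx'
    · refine t9_hit h' hu huv (x * (a.1 - v.1) + y * (b.1 - v.1), x * (a.2 - v.2) + y * (b.2 - v.2))
        ?_ (y / m) (-x / l) (by positivity) (div_pos (by linarith) hl) ?_ ?_
      · simp only
        rw [hS, hR] at hxy
        linear_combination hxy
      · simp only
        rw [hb1, ha1]
        field_simp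
        ring
      · simp only
        rw [hb2, ha2]
        field_simp
        ring
    · refine t9_hit h hu huv (x * (a.1 - v.1) + y * (b.1 - v.1), x * (a.2 - v.2) + y * (b.2 - v.2))
        ?_ x y hx' hy ?_ ?_
      · simp only
        rw [hS, hR] at hxy
        linear_combination hxy
      · simp only
      · simp only
  rcases lt_or_gt_of_ne hA with hA' | hA'
  · exact key R (-S) (by linarith) hB (by ring)
  · exact key (-R) S hA' (neg_ne_zero.2 hB) (by ring)

private lemma t9_three {W : Set (ℝ × ℝ)} {v a b a' b' : ℝ × ℝ} (h : FT W v a b) (h' : FT W v b' a')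
    (l m : ℝ) (hl : 0 < l) (hm : 0 < m) (hb1 : b'.1 - v.1 = m * (b.1 - v.1))
    (hb2 : b'.2 - v.2 = m * (b.2 - v.2)) (ha1 : a'.1 - v.1 = -l * (a.1 - v.1))
    (ha2 : a'.2 - v.2 = -l * (a.2 - v.2)) (h3 : (linesAt W v).ncard = 3) : False := by
  have nd := h.nd
  obtain ⟨u1, hu1, h11, h12⟩ := h.sc
  obtain ⟨u2, hu2, h21, h22⟩ := h.sb
  have hva : v ≠ a := by
    rintro rfl
    apply nd
    simp [cr]
  have hvb : v ≠ b := by
    rintro rfl
    apply nd
    simp [cr]
  have hsub : linesAt W v ⊆ {u1, u2} := by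
    rintro u ⟨hu, huv⟩
    rcases t9_third h h' l m hl hm hb1 hb2 ha1 ha2 u hu huv with h0 | h0
    · left
      refine t9_unique hva huv ?_ h11 h12
      unfold on at huv ⊢
      linarith
    · right
      refine t9_unique hvb huv ?_ h21 h22
      unfold on at huv ⊢
      linarith
  have h4 := Set.ncard_le_ncard hsub (Set.toFinite _)
  have h5 : ({u1, u2} : Set (ℝ × ℝ)).ncard ≤ 2 := Set.ncard_insert_le _ _ |>.trans (by simp)
  omega

private lemma t9_alg1 (a x s α β P C C' G' : ℝ) (hk : a + 1 ≠ 0) (hs : s ≠ 0)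
    (h1 : C' = x * P + a * C) (h2 : C + C' = α * (s * P) + β * G') :
    C' = ((a * α * s + x) / (s * (a + 1))) * (s * P) + (a * β / (a + 1)) * G' := by
  have e : (a + 1) * C' = (a * α * s + x) * P + a * β * G' := by
    linear_combination a * h2 + h1
  have e2 : ((a * α * s + x) / (s * (a + 1))) * (s * P) + (a * β / (a + 1)) * G'
      = ((a * α * s + x) * P + a * β * G') / (a + 1) := by
    field_simp
  rw [e2, ← e]
  field_simp

private lemma t9_alg2 (a x s α β P C C' G' : ℝ) (hk : a + 1 ≠ 0) (hs : s ≠ 0)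
    (h1 : C' = x * P + a * C) (h2 : C + C' = α * (s * P) + β * G') :
    C = ((α * s - x) / (s * (a + 1))) * (s * P) + (β / (a + 1)) * G' := by
  have e : (a + 1) * C = (α * s - x) * P + β * G' := by
    linear_combination h2 - h1
  have e2 : ((α * s - x) / (s * (a + 1))) * (s * P) + (β / (a + 1)) * G'
      = ((α * s - x) * P + β * G') / (a + 1) := by
    field_simp
  rw [e2, ← e]
  field_simp

theorem two_tri {W : Set (ℝ × ℝ)} (h : S3 W) (w p q q' c c' : ℝ × ℝ) (hw : w ∈ W)
    (hp : on w p) (hq : on w q) (hq' : on w q') (hb : q ∈ openSegment ℝ p q') (h1 : FT W p q c)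
    (h2 : FT W q q' c') (hs : 0 < (w.1 * c.1 + w.2 * c.2 - 1) * (w.1 * c'.1 + w.2 * c'.2 - 1))
    (tq : (linesAt W q).ncard = 3) (tc : (linesAt W c).ncard = 3)
    (tc' : (linesAt W c').ncard = 3) :
    ∃ e ∈ W, on e c ∧ on e c' ∧ ¬ on e p ∧ ¬ on e q ∧ ¬ on e q' := by
  -- opposite rays on `w`
  obtain ⟨θ, θ', hθ, hθ', hθs, hθq⟩ := hb
  have hq1 : q.1 = θ * p.1 + θ' * q'.1 := by rw [← hθq]; simp
  have hq2 : q.2 = θ * p.2 + θ' * q'.2 := by rw [← hθq]; simp
  obtain ⟨lam, hlam, hQ1, hQ2⟩ : ∃ lam : ℝ, 0 < lam ∧ q'.1 - q.1 = -lam * (p.1 - q.1) ∧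
      q'.2 - q.2 = -lam * (p.2 - q.2) := by
    refine ⟨θ / θ', by positivity, ?_, ?_⟩
    · field_simp
      have : θ = 1 - θ' := by linarith
      rw [this] at hq1 ⊢
      linear_combination (-1 : ℝ) * hq1
    · field_simp
      have : θ = 1 - θ' := by linarith
      rw [this] at hq2 ⊢
      linear_combination (-1 : ℝ) * hq2
  obtain ⟨z, hz, hzq, hzc⟩ := h1.sa
  obtain ⟨y, hy, hyq, hyc⟩ := h2.sb
  have w0 : w ≠ (0, 0) := t9_ne hq
  have z0 : z ≠ (0, 0) := t9_ne hzq
  have y0 : y ≠ (0, 0) := t9_ne hyq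
  have hwc : w.1 * c.1 + w.2 * c.2 - 1 ≠ 0 := by
    intro h0; rw [h0] at hs; simp at hs
  have hwc' : w.1 * c'.1 + w.2 * c'.2 - 1 ≠ 0 := by
    intro h0; rw [h0] at hs; simp at hs
  unfold on at hp hq hq' hzq hzc hyq hyc
  have nd1 := h1.nd
  unfold cr at nd1
  simp only [Prod.fst_sub, Prod.snd_sub] at nd1
  -- `cr P C ≠ 0`
  have hPC : (p.1 - q.1) * (c.2 - q.2) - (p.2 - q.2) * (c.1 - q.1) ≠ 0 := by
    intro h0; apply nd1; linear_combination (-1 : ℝ) * h0
  set Δ : ℝ := (p.1 - q.1) * (c.2 - q.2) - (p.2 - q.2) * (c.1 - q.1) with hΔ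
  have hqpc : FT W q p c := h1.perm1
  have hqcp : FT W q c p := hqpc.perm2
  have hqc'q' : FT W q c' q' := h2.perm2
  -- C' = x P + y C
  obtain ⟨x, a, hx1, hx2⟩ : ∃ x a : ℝ, c'.1 - q.1 = x * (p.1 - q.1) + a * (c.1 - q.1) ∧
      c'.2 - q.2 = x * (p.2 - q.2) + a * (c.2 - q.2) := by
    refine ⟨((c'.1 - q.1) * (c.2 - q.2) - (c'.2 - q.2) * (c.1 - q.1)) / Δ,
      ((p.1 - q.1) * (c'.2 - q.2) - (p.2 - q.2) * (c'.1 - q.1)) / Δ, ?_, ?_⟩
    · field_simp
      rw [hΔ]; ring
    · field_simp
      rw [hΔ]; ring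
  have ha : 0 < a := by
    have e : w.1 * c'.1 + w.2 * c'.2 - 1 = a * (w.1 * c.1 + w.2 * c.2 - 1) := by
      linear_combination w.1 * hx1 + w.2 * hx2 + x * hp + (1 - x - a) * hq
    rw [e] at hs
    by_contra hna
    have h0 : a ≤ 0 := not_lt.1 hna
    have h2 := mul_nonpos_of_nonpos_of_nonneg h0 (mul_self_nonneg (w.1 * c.1 + w.2 * c.2 - 1))
    have h3 : (w.1 * c.1 + w.2 * c.2 - 1) * (a * (w.1 * c.1 + w.2 * c.2 - 1))
      = a * ((w.1 * c.1 + w.2 * c.2 - 1) * (w.1 * c.1 + w.2 * c.2 - 1)) := by ring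
    rw [h3] at hs
    exact absurd hs (not_lt.2 h2)
  have hxne : x ≠ 0 := by
    intro hx0
    rw [hx0] at hx1 hx2
    exact t9_three hqpc hqc'q' lam a hlam ha (by linarith) (by linarith) hQ1 hQ2 tq
  have hyC' : y.1 * (c'.1 - q.1) + y.2 * (c'.2 - q.2) = 0 := by linarith
  have hzC : z.1 * (c.1 - q.1) + z.2 * (c.2 - q.2) = 0 := by linarith
  have hx : x < 0 := by
    rcases lt_or_gt_of_ne hxne with h' | h'
    · exact h'
    · exact absurd (t9_hit hqpc hy (by unfold on; exact hyq) (c'.1 - q.1, c'.2 - q.2)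
        (by simpa using hyC') x a h' ha (by simpa using hx1) (by simpa using hx2)) not_false
  -- `cr C C' ≠ 0`
  have hCC : (c.1 - q.1) * (c'.2 - q.2) - (c.2 - q.2) * (c'.1 - q.1) ≠ 0 := by
    rw [hx1, hx2]
    intro h0
    have : x * Δ = 0 := by rw [hΔ]; linear_combination (-1 : ℝ) * h0
    rcases mul_eq_zero.1 this with h' | h'
    · exact hxne h'
    · exact hPC h'
  have hzC' : z.1 * (c'.1 - q.1) + z.2 * (c'.2 - q.2) ≠ 0 := by
    intro h0
    apply hCC
    have := t9_par (A := (c.1 - q.1, c.2 - q.2)) (B := (c'.1 - q.1, c'.2 - q.2)) z0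
      (by simpa using hzC) (by simpa using h0)
    unfold cr at this
    simpa using this
  have hyC : y.1 * (c.1 - q.1) + y.2 * (c.2 - q.2) ≠ 0 := by
    intro h0
    apply hCC
    have := t9_par (A := (c.1 - q.1, c.2 - q.2)) (B := (c'.1 - q.1, c'.2 - q.2)) y0
      (by simpa using h0) (by simpa using hyC')
    unfold cr at this
    simpa using this
  have hwz : w ≠ z := by
    rintro rfl; apply hwc; linarith
  have hwy : w ≠ y := by
    rintro rfl; apply hwc'; linarith
  have hzy : z ≠ y := by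
    rintro rfl; exact hzC' hyC'
  -- the lines at `q`
  have hlines : ∀ u ∈ W, on u q → u = w ∨ u = z ∨ u = y := by
    have hsub : ({w, z, y} : Set (ℝ × ℝ)) ⊆ linesAt W q := by
      rintro u (rfl | rfl | rfl)
      · exact ⟨hw, hq⟩
      · exact ⟨hz, hzq⟩
      · exact ⟨hy, hyq⟩
    have hc3 : ({w, z, y} : Set (ℝ × ℝ)).ncard = 3 := by
      rw [Set.ncard_eq_three]
      exact ⟨w, z, y, hwz, hwy, hzy, rfl⟩
    have hfin : (linesAt W q).Finite := Set.finite_of_ncard_ne_zero (by rw [tq]; norm_num)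
    have heq := Set.eq_of_subset_of_ncard_le hsub (by rw [hc3, tq]) hfin
    intro u hu huq
    have : u ∈ ({w, z, y} : Set (ℝ × ℝ)) := by rw [heq]; exact ⟨hu, huq⟩
    simpa using this
  -- the sector
  obtain ⟨g, g', hF, α, β, hα, hβ, hd⟩ := sector h q w z
    ((c.1 - q.1) + (c'.1 - q.1), (c.2 - q.2) + (c'.2 - q.2)) hw hz hwz hq hzq (by
      intro u hu huq
      rcases hlines u hu huq with rfl | rfl | rfl
      · intro h0
        simp only at h0
        have e : u.1 * c'.1 + u.2 * c'.2 - 1 = -(u.1 * c.1 + u.2 * c.2 - 1) := by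
          linear_combination h0 + 2 * hq
        rw [e, mul_neg] at hs
        exact absurd hs (not_lt.2 (neg_nonpos.2 (mul_self_nonneg _)))
      · intro h0
        simp only at h0
        apply hzC'
        linarith
      · intro h0
        simp only at h0
        apply hyC
        linarith)
  have hd1 : (c.1 - q.1) + (c'.1 - q.1) = α * (g.1 - q.1) + β * (g'.1 - q.1) := by
    have := congrArg Prod.fst hd
    simpa using this
  have hd2 : (c.2 - q.2) + (c'.2 - q.2) = α * (g.2 - q.2) + β * (g'.2 - q.2) := by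
    have := congrArg Prod.snd hd
    simpa using this
  -- no side of the sector on `w`
  have noW : ∀ (G G' : ℝ × ℝ) (α β : ℝ), FT W q G G' → 0 < α → 0 < β →
      (c.1 - q.1) + (c'.1 - q.1) = α * (G.1 - q.1) + β * (G'.1 - q.1) →
      (c.2 - q.2) + (c'.2 - q.2) = α * (G.2 - q.2) + β * (G'.2 - q.2) → ¬ on w G := by
    intro G G' α β hF hα hβ hd1 hd2 hwG
    unfold on at hwG
    have hP0 : ((p.1 - q.1, p.2 - q.2) : ℝ × ℝ) ≠ (0, 0) := by
      intro h0
      have e1 := congrArg Prod.fst h0
      have e2 := congrArg Prod.snd h0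
      simp only at e1 e2
      apply hPC
      rw [hΔ, e1, e2]; ring
    obtain ⟨s, hs1, hs2⟩ := t9_smul (A := (p.1 - q.1, p.2 - q.2)) (B := (G.1 - q.1, G.2 - q.2)) hP0
      (t9_par w0 (by simp only; linarith) (by simp only; linarith))
    simp only at hs1 hs2
    have hs0 : s ≠ 0 := by
      rintro rfl
      apply hF.nd
      unfold cr
      simp only [Prod.fst_sub, Prod.snd_sub]
      rw [hs1, hs2]; ring
    rcases lt_or_gt_of_ne hs0 with hs' | hs'
    · -- `s < 0`: the line `y` enters
      refine t9_hit hF hy hyq (c'.1 - q.1, c'.2 - q.2) (by simpa using hyC')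
        ((a * α * s + x) / (s * (a + 1))) (a * β / (a + 1)) ?_ (by positivity) ?_ ?_
      · have e1 : a * α * s < 0 := mul_neg_of_pos_of_neg (mul_pos ha hα) hs'
        have e2 : s * (a + 1) < 0 := mul_neg_of_neg_of_pos hs' (by linarith)
        exact div_pos_of_neg_of_neg (by linarith) e2
      · simp only
        rw [hs1]
        rw [hs1] at hd1
        exact t9_alg1 a x s α β _ _ _ _ (by positivity) hs0 hx1 hd1
      · simp only
        rw [hs2]
        rw [hs2] at hd2
        exact t9_alg1 a x s α β _ _ _ _ (by positivity) hs0 hx2 hd2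
    · -- `s > 0`: the line `z` enters
      refine t9_hit hF hz hzq (c.1 - q.1, c.2 - q.2) (by simpa using hzC)
        ((α * s - x) / (s * (a + 1))) (β / (a + 1)) ?_ (by positivity) ?_ ?_
      · have e1 : 0 < α * s := mul_pos hα hs'
        exact div_pos (by linarith) (by positivity)
      · simp only
        rw [hs1]
        rw [hs1] at hd1
        exact t9_alg2 a x s α β _ _ _ _ (by positivity) hs0 hx1 hd1
      · simp only
        rw [hs2]
        rw [hs2] at hd2
        exact t9_alg2 a x s α β _ _ _ _ (by positivity) hs0 hx2 hd2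
  have hgw : ¬ on w g := noW g g' α β hF hα hβ hd1 hd2
  have hg'w : ¬ on w g' := noW g' g β α hF.perm2 hβ hα (by linarith) (by linarith)
  have hC0 : ((c.1 - q.1, c.2 - q.2) : ℝ × ℝ) ≠ (0, 0) := by
    intro h0
    have e1 := congrArg Prod.fst h0
    have e2 := congrArg Prod.snd h0
    simp only at e1 e2
    apply hPC
    rw [hΔ, e1, e2]; ring
  have hC'0 : ((c'.1 - q.1, c'.2 - q.2) : ℝ × ℝ) ≠ (0, 0) := by
    intro h0
    have e1 := congrArg Prod.fst h0
    have e2 := congrArg Prod.snd h0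
    simp only at e1 e2
    apply hCC
    rw [e1, e2]; ring
  -- the sector is `(q, c, c')`
  have main : ∀ (G G' : ℝ × ℝ) (α β : ℝ), FT W q G G' → 0 < α → 0 < β →
      (c.1 - q.1) + (c'.1 - q.1) = α * (G.1 - q.1) + β * (G'.1 - q.1) →
      (c.2 - q.2) + (c'.2 - q.2) = α * (G.2 - q.2) + β * (G'.2 - q.2) → on z G → on y G' →
      FT W q c c' := by
    intro G G' α β hF hα hβ hd1 hd2 hzG hyG
    unfold on at hzG hyG
    obtain ⟨s, hs1, hs2⟩ := t9_smul (A := (c.1 - q.1, c.2 - q.2)) (B := (G.1 - q.1, G.2 - q.2)) hC0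
      (t9_par z0 (by simp only; linarith) (by simp only; linarith))
    obtain ⟨s', hs1', hs2'⟩ := t9_smul (A := (c'.1 - q.1, c'.2 - q.2))
      (B := (G'.1 - q.1, G'.2 - q.2)) hC'0
      (t9_par y0 (by simp only; linarith) (by simp only; linarith))
    simp only at hs1 hs2 hs1' hs2'
    rw [hs1, hs1'] at hd1
    rw [hs2, hs2'] at hd2
    have e1 : (α * s - 1) * ((c.1 - q.1) * (c'.2 - q.2) - (c.2 - q.2) * (c'.1 - q.1)) = 0 := by
      linear_combination (-(c'.2 - q.2)) * hd1 + (c'.1 - q.1) * hd2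
    have e2 : (β * s' - 1) * ((c.1 - q.1) * (c'.2 - q.2) - (c.2 - q.2) * (c'.1 - q.1)) = 0 := by
      linear_combination (c.2 - q.2) * hd1 - (c.1 - q.1) * hd2
    have f1 : α * s = 1 := by
      rcases mul_eq_zero.1 e1 with h' | h'
      · linarith
      · exact absurd h' hCC
    have f2 : β * s' = 1 := by
      rcases mul_eq_zero.1 e2 with h' | h'
      · linarith
      · exact absurd h' hCC
    have s0 : 0 < s := by
      by_contra hn
      have h0 := mul_nonpos_of_nonneg_of_nonpos hα.le (not_lt.1 hn)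
      rw [f1] at h0
      exact absurd h0 (by norm_num)
    have s0' : 0 < s' := by
      by_contra hn
      have h0 := mul_nonpos_of_nonneg_of_nonpos hβ.le (not_lt.1 hn)
      rw [f2] at h0
      exact absurd h0 (by norm_num)
    have g1 : G = c := ray_unique hqcp hF s s0 (by
      refine Prod.ext ?_ ?_
      · simpa using hs1
      · simpa using hs2)
    have g2 : G' = c' := ray_unique hqc'q' hF.perm2 s' s0' (by
      refine Prod.ext ?_ ?_
      · simpa using hs1'
      · simpa using hs2')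
    rw [← g1, ← g2]
    exact hF
  have hM : FT W q c c' := by
    obtain ⟨u1, hu1, h11, h12⟩ := hF.sc
    obtain ⟨u2, hu2, h21, h22⟩ := hF.sb
    have hnd := hF.nd
    have hpar : ∀ u : ℝ × ℝ, on u q → on u g → on u g' → False := by
      intro u k1 k2 k3
      apply hnd
      unfold on at k1 k2 k3
      exact t9_par (t9_ne k1) (by simp only [Prod.fst_sub, Prod.snd_sub]; linarith)
        (by simp only [Prod.fst_sub, Prod.snd_sub]; linarith)
    rcases hlines u1 hu1 h11 with rfl | rfl | rfl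
    · exact absurd h12 hgw
    · rcases hlines u2 hu2 h21 with rfl | rfl | rfl
      · exact absurd h22 hg'w
      · exact (hpar u2 h21 h12 h22).elim
      · exact main g g' α β hF hα hβ hd1 hd2 h12 h22
    · rcases hlines u2 hu2 h21 with rfl | rfl | rfl
      · exact absurd h22 hg'w
      · exact main g' g β α hF.perm2 hβ hα (by linarith) (by linarith) h22 h12
      · exact (hpar u2 h21 h12 h22).elim
  obtain ⟨e, he, hec, hec'⟩ := hM.sa
  have ndM := hM.nd
  refine ⟨e, he, hec, hec', ?_, ?_, ?_⟩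
  · -- `p`
    intro hep
    have e0 := t9_ne hep
    have hpc : ((p.1 - c.1, p.2 - c.2) : ℝ × ℝ) ≠ (0, 0) := by
      intro h0
      have e1 := congrArg Prod.fst h0
      have e2 := congrArg Prod.snd h0
      simp only at e1 e2
      apply hPC
      have e1' : p.1 = c.1 := by linarith
      have e2' : p.2 = c.2 := by linarith
      rw [hΔ, e1', e2']; ring
    unfold on at hep hec hec'
    obtain ⟨s, hs1, hs2⟩ := t9_smul (A := (p.1 - c.1, p.2 - c.2)) (B := (c'.1 - c.1, c'.2 - c.2)) hpc
      (t9_par e0 (by simp only; linarith) (by simp only; linarith))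
    simp only at hs1 hs2
    have hsx : (x - s) * Δ = 0 := by
      rw [hΔ]
      linear_combination (-(c.2 - q.2)) * hx1 + (c.1 - q.1) * hx2 + (c.2 - q.2) * hs1 - (c.1 - q.1) * hs2
    have hsx' : s = x := by
      rcases mul_eq_zero.1 hsx with h' | h'
      · linarith
      · exact absurd h' hPC
    refine t9_three (a := p) (b := q) (a' := c') (b' := q) (v := c) hqcp.perm1.perm2 hM.perm1
      (-x) 1 (by linarith) one_pos (by ring) (by ring) ?_ ?_ tc
    · rw [hs1, hsx']; ring
    · rw [hs2, hsx']; ring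
  · intro heq
    apply ndM
    unfold on at hec hec' heq
    exact t9_par (t9_ne (u := e) (a := q) heq) (by simp only [Prod.fst_sub, Prod.snd_sub]; linarith)
      (by simp only [Prod.fst_sub, Prod.snd_sub]; linarith)
  · -- `q'`
    intro hep
    have e0 := t9_ne hep
    have nd2 := h2.nd
    have hpc : ((q'.1 - c'.1, q'.2 - c'.2) : ℝ × ℝ) ≠ (0, 0) := by
      intro h0
      have e1 := congrArg Prod.fst h0
      have e2 := congrArg Prod.snd h0
      simp only at e1 e2
      apply nd2
      unfold cr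
      simp only [Prod.fst_sub, Prod.snd_sub]
      have e1' : q'.1 = c'.1 := by linarith
      have e2' : q'.2 = c'.2 := by linarith
      rw [e1', e2']; ring
    unfold on at hep hec hec'
    obtain ⟨s, hs1, hs2⟩ := t9_smul (A := (q'.1 - c'.1, q'.2 - c'.2)) (B := (c.1 - c'.1, c.2 - c'.2))
      hpc (t9_par e0 (by simp only; linarith) (by simp only; linarith))
    simp only at hs1 hs2
    -- C - C' = s (Q' - C')
    have hq'1 : q'.1 = q.1 - lam * (p.1 - q.1) := by linarith
    have hq'2 : q'.2 = q.2 - lam * (p.2 - q.2) := by linarith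
    have k1 : (c.1 - q.1) - (c'.1 - q.1) = s * (-lam * (p.1 - q.1) - (c'.1 - q.1)) := by
      rw [hq'1] at hs1; linear_combination hs1
    have k2 : (c.2 - q.2) - (c'.2 - q.2) = s * (-lam * (p.2 - q.2) - (c'.2 - q.2)) := by
      rw [hq'2] at hs2; linear_combination hs2
    rw [hx1] at k1
    rw [hx2] at k2
    -- (1 - a + s a) C = (x - s lam - s x) P
    have m1 : (1 - a + s * a) * Δ = 0 := by
      rw [hΔ]
      linear_combination (p.1 - q.1) * k2 - (p.2 - q.2) * k1
    have m2 : (-x + s * lam + s * x) * Δ = 0 := by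
      rw [hΔ]
      linear_combination (c.2 - q.2) * k1 - (c.1 - q.1) * k2
    have n1 : 1 - a + s * a = 0 := by
      rcases mul_eq_zero.1 m1 with h' | h'
      · exact h'
      · exact absurd h' hPC
    have n2 : -x + s * lam + s * x = 0 := by
      rcases mul_eq_zero.1 m2 with h' | h'
      · exact h'
      · exact absurd h' hPC
    -- s lam a = x (1 - s) a = x
    have n3 : s * (lam * a) = x := by
      linear_combination a * n2 - x * n1
    have hsneg : s < 0 := by
      by_contra hn
      have : 0 ≤ s * (lam * a) := mul_nonneg (not_lt.1 hn) (by positivity)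
      linarith
    refine t9_three (a := q') (b := q) (a' := c) (b' := q) (v := c') (hqc'q'.perm1.perm2)
      (hM.perm2.perm1) (-s) 1 (by linarith) one_pos (by ring) (by ring) ?_ ?_ tc'
    · rw [hs1]; ring
    · rw [hs2]; ring

end Pool.ACA
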