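import Pool.Agent.Lib.MP_aca35e_co.Defs
import Pool.Agent.Lib.MP_aca35e_co.TDefs
import Pool.Agent.Lib.MP_aca35e_co.T1
import Pool.Agent.Lib.MP_aca35e_co.T2
import Pool.Agent.Lib.MP_aca35e_co.T3
import Pool.Agent.Lib.MP_aca35e_co.T9

/-!
# MP_aca35e_co, row T10

A row without double points gives a parallel line. Take `M ∈ w` on no other line of `W`, `edge_tri` (T3): `FT W p q c`. `c` is triple; let `e` be the line of `W` through `c` containing neither `p` nor `q` (third line at `c`). Claim: `e` is parallel to `w`. Otherwise `e` meets `w` in `Z`, `Z ≠ p, q`, `Z` not in the open segment `(p, q)` (`side_free`); say `Z` is beyond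
`q` (the other case is symmetric: exchange `p` and `q`). Induction on the number of points of `w` in the open segment `(q, Z)` which are on another line of `W` (finite): let `M'` be a point of `w` just beyond `q`, on no other line, no vertex between `q` and `M'`; `edge_tri`: `FT W p' q' c'`, `M' ∈ (p', q')`; `p' = q` (after exchanging `p'` and `q'`; no vertex in the open
segment `(p', q')`, and `p'` is a vertex). `two_tri` (T9): a line `e'` through `c, c'`, not through `p, q, q'`; since `c` is triple `e' = e` (the third line). Now `Z` is beyond `q'` (not in `(q, q')` by `side_free`, not `= q'`), and `e` is the third line at `c'`; induct. Parallel: `cr e w = 0` (as vectors), `e ≠ w`; `e ∋ c` is on the side `s`.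
-/

set_option autoImplicit false
set_option linter.unusedVariables false

namespace Pool.ACA

open Set Filter Topology

private noncomputable def TT (w X : ℝ × ℝ) : ℝ := w.1 * X.2 - w.2 * X.1

private noncomputable def ptw (w : ℝ × ℝ) (t : ℝ) : ℝ × ℝ :=
  ((w.1 - t * w.2) / (w.1 ^ 2 + w.2 ^ 2), (w.2 + t * w.1) / (w.1 ^ 2 + w.2 ^ 2))

private theorem nrm_pos {w X : ℝ × ℝ} (h : on w X) : 0 < w.1 ^ 2 + w.2 ^ 2 := by
  unfold on at h
  rcases eq_or_ne w.1 0 with h1 | h1
  · rcases eq_or_ne w.2 0 with h2 | h2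
    · rw [h1, h2] at h
      norm_num at h
    · positivity
  · positivity

private theorem on_ptw {w : ℝ × ℝ} (h : 0 < w.1 ^ 2 + w.2 ^ 2) (t : ℝ) : on w (ptw w t) := by
  have h0 := h.ne'
  unfold on ptw
  field_simp
  ring

private theorem TT_ptw {w : ℝ × ℝ} (h : 0 < w.1 ^ 2 + w.2 ^ 2) (t : ℝ) : TT w (ptw w t) = t := by
  have h0 := h.ne'
  unfold TT ptw
  field_simp
  ring

private theorem eq_ptw {w X : ℝ × ℝ} (hX : on w X) : X = ptw w (TT w X) := by
  have h0 := (nrm_pos hX).ne'
  unfold on at hX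
  unfold TT ptw
  ext
  · simp only
    rw [eq_div_iff h0]
    linear_combination (w.1) * hX
  · simp only
    rw [eq_div_iff h0]
    linear_combination (w.2) * hX

private theorem eq_of_TT {w X Y : ℝ × ℝ} (hX : on w X) (hY : on w Y) (h : TT w X = TT w Y) :
    X = Y := by
  rw [eq_ptw hX, eq_ptw hY, h]

private theorem seg_of {w X Y Z : ℝ × ℝ} (hX : on w X) (hY : on w Y) (hZ : on w Z)
    (h1 : TT w X < TT w Z) (h2 : TT w Z < TT w Y) : Z ∈ openSegment ℝ X Y := by
  have hd : 0 < TT w Y - TT w X := by linarith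
  have hd0 := hd.ne'
  refine ⟨(TT w Y - TT w Z) / (TT w Y - TT w X), (TT w Z - TT w X) / (TT w Y - TT w X),
    div_pos (by linarith) hd, div_pos (by linarith) hd, ?_, ?_⟩
  · rw [← add_div]
    rw [div_eq_one_iff_eq hd0]
    ring
  · have e1 : (TT w Y - TT w Z) / (TT w Y - TT w X) + (TT w Z - TT w X) / (TT w Y - TT w X) = 1 := by
      rw [← add_div, div_eq_one_iff_eq hd0]
      ring
    apply eq_of_TT (w := w) _ hZ
    · unfold TT
      simp only [Prod.fst_add, Prod.snd_add, Prod.smul_fst, Prod.smul_snd, smul_eq_mul]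
      have : w.1 * ((TT w Y - TT w Z) / (TT w Y - TT w X) * X.2 +
          (TT w Z - TT w X) / (TT w Y - TT w X) * Y.2) -
          w.2 * ((TT w Y - TT w Z) / (TT w Y - TT w X) * X.1 +
          (TT w Z - TT w X) / (TT w Y - TT w X) * Y.1) =
          (TT w Y - TT w Z) / (TT w Y - TT w X) * TT w X +
          (TT w Z - TT w X) / (TT w Y - TT w X) * TT w Y := by
        simp only [TT]
        ring
      have h3 : (TT w Y - TT w Z) / (TT w Y - TT w X) * TT w X +
          (TT w Z - TT w X) / (TT w Y - TT w X) * TT w Y = TT w Z := by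
        field_simp
        ring
      have h4 := this.trans h3
      unfold TT at h4
      exact h4
    · unfold on at *
      simp only [Prod.fst_add, Prod.snd_add, Prod.smul_fst, Prod.smul_snd, smul_eq_mul]
      linear_combination ((TT w Y - TT w Z) / (TT w Y - TT w X)) * hX +
        ((TT w Z - TT w X) / (TT w Y - TT w X)) * hY + e1

private theorem of_seg {w X Y Z : ℝ × ℝ} (hX : on w X) (hY : on w Y)
    (hZ : Z ∈ openSegment ℝ X Y) (hlt : TT w X < TT w Y) :
    on w Z ∧ TT w X < TT w Z ∧ TT w Z < TT w Y := by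
  obtain ⟨a, b, ha, hb, hab, rfl⟩ := hZ
  have hT : TT w (a • X + b • Y) = a * TT w X + b * TT w Y := by
    simp only [TT, Prod.fst_add, Prod.snd_add, Prod.smul_fst, Prod.smul_snd, smul_eq_mul]
    ring
  refine ⟨?_, ?_, ?_⟩
  · unfold on at *
    simp only [Prod.fst_add, Prod.snd_add, Prod.smul_fst, Prod.smul_snd, smul_eq_mul]
    linear_combination a * hX + b * hY + hab
  · rw [hT]
    have : a = 1 - b := by linarith
    rw [this]
    nlinarith
  · rw [hT]
    have : b = 1 - a := by linarith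
    rw [this]
    nlinarith

private theorem seg_of_s {w X Y Z : ℝ × ℝ} {σ : ℝ} (hσ : σ = 1 ∨ σ = -1) (hX : on w X)
    (hY : on w Y) (hZ : on w Z)
    (h1 : σ * TT w X < σ * TT w Z) (h2 : σ * TT w Z < σ * TT w Y) : Z ∈ openSegment ℝ X Y := by
  rcases hσ with rfl | rfl
  · exact seg_of hX hY hZ (by linarith) (by linarith)
  · rw [openSegment_symm]
    exact seg_of hY hX hZ (by linarith) (by linarith)

private theorem line_unique {u w X Y : ℝ × ℝ} (h1 : on u X) (h2 : on u Y) (h3 : on w X)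
    (h4 : on w Y) (hne : X ≠ Y) : u = w := by
  by_contra hcon
  apply hne
  unfold on at *
  have ha : (X.1 * Y.2 - X.2 * Y.1) * (u.1 - w.1) = 0 := by
    linear_combination (Y.2) * (h1 - h3) - X.2 * (h2 - h4)
  have hb : (X.1 * Y.2 - X.2 * Y.1) * (u.2 - w.2) = 0 := by
    linear_combination (-Y.1) * (h1 - h3) + X.1 * (h2 - h4)
  have hc : X.1 * Y.2 - X.2 * Y.1 = 0 := by
    by_contra hcr
    rcases mul_eq_zero.1 ha with h | h
    · exact hcr h
    · rcases mul_eq_zero.1 hb with h' | h'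
      · exact hcr h'
      · exact hcon (Prod.ext (by linarith) (by linarith))
  ext
  · linear_combination (Y.1) * h3 - X.1 * h4 + w.2 * hc
  · linear_combination (Y.2) * h3 - X.2 * h4 - w.1 * hc

private theorem vert_finite {W : Set (ℝ × ℝ)} (h : Aff W) (w : ℝ × ℝ) (R : ℝ) :
    {X | on w X ∧ |TT w X| ≤ R ∧ ∃ u ∈ W, u ≠ w ∧ on u X}.Finite := by
  set N := w.1 ^ 2 + w.2 ^ 2 with hN
  set R' := (|w.1| + R * |w.2|) / N + (|w.2| + R * |w.1|) / N with hR'
  have hfin := near_finite h R'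
  refine (Set.Finite.biUnion hfin (t := fun u => {X | u ≠ w ∧ on w X ∧ on u X}) ?_).subset ?_
  · intro u _
    refine Set.Subsingleton.finite ?_
    intro X hX Y hY
    by_contra hne
    exact hX.1 (line_unique hX.2.2 hY.2.2 hX.2.1 hY.2.1 hne)
  · intro X hX
    obtain ⟨hX1, hX2, u, hu, hne, hX3⟩ := hX
    have hNp : 0 < N := nrm_pos hX1
    have hR : 0 ≤ R := le_trans (abs_nonneg _) hX2
    simp only [Set.mem_iUnion]
    have b1 : |w.1 - TT w X * w.2| ≤ |w.1| + R * |w.2| := by
      calc |w.1 - TT w X * w.2| ≤ |w.1| + |TT w X * w.2| := abs_sub _ _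
        _ ≤ |w.1| + R * |w.2| := by
            rw [abs_mul]
            gcongr
    have b2 : |w.2 + TT w X * w.1| ≤ |w.2| + R * |w.1| := by
      calc |w.2 + TT w X * w.1| ≤ |w.2| + |TT w X * w.1| := abs_add_le _ _
        _ ≤ |w.2| + R * |w.1| := by
            rw [abs_mul]
            gcongr
    have p1 : 0 ≤ (|w.1| + R * |w.2|) / N := by positivity
    have p2 : 0 ≤ (|w.2| + R * |w.1|) / N := by positivity
    refine ⟨u, ⟨hu, X, ?_, ?_, hX3⟩, hne, hX1, hX3⟩
    · have : X.1 = (w.1 - TT w X * w.2) / N := by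
        conv_lhs => rw [eq_ptw hX1]
        rfl
      rw [this, abs_div, abs_of_pos hNp]
      calc |w.1 - TT w X * w.2| / N ≤ (|w.1| + R * |w.2|) / N := by gcongr
        _ ≤ R' := by rw [hR']; linarith
    · have : X.2 = (w.2 + TT w X * w.1) / N := by
        conv_lhs => rw [eq_ptw hX1]
        rfl
      rw [this, abs_div, abs_of_pos hNp]
      calc |w.2 + TT w X * w.1| / N ≤ (|w.2| + R * |w.1|) / N := by gcongr
        _ ≤ R' := by rw [hR']; linarith

private theorem small_pos {S : Set ℝ} (hS : S.Finite) : ∃ δ > 0, ∀ x ∈ S, 0 < x → δ < x := by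
  induction S, hS using Set.Finite.induction_on with
  | empty => exact ⟨1, one_pos, fun x hx => absurd hx (Set.notMem_empty x)⟩
  | @insert a S _ _ ih =>
    obtain ⟨δ, hδ, h⟩ := ih
    by_cases ha : 0 < a
    · refine ⟨min δ (a / 2), lt_min hδ (by linarith), ?_⟩
      intro x hx hx0
      rcases Set.mem_insert_iff.1 hx with rfl | hx
      · exact lt_of_le_of_lt (min_le_right _ _) (by linarith)
      · exact lt_of_le_of_lt (min_le_left _ _) (h x hx hx0)
    · refine ⟨δ, hδ, ?_⟩
      intro x hx hx0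
      rcases Set.mem_insert_iff.1 hx with rfl | hx
      · exact absurd hx0 ha
      · exact h x hx hx0

/-- a point of `w` just beyond `q` on no other line, no vertex in between -/
private theorem beyond {W : Set (ℝ × ℝ)} (h : Aff W) (w q : ℝ × ℝ) (hq : on w q) {σ : ℝ}
    (hσ : σ = 1 ∨ σ = -1) : ∃ M, on w M ∧ σ * TT w q < σ * TT w M ∧
      ∀ X, on w X → (∃ u ∈ W, u ≠ w ∧ on u X) → σ * TT w q < σ * TT w X →
        σ * TT w M < σ * TT w X := by
  have hs2 : σ * σ = 1 := by rcases hσ with rfl | rfl <;> norm_num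
  obtain ⟨δ, hδ, hδ'⟩ := small_pos ((vert_finite h w (|TT w q| + 1)).image
    (fun X => σ * TT w X - σ * TT w q))
  have hn := nrm_pos hq
  refine ⟨ptw w (TT w q + σ * min δ 1), on_ptw hn _, ?_, ?_⟩
  · rw [TT_ptw hn]
    have : 0 < min δ 1 := lt_min hδ one_pos
    nlinarith
  · intro X hX hu hlt
    rw [TT_ptw hn]
    have e : σ * (TT w q + σ * min δ 1) = σ * TT w q + min δ 1 := by
      linear_combination (min δ 1) * hs2
    rw [e]
    by_cases hb : |TT w X| ≤ |TT w q| + 1
    · have := hδ' (σ * TT w X - σ * TT w q) ⟨X, ⟨hX, hb, hu⟩, rfl⟩ (by linarith)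
      have h2 : min δ 1 ≤ δ := min_le_left _ _
      linarith
    · have h2 : min δ 1 ≤ 1 := min_le_right _ _
      have h3 : 1 < |TT w X| - |TT w q| := by linarith
      have h4 : |TT w X| - |TT w q| ≤ |TT w X - TT w q| := abs_sub_abs_le_abs_sub _ _
      have h5 : |TT w X - TT w q| = σ * TT w X - σ * TT w q := by
        have : |σ * (TT w X - TT w q)| = |TT w X - TT w q| := by
          rw [abs_mul]
          rcases hσ with rfl | rfl <;> simp
        rw [← this, abs_of_pos (by linarith)]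
        ring
      linarith

private theorem off_side {w c : ℝ × ℝ} {s : ℝ} (h : 0 < s * (w.1 * c.1 + w.2 * c.2 - 1)) :
    ¬ on w c := by
  intro hc
  unfold on at hc
  rw [hc] at h
  simp at h

private theorem descend {W : Set (ℝ × ℝ)} (h : S3 W) (w : ℝ × ℝ) (hw : w ∈ W) (s : ℝ)
    (hs : s = 1 ∨ s = -1)
    (h1 : ∀ X, on w X → (∃ u ∈ W, u ≠ w ∧ on u X) → (linesAt W X).ncard = 3)
    (h2 : ∀ p q c, FT W p q c → on w p → on w q → 0 < s * (w.1 * c.1 + w.2 * c.2 - 1) →
      (linesAt W c).ncard = 3) {σ : ℝ} (hσ : σ = 1 ∨ σ = -1) (e Z : ℝ × ℝ) (he : e ∈ W)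
    (hZ : on w Z) (heZ : on e Z) :
    ∀ n : ℕ, ∀ p q c : ℝ × ℝ, FT W p q c → on w p → on w q →
      0 < s * (w.1 * c.1 + w.2 * c.2 - 1) → on e c → ¬ on e p → ¬ on e q →
      σ * TT w p < σ * TT w q → σ * TT w q < σ * TT w Z →
      {X | on w X ∧ (∃ u ∈ W, u ≠ w ∧ on u X) ∧ σ * TT w q < σ * TT w X ∧
        σ * TT w X < σ * TT w Z}.ncard < n → False := by
  intro n
  induction n with
  | zero => intro p q c _ _ _ _ _ _ _ _ _ hn; omega
  | succ n ih =>
    intro p q c hT hp hq hc hec hep heq hpq hqZ hn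
    obtain ⟨M, hM, hqM, hMb⟩ := beyond h.aff w q hq hσ
    have hM' : ∀ u ∈ W, on u M → u = w := by
      intro u hu huM
      by_contra hne
      exact lt_irrefl _ (hMb M hM ⟨u, hu, hne, huM⟩ hqM)
    obtain ⟨p₀, q₀, c', hT₀, hp₀, hq₀, hM₀, hc'⟩ := edge_tri h w M hw hM hM' s hs
    -- order the two vertices
    obtain ⟨p', q', hT', hp', hq', hpM, hMq⟩ : ∃ p' q', FT W p' q' c' ∧ on w p' ∧ on w q' ∧
        σ * TT w p' < σ * TT w M ∧ σ * TT w M < σ * TT w q' := by
      have hne : TT w p₀ ≠ TT w q₀ := by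
        intro heq'
        have : p₀ = q₀ := eq_of_TT hp₀ hq₀ heq'
        have hnd := hT₀.nd
        rw [this] at hnd
        apply hnd
        simp [cr]
      rcases lt_or_gt_of_ne hne with hlt | hlt
      · obtain ⟨_, a1, a2⟩ := of_seg hp₀ hq₀ hM₀ hlt
        rcases hσ with rfl | rfl
        · exact ⟨p₀, q₀, hT₀, hp₀, hq₀, by linarith, by linarith⟩
        · exact ⟨q₀, p₀, hT₀.perm1, hq₀, hp₀, by linarith, by linarith⟩
      · rw [openSegment_symm] at hM₀
        obtain ⟨_, a1, a2⟩ := of_seg hq₀ hp₀ hM₀ hlt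
        rcases hσ with rfl | rfl
        · exact ⟨q₀, p₀, hT₀.perm1, hq₀, hp₀, by linarith, by linarith⟩
        · exact ⟨p₀, q₀, hT₀, hp₀, hq₀, by linarith, by linarith⟩
    have hwc' : ¬ on w c' := off_side hc'
    have hwc : ¬ on w c := off_side hc
    obtain ⟨z, hz, hzq, hzc⟩ := hT.sa
    obtain ⟨y, hy, hyp, hyc⟩ := hT.sb
    have hzw : z ≠ w := fun hh => hwc (hh ▸ hzc)
    have hyw : y ≠ w := fun hh => hwc (hh ▸ hyc)
    obtain ⟨z', hz', hzq', hzc'⟩ := hT'.sa
    obtain ⟨y', hy', hyp', hyc'⟩ := hT'.sb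
    have hzw' : z' ≠ w := fun hh => hwc' (hh ▸ hzc')
    have hyw' : y' ≠ w := fun hh => hwc' (hh ▸ hyc')
    have hpq' : p' = q := by
      by_contra hne
      have hle : σ * TT w p' ≤ σ * TT w q := by
        by_contra hgt
        push Not at hgt
        exact lt_irrefl _ ((hMb p' hp' ⟨y', hy', hyw', hyp'⟩ hgt).trans hpM)
      have hlt : σ * TT w p' < σ * TT w q := by
        refine lt_of_le_of_ne hle ?_
        intro heq'
        apply hne
        apply eq_of_TT hp' hq
        rcases hσ with rfl | rfl <;> linarith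
      have hin : q ∈ openSegment ℝ p' q' := seg_of_s hσ hp' hq' hq hlt (by linarith)
      obtain ⟨a1, a2⟩ := side_free hT' z hz q hin hzq
      have hne2 : p' ≠ q' := by
        intro hh
        rw [hh] at hpM
        linarith
      exact hzw (line_unique a1 a2 hp' hq' hne2)
    subst hpq'
    have hqq' : σ * TT w p' < σ * TT w q' := by linarith
    have hin : p' ∈ openSegment ℝ p q' := seg_of_s hσ hp hq' hp' hpq hqq'
    have hs2 : s * s = 1 := by rcases hs with rfl | rfl <;> norm_num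
    have hss : 0 < (w.1 * c.1 + w.2 * c.2 - 1) * (w.1 * c'.1 + w.2 * c'.2 - 1) := by
      have := mul_pos hc hc'
      have e1 : s * (w.1 * c.1 + w.2 * c.2 - 1) * (s * (w.1 * c'.1 + w.2 * c'.2 - 1)) =
          (w.1 * c.1 + w.2 * c.2 - 1) * (w.1 * c'.1 + w.2 * c'.2 - 1) := by
        linear_combination ((w.1 * c.1 + w.2 * c.2 - 1) * (w.1 * c'.1 + w.2 * c'.2 - 1)) * hs2
      rwa [e1] at this
    obtain ⟨e', he', hec', hec'', hep', hep'', heq'⟩ := two_tri h w p p' q' c c' hw hp hp' hq' hin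
      hT hT' hss (h1 p' hp' ⟨z, hz, hzw, hzq⟩) (h2 p p' c hT hp hp' hc)
      (h2 p' q' c' hT' hp' hq' hc')
    have hyz : y ≠ z := by
      intro hh
      rw [← hh] at hzq
      have hne2 : p ≠ p' := by
        intro hh2
        rw [hh2] at hpq
        exact lt_irrefl _ hpq
      exact hyw (line_unique hyp hzq hp hp' hne2)
    have hee : e' = e := by
      by_contra hne
      have hcard := h.mul c {y, z, e, e'} (by
        intro u hu
        simp only [Finset.mem_insert, Finset.mem_singleton] at hu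
        rcases hu with rfl | rfl | rfl | rfl
        · exact ⟨hy, hyc⟩
        · exact ⟨hz, hzc⟩
        · exact ⟨he, hec⟩
        · exact ⟨he', hec'⟩)
      have h4 : ({y, z, e, e'} : Finset (ℝ × ℝ)).card = 4 := by
        have a1 : y ≠ e := fun hh => hep (hh ▸ hyp)
        have a2 : y ≠ e' := fun hh => hep' (hh ▸ hyp)
        have a3 : z ≠ e := fun hh => heq (hh ▸ hzq)
        have a4 : z ≠ e' := fun hh => hep'' (hh ▸ hzq)
        have a5 : e ≠ e' := fun hh => hne hh.symm
        rw [Finset.card_insert_of_notMem, Finset.card_insert_of_notMem,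
          Finset.card_insert_of_notMem, Finset.card_singleton]
        · simpa using a5
        · simp only [Finset.mem_insert, Finset.mem_singleton, not_or]
          exact ⟨a3, a4⟩
        · simp only [Finset.mem_insert, Finset.mem_singleton, not_or]
          exact ⟨hyz, a1, a2⟩
      omega
    subst hee
    have hZq' : σ * TT w q' < σ * TT w Z := by
      rcases lt_trichotomy (σ * TT w q') (σ * TT w Z) with hlt | heq2 | hgt
      · exact hlt
      · exfalso
        apply heq'
        have : q' = Z := by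
          apply eq_of_TT hq' hZ
          rcases hσ with rfl | rfl <;> linarith
        rw [this]
        exact heZ
      · exfalso
        have hin2 : Z ∈ openSegment ℝ p' q' := seg_of_s hσ hp' hq' hZ hqZ hgt
        exact hep'' (side_free hT' e' he' Z hin2 heZ).1
    refine ih p' q' c' hT' hp' hq' hc' hec'' hep'' heq' hqq' hZq' ?_
    have hfin : {X | on w X ∧ (∃ u ∈ W, u ≠ w ∧ on u X) ∧ σ * TT w p' < σ * TT w X ∧
        σ * TT w X < σ * TT w Z}.Finite := by
      refine (vert_finite h.aff w (|TT w p'| + |TT w Z|)).subset ?_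
      rintro X ⟨a1, a2, a3, a4⟩
      refine ⟨a1, ?_, a2⟩
      have b1 := abs_nonneg (TT w p')
      have b2 := abs_nonneg (TT w Z)
      have b3 := le_abs_self (TT w p')
      have b4 := le_abs_self (TT w Z)
      have b5 := neg_abs_le (TT w p')
      have b6 := neg_abs_le (TT w Z)
      rw [abs_le]
      rcases hσ with rfl | rfl
      · constructor <;> linarith
      · constructor <;> linarith
    have hlt : {X | on w X ∧ (∃ u ∈ W, u ≠ w ∧ on u X) ∧ σ * TT w q' < σ * TT w X ∧
        σ * TT w X < σ * TT w Z}.ncard < {X | on w X ∧ (∃ u ∈ W, u ≠ w ∧ on u X) ∧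
          σ * TT w p' < σ * TT w X ∧ σ * TT w X < σ * TT w Z}.ncard := by
      apply Set.ncard_lt_ncard _ hfin
      rw [Set.ssubset_iff_of_subset]
      · exact ⟨q', ⟨hq', ⟨z', hz', hzw', hzq'⟩, hqq', hZq'⟩, fun hh => lt_irrefl _ hh.2.2.1⟩
      · rintro X ⟨a1, a2, a3, a4⟩
        exact ⟨a1, a2, by linarith, a4⟩
    omega

theorem parallel_row {W : Set (ℝ × ℝ)} (h : S3 W) (w : ℝ × ℝ) (hw : w ∈ W) (s : ℝ)
    (hs : s = 1 ∨ s = -1)
    (h1 : ∀ X, on w X → (∃ u ∈ W, u ≠ w ∧ on u X) → (linesAt W X).ncard = 3)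
    (h2 : ∀ p q c, FT W p q c → on w p → on w q → 0 < s * (w.1 * c.1 + w.2 * c.2 - 1) →
      (linesAt W c).ncard = 3) :
    ∃ e ∈ W, cr e w = 0 ∧ ∃ c, on e c ∧ 0 < s * (w.1 * c.1 + w.2 * c.2 - 1) := by
  have hw0 : w ≠ (0, 0) := fun hh => h.aff.ne (hh ▸ hw)
  have hn : 0 < w.1 ^ 2 + w.2 ^ 2 := by
    rcases eq_or_ne w.1 0 with a1 | a1
    · rcases eq_or_ne w.2 0 with a2 | a2
      · exact absurd (Prod.ext a1 a2) hw0
      · positivity
    · positivity
  -- a point of `w` on no other line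
  obtain ⟨M, hM, hq0, hMb⟩ := beyond h.aff w (ptw w 0) (on_ptw hn 0) (σ := 1) (Or.inl rfl)
  have hM' : ∀ u ∈ W, on u M → u = w := by
    intro u hu huM
    by_contra hne
    exact lt_irrefl _ (hMb M hM ⟨u, hu, hne, huM⟩ hq0)
  obtain ⟨p₀, q₀, c, hT₀, hp₀, hq₀, hM₀, hc⟩ := edge_tri h w M hw hM hM' s hs
  obtain ⟨p, q, hT, hp, hq, hpq⟩ : ∃ p q, FT W p q c ∧ on w p ∧ on w q ∧ TT w p < TT w q := by
    have hne : TT w p₀ ≠ TT w q₀ := by
      intro heq'
      have : p₀ = q₀ := eq_of_TT hp₀ hq₀ heq'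
      have hnd := hT₀.nd
      rw [this] at hnd
      apply hnd
      simp [cr]
    rcases lt_or_gt_of_ne hne with hlt | hlt
    · exact ⟨p₀, q₀, hT₀, hp₀, hq₀, hlt⟩
    · exact ⟨q₀, p₀, hT₀.perm1, hq₀, hp₀, hlt⟩
  have hwc : ¬ on w c := off_side hc
  have hcp : c ≠ p := fun hh => hwc (hh ▸ hp)
  have hcq : c ≠ q := fun hh => hwc (hh ▸ hq)
  obtain ⟨z, hz, hzq, hzc⟩ := hT.sa
  obtain ⟨y, hy, hyp, hyc⟩ := hT.sb
  obtain ⟨e, he, hec, hep, heq⟩ : ∃ e ∈ W, on e c ∧ ¬ on e p ∧ ¬ on e q := by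
    by_contra hcon
    push Not at hcon
    have hsub : linesAt W c ⊆ ({y, z} : Set (ℝ × ℝ)) := by
      intro u hu
      by_cases hup : on u p
      · left
        exact line_unique hu.2 hup hyc hyp hcp
      · right
        exact line_unique hu.2 (hcon u hu.1 hu.2 hup) hzc hzq hcq
    have hle := Set.ncard_le_ncard hsub (Set.toFinite _)
    have h3 := h2 p q c hT hp hq hc
    have h4 : ({y, z} : Set (ℝ × ℝ)).ncard ≤ 2 := by
      have h5 := Set.ncard_insert_le y ({z} : Set (ℝ × ℝ))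
      have h6 : ({z} : Set (ℝ × ℝ)).ncard = 1 := Set.ncard_singleton z
      omega
    omega
  refine ⟨e, he, ?_, c, hec, hc⟩
  by_contra hcr
  have hcr' : e.1 * w.2 - e.2 * w.1 ≠ 0 := hcr
  set Z : ℝ × ℝ := ((w.2 - e.2) / (e.1 * w.2 - e.2 * w.1), (e.1 - w.1) / (e.1 * w.2 - e.2 * w.1))
    with hZdef
  have hZw : on w Z := by
    change w.1 * ((w.2 - e.2) / (e.1 * w.2 - e.2 * w.1)) +
      w.2 * ((e.1 - w.1) / (e.1 * w.2 - e.2 * w.1)) = 1
    rw [mul_div_assoc', mul_div_assoc', ← add_div, div_eq_one_iff_eq hcr']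
    ring
  have hZe : on e Z := by
    change e.1 * ((w.2 - e.2) / (e.1 * w.2 - e.2 * w.1)) +
      e.2 * ((e.1 - w.1) / (e.1 * w.2 - e.2 * w.1)) = 1
    rw [mul_div_assoc', mul_div_assoc', ← add_div, div_eq_one_iff_eq hcr']
    ring
  have key : ∀ σ : ℝ, σ = 1 ∨ σ = -1 → ∀ p q, FT W p q c → on w p → on w q → ¬ on e p →
      ¬ on e q → σ * TT w p < σ * TT w q → σ * TT w q < σ * TT w Z → False := by
    intro σ hσ p q hT hp hq hep heq a1 a2
    exact descend h w hw s hs h1 h2 hσ e Z he hZw hZe _ p q c hT hp hq hc hec hep heq a1 a2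
      (Nat.lt_succ_self _)
  rcases lt_trichotomy (TT w Z) (TT w q) with hlt | heq2 | hgt
  · rcases lt_trichotomy (TT w Z) (TT w p) with hlt2 | heq3 | hgt2
    · exact key (-1) (Or.inr rfl) q p hT.perm1 hq hp heq hep (by linarith) (by linarith)
    · exact hep ((eq_of_TT hZw hp heq3) ▸ hZe)
    · exact hep (side_free hT e he Z (seg_of hp hq hZw hgt2 hlt) hZe).1
  · exact heq ((eq_of_TT hZw hq heq2) ▸ hZe)
  · exact key 1 (Or.inl rfl) p q hT hp hq hep heq (by linarith) (by linarith)

end Pool.ACA
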