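import Pool.Agent.Lib.MP_aca35e_co.Defs
import Pool.Agent.Lib.MP_aca35e_co.TDefs
import Pool.Agent.Lib.MP_aca35e_co.T1
import Pool.Agent.Lib.MP_aca35e_co.T2
import Pool.Agent.Lib.MP_aca35e_co.T3
import Pool.Agent.Lib.MP_aca35e_co.T10

/-!
# MP_aca35e_co, row T11

Infinitely many double points. Suppose the set `Dbl` of points with exactly two lines is finite. For every `w ∈ W` the set of the `e ∈ W` parallel to `w` (`cr e w = 0`) is finite (`par` with `v = (-w.2, w.1)`). All `e` parallel to `w` are `e = l • w`, and the side is governed by `l`: for a line `e = l • w` and `c ∈ e`: `w·c - 1 = 1/l - 1`. Choose in the parallel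
class of `w` the extreme line `w'` on the side `s = 1` (no parallel line `e` with a point `c`, `w'·c > 1`; i.e. such that there is no `e` in the class on that side of `w'`). By `parallel_row` one of its hypotheses fails for `w'`: (points of `W`-multiplicity: `ncard ≤ 3` by `mul`, `≥ 2` for vertices) there is a double point on `w'` or a double point `c` with `FT W p q c`, `p, q ∈ w'`. There
are infinitely many `w ∈ W` (`aff_inf` of A8), finitely many in each class, so infinitely many such `w'`. But every double point `X` belongs to finitely many: two lines through it; and if `FT W p q X` then `p, q` are on the two lines through `X` (one each), determined by the directions (`ray_unique`: two choices on each line), so at most four (or eight) pairs `(p, q)`, each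
determines the line `w'`. Contradiction.
-/

set_option autoImplicit false
set_option linter.unusedVariables false

namespace Pool.ACA

open Set Filter Topology

private theorem t11_ne {W : Set (ℝ × ℝ)} (h : Aff W) {w : ℝ × ℝ} (hw : w ∈ W) :
    w.1 ≠ 0 ∨ w.2 ≠ 0 := by
  by_contra hc
  push Not at hc
  have : w = (0, 0) := Prod.ext hc.1 hc.2
  exact h.ne (this ▸ hw)

private theorem t11_sq {w : ℝ × ℝ} (hw : w.1 ≠ 0 ∨ w.2 ≠ 0) : 0 < w.1 ^ 2 + w.2 ^ 2 := by
  rcases hw with hw | hw
  · have := pow_pos (abs_pos.2 hw) 2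
    rw [sq_abs] at this
    positivity
  · have := pow_pos (abs_pos.2 hw) 2
    rw [sq_abs] at this
    positivity

private theorem t11_class {W : Set (ℝ × ℝ)} (h : S3 W) {w : ℝ × ℝ} (hw : w ∈ W) :
    {e ∈ W | cr e w = 0}.Finite := by
  have hv : ((-w.2, w.1) : ℝ × ℝ) ≠ 0 := by
    intro h0
    have h1 := congrArg Prod.fst h0
    have h2 := congrArg Prod.snd h0
    simp only [Prod.fst_zero, Prod.snd_zero, neg_eq_zero] at h1 h2
    rcases t11_ne h.aff hw with h3 | h3
    · exact h3 h2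
    · exact h3 h1
  refine (h.par _ hv).subset ?_
  rintro e ⟨he, he'⟩
  refine ⟨he, ?_⟩
  unfold cr at he'
  simp only
  linarith

private theorem t11_mult {e w : ℝ × ℝ} (hw : w.1 ≠ 0 ∨ w.2 ≠ 0) (h : cr e w = 0) :
    ∃ l : ℝ, e = l • w := by
  have hs := t11_sq hw
  unfold cr at h
  refine ⟨(e.1 * w.1 + e.2 * w.2) / (w.1 ^ 2 + w.2 ^ 2), Prod.ext ?_ ?_⟩
  · simp only [Prod.smul_fst, smul_eq_mul]
    rw [div_mul_eq_mul_div, eq_div_iff hs.ne']
    linear_combination w.2 * h
  · simp only [Prod.smul_snd, smul_eq_mul]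
    rw [div_mul_eq_mul_div, eq_div_iff hs.ne']
    linear_combination -w.1 * h

/-- extreme lines -/
private def Ext (W : Set (ℝ × ℝ)) : Set (ℝ × ℝ) := {w ∈ W | ∀ l : ℝ, 0 < l → l < 1 → l • w ∉ W}

private theorem t11_ext {W : Set (ℝ × ℝ)} (h : S3 W) {w : ℝ × ℝ} (hw : w ∈ W) :
    ∃ w' ∈ Ext W, cr w w' = 0 := by
  classical
  have hfin : {l : ℝ | 0 < l ∧ l • w ∈ W}.Finite := by
    refine Set.Finite.of_finite_image (f := fun l : ℝ => l • w) ?_ ?_
    · refine (t11_class h hw).subset ?_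
      rintro _ ⟨l, hl, rfl⟩
      refine ⟨hl.2, ?_⟩
      unfold cr
      simp only [Prod.smul_fst, Prod.smul_snd, smul_eq_mul]
      ring
    · intro l _ l' _ hll
      have h1 := congrArg Prod.fst hll
      have h2 := congrArg Prod.snd hll
      simp only [Prod.smul_fst, Prod.smul_snd, smul_eq_mul] at h1 h2
      rcases t11_ne h.aff hw with h3 | h3
      · exact mul_right_cancel₀ h3 h1
      · exact mul_right_cancel₀ h3 h2
  have hne : hfin.toFinset.Nonempty :=
    ⟨1, by rw [Set.Finite.mem_toFinset]; exact ⟨one_pos, by rwa [one_smul]⟩⟩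
  obtain ⟨l₀, hl₀, hmin⟩ := hfin.toFinset.exists_min_image id hne
  rw [Set.Finite.mem_toFinset] at hl₀
  refine ⟨l₀ • w, ⟨hl₀.2, fun l hl hl1 hmem => ?_⟩, ?_⟩
  · have h1 : l * l₀ ∈ hfin.toFinset := by
      rw [Set.Finite.mem_toFinset]
      exact ⟨mul_pos hl hl₀.1, by rwa [mul_smul]⟩
    have h2 := hmin _ h1
    simp only [id] at h2
    nlinarith [hl₀.1]
  · unfold cr
    simp only [Prod.smul_fst, Prod.smul_snd, smul_eq_mul]
    ring

private theorem t11_ext_inf {W : Set (ℝ × ℝ)} (h : S3 W) (hW : W.Infinite) :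
    (Ext W).Infinite := by
  intro hfin
  refine hW ((hfin.biUnion (t := fun w' => {e ∈ W | cr e w' = 0}) fun w' hw' =>
    t11_class h hw'.1).subset ?_)
  intro w hw
  obtain ⟨w', hw', hc⟩ := t11_ext h hw
  rw [mem_iUnion₂]
  exact ⟨w', hw', hw, hc⟩

private theorem t11_line {p q w w' : ℝ × ℝ} (hpq : p ≠ q) (h1 : on w p) (h2 : on w q)
    (h1' : on w' p) (h2' : on w' q) : w = w' := by
  unfold on at h1 h2 h1' h2'
  have hd : p.1 * q.2 - p.2 * q.1 ≠ 0 := by
    intro hd
    have e1 : q.2 - p.2 = 0 := by linear_combination w.1 * hd + p.2 * h2 - q.2 * h1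
    have e2 : p.1 - q.1 = 0 := by linear_combination w.2 * hd - p.1 * h2 + q.1 * h1
    exact hpq (Prod.ext (by linarith) (by linarith))
  refine Prod.ext ?_ ?_
  · refine mul_right_cancel₀ hd ?_
    linear_combination q.2 * h1 - p.2 * h2 - q.2 * h1' + p.2 * h2'
  · refine mul_right_cancel₀ hd ?_
    linear_combination p.1 * h2 - q.1 * h1 - p.1 * h2' + q.1 * h1'

/-- the direction of `p` from `c` along the line `u` -/
private def dirn (u c p : ℝ × ℝ) : ℝ := (p.1 - c.1) * (-u.2) + (p.2 - c.2) * u.1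

private theorem t11_dir {W : Set (ℝ × ℝ)} {u c p q p' q' : ℝ × ℝ} (hu : on u c) (hp : on u p)
    (hp' : on u p') (h : FT W c p q) (h' : FT W c p' q')
    (hs : 0 < dirn u c p * dirn u c p') : p' = p := by
  have h0 : dirn u c p ≠ 0 := fun h0 => by rw [h0, zero_mul] at hs; exact lt_irrefl _ hs
  have hl : 0 < dirn u c p' / dirn u c p := by
    have h1 : dirn u c p' / dirn u c p = dirn u c p * dirn u c p' / (dirn u c p) ^ 2 := by
      field_simp
    rw [h1]
    exact div_pos hs (by positivity)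
  refine ray_unique h h' (dirn u c p' / dirn u c p) hl ?_
  unfold on at hu hp hp'
  refine Prod.ext ?_ ?_
  · simp only [Prod.smul_fst, Prod.fst_sub, smul_eq_mul]
    rw [div_mul_eq_mul_div, eq_div_iff h0]
    unfold dirn
    linear_combination (p.2 - c.2) * (hp' - hu) -
      (p'.2 - c.2) * (hp - hu)
  · simp only [Prod.smul_snd, Prod.snd_sub, smul_eq_mul]
    rw [div_mul_eq_mul_div, eq_div_iff h0]
    unfold dirn
    linear_combination (p'.1 - c.1) * (hp - hu) - (p.1 - c.1) * (hp' - hu)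

private theorem t11_ne_pt {W : Set (ℝ × ℝ)} {c p q : ℝ × ℝ} (h : FT W c p q) : p ≠ c := by
  rintro rfl
  refine h.nd ?_
  unfold cr
  simp

private theorem t11_P {W : Set (ℝ × ℝ)} (h : S3 W) (c : ℝ × ℝ) :
    {p | ∃ q, FT W c p q}.Finite := by
  have hsub : {p | ∃ q, FT W c p q} ⊆ ⋃ u ∈ linesAt W c,
      ({p | (∃ q, FT W c p q) ∧ on u p ∧ 0 < dirn u c p} ∪
        {p | (∃ q, FT W c p q) ∧ on u p ∧ dirn u c p < 0}) := by
    rintro p ⟨q, hq⟩
    obtain ⟨u, hu, huc, hup⟩ := hq.sc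
    rw [mem_iUnion₂]
    refine ⟨u, ⟨hu, huc⟩, ?_⟩
    have hd : dirn u c p ≠ 0 := by
      intro hd
      refine t11_ne_pt hq ?_
      have hs := t11_sq (t11_ne h.aff hu)
      unfold on at huc hup
      unfold dirn at hd
      have e1 : (u.1 ^ 2 + u.2 ^ 2) * (p.1 - c.1) = 0 := by
        linear_combination u.1 * (hup - huc) - u.2 * hd
      have e2 : (u.1 ^ 2 + u.2 ^ 2) * (p.2 - c.2) = 0 := by
        linear_combination u.2 * (hup - huc) + u.1 * hd
      rcases mul_eq_zero.1 e1 with h1 | h1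
      · exact absurd h1 hs.ne'
      · rcases mul_eq_zero.1 e2 with h2 | h2
        · exact absurd h2 hs.ne'
        · exact Prod.ext (by linarith) (by linarith)
    rcases lt_or_gt_of_ne hd with hd | hd
    · exact Or.inr ⟨⟨q, hq⟩, hup, hd⟩
    · exact Or.inl ⟨⟨q, hq⟩, hup, hd⟩
  refine ((linesAt_finite h.aff c).biUnion fun u hu => ?_).subset hsub
  refine Set.Finite.union ?_ ?_
  · refine Set.Subsingleton.finite ?_
    rintro p ⟨⟨q, hq⟩, hp, hd⟩ p' ⟨⟨q', hq'⟩, hp', hd'⟩
    exact (t11_dir hu.2 hp hp' hq hq' (mul_pos hd hd')).symm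
  · refine Set.Subsingleton.finite ?_
    rintro p ⟨⟨q, hq⟩, hp, hd⟩ p' ⟨⟨q', hq'⟩, hp', hd'⟩
    exact (t11_dir hu.2 hp hp' hq hq' (mul_pos_of_neg_of_neg hd hd')).symm

private theorem t11_B {W : Set (ℝ × ℝ)} (h : S3 W) (c : ℝ × ℝ) :
    {w | ∃ p q, FT W p q c ∧ on w p ∧ on w q}.Finite := by
  have hP := t11_P h c
  have hsub : {w : ℝ × ℝ | ∃ p q, FT W p q c ∧ on w p ∧ on w q} ⊆
      ⋃ p ∈ {p | ∃ q, FT W c p q}, ⋃ q ∈ {p | ∃ q, FT W c p q},
        {w | p ≠ q ∧ on w p ∧ on w q} := by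
    rintro w ⟨p, q, hpq, h1, h2⟩
    have h3 : FT W c p q := hpq.perm2.perm1
    have h4 : FT W c q p := h3.perm2
    rw [mem_iUnion₂]
    refine ⟨p, ⟨q, h3⟩, ?_⟩
    rw [mem_iUnion₂]
    refine ⟨q, ⟨p, h4⟩, ?_, h1, h2⟩
    rintro rfl
    refine hpq.nd ?_
    unfold cr
    simp
  refine (hP.biUnion fun p _ => hP.biUnion fun q _ => ?_).subset hsub
  refine Set.Subsingleton.finite ?_
  rintro w ⟨hne, h1, h2⟩ w' ⟨_, h1', h2'⟩
  exact t11_line hne h1 h2 h1' h2'

private theorem t11_two {W : Set (ℝ × ℝ)} (h : S3 W) (X u u' : ℝ × ℝ) (hu : u ∈ W) (hu' : u' ∈ W)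
    (hne : u ≠ u') (h1 : on u X) (h2 : on u' X) (h3 : (linesAt W X).ncard ≠ 3) :
    (linesAt W X).ncard = 2 := by
  classical
  have hfin := linesAt_finite h.aff X
  have hle : (linesAt W X).ncard ≤ 3 := by
    rw [Set.ncard_eq_toFinset_card _ hfin]
    refine h.mul X _ fun w hw => ?_
    rw [Set.Finite.mem_toFinset] at hw
    exact hw
  have hge : 1 < (linesAt W X).ncard :=
    (Set.one_lt_ncard hfin).2 ⟨u, ⟨hu, h1⟩, u', ⟨hu', h2⟩, hne⟩
  omega

theorem dbl_infinite {W : Set (ℝ × ℝ)} (h : S3 W) (hW : W.Infinite) :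
    {X | (linesAt W X).ncard = 2}.Infinite := by
  intro hD
  refine t11_ext_inf h hW (((hD.biUnion fun X _ => linesAt_finite h.aff X).union
    (hD.biUnion fun c _ => t11_B h c)).subset ?_)
  rintro w ⟨hw, hext⟩
  by_contra hcon
  rw [mem_union, not_or, mem_iUnion₂, mem_iUnion₂] at hcon
  obtain ⟨hc1, hc2⟩ := hcon
  obtain ⟨e, he, hcr, c, hec, hpos⟩ := parallel_row h w hw 1 (Or.inl rfl) (fun X hX hu => by
      by_contra h3
      obtain ⟨u, hu, hne, huX⟩ := hu
      exact hc1 ⟨X, t11_two h X w u hw hu (Ne.symm hne) hX huX h3, hw, hX⟩)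
    (fun p q c hft hp hq _ => by
      by_contra h3
      obtain ⟨u, hu, huq, huc⟩ := hft.sa
      obtain ⟨u', hu', hup', huc'⟩ := hft.sb
      have hne : u ≠ u' := by
        rintro rfl
        refine hft.nd ?_
        unfold on at huq huc hup'
        have hs := t11_sq (t11_ne h.aff hu)
        have e1 : (u.1 ^ 2 + u.2 ^ 2) * cr (q - p) (c - p) = 0 := by
          unfold cr
          simp only [Prod.fst_sub, Prod.snd_sub]
          linear_combination
            (u.1 * (c.2 - p.2) - u.2 * (c.1 - p.1)) * (huq - hup') -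
            (u.1 * (q.2 - p.2) - u.2 * (q.1 - p.1)) * (huc - hup')
        exact (mul_eq_zero.1 e1).resolve_left hs.ne'
      exact hc2 ⟨c, t11_two h c u u' hu hu' hne huc huc' h3, p, q, hft, hp, hq⟩)
  obtain ⟨l, hl⟩ := t11_mult (t11_ne h.aff hw) hcr
  have hl1 : l * (w.1 * c.1 + w.2 * c.2) = 1 := by
    unfold on at hec
    rw [hl] at hec
    simp only [Prod.smul_fst, Prod.smul_snd, smul_eq_mul] at hec
    linarith
  have hpos' : 1 < w.1 * c.1 + w.2 * c.2 := by linarith
  have hl0 : 0 < l := by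
    by_contra hn
    push Not at hn
    nlinarith
  have hl2 : l < 1 := by
    by_contra hn
    push Not at hn
    nlinarith
  exact hext l hl0 hl2 (hl ▸ he)

end Pool.ACA
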