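import Pool.Agent.Lib.MP_aca35e_co.Defs
import Pool.Agent.Lib.MP_aca35e_co.TDefs
import Pool.Agent.Lib.MP_aca35e_co.T1
import Pool.Agent.Lib.MP_aca35e_co.T2
import Pool.Agent.Lib.MP_aca35e_co.T3

/-!
# MP_aca35e_co, row T5

Number of chambers with given lowest / highest vertex `v`. The line `w` through `v` has up-direction `(m, 1)`, `m w = - w.2 / w.1`; different lines through `v` have different `m`. A chamber with lowest vertex `v` and other vertices `b, c` has side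
lines through `v` with slopes `m₁ < m₂` (`b - v`, `c - v` are positive multiples of `(m₁, 1)`, `(m₂, 1)` in some order). It is determined by `m₁` (`side_unique`: same ray, the third vertex on the same side), and also by `m₂`. So
`S.card ≤` number of lines at `v` which are not the one with the largest `m`. For the highest vertex the directions are `-(m, 1)`. `bd_le`: `w₀·X ≤ 1` for `X = v + t (m, 1)`, `t > 0`: `w₀.1 (m - m₀) ≤ 0`. If `w₀.1 > 0`: chambers with lowest vertex `v`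
inside have `m₁ < m₂ ≤ m₀`, chambers with highest vertex `v` inside have `m₀ ≤ m₁ < m₂`; map the first ones to `m₁ < m₀` and the second ones to `m₂ > m₀`: injective, disjoint images, `m₀` not in the image. `w₀.1 < 0`: mirror image.
-/

set_option autoImplicit false
set_option linter.unusedVariables false

namespace Pool.ACA

open Set Filter Topology

private noncomputable def t5m (w : ℝ × ℝ) : ℝ := - w.2 / w.1

private theorem t5_line (w v p : ℝ × ℝ) (hw : w.1 ≠ 0) (h1 : on w v) (h2 : on w p) :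
    p.1 - v.1 = t5m w * (p.2 - v.2) := by
  unfold on at h1 h2
  unfold t5m
  field_simp
  linarith

private theorem t5_m_inj (w w' v : ℝ × ℝ) (hw : w.1 ≠ 0) (hw' : w'.1 ≠ 0) (h1 : on w v)
    (h2 : on w' v) (h : t5m w = t5m w') : w = w' := by
  unfold on at h1 h2
  unfold t5m at h
  rw [div_eq_div_iff hw hw'] at h
  have e1 : w.1 = w'.1 := by
    have : w'.1 * (w.1 * v.1 + w.2 * v.2) = w.1 * (w'.1 * v.1 + w'.2 * v.2) := by
      linear_combination (-v.2) * h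
    rw [h1, h2] at this
    linarith
  refine Prod.ext e1 ?_
  rw [e1] at h
  have h3 : (w.2 - w'.2) * w'.1 = 0 := by linarith
  rcases mul_eq_zero.1 h3 with h4 | h4
  · linarith
  · exact absurd h4 hw'

private theorem t5_data {W : Set (ℝ × ℝ)} (hn : ∀ w ∈ W, w.1 ≠ 0) (v x y : ℝ × ℝ)
    (hF : FT W v x y) :
    ∃ L U p q : ℝ × ℝ, L ∈ linesAt W v ∧ U ∈ linesAt W v ∧ t5m L < t5m U ∧
      ((p = x ∧ q = y) ∨ (p = y ∧ q = x)) ∧ on L p ∧ on U q := by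
  obtain ⟨w, hw, hwv, hwy⟩ := hF.sb
  obtain ⟨w', hw', hwv', hwx'⟩ := hF.sc
  rcases lt_trichotomy (t5m w') (t5m w) with h | h | h
  · exact ⟨w', w, x, y, ⟨hw', hwv'⟩, ⟨hw, hwv⟩, h, Or.inl ⟨rfl, rfl⟩, hwx', hwy⟩
  · exfalso
    have hx := t5_line w' v x (hn w' hw') hwv' hwx'
    have hy := t5_line w v y (hn w hw) hwv hwy
    apply hF.nd
    unfold cr
    simp only [Prod.fst_sub, Prod.snd_sub]
    rw [hx, hy, h]
    ring
  · exact ⟨w, w', y, x, ⟨hw, hwv⟩, ⟨hw', hwv'⟩, h, Or.inr ⟨rfl, rfl⟩, hwy, hwx'⟩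

private theorem t5_core {W : Set (ℝ × ℝ)} (hn : ∀ w ∈ W, w.1 ≠ 0) (v p q p' q' A B B' : ℝ × ℝ)
    (s : ℝ) (hF : FT W v p q) (hF' : FT W v p' q') (hA : A ∈ linesAt W v) (hB : B ∈ linesAt W v)
    (hB' : B' ∈ linesAt W v) (h1 : on A p) (h2 : on A p') (h3 : on B q) (h4 : on B' q')
    (hp : 0 < s * (p.2 - v.2)) (hp' : 0 < s * (p'.2 - v.2)) (hq : 0 < s * (q.2 - v.2))
    (hq' : 0 < s * (q'.2 - v.2)) (hm : 0 < (t5m A - t5m B) * (t5m A - t5m B')) :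
    p' = p ∧ q' = q := by
  have ep := t5_line A v p (hn A hA.1) hA.2 h1
  have ep' := t5_line A v p' (hn A hA.1) hA.2 h2
  have eq := t5_line B v q (hn B hB.1) hB.2 h3
  have eq' := t5_line B' v q' (hn B' hB'.1) hB'.2 h4
  have hne : p.2 - v.2 ≠ 0 := by
    intro h0
    rw [h0] at hp
    simp at hp
  have hs2 : 0 < s * s := by
    rcases eq_or_ne s 0 with h0 | h0
    · rw [h0] at hp
      simp at hp
    · exact mul_self_pos.2 h0
  have hl : 0 < (p'.2 - v.2) / (p.2 - v.2) := by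
    have e : (p'.2 - v.2) / (p.2 - v.2) = (s * (p'.2 - v.2)) / (s * (p.2 - v.2)) := by
      have hs0 : s ≠ 0 := by
        rintro rfl
        simp at hp
      field_simp
    rw [e]
    exact div_pos hp' hp
  refine side_unique hF hF' ((p'.2 - v.2) / (p.2 - v.2)) hl ?_ ?_
  · refine Prod.ext ?_ ?_
    · simp only [Prod.fst_sub, Prod.smul_fst, smul_eq_mul]
      rw [ep, ep']
      field_simp
    · simp only [Prod.snd_sub, Prod.smul_snd, smul_eq_mul]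
      field_simp
  · have e : cr (p - v) (q - v) * cr (p - v) (q' - v) =
        (p.2 - v.2) ^ 2 * ((q.2 - v.2) * (q'.2 - v.2)) *
          ((t5m A - t5m B) * (t5m A - t5m B')) := by
      unfold cr
      simp only [Prod.fst_sub, Prod.snd_sub]
      rw [ep, eq, eq']
      ring
    rw [e]
    have h5 : 0 < (q.2 - v.2) * (q'.2 - v.2) := by
      have h6 := mul_pos hq hq'
      have h7 : s * (q.2 - v.2) * (s * (q'.2 - v.2)) = (s * s) * ((q.2 - v.2) * (q'.2 - v.2)) := by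
        ring
      rw [h7] at h6
      exact (mul_pos_iff_of_pos_left hs2).1 h6
    positivity

private theorem t5_count {W : Set (ℝ × ℝ)} (hn : ∀ w ∈ W, w.1 ≠ 0) (v : ℝ × ℝ) (s : ℝ)
    (S : Finset ((ℝ × ℝ) × (ℝ × ℝ)))
    (hS : ∀ t ∈ S, FT W v t.1 t.2 ∧ 0 < s * (t.1.2 - v.2) ∧ 0 < s * (t.2.2 - v.2) ∧
      t.1.2 < t.2.2) :
    ∃ L U : (ℝ × ℝ) × (ℝ × ℝ) → ℝ × ℝ,
      (∀ t ∈ S, L t ∈ linesAt W v ∧ U t ∈ linesAt W v ∧ t5m (L t) < t5m (U t) ∧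
        ∃ p q, ((p = t.1 ∧ q = t.2) ∨ (p = t.2 ∧ q = t.1)) ∧ on (L t) p ∧ on (U t) q) ∧
      InjOn L S ∧ InjOn U S := by
  have hex : ∀ t : (ℝ × ℝ) × (ℝ × ℝ), ∃ L U p q : ℝ × ℝ, t ∈ S →
      L ∈ linesAt W v ∧ U ∈ linesAt W v ∧ t5m L < t5m U ∧
      ((p = t.1 ∧ q = t.2) ∨ (p = t.2 ∧ q = t.1)) ∧ on L p ∧ on U q := by
    intro t
    by_cases ht : t ∈ S
    · obtain ⟨L, U, p, q, h⟩ := t5_data hn v t.1 t.2 (hS t ht).1
      exact ⟨L, U, p, q, fun _ => h⟩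
    · exact ⟨0, 0, 0, 0, fun h => absurd h ht⟩
  choose L U p q hall using hex
  have hFT : ∀ t ∈ S, FT W v (p t) (q t) ∧ 0 < s * ((p t).2 - v.2) ∧ 0 < s * ((q t).2 - v.2) := by
    intro t ht
    obtain ⟨a1, a2, a3, a4⟩ := hS t ht
    obtain ⟨_, _, _, h4, _⟩ := hall t ht
    rcases h4 with ⟨e1, e2⟩ | ⟨e1, e2⟩
    · rw [e1, e2]
      exact ⟨a1, a2, a3⟩
    · rw [e1, e2]
      exact ⟨a1.perm2, a3, a2⟩
  have hfin : ∀ t ∈ S, ∀ t' ∈ S, p t' = p t → q t' = q t → t = t' := by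
    intro t ht t' ht' h1 h2
    obtain ⟨_, _, _, h4, _⟩ := hall t ht
    obtain ⟨_, _, _, h4', _⟩ := hall t' ht'
    have b1 := (hS t ht).2.2.2
    have b2 := (hS t' ht').2.2.2
    rcases h4 with ⟨e1, e2⟩ | ⟨e1, e2⟩ <;> rcases h4' with ⟨f1, f2⟩ | ⟨f1, f2⟩
    · exact Prod.ext (by rw [← e1, ← f1, h1]) (by rw [← e2, ← f2, h2])
    · exfalso
      rw [← e1, ← e2, ← h1, ← h2, f1, f2] at b1
      exact lt_asymm b1 b2
    · exfalso
      rw [← e1, ← e2, ← h1, ← h2, f1, f2] at b1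
      exact lt_asymm b1 b2
    · exact Prod.ext (by rw [← e2, ← f2, h2]) (by rw [← e1, ← f1, h1])
  refine ⟨L, U, ?_, ?_, ?_⟩
  · intro t ht
    obtain ⟨h1, h2, h3, h4, h5, h6⟩ := hall t ht
    exact ⟨h1, h2, h3, p t, q t, h4, h5, h6⟩
  · intro t ht t' ht' heq
    obtain ⟨h1, h2, h3, h4, h5, h6⟩ := hall t ht
    obtain ⟨h1', h2', h3', h4', h5', h6'⟩ := hall t' ht'
    rw [← heq] at h5' h3'
    obtain ⟨g1, g2, g3⟩ := hFT t ht
    obtain ⟨g1', g2', g3'⟩ := hFT t' ht'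
    obtain ⟨r1, r2⟩ := t5_core hn v (p t) (q t) (p t') (q t') (L t) (U t) (U t') s g1 g1' h1 h2 h2'
      h5 h5' h6 h6' g2 g2' g3 g3' (mul_pos_of_neg_of_neg (by linarith) (by linarith))
    exact hfin t ht t' ht' r1 r2
  · intro t ht t' ht' heq
    obtain ⟨h1, h2, h3, h4, h5, h6⟩ := hall t ht
    obtain ⟨h1', h2', h3', h4', h5', h6'⟩ := hall t' ht'
    rw [← heq] at h6' h3'
    obtain ⟨g1, g2, g3⟩ := hFT t ht
    obtain ⟨g1', g2', g3'⟩ := hFT t' ht'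
    obtain ⟨r1, r2⟩ := t5_core hn v (q t) (p t) (q t') (p t') (U t) (L t) (L t') s g1.perm2
      g1'.perm2 h2 h1 h1' h6 h6' h5 h5' g3 g3' g2 g2' (mul_pos (by linarith) (by linarith))
    exact hfin t ht t' ht' r2 r1

private theorem t5_low {W : Set (ℝ × ℝ)} (v : ℝ × ℝ) (S : Finset ((ℝ × ℝ) × (ℝ × ℝ)))
    (hS : ∀ t ∈ S, Ch W v t.1 t.2) :
    ∀ t ∈ S, FT W v t.1 t.2 ∧ 0 < (1 : ℝ) * (t.1.2 - v.2) ∧ 0 < (1 : ℝ) * (t.2.2 - v.2) ∧
      t.1.2 < t.2.2 := by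
  intro t ht
  obtain ⟨h1, h2, h3⟩ := hS t ht
  exact ⟨h3, by linarith, by linarith, h2⟩

private theorem t5_high {W : Set (ℝ × ℝ)} (v : ℝ × ℝ) (S : Finset ((ℝ × ℝ) × (ℝ × ℝ)))
    (hS : ∀ t ∈ S, Ch W t.1 t.2 v) :
    ∀ t ∈ S, FT W v t.1 t.2 ∧ 0 < (-1 : ℝ) * (t.1.2 - v.2) ∧ 0 < (-1 : ℝ) * (t.2.2 - v.2) ∧
      t.1.2 < t.2.2 := by
  intro t ht
  obtain ⟨h1, h2, h3⟩ := hS t ht
  exact ⟨h3.perm2.perm1, by linarith, by linarith, h1⟩

private theorem t5_card {W : Set (ℝ × ℝ)} (h : S3 W) (hn : ∀ w ∈ W, w.1 ≠ 0) (v : ℝ × ℝ) (s : ℝ)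
    (S : Finset ((ℝ × ℝ) × (ℝ × ℝ)))
    (hS : ∀ t ∈ S, FT W v t.1 t.2 ∧ 0 < s * (t.1.2 - v.2) ∧ 0 < s * (t.2.2 - v.2) ∧
      t.1.2 < t.2.2) : S.card ≤ (linesAt W v).ncard - 1 := by
  classical
  obtain ⟨L, U, h1, hL, hU⟩ := t5_count hn v s S hS
  have hf := linesAt_finite h.aff v
  rcases S.eq_empty_or_nonempty with h0 | ⟨t₀, ht₀⟩
  · rw [h0]
    simp
  have hne : hf.toFinset.Nonempty := ⟨L t₀, by
    rw [Set.Finite.mem_toFinset]
    exact (h1 t₀ ht₀).1⟩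
  obtain ⟨M, hM, hmax⟩ := hf.toFinset.exists_max_image t5m hne
  have h2 : S.image L ⊆ hf.toFinset.erase M := by
    intro w hw
    obtain ⟨t, ht, rfl⟩ := Finset.mem_image.1 hw
    obtain ⟨a1, a2, a3, _⟩ := h1 t ht
    rw [Finset.mem_erase]
    refine ⟨?_, by rw [Set.Finite.mem_toFinset]; exact a1⟩
    rintro rfl
    have := hmax (U t) (by rw [Set.Finite.mem_toFinset]; exact a2)
    linarith
  have h3 := Finset.card_le_card h2
  rw [Finset.card_image_of_injOn hL, Finset.card_erase_of_mem hM] at h3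
  rw [Set.ncard_eq_toFinset_card _ hf]
  exact h3

theorem low_le {W : Set (ℝ × ℝ)} (h : S3 W) (hn : ∀ w ∈ W, w.1 ≠ 0) (v : ℝ × ℝ)
    (S : Finset ((ℝ × ℝ) × (ℝ × ℝ))) (hS : ∀ t ∈ S, Ch W v t.1 t.2) :
    S.card ≤ (linesAt W v).ncard - 1 :=
  t5_card h hn v 1 S (t5_low v S hS)

theorem high_le {W : Set (ℝ × ℝ)} (h : S3 W) (hn : ∀ w ∈ W, w.1 ≠ 0) (v : ℝ × ℝ)
    (S : Finset ((ℝ × ℝ) × (ℝ × ℝ))) (hS : ∀ t ∈ S, Ch W t.1 t.2 v) :
    S.card ≤ (linesAt W v).ncard - 1 :=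
  t5_card h hn v (-1) S (t5_high v S hS)

/-- the inequality for the two side lines -/
private theorem t5_side (v w₀ L p : ℝ × ℝ) (s : ℝ) (h0 : w₀.1 ≠ 0) (hL0 : L.1 ≠ 0) (h1 : on w₀ v)
    (h2 : on L v) (h3 : on L p) (hp : 0 < s * (p.2 - v.2)) (hle : w₀.1 * p.1 + w₀.2 * p.2 ≤ 1) :
    s * w₀.1 * (t5m L - t5m w₀) ≤ 0 := by
  have e := t5_line L v p hL0 h2 h3
  have h4 : w₀.1 * (p.1 - v.1) + w₀.2 * (p.2 - v.2) ≤ 0 := by
    unfold on at h1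
    linarith
  have h5 : w₀.2 = - (w₀.1 * t5m w₀) := by
    unfold t5m
    field_simp
  rw [e, h5] at h4
  have h6 : (p.2 - v.2) * (w₀.1 * (t5m L - t5m w₀)) ≤ 0 := by
    linarith
  by_contra hcon
  push Not at hcon
  have h7 : 0 < (s * (p.2 - v.2)) * (s * w₀.1 * (t5m L - t5m w₀)) := mul_pos hp hcon
  have h8 : (s * (p.2 - v.2)) * (s * w₀.1 * (t5m L - t5m w₀)) =
      (s * s) * ((p.2 - v.2) * (w₀.1 * (t5m L - t5m w₀))) := by ring
  rw [h8] at h7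
  have h9 : 0 ≤ s * s := mul_self_nonneg s
  nlinarith

private theorem t5_count2 {W : Set (ℝ × ℝ)} (h : S3 W) (hn : ∀ w ∈ W, w.1 ≠ 0) (v w₀ : ℝ × ℝ)
    (hw₀ : w₀ ∈ W) (hv : on w₀ v) (s : ℝ) (S : Finset ((ℝ × ℝ) × (ℝ × ℝ)))
    (hS : ∀ t ∈ S, FT W v t.1 t.2 ∧ 0 < s * (t.1.2 - v.2) ∧ 0 < s * (t.2.2 - v.2) ∧
      t.1.2 < t.2.2)
    (hle : ∀ t ∈ S, w₀.1 * t.1.1 + w₀.2 * t.1.2 ≤ 1 ∧ w₀.1 * t.2.1 + w₀.2 * t.2.2 ≤ 1)
    (F : Finset (ℝ × ℝ)) (hF : ∀ w, w ∈ F ↔ w ∈ linesAt W v) :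
    (0 < s * w₀.1 → S.card ≤ (F.filter (fun w => t5m w < t5m w₀)).card) ∧
      (s * w₀.1 < 0 → S.card ≤ (F.filter (fun w => t5m w₀ < t5m w)).card) := by
  classical
  obtain ⟨L, U, h1, hL, hU⟩ := t5_count hn v s S hS
  have key : ∀ t ∈ S, s * w₀.1 * (t5m (L t) - t5m w₀) ≤ 0 ∧
      s * w₀.1 * (t5m (U t) - t5m w₀) ≤ 0 := by
    intro t ht
    obtain ⟨a1, a2, a3, p, q, a4, a5, a6⟩ := h1 t ht
    obtain ⟨b1, b2, b3, b4⟩ := hS t ht
    obtain ⟨c1, c2⟩ := hle t ht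
    rcases a4 with ⟨rfl, rfl⟩ | ⟨rfl, rfl⟩
    · exact ⟨t5_side v w₀ (L t) _ s (hn w₀ hw₀) (hn _ a1.1) hv a1.2 a5 b2 c1,
        t5_side v w₀ (U t) _ s (hn w₀ hw₀) (hn _ a2.1) hv a2.2 a6 b3 c2⟩
    · exact ⟨t5_side v w₀ (L t) _ s (hn w₀ hw₀) (hn _ a1.1) hv a1.2 a5 b3 c2,
        t5_side v w₀ (U t) _ s (hn w₀ hw₀) (hn _ a2.1) hv a2.2 a6 b2 c1⟩
  constructor
  · intro hpos
    rw [← Finset.card_image_of_injOn hL]
    refine Finset.card_le_card ?_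
    intro w hw
    obtain ⟨t, ht, rfl⟩ := Finset.mem_image.1 hw
    rw [Finset.mem_filter, hF]
    refine ⟨(h1 t ht).1, ?_⟩
    have h2 := (key t ht).2
    have h3 := (h1 t ht).2.2.1
    have h4 : t5m (U t) - t5m w₀ ≤ 0 := by
      by_contra hcon
      push Not at hcon
      have := mul_pos hpos hcon
      linarith
    linarith
  · intro hneg
    rw [← Finset.card_image_of_injOn hU]
    refine Finset.card_le_card ?_
    intro w hw
    obtain ⟨t, ht, rfl⟩ := Finset.mem_image.1 hw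
    rw [Finset.mem_filter, hF]
    refine ⟨(h1 t ht).2.1, ?_⟩
    have h2 := (key t ht).1
    have h3 := (h1 t ht).2.2.1
    have h4 : 0 ≤ t5m (L t) - t5m w₀ := by
      by_contra hcon
      push Not at hcon
      have := mul_pos_of_neg_of_neg hneg hcon
      linarith
    linarith

theorem bd_le {W : Set (ℝ × ℝ)} (h : S3 W) (hn : ∀ w ∈ W, w.1 ≠ 0) (v w₀ : ℝ × ℝ) (hw₀ : w₀ ∈ W)
    (hv : on w₀ v) (S S' : Finset ((ℝ × ℝ) × (ℝ × ℝ)))
    (hS : ∀ t ∈ S, Ch W v t.1 t.2 ∧ w₀.1 * t.1.1 + w₀.2 * t.1.2 ≤ 1 ∧ w₀.1 * t.2.1 + w₀.2 * t.2.2 ≤ 1)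
    (hS' : ∀ t ∈ S', Ch W t.1 t.2 v ∧ w₀.1 * t.1.1 + w₀.2 * t.1.2 ≤ 1 ∧
      w₀.1 * t.2.1 + w₀.2 * t.2.2 ≤ 1) :
    S.card + S'.card ≤ (linesAt W v).ncard - 1 := by
  classical
  have hf := linesAt_finite h.aff v
  have hF : ∀ w, w ∈ hf.toFinset ↔ w ∈ linesAt W v := fun w => Set.Finite.mem_toFinset hf
  have c1 := t5_count2 h hn v w₀ hw₀ hv 1 S (t5_low v S fun t ht => (hS t ht).1)
    (fun t ht => (hS t ht).2) hf.toFinset hF
  have c2 := t5_count2 h hn v w₀ hw₀ hv (-1) S' (t5_high v S' fun t ht => (hS' t ht).1)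
    (fun t ht => (hS' t ht).2) hf.toFinset hF
  have hsum : (hf.toFinset.filter (fun w => t5m w < t5m w₀)).card +
      (hf.toFinset.filter (fun w => t5m w₀ < t5m w)).card ≤ (linesAt W v).ncard - 1 := by
    rw [Set.ncard_eq_toFinset_card _ hf, ← Finset.card_erase_of_mem
      ((hF w₀).2 ⟨hw₀, hv⟩), ← Finset.card_union_of_disjoint]
    · refine Finset.card_le_card ?_
      intro w hw
      rw [Finset.mem_union, Finset.mem_filter, Finset.mem_filter] at hw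
      rw [Finset.mem_erase]
      rcases hw with ⟨a1, a2⟩ | ⟨a1, a2⟩
      · refine ⟨?_, a1⟩
        rintro rfl
        exact lt_irrefl _ a2
      · refine ⟨?_, a1⟩
        rintro rfl
        exact lt_irrefl _ a2
    · rw [Finset.disjoint_left]
      intro w hw hw'
      rw [Finset.mem_filter] at hw hw'
      exact lt_asymm hw.2 hw'.2
  rcases lt_or_gt_of_ne (hn w₀ hw₀) with h0 | h0
  · have d1 := c1.2 (by linarith)
    have d2 := c2.1 (by linarith)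
    omega
  · have d1 := c1.1 (by linarith)
    have d2 := c2.2 (by linarith)
    omega

end Pool.ACA
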