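import Pool.Agent.Lib.MP_aca35e_co.Defs
import Pool.Agent.Lib.MP_aca35e_co.TDefs
import Pool.Agent.Lib.MP_aca35e_co.T1
import Pool.Agent.Lib.MP_aca35e_co.T3

/-!
# MP_aca35e_co, row T6

`mid_ex`: `sector` (T3) with `d = (s, 0)` (no line through `v` is horizontal): `FT W v p q`, `d = α (p - v) + β (q - v)` with `α, β > 0`; comparing second coordinates `p.2 - v.2` and `q.2 - v.2` have opposite signs or are both `0`; they are not `0`
since the side lines are not horizontal. So `v` is the middle vertex. The points `v + ε (s, 0)` are in the triangle for small `ε`.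
`ins_bd`: the direction `s` is inside for small `ε'` as well (convexity). `ext_le`: let `v ∈ S` with `v.2 > 0`. If `X ∈ Pol V`, `X.2 > v.2`, then `u = (v.2 / X.2) • X` is in `PolI V` (`w·u < 1`: `w·X ≤ 1` and factor `< 1`) at the height of `v`; `u = v` would give `v ∈ PolI V`
(excluded: `ins` would hold), otherwise the horizontal direction from `v` to `u` is inside. So `v` has maximal height in `Pol V`. If `v ≠ v'` are both such points (same height), the midpoint is in `Pol V`; if it is in `PolI V` then `ins` holds at `v`; otherwise some `w ∈ V` has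
`w·v = w·v' = 1`, so `w.1 = 0`. At most one point with `v.2 > 0`, at most one with `v.2 < 0`, none with `v.2 = 0` (direction to `0 ∈ PolI V`).
-/

set_option autoImplicit false
set_option linter.unusedVariables false

namespace Pool.ACA

open Set Filter Topology

theorem mid_ex {W : Set (ℝ × ℝ)} (h : S3 W) (hn : ∀ w ∈ W, w.1 ≠ 0) (v w w' : ℝ × ℝ) (hw : w ∈ W)
    (hw' : w' ∈ W) (hne : w ≠ w') (h1 : on w v) (h2 : on w' v) (s : ℝ) (hs : s = 1 ∨ s = -1) :
    ∃ a c : ℝ × ℝ, Ch W a v c ∧ ∃ ε₀ > 0, ∀ ε, 0 < ε → ε < ε₀ → (v.1 + s * ε, v.2) ∈ tri a v c := by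
  have hs0 : s ≠ 0 := by rcases hs with h | h <;> rw [h] <;> norm_num
  obtain ⟨p, q, hT, α, β, hα, hβ, hd⟩ := sector h v w w' (s, 0) hw hw' hne h1 h2 (by
    intro u hu _
    simp only [mul_zero, add_zero]
    exact mul_ne_zero (hn u hu) hs0)
  have hd1 : s = α * (p.1 - v.1) + β * (q.1 - v.1) := by
    have := congrArg Prod.fst hd
    simpa using this
  have hd2 : 0 = α * (p.2 - v.2) + β * (q.2 - v.2) := by
    have := congrArg Prod.snd hd
    simpa using this
  have hpt : ∀ ε, 0 < ε → ε < 1 / (α + β) → (v.1 + s * ε, v.2) ∈ tri p v q := by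
    intro ε hε hε'
    have h3 : ε * (α + β) < 1 := by
      rw [lt_div_iff₀ (by positivity)] at hε'
      exact hε'
    refine ⟨ε * α, 1 - ε * (α + β), ε * β, by positivity, by linarith, by positivity, by ring, ?_⟩
    ext
    · simp only [Prod.fst_add, Prod.smul_fst, smul_eq_mul]
      rw [hd1]; ring
    · simp only [Prod.snd_add, Prod.smul_snd, smul_eq_mul]
      linear_combination ε * hd2
  rcases lt_trichotomy p.2 v.2 with hlt | heq | hgt
  · have hq : v.2 < q.2 := by
      by_contra hcon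
      push Not at hcon
      have h4 : α * (p.2 - v.2) < 0 := mul_neg_of_pos_of_neg hα (by linarith)
      have h5 : β * (q.2 - v.2) ≤ 0 := mul_nonpos_of_nonneg_of_nonpos hβ.le (by linarith)
      linarith
    exact ⟨p, q, ⟨hlt, hq, hT.perm1⟩, 1 / (α + β), by positivity, hpt⟩
  · exfalso
    have hq : q.2 = v.2 := by
      rw [heq, sub_self, mul_zero, zero_add] at hd2
      rcases mul_eq_zero.mp hd2.symm with h | h
      · exact absurd h hβ.ne'
      · linarith
    apply hT.nd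
    simp [cr, heq, hq]
  · have hq : q.2 < v.2 := by
      by_contra hcon
      push Not at hcon
      have h4 : 0 < α * (p.2 - v.2) := mul_pos hα (by linarith)
      have h5 : 0 ≤ β * (q.2 - v.2) := mul_nonneg hβ.le (by linarith)
      linarith
    refine ⟨q, p, ⟨hq, hgt, hT.perm2.perm1⟩, 1 / (α + β), by positivity, fun ε hε hε' => ?_⟩
    have := hpt ε hε hε'
    rw [tri_perm1, tri_perm2] at this
    rw [tri_perm1 q v p]
    exact this

private theorem polI_nbhd (V : Finset (ℝ × ℝ)) (u : ℝ × ℝ) (hu : u ∈ PolI V) :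
    ∃ ε > 0, (u.1 + ε, u.2) ∈ PolI V := by
  classical
  induction V using Finset.induction_on with
  | empty => exact ⟨1, one_pos, by simp [PolI]⟩
  | insert w V hw ih =>
    obtain ⟨ε, hε, h1⟩ := ih (fun w' hw' => hu w' (Finset.mem_insert_of_mem hw'))
    have h2 : w.1 * u.1 + w.2 * u.2 < 1 := hu w (Finset.mem_insert_self _ _)
    set g : ℝ := 1 - (w.1 * u.1 + w.2 * u.2) with hg
    have hg0 : 0 < g := by rw [hg]; linarith
    set η : ℝ := min ε (g / (2 * (|w.1| + 1))) with hη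
    have hd : 0 < 2 * (|w.1| + 1) := by positivity
    have hη0 : 0 < η := lt_min hε (by positivity)
    refine ⟨η, hη0, fun w' hw' => ?_⟩
    rcases Finset.mem_insert.mp hw' with rfl | hw'
    · show w'.1 * (u.1 + η) + w'.2 * u.2 < 1
      have h3 : η ≤ g / (2 * (|w'.1| + 1)) := min_le_right _ _
      have h4 : η * (2 * (|w'.1| + 1)) ≤ g := by
        rwa [le_div_iff₀ hd] at h3
      have h5 : w'.1 * η ≤ |w'.1| * η := mul_le_mul_of_nonneg_right (le_abs_self _) hη0.le
      have h6 : 0 ≤ |w'.1| * η := by positivity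
      nlinarith
    · have h3 := h1 w' hw'
      have h4 : u ∈ PolI V := fun w'' hw'' => hu w'' (Finset.mem_insert_of_mem hw'')
      have h5 := h4 w' hw'
      have h3' : w'.1 * (u.1 + ε) + w'.2 * u.2 < 1 := h3
      show w'.1 * (u.1 + η) + w'.2 * u.2 < 1
      have h6 : η ≤ ε := min_le_left _ _
      rcases le_total 0 w'.1 with h7 | h7
      · have : w'.1 * η ≤ w'.1 * ε := mul_le_mul_of_nonneg_left h6 h7
        linarith
      · have : w'.1 * η ≤ 0 := mul_nonpos_of_nonpos_of_nonneg h7 hη0.le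
        linarith

private theorem ins_of_polI (V : Finset (ℝ × ℝ)) (v u : ℝ × ℝ) (hu : u ∈ PolI V) (h2 : u.2 = v.2)
    (hv1 : ¬ ins V v 1) (hv2 : ¬ ins V v (-1)) : False := by
  rcases lt_trichotomy u.1 v.1 with hlt | heq | hgt
  · apply hv2
    refine ⟨v.1 - u.1, by linarith, ?_⟩
    have : (v.1 + -1 * (v.1 - u.1), v.2) = u := by
      ext
      · simp
      · exact h2.symm
    rw [this]; exact hu
  · apply hv1
    obtain ⟨ε, hε, h3⟩ := polI_nbhd V u hu
    refine ⟨ε, hε, ?_⟩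
    rw [one_mul, ← heq, ← h2]
    exact h3
  · apply hv1
    refine ⟨u.1 - v.1, by linarith, ?_⟩
    have : (v.1 + 1 * (u.1 - v.1), v.2) = u := by
      ext
      · simp
      · exact h2.symm
    rw [this]; exact hu

private theorem ext_max (V : Finset (ℝ × ℝ)) (v : ℝ × ℝ) (hv1 : ¬ ins V v 1) (hv2 : ¬ ins V v (-1))
    (σ : ℝ) (hσ : 0 < σ * v.2) (X : ℝ × ℝ) (hX : X ∈ Pol V) : σ * X.2 ≤ σ * v.2 := by
  by_contra hcon
  push Not at hcon
  have hX0 : 0 < σ * X.2 := hσ.trans hcon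
  have hX2 : X.2 ≠ 0 := by rintro h; rw [h, mul_zero] at hX0; exact lt_irrefl _ hX0
  have hσ0 : σ ≠ 0 := by rintro h; rw [h, zero_mul] at hX0; exact lt_irrefl _ hX0
  set l : ℝ := v.2 / X.2 with hl
  have hl' : l = (σ * v.2) / (σ * X.2) := by
    rw [hl, mul_div_mul_left _ _ hσ0]
  have hl0 : 0 < l := by rw [hl']; positivity
  have hl1 : l < 1 := by rw [hl', div_lt_one hX0]; exact hcon
  refine ins_of_polI V v (l * X.1, l * X.2) (fun w hw => ?_) ?_ hv1 hv2
  · show w.1 * (l * X.1) + w.2 * (l * X.2) < 1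
    have h3 := hX w hw
    have h4 : l * (w.1 * X.1 + w.2 * X.2) ≤ l * 1 := mul_le_mul_of_nonneg_left h3 hl0.le
    nlinarith
  · show l * X.2 = v.2
    rw [hl]; field_simp

private theorem ext_uniq (V : Finset (ℝ × ℝ)) (hn : ∀ w ∈ V, w.1 ≠ 0) (v v' : ℝ × ℝ)
    (hv : v ∈ Pol V) (hv' : v' ∈ Pol V)
    (hv1 : ¬ ins V v 1) (hv2 : ¬ ins V v (-1)) (hv1' : ¬ ins V v' 1) (hv2' : ¬ ins V v' (-1))
    (σ : ℝ) (hσ : 0 < σ * v.2) (hσ' : 0 < σ * v'.2) : v = v' := by
  have h1 := ext_max V v hv1 hv2 σ hσ v' hv'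
  have h2 := ext_max V v' hv1' hv2' σ hσ' v hv
  have hσ0 : σ ≠ 0 := by rintro h; rw [h, zero_mul] at hσ; exact lt_irrefl _ hσ
  have h3 : v.2 = v'.2 := mul_left_cancel₀ hσ0 (le_antisymm h2 h1)
  by_contra hne
  have h4 : v.1 ≠ v'.1 := fun h => hne (Prod.ext h h3)
  refine ins_of_polI V v ((v.1 + v'.1) / 2, v.2) (fun w hw => ?_) rfl hv1 hv2
  show w.1 * ((v.1 + v'.1) / 2) + w.2 * v.2 < 1
  have h5 : w.1 * v.1 + w.2 * v.2 ≤ 1 := hv w hw
  have h6 : w.1 * v'.1 + w.2 * v.2 ≤ 1 := by rw [h3]; exact hv' w hw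
  by_contra hcon
  push Not at hcon
  have h7 : w.1 * (v.1 - v'.1) = 0 := by linarith
  rcases mul_eq_zero.mp h7 with h | h
  · exact hn w hw h
  · exact h4 (by linarith)

theorem ext_le (V : Finset (ℝ × ℝ)) (hn : ∀ w ∈ V, w.1 ≠ 0) (S : Finset (ℝ × ℝ))
    (hS : ∀ v ∈ S, v ∈ Pol V ∧ ¬ ins V v 1 ∧ ¬ ins V v (-1)) : S.card ≤ 2 := by
  classical
  have h0 : ∀ v ∈ S, v.2 ≠ 0 := by
    intro v hv h
    obtain ⟨_, h1, h2⟩ := hS v hv
    exact ins_of_polI V v (0, 0) (fun w hw => by simp) h.symm h1 h2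
  have hsplit : S = S.filter (fun v => 0 < v.2) ∪ S.filter (fun v => v.2 < 0) := by
    ext v
    simp only [Finset.mem_union, Finset.mem_filter]
    constructor
    · intro hv
      rcases lt_or_gt_of_ne (h0 v hv) with h | h
      · exact Or.inr ⟨hv, h⟩
      · exact Or.inl ⟨hv, h⟩
    · rintro (h | h) <;> exact h.1
  have hc1 : (S.filter (fun v => 0 < v.2)).card ≤ 1 := by
    rw [Finset.card_le_one]
    intro a ha b hb
    obtain ⟨ha, ha'⟩ := Finset.mem_filter.mp ha
    obtain ⟨hb, hb'⟩ := Finset.mem_filter.mp hb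
    exact ext_uniq V hn a b (hS a ha).1 (hS b hb).1 (hS a ha).2.1 (hS a ha).2.2 (hS b hb).2.1
      (hS b hb).2.2 1 (by linarith) (by linarith)
  have hc2 : (S.filter (fun v => v.2 < 0)).card ≤ 1 := by
    rw [Finset.card_le_one]
    intro a ha b hb
    obtain ⟨ha, ha'⟩ := Finset.mem_filter.mp ha
    obtain ⟨hb, hb'⟩ := Finset.mem_filter.mp hb
    exact ext_uniq V hn a b (hS a ha).1 (hS b hb).1 (hS a ha).2.1 (hS a ha).2.2 (hS b hb).2.1
      (hS b hb).2.2 (-1) (by linarith) (by linarith)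
  rw [hsplit]
  exact (Finset.card_union_le _ _).trans (by omega)

end Pool.ACA
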