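import Pool.Agent.Lib.MP_aca35e_co.Defs
import Pool.Agent.Lib.MP_aca35e_co.TDefs
import Pool.Agent.Lib.MP_aca35e_co.T1
import Pool.Agent.Lib.MP_aca35e_co.T2
import Pool.Agent.Lib.MP_aca35e_co.T3
import Pool.Agent.Lib.MP_aca35e_co.T5
import Pool.Agent.Lib.MP_aca35e_co.T6

/-!
# MP_aca35e_co, row T7

At most two interior double points in a polygon (count of chambers). Let `Vt` = points of `Pol V` on at least two lines of `W` (finite: finitely many lines meet the bounded set `Pol V`, `near_finite` T3, and two lines meet in at most one point). `C` = the finite set of triples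
`(a, b, c)` with `Ch W a b c`, `a, b, c ∈ Pol V` (then `a, b, c ∈ Vt`). Lower bound: for `v ∈ Vt` and `s = ±1` with `ins V v s` `mid_ex` gives `(a, v, c) ∈ C` (the triangle meets `PolI V`, no line of `V` meets it, so it is in `Pol V`, and its vertices too as limits); different `(v, s)`
give different triples (the middle vertex is `v`; `v ± ε e` cannot both be in the open triangle, since `v` is not). So `C.card ≥ 2 I + (B - 2)` where `I` = number of `v ∈ Vt ∩ PolI V` (both directions inside) and `B` = number of the other `v ∈ Vt` (at least one direction, up to two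
exceptions by `ext_le`). Upper bound: `C.card = Σ_v #(lowest vertex v) = Σ_v #(highest vertex v)`. For `v ∈ PolI V` each is `≤ ncard - 1` (T5), `≤ 2`, and `≤ 1` for a double point; for the others (on some `w₀ ∈ V`, `bd_le`) the sum of the two is `≤ ncard - 1 ≤ 2` (`mul`: `ncard ≤ 3`).
So `2 (2 I + B - 2) ≤ 2 C.card ≤ 4 I - 2 S.card + 2 B`, `S.card ≤ 2`.
-/

set_option autoImplicit false
set_option linter.unusedVariables false

namespace Pool.ACA

open Set Filter Topology

/-- two different lines meet in at most one point -/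
theorem T7.two_pt {w w' X Y : ℝ × ℝ} (hne : w ≠ w') (h1 : on w X) (h2 : on w' X) (h3 : on w Y)
    (h4 : on w' Y) : X = Y := by
  obtain ⟨a, b⟩ := w
  obtain ⟨a', b'⟩ := w'
  obtain ⟨x, y⟩ := X
  obtain ⟨x', y'⟩ := Y
  simp only [on] at h1 h2 h3 h4
  have hD : a * b' - b * a' ≠ 0 := by
    intro hD
    apply hne
    have e1 : a = a' := by
      linear_combination (-a) * h2 + a' * h1 + y * hD
    have e2 : b = b' := by
      linear_combination (-b) * h2 + b' * h1 - x * hD
    rw [e1, e2]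
  have e1 : (a * b' - b * a') * (x - x') = 0 := by
    linear_combination b' * (h1 - h3) - b * (h2 - h4)
  have e2 : (a * b' - b * a') * (y - y') = 0 := by
    linear_combination a * (h2 - h4) - a' * (h1 - h3)
  have e3 : x = x' := by
    rcases mul_eq_zero.mp e1 with h | h
    · exact absurd h hD
    · linarith
  have e4 : y = y' := by
    rcases mul_eq_zero.mp e2 with h | h
    · exact absurd h hD
    · linarith
  rw [e3, e4]

/-- the vertices of a chamber are on two different lines -/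
theorem T7.two_lines {W : Set (ℝ × ℝ)} {a b c : ℝ × ℝ} (h : FT W a b c) :
    ∃ w ∈ W, ∃ w' ∈ W, w ≠ w' ∧ on w a ∧ on w' a := by
  obtain ⟨w, hw, h1, h2⟩ := h.sb
  obtain ⟨w', hw', h3, h4⟩ := h.sc
  refine ⟨w, hw, w', hw', ?_, h1, h3⟩
  rintro rfl
  apply h.nd
  obtain ⟨u, v⟩ := w
  obtain ⟨a1, a2⟩ := a
  obtain ⟨b1, b2⟩ := b
  obtain ⟨c1, c2⟩ := c
  simp only [on, cr, Prod.mk_sub_mk] at *
  by_contra hne
  -- `(u, v)` is orthogonal to `b - a` and `c - a`
  have e1 : u * ((b1 - a1) * (c2 - a2) - (b2 - a2) * (c1 - a1)) = 0 := by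
    linear_combination (c2 - a2) * (h4 - h1) - (b2 - a2) * (h2 - h1)
  have e2 : v * ((b1 - a1) * (c2 - a2) - (b2 - a2) * (c1 - a1)) = 0 := by
    linear_combination (b1 - a1) * (h2 - h1) - (c1 - a1) * (h4 - h1)
  have hu : u = 0 := by
    rcases mul_eq_zero.mp e1 with h | h
    · exact h
    · exact absurd h hne
  have hv : v = 0 := by
    rcases mul_eq_zero.mp e2 with h | h
    · exact h
    · exact absurd h hne
  rw [hu, hv] at h1
  norm_num at h1

theorem T7.mem_ctri {a b c : ℝ × ℝ} : a ∈ ctri a b c :=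
  ⟨1, 0, 0, by norm_num, le_refl _, le_refl _, by norm_num, by simp⟩

/-- a chamber which meets the interior of the polygon has its vertices in the polygon -/
theorem T7.vtx {W : Set (ℝ × ℝ)} {a b c : ℝ × ℝ} (h : FT W a b c) (V : Finset (ℝ × ℝ))
    (hV : ∀ w ∈ V, w ∈ W) (X : ℝ × ℝ) (hX : X ∈ tri a b c) (hXV : X ∈ PolI V) : a ∈ Pol V := by
  intro w hw
  by_contra hcon
  push Not at hcon
  have hX1 : w.1 * X.1 + w.2 * X.2 < 1 := hXV w hw
  set A := w.1 * a.1 + w.2 * a.2 with hA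
  set B := w.1 * X.1 + w.2 * X.2 with hB
  have hpos : 0 < A - B := by linarith
  have hsub := ctri_seg (a := a) (b := b) (c := c) a X T7.mem_ctri hX
  set t := (A - 1) / (A - B) with ht
  have ht0 : 0 < t := div_pos (by linarith) hpos
  have ht1 : t < 1 := by
    rw [ht, div_lt_one hpos]
    linarith
  have htt : t * (A - B) = A - 1 := by
    rw [ht]
    field_simp
  have hmem : (1 - t) • a + t • X ∈ openSegment ℝ a X :=
    ⟨1 - t, t, by linarith, ht0, by ring, rfl⟩
  refine h.free w (hV w hw) _ (hsub hmem) ?_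
  have : w.1 * ((1 - t) * a.1 + t * X.1) + w.2 * ((1 - t) * a.2 + t * X.2) = 1 := by
    have : w.1 * ((1 - t) * a.1 + t * X.1) + w.2 * ((1 - t) * a.2 + t * X.2)
        = A - t * (A - B) := by
      rw [hA, hB]
      ring
    rw [this, htt]
    ring
  simpa [on] using this

theorem T7.free_vertex {W : Set (ℝ × ℝ)} {a b c : ℝ × ℝ} (h : FT W a b c) : a ∉ tri a b c := by
  intro ha
  obtain ⟨w, hw, h1, _⟩ := h.sb
  exact h.free w hw a ha h1

theorem T7.tri_convex (a b c X Y : ℝ × ℝ) (hX : X ∈ tri a b c) (hY : Y ∈ tri a b c) (Z : ℝ × ℝ)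
    (hZ : Z = (1 / 2 : ℝ) • X + (1 / 2 : ℝ) • Y) : Z ∈ tri a b c := by
  obtain ⟨r, s, t, hr, hs, ht, h1, rfl⟩ := hX
  obtain ⟨r', s', t', hr', hs', ht', h1', rfl⟩ := hY
  refine ⟨(r + r') / 2, (s + s') / 2, (t + t') / 2, by positivity, by positivity, by positivity,
    by linarith, ?_⟩
  rw [hZ]
  ext
  · simp
    ring
  · simp
    ring

theorem T7.ins_of_int (V : Finset (ℝ × ℝ)) (v : ℝ × ℝ) (hv : v ∈ PolI V) (s : ℝ) : ins V v s := by
  have hopen : IsOpen (PolI V) := by
    have : PolI V = ⋂ w ∈ V, {X : ℝ × ℝ | w.1 * X.1 + w.2 * X.2 < 1} := by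
      ext X
      simp [PolI]
    rw [this]
    refine isOpen_biInter_finset (fun w _ => ?_)
    exact isOpen_lt (by fun_prop) continuous_const
  have hcont : Continuous (fun e : ℝ => ((v.1 + s * e, v.2) : ℝ × ℝ)) := by fun_prop
  have hmem : (0 : ℝ) ∈ (fun e : ℝ => ((v.1 + s * e, v.2) : ℝ × ℝ)) ⁻¹' (PolI V) := by
    simpa using hv
  obtain ⟨e, he, hball⟩ := Metric.isOpen_iff.mp (hopen.preimage hcont) 0 hmem
  refine ⟨e / 2, by positivity, ?_⟩
  have : e / 2 ∈ Metric.ball (0 : ℝ) e := by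
    rw [Metric.mem_ball, Real.dist_eq, sub_zero, abs_of_pos (by positivity)]
    linarith
  exact hball this

/-- chambers on a given side of a vertex -/
theorem T7.side {W : Set (ℝ × ℝ)} (h : S3 W) (hn : ∀ w ∈ W, w.1 ≠ 0) (V : Finset (ℝ × ℝ))
    (hV : ∀ w ∈ V, w ∈ W) (v w w' : ℝ × ℝ) (hw : w ∈ W)
    (hw' : w' ∈ W) (hne : w ≠ w') (h1 : on w v) (h2 : on w' v) (hv : v ∈ Pol V) (s : ℝ)
    (hs : s = 1 ∨ s = -1) (hi : ins V v s) :
    ∃ a c : ℝ × ℝ, Ch W a v c ∧ a ∈ Pol V ∧ c ∈ Pol V ∧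
      ∃ ε₀ > 0, ∀ ε, 0 < ε → ε < ε₀ → (v.1 + s * ε, v.2) ∈ tri a v c := by
  obtain ⟨a, c, hch, e0, he0, hmem⟩ := mid_ex h hn v w w' hw hw' hne h1 h2 s hs
  obtain ⟨e1, he1, hin⟩ := hi
  set e := min e1 (e0 / 2) with he
  have hepos : 0 < e := lt_min he1 (by positivity)
  have hle1 : e ≤ e1 := min_le_left _ _
  have hle2 : e ≤ e0 / 2 := min_le_right _ _
  have hX := hmem e hepos (by linarith)
  have hXV : (v.1 + s * e, v.2) ∈ PolI V := by
    intro u hu
    have ha := hv u hu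
    have hb := hin u hu
    simp only at hb ⊢
    have key : e1 * (u.1 * (v.1 + s * e) + u.2 * v.2) < e1 * 1 := by
      have e2 : e1 * (u.1 * (v.1 + s * e) + u.2 * v.2)
          = (e1 - e) * (u.1 * v.1 + u.2 * v.2) + e * (u.1 * (v.1 + s * e1) + u.2 * v.2) := by
        ring
      rw [e2]
      have f1 : (e1 - e) * (u.1 * v.1 + u.2 * v.2) ≤ (e1 - e) * 1 :=
        mul_le_mul_of_nonneg_left ha (by linarith)
      have f2 : e * (u.1 * (v.1 + s * e1) + u.2 * v.2) < e * 1 :=
        mul_lt_mul_of_pos_left hb hepos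
      linarith
    exact lt_of_mul_lt_mul_left key he1.le
  refine ⟨a, c, hch, T7.vtx hch.2.2 V hV _ hX hXV, ?_, e0, he0, hmem⟩
  have hp : FT W c v a := (hch.2.2.perm2.perm1).perm2
  refine T7.vtx hp V hV _ ?_ hXV
  have : tri a v c = tri c v a := by
    rw [tri_perm2 a v c, tri_perm1 a c v, tri_perm2 c a v]
  rwa [← this]

theorem dbl_le {W : Set (ℝ × ℝ)} (h : S3 W) (hn : ∀ w ∈ W, w.1 ≠ 0) (V : Finset (ℝ × ℝ))
    (hV : ∀ w ∈ V, w ∈ W) (R : ℝ) (hR : ∀ X ∈ Pol V, |X.1| ≤ R ∧ |X.2| ≤ R) (S : Finset (ℝ × ℝ))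
    (hS : ∀ v ∈ S, v ∈ PolI V ∧ (linesAt W v).ncard = 2) : S.card ≤ 2 := by
  classical
  -- the vertices
  have hfin : {v : ℝ × ℝ | v ∈ Pol V ∧ ∃ w ∈ W, ∃ w' ∈ W, w ≠ w' ∧ on w v ∧ on w' v}.Finite := by
    have hN := near_finite h.aff R
    set N := {w ∈ W | ∃ X : ℝ × ℝ, |X.1| ≤ R ∧ |X.2| ≤ R ∧ on w X} with hNdef
    have h2 : (⋃ p ∈ (N ×ˢ N) ∩ {p : (ℝ × ℝ) × (ℝ × ℝ) | p.1 ≠ p.2},
        {v : ℝ × ℝ | on p.1 v ∧ on p.2 v}).Finite := by
      refine Set.Finite.biUnion ((hN.prod hN).inter_of_left _) ?_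
      rintro ⟨w, w'⟩ ⟨_, hne⟩
      refine Set.Subsingleton.finite ?_
      rintro X ⟨hX1, hX2⟩ Y ⟨hY1, hY2⟩
      exact T7.two_pt hne hX1 hX2 hY1 hY2
    refine h2.subset ?_
    rintro v ⟨hv, w, hw, w', hw', hne, h1, h3⟩
    simp only [Set.mem_iUnion]
    refine ⟨(w, w'), ⟨⟨⟨hw, v, (hR v hv).1, (hR v hv).2, h1⟩,
      ⟨hw', v, (hR v hv).1, (hR v hv).2, h3⟩⟩, hne⟩, h1, h3⟩
  set Vt := hfin.toFinset with hVt
  have hVt' : ∀ v, v ∈ Vt ↔ v ∈ Pol V ∧ ∃ w ∈ W, ∃ w' ∈ W, w ≠ w' ∧ on w v ∧ on w' v := by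
    intro v
    rw [hVt, Set.Finite.mem_toFinset]
    rfl
  -- the chambers
  set C : Finset ((ℝ × ℝ) × (ℝ × ℝ) × (ℝ × ℝ)) :=
    (Vt ×ˢ (Vt ×ˢ Vt)).filter (fun t => Ch W t.1 t.2.1 t.2.2) with hC
  have hC' : ∀ t, t ∈ C ↔ (t.1 ∈ Vt ∧ t.2.1 ∈ Vt ∧ t.2.2 ∈ Vt) ∧ Ch W t.1 t.2.1 t.2.2 := by
    intro t
    rw [hC, Finset.mem_filter, Finset.mem_product, Finset.mem_product]
  have hlow : C.card = ∑ v ∈ Vt, (C.filter (fun t => t.1 = v)).card :=
    Finset.card_eq_sum_card_fiberwise (f := fun t => t.1) (fun t ht => ((hC' t).mp ht).1.1)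
  have hhigh : C.card = ∑ v ∈ Vt, (C.filter (fun t => t.2.2 = v)).card :=
    Finset.card_eq_sum_card_fiberwise (f := fun t => t.2.2) (fun t ht => ((hC' t).mp ht).1.2.2)
  have hmid : C.card = ∑ v ∈ Vt, (C.filter (fun t => t.2.1 = v)).card :=
    Finset.card_eq_sum_card_fiberwise (f := fun t => t.2.1) (fun t ht => ((hC' t).mp ht).1.2.1)
  -- exceptional vertices
  set Ex := Vt.filter (fun v => ¬ ins V v 1 ∧ ¬ ins V v (-1)) with hEx
  have hExc : Ex.card ≤ 2 := by
    refine ext_le V (fun w hw => hn w (hV w hw)) Ex ?_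
    intro v hv
    rw [hEx, Finset.mem_filter] at hv
    exact ⟨((hVt' v).mp hv.1).1, hv.2⟩
  have hSV : S ⊆ Vt := by
    intro v hv
    obtain ⟨h1, h2⟩ := hS v hv
    rw [hVt']
    refine ⟨fun w hw => (h1 w hw).le, ?_⟩
    obtain ⟨w, w', hne, hww⟩ := Set.ncard_eq_two.mp h2
    have m1 : w ∈ linesAt W v := by rw [hww]; simp
    have m2 : w' ∈ linesAt W v := by rw [hww]; simp
    exact ⟨w, m1.1, w', m2.1, hne, m1.2, m2.2⟩
  have hlines : ∀ v, (linesAt W v).ncard ≤ 3 := by
    intro v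
    have hf := linesAt_finite h.aff v
    rw [Set.ncard_eq_toFinset_card _ hf]
    refine h.mul v _ ?_
    intro w hw
    rw [Set.Finite.mem_toFinset] at hw
    exact hw
  -- lower bound at a vertex
  have hmidlow : ∀ v ∈ Vt, (if ins V v 1 then 1 else 0) + (if ins V v (-1) then 1 else 0) ≤
      (C.filter (fun t => t.2.1 = v)).card := by
    intro v hv
    obtain ⟨hvP, w, hw, w', hw', hne, h1, h2⟩ := (hVt' v).mp hv
    have hmem : ∀ s : ℝ, (s = 1 ∨ s = -1) → ins V v s →
        ∃ t ∈ C.filter (fun t => t.2.1 = v), Ch W t.1 v t.2.2 ∧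
          ∃ ε₀ > 0, ∀ ε, 0 < ε → ε < ε₀ → (v.1 + s * ε, v.2) ∈ tri t.1 v t.2.2 := by
      intro s hs hi
      obtain ⟨a, c, hch, ha, hc, hh⟩ := T7.side h hn V hV v w w' hw hw' hne h1 h2 hvP s hs hi
      refine ⟨(a, v, c), ?_, hch, hh⟩
      rw [Finset.mem_filter, hC']
      refine ⟨⟨⟨?_, hv, ?_⟩, hch⟩, rfl⟩
      · rw [hVt']
        exact ⟨ha, T7.two_lines hch.2.2⟩
      · rw [hVt']
        exact ⟨hc, T7.two_lines ((hch.2.2.perm2.perm1).perm2)⟩
    by_cases i1 : ins V v 1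
    · by_cases i2 : ins V v (-1)
      · rw [if_pos i1, if_pos i2]
        obtain ⟨t, ht, hch, e0, he0, hh⟩ := hmem 1 (Or.inl rfl) i1
        obtain ⟨t', ht', hch', e0', he0', hh'⟩ := hmem (-1) (Or.inr rfl) i2
        have hne' : t ≠ t' := by
          rintro rfl
          have m1 := hh (min e0 e0' / 2) (by positivity)
            (by have := min_le_left e0 e0'; linarith)
          have m2 := hh' (min e0 e0' / 2) (by positivity)
            (by have := min_le_right e0 e0'; linarith)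
          have m3 : v ∈ tri t.1 v t.2.2 := by
            refine T7.tri_convex _ _ _ _ _ m1 m2 v ?_
            ext
            · simp only [Prod.fst_add, Prod.smul_fst, smul_eq_mul]
              ring
            · simp only [Prod.snd_add, Prod.smul_snd, smul_eq_mul]
              ring
          rw [tri_perm1] at m3
          exact T7.free_vertex hch.2.2.perm1 m3
        exact Finset.one_lt_card.mpr ⟨t, ht, t', ht', hne'⟩
      · rw [if_pos i1, if_neg i2]
        obtain ⟨t, ht, _⟩ := hmem 1 (Or.inl rfl) i1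
        exact Finset.card_pos.mpr ⟨t, ht⟩
    · by_cases i2 : ins V v (-1)
      · rw [if_neg i1, if_pos i2]
        obtain ⟨t, ht, _⟩ := hmem (-1) (Or.inr rfl) i2
        have := Finset.card_pos.mpr ⟨t, ht⟩
        omega
      · rw [if_neg i1, if_neg i2]
        exact Nat.zero_le _
  -- upper bound at a vertex
  have hup : ∀ v ∈ Vt, (C.filter (fun t => t.1 = v)).card + (C.filter (fun t => t.2.2 = v)).card +
      2 * (if v ∈ S then 1 else 0) ≤
      2 * ((if ins V v 1 then 1 else 0) + (if ins V v (-1) then 1 else 0)) +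
      2 * (if v ∈ Ex then 1 else 0) := by
    intro v hv
    set L := (C.filter (fun t => t.1 = v)).image (fun t => t.2) with hL
    set H := (C.filter (fun t => t.2.2 = v)).image (fun t => (t.1, t.2.1)) with hH
    have hLc : L.card = (C.filter (fun t => t.1 = v)).card := by
      refine Finset.card_image_of_injOn ?_
      intro t ht t' ht' he
      rw [Finset.mem_coe, Finset.mem_filter] at ht ht'
      refine Prod.ext (ht.2.trans ht'.2.symm) he
    have hHc : H.card = (C.filter (fun t => t.2.2 = v)).card := by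
      refine Finset.card_image_of_injOn ?_
      intro t ht t' ht' he
      rw [Finset.mem_coe, Finset.mem_filter] at ht ht'
      simp only [Prod.mk.injEq] at he
      exact Prod.ext he.1 (Prod.ext he.2 (ht.2.trans ht'.2.symm))
    have hLm : ∀ t ∈ L, Ch W v t.1 t.2 ∧ t.1 ∈ Vt ∧ t.2 ∈ Vt := by
      intro t ht
      rw [hL, Finset.mem_image] at ht
      obtain ⟨t', ht', rfl⟩ := ht
      rw [Finset.mem_filter, hC'] at ht'
      obtain ⟨⟨⟨m1, m2, m3⟩, hch⟩, he⟩ := ht'
      rw [he] at hch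
      exact ⟨hch, m2, m3⟩
    have hHm : ∀ t ∈ H, Ch W t.1 t.2 v ∧ t.1 ∈ Vt ∧ t.2 ∈ Vt := by
      intro t ht
      rw [hH, Finset.mem_image] at ht
      obtain ⟨t', ht', rfl⟩ := ht
      rw [Finset.mem_filter, hC'] at ht'
      obtain ⟨⟨⟨m1, m2, m3⟩, hch⟩, he⟩ := ht'
      rw [he] at hch
      exact ⟨hch, m1, m2⟩
    rw [← hLc, ← hHc]
    have hl3 := hlines v
    by_cases hint : v ∈ PolI V
    · have i1 := T7.ins_of_int V v hint 1
      have i2 := T7.ins_of_int V v hint (-1)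
      rw [if_pos i1, if_pos i2]
      have b1 := low_le h hn v L (fun t ht => (hLm t ht).1)
      have b2 := high_le h hn v H (fun t ht => (hHm t ht).1)
      by_cases hvS : v ∈ S
      · rw [if_pos hvS]
        have := (hS v hvS).2
        omega
      · rw [if_neg hvS]
        omega
    · have hvS : v ∉ S := fun hvS => hint (hS v hvS).1
      rw [if_neg hvS]
      have hvP := ((hVt' v).mp hv).1
      obtain ⟨w₀, hw₀, hon⟩ : ∃ w₀ ∈ V, on w₀ v := by
        by_contra hcon
        push Not at hcon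
        exact hint (fun w hw => lt_of_le_of_ne (hvP w hw) (hcon w hw))
      have hb := bd_le h hn v w₀ (hV w₀ hw₀) hon L H
        (fun t ht => ⟨(hLm t ht).1, ((hVt' _).mp (hLm t ht).2.1).1 w₀ hw₀,
          ((hVt' _).mp (hLm t ht).2.2).1 w₀ hw₀⟩)
        (fun t ht => ⟨(hHm t ht).1, ((hVt' _).mp (hHm t ht).2.1).1 w₀ hw₀,
          ((hVt' _).mp (hHm t ht).2.2).1 w₀ hw₀⟩)
      by_cases i1 : ins V v 1
      · rw [if_pos i1]
        omega
      · by_cases i2 : ins V v (-1)
        · rw [if_pos i2]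
          omega
        · have : v ∈ Ex := by
            rw [hEx, Finset.mem_filter]
            exact ⟨hv, i1, i2⟩
          rw [if_pos this]
          omega
  -- summation
  have s1 := Finset.sum_le_sum hmidlow
  have s2 := Finset.sum_le_sum hup
  have hSc : ∑ v ∈ Vt, (if v ∈ S then 1 else 0) = S.card := by
    rw [Finset.sum_boole, Finset.filter_mem_eq_inter, Finset.inter_eq_right.mpr hSV]
    simp
  have hExV : Ex ⊆ Vt := Finset.filter_subset _ _
  clear_value Ex
  have hExs : ∑ v ∈ Vt, (if v ∈ Ex then 1 else 0) = Ex.card := by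
    rw [Finset.sum_boole, Finset.filter_mem_eq_inter, Finset.inter_eq_right.mpr hExV]
    simp
  rw [Finset.sum_add_distrib, Finset.sum_add_distrib, Finset.sum_add_distrib, ← Finset.mul_sum,
    ← Finset.mul_sum, ← Finset.mul_sum, hSc, hExs, ← hlow, ← hhigh] at s2
  rw [← hmid] at s1
  omega

end Pool.ACA
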