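import Pool.Agent.Lib.MP_aca35e_co.Defs
import Pool.Agent.Lib.MP_aca35e_co.TDefs
import Pool.Agent.Lib.MP_aca35e_co.T1
import Pool.Agent.Lib.MP_aca35e_co.T3

/-!
# MP_aca35e_co, row T8

Large polygons. Let `WR` = the `w ∈ W` with `|w.1|, |w.2| < 1/(4R)`. No direction `θ ≠ 0` has
`w·θ ≤ 0` for all `w ∈ WR` (otherwise a ray meets no line of `W`, but chambers are bounded
triangles). By compactness of the sphere of directions finitely many `w ∈ WR` suffice.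
-/

set_option autoImplicit false
set_option linter.unusedVariables false

namespace Pool.ACA

open Set Filter Topology

private theorem pe_tri_bd {a b c X : ℝ × ℝ} (hX : X ∈ tri a b c) :
    |X.1| ≤ |a.1| + |b.1| + |c.1| ∧ |X.2| ≤ |a.2| + |b.2| + |c.2| := by
  obtain ⟨r, s, t, hr, hs, ht, hsum, rfl⟩ := hX
  have hr1 : r ≤ 1 := by linarith
  have hs1 : s ≤ 1 := by linarith
  have ht1 : t ≤ 1 := by linarith
  have key : ∀ x y z : ℝ, |r * x + s * y + t * z| ≤ |x| + |y| + |z| := by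
    intro x y z
    have h1 : |r * x| ≤ |x| := by
      rw [abs_mul, abs_of_pos hr]
      nlinarith [abs_nonneg x]
    have h2 : |s * y| ≤ |y| := by
      rw [abs_mul, abs_of_pos hs]
      nlinarith [abs_nonneg y]
    have h3 : |t * z| ≤ |z| := by
      rw [abs_mul, abs_of_pos ht]
      nlinarith [abs_nonneg z]
    calc |r * x + s * y + t * z| ≤ |r * x + s * y| + |t * z| := abs_add_le _ _
      _ ≤ |r * x| + |s * y| + |t * z| := by linarith [abs_add_le (r * x) (s * y)]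
      _ ≤ |x| + |y| + |z| := by linarith
  constructor
  · simpa using key a.1 b.1 c.1
  · simpa using key a.2 b.2 c.2

private theorem pe_far (y θ B t₀ : ℝ) (hθ : θ ≠ 0) : ∃ t, t₀ ≤ t ∧ B < |y + t * θ| := by
  have hp : 0 < |θ| := abs_pos.mpr hθ
  refine ⟨max t₀ ((|B| + |y| + 1) / |θ|), le_max_left _ _, ?_⟩
  set t := max t₀ ((|B| + |y| + 1) / |θ|) with ht
  have h1 : (|B| + |y| + 1) / |θ| ≤ t := le_max_right _ _
  have h2 : |B| + |y| + 1 ≤ t * |θ| := by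
    rwa [div_le_iff₀ hp] at h1
  have h3 : 0 ≤ t := by
    refine le_trans ?_ h1
    positivity
  have h4 : |t * θ| = t * |θ| := by rw [abs_mul, abs_of_nonneg h3]
  have h5 : |t * θ| - |y| ≤ |y + t * θ| := by
    have := abs_sub_abs_le_abs_sub (t * θ) (-y)
    rw [abs_neg] at this
    have h6 : t * θ - -y = y + t * θ := by ring
    rwa [h6] at this
  have h7 := le_abs_self B
  linarith

private theorem pe_dir {W : Set (ℝ × ℝ)} (h : S3 W) (R : ℝ) (hR : 0 < R) (θ : ℝ × ℝ)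
    (hθ : θ ≠ 0) :
    ∃ w ∈ W, |w.1| < 1 / (4 * R) ∧ |w.2| < 1 / (4 * R) ∧ 0 < w.1 * θ.1 + w.2 * θ.2 := by
  by_contra hcon
  push Not at hcon
  have hR4 : 0 < 1 / (4 * R) := by positivity
  have hF : {w ∈ W | 1 / (4 * R) ≤ |w.1| ∨ 1 / (4 * R) ≤ |w.2|}.Finite := h.aff.fin _ hR4
  set F := {w ∈ W | 1 / (4 * R) ≤ |w.1| ∨ 1 / (4 * R) ≤ |w.2|} with hFdef
  have hθn : 0 < |θ.1| + |θ.2| + 1 := by positivity
  -- choice of the starting point
  have hs : ∃ s : ℝ, 0 < s ∧ s < R / (|θ.1| + |θ.2| + 1) ∧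
      s ∉ (fun w : ℝ × ℝ => 1 / (-w.1 * θ.2 + w.2 * θ.1)) '' F := by
    have hinf : (Ioo (0 : ℝ) (R / (|θ.1| + |θ.2| + 1))).Infinite :=
      Ioo_infinite (by positivity)
    obtain ⟨s, hs1, hs2⟩ := hinf.exists_notMem_finite (hF.image
      (fun w : ℝ × ℝ => 1 / (-w.1 * θ.2 + w.2 * θ.1)))
    exact ⟨s, hs1.1, hs1.2, hs2⟩
  obtain ⟨s, hs0, hs1, hs2⟩ := hs
  rw [lt_div_iff₀ hθn] at hs1
  set Y : ℝ × ℝ := (-s * θ.2, s * θ.1) with hY
  have hY1 : |Y.1| ≤ R := by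
    have : |Y.1| = s * |θ.2| := by
      rw [hY]
      simp [abs_mul, abs_of_pos hs0]
    rw [this]
    nlinarith [abs_nonneg θ.1, abs_nonneg θ.2]
  have hY2 : |Y.2| ≤ R := by
    have : |Y.2| = s * |θ.1| := by
      rw [hY]
      simp [abs_mul, abs_of_pos hs0]
    rw [this]
    nlinarith [abs_nonneg θ.1, abs_nonneg θ.2]
  -- the parameters
  obtain ⟨t₀, ht₀⟩ : ∃ t₀ : ℝ, 0 ≤ t₀ ∧ ∀ w ∈ F, ∀ t, t₀ ≤ t →
      ¬ (w.1 * θ.1 + w.2 * θ.2 ≠ 0 ∧ w.1 * (Y.1 + t * θ.1) + w.2 * (Y.2 + t * θ.2) = 1) := by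
    obtain ⟨M, hM⟩ := (hF.image (fun w : ℝ × ℝ =>
      (1 - (w.1 * Y.1 + w.2 * Y.2)) / (w.1 * θ.1 + w.2 * θ.2))).bddAbove
    refine ⟨max 0 (M + 1), le_max_left _ _, ?_⟩
    rintro w hw t ht ⟨hne, heq⟩
    have h1 : (1 - (w.1 * Y.1 + w.2 * Y.2)) / (w.1 * θ.1 + w.2 * θ.2) ≤ M :=
      hM (mem_image_of_mem _ hw)
    have h2 : (1 - (w.1 * Y.1 + w.2 * Y.2)) / (w.1 * θ.1 + w.2 * θ.2) = t := by
      rw [div_eq_iff hne]
      linarith
    have h3 : M + 1 ≤ t := le_trans (le_max_right _ _) ht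
    linarith
  obtain ⟨ht₀0, ht₀1⟩ := ht₀
  -- the ray meets no line
  have hray : ∀ w ∈ W, ∀ t, t₀ ≤ t → ¬ on w (Y.1 + t * θ.1, Y.2 + t * θ.2) := by
    intro w hw t ht hon
    unfold on at hon
    simp only at hon
    have ht0 : 0 ≤ t := le_trans ht₀0 ht
    by_cases hwF : w ∈ F
    · by_cases hne : w.1 * θ.1 + w.2 * θ.2 = 0
      · have h1 : w.1 * Y.1 + w.2 * Y.2 = 1 := by
          have : w.1 * (Y.1 + t * θ.1) + w.2 * (Y.2 + t * θ.2) =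
            w.1 * Y.1 + w.2 * Y.2 + t * (w.1 * θ.1 + w.2 * θ.2) := by ring
          rw [this, hne] at hon
          linarith
        apply hs2
        refine ⟨w, hwF, ?_⟩
        have h2 : s * (-w.1 * θ.2 + w.2 * θ.1) = 1 := by
          rw [← h1, hY]
          simp only
          ring
        have h3 : (-w.1 * θ.2 + w.2 * θ.1) ≠ 0 := by
          intro h0
          rw [h0] at h2
          simp at h2
        simp only
        rw [div_eq_iff h3]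
        linarith
      · exact ht₀1 w hwF t ht ⟨hne, hon⟩
    · have hw12 : |w.1| < 1 / (4 * R) ∧ |w.2| < 1 / (4 * R) := by
        by_contra hc
        apply hwF
        refine ⟨hw, ?_⟩
        by_contra hc2
        push Not at hc2
        exact hc ⟨hc2.1, hc2.2⟩
      have h1 := hcon w hw hw12.1 hw12.2
      have h2 : w.1 * Y.1 ≤ |w.1| * |Y.1| := by
        rw [← abs_mul]
        exact le_abs_self _
      have h3 : w.2 * Y.2 ≤ |w.2| * |Y.2| := by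
        rw [← abs_mul]
        exact le_abs_self _
      have h4 : |w.1| * |Y.1| ≤ 1 / (4 * R) * R :=
        mul_le_mul hw12.1.le hY1 (abs_nonneg _) hR4.le
      have h5 : |w.2| * |Y.2| ≤ 1 / (4 * R) * R :=
        mul_le_mul hw12.2.le hY2 (abs_nonneg _) hR4.le
      have h6 : 1 / (4 * R) * R = 1 / 4 := by
        field_simp
      have h7 : w.1 * (Y.1 + t * θ.1) + w.2 * (Y.2 + t * θ.2) =
            w.1 * Y.1 + w.2 * Y.2 + t * (w.1 * θ.1 + w.2 * θ.2) := by ring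
      have h8 : t * (w.1 * θ.1 + w.2 * θ.2) ≤ 0 := mul_nonpos_of_nonneg_of_nonpos ht0 h1
      rw [h7] at hon
      rw [h6] at h4 h5
      linarith
  -- the chamber
  obtain ⟨a, b, c, hX, hnd, hfree, wa, hwa, wb, hwb, wc, hwc, h1, h2, h3, h4, h5, h6⟩ :=
    h.tri (Y.1 + t₀ * θ.1, Y.2 + t₀ * θ.2) (fun w hw => hray w hw t₀ le_rfl)
  have hFT : FT W a b c := ⟨hnd, hfree, ⟨wa, hwa, h1, h2⟩, ⟨wb, hwb, h3, h4⟩, ⟨wc, hwc, h5, h6⟩⟩
  have hsub := tri_sub hFT ((fun t : ℝ => ((Y.1 + t * θ.1, Y.2 + t * θ.2) : ℝ × ℝ)) '' Ici t₀)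
    (isPreconnected_Ici.image _ (by fun_prop)) (by
      rintro w hw X ⟨t, ht, rfl⟩
      exact hray w hw t ht) ⟨_, ⟨t₀, le_refl t₀, rfl⟩, hX⟩
  have hb : ∀ t, t₀ ≤ t → |Y.1 + t * θ.1| ≤ |a.1| + |b.1| + |c.1| ∧
      |Y.2 + t * θ.2| ≤ |a.2| + |b.2| + |c.2| := by
    intro t ht
    exact pe_tri_bd (hsub ⟨t, ht, rfl⟩)
  by_cases hθ1 : θ.1 = 0
  · have hθ2 : θ.2 ≠ 0 := by
      intro h0
      exact hθ (Prod.ext hθ1 h0)
    obtain ⟨t, ht, hlt⟩ := pe_far Y.2 θ.2 (|a.2| + |b.2| + |c.2|) t₀ hθ2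
    linarith [(hb t ht).2]
  · obtain ⟨t, ht, hlt⟩ := pe_far Y.1 θ.1 (|a.1| + |b.1| + |c.1|) t₀ hθ1
    linarith [(hb t ht).1]

theorem pol_exists {W : Set (ℝ × ℝ)} (h : S3 W) (R : ℝ) (hR : 0 < R) :
    ∃ (V : Finset (ℝ × ℝ)) (R' : ℝ), (∀ w ∈ V, w ∈ W) ∧ (∀ X ∈ Pol V, |X.1| ≤ R' ∧ |X.2| ≤ R') ∧
      ∀ X : ℝ × ℝ, |X.1| ≤ R → |X.2| ≤ R → X ∈ PolI V := by
  classical
  have hR4 : 0 < 1 / (4 * R) := by positivity
  let U : (ℝ × ℝ) × ℕ → Set (ℝ × ℝ) := fun q =>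
    {θ | q.1 ∈ W ∧ |q.1.1| < 1 / (4 * R) ∧ |q.1.2| < 1 / (4 * R) ∧
      1 / ((q.2 : ℝ) + 1) < q.1.1 * θ.1 + q.1.2 * θ.2}
  have hUo : ∀ q, IsOpen (U q) := by
    intro q
    by_cases hq : q.1 ∈ W ∧ |q.1.1| < 1 / (4 * R) ∧ |q.1.2| < 1 / (4 * R)
    · have : U q = {θ : ℝ × ℝ | 1 / ((q.2 : ℝ) + 1) < q.1.1 * θ.1 + q.1.2 * θ.2} := by
        ext θ
        exact ⟨fun hh => hh.2.2.2, fun hh => ⟨hq.1, hq.2.1, hq.2.2, hh⟩⟩
      rw [this]
      exact isOpen_lt (by fun_prop) (by fun_prop)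
    · have : U q = ∅ := by
        ext θ
        constructor
        · intro hh
          exact hq ⟨hh.1, hh.2.1, hh.2.2.1⟩
        · intro hh
          exact hh.elim
      rw [this]
      exact isOpen_empty
  have hcov : Metric.sphere (0 : ℝ × ℝ) 1 ⊆ ⋃ q, U q := by
    intro θ hθ
    have hθ0 : θ ≠ 0 := by
      rintro rfl
      simp at hθ
    obtain ⟨w, hw, h1, h2, h3⟩ := pe_dir h R hR θ hθ0
    obtain ⟨k, hk⟩ := exists_nat_one_div_lt h3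
    exact mem_iUnion.mpr ⟨(w, k), hw, h1, h2, hk⟩
  obtain ⟨T, hT⟩ := (isCompact_sphere (0 : ℝ × ℝ) 1).elim_finite_subcover U hUo hcov
  let T' := T.filter (fun q => q.1 ∈ W ∧ |q.1.1| < 1 / (4 * R) ∧ |q.1.2| < 1 / (4 * R))
  obtain ⟨K, hK⟩ : ∃ K : ℕ, ∀ q ∈ T, q.2 ≤ K :=
    ⟨T.sup (fun q => q.2), fun q hq => Finset.le_sup (f := fun q : (ℝ × ℝ) × ℕ => q.2) hq⟩
  refine ⟨T'.image Prod.fst, (K : ℝ) + 1, ?_, ?_, ?_⟩
  · intro w hw
    obtain ⟨q, hq, rfl⟩ := Finset.mem_image.mp hw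
    exact (Finset.mem_filter.mp hq).2.1
  · intro X hX
    have hKp : (0 : ℝ) < (K : ℝ) + 1 := by positivity
    suffices hn : ‖X‖ ≤ (K : ℝ) + 1 by
      have h1 := norm_fst_le X
      have h2 := norm_snd_le X
      rw [Real.norm_eq_abs] at h1 h2
      exact ⟨h1.trans hn, h2.trans hn⟩
    by_cases hX0 : X = 0
    · rw [hX0, norm_zero]
      exact hKp.le
    have hnp : 0 < ‖X‖ := norm_pos_iff.mpr hX0
    have hsph : (‖X‖⁻¹ • X) ∈ Metric.sphere (0 : ℝ × ℝ) 1 := by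
      rw [mem_sphere_zero_iff_norm, norm_smul, norm_inv, norm_norm]
      exact inv_mul_cancel₀ hnp.ne'
    obtain ⟨q, hq, hmem⟩ := mem_iUnion₂.mp (hT hsph)
    obtain ⟨g1, g2, g3, g4⟩ := hmem
    have hqV : q.1 ∈ T'.image Prod.fst :=
      Finset.mem_image.mpr ⟨q, Finset.mem_filter.mpr ⟨hq, g1, g2, g3⟩, rfl⟩
    have h1 := hX q.1 hqV
    have h2 : q.1.1 * (‖X‖⁻¹ • X).1 + q.1.2 * (‖X‖⁻¹ • X).2 =
        ‖X‖⁻¹ * (q.1.1 * X.1 + q.1.2 * X.2) := by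
      simp only [Prod.smul_fst, Prod.smul_snd, smul_eq_mul]
      ring
    rw [h2] at g4
    have h3 : (1 : ℝ) / ((K : ℝ) + 1) ≤ 1 / ((q.2 : ℝ) + 1) := by
      apply one_div_le_one_div_of_le (by positivity)
      have := hK q hq
      have h4 : (q.2 : ℝ) ≤ K := by exact_mod_cast this
      linarith
    have h4 : ‖X‖⁻¹ * (q.1.1 * X.1 + q.1.2 * X.2) ≤ ‖X‖⁻¹ * 1 :=
      mul_le_mul_of_nonneg_left h1 (inv_nonneg.mpr hnp.le)
    have h5 : 1 / ((K : ℝ) + 1) < ‖X‖⁻¹ := by linarith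
    rw [one_div] at h5
    exact ((inv_lt_inv₀ hKp hnp).mp h5).le
  · intro X h1 h2 w hw
    obtain ⟨q, hq, rfl⟩ := Finset.mem_image.mp hw
    obtain ⟨g0, g1, g2, g3⟩ := Finset.mem_filter.mp hq
    have h3 : q.1.1 * X.1 ≤ |q.1.1| * |X.1| := by
      rw [← abs_mul]
      exact le_abs_self _
    have h4 : q.1.2 * X.2 ≤ |q.1.2| * |X.2| := by
      rw [← abs_mul]
      exact le_abs_self _
    have h5 : |q.1.1| * |X.1| ≤ 1 / (4 * R) * R :=
      mul_le_mul g2.le h1 (abs_nonneg _) hR4.le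
    have h6 : |q.1.2| * |X.2| ≤ 1 / (4 * R) * R :=
      mul_le_mul g3.le h2 (abs_nonneg _) hR4.le
    have h7 : 1 / (4 * R) * R = 1 / 4 := by
      field_simp
    rw [h7] at h5 h6
    linarith

end Pool.ACA
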