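import Pool.Agent.Lib.MP_aca35e_co.T4
import Pool.Agent.Lib.MP_aca35e_co.T7
import Pool.Agent.Lib.MP_aca35e_co.T8
import Pool.Agent.Lib.MP_aca35e_co.T11
import Pool.Agent.Lib.MP_aca35e_co.A8

/-!
# MP_aca35e_co, stage 2: degree 3 is impossible
-/

set_option autoImplicit false

namespace Pool.ACA

open Set Filter Topology

theorem deg3 {W : Set (ℝ × ℝ)} (h : S3 W) : False := by
  obtain ⟨W, h, hn⟩ := h.nohor
  have hinf := dbl_infinite h (aff_inf W h.aff h.tri)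
  obtain ⟨S, hS, hcard⟩ := hinf.exists_subset_card_eq 3
  obtain ⟨R, hR⟩ : ∃ R : ℝ, 0 < R ∧ ∀ v ∈ S, |v.1| ≤ R ∧ |v.2| ≤ R := by
    refine ⟨1 + ∑ v ∈ S, (|v.1| + |v.2|), ?_, ?_⟩
    · have : 0 ≤ ∑ v ∈ S, (|v.1| + |v.2|) := Finset.sum_nonneg (fun v _ => by positivity)
      linarith
    · intro v hv
      have h1 : |v.1| + |v.2| ≤ ∑ v ∈ S, (|v.1| + |v.2|) :=
        Finset.single_le_sum (f := fun v : ℝ × ℝ => |v.1| + |v.2|) (fun v _ => by positivity) hv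
      have h2 := abs_nonneg v.1
      have h3 := abs_nonneg v.2
      constructor <;> linarith
  obtain ⟨V, R', hV, hb, hin⟩ := pol_exists h R hR.1
  have := dbl_le h hn V hV R' hb S (fun v hv => ⟨hin v (hR.2 v hv).1 (hR.2 v hv).2, hS hv⟩)
  omega

end Pool.ACA
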