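import Pool.Agent.Lib.MP_aca35e_co.Defs

/-!
# MP_aca35e_co, row E1

Enumeration of the far lines. `enum_seq`: for `x ∈ S` the rank `#{y ∈ S | x < y}` is finite; every rank occurs (S infinite). E.g. build `a`
by recursion: `a n` = the maximum of `S ∖ {a 0, ..., a (n-1)}` (nonempty, and has a maximum: `{y ∈ S | x ≤ y}` finite for `x` in it).
`enum_far`: apply it to `S = {|w.1| : w ∈ W, (fam i).has w}` (`farsign`: `|·|` is injective on `U`; `w.2 = φ w.1`; finite above `ε` by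
`Setup.fin`; `0 < |w.1|`). Last claim: `w = x n`: `ev w y = w.2 - w.1 y` is small when `|w.1|, |w.2|` are small; only finitely many `w ∈ W` have
`|w.1| ≥ ε'` or `|w.2| ≥ ε'`, and `x` is injective.
-/

set_option autoImplicit false
set_option linter.unusedVariables false

namespace Pool.ACA

open Set Filter Topology

private theorem exists_max (S T : Set ℝ) (hT : T ⊆ S) (hne : T.Nonempty) (hpos : ∀ x ∈ S, 0 < x)
    (hfin : ∀ ε > 0, {x ∈ S | ε ≤ x}.Finite) : ∃ t ∈ T, ∀ z ∈ T, z ≤ t := by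
  obtain ⟨x, hx⟩ := hne
  have hf : (T ∩ Ici x).Finite :=
    (hfin x (hpos x (hT hx))).subset fun y hy => ⟨hT hy.1, hy.2⟩
  obtain ⟨t, ht, hmax⟩ := Set.exists_max_image (T ∩ Ici x) id hf ⟨x, hx, self_mem_Ici⟩
  refine ⟨t, ht.1, fun z hz => ?_⟩
  rcases le_or_gt x z with h | h
  · exact hmax z ⟨hz, h⟩
  · exact h.le.trans ht.2

theorem enum_seq (S : Set ℝ) (hS : S.Infinite) (hpos : ∀ x ∈ S, 0 < x)
    (hfin : ∀ ε > 0, {x ∈ S | ε ≤ x}.Finite) :
    ∃ a : ℕ → ℝ, (∀ i j, i < j → a j < a i) ∧ Set.range a = S := by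
  obtain ⟨t, htS, ht⟩ := exists_max S S subset_rfl hS.nonempty hpos hfin
  have hnext : ∀ x : S, ∃ y : S, y.1 < x.1 ∧ ∀ z ∈ S, z < x.1 → z ≤ y.1 := by
    intro x
    have hne : (S ∩ Iio x.1).Nonempty := by
      by_contra h
      rw [not_nonempty_iff_eq_empty] at h
      refine hS ((hfin x.1 (hpos _ x.2)).subset fun y hy => ⟨hy, ?_⟩)
      by_contra h'
      have : y ∈ S ∩ Iio x.1 := ⟨hy, not_le.1 h'⟩
      rw [h] at this
      exact this
    obtain ⟨y, hy, hmax⟩ := exists_max S (S ∩ Iio x.1) inter_subset_left hne hpos hfin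
    exact ⟨⟨y, hy.1⟩, hy.2, fun z hz hzx => hmax z ⟨hz, hzx⟩⟩
  choose g hg1 hg2 using hnext
  let a : ℕ → S := fun n => Nat.rec ⟨t, htS⟩ (fun _ x => g x) n
  have ha0 : a 0 = ⟨t, htS⟩ := rfl
  have hasucc : ∀ n, a (n + 1) = g (a n) := fun n => rfl
  have hanti : StrictAnti (fun n => (a n).1) := strictAnti_nat_of_succ_lt fun n => by
    rw [hasucc]; exact hg1 _
  refine ⟨fun n => (a n).1, fun i j hij => hanti hij, ?_⟩
  apply Subset.antisymm
  · rintro _ ⟨n, rfl⟩
    exact (a n).2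
  · intro z hz
    by_contra hno
    have hle : ∀ n, z ≤ (a n).1 := by
      intro n
      induction n with
      | zero => exact ht z hz
      | succ n ih =>
        rw [hasucc]
        refine hg2 _ z hz (lt_of_le_of_ne ih ?_)
        intro h
        exact hno ⟨n, h.symm⟩
    have hinf : (Set.range fun n => (a n).1).Infinite :=
      Set.infinite_range_of_injective hanti.injective
    refine hinf ((hfin z (hpos z hz)).subset ?_)
    rintro _ ⟨n, rfl⟩
    exact ⟨(a n).2, hle n⟩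

theorem enum_far {D : ℕ} {p : MvPolynomial (Fin 2) ℝ} {W : Set (ℝ × ℝ)} (h : Setup D p W) {K m : ℕ} (w : Web p W K m) (i : Fin w.n)
    (hi : w.far i) :
    ∃ x : ℕ → ℝ × ℝ, (∀ n, x n ∈ W ∧ (w.fam i).has (x n)) ∧ (∀ n k, n < k → |(x k).1| < |(x n).1|) ∧
      (∀ v ∈ W, (w.fam i).has v → ∃ n, v = x n) ∧
      ∀ ε > 0, ∃ n₀, ∀ n ≥ n₀, ∀ y ∈ Icc (w.mr 0) (w.mr K), ev (x n) y < ε := by
  have hinj : ∀ v v' : ℝ × ℝ, (w.fam i).has v → (w.fam i).has v' → |v.1| = |v'.1| → v = v' := by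
    intro v v' hv hv' habs
    have h1 : v.1 = v'.1 := by
      rcases w.farsign i hi with hs | hs
      · rwa [abs_of_pos (hs _ hv.1), abs_of_pos (hs _ hv'.1)] at habs
      · rw [abs_of_neg (hs _ hv.1), abs_of_neg (hs _ hv'.1)] at habs
        linarith
    have h2 : v.2 = v'.2 := by rw [hv.2, hv'.2, h1]
    exact Prod.ext h1 h2
  have hpos0 : ∀ v : ℝ × ℝ, (w.fam i).has v → 0 < |v.1| := by
    intro v hv
    rcases w.farsign i hi with hs | hs
    · exact abs_pos.2 (hs _ hv.1).ne'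
    · exact abs_pos.2 (hs _ hv.1).ne
  set V : Set (ℝ × ℝ) := {v ∈ W | (w.fam i).has v} with hV
  have hVinf : V.Infinite := w.farinf i hi
  set S : Set ℝ := (fun v : ℝ × ℝ => |v.1|) '' V with hSdef
  have hSinf : S.Infinite := by
    refine hVinf.image ?_
    intro v hv v' hv' hvv
    exact hinj v v' hv.2 hv'.2 hvv
  have hSpos : ∀ x ∈ S, 0 < x := by
    rintro _ ⟨v, hv, rfl⟩
    exact hpos0 v hv.2
  have hSfin : ∀ ε > 0, {x ∈ S | ε ≤ x}.Finite := by
    intro ε hε
    refine ((h.fin ε hε).image (fun v : ℝ × ℝ => |v.1|)).subset ?_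
    rintro _ ⟨⟨v, hv, rfl⟩, hx⟩
    exact ⟨v, ⟨hv.1, Or.inl hx⟩, rfl⟩
  obtain ⟨a, ha, har⟩ := enum_seq S hSinf hSpos hSfin
  have hex : ∀ n, ∃ v ∈ V, |v.1| = a n := by
    intro n
    have : a n ∈ S := har ▸ mem_range_self n
    obtain ⟨v, hv, hva⟩ := this
    exact ⟨v, hv, hva⟩
  choose x hxV hxa using hex
  have hanti : ∀ n k, n < k → |(x k).1| < |(x n).1| := by
    intro n k hnk
    rw [hxa, hxa]
    exact ha n k hnk
  refine ⟨x, fun n => ⟨(hxV n).1, (hxV n).2⟩, hanti, ?_, ?_⟩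
  · intro v hvW hv
    have : |v.1| ∈ Set.range a := by
      rw [har]
      exact ⟨v, ⟨hvW, hv⟩, rfl⟩
    obtain ⟨n, hn⟩ := this
    exact ⟨n, hinj v (x n) hv (hxV n).2 (by rw [hxa, hn])⟩
  · intro ε hε
    set M : ℝ := max |w.mr 0| |w.mr K| with hM
    have hM0 : 0 ≤ M := (abs_nonneg _).trans (le_max_left _ _)
    have hε' : 0 < ε / (M + 2) := by positivity
    have hxinj : Function.Injective x := by
      intro n k hnk
      rcases lt_trichotomy n k with hlt | heq | hlt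
      · have := hanti n k hlt
        rw [hnk] at this
        exact absurd this (lt_irrefl _)
      · exact heq
      · have := hanti k n hlt
        rw [hnk] at this
        exact absurd this (lt_irrefl _)
    have hF : (x ⁻¹' {v ∈ W | ε / (M + 2) ≤ |v.1| ∨ ε / (M + 2) ≤ |v.2|}).Finite :=
      (h.fin _ hε').preimage hxinj.injOn
    obtain ⟨n₀, hn₀⟩ := hF.bddAbove
    refine ⟨n₀ + 1, fun n hn y hy => ?_⟩
    have hnot : ¬ (x n ∈ {v ∈ W | ε / (M + 2) ≤ |v.1| ∨ ε / (M + 2) ≤ |v.2|}) := by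
      intro hmem
      have := hn₀ (show n ∈ x ⁻¹' {v ∈ W | ε / (M + 2) ≤ |v.1| ∨ ε / (M + 2) ≤ |v.2|} from hmem)
      omega
    have h1 : |(x n).1| < ε / (M + 2) := by
      by_contra hc
      exact hnot ⟨(hxV n).1, Or.inl (not_lt.1 hc)⟩
    have h2 : |(x n).2| < ε / (M + 2) := by
      by_contra hc
      exact hnot ⟨(hxV n).1, Or.inr (not_lt.1 hc)⟩
    have hyM : |y| ≤ M := by
      rw [abs_le]
      constructor
      · have h3 : -|w.mr 0| ≤ w.mr 0 := neg_abs_le _
        have h4 : |w.mr 0| ≤ M := le_max_left _ _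
        linarith [hy.1]
      · have h3 : w.mr K ≤ |w.mr K| := le_abs_self _
        have h4 : |w.mr K| ≤ M := le_max_right _ _
        linarith [hy.2]
    have h3 : |(x n).1 * y| ≤ ε / (M + 2) * M := by
      rw [abs_mul]
      exact mul_le_mul h1.le hyM (abs_nonneg _) hε'.le
    have h4 : ev (x n) y ≤ |(x n).2| + |(x n).1 * y| := by
      unfold ev
      have h5 := le_abs_self (x n).2
      have h6 := neg_abs_le ((x n).1 * y)
      linarith
    have h5 : ε / (M + 2) * (M + 2) = ε := by field_simp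
    nlinarith

end Pool.ACA
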