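import Pool.Agent.Lib.MP_aca35e_co.Defs

/-!
# MP_aca35e_co, row E2

Pure combinatorics. `pigeon`: at each marker `a ≤ K` let `j a` be a label maximising `f · a`; `K + 1 > card L` markers, so `j a = j b`, `a < b`.
`sign_changes`: `sign (b - a s)` is nondecreasing in `s` (values -1, 0, 1) when `a` is strictly decreasing, so it changes at most twice.
`maximal`: otherwise for every `s ∈ [q, 2q]` there is `r s ≥ 1` with `s + r s ≤ 4 q` and sum over `[s, s + r s)` `> C r s`. Start at `q` and jump
`s ↦ s + r s` until `> 2 q`: disjoint intervals in `[q, 4q)` of total length `≥ q + 1`, so the total sum is `≥ C (q + 1) > C q` (if `C = 0` the sum is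
`> 0 = C q` directly). (Formal: strong induction on `2 q + 1 - s`: for `s ∈ [q, 2q]` there is `s' ∈ (2q, 4q]` with sum over `[s, s')` at least `C (s' - s) + 1`.)
-/

set_option autoImplicit false
set_option linter.unusedVariables false

namespace Pool.ACA

open Set Filter Topology

theorem pigeon (L : Type) [Fintype L] [Nonempty L] (K : ℕ) (hK : Fintype.card L ≤ K)
    (f : L → ℕ → ℝ) :
    ∃ (j : L) (a b : ℕ), a < b ∧ b ≤ K ∧ (∀ k, f k a ≤ f j a) ∧ ∀ k, f k b ≤ f j b := by
  have hmax : ∀ a : ℕ, ∃ j : L, ∀ k, f k a ≤ f j a := fun a => by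
    obtain ⟨j, -, hj⟩ := Finset.exists_max_image (Finset.univ : Finset L) (fun k => f k a)
      Finset.univ_nonempty
    exact ⟨j, fun k => hj k (Finset.mem_univ k)⟩
  choose j hj using hmax
  have hcard : Fintype.card L < Fintype.card (Fin (K + 1)) := by
    rw [Fintype.card_fin]; omega
  obtain ⟨x, y, hxy, he⟩ := Fintype.exists_ne_map_eq_of_card_lt
    (fun i : Fin (K + 1) => j i) hcard
  have he' : j (x : ℕ) = j (y : ℕ) := he
  have hne : (x : ℕ) ≠ (y : ℕ) := fun h => hxy (Fin.ext h)
  have hx := x.2
  have hy := y.2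
  rcases lt_or_gt_of_ne hne with h | h
  · refine ⟨j x, x, y, h, by omega, hj x, ?_⟩
    rw [he']
    exact hj y
  · refine ⟨j y, y, x, h, by omega, hj y, ?_⟩
    rw [← he']
    exact hj x

theorem sign_changes (a : ℕ → ℝ) (ha : ∀ i j, i < j → a j < a i) (b : ℝ) (n : ℕ) :
    ((Finset.range n).filter
      (fun s => SignType.sign (b - a s) ≠ SignType.sign (b - a (s + 1)))).card ≤ 2 := by
  have hmono : ∀ i j, i ≤ j → SignType.sign (b - a i) ≤ SignType.sign (b - a j) := by
    intro i j hij
    apply SignType.sign.monotone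
    rcases hij.eq_or_lt with h | h
    · rw [h]
    · have := ha i j h
      linarith
  have hinj : Set.InjOn (fun s => SignType.sign (b - a s))
      ((Finset.range n).filter
        (fun s => SignType.sign (b - a s) ≠ SignType.sign (b - a (s + 1))) : Finset ℕ) := by
    have key : ∀ s t, s < t → SignType.sign (b - a s) ≠ SignType.sign (b - a (s + 1)) →
        SignType.sign (b - a s) ≠ SignType.sign (b - a t) := by
      intro s t hst hs he
      have h1 := hmono s (s + 1) (Nat.le_succ s)
      have h2 := hmono (s + 1) t hst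
      exact hs (le_antisymm h1 (he ▸ h2))
    intro s hs t ht he
    simp only [Finset.coe_filter, Finset.mem_range, Set.mem_setOf_eq] at hs ht
    by_contra hne
    rcases lt_or_gt_of_ne hne with h | h
    · exact key s t h hs.2 he
    · exact key t s h ht.2 he.symm
  have himg : ((Finset.range n).filter
      (fun s => SignType.sign (b - a s) ≠ SignType.sign (b - a (s + 1)))).image
        (fun s => SignType.sign (b - a s)) ⊆ {(-1 : SignType), 0} := by
    intro x hx
    rw [Finset.mem_image] at hx
    obtain ⟨s, hs, rfl⟩ := hx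
    rw [Finset.mem_filter] at hs
    have h1 := hmono s (s + 1) (Nat.le_succ s)
    have h2 := lt_of_le_of_ne h1 hs.2
    generalize SignType.sign (b - a s) = u at h2 ⊢
    generalize SignType.sign (b - a (s + 1)) = v at h2
    revert h2
    revert u v
    decide
  calc _ = _ := (Finset.card_image_of_injOn hinj).symm
    _ ≤ _ := Finset.card_le_card himg
    _ ≤ 2 := by decide

theorem maximal (e : ℕ → ℕ) (q C : ℕ) (h : ∑ s ∈ Finset.range (4 * q), e s ≤ C * q) :
    ∃ s, q ≤ s ∧ s ≤ 2 * q ∧ ∀ r, 1 ≤ r → s + r ≤ 4 * q →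
      ∑ l ∈ Finset.Ico s (s + r), e l ≤ C * r := by
  by_contra hcon
  push Not at hcon
  have key : ∀ m s : ℕ, 2 * q + 1 - s ≤ m → q ≤ s → s ≤ 2 * q →
      ∃ s', 2 * q < s' ∧ s' ≤ 4 * q ∧ C * (s' - s) + 1 ≤ ∑ l ∈ Finset.Ico s s', e l := by
    intro m
    induction m with
    | zero => intro s h1 h2 h3; omega
    | succ m ih =>
      intro s h1 h2 h3
      obtain ⟨r, hr, hle, hlt⟩ := hcon s h2 h3
      by_cases hc : 2 * q < s + r
      · refine ⟨s + r, hc, hle, ?_⟩
        have : s + r - s = r := by omega
        rw [this]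
        exact hlt
      · obtain ⟨s', h4, h5, h6⟩ := ih (s + r) (by omega) (by omega) (by omega)
        refine ⟨s', h4, h5, ?_⟩
        have hsplit := Finset.sum_Ico_consecutive e (m := s) (n := s + r) (k := s')
          (by omega) (by omega)
        rw [← hsplit]
        have hs : s' - s = r + (s' - (s + r)) := by omega
        rw [hs, Nat.mul_add]
        omega
  obtain ⟨s', h4, h5, h6⟩ := key (2 * q + 1) q (by omega) le_rfl (by omega)
  have hsub : ∑ l ∈ Finset.Ico q s', e l ≤ ∑ s ∈ Finset.range (4 * q), e s := by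
    apply Finset.sum_le_sum_of_subset
    intro x hx
    rw [Finset.mem_Ico] at hx
    rw [Finset.mem_range]
    omega
  have hC : C * q ≤ C * (s' - q) := Nat.mul_le_mul_left C (by omega)
  omega

end Pool.ACA
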