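import Pool.Agent.Lib.MP_aca35e_co.Defs
import Pool.Agent.Lib.MP_aca35e_co.E2

/-!
# MP_aca35e_co, row E3

Core of the window lemma. An event at `l` is a pair `(k, i)`, `i < 4q`, whose sign pattern against `(A j l, B j l)` differs from the one against
`(A j (l+1), B j (l+1))`. Let `e l` be the number of events at `l < 4 q`. Each `(k, i)` has at most `2 + 2` events (`sign_changes`), so
`∑ e l ≤ 4 * K * (4 q) = 16 K q`; use `maximal` with `C = 16 K`; a union of `r` sets.
-/

set_option autoImplicit false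
set_option linter.unusedVariables false

namespace Pool.ACA

open Set Filter Topology

open Classical in
theorem core (K q : ℕ) (L : Type) [Fintype L] [DecidableEq L]
    (hL : Fintype.card L ≤ K) (j : L) (A B : L → ℕ → ℝ) (hA : ∀ i k, i < k → A j k < A j i)
    (hB : ∀ i k, i < k → B j k < B j i) :
    ∃ s, q ≤ s ∧ s ≤ 2 * q ∧ ∀ r, 1 ≤ r → s + r ≤ 4 * q →
      ((Finset.univ ×ˢ Finset.range (4 * q) : Finset (L × ℕ)).filter (fun y : L × ℕ =>
        ∃ l, s ≤ l ∧ l < s + r ∧
          (SignType.sign (A y.1 y.2 - A j l) ≠ SignType.sign (A y.1 y.2 - A j (l + 1)) ∨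
           SignType.sign (B y.1 y.2 - B j l) ≠ SignType.sign (B y.1 y.2 - B j (l + 1))))).card
        ≤ 16 * K * r := by
  let ev : L × ℕ → ℕ → Prop := fun y l =>
    (SignType.sign (A y.1 y.2 - A j l) ≠ SignType.sign (A y.1 y.2 - A j (l + 1)) ∨
      SignType.sign (B y.1 y.2 - B j l) ≠ SignType.sign (B y.1 y.2 - B j (l + 1)))
  let Y : Finset (L × ℕ) := Finset.univ ×ˢ Finset.range (4 * q)
  let e : ℕ → ℕ := fun l => (Y.filter (fun y => ev y l)).card
  have hrow : ∀ y : L × ℕ, ((Finset.range (4 * q)).filter (fun l => ev y l)).card ≤ 4 := by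
    intro y
    have h1 := sign_changes (A j) hA (A y.1 y.2) (4 * q)
    have h2 := sign_changes (B j) hB (B y.1 y.2) (4 * q)
    have h3 : (Finset.range (4 * q)).filter (fun l => ev y l) =
        (Finset.range (4 * q)).filter (fun s =>
          SignType.sign (A y.1 y.2 - A j s) ≠ SignType.sign (A y.1 y.2 - A j (s + 1))) ∪
        (Finset.range (4 * q)).filter (fun s =>
          SignType.sign (B y.1 y.2 - B j s) ≠ SignType.sign (B y.1 y.2 - B j (s + 1))) := by
      rw [← Finset.filter_or]
    rw [h3]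
    refine (Finset.card_union_le _ _).trans ?_
    omega
  have hsum : ∑ l ∈ Finset.range (4 * q), e l ≤ 16 * K * q := by
    have h1 : ∑ l ∈ Finset.range (4 * q), e l =
        ∑ y ∈ Y, ((Finset.range (4 * q)).filter (fun l => ev y l)).card := by
      simp only [e, Finset.card_filter]
      exact Finset.sum_comm
    rw [h1]
    refine (Finset.sum_le_card_nsmul Y _ 4 fun y _ => hrow y).trans ?_
    have h2 : Y.card = Fintype.card L * (4 * q) := by
      simp [Y, Finset.card_product]
    rw [h2, smul_eq_mul]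
    calc Fintype.card L * (4 * q) * 4 ≤ K * (4 * q) * 4 := by gcongr
      _ = 16 * K * q := by ring
  obtain ⟨s, hs1, hs2, hs⟩ := maximal e q (16 * K) hsum
  refine ⟨s, hs1, hs2, fun r hr hsr => ?_⟩
  refine le_trans ?_ (hs r hr hsr)
  have hsub : Y.filter (fun y => ∃ l, s ≤ l ∧ l < s + r ∧ ev y l) ⊆
      (Finset.Ico s (s + r)).biUnion (fun l => Y.filter (fun y => ev y l)) := by
    intro y hy
    obtain ⟨hyY, l, hl1, hl2, hl3⟩ := Finset.mem_filter.mp hy
    exact Finset.mem_biUnion.mpr ⟨l, Finset.mem_Ico.mpr ⟨hl1, hl2⟩,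
      Finset.mem_filter.mpr ⟨hyY, hl3⟩⟩
  exact (Finset.card_le_card hsub).trans Finset.card_biUnion_le

end Pool.ACA
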