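import Pool.Agent.Lib.MP_aca35e_co.Defs
import Pool.Agent.Lib.MP_aca35e_co.E1
import Pool.Agent.Lib.MP_aca35e_co.E2
import Pool.Agent.Lib.MP_aca35e_co.E3

/-!
# MP_aca35e_co, row E4

Existence of the window. Let `L` = far labels, `X k : ℕ → ℝ × ℝ` their enumerations (E1). Let `q` be large: `q ≥` number of fixed lines in `W`
(`fixedfin`), and `ev (X k n) < ρ` on `[mr 0, mr K]` for all far `k` and `n ≥ q`. `pigeon` (E2) for `f k a = ev (X k (4q)) (mr a)`: `j`, `a < b`; put
`α = mr a`, `β = mr b`. So `ev (X k (4q)) ≤ ev (X j (4q))` on `[α, β]` for all far `k` (affine), hence lines `X k i`, `i ≥ 4q`, lie strictly below `X j l`,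
`l < 4 q`, over `[α, β]` (`farmono`). `core` (E3) with `A k i = ev (X k i) α`, `B k i = ev (X k i) β`: `s`.
Lines of `W` meeting `x_l := X j l` (`q ≤ l < 4q`) over `(α, β)` (at height `< ρ`, so `cover` applies): not of label `j` (`uniq`); far of label
`k ≠ j`: then it is `X k i` with `i < 4q`; or fixed: then `ev w α * ev w β < 0` (else `|ev w| ≥ ρ` on `[α, β]` by `fixedmk` at both ends and equal signs),
and then it crosses every `x_l` (at the positive end it is `≥ ρ > ev x_l`, at the other end `< 0`). A far line `y` meets `x_l` at a point of the open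
block iff `(ev y α - ev x_l α) (ev y β - ev x_l β) < 0` (if `y ≠ x_l`), i.e. it depends only on the sign pattern, and without event in `[s, s+r)` the
pattern is constant for `x_s, ..., x_{s+r}`. Let `d` = number of lines of `W` crossing `x_s` over `(α, β)`; `d ≥ m` by `many` (some `[mr k, mr (k+1)] ⊆ [α, β]`).
`d ≤ 4 q K + q`. `r = d / (64 K)`: `r ≥ 1`, `s + r ≤ 4q`, `d ≤ 128 K r` (as `d ≥ m ≥ 128 K`), number of lines with an event in `[s, s+r)` `≤ 16 K r ≤ d / 4`.
`Λ` = all lines of `W` crossing some `x_l`, `s ≤ l ≤ s + r`, over `(α, β)`: `≤ d + d/4`. Each `x_l` is crossed by `≥ d - d/4` lines. Order: `|(X j l).1|` is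
decreasing in `l`; if `U ⊆ (-∞, 0)` put `x i = X j (s + i)`, otherwise `x i = X j (s + r - i)`.
It is fine to split this row into several private lemmas.
-/

set_option autoImplicit false
set_option linter.unusedVariables false

namespace Pool.ACA

open Set Filter Topology

private theorem ev_aff (w : ℝ × ℝ) (α β t : ℝ) :
    (β - α) * ev w t = (β - t) * ev w α + (t - α) * ev w β := by
  simp only [ev]; ring

private theorem ev_ext {y x : ℝ × ℝ} {α β : ℝ} (hαβ : α < β) (h1 : ev y α = ev x α)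
    (h2 : ev y β = ev x β) : y = x := by
  simp only [ev] at h1 h2
  have h3 : (y.1 - x.1) * (β - α) = 0 := by linarith
  have h4 : y.1 = x.1 := by
    rcases mul_eq_zero.mp h3 with h | h
    · linarith
    · linarith
  apply Prod.ext h4
  rw [h4] at h1
  linarith

/-- zeros of an affine function between two points of opposite signs -/
private theorem cross_of_neg {y x : ℝ × ℝ} {α β : ℝ} (hαβ : α < β)
    (h : (ev y α - ev x α) * (ev y β - ev x β) < 0) : ∃ t ∈ Ioo α β, ev y t = ev x t := by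
  set a := ev y α - ev x α with ha
  set b := ev y β - ev x β with hb
  have hab : a - b ≠ 0 := by
    intro h0
    have : a = b := by linarith
    rw [this] at h
    nlinarith [mul_self_nonneg b]
  refine ⟨α + (β - α) * (a / (a - b)), ?_, ?_⟩
  · have hpos : 0 < a / (a - b) ∧ a / (a - b) < 1 := by
      rcases lt_or_gt_of_ne (show a ≠ 0 by rintro h0; rw [h0] at h; simp at h) with h1 | h1
      · have h2 : 0 < b := by
          by_contra hb0
          push Not at hb0
          nlinarith [mul_nonneg_of_nonpos_of_nonpos h1.le hb0]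
        constructor
        · exact div_pos_of_neg_of_neg h1 (by linarith)
        · rw [div_lt_one_of_neg (by linarith)]; linarith
      · have h2 : b < 0 := by
          by_contra hb0
          push Not at hb0
          nlinarith [mul_nonneg h1.le hb0]
        constructor
        · exact div_pos h1 (by linarith)
        · rw [div_lt_one (by linarith)]; linarith
    have hba : 0 < β - α := by linarith
    constructor
    · nlinarith [mul_pos hba hpos.1]
    · nlinarith [mul_pos hba (sub_pos.mpr hpos.2)]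
  · have h1 : ev y (α + (β - α) * (a / (a - b))) - ev x (α + (β - α) * (a / (a - b)))
        = a - (a - b) * (a / (a - b)) := by
      rw [ha, hb]
      simp only [ev]
      ring
    rw [mul_div_cancel₀ _ hab] at h1
    linarith

private theorem neg_of_cross {y x : ℝ × ℝ} {α β : ℝ} (hαβ : α < β) (hne : y ≠ x)
    (h : ∃ t ∈ Ioo α β, ev y t = ev x t) : (ev y α - ev x α) * (ev y β - ev x β) < 0 := by
  obtain ⟨t, ht, he⟩ := h
  have h1 := ev_aff y α β t
  have h2 := ev_aff x α β t
  have h3 : (β - t) * (ev y α - ev x α) + (t - α) * (ev y β - ev x β) = 0 := by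
    rw [he] at h1
    linarith
  have hp : 0 < β - t := by linarith [ht.2]
  have hq : 0 < t - α := by linarith [ht.1]
  by_contra hcon
  push Not at hcon
  have h4 : ev y α - ev x α = -((t - α) / (β - t)) * (ev y β - ev x β) := by
    field_simp
    linarith
  have h5 : 0 < (t - α) / (β - t) := div_pos hq hp
  have h6 : ev y β - ev x β = 0 := by
    rw [h4] at hcon
    have : (t - α) / (β - t) * ((ev y β - ev x β) * (ev y β - ev x β)) ≤ 0 := by linarith
    have h7 : (ev y β - ev x β) * (ev y β - ev x β) ≤ 0 := by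
      by_contra h8
      push Not at h8
      nlinarith [mul_pos h5 h8]
    nlinarith [mul_self_nonneg (ev y β - ev x β)]
  have h7 : ev y α - ev x α = 0 := by rw [h4, h6]; ring
  exact hne (ev_ext hαβ (by linarith) (by linarith))

private theorem sign_neg {a b a' b' : ℝ} (h1 : SignType.sign a = SignType.sign a')
    (h2 : SignType.sign b = SignType.sign b') (h : a * b < 0) : a' * b' < 0 := by
  rw [← sign_eq_neg_one_iff, sign_mul] at h ⊢
  rw [← h1, ← h2]; exact h

private theorem mr_lt {p : MvPolynomial (Fin 2) ℝ} {W : Set (ℝ × ℝ)} {K m : ℕ} (w : Web p W K m)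
    {a b : ℕ} (hab : a < b) (hb : b ≤ K) : w.mr a < w.mr b := by
  induction b with
  | zero => omega
  | succ b ih =>
    rcases Nat.lt_succ_iff_lt_or_eq.mp hab with h | h
    · exact (ih h (by omega)).trans (w.mono b (by omega))
    · subst h; exact w.mono a (by omega)

private theorem mr_le {p : MvPolynomial (Fin 2) ℝ} {W : Set (ℝ × ℝ)} {K m : ℕ} (w : Web p W K m)
    {a b : ℕ} (hab : a ≤ b) (hb : b ≤ K) : w.mr a ≤ w.mr b := by
  rcases hab.lt_or_eq with h | h
  · exact (mr_lt w h hb).le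
  · rw [h]

/-- a fixed line which changes sign between two markers crosses every low positive line -/
private theorem fixed_cross {p : MvPolynomial (Fin 2) ℝ} {W : Set (ℝ × ℝ)} {K m : ℕ}
    (w : Web p W K m) {y x : ℝ × ℝ} (hy : y ∈ W) (hyf : ∃ i, ¬ w.far i ∧ (w.fam i).has y)
    {a b : ℕ} (hab : a < b) (hb : b ≤ K)
    (hx : ∀ t ∈ Icc (w.mr a) (w.mr b), 0 < ev x t ∧ ev x t < w.ρ)
    (hs : ev y (w.mr a) * ev y (w.mr b) < 0) :
    y ≠ x ∧ ∃ t ∈ Ioo (w.mr a) (w.mr b), ev y t = ev x t := by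
  obtain ⟨i, hi, hyi⟩ := hyf
  have hlt := mr_lt w hab hb
  have h1 := w.fixedmk i hi y hy hyi a (by omega)
  have h2 := w.fixedmk i hi y hy hyi b hb
  have hxa := hx (w.mr a) ⟨le_refl _, hlt.le⟩
  have hxb := hx (w.mr b) ⟨hlt.le, le_refl _⟩
  have hρ := w.hρ
  constructor
  · rintro rfl
    nlinarith [mul_pos hxa.1 hxb.1]
  · apply cross_of_neg hlt
    rcases lt_or_ge (ev y (w.mr a)) 0 with h3 | h3
    · have h4 : 0 < ev y (w.mr b) := by
        by_contra h5
        push Not at h5
        nlinarith [mul_nonneg_of_nonpos_of_nonpos h3.le h5]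
      rw [abs_of_pos h4] at h2
      have h5 : ev y (w.mr a) - ev x (w.mr a) < 0 := by linarith [hxa.1]
      have h6 : 0 < ev y (w.mr b) - ev x (w.mr b) := by linarith [hxb.2]
      exact mul_neg_of_neg_of_pos h5 h6
    · have h4 : ev y (w.mr b) < 0 := by
        by_contra h5
        push Not at h5
        nlinarith [mul_nonneg h3 h5]
      rw [abs_of_nonneg h3] at h1
      have h5 : 0 < ev y (w.mr a) - ev x (w.mr a) := by linarith [hxa.2]
      have h6 : ev y (w.mr b) - ev x (w.mr b) < 0 := by linarith [hxb.1]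
      exact mul_neg_of_pos_of_neg h5 h6

/-- a fixed line which crosses a low positive line between two markers changes sign -/
private theorem fixed_sign {p : MvPolynomial (Fin 2) ℝ} {W : Set (ℝ × ℝ)} {K m : ℕ}
    (w : Web p W K m) {y x : ℝ × ℝ} (hy : y ∈ W) (hyf : ∃ i, ¬ w.far i ∧ (w.fam i).has y)
    {a b : ℕ} (hab : a < b) (hb : b ≤ K)
    (hx : ∀ t ∈ Icc (w.mr a) (w.mr b), 0 < ev x t ∧ ev x t < w.ρ)
    (hc : ∃ t ∈ Ioo (w.mr a) (w.mr b), ev y t = ev x t) :
    ev y (w.mr a) * ev y (w.mr b) < 0 := by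
  obtain ⟨i, hi, hyi⟩ := hyf
  obtain ⟨t, ht, he⟩ := hc
  have hlt := mr_lt w hab hb
  have h1 := w.fixedmk i hi y hy hyi a (by omega)
  have h2 := w.fixedmk i hi y hy hyi b hb
  have hρ := w.hρ
  have hxt := hx t ⟨ht.1.le, ht.2.le⟩
  rw [← he] at hxt
  have haff := ev_aff y (w.mr a) (w.mr b) t
  have hp : 0 < w.mr b - t := by linarith [ht.2]
  have hq : 0 < t - w.mr a := by linarith [ht.1]
  rcases lt_or_ge (ev y (w.mr a)) 0 with h3 | h3
  · rcases lt_or_ge (ev y (w.mr b)) 0 with h4 | h4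
    · exfalso
      nlinarith [mul_pos hp (neg_pos.mpr h3), mul_pos hq (neg_pos.mpr h4),
        mul_pos (sub_pos.mpr hlt) hxt.1]
    · rw [abs_of_nonneg h4] at h2
      exact mul_neg_of_neg_of_pos h3 (by linarith)
  · rcases lt_or_ge (ev y (w.mr b)) 0 with h4 | h4
    · rw [abs_of_nonneg h3] at h1
      exact mul_neg_of_pos_of_neg (by linarith) h4
    · exfalso
      rw [abs_of_nonneg h3] at h1
      rw [abs_of_nonneg h4] at h2
      nlinarith [mul_le_mul_of_nonneg_left h1 hp.le, mul_le_mul_of_nonneg_left h2 hq.le,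
        mul_pos (sub_pos.mpr hlt) (sub_pos.mpr hxt.2)]

theorem window_exists {D : ℕ} {p : MvPolynomial (Fin 2) ℝ} {W : Set (ℝ × ℝ)} (h : Setup D p W) {K m : ℕ} (w : Web p W K m) (d₀ : ℕ)
    (hm : d₀ ≤ m) (hm' : 128 * K ≤ m) (hK : 1 ≤ K) : Nonempty (Window w (128 * K) d₀) := by
  classical
  -- far labels
  let L := {i : Fin w.n // w.far i}
  haveI : Fintype L := Fintype.ofFinite L
  have : Nonempty L := by obtain ⟨i, hi⟩ := w.farne; exact ⟨⟨i, hi⟩⟩
  have hLK : Fintype.card L ≤ K := by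
    rw [← Nat.card_eq_fintype_card]; exact w.far_le
  have hen : ∀ k : L, ∃ x : ℕ → ℝ × ℝ, (∀ n, x n ∈ W ∧ (w.fam k.1).has (x n)) ∧
      (∀ n k, n < k → |(x k).1| < |(x n).1|) ∧
      (∀ v ∈ W, (w.fam k.1).has v → ∃ n, v = x n) ∧
      ∀ ε > 0, ∃ n₀, ∀ n ≥ n₀, ∀ y ∈ Icc (w.mr 0) (w.mr K), ev (x n) y < ε :=
    fun k => enum_far h w k.1 k.2
  choose X hX1 hX2 hX3 hX4 using hen
  choose n0 hn0 using fun k : L => hX4 k w.ρ w.hρ
  -- fixed lines
  set Fx : Set (ℝ × ℝ) := {y ∈ W | ∃ i, ¬ w.far i ∧ (w.fam i).has y} with hFx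
  have hFxfin : Fx.Finite := w.fixedfin
  set q : ℕ := (∑ k : L, n0 k) + Fx.ncard + 1 with hq
  have hq1 : 1 ≤ q := by omega
  have hqF : Fx.ncard ≤ q := by omega
  have hqn : ∀ k : L, n0 k ≤ q := by
    intro k
    have : n0 k ≤ ∑ k : L, n0 k := Finset.single_le_sum (fun _ _ => Nat.zero_le _) (Finset.mem_univ k)
    omega
  have hlow : ∀ k : L, ∀ n, q ≤ n → ∀ y ∈ Icc (w.mr 0) (w.mr K), ev (X k n) y < w.ρ :=
    fun k n hn y hy => hn0 k n ((hqn k).trans hn) y hy
  have hposX : ∀ k : L, ∀ n, ∀ y ∈ Icc (w.mr 0) (w.mr K), 0 < ev (X k n) y :=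
    fun k n y hy => w.farpos k.1 k.2 _ (hX1 k n).2 y hy
  obtain ⟨j, a, b, hab, hbK, hja, hjb⟩ := pigeon L K hLK (fun k a => ev (X k (4 * q)) (w.mr a))
  have hαβ : w.mr a < w.mr b := mr_lt w hab hbK
  have h0a : w.mr 0 ≤ w.mr a := mr_le w (Nat.zero_le _) (by omega)
  have hbK' : w.mr b ≤ w.mr K := mr_le w hbK (le_refl _)
  have hsub : ∀ t ∈ Icc (w.mr a) (w.mr b), t ∈ Icc (w.mr 0) (w.mr K) :=
    fun t ht => ⟨h0a.trans ht.1, ht.2.trans hbK'⟩
  have hmonoX : ∀ k : L, ∀ i l, i < l → ∀ t ∈ Icc (w.mr a) (w.mr b), ev (X k l) t < ev (X k i) t :=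
    fun k i l hil t ht => w.farmono k.1 k.2 _ _ (hX1 k l).2 (hX1 k i).2 (hX2 k i l hil) t (hsub t ht)
  have hmonoX' : ∀ k : L, ∀ i l, i ≤ l → ∀ t ∈ Icc (w.mr a) (w.mr b), ev (X k l) t ≤ ev (X k i) t := by
    intro k i l hil t ht
    rcases hil.lt_or_eq with h1 | h1
    · exact (hmonoX k i l h1 t ht).le
    · rw [h1]
  have hdom : ∀ k : L, ∀ i l, 4 * q ≤ i → l < 4 * q → ∀ t ∈ Icc (w.mr a) (w.mr b),
      ev (X k i) t < ev (X j l) t := by
    intro k i l hi hl t ht
    have h1 := hmonoX' k (4 * q) i hi t ht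
    have h2 := hmonoX j l (4 * q) hl t ht
    have h3 : ev (X k (4 * q)) t ≤ ev (X j (4 * q)) t := by
      have e1 := ev_aff (X k (4 * q)) (w.mr a) (w.mr b) t
      have e2 := ev_aff (X j (4 * q)) (w.mr a) (w.mr b) t
      have e3 := mul_le_mul_of_nonneg_left (hja k) (sub_nonneg.mpr ht.2)
      have e4 := mul_le_mul_of_nonneg_left (hjb k) (sub_nonneg.mpr ht.1)
      have hpos : 0 < w.mr b - w.mr a := by linarith
      have e5 : (w.mr b - w.mr a) * ev (X k (4 * q)) t ≤ (w.mr b - w.mr a) * ev (X j (4 * q)) t := by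
        rw [e1, e2]; exact add_le_add e3 e4
      exact le_of_mul_le_mul_left e5 hpos
    linarith
  -- core
  obtain ⟨s, hqs, hs2, hcore⟩ := core K q L hLK j (fun k i => ev (X k i) (w.mr a))
    (fun k i => ev (X k i) (w.mr b))
    (fun i k hik => hmonoX j i k hik _ ⟨le_refl _, hαβ.le⟩)
    (fun i k hik => hmonoX j i k hik _ ⟨hαβ.le, le_refl _⟩)
  -- properties of x_l
  have hxl : ∀ l, q ≤ l → ∀ t ∈ Icc (w.mr a) (w.mr b), 0 < ev (X j l) t ∧ ev (X j l) t < w.ρ :=
    fun l hl t ht => ⟨hposX j l t (hsub t ht), hlow j l hl t (hsub t ht)⟩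
  -- classification
  have hclass : ∀ l, q ≤ l → l < 4 * q → ∀ y ∈ W, y ≠ X j l →
      (∃ t ∈ Ioo (w.mr a) (w.mr b), ev y t = ev (X j l) t) →
      (y ∈ Fx ∧ ev y (w.mr a) * ev y (w.mr b) < 0) ∨ ∃ k : L, k ≠ j ∧ ∃ i < 4 * q, y = X k i := by
    intro l hl hl4 y hy hne hc
    obtain ⟨t, ht, he⟩ := hc
    have htI : t ∈ Icc (w.mr a) (w.mr b) := ⟨ht.1.le, ht.2.le⟩
    have htr : t ∈ Ioo (w.mr 0) (w.mr K) := ⟨lt_of_le_of_lt h0a ht.1, lt_of_lt_of_le ht.2 hbK'⟩
    have hx := hxl l hl t htI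
    obtain ⟨i, hi⟩ := w.cover y hy t htr (by rw [he]; exact hx.1) (by rw [he]; exact hx.2)
    by_cases hfi : w.far i
    · right
      obtain ⟨n, hn⟩ := hX3 ⟨i, hfi⟩ y hy hi
      have hij : (⟨i, hfi⟩ : L) ≠ j := by
        intro hij
        apply hne
        have hi' : (w.fam j.1).has y := by rw [← hij]; exact hi
        have hreg : ((t, ev (X j l) t) : ℝ × ℝ) ∈ reg (w.mr 0) (w.mr K) w.ρ :=
          ⟨htr, hx.1, hx.2⟩
        have e1 := (w.fam j.1).uniq _ hreg y.1 hi'.1 (by rw [← hi'.2]; exact he)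
        have hj' := (hX1 j l).2
        have e2 := (w.fam j.1).uniq _ hreg (X j l).1 hj'.1 (by rw [← hj'.2])
        apply Prod.ext
        · rw [e1, e2]
        · rw [hi'.2, hj'.2, e1, ← e2]
      refine ⟨⟨i, hfi⟩, hij, n, ?_, hn⟩
      by_contra hn4
      push Not at hn4
      have := hdom ⟨i, hfi⟩ n l hn4 hl4 t htI
      rw [← hn, he] at this
      exact lt_irrefl _ this
    · left
      exact ⟨⟨hy, i, hfi, hi⟩, fixed_sign w hy ⟨i, hfi, hi⟩ hab hbK (hxl l hl) ⟨t, ht, he⟩⟩
  -- the finset of the crossing lines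
  set All : Finset (ℝ × ℝ) := hFxfin.toFinset ∪
    ((Finset.univ ×ˢ Finset.range (4 * q) : Finset (L × ℕ)).image (fun y => X y.1 y.2)) with hAll
  have hAllcard : All.card ≤ q + 4 * q * K := by
    refine (Finset.card_union_le _ _).trans ?_
    have h1 : hFxfin.toFinset.card ≤ q := by
      rw [← Set.ncard_eq_toFinset_card _ hFxfin]; exact hqF
    have h2 := Finset.card_image_le (s := (Finset.univ ×ˢ Finset.range (4 * q) : Finset (L × ℕ)))
      (f := fun y => X y.1 y.2)
    rw [Finset.card_product, Finset.card_range, Finset.card_univ] at h2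
    have h3 : Fintype.card L * (4 * q) ≤ K * (4 * q) := Nat.mul_le_mul_right _ hLK
    nlinarith
  set Cs : Finset (ℝ × ℝ) := All.filter (fun y => y ∈ W ∧ y ≠ X j s ∧
    ∃ t ∈ Ioo (w.mr a) (w.mr b), ev y t = ev (X j s) t) with hCs
  set d := Cs.card with hd
  have hs4 : s < 4 * q := by omega
  have hCsmem : ∀ y, y ∈ Cs ↔ (y ∈ W ∧ y ≠ X j s ∧
      ∃ t ∈ Ioo (w.mr a) (w.mr b), ev y t = ev (X j s) t) := by
    intro y
    rw [hCs, Finset.mem_filter]
    constructor
    · exact fun h => h.2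
    · intro hy
      refine ⟨?_, hy⟩
      rw [hAll, Finset.mem_union]
      rcases hclass s hqs hs4 y hy.1 hy.2.1 hy.2.2 with h1 | ⟨k, hk, i, hi, he⟩
      · left; rw [Set.Finite.mem_toFinset]; exact h1.1
      · right
        rw [Finset.mem_image]
        exact ⟨(k, i), by simp [hi], he.symm⟩
  have hdle : d ≤ q + 4 * q * K := (Finset.card_filter_le _ _).trans hAllcard
  have hmd : m ≤ d := by
    obtain ⟨S, hS, hSm⟩ := w.many a (by omega)
    refine hS.trans (Finset.card_le_card ?_)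
    intro y hy
    obtain ⟨hyW, hyf, hys⟩ := hSm y hy
    rw [hCsmem]
    have hsub' : ∀ t ∈ Icc (w.mr a) (w.mr (a + 1)), t ∈ Icc (w.mr a) (w.mr b) :=
      fun t ht => ⟨ht.1, ht.2.trans (mr_le w (by omega) hbK)⟩
    obtain ⟨h1, t, ht, he⟩ := fixed_cross w hyW hyf (Nat.lt_succ_self a) (by omega)
      (fun t ht => hxl s hqs t (hsub' t ht)) hys
    exact ⟨hyW, h1, t, ⟨ht.1, lt_of_lt_of_le ht.2 (mr_le w (by omega) hbK)⟩, he⟩
  set r := d / (64 * K) with hr
  have hK64 : 0 < 64 * K := by omega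
  have hr1 : 1 ≤ r := by
    rw [hr, Nat.one_le_div_iff hK64]; omega
  have hr2 : 64 * K * r ≤ d := Nat.mul_div_le d (64 * K)
  have hr3 : d < 64 * K * (r + 1) := by
    rw [hr]; exact Nat.lt_mul_div_succ d hK64
  have hdr : d ≤ 128 * K * r := by nlinarith
  have hrq : r ≤ q := by
    by_contra hcon
    push Not at hcon
    have h1 : 64 * K * (q + 1) ≤ 64 * K * r := Nat.mul_le_mul_left _ hcon
    nlinarith
  have hsr : s + r < 4 * q := by omega
  have hcr := hcore r hr1 (by omega)
  set Ev : Finset (L × ℕ) := (Finset.univ ×ˢ Finset.range (4 * q) : Finset (L × ℕ)).filter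
    (fun y : L × ℕ => ∃ l, s ≤ l ∧ l < s + r ∧
      (SignType.sign (ev (X y.1 y.2) (w.mr a) - ev (X j l) (w.mr a)) ≠
        SignType.sign (ev (X y.1 y.2) (w.mr a) - ev (X j (l + 1)) (w.mr a)) ∨
       SignType.sign (ev (X y.1 y.2) (w.mr b) - ev (X j l) (w.mr b)) ≠
        SignType.sign (ev (X y.1 y.2) (w.mr b) - ev (X j (l + 1)) (w.mr b)))) with hEv
  have hEvcard : Ev.card ≤ 16 * K * r := hcr
  -- constancy of the pattern
  have hconst : ∀ k : L, ∀ i < 4 * q, (k, i) ∉ Ev → ∀ n ≤ r,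
      SignType.sign (ev (X k i) (w.mr a) - ev (X j (s + n)) (w.mr a)) =
        SignType.sign (ev (X k i) (w.mr a) - ev (X j s) (w.mr a)) ∧
      SignType.sign (ev (X k i) (w.mr b) - ev (X j (s + n)) (w.mr b)) =
        SignType.sign (ev (X k i) (w.mr b) - ev (X j s) (w.mr b)) := by
    intro k i hi hne n hn
    induction n with
    | zero => exact ⟨rfl, rfl⟩
    | succ n ih =>
      have ih' := ih (by omega)
      have h1 : ¬ ∃ l, s ≤ l ∧ l < s + r ∧
          (SignType.sign (ev (X k i) (w.mr a) - ev (X j l) (w.mr a)) ≠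
            SignType.sign (ev (X k i) (w.mr a) - ev (X j (l + 1)) (w.mr a)) ∨
           SignType.sign (ev (X k i) (w.mr b) - ev (X j l) (w.mr b)) ≠
            SignType.sign (ev (X k i) (w.mr b) - ev (X j (l + 1)) (w.mr b))) := by
        intro hcon
        apply hne
        rw [hEv, Finset.mem_filter]
        exact ⟨by simp [hi], hcon⟩
      push Not at h1
      have h2 := h1 (s + n) (by omega) (by omega)
      constructor
      · rw [← ih'.1, h2.1]; rfl
      · rw [← ih'.2, h2.2]; rfl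
  have hdisj : ∀ k : L, k ≠ j → ∀ i l, X k i ≠ X j l := by
    intro k hk i l he
    apply w.disj k.1 j.1 (fun h => hk (Subtype.ext h)) (X k i)
    exact ⟨(hX1 k i).2, by rw [he]; exact (hX1 j l).2⟩
  set EvI : Finset (ℝ × ℝ) := Ev.image (fun y => X y.1 y.2) with hEvI
  have hEvIcard : EvI.card ≤ 16 * K * r := Finset.card_image_le.trans hEvcard
  -- transfer between `s` and `s + n`
  have htrans : ∀ n n', n ≤ r → n' ≤ r → ∀ y ∈ W, y ≠ X j (s + n) →
      (∃ t ∈ Ioo (w.mr a) (w.mr b), ev y t = ev (X j (s + n)) t) → y ∉ EvI →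
      y ≠ X j (s + n') ∧ ∃ t ∈ Ioo (w.mr a) (w.mr b), ev y t = ev (X j (s + n')) t := by
    intro n n' hn hn' y hy hne hc hyE
    rcases hclass (s + n) (by omega) (by omega) y hy hne hc with ⟨h1, h2⟩ | ⟨k, hk, i, hi, he⟩
    · exact fixed_cross w hy h1.2 hab hbK (hxl (s + n') (by omega)) h2
    · subst he
      have hne' : (k, i) ∉ Ev := by
        intro hcon
        apply hyE
        rw [hEvI, Finset.mem_image]
        exact ⟨(k, i), hcon, rfl⟩
      refine ⟨hdisj k hk i _, ?_⟩
      apply cross_of_neg hαβ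
      have h1 := neg_of_cross hαβ hne hc
      have c1 := hconst k i hi hne' n hn
      have c2 := hconst k i hi hne' n' hn'
      exact sign_neg (c1.1.trans c2.1.symm) (c1.2.trans c2.2.symm) h1
  -- the index function
  set neg : Prop := ∀ u ∈ (w.fam j.1).U, u < 0 with hneg
  set idx : ℕ → ℕ := fun i => if neg then i else r - i with hidx
  have hidxr : ∀ i ≤ r, idx i ≤ r := by
    intro i hi
    simp only [hidx]
    split_ifs <;> omega
  refine ⟨{
    j := j.1
    hj := j.2
    α := w.mr a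
    β := w.mr b
    hα := h0a
    hαβ := hαβ
    hβ := hbK'
    r := r
    d := d
    x := fun i => X j (s + idx i)
    hxW := fun i hi => (hX1 j _).1
    hx := fun i hi => (hX1 j _).2
    xmono := ?_
    pos := fun i hi y hy => hxl _ (by omega) y hy
    hd₀ := hm.trans hmd
    hdr := hdr
    hrd := by nlinarith
    Λ := Cs ∪ EvI
    ΛW := ?_
    Λcard := ?_
    cross := ?_
    all := ?_ }⟩
  · intro i k hik hkr
    have hU : ∀ l, (X j l).1 ∈ (w.fam j.1).U := fun l => (hX1 j l).2.1
    by_cases hn : neg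
    · simp only [hidx, if_pos hn]
      have h1 := hX2 j (s + i) (s + k) (by omega)
      rw [abs_of_neg (hn _ (hU _)), abs_of_neg (hn _ (hU _))] at h1
      linarith
    · simp only [hidx, if_neg hn]
      have hp : ∀ u ∈ (w.fam j.1).U, 0 < u := by
        rcases w.farsign j.1 j.2 with h1 | h1
        · exact h1
        · exact absurd h1 hn
      have h1 := hX2 j (s + (r - k)) (s + (r - i)) (by omega)
      rw [abs_of_pos (hp _ (hU _)), abs_of_pos (hp _ (hU _))] at h1
      exact h1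
  · intro y hy
    rw [Finset.mem_union] at hy
    rcases hy with h1 | h1
    · exact ((hCsmem y).mp h1).1
    · rw [hEvI, Finset.mem_image] at h1
      obtain ⟨z, hz, he⟩ := h1
      rw [← he]; exact (hX1 _ _).1
  · refine (Finset.card_union_le _ _).trans ?_
    have : 16 * K * r ≤ d := by nlinarith
    omega
  · intro i hi
    refine ⟨Cs \ EvI, ?_, ?_, ?_⟩
    · exact Finset.sdiff_subset.trans Finset.subset_union_left
    · have h1 : Cs.card ≤ (Cs \ EvI).card + EvI.card := by
        have := Finset.le_card_sdiff EvI Cs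
        omega
      have h2 : 4 * (16 * K * r) ≤ d := by nlinarith
      omega
    · intro y hy
      rw [Finset.mem_sdiff] at hy
      obtain ⟨h1, h2, h3⟩ := (hCsmem y).mp hy.1
      exact htrans 0 (idx i) (Nat.zero_le _) (hidxr i hi) y h1 h2 h3 hy.2
  · intro i hi y hy hne hc
    rw [Finset.mem_union]
    by_cases hyE : y ∈ EvI
    · exact Or.inr hyE
    · left
      rw [hCsmem]
      exact ⟨hy, htrans (idx i) 0 (hidxr i hi) (Nat.zero_le _) y hy hne hc hyE⟩

end Pool.ACA
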