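import Pool.Agent.Lib.MP_aca35e_co.Defs

/-!
# MP_aca35e_co, row V1

Chart version of V1. For `w ∈ W`, `0 < ρ = ev w a`: the point `X = (-a/ρ, 1/ρ)` is on `w'` iff
`ev w' a = ρ`. Apply `V1` to `X_a ≠ X_b` (different since `a = - X.1 / X.2`). A point of the open segment is
`(1-t) X_a + t X_b = (-x/ρ, 1/ρ)` with `1/ρ = (1-t)/ρ_a + t/ρ_b > 0` and
`x = ρ ((1-t) a/ρ_a + t b/ρ_b) ∈ (a,b)`; it is on `w`, so `ρ = ev w x`.
-/

set_option autoImplicit false
set_option linter.unusedVariables false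

namespace Pool.ACA

open Set Filter Topology

private theorem on_chart (w : ℝ × ℝ) (a ρ : ℝ) (hρ : 0 < ρ) :
    on w (-a / ρ, 1 / ρ) ↔ ev w a = ρ := by
  unfold on ev
  have h : w.1 * (-a / ρ) + w.2 * (1 / ρ) = (w.2 - w.1 * a) / ρ := by ring
  simp only [h]
  rw [div_eq_one_iff_eq hρ.ne']

theorem V1.chart {W : Set (ℝ × ℝ)} (h : V1 W) : V1c W := by
  intro w hw a b hab ha hb hua hub
  have h1 : ∀ w', on w' (-a / ev w a, 1 / ev w a) ↔ ev w' a = ev w a :=
    fun w' => on_chart w' a _ ha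
  have h2 : ∀ w', on w' (-b / ev w b, 1 / ev w b) ↔ ev w' b = ev w b :=
    fun w' => on_chart w' b _ hb
  have hne : ((-a / ev w a, 1 / ev w a) : ℝ × ℝ) ≠ (-b / ev w b, 1 / ev w b) := by
    intro he
    have e1 : -a / ev w a = -b / ev w b := congrArg Prod.fst he
    have e2 : 1 / ev w a = 1 / ev w b := congrArg Prod.snd he
    have e3 : ev w a = ev w b := by
      field_simp at e2
      linarith
    rw [e3] at e1
    have e4 : -a = -b := by
      field_simp at e1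
      linarith
    linarith
  have hXa : on w (-a / ev w a, 1 / ev w a) := (h1 w).mpr rfl
  have hXb : on w (-b / ev w b, 1 / ev w b) := (h2 w).mpr rfl
  have hua' : ∃! w₁, w₁ ∈ W ∧ w₁ ≠ w ∧ on w₁ (-a / ev w a, 1 / ev w a) := by
    simpa only [h1] using hua
  have hub' : ∃! w₂, w₂ ∈ W ∧ w₂ ≠ w ∧ on w₂ (-b / ev w b, 1 / ev w b) := by
    simpa only [h2] using hub
  obtain ⟨Z, hZ, w', hw', hne', hon⟩ := h w hw _ _ hne hXa hXb hua' hub'
  obtain ⟨s, t, hs, ht, hst, rfl⟩ := hZ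
  obtain ⟨p, hp⟩ : ∃ p : ℝ, p = s / ev w a := ⟨_, rfl⟩
  obtain ⟨q, hq⟩ : ∃ q : ℝ, q = t / ev w b := ⟨_, rfl⟩
  have hp0 : 0 < p := by rw [hp]; exact div_pos hs ha
  have hq0 : 0 < q := by rw [hq]; exact div_pos ht hb
  have hpq : 0 < p + q := add_pos hp0 hq0
  have hZeq : (s • ((-a / ev w a, 1 / ev w a) : ℝ × ℝ) + t • ((-b / ev w b, 1 / ev w b) : ℝ × ℝ)) =
      (-((p * a + q * b) / (p + q)) / (1 / (p + q)), 1 / (1 / (p + q))) := by
    apply Prod.ext
    · simp only [Prod.fst_add, Prod.smul_fst, smul_eq_mul]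
      have e : -((p * a + q * b) / (p + q)) / (1 / (p + q)) = -(p * a + q * b) := by
        field_simp
      rw [e, hp, hq]
      ring
    · simp only [Prod.snd_add, Prod.smul_snd, smul_eq_mul]
      rw [one_div_one_div, hp, hq]
      ring
  have hσ : 0 < 1 / (p + q) := by positivity
  refine ⟨(p * a + q * b) / (p + q), ⟨?_, ?_⟩, w', hw', hne', ?_⟩
  · rw [lt_div_iff₀ hpq]
    nlinarith
  · rw [div_lt_iff₀ hpq]
    nlinarith
  · rw [hZeq, on_chart _ _ _ hσ] at hon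
    have hw2 : on w (s • ((-a / ev w a, 1 / ev w a) : ℝ × ℝ) +
        t • ((-b / ev w b, 1 / ev w b) : ℝ × ℝ)) := by
      unfold on at hXa hXb ⊢
      simp only [Prod.fst_add, Prod.smul_fst, smul_eq_mul, Prod.snd_add, Prod.smul_snd] at hXa hXb ⊢
      linear_combination s * hXa + t * hXb + hst
    rw [hZeq, on_chart _ _ _ hσ] at hw2
    rw [hon, hw2]

end Pool.ACA
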