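import Pool.Agent.Lib.MP_aca35e_co.Defs
import Pool.Agent.Lib.MP_aca35e_co.C1
import Pool.Agent.Lib.MP_aca35e_co.V1

/-!
# MP_aca35e_co, row F1

Non-double vertices. Let `Ξ` be the finset of the points `t ∈ (α, β)` with `ev y t = ev x t` for some `y ∈ C` (each `y ∈ C`, `y ≠ x`, gives at most
one `t`: image of `C`). At most `D` elements of `C` at each `t` (`mult`, C1), so `C.card ≤ D * Ξ.card`. Let `P` be the `t ∈ Ξ` with two different `y, z`.
Between two elements `a < b` of `Ξ ∖ P` there is an element of `Ξ` (`V1.chart`: `∃!` holds at `a` and `b`; `ev x > 0` on `[α, β]`; the line found is in `C`),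
hence (take consecutive elements of `Ξ`) `Ξ.card ≤ 2 * P.card + 1`. (Purely: a finset `Ξ` of reals, `P ⊆ Ξ`, between any two elements of
`Ξ ∖ P` there is an element of `Ξ`. Then between any two there is an element of `P`: take the smallest element of `Ξ` above `a`... Induct or use
the injection `Ξ ∖ P ∖ {max} → P`, `a ↦` successor of `a` in `Ξ`.)
-/

set_option autoImplicit false
set_option linter.unusedVariables false

namespace Pool.ACA

open Set Filter Topology

private lemma comb (X P : Finset ℝ) (hP : P ⊆ X)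
    (hb : ∀ a ∈ X, a ∉ P → ∀ b ∈ X, b ∉ P → a < b → ∃ c ∈ X, a < c ∧ c < b) :
    X.card ≤ 2 * P.card + 1 := by
  classical
  rcases X.eq_empty_or_nonempty with h0 | h0
  · simp [h0]
  have h1 : ((X \ P).erase (X.max' h0)).card ≤ P.card := by
    have key : ∀ a ∈ (X \ P).erase (X.max' h0), ∃ b ∈ P, a < b ∧ ∀ c ∈ X, a < c → b ≤ c := by
      intro a ha
      rw [Finset.mem_erase, Finset.mem_sdiff] at ha
      obtain ⟨haM, haX, haP⟩ := ha
      have hne : (X.filter (fun b => a < b)).Nonempty :=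
        ⟨X.max' h0, Finset.mem_filter.2 ⟨X.max'_mem h0, lt_of_le_of_ne (X.le_max' a haX) haM⟩⟩
      have hmem := (X.filter (fun b => a < b)).min'_mem hne
      have hmin : ∀ c ∈ X, a < c → (X.filter (fun b => a < b)).min' hne ≤ c := by
        intro c hc hac
        exact Finset.min'_le _ _ (Finset.mem_filter.2 ⟨hc, hac⟩)
      obtain ⟨hbX, hab⟩ := Finset.mem_filter.1 hmem
      refine ⟨_, ?_, hab, hmin⟩
      by_contra hnP
      obtain ⟨c, hcX, hac, hcb⟩ := hb a haX haP _ hbX hnP hab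
      exact absurd (hmin c hcX hac) (not_le.2 hcb)
    choose! f hfP hlt hmin using key
    refine Finset.card_le_card_of_injOn f (fun a ha => hfP a ha) ?_
    intro a ha b hb' hab
    have haX : a ∈ X := (Finset.mem_sdiff.1 (Finset.mem_of_mem_erase ha)).1
    have hbX : b ∈ X := (Finset.mem_sdiff.1 (Finset.mem_of_mem_erase hb')).1
    by_contra hne
    rcases lt_or_gt_of_ne hne with h | h
    · have h2 := hmin a ha b hbX h
      have h3 := hlt b hb'
      rw [← hab] at h3
      exact absurd h2 (not_le.2 h3)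
    · have h2 := hmin b hb' a haX h
      have h3 := hlt a ha
      rw [hab] at h3
      exact absurd h2 (not_le.2 h3)
  have h2 : (X \ P).card - 1 ≤ ((X \ P).erase (X.max' h0)).card := Finset.pred_card_le_card_erase
  have h3 : (X \ P).card + P.card = X.card := Finset.card_sdiff_add_card_eq_card hP
  omega

private lemma eq_of_two {x y : ℝ × ℝ} {s t : ℝ} (hst : s ≠ t) (h1 : ev y s = ev x s)
    (h2 : ev y t = ev x t) : y = x := by
  unfold ev at h1 h2
  have h3 : (y.1 - x.1) * (s - t) = 0 := by linarith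
  have h4 : y.1 = x.1 := by
    rcases mul_eq_zero.1 h3 with h | h
    · linarith
    · exact absurd (by linarith) hst
  have h5 : y.2 = x.2 := by rw [h4] at h1; linarith
  exact Prod.ext h4 h5

theorem nondouble {D : ℕ} {p : MvPolynomial (Fin 2) ℝ} {W : Set (ℝ × ℝ)} (h : Setup D p W) (x : ℝ × ℝ) (hx : x ∈ W) (α β : ℝ) (hαβ : α < β)
    (hpos : ∀ y ∈ Icc α β, 0 < ev x y) (C : Finset (ℝ × ℝ))
    (hC : ∀ y, y ∈ C ↔ (y ∈ W ∧ y ≠ x ∧ ∃ t ∈ Ioo α β, ev y t = ev x t)) :
    ∃ P : Finset ℝ, (∀ t ∈ P, t ∈ Ioo α β ∧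
      ∃ y ∈ C, ∃ z ∈ C, y ≠ z ∧ ev y t = ev x t ∧ ev z t = ev x t) ∧
      C.card ≤ D * (2 * P.card + 1) := by
  classical
  have hτ : ∀ y ∈ C, ∃ t, t ∈ Ioo α β ∧ ev y t = ev x t := by
    intro y hy
    obtain ⟨_, _, t, ht, h1⟩ := (hC y).1 hy
    exact ⟨t, ht, h1⟩
  choose! τ hτI hτe using hτ
  have huniq : ∀ y ∈ C, ∀ t, ev y t = ev x t → τ y = t := by
    intro y hy t ht
    by_contra hne
    exact ((hC y).1 hy).2.1 (eq_of_two hne (hτe y hy) ht)
  set X : Finset ℝ := C.image τ with hX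
  set P : Finset ℝ := X.filter (fun t => ∃ y ∈ C, ∃ z ∈ C, y ≠ z ∧ ev y t = ev x t ∧
    ev z t = ev x t) with hPdef
  have hXI : ∀ t ∈ X, t ∈ Ioo α β := by
    intro t ht
    obtain ⟨y, hy, rfl⟩ := Finset.mem_image.1 ht
    exact hτI y hy
  have hsingle : ∀ a ∈ X, a ∉ P → ∃! w₁, w₁ ∈ W ∧ w₁ ≠ x ∧ ev w₁ a = ev x a := by
    intro a ha haP
    obtain ⟨y, hy, hya⟩ := Finset.mem_image.1 ha
    have hye : ev y a = ev x a := by rw [← hya]; exact hτe y hy
    refine ⟨y, ⟨((hC y).1 hy).1, ((hC y).1 hy).2.1, hye⟩, ?_⟩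
    rintro z ⟨hzW, hzx, hze⟩
    have hz : z ∈ C := (hC z).2 ⟨hzW, hzx, a, hXI a ha, hze⟩
    by_contra hne
    exact haP (Finset.mem_filter.2 ⟨ha, z, hz, y, hy, hne, hze, hye⟩)
  refine ⟨P, ?_, ?_⟩
  · intro t ht
    obtain ⟨h1, h2⟩ := Finset.mem_filter.1 ht
    exact ⟨hXI t h1, h2⟩
  · have hcard : X.card ≤ 2 * P.card + 1 := by
      refine comb X P (Finset.filter_subset _ _) ?_
      intro a ha haP b hb hbP hab
      have haI := hXI a ha
      have hbI := hXI b hb
      obtain ⟨c, hc, w', hw', hne, he⟩ := V1.chart h.v1 x hx a b hab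
        (hpos a (Ioo_subset_Icc_self haI)) (hpos b (Ioo_subset_Icc_self hbI))
        (hsingle a ha haP) (hsingle b hb hbP)
      have hwC : w' ∈ C := (hC w').2 ⟨hw', hne, c, ⟨lt_trans haI.1 hc.1, lt_trans hc.2 hbI.2⟩, he⟩
      exact ⟨c, Finset.mem_image.2 ⟨w', hwC, huniq w' hwC c he⟩, hc.1, hc.2⟩
    have hmul : C.card ≤ D * X.card := by
      refine Finset.card_le_mul_card_image C D ?_
      intro t ht
      refine mult h.cur (le_trans (by norm_num) h.hD) t (ev x t) _ ?_
      intro w hw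
      obtain ⟨hw1, hw2⟩ := Finset.mem_filter.1 hw
      refine ⟨h.zero w ((hC w).1 hw1).1, ?_⟩
      rw [← hw2]
      exact hτe w hw1
    exact le_trans hmul (Nat.mul_le_mul_left D hcard)

end Pool.ACA
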