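import Pool.Agent.Lib.MP_aca35e_co.Defs

/-!
# MP_aca35e_co, row P1

A line which does not belong to the family `A` is crossed monotonically by the lines of `A`. The set `{t | (t, ev y t) ∈ Ω}` is
convex (preimage of a convex set under an affine map). `t ↦ A.par (t, ev y t)` is continuous on it (`A.cont`) and injective: if the
parameter `u` is the same at `t ≠ t'` then (`inc`) `ev (u, φ u)` and `ev y` agree at `t` and `t'`, so `y = (u, φ u)`, `A.has y`. A continuous
injective function on an interval is strictly monotone (`ContinuousOn.strictMonoOn_of_injOn_Icc'` on every closed subinterval, or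
`Continuous.strictMono_of_inj` variants for `OrdConnected` sets).
`par_inj`: the lines `(A.par X, ..)` and `(C.par X, ..)` are different (`Disj`), so they have at most one common point.
`par_of_has`: `inc` and `uniq`.
-/

set_option autoImplicit false
set_option linter.unusedVariables false

namespace Pool.ACA

open Set Filter Topology

private theorem ev_agree {w y : ℝ × ℝ} {t t' : ℝ} (htt : t ≠ t') (h : ev w t = ev y t)
    (h' : ev w t' = ev y t') : w = y := by
  unfold ev at h h'
  have h1 : (w.1 - y.1) * (t - t') = 0 := by linarith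
  have h2 : w.1 = y.1 := by
    rcases mul_eq_zero.mp h1 with h3 | h3
    · linarith
    · exact absurd (by linarith : t = t') htt
  refine Prod.ext h2 ?_
  rw [h2] at h
  linarith

theorem par_cont {p : MvPolynomial (Fin 2) ℝ} {Ω : Set (ℝ × ℝ)} (A : Fam p Ω) (y : ℝ × ℝ) :
    ContinuousOn (fun t => A.par (t, ev y t)) {t | (t, ev y t) ∈ Ω} := by
  refine A.cont.comp (Continuous.continuousOn ?_) (fun t ht => ht)
  unfold ev
  fun_prop

private theorem seg_convex {Ω : Set (ℝ × ℝ)} (hΩ : Convex ℝ Ω) (y : ℝ × ℝ) :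
    Convex ℝ {t | (t, ev y t) ∈ Ω} := by
  intro a ha b hb r s hr hs hrs
  have h := hΩ ha hb hr hs hrs
  have he : r • (a, ev y a) + s • (b, ev y b) = (r • a + s • b, ev y (r • a + s • b)) := by
    refine Prod.ext ?_ ?_
    · simp
    · simp only [Prod.snd_add, Prod.smul_snd, smul_eq_mul, ev]
      have : y.2 = (r + s) * y.2 := by rw [hrs, one_mul]
      linear_combination (-1 : ℝ) * this
  rw [he] at h
  exact h

private theorem mono_or_anti {S : Set ℝ} (hS : S.OrdConnected) {f : ℝ → ℝ}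
    (hc : ContinuousOn f S) (hi : InjOn f S) : StrictMonoOn f S ∨ StrictAntiOn f S := by
  by_contra hcon
  rw [not_or] at hcon
  obtain ⟨h1, h2⟩ := hcon
  unfold StrictMonoOn at h1
  unfold StrictAntiOn at h2
  push Not at h1 h2
  obtain ⟨a, ha, b, hb, hab, hfab⟩ := h1
  obtain ⟨c, hcS, d, hd, hcd, hfcd⟩ := h2
  have hm : min a c ∈ S := by
    rcases min_choice a c with h | h <;> rw [h] <;> assumption
  have hM : max b d ∈ S := by
    rcases max_choice b d with h | h <;> rw [h] <;> assumption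
  have hsub : Icc (min a c) (max b d) ⊆ S := hS.out hm hM
  have hle : min a c ≤ max b d := (min_le_left a c).trans (hab.le.trans (le_max_left b d))
  have ha' : a ∈ Icc (min a c) (max b d) := ⟨min_le_left _ _, hab.le.trans (le_max_left b d)⟩
  have hb' : b ∈ Icc (min a c) (max b d) := ⟨(min_le_left a c).trans hab.le, le_max_left b d⟩
  have hc' : c ∈ Icc (min a c) (max b d) := ⟨min_le_right _ _, hcd.le.trans (le_max_right b d)⟩
  have hd' : d ∈ Icc (min a c) (max b d) := ⟨(min_le_right a c).trans hcd.le, le_max_right b d⟩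
  rcases ContinuousOn.strictMonoOn_of_injOn_Icc' hle (hc.mono hsub) (hi.mono hsub) with h | h
  · exact absurd (h ha' hb' hab) (not_lt.mpr hfab)
  · exact absurd (h hc' hd' hcd) (not_lt.mpr hfcd)

theorem par_mono {p : MvPolynomial (Fin 2) ℝ} {Ω : Set (ℝ × ℝ)} (hΩ : Convex ℝ Ω) (A : Fam p Ω)
    (y : ℝ × ℝ) (hy : ¬ A.has y) :
    StrictMonoOn (fun t => A.par (t, ev y t)) {t | (t, ev y t) ∈ Ω} ∨
      StrictAntiOn (fun t => A.par (t, ev y t)) {t | (t, ev y t) ∈ Ω} := by
  refine mono_or_anti (seg_convex hΩ y).ordConnected (par_cont A y) ?_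
  intro t ht t' ht' h
  by_contra htt
  apply hy
  have h1 : ev (A.par (t, ev y t), A.φ (A.par (t, ev y t))) t = ev y t := A.inc _ ht
  have h2 : ev (A.par (t', ev y t'), A.φ (A.par (t', ev y t'))) t' = ev y t' := A.inc _ ht'
  have h' : A.par (t, ev y t) = A.par (t', ev y t') := h
  rw [← h'] at h2
  have h3 := ev_agree htt h1 h2
  have h4 : A.par (t, ev y t) ∈ A.U := A.mem _ ht
  constructor
  · rw [← h3]; exact h4
  · rw [← h3]

theorem par_inj {p : MvPolynomial (Fin 2) ℝ} {Ω : Set (ℝ × ℝ)} (A C : Fam p Ω) (hAC : A.Disj C)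
    (X Y : ℝ × ℝ) (hX : X ∈ Ω) (hY : Y ∈ Ω) (h1 : A.par X = A.par Y) (h2 : C.par X = C.par Y) :
    X = Y := by
  have a1 : ev (A.par X, A.φ (A.par X)) X.1 = X.2 := A.inc X hX
  have a2 : ev (A.par Y, A.φ (A.par Y)) Y.1 = Y.2 := A.inc Y hY
  have c1 : ev (C.par X, C.φ (C.par X)) X.1 = X.2 := C.inc X hX
  have c2 : ev (C.par Y, C.φ (C.par Y)) Y.1 = Y.2 := C.inc Y hY
  rw [← h1] at a2
  rw [← h2] at c2
  have hne : X.1 = Y.1 := by
    by_contra hne
    have h3 := ev_agree hne (a1.trans c1.symm) (a2.trans c2.symm)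
    apply hAC (A.par X, A.φ (A.par X))
    refine ⟨⟨A.mem X hX, rfl⟩, ?_, ?_⟩
    · rw [h3]; exact C.mem X hX
    · rw [h3]
  refine Prod.ext hne ?_
  rw [← a1, ← a2, hne]

theorem par_of_has {p : MvPolynomial (Fin 2) ℝ} {Ω : Set (ℝ × ℝ)} (A : Fam p Ω) (X w : ℝ × ℝ)
    (hX : X ∈ Ω) (hw : A.has w) : ev w X.1 = X.2 ↔ A.par X = w.1 := by
  have hw2 : w = (w.1, A.φ w.1) := Prod.ext rfl hw.2
  constructor
  · intro h
    rw [hw2] at h
    exact (A.uniq X hX w.1 hw.1 h).symm
  · intro h
    have h1 := A.inc X hX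
    rw [h] at h1
    rw [hw2]
    exact h1

end Pool.ACA
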