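import Pool.Agent.Lib.MP_aca35e_co.Defs
import Pool.Agent.Lib.MP_aca35e_co.F1
import Pool.Agent.Lib.MP_aca35e_co.P1

/-!
# MP_aca35e_co, row F2

Many concurrent triples with fixed labels. For `i ≤ r` let `C_i` = all `y ∈ Λ` with `y ≠ x i` crossing `x i` over `(α, β)` (= all such `y ∈ W`, by
`Window.all`), `2 C_i.card ≥ d` (`Window.cross`). F1: `P_i` with `C_i.card ≤ D (2 P_i.card + 1)`, so `8 D P_i.card ≥ d` since `d ≥ 4 D`. For `t ∈ P_i`
there are `y ≠ z` in `C_i` through `(t, ev (x i) t) ∈ reg`. By `Web.cover` they have labels; two lines with the same label through the same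
point are equal (`Fam.uniq`), so the labels of `x i`, `y`, `z` are pairwise different (label of `x i` is `j`: `Window.hx`); if both labels are
fixed then `fixedcross` gives `y = z`. So, after exchanging `y` and `z`, the label `k` of `y` is far. Each pair `(i, y)` belongs to at most one `t`. The
number of `(i, t)` is `≥ (r + 1) d / (8 D)` and `d ≤ C r`; at most `(2K)²` pairs of labels: pigeonhole.
-/

set_option autoImplicit false
set_option linter.unusedVariables false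

namespace Pool.ACA

open Set Filter Topology

private theorem same_label {p : MvPolynomial (Fin 2) ℝ} {Ω : Set (ℝ × ℝ)} (A : Fam p Ω)
    (X y z : ℝ × ℝ) (hX : X ∈ Ω) (hy : A.has y) (hz : A.has z) (h1 : ev y X.1 = X.2)
    (h2 : ev z X.1 = X.2) : y = z := by
  obtain ⟨hy1, hy2⟩ := hy
  obtain ⟨hz1, hz2⟩ := hz
  have e1 : ev (y.1, A.φ y.1) X.1 = X.2 := by rw [← hy2]; exact h1
  have e2 : ev (z.1, A.φ z.1) X.1 = X.2 := by rw [← hz2]; exact h2
  have a1 := A.uniq X hX y.1 hy1 e1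
  have a2 := A.uniq X hX z.1 hz1 e2
  have e : y.1 = z.1 := by rw [a1, a2]
  exact Prod.ext e (by rw [hy2, hz2, e])

private theorem two_pts {y z : ℝ × ℝ} {s t : ℝ} (hst : s ≠ t) (h1 : ev y s = ev z s)
    (h2 : ev y t = ev z t) : y = z := by
  unfold ev at h1 h2
  have h3 : (y.1 - z.1) * (s - t) = 0 := by linear_combination h2 - h1
  have h4 : y.1 = z.1 := by
    rcases mul_eq_zero.mp h3 with h | h
    · linarith
    · exact absurd (sub_eq_zero.mp h) hst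
  refine Prod.ext h4 ?_
  rw [h4] at h1
  linarith

private theorem pigeon {α β : Type*} [DecidableEq β] [Fintype β] [Nonempty β] (Q : Finset α) (f : α → β) :
    ∃ c : β, Q.card ≤ Fintype.card β * (Q.filter (fun a => f a = c)).card := by
  classical
  obtain ⟨c, -, hc⟩ := Finset.exists_max_image (Finset.univ : Finset β)
    (fun c => (Q.filter (fun a => f a = c)).card) Finset.univ_nonempty
  refine ⟨c, ?_⟩
  have h1 : Q.card = ∑ b ∈ (Finset.univ : Finset β), (Q.filter (fun a => f a = b)).card :=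
    Finset.card_eq_sum_card_fiberwise (fun x _ => Finset.mem_coe.mpr (Finset.mem_univ (f x)))
  rw [h1]
  calc ∑ b ∈ (Finset.univ : Finset β), (Q.filter (fun a => f a = b)).card
      ≤ ∑ b ∈ (Finset.univ : Finset β), (Q.filter (fun a => f a = c)).card :=
        Finset.sum_le_sum (fun b hb => hc b hb)
    _ = Fintype.card β * (Q.filter (fun a => f a = c)).card := by
        rw [Finset.sum_const, smul_eq_mul, Finset.card_univ]

private theorem labels {D : ℕ} {p : MvPolynomial (Fin 2) ℝ} {W : Set (ℝ × ℝ)} {K m : ℕ}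
    (w : Web p W K m) {C d₀ : ℕ} (win : Window w C d₀) (i : ℕ) (hi : i ≤ win.r) (t : ℝ)
    (ht : t ∈ Ioo win.α win.β) (y z : ℝ × ℝ) (hy : y ∈ W) (hz : z ∈ W) (hyx : y ≠ win.x i)
    (hzx : z ≠ win.x i) (hyz : y ≠ z) (e1 : ev y t = ev (win.x i) t)
    (e2 : ev z t = ev (win.x i) t) (hyΛ : y ∈ win.Λ) (hzΛ : z ∈ win.Λ) :
    ∃ k l : Fin w.n, ∃ y' z' : ℝ × ℝ, w.far k ∧ k ≠ win.j ∧ l ≠ win.j ∧ l ≠ k ∧ y' ∈ win.Λ ∧
      z' ∈ win.Λ ∧ (w.fam k).has y' ∧ (w.fam l).has z' ∧ ev y' t = ev (win.x i) t ∧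
      ev z' t = ev (win.x i) t ∧ y' ≠ win.x i := by
  have hp := win.pos i hi t ⟨ht.1.le, ht.2.le⟩
  have htr : t ∈ Ioo (w.mr 0) (w.mr K) := ⟨lt_of_le_of_lt win.hα ht.1, lt_of_lt_of_le ht.2 win.hβ⟩
  have hX : ((t, ev (win.x i) t) : ℝ × ℝ) ∈ reg (w.mr 0) (w.mr K) w.ρ := ⟨htr, hp⟩
  obtain ⟨a, ha⟩ := w.cover y hy t htr (by rw [e1]; exact hp.1) (by rw [e1]; exact hp.2)
  obtain ⟨b, hb⟩ := w.cover z hz t htr (by rw [e2]; exact hp.1) (by rw [e2]; exact hp.2)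
  have hxj := win.hx i hi
  have haj : a ≠ win.j := by
    rintro rfl
    exact hyx (same_label (w.fam win.j) _ y (win.x i) hX ha hxj e1 rfl)
  have hbj : b ≠ win.j := by
    rintro rfl
    exact hzx (same_label (w.fam win.j) _ z (win.x i) hX hb hxj e2 rfl)
  have hab : a ≠ b := by
    rintro rfl
    exact hyz (same_label (w.fam a) _ y z hX ha hb e1 e2)
  by_cases hfa : w.far a
  · exact ⟨a, b, y, z, hfa, haj, hbj, hab.symm, hyΛ, hzΛ, ha, hb, e1, e2, hyx⟩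
  · by_cases hfb : w.far b
    · exact ⟨b, a, z, y, hfb, hbj, haj, hab, hzΛ, hyΛ, hb, ha, e2, e1, hzx⟩
    · exact absurd (w.fixedcross a b hfa hfb y hy z hz ha hb t htr (by rw [e1]; exact hp.1)
        (by rw [e1]; exact hp.2) (by rw [e1, e2])) hyz

theorem triples {D : ℕ} {p : MvPolynomial (Fin 2) ℝ} {W : Set (ℝ × ℝ)} (h : Setup D p W) {K m : ℕ} (w : Web p W K m) {C d₀ : ℕ}
    (win : Window w C d₀) (hd : 4 * D ≤ d₀) :
    ∃ (k l : Fin w.n) (T : Finset (ℕ × (ℝ × ℝ) × (ℝ × ℝ))), w.far k ∧ k ≠ win.j ∧ l ≠ win.j ∧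
      l ≠ k ∧ win.d ^ 2 ≤ 32 * D * C * K ^ 2 * T.card ∧
      ∀ τ ∈ T, τ.1 ≤ win.r ∧ τ.2.1 ∈ win.Λ ∧ (w.fam k).has τ.2.1 ∧ τ.2.2 ∈ win.Λ ∧
        (w.fam l).has τ.2.2 ∧ ∃ t ∈ Ioo win.α win.β, ev τ.2.1 t = ev (win.x τ.1) t ∧
          ev τ.2.2 t = ev (win.x τ.1) t := by
  classical
  -- the crossing sets
  set Cs : ℕ → Finset (ℝ × ℝ) := fun i => win.Λ.filter
    (fun y => y ≠ win.x i ∧ ∃ t ∈ Ioo win.α win.β, ev y t = ev (win.x i) t) with hCs
  have hmem : ∀ i ≤ win.r, ∀ y, y ∈ Cs i ↔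
      (y ∈ W ∧ y ≠ win.x i ∧ ∃ t ∈ Ioo win.α win.β, ev y t = ev (win.x i) t) := by
    intro i hi y
    simp only [hCs, Finset.mem_filter]
    constructor
    · rintro ⟨a, b, c⟩
      exact ⟨win.ΛW y a, b, c⟩
    · rintro ⟨a, b, c⟩
      exact ⟨win.all i hi y a b c, b, c⟩
  have hP : ∀ i, ∃ P : Finset ℝ, i ≤ win.r → ((∀ t ∈ P, t ∈ Ioo win.α win.β ∧
      ∃ y ∈ Cs i, ∃ z ∈ Cs i, y ≠ z ∧ ev y t = ev (win.x i) t ∧ ev z t = ev (win.x i) t) ∧
      (Cs i).card ≤ D * (2 * P.card + 1)) := by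
    intro i
    by_cases hi : i ≤ win.r
    · obtain ⟨P, h1, h2⟩ := nondouble h (win.x i) (win.hxW i hi) win.α win.β win.hαβ
        (fun y hy => (win.pos i hi y hy).1) (Cs i) (hmem i hi)
      exact ⟨P, fun _ => ⟨h1, h2⟩⟩
    · exact ⟨∅, fun h' => absurd h' hi⟩
  choose P hP using hP
  have hcard : ∀ i ≤ win.r, win.d ≤ 8 * D * (P i).card := by
    intro i hi
    obtain ⟨S, hS, hS1, hS2⟩ := win.cross i hi
    have h1 : S ⊆ Cs i := by
      intro y hy
      simp only [hCs, Finset.mem_filter]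
      exact ⟨hS hy, (hS2 y hy).1, (hS2 y hy).2⟩
    have h2 := Finset.card_le_card h1
    have h3 := (hP i hi).2
    have h4 := win.hd₀
    nlinarith
  -- the pairs
  set Q : Finset ((_ : ℕ) × ℝ) := (Finset.range (win.r + 1)).sigma P with hQ
  have hQc : (win.r + 1) * win.d ≤ 8 * D * Q.card := by
    rw [hQ, Finset.card_sigma, Finset.mul_sum]
    calc (win.r + 1) * win.d = ∑ i ∈ Finset.range (win.r + 1), win.d := by
          rw [Finset.sum_const, Finset.card_range, smul_eq_mul]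
      _ ≤ _ := Finset.sum_le_sum (fun i hi => hcard i (by
          have := Finset.mem_range.mp hi; omega))
  have hlab : ∀ q : (_ : ℕ) × ℝ, ∃ kl : Fin w.n × Fin w.n, ∃ yz : (ℝ × ℝ) × (ℝ × ℝ), q ∈ Q →
      (w.far kl.1 ∧ kl.1 ≠ win.j ∧ kl.2 ≠ win.j ∧ kl.2 ≠ kl.1 ∧ yz.1 ∈ win.Λ ∧
      yz.2 ∈ win.Λ ∧ (w.fam kl.1).has yz.1 ∧ (w.fam kl.2).has yz.2 ∧
      ev yz.1 q.2 = ev (win.x q.1) q.2 ∧ ev yz.2 q.2 = ev (win.x q.1) q.2 ∧
      yz.1 ≠ win.x q.1) := by
    intro q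
    by_cases hq : q ∈ Q
    · have hq' := hq
      rw [hQ, Finset.mem_sigma] at hq'
      have hi : q.1 ≤ win.r := by have := Finset.mem_range.mp hq'.1; omega
      obtain ⟨ht, y, hy, z, hz, hyz, e1, e2⟩ := (hP q.1 hi).1 q.2 hq'.2
      have hy' := (hmem q.1 hi y).mp hy
      have hz' := (hmem q.1 hi z).mp hz
      have hyΛ : y ∈ win.Λ := (Finset.mem_filter.mp hy).1
      have hzΛ : z ∈ win.Λ := (Finset.mem_filter.mp hz).1
      obtain ⟨k, l, y', z', H⟩ := labels (D := D) w win q.1 hi q.2 ht y z hy'.1 hz'.1 hy'.2.1 hz'.2.1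
        hyz e1 e2 hyΛ hzΛ
      exact ⟨(k, l), (y', z'), fun _ => H⟩
    · exact ⟨(win.j, win.j), ((0, 0), (0, 0)), fun h' => absurd h' hq⟩
  choose kl yz hkl using hlab
  have : Nonempty (Fin w.n × Fin w.n) := ⟨(win.j, win.j)⟩
  obtain ⟨c, hc⟩ := pigeon Q kl
  set R : Finset ((_ : ℕ) × ℝ) := Q.filter (fun a => kl a = c) with hR
  set T : Finset (ℕ × (ℝ × ℝ) × (ℝ × ℝ)) := R.image (fun q => (q.1, (yz q).1, (yz q).2)) with hT
  have hinj : T.card = R.card := by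
    rw [hT]
    apply Finset.card_image_of_injOn
    intro q hq q' hq' he
    simp only [Prod.mk.injEq] at he
    obtain ⟨he1, he2, -⟩ := he
    have hq1 : q ∈ Q := (Finset.mem_filter.mp (Finset.mem_coe.mp hq)).1
    have hq1' : q' ∈ Q := (Finset.mem_filter.mp (Finset.mem_coe.mp hq')).1
    have H := hkl q hq1
    have H' := hkl q' hq1'
    have e1 := H.2.2.2.2.2.2.2.2.1
    have e2 := H'.2.2.2.2.2.2.2.2.1
    have e3 := H.2.2.2.2.2.2.2.2.2.2
    rw [← he1, ← he2] at e2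
    by_contra hne
    have hne2 : q.2 ≠ q'.2 := by
      intro h2
      apply hne
      obtain ⟨a, b⟩ := q
      obtain ⟨a', b'⟩ := q'
      simp only at he1 h2
      subst he1
      subst h2
      rfl
    exact e3 (two_pts hne2 e1 e2)
  have hn : Fintype.card (Fin w.n × Fin w.n) ≤ 4 * K ^ 2 := by
    rw [Fintype.card_prod, Fintype.card_fin]
    have := w.n_le
    nlinarith
  have hQ4 : Q.card ≤ 4 * K ^ 2 * T.card := by
    rw [hinj]
    exact le_trans hc (Nat.mul_le_mul_right _ hn)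
  have hD := h.hD
  have hdpos : 0 < win.d := by have := win.hd₀; omega
  have hfin : win.d ^ 2 ≤ 32 * D * C * K ^ 2 * T.card := by
    have h1 := win.hdr
    calc win.d ^ 2 = win.d * win.d := by ring
      _ ≤ (C * win.r) * win.d := Nat.mul_le_mul_right _ h1
      _ ≤ C * ((win.r + 1) * win.d) := by
          rw [mul_assoc]
          exact Nat.mul_le_mul_left _ (Nat.mul_le_mul_right _ (Nat.le_succ _))
      _ ≤ C * (8 * D * Q.card) := Nat.mul_le_mul_left _ hQc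
      _ ≤ C * (8 * D * (4 * K ^ 2 * T.card)) :=
          Nat.mul_le_mul_left _ (Nat.mul_le_mul_left _ hQ4)
      _ = 32 * D * C * K ^ 2 * T.card := by ring
  have hQpos : 0 < Q.card := by
    rcases Nat.eq_zero_or_pos Q.card with h0 | h0
    · rw [h0] at hQc
      have : 0 < (win.r + 1) * win.d := Nat.mul_pos (Nat.succ_pos _) hdpos
      omega
    · exact h0
  have hRne : R.Nonempty := by
    rw [← Finset.card_pos, ← hinj]
    rcases Nat.eq_zero_or_pos T.card with h0 | h0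
    · rw [h0] at hQ4; omega
    · exact h0
  obtain ⟨q₀, hq₀⟩ := hRne
  have hq₀' := Finset.mem_filter.mp hq₀
  have H₀ := hkl q₀ hq₀'.1
  rw [hq₀'.2] at H₀
  refine ⟨c.1, c.2, T, H₀.1, H₀.2.1, H₀.2.2.1, H₀.2.2.2.1, hfin, ?_⟩
  intro τ hτ
  rw [hT, Finset.mem_image] at hτ
  obtain ⟨q, hq, rfl⟩ := hτ
  have hq' := Finset.mem_filter.mp hq
  have H := hkl q hq'.1
  rw [hq'.2] at H
  have hq2 := hq'.1
  rw [hQ, Finset.mem_sigma] at hq2
  have hi : q.1 ≤ win.r := by have := Finset.mem_range.mp hq2.1; omega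
  have ht := ((hP q.1 hi).1 q.2 hq2.2).1
  exact ⟨hi, H.2.2.2.2.1, H.2.2.2.2.2.2.1, H.2.2.2.2.2.1, H.2.2.2.2.2.2.2.1, q.2, ht,
    H.2.2.2.2.2.2.2.2.1, H.2.2.2.2.2.2.2.2.2.1⟩

end Pool.ACA
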