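import Pool.Agent.Lib.MP_aca35e_co.Defs
import Pool.Agent.Lib.MP_aca35e_co.P1

/-!
# MP_aca35e_co, row F3

Indexing the `z`-lines. Let `Z` be the finset of the `z ∈ Λ` with label `l`; their first coordinates are different (`z.2 = φ z.1`); `B = Z.card`; `t b` = the
`b`-th smallest first coordinate (`Finset.orderEmbOfFin`), `b < B`. `T'` = image of `T` under `(i, y, z) ↦ (i, y, index of z)`. The point
`X = (t, ev (x i) t) ∈ reg` of a triple has `par`'s `(x i).1`, `y.1`, `z.1` (`par_of_has`, P1). Last two claims: two families determine the point (`par_inj`),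
and the point determines the lines (`par_of_has`). Monotonicity: fix `y` (not in family `j`, not in family `l`: `disj`); along `y` both
`par` of `j` and `par` of `l` are strictly monotone (`par_mono`), so the one is a strictly monotone function of the other;
`(x i).1` is strictly increasing in `i`, `t b` in `b`.
-/

set_option autoImplicit false
set_option linter.unusedVariables false

namespace Pool.ACA

open Set Filter Topology

theorem indexed {D : ℕ} {p : MvPolynomial (Fin 2) ℝ} {W : Set (ℝ × ℝ)} {K m : ℕ} (w : Web p W K m) {C d₀ : ℕ}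
    (win : Window w C d₀) (k l : Fin w.n) (hk : k ≠ win.j) (hl : l ≠ win.j) (hlk : l ≠ k)
    (T : Finset (ℕ × (ℝ × ℝ) × (ℝ × ℝ)))
    (hT : ∀ τ ∈ T, τ.1 ≤ win.r ∧ τ.2.1 ∈ win.Λ ∧ (w.fam k).has τ.2.1 ∧ τ.2.2 ∈ win.Λ ∧
        (w.fam l).has τ.2.2 ∧ ∃ t ∈ Ioo win.α win.β, ev τ.2.1 t = ev (win.x τ.1) t ∧
          ev τ.2.2 t = ev (win.x τ.1) t) :
    ∃ (B : ℕ) (t : ℕ → ℝ) (T' : Finset (ℕ × (ℝ × ℝ) × ℕ)), B ≤ 2 * win.d ∧
      (∀ a b, a < b → b < B → t a < t b) ∧ T'.card = T.card ∧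
      (∀ τ ∈ T', τ.1 ≤ win.r ∧ τ.2.1 ∈ win.Λ ∧ τ.2.2 < B ∧
        ∃ X ∈ reg (w.mr 0) (w.mr K) w.ρ, (w.fam win.j).par X = (win.x τ.1).1 ∧
          (w.fam l).par X = t τ.2.2 ∧ (w.fam k).par X = τ.2.1.1) ∧
      (∀ y, (∀ τ ∈ T', ∀ τ' ∈ T', τ.2.1 = y → τ'.2.1 = y → τ.1 < τ'.1 → τ.2.2 < τ'.2.2) ∨
        (∀ τ ∈ T', ∀ τ' ∈ T', τ.2.1 = y → τ'.2.1 = y → τ.1 < τ'.1 → τ'.2.2 < τ.2.2)) ∧
      (∀ τ ∈ T', ∀ τ' ∈ T', τ.2.1 = τ'.2.1 → τ.1 = τ'.1 → τ = τ') ∧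
      ∀ τ ∈ T', ∀ τ' ∈ T', τ.1 = τ'.1 → τ.2.2 = τ'.2.2 → τ = τ' := by
  classical
  set Z : Finset (ℝ × ℝ) := win.Λ.filter (fun z => (w.fam l).has z) with hZ
  set Z1 : Finset ℝ := Z.image Prod.fst with hZ1
  set B := Z1.card with hB
  let t : ℕ → ℝ := fun b => if h : b < B then Z1.orderEmbOfFin rfl ⟨b, h⟩ else 0
  have ht : ∀ b (h : b < B), t b = Z1.orderEmbOfFin rfl ⟨b, h⟩ := by
    intro b h
    simp only [t]
    rw [dif_pos h]
  have hBd : B ≤ 2 * win.d := by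
    have h1 : B ≤ Z.card := Finset.card_image_le
    have h2 : Z.card ≤ win.Λ.card := Finset.card_filter_le _ _
    exact (h1.trans h2).trans win.Λcard
  have htm : ∀ a b, a < b → b < B → t a < t b := by
    intro a b hab hb
    rw [ht a (hab.trans hb), ht b hb]
    exact (Z1.orderEmbOfFin rfl).strictMono (by simpa using hab)
  have htlt : ∀ a b, a < B → b < B → t a < t b → a < b := by
    intro a b ha hb h
    by_contra hcon
    rcases Nat.lt_or_ge b a with h1 | h1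
    · exact absurd (htm b a h1 ha) (not_lt.2 h.le)
    · have : a = b := by omega
      subst this
      exact lt_irrefl _ h
  have htinj : ∀ a b, a < B → b < B → t a = t b → a = b := by
    intro a b ha hb h
    rcases lt_trichotomy a b with h1 | h1 | h1
    · exact absurd h (htm a b h1 hb).ne
    · exact h1
    · exact absurd h (htm b a h1 ha).ne'
  have hidx : ∀ z : ℝ × ℝ, ∃ b, z ∈ Z → b < B ∧ t b = z.1 := by
    intro z
    by_cases hz : z ∈ Z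
    · have h1 : z.1 ∈ Z1 := Finset.mem_image_of_mem _ hz
      have h2 : z.1 ∈ Set.range (Z1.orderEmbOfFin rfl) := by
        rw [Finset.range_orderEmbOfFin]
        exact h1
      obtain ⟨b, hb⟩ := h2
      exact ⟨b, fun _ => ⟨b.2, by rw [ht b b.2]; exact hb⟩⟩
    · exact ⟨0, fun h => absurd h hz⟩
  choose idx hidx using hidx
  have hfst : ∀ (i : Fin w.n) (z z' : ℝ × ℝ), (w.fam i).has z → (w.fam i).has z' → z.1 = z'.1 →
      z = z' := by
    intro i z z' h1 h2 h3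
    refine Prod.ext h3 ?_
    rw [h1.2, h2.2, h3]
  have hΩ : Convex ℝ (reg (w.mr 0) (w.mr K) w.ρ) := (convex_Ioo _ _).prod (convex_Ioo _ _)
  have hTZ : ∀ τ ∈ T, τ.2.2 ∈ Z := by
    intro τ hτ
    obtain ⟨_, _, _, h4, h5, _⟩ := hT τ hτ
    exact Finset.mem_filter.2 ⟨h4, h5⟩
  let f : ℕ × (ℝ × ℝ) × (ℝ × ℝ) → ℕ × (ℝ × ℝ) × ℕ := fun τ => (τ.1, τ.2.1, idx τ.2.2)
  have hcard : (T.image f).card = T.card := by
    refine Finset.card_image_of_injOn ?_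
    intro τ hτ τ' hτ' heq
    simp only [f, Prod.mk.injEq] at heq
    obtain ⟨h1, h2, h3⟩ := heq
    refine Prod.ext h1 (Prod.ext h2 ?_)
    refine hfst l _ _ (hT τ hτ).2.2.2.2.1 (hT τ' hτ').2.2.2.2.1 ?_
    rw [← (hidx _ (hTZ τ hτ)).2, ← (hidx _ (hTZ τ' hτ')).2, h3]
  have key : ∀ τ ∈ T.image f, τ.1 ≤ win.r ∧ τ.2.1 ∈ win.Λ ∧ τ.2.2 < B ∧ (w.fam k).has τ.2.1 ∧
      ∃ X ∈ reg (w.mr 0) (w.mr K) w.ρ, (w.fam win.j).par X = (win.x τ.1).1 ∧
          (w.fam l).par X = t τ.2.2 ∧ (w.fam k).par X = τ.2.1.1 ∧ ev τ.2.1 X.1 = X.2 := by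
    intro τ hτ
    obtain ⟨σ, hσ, rfl⟩ := Finset.mem_image.1 hτ
    obtain ⟨h1, h2, h3, h4, h5, t₀, ht₀, h6, h7⟩ := hT σ hσ
    simp only [f]
    refine ⟨h1, h2, (hidx _ (hTZ σ hσ)).1, h3, (t₀, ev (win.x σ.1) t₀), ?_, ?_, ?_, ?_, ?_⟩
    · refine ⟨⟨lt_of_le_of_lt win.hα ht₀.1, lt_of_lt_of_le ht₀.2 win.hβ⟩, ?_⟩
      exact win.pos _ h1 t₀ ⟨ht₀.1.le, ht₀.2.le⟩
    all_goals try (
      have hX : ((t₀, ev (win.x σ.1) t₀) : ℝ × ℝ) ∈ reg (w.mr 0) (w.mr K) w.ρ :=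
        ⟨⟨lt_of_le_of_lt win.hα ht₀.1, lt_of_lt_of_le ht₀.2 win.hβ⟩,
          win.pos _ h1 t₀ ⟨ht₀.1.le, ht₀.2.le⟩⟩)
    · exact (par_of_has (w.fam win.j) _ _ hX (win.hx _ h1)).1 rfl
    · rw [(hidx _ (hTZ σ hσ)).2]
      exact (par_of_has (w.fam l) _ _ hX h5).1 h7
    · exact (par_of_has (w.fam k) _ _ hX h3).1 h6
    · exact h6
  refine ⟨B, t, T.image f, hBd, htm, hcard, ?_, ?_, ?_, ?_⟩
  · intro τ hτ
    obtain ⟨h1, h2, h3, h4, X, hX, h5, h6, h7, h8⟩ := key τ hτ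
    exact ⟨h1, h2, h3, X, hX, h5, h6, h7⟩
  · intro y
    by_cases hy : (w.fam k).has y
    · have hyj : ¬ (w.fam win.j).has y := fun h => w.disj k win.j hk y ⟨hy, h⟩
      have hyl : ¬ (w.fam l).has y := fun h => w.disj l k hlk y ⟨h, hy⟩
      have main : ∀ τ ∈ T.image f, ∀ τ' ∈ T.image f, τ.2.1 = y → τ'.2.1 = y → τ.1 < τ'.1 →
          ∃ t₀ t₁ : ℝ, (t₀, ev y t₀) ∈ reg (w.mr 0) (w.mr K) w.ρ ∧
            (t₁, ev y t₁) ∈ reg (w.mr 0) (w.mr K) w.ρ ∧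
            (w.fam win.j).par (t₀, ev y t₀) < (w.fam win.j).par (t₁, ev y t₁) ∧
            τ.2.2 < B ∧ τ'.2.2 < B ∧ (w.fam l).par (t₀, ev y t₀) = t τ.2.2 ∧
            (w.fam l).par (t₁, ev y t₁) = t τ'.2.2 := by
        intro τ hτ τ' hτ' h1 h2 h3
        obtain ⟨a1, a2, a3, a4, X, hX, a5, a6, a7, a8⟩ := key τ hτ
        obtain ⟨b1, b2, b3, b4, Y, hY, b5, b6, b7, b8⟩ := key τ' hτ'
        rw [h1] at a8
        rw [h2] at b8
        have eX : (X.1, ev y X.1) = X := Prod.ext rfl a8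
        have eY : (Y.1, ev y Y.1) = Y := Prod.ext rfl b8
        refine ⟨X.1, Y.1, ?_, ?_, ?_, a3, b3, ?_, ?_⟩
        · rw [eX]; exact hX
        · rw [eY]; exact hY
        · rw [eX, eY, a5, b5]
          exact win.xmono _ _ h3 b1
        · rw [eX]; exact a6
        · rw [eY]; exact b6
      rcases par_mono hΩ (w.fam win.j) y hyj with hj | hj <;>
        rcases par_mono hΩ (w.fam l) y hyl with hl' | hl'
      · left
        intro τ hτ τ' hτ' h1 h2 h3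
        obtain ⟨t₀, t₁, m0, m1, hlt, hb, hb', e0, e1⟩ := main τ hτ τ' hτ' h1 h2 h3
        have h4 : t₀ < t₁ := (hj.lt_iff_lt m0 m1).1 hlt
        have h5 := hl' m0 m1 h4
        simp only at h5
        rw [e0, e1] at h5
        exact htlt _ _ hb hb' h5
      · right
        intro τ hτ τ' hτ' h1 h2 h3
        obtain ⟨t₀, t₁, m0, m1, hlt, hb, hb', e0, e1⟩ := main τ hτ τ' hτ' h1 h2 h3
        have h4 : t₀ < t₁ := (hj.lt_iff_lt m0 m1).1 hlt
        have h5 := hl' m0 m1 h4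
        simp only at h5
        rw [e0, e1] at h5
        exact htlt _ _ hb' hb h5
      · right
        intro τ hτ τ' hτ' h1 h2 h3
        obtain ⟨t₀, t₁, m0, m1, hlt, hb, hb', e0, e1⟩ := main τ hτ τ' hτ' h1 h2 h3
        have h4 : t₁ < t₀ := (hj.lt_iff_gt m0 m1).1 hlt
        have h5 := hl' m1 m0 h4
        simp only at h5
        rw [e0, e1] at h5
        exact htlt _ _ hb' hb h5
      · left
        intro τ hτ τ' hτ' h1 h2 h3
        obtain ⟨t₀, t₁, m0, m1, hlt, hb, hb', e0, e1⟩ := main τ hτ τ' hτ' h1 h2 h3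
        have h4 : t₁ < t₀ := (hj.lt_iff_gt m0 m1).1 hlt
        have h5 := hl' m1 m0 h4
        simp only at h5
        rw [e0, e1] at h5
        exact htlt _ _ hb hb' h5
    · left
      intro τ hτ τ' hτ' h1 h2 h3
      obtain ⟨a1, a2, a3, a4, X, hX, a5, a6, a7, a8⟩ := key τ hτ
      rw [h1] at a4
      exact absurd a4 hy
  · intro τ hτ τ' hτ' h1 h2
    obtain ⟨a1, a2, a3, a4, X, hX, a5, a6, a7, a8⟩ := key τ hτ
    obtain ⟨b1, b2, b3, b4, Y, hY, b5, b6, b7, b8⟩ := key τ' hτ'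
    have hXY : X = Y := par_inj (w.fam k) (w.fam win.j) (w.disj k win.j hk) X Y hX hY
      (by rw [a7, b7, h1]) (by rw [a5, b5, h2])
    refine Prod.ext h2 (Prod.ext h1 ?_)
    refine htinj _ _ a3 b3 ?_
    rw [← a6, ← b6, hXY]
  · intro τ hτ τ' hτ' h1 h2
    obtain ⟨a1, a2, a3, a4, X, hX, a5, a6, a7, a8⟩ := key τ hτ
    obtain ⟨b1, b2, b3, b4, Y, hY, b5, b6, b7, b8⟩ := key τ' hτ'
    have hXY : X = Y := par_inj (w.fam l) (w.fam win.j) (w.disj l win.j hl) X Y hX hY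
      (by rw [a6, b6, h2]) (by rw [a5, b5, h1])
    refine Prod.ext h1 (Prod.ext ?_ h2)
    refine hfst k _ _ a4 b4 ?_
    rw [← a7, ← b7, hXY]

end Pool.ACA
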