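import Pool.Agent.Lib.MP_aca35e_co.Defs

/-!
# MP_aca35e_co, row F4

Bounded gaps (pure combinatorics). With `m = 40 C₁ + 1` the elements `(i, y, b)` of `T` get the key
`(y, i / m ± b / m)` (the sign depends on the monotonicity for `y`). Two elements with the same key
have `i / m = i' / m` and `b / m = b' / m`. The elements which are the last ones of their key are
few, all the others give a pair with bounded gaps; pigeonhole.
-/

set_option autoImplicit false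
set_option linter.unusedVariables false

namespace Pool.ACA

open Set Filter Topology

/-- the key of an element -/
def gkey0 (inc : Prop) [Decidable inc] (i b : ℕ) : ℤ :=
  if inc then (i : ℤ) + (b : ℤ) else (i : ℤ) - (b : ℤ)

theorem gkey0_bounds (inc : Prop) [Decidable inc] {i b I B : ℕ} (hi : i ≤ I) (hb : b ≤ B) :
    -(B : ℤ) ≤ gkey0 inc i b ∧ gkey0 inc i b ≤ ((I + B : ℕ) : ℤ) := by
  unfold gkey0
  split_ifs <;> constructor <;> push_cast <;> omega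

theorem gkey0_inc {inc : Prop} [Decidable inc] (h : inc) {i b i' b' : ℕ} (hi : i ≤ i')
    (hb : b ≤ b') (hk : gkey0 inc i b = gkey0 inc i' b') : i = i' ∧ b = b' := by
  simp only [gkey0, h, if_true] at hk
  constructor <;> omega

theorem gkey0_dec {inc : Prop} [Decidable inc] (h : ¬ inc) {i b i' b' : ℕ} (hi : i ≤ i')
    (hb : b' ≤ b) (hk : gkey0 inc i b = gkey0 inc i' b') : i = i' ∧ b = b' := by
  simp only [gkey0, h, if_false] at hk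
  constructor <;> omega

/-- the key of an element -/
def gkey (m : ℕ) (inc : Prop) [Decidable inc] (i b : ℕ) : ℤ := gkey0 inc (i / m) (b / m)

theorem gaps_abs {m a b : ℕ} (hm : 0 < m) (h : a / m = b / m) : |(a : ℤ) - (b : ℤ)| < (m : ℤ) := by
  have ha := Nat.div_add_mod a m
  have hb := Nat.div_add_mod b m
  have ha' := Nat.mod_lt a hm
  have hb' := Nat.mod_lt b hm
  rw [h] at ha
  rw [abs_lt]
  constructor <;> omega

theorem gaps (C₁ : ℕ) : ∃ M C₂ d₁ : ℕ, 1 ≤ M ∧ ∀ (Y : Type) [DecidableEq Y] (d r B : ℕ)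
    (Ys : Finset Y) (T : Finset (ℕ × Y × ℕ)), d₁ ≤ d → r ≤ d → B ≤ 2 * d → Ys.card ≤ 2 * d →
    (∀ τ ∈ T, τ.1 ≤ r ∧ τ.2.1 ∈ Ys ∧ τ.2.2 < B) → d ^ 2 ≤ C₁ * T.card →
    (∀ y, (∀ τ ∈ T, ∀ τ' ∈ T, τ.2.1 = y → τ'.2.1 = y → τ.1 < τ'.1 → τ.2.2 < τ'.2.2) ∨
      (∀ τ ∈ T, ∀ τ' ∈ T, τ.2.1 = y → τ'.2.1 = y → τ.1 < τ'.1 → τ'.2.2 < τ.2.2)) →
    (∀ τ ∈ T, ∀ τ' ∈ T, τ.2.1 = τ'.2.1 → τ.1 = τ'.1 → τ = τ') →
    (∀ τ ∈ T, ∀ τ' ∈ T, τ.1 = τ'.1 → τ.2.2 = τ'.2.2 → τ = τ') →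
    ∃ (δ : ℕ) (ε : ℤ) (G : Finset (ℕ × ℕ)), 1 ≤ δ ∧ δ ≤ M ∧ ε ≠ 0 ∧ |ε| ≤ M ∧
      d ^ 2 ≤ C₂ * G.card ∧ ∀ g ∈ G, g.1 ≤ r ∧ g.2 < B ∧ ∃ (y : Y) (b' : ℕ),
        (g.1, y, g.2) ∈ T ∧ (g.1 + δ, y, b') ∈ T ∧ (b' : ℤ) = (g.2 : ℤ) + ε := by
  classical
  obtain ⟨m, hm⟩ : ∃ m : ℕ, m = 40 * C₁ + 1 := ⟨_, rfl⟩
  have hm0 : 0 < m := by omega
  refine ⟨m, 2 * C₁ * (m * (2 * m + 1)), 8 * C₁ + 1, hm0, ?_⟩
  intro Y _ d r B Ys T hd hr hB hYs hT hcard hmono hinj1 hinj2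
  -- the key
  let inc : Y → Prop := fun y =>
    ∀ τ ∈ T, ∀ τ' ∈ T, τ.2.1 = y → τ'.2.1 = y → τ.1 < τ'.1 → τ.2.2 < τ'.2.2
  let f : ℕ × Y × ℕ → Y × ℤ := fun τ => (τ.2.1, gkey m (inc τ.2.1) τ.1 τ.2.2)
  have hf : ∀ τ ∈ T, ∀ τ' ∈ T, f τ = f τ' → τ.1 < τ'.1 →
      τ.1 / m = τ'.1 / m ∧ τ.2.2 / m = τ'.2.2 / m ∧ τ.2.1 = τ'.2.1 ∧ τ.2.2 ≠ τ'.2.2 := by
    intro τ hτ τ' hτ' hff hlt
    have hy : τ.2.1 = τ'.2.1 := congrArg (fun q : Y × ℤ => q.1) hff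
    have hk : gkey m (inc τ.2.1) τ.1 τ.2.2 = gkey m (inc τ'.2.1) τ'.1 τ'.2.2 :=
      congrArg (fun q : Y × ℤ => q.2) hff
    simp only [← hy] at hk
    have h1 : τ.1 / m ≤ τ'.1 / m := Nat.div_le_div_right hlt.le
    by_cases hi : inc τ.2.1
    · have h2 : τ.2.2 < τ'.2.2 := hi τ hτ τ' hτ' rfl hy.symm hlt
      have h3 : τ.2.2 / m ≤ τ'.2.2 / m := Nat.div_le_div_right h2.le
      obtain ⟨e1, e2⟩ := gkey0_inc hi h1 h3 hk
      exact ⟨e1, e2, hy, h2.ne⟩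
    · have h2 : τ'.2.2 < τ.2.2 := by
        rcases hmono τ.2.1 with h | h
        · exact absurd h hi
        · exact h τ hτ τ' hτ' rfl hy.symm hlt
      have h3 : τ'.2.2 / m ≤ τ.2.2 / m := Nat.div_le_div_right h2.le
      obtain ⟨e1, e2⟩ := gkey0_dec hi h1 h3 hk
      exact ⟨e1, e2, hy, h2.ne'⟩
  -- the elements which are not the last ones of their key
  let S : Finset (ℕ × Y × ℕ) := T.filter fun τ => ∃ τ' ∈ T, f τ = f τ' ∧ τ.1 < τ'.1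
  have hlast : (T \ S).card ≤ Ys.card * (r / m + 2 * (B / m) + 1) := by
    have hmaps : ∀ τ ∈ T \ S, f τ ∈ Ys ×ˢ Finset.Icc (-((B / m : ℕ) : ℤ))
        ((r / m + B / m : ℕ) : ℤ) := by
      intro τ hτ
      have hτT : τ ∈ T := (Finset.mem_sdiff.1 hτ).1
      obtain ⟨h1, h2, h3⟩ := hT τ hτT
      rw [Finset.mem_product, Finset.mem_Icc]
      have h4 : τ.1 / m ≤ r / m := Nat.div_le_div_right h1
      have h5 : τ.2.2 / m ≤ B / m := Nat.div_le_div_right h3.le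
      exact ⟨h2, gkey0_bounds (inc τ.2.1) h4 h5⟩
    have hinj : Set.InjOn f (↑(T \ S) : Set (ℕ × Y × ℕ)) := by
      intro τ hτ τ' hτ' hff
      have a1 := Finset.mem_sdiff.1 (Finset.mem_coe.1 hτ)
      have a2 := Finset.mem_sdiff.1 (Finset.mem_coe.1 hτ')
      have hy : τ.2.1 = τ'.2.1 := congrArg (fun q : Y × ℤ => q.1) hff
      have n1 : ¬ τ.1 < τ'.1 := fun h =>
        a1.2 (Finset.mem_filter.2 ⟨a1.1, τ', a2.1, hff, h⟩)
      have n2 : ¬ τ'.1 < τ.1 := fun h =>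
        a2.2 (Finset.mem_filter.2 ⟨a2.1, τ, a1.1, hff.symm, h⟩)
      exact hinj1 τ a1.1 τ' a2.1 hy (by omega)
    have hc := Finset.card_le_card_of_injOn f hmaps hinj
    rw [Finset.card_product, Int.card_Icc] at hc
    refine hc.trans (Nat.mul_le_mul_left _ ?_)
    generalize r / m = r', B / m = B'
    omega
  have hST : (T \ S).card + S.card = T.card :=
    Finset.card_sdiff_add_card_eq_card (Finset.filter_subset _ _)
  have hS : d ^ 2 ≤ 2 * C₁ * S.card := by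
    have e1 : m * (r / m + 2 * (B / m) + 1) ≤ 5 * d + m := by
      have q1 := Nat.mul_div_le r m
      have q2 := Nat.mul_div_le B m
      nlinarith
    have e2 : m * (T \ S).card ≤ 2 * d * (5 * d + m) := by
      calc m * (T \ S).card ≤ m * (Ys.card * (r / m + 2 * (B / m) + 1)) :=
            Nat.mul_le_mul_left _ hlast
        _ = Ys.card * (m * (r / m + 2 * (B / m) + 1)) := by ring
        _ ≤ 2 * d * (5 * d + m) := Nat.mul_le_mul hYs e1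
    have e3 : 2 * C₁ * (2 * d * (5 * d + m)) ≤ m * d ^ 2 := by
      have b1 : 40 * C₁ * d ^ 2 ≤ m * d ^ 2 := Nat.mul_le_mul_right _ (by omega)
      have b2 : 8 * C₁ * (d * m) ≤ d * (d * m) := Nat.mul_le_mul_right _ (by omega)
      nlinarith
    have e4 : 2 * C₁ * (T \ S).card ≤ d ^ 2 := by
      have : m * (2 * C₁ * (T \ S).card) ≤ m * d ^ 2 := by
        calc m * (2 * C₁ * (T \ S).card) = 2 * C₁ * (m * (T \ S).card) := by ring
          _ ≤ 2 * C₁ * (2 * d * (5 * d + m)) := Nat.mul_le_mul_left _ e2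
          _ ≤ m * d ^ 2 := e3
      exact Nat.le_of_mul_le_mul_left this hm0
    have e5 : 2 * C₁ * T.card = 2 * C₁ * (T \ S).card + 2 * C₁ * S.card := by
      rw [← hST]; ring
    have e6 : 2 * d ^ 2 ≤ 2 * C₁ * T.card := by nlinarith
    omega
  -- the partner
  have hpar : ∀ τ : ℕ × Y × ℕ, ∃ τ' : ℕ × Y × ℕ, τ ∈ S → τ' ∈ T ∧ f τ = f τ' ∧ τ.1 < τ'.1 := by
    intro τ
    by_cases h : τ ∈ S
    · obtain ⟨τ', h1, h2⟩ := (Finset.mem_filter.1 h).2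
      exact ⟨τ', fun _ => ⟨h1, h2⟩⟩
    · exact ⟨τ, fun h' => absurd h' h⟩
  choose g hg using hpar
  have hdpos : 0 < d := by omega
  have hSne : S.Nonempty := by
    rw [Finset.nonempty_iff_ne_empty]
    intro h0
    rw [h0] at hS
    simp only [Finset.card_empty, Nat.mul_zero, Nat.le_zero_eq] at hS
    have := Nat.pow_pos (n := 2) hdpos
    omega
  let key : ℕ × Y × ℕ → ℕ × ℤ := fun τ => ((g τ).1 - τ.1, ((g τ).2.2 : ℤ) - (τ.2.2 : ℤ))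
  let K : Finset (ℕ × ℤ) := Finset.Icc 1 m ×ˢ Finset.Icc (-(m : ℤ)) m
  have hkey : ∀ τ ∈ S, key τ ∈ K ∧ (key τ).2 ≠ 0 := by
    intro τ hτ
    obtain ⟨h1, h2, h3⟩ := hg τ hτ
    have hτT := (Finset.mem_filter.1 hτ).1
    obtain ⟨k1, k2, k3, k4⟩ := hf τ hτT (g τ) h1 h2 h3
    have a1 := gaps_abs hm0 k1
    have a2 := gaps_abs hm0 k2
    rw [abs_lt] at a1 a2
    refine ⟨Finset.mem_product.2 ⟨Finset.mem_Icc.2 ⟨?_, ?_⟩, Finset.mem_Icc.2 ⟨?_, ?_⟩⟩, ?_⟩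
    · change 1 ≤ (g τ).1 - τ.1
      omega
    · change (g τ).1 - τ.1 ≤ m
      omega
    · change -(m : ℤ) ≤ ((g τ).2.2 : ℤ) - (τ.2.2 : ℤ)
      omega
    · change ((g τ).2.2 : ℤ) - (τ.2.2 : ℤ) ≤ m
      omega
    · change ((g τ).2.2 : ℤ) - (τ.2.2 : ℤ) ≠ 0
      omega
  have hKcard : K.card = m * (2 * m + 1) := by
    change (Finset.Icc 1 m ×ˢ Finset.Icc (-(m : ℤ)) m).card = _
    rw [Finset.card_product, Nat.card_Icc, Int.card_Icc]
    congr 1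
    omega
  obtain ⟨κ, hκK, hκ⟩ : ∃ κ ∈ K, S.card ≤ K.card * (S.filter fun τ => key τ = κ).card := by
    by_contra hcon
    push Not at hcon
    have h1 : S.card = ∑ κ ∈ K, (S.filter fun τ => key τ = κ).card :=
      Finset.card_eq_sum_card_fiberwise fun τ hτ => (hkey τ hτ).1
    have hKne : K.Nonempty := by
      obtain ⟨τ, hτ⟩ := hSne
      exact ⟨_, (hkey τ hτ).1⟩
    have h2 : ∑ κ ∈ K, K.card * (S.filter fun τ => key τ = κ).card < ∑ κ ∈ K, S.card :=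
      Finset.sum_lt_sum_of_nonempty hKne hcon
    rw [← Finset.mul_sum, ← h1, Finset.sum_const, smul_eq_mul] at h2
    exact lt_irrefl _ h2
  let Fb := S.filter fun τ => key τ = κ
  have hFbne : Fb.Nonempty := by
    rw [← Finset.card_pos]
    have h1 : 0 < S.card := Finset.card_pos.2 hSne
    rcases Nat.eq_zero_or_pos Fb.card with h | h
    · have h2 : S.card ≤ K.card * Fb.card := hκ
      rw [h] at h2
      omega
    · exact h
  have hκ0 : κ.2 ≠ 0 := by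
    obtain ⟨τ, hτ⟩ := hFbne
    have h1 := Finset.mem_filter.1 hτ
    rw [← h1.2]
    exact (hkey τ h1.1).2
  have hκ1 := Finset.mem_product.1 hκK
  have hκ2 := Finset.mem_Icc.1 hκ1.1
  have hκ3 := Finset.mem_Icc.1 hκ1.2
  refine ⟨κ.1, κ.2, Fb.image fun τ => (τ.1, τ.2.2), hκ2.1, hκ2.2, hκ0, abs_le.2 hκ3, ?_, ?_⟩
  · have hGc : (Fb.image fun τ => (τ.1, τ.2.2)).card = Fb.card := by
      apply Finset.card_image_of_injOn
      intro τ hτ τ' hτ' he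
      have h1 := (Finset.mem_filter.1 (Finset.mem_filter.1 (Finset.mem_coe.1 hτ)).1).1
      have h2 := (Finset.mem_filter.1 (Finset.mem_filter.1 (Finset.mem_coe.1 hτ')).1).1
      exact hinj2 τ h1 τ' h2 (congrArg (fun q : ℕ × ℕ => q.1) he)
        (congrArg (fun q : ℕ × ℕ => q.2) he)
    rw [hGc]
    calc d ^ 2 ≤ 2 * C₁ * S.card := hS
      _ ≤ 2 * C₁ * (K.card * Fb.card) := Nat.mul_le_mul_left _ hκ
      _ = 2 * C₁ * (m * (2 * m + 1)) * Fb.card := by rw [hKcard]; ring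
  · intro γ hγ
    obtain ⟨τ, hτ, rfl⟩ := Finset.mem_image.1 hγ
    have h1 := Finset.mem_filter.1 hτ
    have hτT := (Finset.mem_filter.1 h1.1).1
    obtain ⟨a1, a2, a3⟩ := hT τ hτT
    obtain ⟨b1, b2, b3⟩ := hg τ h1.1
    have hy : τ.2.1 = (g τ).2.1 := congrArg (fun q : Y × ℤ => q.1) b2
    have c1 : (g τ).1 - τ.1 = κ.1 := congrArg (fun q : ℕ × ℤ => q.1) h1.2
    have c2 : ((g τ).2.2 : ℤ) - (τ.2.2 : ℤ) = κ.2 := congrArg (fun q : ℕ × ℤ => q.2) h1.2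
    refine ⟨a1, a3, τ.2.1, (g τ).2.2, hτT, ?_, ?_⟩
    · have e1 : τ.1 + κ.1 = (g τ).1 := by omega
      change (τ.1 + κ.1, τ.2.1, (g τ).2.2) ∈ T
      rw [e1, hy]
      exact b1
    · change ((g τ).2.2 : ℤ) = (τ.2.2 : ℤ) + κ.2
      omega

end Pool.ACA
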