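import Pool.Agent.Lib.MP_aca35e_co.Defs

/-!
# MP_aca35e_co, row F5

Kovari-Sos-Turan. `G ⊆ [0, d] × [0, 2d)` has `≥ d²/C₂` elements. For `b < B` let `N b = {i | (i, b) ∈ G}`. Sum of `(N b).card` is `≥ d²/C₂`, so at least
`d/(2 C₂)` (say `≥ d/(4C₂)`) of the `b` have `(N b).card ≥ d/(4 C₂)` (others contribute `≤ 2d · d/(4C₂) = d²/(2C₂)`; each contributes `≤ d + 1`). Each such `b` has
`≥ (d/(4C₂)).choose S ≥ (d/(8C₂))^S / S!` (for large `d`) `S`-subsets in `N b`; there are at most `(d+1)^S / S!` `S`-subsets of `[0, d]`. By pigeonhole some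
`S`-set `I` is contained in `N b` for at least `d/(4C₂) · (1/(16 C₂))^S ≥ S` of the `b` for `d ≥ d₂`. Alternative: count tuples `Fin S → [0,d]` (with
power mean `inner_le_nnorm_mul_nnorm` replaced by the popular `b`'s) and discard the non-injective ones.
-/

set_option autoImplicit false
set_option linter.unusedVariables false

namespace Pool.ACA

open Set Filter Topology

/-- comparison of binomial coefficients -/
private lemma kst_choose (C₂ S m n : ℕ) (hm : 2 * S ≤ m) (hn : n ≤ 8 * C₂ * m) :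
    n.choose S ≤ (16 * C₂) ^ S * m.choose S := by
  have h1 : n ^ S ≤ (16 * C₂) ^ S * (m + 1 - S) ^ S := by
    rw [← mul_pow]
    apply Nat.pow_le_pow_left
    have h2 : m ≤ 2 * (m + 1 - S) := by omega
    calc n ≤ 8 * C₂ * m := hn
      _ ≤ 8 * C₂ * (2 * (m + 1 - S)) := Nat.mul_le_mul_left _ h2
      _ = 16 * C₂ * (m + 1 - S) := by ring
  have h3 : n.descFactorial S ≤ (16 * C₂) ^ S * m.descFactorial S :=
    calc n.descFactorial S ≤ n ^ S := Nat.descFactorial_le_pow n S
      _ ≤ (16 * C₂) ^ S * (m + 1 - S) ^ S := h1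
      _ ≤ (16 * C₂) ^ S * m.descFactorial S :=
          Nat.mul_le_mul_left _ (Nat.pow_sub_le_descFactorial m S)
  rw [Nat.descFactorial_eq_factorial_mul_choose, Nat.descFactorial_eq_factorial_mul_choose] at h3
  have h4 : S.factorial * n.choose S ≤ S.factorial * ((16 * C₂) ^ S * m.choose S) := by
    calc S.factorial * n.choose S ≤ (16 * C₂) ^ S * (S.factorial * m.choose S) := h3
      _ = S.factorial * ((16 * C₂) ^ S * m.choose S) := by ring
  exact Nat.le_of_mul_le_mul_left h4 (Nat.factorial_pos S)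

theorem kst (C₂ S : ℕ) : ∃ d₂ : ℕ, ∀ (d r B : ℕ) (G : Finset (ℕ × ℕ)), d₂ ≤ d → r ≤ d →
    B ≤ 2 * d → (∀ g ∈ G, g.1 ≤ r ∧ g.2 < B) → d ^ 2 ≤ C₂ * G.card →
    ∃ I J : Finset ℕ, I.card = S ∧ J.card = S ∧ ∀ i ∈ I, ∀ b ∈ J, (i, b) ∈ G := by
  classical
  refine ⟨4 * C₂ * (S * (16 * C₂) ^ S) + 8 * C₂ * S + S + 1, ?_⟩
  intro d r B G hd hr hB hG hcard
  have hd1 : 1 ≤ d := by omega
  have hC : 0 < C₂ := by
    rcases Nat.eq_zero_or_pos C₂ with h | h
    · subst h
      have : 0 < d ^ 2 := pow_pos (by omega) 2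
      omega
    · exact h
  -- neighbourhoods
  set N : ℕ → Finset ℕ := fun b => (Finset.range (d + 1)).filter (fun i => (i, b) ∈ G) with hN
  have hNcard : ∀ b, (N b).card ≤ d + 1 := fun b => by
    calc (N b).card ≤ (Finset.range (d + 1)).card := Finset.card_filter_le _ _
      _ = d + 1 := Finset.card_range _
  have hsum : G.card = ∑ b ∈ Finset.range B, (N b).card := by
    have h1 : G.card = ∑ b ∈ Finset.range B, (G.filter (fun g => g.2 = b)).card :=
      Finset.card_eq_sum_card_fiberwise (fun g hg => by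
        simpa using (hG g hg).2)
    rw [h1]
    refine Finset.sum_congr rfl (fun b _ => ?_)
    refine Finset.card_bij (fun g _ => g.1) ?_ ?_ ?_
    · intro g hg
      rw [Finset.mem_filter] at hg
      have h2 := (hG g hg.1).1
      simp only [hN, Finset.mem_filter, Finset.mem_range]
      refine ⟨by omega, ?_⟩
      have h3 : (g.1, b) = g := by
        rw [← hg.2]
      rw [h3]; exact hg.1
    · intro g hg g' hg' h
      rw [Finset.mem_filter] at hg hg'
      exact Prod.ext h (hg.2.trans hg'.2.symm)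
    · intro i hi
      simp only [hN, Finset.mem_filter] at hi
      exact ⟨(i, b), by simp [hi.2], rfl⟩
  -- popular b
  set P : Finset ℕ := (Finset.range B).filter (fun b => d ≤ 4 * C₂ * (N b).card) with hP
  have hsplit : ∑ b ∈ Finset.range B, (N b).card
      = ∑ b ∈ P, (N b).card
        + ∑ b ∈ (Finset.range B).filter (fun b => ¬ d ≤ 4 * C₂ * (N b).card), (N b).card :=
    (Finset.sum_filter_add_sum_filter_not _ _ _).symm
  have hun : 4 * C₂ * ∑ b ∈ (Finset.range B).filter (fun b => ¬ d ≤ 4 * C₂ * (N b).card),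
      (N b).card ≤ 2 * d * d := by
    rw [Finset.mul_sum]
    calc ∑ b ∈ (Finset.range B).filter (fun b => ¬ d ≤ 4 * C₂ * (N b).card), 4 * C₂ * (N b).card
        ≤ ∑ _b ∈ (Finset.range B).filter (fun b => ¬ d ≤ 4 * C₂ * (N b).card), d := by
          refine Finset.sum_le_sum (fun b hb => ?_)
          rw [Finset.mem_filter] at hb
          omega
      _ = ((Finset.range B).filter (fun b => ¬ d ≤ 4 * C₂ * (N b).card)).card * d := by
          rw [Finset.sum_const, smul_eq_mul]
      _ ≤ (2 * d) * d := by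
          refine Nat.mul_le_mul_right _ ?_
          calc _ ≤ (Finset.range B).card := Finset.card_filter_le _ _
            _ = B := Finset.card_range _
            _ ≤ 2 * d := hB
  have hpop : ∑ b ∈ P, (N b).card ≤ P.card * (2 * d) := by
    calc ∑ b ∈ P, (N b).card ≤ ∑ _b ∈ P, (2 * d) :=
          Finset.sum_le_sum (fun b _ => (hNcard b).trans (by omega))
      _ = P.card * (2 * d) := by rw [Finset.sum_const, smul_eq_mul]
  have hPcard : d ≤ 4 * C₂ * P.card := by
    have h1 : 4 * d ^ 2 ≤ 4 * C₂ * (P.card * (2 * d)) + 2 * d * d := by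
      calc 4 * d ^ 2 ≤ 4 * (C₂ * G.card) := Nat.mul_le_mul_left _ hcard
        _ = 4 * C₂ * G.card := by ring
        _ = 4 * C₂ * ∑ b ∈ P, (N b).card
            + 4 * C₂ * ∑ b ∈ (Finset.range B).filter (fun b => ¬ d ≤ 4 * C₂ * (N b).card),
                (N b).card := by rw [hsum, hsplit, mul_add]
        _ ≤ 4 * C₂ * (P.card * (2 * d)) + 2 * d * d :=
            add_le_add (Nat.mul_le_mul_left _ hpop) hun
    have h2 : d * (2 * d) ≤ 4 * C₂ * P.card * (2 * d) := by nlinarith
    exact Nat.le_of_mul_le_mul_right h2 (by omega)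
  -- parameter m
  obtain ⟨m, hm1, hm2⟩ : ∃ m : ℕ, d ≤ 4 * C₂ * m ∧ ∀ b ∈ P, m ≤ (N b).card := by
    refine ⟨(d + 4 * C₂ - 1) / (4 * C₂), ?_, ?_⟩
    · have hpos : 0 < 4 * C₂ := by omega
      have h1 := Nat.div_add_mod (d + 4 * C₂ - 1) (4 * C₂)
      have h2 := Nat.mod_lt (d + 4 * C₂ - 1) hpos
      omega
    · intro b hb
      rw [hP, Finset.mem_filter] at hb
      have hpos : 0 < 4 * C₂ := by omega
      have : (d + 4 * C₂ - 1) / (4 * C₂) < (N b).card + 1 := by
        rw [Nat.div_lt_iff_lt_mul hpos]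
        have h1 := hb.2
        calc d + 4 * C₂ - 1 < d + 4 * C₂ := by omega
          _ ≤ 4 * C₂ * (N b).card + 4 * C₂ := by omega
          _ = ((N b).card + 1) * (4 * C₂) := by ring
      omega
  have hm3 : 2 * S ≤ m := by
    by_contra hcon
    push_neg at hcon
    have h1 : 4 * C₂ * m ≤ 4 * C₂ * (2 * S) := Nat.mul_le_mul_left _ (by omega)
    have h2 : 4 * C₂ * (2 * S) = 8 * C₂ * S := by ring
    omega
  have hch : (d + 1).choose S ≤ (16 * C₂) ^ S * m.choose S := by
    refine kst_choose C₂ S m (d + 1) hm3 ?_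
    have h1 : 8 * C₂ * m = 2 * (4 * C₂ * m) := by ring
    rw [h1]; omega
  have hPbig : S * (16 * C₂) ^ S ≤ P.card := by
    have h1 : 4 * C₂ * (S * (16 * C₂) ^ S) ≤ 4 * C₂ * P.card := by omega
    exact Nat.le_of_mul_le_mul_left h1 (by omega)
  -- double counting
  have hdc : ∑ I ∈ Finset.powersetCard S (Finset.range (d + 1)),
        (P.filter (fun b => I ⊆ N b)).card
      = ∑ b ∈ P, (Finset.powersetCard S (N b)).card := by
    have h1 : ∀ I : Finset ℕ, (P.filter (fun b => I ⊆ N b)).card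
        = ∑ b ∈ P, if I ⊆ N b then 1 else 0 := fun I => Finset.card_filter _ _
    simp_rw [h1]
    rw [Finset.sum_comm]
    refine Finset.sum_congr rfl (fun b _ => ?_)
    rw [← Finset.card_filter]
    congr 1
    ext I
    simp only [Finset.mem_filter, Finset.mem_powersetCard]
    constructor
    · rintro ⟨⟨_, h3⟩, h4⟩; exact ⟨h4, h3⟩
    · rintro ⟨h3, h4⟩
      exact ⟨⟨h3.trans (Finset.filter_subset _ _), h4⟩, h3⟩
  have hne : (Finset.powersetCard S (Finset.range (d + 1))).Nonempty := by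
    rw [Finset.powersetCard_nonempty, Finset.card_range]; omega
  obtain ⟨I, hI, hIc⟩ : ∃ I ∈ Finset.powersetCard S (Finset.range (d + 1)),
      S ≤ (P.filter (fun b => I ⊆ N b)).card := by
    refine Finset.exists_le_of_sum_le hne ?_
    rw [hdc, Finset.sum_const, Finset.card_powersetCard, Finset.card_range, smul_eq_mul]
    calc (d + 1).choose S * S ≤ ((16 * C₂) ^ S * m.choose S) * S := Nat.mul_le_mul_right _ hch
      _ = (S * (16 * C₂) ^ S) * m.choose S := by ring
      _ ≤ P.card * m.choose S := Nat.mul_le_mul_right _ hPbig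
      _ = ∑ _b ∈ P, m.choose S := by rw [Finset.sum_const, smul_eq_mul]
      _ ≤ ∑ b ∈ P, (Finset.powersetCard S (N b)).card := by
          refine Finset.sum_le_sum (fun b hb => ?_)
          rw [Finset.card_powersetCard]
          exact Nat.choose_le_choose S (hm2 b hb)
  obtain ⟨J, hJ, hJc⟩ := Finset.exists_subset_card_eq hIc
  refine ⟨I, J, (Finset.mem_powersetCard.1 hI).2, hJc, ?_⟩
  intro i hi b hb
  have h1 := hJ hb
  rw [Finset.mem_filter] at h1
  have h2 := h1.2 hi
  simp only [hN, Finset.mem_filter] at h2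
  exact h2.2

end Pool.ACA
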