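import Pool.Agent.Lib.MP_aca35e_co.Defs
import Pool.Agent.Lib.MP_aca35e_co.F2
import Pool.Agent.Lib.MP_aca35e_co.F3
import Pool.Agent.Lib.MP_aca35e_co.F4
import Pool.Agent.Lib.MP_aca35e_co.F5

/-!
# MP_aca35e_co, row F6

From the window to the complete bipartite pattern. `C₁ = 32 D (128 K) K²`; `M, C₂, d₁` from `gaps` (F4); `d₂` from `kst` (F5);
`d₀ = max` of `4 D, d₁, d₂, 1`. `triples` (F2), `indexed` (F3), `gaps` with `Y = ℝ × ℝ`, `Ys = win.Λ`, `r = win.r`; `kst`. `Ω = reg`, `A = fam j`, `B = fam k`, `C = fam l`,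
`s i = (win.x i).1`, `q = B - 1`. `hI`, `hJ`: from the second triple `(i + δ, y, b') ∈ T'`; if `S = 0` take everything empty (`I = J = ∅`).
`inc`: the two triples of `gaps` have the same `y`; `((b : ℤ) + ε).toNat = b'`.
-/

set_option autoImplicit false
set_option linter.unusedVariables false

namespace Pool.ACA

open Set Filter Topology

theorem kgrid_exists (D K : ℕ) : ∃ M, ∀ S, ∃ d₀, ∀ (p : MvPolynomial (Fin 2) ℝ)
    (W : Set (ℝ × ℝ)) (m : ℕ) (w : Web p W K m), Setup D p W → Window w (128 * K) d₀ →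
    Nonempty (KGrid p M S) := by
  classical
  obtain ⟨M, C₂, d₁, hM, hg⟩ := gaps (32 * D * (128 * K) * K ^ 2)
  refine ⟨M, fun S => ?_⟩
  obtain ⟨d₂, hk⟩ := kst C₂ S
  refine ⟨max (4 * D) (max d₁ d₂), ?_⟩
  intro p W m w hS win
  have hd0 := win.hd₀
  have hd1 : d₁ ≤ win.d := ((le_max_left _ _).trans (le_max_right _ _)).trans hd0
  have hd2 : d₂ ≤ win.d := ((le_max_right _ _).trans (le_max_right _ _)).trans hd0
  obtain ⟨k, l, T, hfar, hkj, hlj, hlk, hcard, hT⟩ := triples hS w win (le_max_left _ _)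
  obtain ⟨B, t, T', hB, htm, hT'c, hT', hmono, hinj1, hinj2⟩ :=
    indexed (D := D) w win k l hkj hlj hlk T hT
  obtain ⟨δ, ε, G, hδ1, hδM, hε0, hεM, hGc, hG⟩ := hg (ℝ × ℝ) win.d win.r B win.Λ T' hd1 win.hrd
    hB win.Λcard (fun τ hτ => ⟨(hT' τ hτ).1, (hT' τ hτ).2.1, (hT' τ hτ).2.2.1⟩)
    (by rw [hT'c]; exact hcard) hmono hinj1 hinj2
  obtain ⟨I, J, hI, hJ, hIJ⟩ := hk win.d win.r B G hd2 win.hrd hB
    (fun g hgG => ⟨(hG g hgG).1, (hG g hgG).2.1⟩) hGc
  have hJne : ∀ i ∈ I, J.Nonempty := by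
    intro i hi
    rw [← Finset.card_pos, hJ, ← hI, Finset.card_pos]
    exact ⟨i, hi⟩
  have hIne : ∀ b ∈ J, I.Nonempty := by
    intro i hi
    rw [← Finset.card_pos, hI, ← hJ, Finset.card_pos]
    exact ⟨i, hi⟩
  exact ⟨{
    Ω := reg (w.mr 0) (w.mr K) w.ρ
    open_Ω := isOpen_Ioo.prod isOpen_Ioo
    convex_Ω := (convex_Ioo _ _).prod (convex_Ioo _ _)
    A := w.fam win.j
    B := w.fam k
    C := w.fam l
    AB := w.disj _ _ (Ne.symm hkj)
    AC := w.disj _ _ (Ne.symm hlj)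
    BC := w.disj _ _ (Ne.symm hlk)
    s := fun i => (win.x i).1
    t := t
    r := win.r
    q := B - 1
    smono := win.xmono
    tmono := fun i k hik hkq => htm i k hik (by omega)
    δ := δ
    ε := ε
    hδ := hδ1
    hδM := hδM
    hε := hε0
    hεM := hεM
    I := I
    J := J
    cardI := hI.ge
    cardJ := hJ.ge
    hI := by
      intro i hi
      obtain ⟨b, hb⟩ := hJne i hi
      obtain ⟨-, -, y, b', -, h2, -⟩ := hG (i, b) (hIJ i hi b hb)
      exact (hT' _ h2).1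
    hJ := by
      intro b hb
      obtain ⟨i, hi⟩ := hIne b hb
      obtain ⟨h0, h1, y, b', h3, h2, h4⟩ := hG (i, b) (hIJ i hi b hb)
      have h5 := (hT' _ h2).2.2.1
      simp only at h0 h1 h4 h5
      refine ⟨by omega, by omega, by omega⟩
    inc := by
      intro i hi b hb
      obtain ⟨h0, h1, y, b', h3, h2, h4⟩ := hG (i, b) (hIJ i hi b hb)
      obtain ⟨-, -, -, X, hX, x1, x2, x3⟩ := hT' _ h3
      obtain ⟨-, -, -, Y, hY, y1, y2, y3⟩ := hT' _ h2
      simp only at h4 x1 x2 x3 y1 y2 y3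
      refine ⟨X, hX, Y, hY, x1, x2, y1, ?_, by rw [x3, y3]⟩
      rw [← h4, Int.toNat_natCast]
      exact y2 }⟩

end Pool.ACA
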