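import Pool.Agent.Lib.MP_aca35e_co.Main
import Pool.Agent.Lib.MP_aca35e_co.A1
import Pool.Agent.Lib.MP_aca35e_co.A5
import Pool.Agent.Lib.MP_aca35e_co.A6
import Pool.Agent.Lib.MP_aca35e_co.A7
import Pool.Agent.Lib.MP_aca35e_co.A8
import Pool.Agent.Lib.MP_aca35e_co.B5

/-!
# MP_aca35e_co: the degree is 3
-/

set_option autoImplicit false

namespace Pool.ACA

open Set Filter Topology

theorem degree_eq_three (T : Set V3) (A : Set (Submodule ℝ V3)) (hT : IsTits T A)
    (haff : IsAffine T) (P : MvPolynomial (Fin 3) ℝ) (n : ℕ) (hP : P.IsHomogeneous n)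
    (hirr : Irreducible P) (hc : OnCurve A P) : n = 3 := by
  obtain ⟨α, hα, hTα⟩ := halfspace T A hT.toIsArr haff
  have hne : T.Nonempty := by
    obtain ⟨x, hx⟩ : ∃ x, α x ≠ 0 := by
      by_contra hcon
      push Not at hcon
      exact hα (LinearMap.ext hcon)
    rcases lt_or_gt_of_ne hx with h | h
    · exact ⟨-x, by rw [hTα]; simpa using h⟩
    · exact ⟨x, by rw [hTα]; exact h⟩
  have h2 := deg_ge_two T A hT hne P n hP hirr hc
  obtain ⟨P', W, hP', hirr', hz, hW⟩ := chart T A hT α hα hTα P n hP hirr hc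
  have hcur := bezout hP' hirr'
  have hz' : ∀ w ∈ W, pv (deh P') w = 0 := fun w hw => by rw [eval_deh]; exact hz w hw
  have hpar : ∀ v : ℝ × ℝ, v ≠ 0 → {w ∈ W | w.1 * v.1 + w.2 * v.2 = 0}.Finite := by
    intro v hv
    by_contra hinf
    have hinf' : {w ∈ W | w.1 * v.1 + w.2 * v.2 = 0}.Infinite := hinf
    obtain ⟨S, hS, hcard⟩ := hinf'.exists_subset_card_eq (n + 1)
    have hv' : v.1 ≠ 0 ∨ v.2 ≠ 0 := by
      by_contra hcon
      push Not at hcon
      exact hv (Prod.ext hcon.1 hcon.2)
    have := fin_line hcur h2 v.1 v.2 0 hv' S (fun w hw => ⟨hz' w (hS hw).1, by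
      have := (hS hw).2
      linarith⟩)
    omega
  have htri := no_strip W hW hpar
  have hV := aff_v1 W hW htri
  rcases lt_trichotomy n 3 with hn | hn | hn
  · exfalso
    have hn2 : n = 2 := by omega
    subst hn2
    refine deg2 W hW htri hV (fun X S hS => ?_)
    by_cases hX : X.1 ≠ 0 ∨ X.2 ≠ 0
    · exact fin_line hcur le_rfl X.1 X.2 1 hX S (fun w hw => ⟨hz' w (hS w hw).1, by
        have := (hS w hw).2
        unfold on at this
        linarith⟩)
    · push Not at hX
      have hem : S = ∅ := by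
        by_contra hne'
        obtain ⟨w, hw⟩ := Finset.nonempty_iff_ne_empty.2 hne'
        have := (hS w hw).2
        unfold on at this
        rw [hX.1, hX.2] at this
        simp at this
      rw [hem]; simp
  · exact hn
  · exfalso
    exact setup_false ⟨hn, hcur, hz', aff_inf W hW htri, hW.ne, hW.fin, hV⟩

end Pool.ACA
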