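import Pool.Agent.Lib.MP_aca35e_co.Final
import Pool.Agent.Lib.MP_aca35e_co.Deg3

/-!
# MP_aca35e_co: no affine rank-3 Tits arrangement lies on an irreducible curve
-/

set_option autoImplicit false

namespace Pool.ACA

open Set Filter Topology

theorem no_curve (T : Set V3) (A : Set (Submodule ℝ V3)) (hT : IsTits T A)
    (haff : IsAffine T) (P : MvPolynomial (Fin 3) ℝ) (n : ℕ) (hP : P.IsHomogeneous n)
    (hirr : Irreducible P) (hc : OnCurve A P) : False := by
  have hn := degree_eq_three T A hT haff P n hP hirr hc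
  subst hn
  obtain ⟨α, hα, hTα⟩ := halfspace T A hT.toIsArr haff
  obtain ⟨P', W, hP', hirr', hz, hW⟩ := chart T A hT α hα hTα P 3 hP hirr hc
  have hcur := bezout hP' hirr'
  have hz' : ∀ w ∈ W, pv (deh P') w = 0 := fun w hw => by rw [eval_deh]; exact hz w hw
  have hpar : ∀ v : ℝ × ℝ, v ≠ 0 → {w ∈ W | w.1 * v.1 + w.2 * v.2 = 0}.Finite := by
    intro v hv
    by_contra hinf
    have hinf' : {w ∈ W | w.1 * v.1 + w.2 * v.2 = 0}.Infinite := hinf
    obtain ⟨S, hS, hcard⟩ := hinf'.exists_subset_card_eq 4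
    have hv' : v.1 ≠ 0 ∨ v.2 ≠ 0 := by
      by_contra hcon
      push Not at hcon
      exact hv (Prod.ext hcon.1 hcon.2)
    have := fin_line hcur (by norm_num) v.1 v.2 0 hv' S (fun w hw => ⟨hz' w (hS hw).1, by
      have := (hS hw).2
      linarith⟩)
    omega
  refine deg3 ⟨hW, no_strip W hW hpar, fun X S hS => ?_, hpar⟩
  by_cases hX : X.1 ≠ 0 ∨ X.2 ≠ 0
  · exact fin_line hcur (by norm_num) X.1 X.2 1 hX S (fun w hw => ⟨hz' w (hS w hw).1, by
      have := (hS w hw).2
      unfold on at this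
      linarith⟩)
  · push Not at hX
    have hem : S = ∅ := by
      by_contra hne'
      obtain ⟨w, hw⟩ := Finset.nonempty_iff_ne_empty.2 hne'
      have := (hS w hw).2
      unfold on at this
      rw [hX.1, hX.2] at this
      simp at this
    rw [hem]; simp

end Pool.ACA
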