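import Pool.Agent.Lib.MP_aca35e_co.Defs
import Pool.Agent.Lib.MP_aca35e_co.P1

/-!
# MP_aca35e_co, row G1

The rectangle of parameters.
-/

set_option autoImplicit false
set_option linter.unusedVariables false

namespace Pool.ACA

open Set Filter Topology

private lemma g1_convex {Ω : Set (ℝ × ℝ)} (hΩ : Convex ℝ Ω) (w : ℝ × ℝ) :
    Convex ℝ {t : ℝ | (t, ev w t) ∈ Ω} := by
  intro a ha b hb α β hα hβ hab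
  have h := hΩ ha hb hα hβ hab
  have e : (α • a + β • b, ev w (α • a + β • b)) = α • (a, ev w a) + β • (b, ev w b) := by
    apply Prod.ext
    · rfl
    · show w.2 - w.1 * (α * a + β * b) = α * (w.2 - w.1 * a) + β * (w.2 - w.1 * b)
      have hβ' : β = 1 - α := by linarith
      rw [hβ']
      ring
  show (α • a + β • b, ev w (α • a + β • b)) ∈ Ω
  rw [e]
  exact h

/-- Intermediate values of `A.par` on a line of the family `C`. -/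
private lemma g1_ivt {p : MvPolynomial (Fin 2) ℝ} {Ω : Set (ℝ × ℝ)} (hΩ : Convex ℝ Ω)
    (A C : Fam p Ω) (X₁ X₂ : ℝ × ℝ) (h₁ : X₁ ∈ Ω) (h₂ : X₂ ∈ Ω) (t : ℝ) (ht₁ : C.par X₁ = t)
    (ht₂ : C.par X₂ = t) (s : ℝ) (hs : s ∈ Icc (A.par X₁) (A.par X₂)) :
    ∃ X ∈ Ω, A.par X = s ∧ C.par X = t := by
  set w : ℝ × ℝ := (t, C.φ t) with hw
  have hC : C.has w := ⟨by rw [hw, ← ht₁]; exact C.mem X₁ h₁, rfl⟩
  have e₁ : ev w X₁.1 = X₁.2 := (par_of_has C X₁ w h₁ hC).2 ht₁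
  have e₂ : ev w X₂.1 = X₂.2 := (par_of_has C X₂ w h₂ hC).2 ht₂
  have m₁ : X₁.1 ∈ {x : ℝ | (x, ev w x) ∈ Ω} := by
    show (X₁.1, ev w X₁.1) ∈ Ω
    rw [e₁]
    exact h₁
  have m₂ : X₂.1 ∈ {x : ℝ | (x, ev w x) ∈ Ω} := by
    show (X₂.1, ev w X₂.1) ∈ Ω
    rw [e₂]
    exact h₂
  have hsub : uIcc X₁.1 X₂.1 ⊆ {x : ℝ | (x, ev w x) ∈ Ω} :=
    (g1_convex hΩ w).ordConnected.uIcc_subset m₁ m₂
  have hcont : ContinuousOn (fun x => A.par (x, ev w x)) (uIcc X₁.1 X₂.1) :=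
    (par_cont A w).mono hsub
  have hiv := intermediate_value_uIcc hcont
  have hs' : s ∈ uIcc (A.par (X₁.1, ev w X₁.1)) (A.par (X₂.1, ev w X₂.1)) := by
    rw [e₁, e₂]
    exact Icc_subset_uIcc hs
  obtain ⟨x, hx, hxs⟩ := hiv hs'
  have hxΩ : (x, ev w x) ∈ Ω := hsub hx
  exact ⟨(x, ev w x), hxΩ, hxs, (par_of_has C (x, ev w x) w hxΩ hC).1 rfl⟩

theorem rect {p : MvPolynomial (Fin 2) ℝ} {Ω : Set (ℝ × ℝ)} (hΩ : Convex ℝ Ω) (A C : Fam p Ω)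
    (hAC : A.Disj C) (s₁ s₂ t₁ t₂ : ℝ) (hs : s₁ ≤ s₂) (ht : t₁ ≤ t₂)
    (h11 : ∃ X ∈ Ω, A.par X = s₁ ∧ C.par X = t₁) (h12 : ∃ X ∈ Ω, A.par X = s₁ ∧ C.par X = t₂)
    (h21 : ∃ X ∈ Ω, A.par X = s₂ ∧ C.par X = t₁) (h22 : ∃ X ∈ Ω, A.par X = s₂ ∧ C.par X = t₂) :
    ∀ s ∈ Icc s₁ s₂, ∀ t ∈ Icc t₁ t₂, ∃ X ∈ Ω, A.par X = s ∧ C.par X = t := by
  intro s hs' t ht'
  obtain ⟨X11, m11, a11, c11⟩ := h11
  obtain ⟨X12, m12, a12, c12⟩ := h12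
  obtain ⟨X21, m21, a21, c21⟩ := h21
  obtain ⟨X22, m22, a22, c22⟩ := h22
  obtain ⟨Y₁, n₁, b₁, d₁⟩ := g1_ivt hΩ A C X11 X21 m11 m21 t₁ c11 c21 s (by rw [a11, a21]; exact hs')
  obtain ⟨Y₂, n₂, b₂, d₂⟩ := g1_ivt hΩ A C X12 X22 m12 m22 t₂ c12 c22 s (by rw [a12, a22]; exact hs')
  obtain ⟨X, hX, hc, ha⟩ := g1_ivt hΩ C A Y₁ Y₂ n₁ n₂ s b₁ b₂ t (by rw [d₁, d₂]; exact ht')
  exact ⟨X, hX, ha, hc⟩

end Pool.ACA
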