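import Pool.Agent.Lib.MP_aca35e_co.Defs
import Pool.Agent.Lib.MP_aca35e_co.P1

/-!
# MP_aca35e_co, row G2

The function `F s t = B.par (X s t)`, where `X s t` is the point with `A.par = s`, `C.par = t` (unique by `par_inj`). Fix `t` and let
`z = (t, C.φ t)`; the point `X s t` is `(x, ev z x)` with `x = x(s)`, where `A.par (x, ev z x) = s`. By `par_mono` the function
`x ↦ A.par (x, ev z x)` is strictly monotone and continuous on an interval, so its inverse `s ↦ x(s)` is continuous on `[s₁, s₂]` (e.g. a strictly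
monotone function on `[s₁, s₂]` whose image is an interval is continuous), so `F · t` is continuous. Injective: if `F s t = F s' t = b` then the line
`(b, B.φ b)` passes through `X s t` and `X s' t`, both on `z`, and `z` is not in `B` (`BC`), so the points coincide (`par_inj` for `B, C`). The last two
claims are the same with the roles of `A` and `C` exchanged (prove one private lemma and use it twice).
-/

set_option autoImplicit false
set_option linter.unusedVariables false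

namespace Pool.ACA

open Set Filter Topology

private theorem disj_symm {p : MvPolynomial (Fin 2) ℝ} {Ω : Set (ℝ × ℝ)} {A B : Fam p Ω}
    (h : A.Disj B) : B.Disj A := fun w hw => h w ⟨hw.2, hw.1⟩

private theorem half {p : MvPolynomial (Fin 2) ℝ} {Ω : Set (ℝ × ℝ)} (hΩ : Convex ℝ Ω)
    (A B C : Fam p Ω) (hAC : A.Disj C) (hBC : B.Disj C) (s₁ s₂ t : ℝ) (X : ℝ → ℝ × ℝ)
    (hX : ∀ s ∈ Icc s₁ s₂, X s ∈ Ω ∧ A.par (X s) = s ∧ C.par (X s) = t) :
    ContinuousOn (fun s => B.par (X s)) (Icc s₁ s₂) ∧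
      InjOn (fun s => B.par (X s)) (Icc s₁ s₂) := by
  rcases lt_or_ge s₂ s₁ with hlt | hle
  · rw [Icc_eq_empty (not_le.mpr hlt)]
    exact ⟨continuousOn_empty _, injOn_empty _⟩
  have h1m : s₁ ∈ Icc s₁ s₂ := left_mem_Icc.mpr hle
  have h2m : s₂ ∈ Icc s₁ s₂ := right_mem_Icc.mpr hle
  obtain ⟨z, hz⟩ : ∃ z : ℝ × ℝ, z = (t, C.φ t) := ⟨_, rfl⟩
  have htU : t ∈ C.U := by
    have := C.mem _ (hX s₁ h1m).1
    rwa [(hX s₁ h1m).2.2] at this
  have hCz : C.has z := by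
    rw [hz]
    exact ⟨htU, rfl⟩
  have hAz : ¬ A.has z := fun h => hAC z ⟨h, hCz⟩
  have honz : ∀ s ∈ Icc s₁ s₂, ev z (X s).1 = (X s).2 := by
    intro s hs
    have := C.inc _ (hX s hs).1
    rw [(hX s hs).2.2] at this
    rw [hz]
    exact this
  have hpt : ∀ s ∈ Icc s₁ s₂, ((X s).1, ev z (X s).1) = X s := by
    intro s hs
    rw [honz s hs]
  have hmem : ∀ s ∈ Icc s₁ s₂, (X s).1 ∈ {r : ℝ | (r, ev z r) ∈ Ω} := by
    intro s hs
    show ((X s).1, ev z (X s).1) ∈ Ω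
    rw [hpt s hs]
    exact (hX s hs).1
  obtain ⟨g, hg⟩ : ∃ g : ℝ → ℝ, g = fun r => A.par (r, ev z r) := ⟨_, rfl⟩
  have hgx : ∀ s ∈ Icc s₁ s₂, g (X s).1 = s := by
    intro s hs
    rw [hg]
    show A.par ((X s).1, ev z (X s).1) = s
    rw [hpt s hs]
    exact (hX s hs).2.1
  have hgc : ContinuousOn g {r : ℝ | (r, ev z r) ∈ Ω} := by
    rw [hg]
    exact par_cont A z
  have hgm : StrictMonoOn g {r : ℝ | (r, ev z r) ∈ Ω} ∨
      StrictAntiOn g {r : ℝ | (r, ev z r) ∈ Ω} := by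
    rw [hg]
    exact par_mono hΩ A z hAz
  have hginj : InjOn g {r : ℝ | (r, ev z r) ∈ Ω} := by
    rcases hgm with h | h
    · exact h.injOn
    · exact h.injOn
  have hconv : Convex ℝ {r : ℝ | (r, ev z r) ∈ Ω} := by
    intro a ha b hb c d hc hd hcd
    have h := hΩ ha hb hc hd hcd
    show (c • a + d • b, ev z (c • a + d • b)) ∈ Ω
    have he : (c • a + d • b, ev z (c • a + d • b)) = c • (a, ev z a) + d • (b, ev z b) := by
      ext
      · simp
      · simp only [ev, Prod.smul_mk, Prod.mk_add_mk, smul_eq_mul]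
        linear_combination (-z.2) * hcd
    rw [he]
    exact h
  have hK : uIcc (X s₁).1 (X s₂).1 ⊆ {r : ℝ | (r, ev z r) ∈ Ω} := by
    rw [← segment_eq_uIcc]
    exact hconv.segment_subset (hmem s₁ h1m) (hmem s₂ h2m)
  have hxK : ∀ s ∈ Icc s₁ s₂, (X s).1 ∈ uIcc (X s₁).1 (X s₂).1 := by
    intro s hs
    rcases hgm with h | h
    · rw [mem_uIcc]
      left
      constructor
      · rw [← h.le_iff_le (hmem s₁ h1m) (hmem s hs), hgx s₁ h1m, hgx s hs]
        exact hs.1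
      · rw [← h.le_iff_le (hmem s hs) (hmem s₂ h2m), hgx s hs, hgx s₂ h2m]
        exact hs.2
    · rw [mem_uIcc]
      right
      constructor
      · rw [← h.le_iff_ge (hmem s hs) (hmem s₂ h2m), hgx s₂ h2m, hgx s hs]
        exact hs.2
      · rw [← h.le_iff_ge (hmem s₁ h1m) (hmem s hs), hgx s₁ h1m, hgx s hs]
        exact hs.1
  have hxc : ContinuousOn (fun s => (X s).1) (Icc s₁ s₂) := by
    intro s₀ hs₀
    show Tendsto (fun s => (X s).1) (𝓝[Icc s₁ s₂] s₀) (𝓝 (X s₀).1)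
    have hev : ∀ᶠ s in 𝓝[Icc s₁ s₂] s₀, (X s).1 ∈ uIcc (X s₁).1 (X s₂).1 := by
      filter_upwards [self_mem_nhdsWithin] with s hs
      exact hxK s hs
    refine isCompact_uIcc.tendsto_nhds_of_unique_mapClusterPt hev ?_
    intro r hr hcl
    have h3 : Tendsto g (𝓝 r ⊓ map (fun s => (X s).1) (𝓝[Icc s₁ s₂] s₀)) (𝓝 (g r)) := by
      have h4 : 𝓝 r ⊓ map (fun s => (X s).1) (𝓝[Icc s₁ s₂] s₀) ≤
          𝓝[uIcc (X s₁).1 (X s₂).1] r := by
        refine inf_le_inf_left _ ?_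
        rw [le_principal_iff]
        exact hev
      exact Tendsto.mono_left ((hgc.mono hK) r hr) h4
    have h5 : MapClusterPt (g r) (𝓝[Icc s₁ s₂] s₀) (g ∘ fun s => (X s).1) :=
      hcl.tendsto_comp' h3
    have h6 : Tendsto (g ∘ fun s => (X s).1) (𝓝[Icc s₁ s₂] s₀) (𝓝 s₀) := by
      have h7 : Tendsto (fun s : ℝ => s) (𝓝[Icc s₁ s₂] s₀) (𝓝 s₀) :=
        tendsto_id.mono_left nhdsWithin_le_nhds
      refine h7.congr' ?_
      filter_upwards [self_mem_nhdsWithin] with s hs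
      exact (hgx s hs).symm
    have h8 : (𝓝 (g r) ⊓ 𝓝 s₀).NeBot := by
      have h9 : ClusterPt (g r) (map (g ∘ fun s => (X s).1) (𝓝[Icc s₁ s₂] s₀)) := h5
      exact h9.mono h6
    have h10 : g r = s₀ := eq_of_nhds_neBot h8
    refine hginj (hK hr) (hmem s₀ hs₀) ?_
    rw [h10, hgx s₀ hs₀]
  constructor
  · have h := (par_cont B z).comp hxc (fun s hs => hmem s hs)
    refine h.congr ?_
    intro s hs
    show B.par (X s) = B.par ((X s).1, ev z (X s).1)
    rw [hpt s hs]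
  · intro s hs s' hs' he
    have h := par_inj B C hBC (X s) (X s') (hX s hs).1 (hX s' hs').1 he
      ((hX s hs).2.2.trans (hX s' hs').2.2.symm)
    rw [← (hX s hs).2.1, ← (hX s' hs').2.1, h]

theorem F_facts {p : MvPolynomial (Fin 2) ℝ} {Ω : Set (ℝ × ℝ)} (hΩ : Convex ℝ Ω)
    (A B C : Fam p Ω) (hAB : A.Disj B) (hAC : A.Disj C) (hBC : B.Disj C) (s₁ s₂ t₁ t₂ : ℝ)
    (h : ∀ s ∈ Icc s₁ s₂, ∀ t ∈ Icc t₁ t₂, ∃ X ∈ Ω, A.par X = s ∧ C.par X = t) :
    ∃ F : ℝ → ℝ → ℝ, (∀ s ∈ Icc s₁ s₂, ∀ t ∈ Icc t₁ t₂,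
        ∃ X ∈ Ω, A.par X = s ∧ C.par X = t ∧ B.par X = F s t) ∧
      (∀ t ∈ Icc t₁ t₂, ContinuousOn (fun s => F s t) (Icc s₁ s₂) ∧
        InjOn (fun s => F s t) (Icc s₁ s₂)) ∧
      ∀ s ∈ Icc s₁ s₂, ContinuousOn (F s) (Icc t₁ t₂) ∧ InjOn (F s) (Icc t₁ t₂) := by
  choose! X hX1 hX2 hX3 using h
  refine ⟨fun s t => B.par (X s t), ?_, ?_, ?_⟩
  · intro s hs t ht
    exact ⟨X s t, hX1 s hs t ht, hX2 s hs t ht, hX3 s hs t ht, rfl⟩
  · intro t ht
    exact half hΩ A B C hAC hBC s₁ s₂ t (fun s => X s t)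
      (fun s hs => ⟨hX1 s hs t ht, hX2 s hs t ht, hX3 s hs t ht⟩)
  · intro s hs
    exact half hΩ C B A (disj_symm hAC) (disj_symm hAB) t₁ t₂ s (fun t => X s t)
      (fun t ht => ⟨hX1 s hs t ht, hX3 s hs t ht, hX2 s hs t ht⟩)

end Pool.ACA
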