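import Pool.Agent.Lib.MP_aca35e_co.Defs

/-!
# MP_aca35e_co: definitions for the rigidity part (rows G3, G4, G5)
-/

set_option autoImplicit false

namespace Pool.ACA

open Set Filter Topology

/-- zero bound for the correspondences `s ↦ τ s`, `F (τ s) t' = F s t` -/
def ZB (F : ℝ → ℝ → ℝ) (s₁ s₂ t₁ t₂ : ℝ) (Z : ℕ) : Prop :=
  ∀ a b, s₁ ≤ a → a < b → b ≤ s₂ → ∀ t ∈ Icc t₁ t₂, ∀ t' ∈ Icc t₁ t₂, ∀ v ∈ Icc t₁ t₂,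
    ∀ v' ∈ Icc t₁ t₂, ∀ τ₁ τ₂ : ℝ → ℝ, (∀ s ∈ Icc a b, τ₁ s ∈ Icc s₁ s₂ ∧ F (τ₁ s) t' = F s t) →
      (∀ s ∈ Icc a b, τ₂ s ∈ Icc s₁ s₂ ∧ F (τ₂ s) v' = F s v) →
      ∀ P : Finset ℝ, Z < P.card → (∀ s ∈ P, s ∈ Icc a b ∧ τ₁ s = τ₂ s) →
        ∀ s ∈ Icc a b, τ₁ s = τ₂ s

/-- `F` is continuous and injective in each variable -/
def Mono2 (F : ℝ → ℝ → ℝ) (s₁ s₂ t₁ t₂ : ℝ) : Prop :=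
  (∀ t ∈ Icc t₁ t₂, ContinuousOn (fun s => F s t) (Icc s₁ s₂) ∧ InjOn (fun s => F s t) (Icc s₁ s₂)) ∧
    ∀ s ∈ Icc s₁ s₂, ContinuousOn (F s) (Icc t₁ t₂) ∧ InjOn (F s) (Icc t₁ t₂)

end Pool.ACA
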