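import Pool.Agent.Lib.MP_aca35e_co.Defs
import Pool.Agent.Lib.MP_aca35e_co.GDefs

/-!
# MP_aca35e_co, row G3

Signs. `sign1`: for each `t`, `F · t` is continuous and injective on `[s₁, s₂]`, so strictly monotone; for `s₁ ≤ a < b ≤ s₂` the function
`t ↦ F b t - F a t` is continuous on `[t₁, t₂]` and has no zero, so it has a constant sign; so the type of monotonicity does not depend on `t`.
(If `s₁ < s₂`: compare with `a = s₁`, `b = s₂`.) `solve`: IVT: for `s ∈ [a, b]` the value `F s t` is between `F a t = F a' t'` and `F b t = F b' t'`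
(monotone), so there is `τ ∈ [a', b']` with `F τ t' = F s t`; unique by injectivity.
-/

set_option autoImplicit false
set_option linter.unusedVariables false

namespace Pool.ACA

open Set Filter Topology

private lemma mono_or_anti (f : ℝ → ℝ) (a b : ℝ) (hab : a ≤ b) (hc : ContinuousOn f (Icc a b))
    (hi : InjOn f (Icc a b)) : StrictMonoOn f (Icc a b) ∨ StrictAntiOn f (Icc a b) :=
  ContinuousOn.strictMonoOn_of_injOn_Icc' hab hc hi

theorem sign1 (F : ℝ → ℝ → ℝ) (s₁ s₂ t₁ t₂ : ℝ) (hF : Mono2 F s₁ s₂ t₁ t₂) :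
    (∀ t ∈ Icc t₁ t₂, StrictMonoOn (fun s => F s t) (Icc s₁ s₂)) ∨
      ∀ t ∈ Icc t₁ t₂, StrictAntiOn (fun s => F s t) (Icc s₁ s₂) := by
  rcases le_or_gt s₂ s₁ with hs | hs
  · left
    intro t _ x hx y hy hxy
    exfalso
    have h1 := hx.1; have h2 := hy.2
    linarith
  have hm1 : s₁ ∈ Icc s₁ s₂ := ⟨le_rfl, hs.le⟩
  have hm2 : s₂ ∈ Icc s₁ s₂ := ⟨hs.le, le_rfl⟩
  set h : ℝ → ℝ := fun t => F s₂ t - F s₁ t with hh
  have hcont : ContinuousOn h (Icc t₁ t₂) := ((hF.2 s₂ hm2).1).sub ((hF.2 s₁ hm1).1)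
  have hne : ∀ t ∈ Icc t₁ t₂, h t ≠ 0 := by
    intro t ht h0
    have h1 : F s₂ t = F s₁ t := by
      have : F s₂ t - F s₁ t = 0 := h0
      linarith
    have h2 : s₂ = s₁ := (hF.1 t ht).2 hm2 hm1 h1
    linarith
  have hmain : ∀ t ∈ Icc t₁ t₂, (0 < h t → StrictMonoOn (fun s => F s t) (Icc s₁ s₂)) ∧
      (h t < 0 → StrictAntiOn (fun s => F s t) (Icc s₁ s₂)) := by
    intro t ht
    rcases mono_or_anti (fun s => F s t) s₁ s₂ hs.le (hF.1 t ht).1 (hF.1 t ht).2 with hm | hm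
    · refine ⟨fun _ => hm, fun h0 => ?_⟩
      exfalso
      have h1 : F s₁ t < F s₂ t := hm hm1 hm2 hs
      have h2 : F s₂ t - F s₁ t < 0 := h0
      linarith
    · refine ⟨fun h0 => ?_, fun _ => hm⟩
      exfalso
      have h1 : F s₂ t < F s₁ t := hm hm1 hm2 hs
      have h2 : 0 < F s₂ t - F s₁ t := h0
      linarith
  by_cases hex : ∃ t ∈ Icc t₁ t₂, 0 < h t
  · obtain ⟨t₀, ht₀, hp⟩ := hex
    left
    intro t ht
    refine (hmain t ht).1 ?_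
    by_contra hcon
    have hneg : h t < 0 := lt_of_le_of_ne (not_lt.1 hcon) (hne t ht)
    have hsub : uIcc t t₀ ⊆ Icc t₁ t₂ := by
      intro x hx
      rw [mem_uIcc] at hx
      rcases hx with hx | hx
      · exact ⟨ht.1.trans hx.1, hx.2.trans ht₀.2⟩
      · exact ⟨ht₀.1.trans hx.1, hx.2.trans ht.2⟩
    have h0 : (0 : ℝ) ∈ uIcc (h t) (h t₀) := by
      rw [mem_uIcc]; left; exact ⟨hneg.le, hp.le⟩
    obtain ⟨x, hx, hx0⟩ := intermediate_value_uIcc (hcont.mono hsub) h0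
    exact hne x (hsub hx) hx0
  · right
    intro t ht
    refine (hmain t ht).2 ?_
    have h1 : ¬ 0 < h t := fun h0 => hex ⟨t, ht, h0⟩
    exact lt_of_le_of_ne (not_lt.1 h1) (hne t ht)

theorem Mono2.flip (F : ℝ → ℝ → ℝ) (s₁ s₂ t₁ t₂ : ℝ) (hF : Mono2 F s₁ s₂ t₁ t₂) :
    Mono2 (fun t s => F s t) t₁ t₂ s₁ s₂ := by
  refine ⟨fun s hs => ?_, fun t ht => ?_⟩
  · exact hF.2 s hs
  · exact hF.1 t ht

theorem solve (F : ℝ → ℝ → ℝ) (s₁ s₂ t₁ t₂ : ℝ) (hF : Mono2 F s₁ s₂ t₁ t₂) (a b a' b' t t' : ℝ)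
    (ha : s₁ ≤ a) (hab : a ≤ b) (hb : b ≤ s₂) (ha' : s₁ ≤ a') (hab' : a' ≤ b') (hb' : b' ≤ s₂)
    (ht : t ∈ Icc t₁ t₂) (ht' : t' ∈ Icc t₁ t₂) (h1 : F a t = F a' t') (h2 : F b t = F b' t') :
    ∀ s ∈ Icc a b, ∃ τ ∈ Icc a' b', F τ t' = F s t := by
  intro s hs
  have hsm : s ∈ Icc s₁ s₂ := ⟨ha.trans hs.1, hs.2.trans hb⟩
  have ham : a ∈ Icc s₁ s₂ := ⟨ha, hab.trans hb⟩
  have hbm : b ∈ Icc s₁ s₂ := ⟨ha.trans hab, hb⟩
  have hsub : uIcc a' b' ⊆ Icc s₁ s₂ := by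
    rw [uIcc_of_le hab']
    exact Icc_subset_Icc ha' hb'
  have hv : F s t ∈ uIcc (F a' t') (F b' t') := by
    rw [← h1, ← h2, mem_uIcc]
    rcases mono_or_anti (fun s => F s t) s₁ s₂ (ha.trans (hab.trans hb)) (hF.1 t ht).1
      (hF.1 t ht).2 with hm | hm
    · left
      exact ⟨hm.monotoneOn ham hsm hs.1, hm.monotoneOn hsm hbm hs.2⟩
    · right
      exact ⟨hm.antitoneOn hsm hbm hs.2, hm.antitoneOn ham hsm hs.1⟩
  obtain ⟨τ, hτ, hτe⟩ := intermediate_value_uIcc ((hF.1 t' ht').1.mono hsub) hv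
  rw [uIcc_of_le hab'] at hτ
  exact ⟨τ, hτ, hτe⟩

end Pool.ACA
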