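import Pool.Agent.Lib.MP_aca35e_co.Defs
import Pool.Agent.Lib.MP_aca35e_co.GDefs
import Pool.Agent.Lib.MP_aca35e_co.G3

/-!
# MP_aca35e_co, row G4

Rigidity of one variable. Data: `F` continuous and injective in each variable on `[s₁, s₂] × [t₁, t₂]`; pairs `(s i, s' i)`, `i ∈ I`, and pairs `(t b, t' b)`, `b ∈ J`, with
`F (s i) (t b) = F (s' i) (t' b)`. Let `a = s imin`, `b = s imax`. For every `b ∈ J` `solve` (G3) gives `τ_b : [a, b] → [s' imin, s' imax]` with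
`F (τ_b x) (t' b) = F x (t b)`; `τ_b (s i) = s' i` by injectivity, `i ∈ I`. `ZB` and `Z < I.card` (the points `s i` are different) give `τ_b = τ_c` on `[a, b]`
for `b, c ∈ J`. `τ` is strictly increasing: `F (τ x) (t' b) = F x (t b)` and `F · t` is strictly monotone of the same type for all `t` (`sign1`).
-/

set_option autoImplicit false
set_option linter.unusedVariables false

namespace Pool.ACA

open Set Filter Topology

private theorem tau_exists (F : ℝ → ℝ → ℝ) (s₁ s₂ t₁ t₂ : ℝ) (hF : Mono2 F s₁ s₂ t₁ t₂)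
    (s s' : ℕ → ℝ) (I : Finset ℕ) (imin imax : ℕ) (hmin : imin ∈ I)
    (hmax : imax ∈ I) (hlt : imin < imax)
    (hs : ∀ i ∈ I, s i ∈ Icc s₁ s₂ ∧ s' i ∈ Icc s₁ s₂)
    (smono : ∀ i ∈ I, ∀ k ∈ I, i < k → s i < s k ∧ s' i < s' k) (u v : ℝ)
    (hu : u ∈ Icc t₁ t₂) (hv : v ∈ Icc t₁ t₂)
    (h : ∀ i ∈ I, F (s i) u = F (s' i) v) :
    ∃ τ : ℝ → ℝ, ∀ x ∈ Icc (s imin) (s imax), τ x ∈ Icc s₁ s₂ ∧ F (τ x) v = F x u := by
  classical
  have hm := smono imin hmin imax hmax hlt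
  have key := solve F s₁ s₂ t₁ t₂ hF (s imin) (s imax) (s' imin) (s' imax) u v
    (hs imin hmin).1.1 hm.1.le (hs imax hmax).1.2 (hs imin hmin).2.1 hm.2.le (hs imax hmax).2.2
    hu hv (h imin hmin) (h imax hmax)
  have key2 : ∀ x : ℝ, ∃ y : ℝ, x ∈ Icc (s imin) (s imax) → y ∈ Icc s₁ s₂ ∧ F y v = F x u := by
    intro x
    by_cases hx : x ∈ Icc (s imin) (s imax)
    · obtain ⟨y, hy, hy2⟩ := key x hx
      exact ⟨y, fun _ => ⟨⟨(hs imin hmin).2.1.trans hy.1, hy.2.trans (hs imax hmax).2.2⟩, hy2⟩⟩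
    · exact ⟨0, fun h => absurd h hx⟩
  choose τ hτ using key2
  exact ⟨τ, hτ⟩

theorem rigid1 (F : ℝ → ℝ → ℝ) (s₁ s₂ t₁ t₂ : ℝ) (hF : Mono2 F s₁ s₂ t₁ t₂) (Z : ℕ)
    (hZ : ZB F s₁ s₂ t₁ t₂ Z) (s s' : ℕ → ℝ) (I : Finset ℕ) (imin imax : ℕ) (hmin : imin ∈ I)
    (hmax : imax ∈ I) (hI : ∀ i ∈ I, imin ≤ i ∧ i ≤ imax) (hlt : imin < imax) (hcard : Z < I.card)
    (hs : ∀ i ∈ I, s i ∈ Icc s₁ s₂ ∧ s' i ∈ Icc s₁ s₂)
    (smono : ∀ i ∈ I, ∀ k ∈ I, i < k → s i < s k ∧ s' i < s' k)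
    (J : Finset ℕ) (hJ : J.Nonempty) (t t' : ℕ → ℝ)
    (ht : ∀ b ∈ J, t b ∈ Icc t₁ t₂ ∧ t' b ∈ Icc t₁ t₂)
    (h : ∀ i ∈ I, ∀ b ∈ J, F (s i) (t b) = F (s' i) (t' b)) :
    ∃ τ : ℝ → ℝ, (∀ i ∈ I, τ (s i) = s' i) ∧ StrictMonoOn τ (Icc (s imin) (s imax)) ∧
      ∀ x ∈ Icc (s imin) (s imax), τ x ∈ Icc s₁ s₂ ∧ ∀ b ∈ J, F (τ x) (t' b) = F x (t b) := by
  classical
  obtain ⟨b₀, hb₀⟩ := hJ
  have ex : ∀ b ∈ J, ∃ τ : ℝ → ℝ, ∀ x ∈ Icc (s imin) (s imax),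
      τ x ∈ Icc s₁ s₂ ∧ F (τ x) (t' b) = F x (t b) := fun b hb =>
    tau_exists F s₁ s₂ t₁ t₂ hF s s' I imin imax hmin hmax hlt hs smono (t b) (t' b)
      (ht b hb).1 (ht b hb).2 (fun i hi => h i hi b hb)
  have hmem : ∀ i ∈ I, s i ∈ Icc (s imin) (s imax) := by
    intro i hi
    constructor
    · rcases (hI i hi).1.eq_or_lt with h1 | h1
      · rw [h1]
      · exact (smono imin hmin i hi h1).1.le
    · rcases (hI i hi).2.eq_or_lt with h1 | h1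
      · rw [h1]
      · exact (smono i hi imax hmax h1).1.le
  have val : ∀ b ∈ J, ∀ τ : ℝ → ℝ, (∀ x ∈ Icc (s imin) (s imax),
      τ x ∈ Icc s₁ s₂ ∧ F (τ x) (t' b) = F x (t b)) → ∀ i ∈ I, τ (s i) = s' i := by
    intro b hb τ hτ i hi
    have h1 := hτ (s i) (hmem i hi)
    refine (hF.1 (t' b) (ht b hb).2).2 h1.1 (hs i hi).2 ?_
    show F (τ (s i)) (t' b) = F (s' i) (t' b)
    rw [h1.2, h i hi b hb]
  obtain ⟨τ, hτ⟩ := ex b₀ hb₀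
  have sinj : Set.InjOn s I := by
    intro i hi k hk hik
    rcases lt_trichotomy i k with h1 | h1 | h1
    · exact absurd hik (smono i hi k hk h1).1.ne
    · exact h1
    · exact absurd hik (smono k hk i hi h1).1.ne'
  have hcardP : Z < (I.image s).card := by
    rw [Finset.card_image_of_injOn sinj]; exact hcard
  have all : ∀ b ∈ J, ∀ x ∈ Icc (s imin) (s imax), F (τ x) (t' b) = F x (t b) := by
    intro b hb x hx
    obtain ⟨τb, hτb⟩ := ex b hb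
    have e : ∀ x ∈ Icc (s imin) (s imax), τ x = τb x := by
      refine hZ (s imin) (s imax) (hs imin hmin).1.1 (smono imin hmin imax hmax hlt).1
        (hs imax hmax).1.2 (t b₀) (ht b₀ hb₀).1 (t' b₀) (ht b₀ hb₀).2 (t b) (ht b hb).1
        (t' b) (ht b hb).2 τ τb hτ hτb (I.image s) hcardP ?_
      intro y hy
      obtain ⟨i, hi, rfl⟩ := Finset.mem_image.1 hy
      refine ⟨hmem i hi, ?_⟩
      rw [val b₀ hb₀ τ hτ i hi, val b hb τb hτb i hi]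
    rw [e x hx]
    exact (hτb x hx).2
  have hsub : ∀ x ∈ Icc (s imin) (s imax), x ∈ Icc s₁ s₂ := fun x hx =>
    ⟨(hs imin hmin).1.1.trans hx.1, hx.2.trans (hs imax hmax).1.2⟩
  refine ⟨τ, fun i hi => val b₀ hb₀ τ hτ i hi, ?_, fun x hx => ⟨(hτ x hx).1, fun b hb => all b hb x hx⟩⟩
  intro x hx y hy hxy
  have h1 := hτ x hx
  have h2 := hτ y hy
  rcases sign1 F s₁ s₂ t₁ t₂ hF with hm | hm
  · have h3 : F x (t b₀) < F y (t b₀) := hm (t b₀) (ht b₀ hb₀).1 (hsub x hx) (hsub y hy) hxy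
    rw [← h1.2, ← h2.2] at h3
    exact ((hm (t' b₀) (ht b₀ hb₀).2).lt_iff_lt h1.1 h2.1).1 h3
  · have h3 : F y (t b₀) < F x (t b₀) := hm (t b₀) (ht b₀ hb₀).1 (hsub x hx) (hsub y hy) hxy
    rw [← h1.2, ← h2.2] at h3
    exact ((hm (t' b₀) (ht b₀ hb₀).2).lt_iff_gt h2.1 h1.1).1 h3

end Pool.ACA
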