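import Pool.Agent.Lib.MP_aca35e_co.Defs
import Pool.Agent.Lib.MP_aca35e_co.GDefs
import Pool.Agent.Lib.MP_aca35e_co.G3
import Pool.Agent.Lib.MP_aca35e_co.G4

/-!
# MP_aca35e_co, row G5

Iteration. `S = n M + Z + M + 2` (or larger). Let `I' = {i ∈ I | i + δ ≤ max I}`, `J' = {b ∈ J | min J ≤ b + ε ≤ max J}`: at least `S - M` elements.
`rigid1` (G4) for `I', J'`: `τ` on `[a, b] = [s (min I'), s (max I')]`, `F (τ x) (t (b+ε)) = F x (t b)` for all `b ∈ J'`.
Then `σ`: `x 0 = s (min I')`, `x (a + 1) = τ (x a)`; `F (x a) (t b) = F (x (a+1)) (t (b + ε))` for `b ∈ J'`, `a < n`: `rigid1` for the flipped function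
`fun t s => F s t`, pairs `(t b, t (b + ε).toNat)`, `b ∈ J'`, and pairs `(x a, x (a + 1))`, `a ∈ range n` (if `n = 0` the claim is easy: one point).
About `x`: `x 0 = s (min I')`, `x (a + 1) = τ (x a)`: by induction `x a ≤ s (i_{1 + a δ})` where `i_1 < i_2 < ...` are the elements of `I'` (`τ` is increasing and
`i_k + δ ≤ i_{k + δ}`), so all stay in `[a, b]` for `a ≤ n`; `x (a + 1) > x a` (`x 1 = s (min I' + δ) > x 0`, and `τ` is increasing).
`z` in the same way with `σ` (increasing if `ε > 0`, starting at `min J'`, decreasing if `ε < 0`, starting at `max J'`). `F (x a) (z c) = F (x (a+1)) (z (c+1))`.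
`y (c - a) := F (x a) (z c)`: well defined; strictly monotone in `c - a`: `F (x 1) (z 1) = F (x 0) (z 0) ≠ F (x 1) (z 0)`, compare signs (`sign1` for `F` and its
flip): along `e = 0, 1, ..., n`: `F (x 0) (z e)`, and `e = 0, -1, ..., -n`: `F (x (-e)) (z 0)`, opposite directions. It is fine to split the row.
-/

set_option autoImplicit false
set_option linter.unusedVariables false

namespace Pool.ACA

open Set Filter Topology

private theorem iter_up (P : Finset ℝ) (lo hi : ℝ) (hlo : lo ∈ P)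
    (hP : ∀ p ∈ P, lo ≤ p ∧ p ≤ hi) (τ : ℝ → ℝ) (hτ : StrictMonoOn τ (Icc lo hi)) (δ n : ℕ)
    (hcard : n * δ < P.card)
    (h : ∀ p ∈ P, p < τ p ∧ (P.filter (fun y => p ≤ y ∧ y < τ p)).card ≤ δ) :
    ∀ a ≤ n, lo ≤ τ^[a] lo ∧ τ^[a] lo < τ (τ^[a] lo) ∧
      ∃ p ∈ P, τ^[a] lo ≤ p ∧ (P.filter (fun y => y < p)).card ≤ a * δ := by
  intro a
  induction a with
  | zero =>
    intro _
    refine ⟨le_refl _, (h lo hlo).1, lo, hlo, le_refl _, ?_⟩
    have h0 : P.filter (fun y => y < lo) = ∅ := by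
      apply Finset.filter_eq_empty_iff.2
      intro y hy
      exact not_lt.2 (hP y hy).1
    rw [h0]; simp
  | succ a ih =>
    intro ha
    obtain ⟨h1, h2, p, hp, hxp, hc⟩ := ih (by omega)
    rw [Function.iterate_succ_apply']
    have hpI : p ∈ Icc lo hi := hP p hp
    have hxI : τ^[a] lo ∈ Icc lo hi := ⟨h1, hxp.trans hpI.2⟩
    have hle : τ (τ^[a] lo) ≤ τ p := hτ.monotoneOn hxI hpI hxp
    have hcc : (P.filter (fun y => y < τ p)).card ≤ (a + 1) * δ := by
      have hsub : P.filter (fun y => y < τ p) ⊆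
          P.filter (fun y => y < p) ∪ P.filter (fun y => p ≤ y ∧ y < τ p) := by
        intro y hy
        rw [Finset.mem_filter] at hy
        rw [Finset.mem_union, Finset.mem_filter, Finset.mem_filter]
        rcases lt_or_ge y p with hyp | hyp
        · exact Or.inl ⟨hy.1, hyp⟩
        · exact Or.inr ⟨hy.1, hyp, hy.2⟩
      calc (P.filter (fun y => y < τ p)).card
          ≤ (P.filter (fun y => y < p) ∪ P.filter (fun y => p ≤ y ∧ y < τ p)).card :=
            Finset.card_le_card hsub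
        _ ≤ (P.filter (fun y => y < p)).card + (P.filter (fun y => p ≤ y ∧ y < τ p)).card :=
            Finset.card_union_le _ _
        _ ≤ a * δ + δ := Nat.add_le_add hc (h p hp).2
        _ = (a + 1) * δ := by ring
    have hne : (P.filter (fun y => τ p ≤ y)).Nonempty := by
      by_contra hcon
      rw [Finset.not_nonempty_iff_eq_empty, Finset.filter_eq_empty_iff] at hcon
      have hall : P.filter (fun y => y < τ p) = P := by
        apply Finset.filter_true_of_mem
        intro y hy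
        exact not_le.1 (hcon hy)
      rw [hall] at hcc
      have : (a + 1) * δ ≤ n * δ := Nat.mul_le_mul_right _ ha
      omega
    obtain ⟨p', hp', hmin⟩ := Finset.exists_min_image _ id hne
    rw [Finset.mem_filter] at hp'
    have hx' : τ (τ^[a] lo) ≤ p' := hle.trans hp'.2
    have hxI' : τ (τ^[a] lo) ∈ Icc lo hi := ⟨h1.trans h2.le, hx'.trans (hP p' hp'.1).2⟩
    refine ⟨hxI'.1, hτ hxI hxI' h2, p', hp'.1, hx', le_trans (Finset.card_le_card ?_) hcc⟩
    intro y hy
    rw [Finset.mem_filter] at hy ⊢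
    refine ⟨hy.1, ?_⟩
    by_contra hcon
    have := hmin y (Finset.mem_filter.2 ⟨hy.1, not_lt.1 hcon⟩)
    simp only [id] at this
    exact absurd hy.2 (not_lt.2 this)

/-- upward iteration -/
private theorem iter_up' (P : Finset ℝ) (lo hi : ℝ) (hlo : lo ∈ P)
    (hP : ∀ p ∈ P, lo ≤ p ∧ p ≤ hi) (τ : ℝ → ℝ) (hτ : StrictMonoOn τ (Icc lo hi)) (δ n : ℕ)
    (hcard : n * δ < P.card)
    (h : ∀ p ∈ P, p < τ p ∧ (P.filter (fun y => p ≤ y ∧ y < τ p)).card ≤ δ) :
    (∀ a ≤ n, τ^[a] lo ∈ Icc lo hi) ∧ ∀ a < n, τ^[a] lo < τ^[a + 1] lo := by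
  have key := iter_up P lo hi hlo hP τ hτ δ n hcard h
  constructor
  · intro a ha
    obtain ⟨h1, _, p, hp, hxp, _⟩ := key a ha
    exact ⟨h1, hxp.trans (hP p hp).2⟩
  · intro a ha
    rw [Function.iterate_succ_apply']
    exact (key a ha.le).2.1

/-- downward iteration -/
private theorem iter_down (P : Finset ℝ) (lo hi : ℝ) (hhi : hi ∈ P)
    (hP : ∀ p ∈ P, lo ≤ p ∧ p ≤ hi) (τ : ℝ → ℝ) (hτ : StrictMonoOn τ (Icc lo hi)) (δ n : ℕ)
    (hcard : n * δ < P.card)
    (h : ∀ p ∈ P, τ p < p ∧ (P.filter (fun y => τ p < y ∧ y ≤ p)).card ≤ δ) :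
    (∀ a ≤ n, τ^[a] hi ∈ Icc lo hi) ∧ ∀ a < n, τ^[a + 1] hi < τ^[a] hi := by
  classical
  have hit : ∀ a : ℕ, (fun y => - τ (-y))^[a] (-hi) = - (τ^[a] hi) := by
    intro a
    induction a with
    | zero => rfl
    | succ a ih => rw [Function.iterate_succ_apply', ih, Function.iterate_succ_apply']; simp
  have key := iter_up' (P.image (fun y => -y)) (-hi) (-lo)
    (Finset.mem_image.2 ⟨hi, hhi, rfl⟩)
    (by
      intro p hp
      obtain ⟨q, hq, rfl⟩ := Finset.mem_image.1 hp
      have := hP q hq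
      constructor <;> linarith [this.1, this.2])
    (fun y => - τ (-y))
    (by
      intro u hu v hv huv
      have : τ (-v) < τ (-u) := hτ ⟨by linarith [hv.2], by linarith [hv.1]⟩
        ⟨by linarith [hu.2], by linarith [hu.1]⟩ (by linarith)
      simpa using this)
    δ n
    (by rw [Finset.card_image_of_injective _ neg_injective]; exact hcard)
    (by
      intro p hp
      obtain ⟨q, hq, rfl⟩ := Finset.mem_image.1 hp
      have hq' := h q hq
      refine ⟨by simpa using hq'.1, ?_⟩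
      have : (P.image (fun y => -y)).filter (fun y => -q ≤ y ∧ y < - τ (- -q)) ⊆
          (P.filter (fun y => τ q < y ∧ y ≤ q)).image (fun y => -y) := by
        intro y hy
        rw [Finset.mem_filter] at hy
        obtain ⟨u, hu, rfl⟩ := Finset.mem_image.1 hy.1
        refine Finset.mem_image.2 ⟨u, Finset.mem_filter.2 ⟨hu, ?_, ?_⟩, rfl⟩
        · have := hy.2.2
          rw [neg_neg] at this
          linarith
        · have := hy.2.1
          linarith
      calc _ ≤ ((P.filter (fun y => τ q < y ∧ y ≤ q)).image (fun y => -y)).card :=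
            Finset.card_le_card this
        _ ≤ (P.filter (fun y => τ q < y ∧ y ≤ q)).card := Finset.card_image_le
        _ ≤ δ := hq'.2)
  constructor
  · intro a ha
    have := key.1 a ha
    rw [hit] at this
    exact ⟨by linarith [this.2], by linarith [this.1]⟩
  · intro a ha
    have := key.2 a ha
    rw [hit, hit] at this
    linarith

/-- monotone grid: `y` is injective -/
private theorem yinj_aux (n : ℕ) (G : ℕ → ℕ → ℝ) (y : ℤ → ℝ)
    (hy : ∀ a ≤ n, ∀ c ≤ n, G a c = y ((c : ℤ) - a))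
    (hx : ∀ c ≤ n, ∀ a a', a < a' → a' ≤ n → G a' c < G a c)
    (hz : ∀ a ≤ n, ∀ c c', c < c' → c' ≤ n → G a c < G a c') :
    ∀ e e' : ℤ, |e| ≤ n → |e'| ≤ n → y e = y e' → e = e' := by
  have mono : ∀ e e' : ℤ, |e| ≤ n → |e'| ≤ n → e < e' → y e < y e' := by
    intro e e' he he' hee
    rw [abs_le] at he he'
    have hpos : ∀ c : ℕ, c ≤ n → y c = G 0 c := by
      intro c hc
      have := hy 0 (Nat.zero_le _) c hc
      simpa using this.symm
    have hneg : ∀ a : ℕ, a ≤ n → y (-(a : ℤ)) = G a 0 := by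
      intro a ha
      have := hy a ha 0 (Nat.zero_le _)
      simpa using this.symm
    rcases le_or_gt 0 e with h0 | h0
    · obtain ⟨c, rfl⟩ := Int.eq_ofNat_of_zero_le h0
      obtain ⟨c', rfl⟩ := Int.eq_ofNat_of_zero_le (h0.trans hee.le)
      have hc : c < c' := by exact_mod_cast hee
      have hc' : c' ≤ n := by exact_mod_cast he'.2
      rw [hpos c (by omega), hpos c' hc']
      exact hz 0 (Nat.zero_le _) c c' hc hc'
    · obtain ⟨a, ha⟩ := Int.eq_ofNat_of_zero_le (show 0 ≤ -e by omega)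
      have hae : e = -(a : ℤ) := by omega
      subst hae
      have ha' : a ≤ n := by omega
      rw [hneg a ha']
      rcases le_or_gt 0 e' with h0' | h0'
      · obtain ⟨c', rfl⟩ := Int.eq_ofNat_of_zero_le h0'
        have hc' : c' ≤ n := by omega
        rw [hpos c' hc']
        have h1 : G a 0 < G 0 0 := hx 0 (Nat.zero_le _) 0 a (by omega) ha'
        have h2 : G 0 0 ≤ G 0 c' := by
          rcases Nat.eq_zero_or_pos c' with hc | hc
          · rw [hc]
          · exact (hz 0 (Nat.zero_le _) 0 c' hc hc').le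
        exact lt_of_lt_of_le h1 h2
      · obtain ⟨a', ha''⟩ := Int.eq_ofNat_of_zero_le (show 0 ≤ -e' by omega)
        have hae' : e' = -(a' : ℤ) := by omega
        subst hae'
        rw [hneg a' (by omega)]
        exact hx 0 (Nat.zero_le _) a' a (by omega) ha'
  intro e e' he he' h
  rcases lt_trichotomy e e' with hlt | heq | hgt
  · exact absurd h (mono e e' he he' hlt).ne
  · exact heq
  · exact absurd h.symm (mono e' e he' he hgt).ne

private theorem yinj (n : ℕ) (G : ℕ → ℕ → ℝ) (y : ℤ → ℝ)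
    (hy : ∀ a ≤ n, ∀ c ≤ n, G a c = y ((c : ℤ) - a))
    (hx : (∀ c ≤ n, ∀ a a', a < a' → a' ≤ n → G a c < G a' c) ∨
      (∀ c ≤ n, ∀ a a', a < a' → a' ≤ n → G a' c < G a c))
    (hz : (∀ a ≤ n, ∀ c c', c < c' → c' ≤ n → G a c < G a c') ∨
      (∀ a ≤ n, ∀ c c', c < c' → c' ≤ n → G a c' < G a c)) :
    ∀ e e' : ℤ, |e| ≤ n → |e'| ≤ n → y e = y e' → e = e' := by
  rcases Nat.eq_zero_or_pos n with hn | hn
  · subst hn
    intro e e' he he' _
    have h1 : e = 0 := by simpa using he
    have h2 : e' = 0 := by simpa using he'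
    rw [h1, h2]
  have hcorner : G 1 1 = G 0 0 := by
    rw [hy 1 hn 1 hn, hy 0 (Nat.zero_le _) 0 (Nat.zero_le _)]
    congr 1
  rcases hx with hx | hx
  · rcases hz with hz | hz
    · exfalso
      have h1 : G 0 1 < G 1 1 := hx 1 hn 0 1 (by omega) hn
      have h2 : G 0 0 < G 0 1 := hz 0 (Nat.zero_le _) 0 1 (by omega) hn
      linarith
    · have := yinj_aux n (fun a c => - G a c) (fun e => - y e)
        (fun a ha c hc => by simp only [neg_inj]; exact hy a ha c hc)
        (fun c hc a a' h h' => by simpa using hx c hc a a' h h')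
        (fun a ha c c' h h' => by simpa using hz a ha c c' h h')
      intro e e' he he' h
      exact this e e' he he' (by simp only [neg_inj]; exact h)
  · rcases hz with hz | hz
    · exact yinj_aux n G y hy hx hz
    · exfalso
      have h1 : G 1 1 < G 0 1 := hx 1 hn 0 1 (by omega) hn
      have h2 : G 0 1 < G 0 0 := hz 0 (Nat.zero_le _) 0 1 (by omega) hn
      linarith

/-- from one step along the diagonal to a function of the difference -/
private theorem exists_y (n : ℕ) (G : ℕ → ℕ → ℝ)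
    (h : ∀ a < n, ∀ c < n, G a c = G (a + 1) (c + 1)) :
    ∃ y : ℤ → ℝ, ∀ a ≤ n, ∀ c ≤ n, G a c = y ((c : ℤ) - a) := by
  refine ⟨fun e => if 0 ≤ e then G 0 e.toNat else G (-e).toNat 0, ?_⟩
  have diag : ∀ k a c, a + k ≤ n → c + k ≤ n → G (a + k) (c + k) = G a c := by
    intro k
    induction k with
    | zero => intro a c _ _; rfl
    | succ k ih =>
      intro a c ha hc
      rw [← ih a c (by omega) (by omega), h (a + k) (by omega) (c + k) (by omega)]
      rfl
  intro a ha c hc
  simp only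
  rcases le_total a c with hac | hac
  · obtain ⟨d, rfl⟩ := Nat.exists_eq_add_of_le hac
    rw [if_pos (by push_cast; omega)]
    have h1 : (((a + d : ℕ) : ℤ) - a).toNat = d := by push_cast; omega
    rw [h1]
    have := diag a 0 d (by omega) (by omega)
    rw [← this]
    congr 1 <;> omega
  · obtain ⟨d, rfl⟩ := Nat.exists_eq_add_of_le hac
    rcases Nat.eq_zero_or_pos d with hd | hd
    · subst hd
      rw [if_pos (by push_cast; omega)]
      have h1 : ((c : ℤ) - ((c + 0 : ℕ) : ℤ)).toNat = 0 := by push_cast; omega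
      rw [h1]
      have := diag c 0 0 (by omega) (by omega)
      rw [← this]
      congr 1 <;> omega
    · rw [if_neg (by push_cast; omega)]
      have h1 : (-((c : ℤ) - ((c + d : ℕ) : ℤ))).toNat = d := by push_cast; omega
      rw [h1]
      have := diag c d 0 (by omega) (by omega)
      rw [← this]
      congr 1 <;> omega

private theorem strict_of_step_up (n : ℕ) (x : ℕ → ℝ) (h : ∀ a < n, x a < x (a + 1)) :
    ∀ a a', a < a' → a' ≤ n → x a < x a' := by
  intro a a' haa
  induction a', haa using Nat.le_induction with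
  | base => intro h'; exact h a (by omega)
  | succ k hk ih => intro h'; exact (ih (by omega)).trans (h k (by omega))

private theorem strict_of_step_down (n : ℕ) (x : ℕ → ℝ) (h : ∀ a < n, x (a + 1) < x a) :
    ∀ a a', a < a' → a' ≤ n → x a' < x a := by
  intro a a' haa
  induction a', haa using Nat.le_induction with
  | base => intro h'; exact h a (by omega)
  | succ k hk ih => intro h'; exact (h k (by omega)).trans (ih (by omega))

theorem iterate (Z n M : ℕ) : ∃ S, ∀ (F : ℝ → ℝ → ℝ) (s t : ℕ → ℝ) (r q δ : ℕ) (ε : ℤ)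
    (I J : Finset ℕ) (imin imax jmin jmax : ℕ), S ≤ I.card → S ≤ J.card →
    imin ∈ I → imax ∈ I → (∀ i ∈ I, imin ≤ i ∧ i ≤ imax) →
    jmin ∈ J → jmax ∈ J → (∀ b ∈ J, jmin ≤ b ∧ b ≤ jmax) →
    (∀ i k, i < k → k ≤ r → s i < s k) → (∀ i k, i < k → k ≤ q → t i < t k) →
    1 ≤ δ → δ ≤ M → ε ≠ 0 → |ε| ≤ M → (∀ i ∈ I, i + δ ≤ r) →
    (∀ b ∈ J, b ≤ q ∧ 0 ≤ (b : ℤ) + ε ∧ (b : ℤ) + ε ≤ q) →
    Mono2 F (s imin) (s imax) (t jmin) (t jmax) →
    ZB F (s imin) (s imax) (t jmin) (t jmax) Z →
    ZB (fun t s => F s t) (t jmin) (t jmax) (s imin) (s imax) Z →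
    (∀ i ∈ I, ∀ b ∈ J, i + δ ≤ imax → (jmin : ℤ) ≤ b + ε → (b : ℤ) + ε ≤ jmax →
      F (s i) (t b) = F (s (i + δ)) (t ((b : ℤ) + ε).toNat)) →
    ∃ (x z : ℕ → ℝ) (y : ℤ → ℝ), (∀ a ≤ n, x a ∈ Icc (s imin) (s imax)) ∧
      (∀ c ≤ n, z c ∈ Icc (t jmin) (t jmax)) ∧
      (∀ a ≤ n, ∀ a' ≤ n, x a = x a' → a = a') ∧ (∀ c ≤ n, ∀ c' ≤ n, z c = z c' → c = c') ∧
      (∀ e e' : ℤ, |e| ≤ n → |e'| ≤ n → y e = y e' → e = e') ∧
      ∀ a ≤ n, ∀ c ≤ n, F (x a) (z c) = y ((c : ℤ) - a) := by
  classical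
  refine ⟨n * M + Z + M + 2, ?_⟩
  intro F s t r q δ ε I J imin imax jmin jmax hSI hSJ himin himax hI hjmin hjmax hJ hs ht hδ hδM
    hε hεM hIr hJq hF hZ hZ' hinc
  -- the restricted index sets
  set I' := I.filter (fun i => i + δ ≤ imax) with hI'
  set J' := J.filter (fun b : ℕ => (jmin : ℤ) ≤ (b : ℤ) + ε ∧ (b : ℤ) + ε ≤ jmax) with hJ'
  have hmI' : ∀ i, i ∈ I' ↔ i ∈ I ∧ i + δ ≤ imax := fun i => by rw [hI', Finset.mem_filter]
  have hmJ' : ∀ b : ℕ, b ∈ J' ↔ b ∈ J ∧ (jmin : ℤ) ≤ (b : ℤ) + ε ∧ (b : ℤ) + ε ≤ jmax :=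
    fun b => by rw [hJ', Finset.mem_filter]
  have hcI : I.card ≤ I'.card + δ := by
    have hsub : I ⊆ I' ∪ Finset.Ico (imax + 1 - δ) (imax + 1) := by
      intro i hi
      rw [Finset.mem_union, hmI', Finset.mem_Ico]
      have := (hI i hi).2
      by_cases h : i + δ ≤ imax
      · exact Or.inl ⟨hi, h⟩
      · exact Or.inr ⟨by omega, by omega⟩
    calc I.card ≤ (I' ∪ Finset.Ico (imax + 1 - δ) (imax + 1)).card := Finset.card_le_card hsub
      _ ≤ I'.card + (Finset.Ico (imax + 1 - δ) (imax + 1)).card := Finset.card_union_le _ _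
      _ ≤ I'.card + δ := by rw [Nat.card_Ico]; omega
  have hεn : ∃ e : ℕ, (e : ℤ) = |ε| := ⟨ε.natAbs, by simp⟩
  obtain ⟨e₀, he₀⟩ := hεn
  have he₀M : e₀ ≤ M := by
    have : (e₀ : ℤ) ≤ M := by rw [he₀]; exact hεM
    exact_mod_cast this
  have hcJ : J.card ≤ J'.card + e₀ := by
    rcases lt_or_gt_of_ne hε with hneg | hpos
    · have he : (e₀ : ℤ) = -ε := by rw [he₀, abs_of_neg hneg]
      have hsub : J ⊆ J' ∪ Finset.Ico jmin (jmin + e₀) := by
        intro b hb
        have hb' := hJ b hb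
        rw [Finset.mem_union, hmJ', Finset.mem_Ico]
        by_cases h : (jmin : ℤ) ≤ (b : ℤ) + ε
        · exact Or.inl ⟨hb, h, by omega⟩
        · exact Or.inr ⟨by omega, by omega⟩
      calc J.card ≤ (J' ∪ Finset.Ico jmin (jmin + e₀)).card := Finset.card_le_card hsub
        _ ≤ J'.card + (Finset.Ico jmin (jmin + e₀)).card := Finset.card_union_le _ _
        _ ≤ J'.card + e₀ := by rw [Nat.card_Ico]; omega
    · have he : (e₀ : ℤ) = ε := by rw [he₀, abs_of_pos hpos]
      have hsub : J ⊆ J' ∪ Finset.Ico (jmax + 1 - e₀) (jmax + 1) := by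
        intro b hb
        have hb' := hJ b hb
        rw [Finset.mem_union, hmJ', Finset.mem_Ico]
        by_cases h : (b : ℤ) + ε ≤ jmax
        · exact Or.inl ⟨hb, by omega, h⟩
        · exact Or.inr ⟨by omega, by omega⟩
      calc J.card ≤ (J' ∪ Finset.Ico (jmax + 1 - e₀) (jmax + 1)).card := Finset.card_le_card hsub
        _ ≤ J'.card + (Finset.Ico (jmax + 1 - e₀) (jmax + 1)).card := Finset.card_union_le _ _
        _ ≤ J'.card + e₀ := by rw [Nat.card_Ico]; omega
  have hnM1 : n * δ ≤ n * M := Nat.mul_le_mul_left _ hδM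
  have hnM2 : n * e₀ ≤ n * M := Nat.mul_le_mul_left _ he₀M
  have hneI : I'.Nonempty := Finset.card_pos.1 (by omega)
  have hneJ : J'.Nonempty := Finset.card_pos.1 (by omega)
  -- min and max of the restricted sets
  set i₁ := I'.min' hneI with hi₁
  set i₂ := I'.max' hneI with hi₂
  set j₁ := J'.min' hneJ with hj₁
  set j₂ := J'.max' hneJ with hj₂
  have hi₁m : i₁ ∈ I' := Finset.min'_mem _ _
  have hi₂m : i₂ ∈ I' := Finset.max'_mem _ _
  have hj₁m : j₁ ∈ J' := Finset.min'_mem _ _
  have hj₂m : j₂ ∈ J' := Finset.max'_mem _ _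
  have hiB : ∀ i ∈ I', i₁ ≤ i ∧ i ≤ i₂ := fun i hi => ⟨Finset.min'_le _ _ hi, Finset.le_max' _ _ hi⟩
  have hjB : ∀ b ∈ J', j₁ ≤ b ∧ b ≤ j₂ := fun i hi => ⟨Finset.min'_le _ _ hi, Finset.le_max' _ _ hi⟩
  have hi12 : i₁ < i₂ := by
    apply Finset.min'_lt_max'_of_card
    omega
  have hj12 : j₁ < j₂ := by
    apply Finset.min'_lt_max'_of_card
    omega
  have himaxr : imax ≤ r := by have := hIr imax himax; omega
  have hjmaxq : jmax ≤ q := (hJq jmax hjmax).1
  -- monotonicity of s and t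
  have hsle : ∀ i k, i ≤ k → k ≤ r → s i ≤ s k := by
    intro i k hik hk
    rcases hik.eq_or_lt with h | h
    · rw [h]
    · exact (hs i k h hk).le
  have htle : ∀ i k, i ≤ k → k ≤ q → t i ≤ t k := by
    intro i k hik hk
    rcases hik.eq_or_lt with h | h
    · rw [h]
    · exact (ht i k h hk).le
  have hsI : ∀ i, imin ≤ i → i ≤ imax → s i ∈ Icc (s imin) (s imax) := fun i h h' =>
    ⟨hsle _ _ h (by omega), hsle _ _ h' himaxr⟩
  have htI : ∀ i, jmin ≤ i → i ≤ jmax → t i ∈ Icc (t jmin) (t jmax) := fun i h h' =>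
    ⟨htle _ _ h (by omega), htle _ _ h' hjmaxq⟩
  have htoNat : ∀ b ∈ J', ((((b : ℤ) + ε).toNat : ℕ) : ℤ) = (b : ℤ) + ε := by
    intro b hb
    rw [hmJ'] at hb
    exact Int.toNat_of_nonneg (hJq b hb.1).2.1
  -- first rigidity
  obtain ⟨τ, hτs, hτm, hτ⟩ := rigid1 F (s imin) (s imax) (t jmin) (t jmax) hF Z hZ s
    (fun i => s (i + δ)) I' i₁ i₂ hi₁m hi₂m hiB hi12 (by omega)
    (by
      intro i hi
      rw [hmI'] at hi
      have := hI i hi.1
      exact ⟨hsI i this.1 this.2, hsI (i + δ) (by omega) hi.2⟩)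
    (by
      intro i hi k hk hik
      rw [hmI'] at hi hk
      have := hI k hk.1
      exact ⟨hs i k hik (by omega), hs _ _ (by omega) (by omega)⟩)
    J' hneJ t (fun b => t ((b : ℤ) + ε).toNat)
    (by
      intro b hb
      have h1 := htoNat b hb
      rw [hmJ'] at hb
      have := hJ b hb.1
      exact ⟨htI b this.1 this.2, htI _ (by omega) (by omega)⟩)
    (by
      intro i hi b hb
      rw [hmI'] at hi
      rw [hmJ'] at hb
      exact hinc i hi.1 b hb.1 hi.2 hb.2.1 hb.2.2)
  -- the sequence x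
  have hsinj : ∀ i ∈ I', ∀ k ∈ I', s i = s k → i = k := by
    intro i hi k hk h
    rw [hmI'] at hi hk
    have h1 := hI i hi.1
    have h2 := hI k hk.1
    rcases lt_trichotomy i k with hlt | heq | hgt
    · exact absurd h (hs i k hlt (by omega)).ne
    · exact heq
    · exact absurd h.symm (hs k i hgt (by omega)).ne
  have hx := iter_up' (I'.image s) (s i₁) (s i₂) (Finset.mem_image.2 ⟨i₁, hi₁m, rfl⟩)
    (by
      intro p hp
      obtain ⟨i, hi, rfl⟩ := Finset.mem_image.1 hp
      have h1 := hiB i hi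
      have h2 := (hmI' i₂).1 hi₂m
      exact ⟨hsle _ _ h1.1 (by omega), hsle _ _ h1.2 (by omega)⟩)
    τ hτm δ n
    (by
      rw [Finset.card_image_of_injOn (fun i hi k hk h => hsinj i hi k hk h)]
      omega)
    (by
      intro p hp
      obtain ⟨i, hi, rfl⟩ := Finset.mem_image.1 hp
      have hi' := (hmI' i).1 hi
      rw [hτs i hi]
      refine ⟨hs i (i + δ) (by omega) (by omega), ?_⟩
      have hsub : (I'.image s).filter (fun y => s i ≤ y ∧ y < s (i + δ)) ⊆
          (Finset.Ico i (i + δ)).image s := by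
        intro y hy
        rw [Finset.mem_filter] at hy
        obtain ⟨k, hk, rfl⟩ := Finset.mem_image.1 hy.1
        have hk' := (hmI' k).1 hk
        refine Finset.mem_image.2 ⟨k, Finset.mem_Ico.2 ⟨?_, ?_⟩, rfl⟩
        · by_contra hcon
          exact absurd hy.2.1 (not_le.2 (hs k i (by omega) (by omega)))
        · by_contra hcon
          exact absurd hy.2.2 (not_lt.2 (hsle (i + δ) k (by omega) (by omega)))
      calc _ ≤ ((Finset.Ico i (i + δ)).image s).card := Finset.card_le_card hsub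
        _ ≤ (Finset.Ico i (i + δ)).card := Finset.card_image_le
        _ ≤ δ := by rw [Nat.card_Ico]; omega)
  set x : ℕ → ℝ := fun a => τ^[a] (s i₁) with hxdef
  have hxs : ∀ a, x (a + 1) = τ (x a) := fun a => Function.iterate_succ_apply' _ _ _
  have hxI : ∀ a ≤ n, x a ∈ Icc (s i₁) (s i₂) := hx.1
  have hxlt := strict_of_step_up n x hx.2
  have hi₁' := (hmI' i₁).1 hi₁m
  have hi₂' := (hmI' i₂).1 hi₂m
  have hxI' : ∀ a ≤ n, x a ∈ Icc (s imin) (s imax) := by
    intro a ha
    have := hxI a ha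
    exact ⟨(hsI i₁ (hI i₁ hi₁'.1).1 (hI i₁ hi₁'.1).2).1.trans this.1,
      this.2.trans (hsI i₂ (hI i₂ hi₂'.1).1 (hI i₂ hi₂'.1).2).2⟩
  have hxinj : ∀ a ≤ n, ∀ a' ≤ n, x a = x a' → a = a' := by
    intro a ha a' ha' h
    rcases lt_trichotomy a a' with hlt | heq | hgt
    · exact absurd h (hxlt a a' hlt ha').ne
    · exact heq
    · exact absurd h.symm (hxlt a' a hgt ha).ne
  -- the trivial case
  rcases Nat.eq_zero_or_pos n with hn | hn
  · subst hn
    refine ⟨x, fun _ => t jmin, fun _ => F (x 0) (t jmin), hxI', ?_, hxinj, ?_, ?_, ?_⟩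
    · intro c _
      exact ⟨le_refl _, htle _ _ (hJ jmax hjmax).1 hjmaxq⟩
    · intro c hc c' hc' _; omega
    · intro e e' he he' _
      have h1 : e = 0 := by simpa using he
      have h2 : e' = 0 := by simpa using he'
      rw [h1, h2]
    · intro a ha c _
      have : a = 0 := by omega
      rw [this]
  -- second rigidity
  have hFf := Mono2.flip F _ _ _ _ hF
  obtain ⟨σ, hσs, hσm, hσ⟩ := rigid1 (fun t s => F s t) (t jmin) (t jmax) (s imin) (s imax) hFf Z
    hZ' t (fun b => t ((b : ℤ) + ε).toNat) J' j₁ j₂ hj₁m hj₂m hjB hj12 (by omega)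
    (by
      intro b hb
      have h1 := htoNat b hb
      rw [hmJ'] at hb
      have := hJ b hb.1
      exact ⟨htI b this.1 this.2, htI _ (by omega) (by omega)⟩)
    (by
      intro b hb c hc hbc
      have h1 := htoNat b hb
      have h2 := htoNat c hc
      rw [hmJ'] at hb hc
      have := hJ c hc.1
      exact ⟨ht b c hbc (by omega), ht _ _ (by omega) (by omega)⟩)
    (Finset.range n) (Finset.nonempty_range_iff.2 (by omega)) x (fun a => x (a + 1))
    (by
      intro a ha
      rw [Finset.mem_range] at ha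
      exact ⟨hxI' a ha.le, hxI' (a + 1) ha⟩)
    (by
      intro b hb a ha
      rw [Finset.mem_range] at ha
      have := (hτ (x a) (hxI a ha.le)).2 b hb
      rw [hxs]
      exact this.symm)
  -- the sequence z
  have htinj : ∀ i ∈ J', ∀ k ∈ J', t i = t k → i = k := by
    intro i hi k hk h
    rw [hmJ'] at hi hk
    have h1 := hJ i hi.1
    have h2 := hJ k hk.1
    rcases lt_trichotomy i k with hlt | heq | hgt
    · exact absurd h (ht i k hlt (by omega)).ne
    · exact heq
    · exact absurd h.symm (ht k i hgt (by omega)).ne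
  have hPb : ∀ p ∈ J'.image t, t j₁ ≤ p ∧ p ≤ t j₂ := by
    intro p hp
    obtain ⟨i, hi, rfl⟩ := Finset.mem_image.1 hp
    have h1 := hjB i hi
    have h2 := (hmJ' j₂).1 hj₂m
    have h3 := hJ j₂ h2.1
    exact ⟨htle _ _ h1.1 (by omega), htle _ _ h1.2 (by omega)⟩
  have hcard : n * e₀ < (J'.image t).card := by
    rw [Finset.card_image_of_injOn (fun i hi k hk h => htinj i hi k hk h)]
    omega
  have hzex : ∃ z : ℕ → ℝ, (∀ c ≤ n, z c ∈ Icc (t j₁) (t j₂)) ∧ (∀ c, z (c + 1) = σ (z c)) ∧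
      ((∀ c c', c < c' → c' ≤ n → z c < z c') ∨ (∀ c c', c < c' → c' ≤ n → z c' < z c)) := by
    rcases lt_or_gt_of_ne hε with hneg | hpos
    · have he : (e₀ : ℤ) = -ε := by rw [he₀, abs_of_neg hneg]
      have hz := iter_down (J'.image t) (t j₁) (t j₂) (Finset.mem_image.2 ⟨j₂, hj₂m, rfl⟩)
        hPb σ hσm e₀ n hcard
        (by
          intro p hp
          obtain ⟨i, hi, rfl⟩ := Finset.mem_image.1 hp
          have h1 := htoNat i hi
          have hi' := (hmJ' i).1 hi
          have h3 := hJ i hi'.1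
          rw [hσs i hi]
          refine ⟨ht _ i (by omega) (by omega), ?_⟩
          have hsub : (J'.image t).filter (fun y => t ((i : ℤ) + ε).toNat < y ∧ y ≤ t i) ⊆
              (Finset.Ioc ((i : ℤ) + ε).toNat i).image t := by
            intro y hy
            rw [Finset.mem_filter] at hy
            obtain ⟨k, hk, rfl⟩ := Finset.mem_image.1 hy.1
            have hk' := (hmJ' k).1 hk
            have h4 := hJ k hk'.1
            refine Finset.mem_image.2 ⟨k, Finset.mem_Ioc.2 ⟨?_, ?_⟩, rfl⟩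
            · by_contra hcon
              exact absurd hy.2.1 (not_lt.2 (htle k _ (by omega) (by omega)))
            · by_contra hcon
              exact absurd hy.2.2 (not_le.2 (ht i k (by omega) (by omega)))
          calc _ ≤ ((Finset.Ioc ((i : ℤ) + ε).toNat i).image t).card := Finset.card_le_card hsub
            _ ≤ (Finset.Ioc ((i : ℤ) + ε).toNat i).card := Finset.card_image_le
            _ ≤ e₀ := by rw [Nat.card_Ioc]; omega)
      exact ⟨fun c => σ^[c] (t j₂), hz.1, fun c => Function.iterate_succ_apply' _ _ _,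
        Or.inr (strict_of_step_down n _ hz.2)⟩
    · have he : (e₀ : ℤ) = ε := by rw [he₀, abs_of_pos hpos]
      have hz := iter_up' (J'.image t) (t j₁) (t j₂) (Finset.mem_image.2 ⟨j₁, hj₁m, rfl⟩)
        hPb σ hσm e₀ n hcard
        (by
          intro p hp
          obtain ⟨i, hi, rfl⟩ := Finset.mem_image.1 hp
          have h1 := htoNat i hi
          have hi' := (hmJ' i).1 hi
          have h3 := hJ i hi'.1
          rw [hσs i hi]
          refine ⟨ht i _ (by omega) (by omega), ?_⟩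
          have hsub : (J'.image t).filter (fun y => t i ≤ y ∧ y < t ((i : ℤ) + ε).toNat) ⊆
              (Finset.Ico i ((i : ℤ) + ε).toNat).image t := by
            intro y hy
            rw [Finset.mem_filter] at hy
            obtain ⟨k, hk, rfl⟩ := Finset.mem_image.1 hy.1
            have hk' := (hmJ' k).1 hk
            have h4 := hJ k hk'.1
            refine Finset.mem_image.2 ⟨k, Finset.mem_Ico.2 ⟨?_, ?_⟩, rfl⟩
            · by_contra hcon
              exact absurd hy.2.1 (not_le.2 (ht k i (by omega) (by omega)))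
            · by_contra hcon
              exact absurd hy.2.2 (not_lt.2 (htle _ k (by omega) (by omega)))
          calc _ ≤ ((Finset.Ico i ((i : ℤ) + ε).toNat).image t).card := Finset.card_le_card hsub
            _ ≤ (Finset.Ico i ((i : ℤ) + ε).toNat).card := Finset.card_image_le
            _ ≤ e₀ := by rw [Nat.card_Ico]; omega)
      exact ⟨fun c => σ^[c] (t j₁), hz.1, fun c => Function.iterate_succ_apply' _ _ _,
        Or.inl (strict_of_step_up n _ hz.2)⟩
  obtain ⟨z, hzI, hzs, hzm⟩ := hzex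
  have hj₁' := (hmJ' j₁).1 hj₁m
  have hj₂' := (hmJ' j₂).1 hj₂m
  have hzI' : ∀ c ≤ n, z c ∈ Icc (t jmin) (t jmax) := by
    intro c hc
    have := hzI c hc
    exact ⟨(htI j₁ (hJ j₁ hj₁'.1).1 (hJ j₁ hj₁'.1).2).1.trans this.1,
      this.2.trans (htI j₂ (hJ j₂ hj₂'.1).1 (hJ j₂ hj₂'.1).2).2⟩
  have hzinj : ∀ c ≤ n, ∀ c' ≤ n, z c = z c' → c = c' := by
    intro c hc c' hc' h
    rcases hzm with hzm | hzm
    · rcases lt_trichotomy c c' with hlt | heq | hgt
      · exact absurd h (hzm c c' hlt hc').ne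
      · exact heq
      · exact absurd h.symm (hzm c' c hgt hc).ne
    · rcases lt_trichotomy c c' with hlt | heq | hgt
      · exact absurd h.symm (hzm c c' hlt hc').ne
      · exact heq
      · exact absurd h (hzm c' c hgt hc).ne
  obtain ⟨y, hy⟩ := exists_y n (fun a c => F (x a) (z c)) (by
    intro a ha c hc
    have := (hσ (z c) (hzI c hc.le)).2 a (Finset.mem_range.2 ha)
    rw [hzs]
    exact this.symm)
  refine ⟨x, z, y, hxI', hzI', hxinj, hzinj, ?_, hy⟩
  apply yinj n (fun a c => F (x a) (z c)) y hy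
  · rcases sign1 F _ _ _ _ hF with hsg | hsg
    · left
      intro c hc a a' haa ha'
      exact hsg (z c) (hzI' c hc) (hxI' a (by omega)) (hxI' a' ha') (hxlt a a' haa ha')
    · right
      intro c hc a a' haa ha'
      exact hsg (z c) (hzI' c hc) (hxI' a (by omega)) (hxI' a' ha') (hxlt a a' haa ha')
  · rcases sign1 (fun t s => F s t) _ _ _ _ hFf with hsg | hsg
    · rcases hzm with hzm | hzm
      · left
        intro a ha c c' hcc hc'
        exact hsg (x a) (hxI' a ha) (hzI' c (by omega)) (hzI' c' hc') (hzm c c' hcc hc')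
      · right
        intro a ha c c' hcc hc'
        exact hsg (x a) (hxI' a ha) (hzI' c' hc') (hzI' c (by omega)) (hzm c c' hcc hc')
    · rcases hzm with hzm | hzm
      · right
        intro a ha c c' hcc hc'
        exact hsg (x a) (hxI' a ha) (hzI' c (by omega)) (hzI' c' hc') (hzm c c' hcc hc')
      · left
        intro a ha c c' hcc hc'
        exact hsg (x a) (hxI' a ha) (hzI' c' hc') (hzI' c (by omega)) (hzm c c' hcc hc')

end Pool.ACA
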