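import Pool.Agent.Lib.MP_aca35e_co.Defs
import Pool.Agent.Lib.MP_aca35e_co.C5
import Pool.Agent.Lib.MP_aca35e_co.P1

/-!
# MP_aca35e_co, row Z1

Analyticity of a correspondence. Let `X s = (ξ s, ev z (ξ s)) ∈ Ω` be the point with `A.par = a s`, `B.par = b s`. It is on the line
`(a s, A.φ (a s))` (`inc`), so `A.φ (a s) - a s * ξ = z.2 - z.1 * ξ`. If `a s = z.1` then `A.φ (a s) = z.2`, `A.has z` (as `a s ∈ A.U` by `mem`): contradiction.
So `ξ s = (A.φ (a s) - z.2) / (a s - z.1)`: analytic (resp. continuous) in `s`. `b s = B.par (X s)` is continuous; it satisfies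
`B.φ (b s) - b s * ξ s - ev z (ξ s) = 0`, with derivative `deriv B.φ (b s) - ξ s ≠ 0` (`der`) in `b`: `ift` of C5 with
`f (s, u) = B.φ u - u ξ s - ev z (ξ s)`, analytic at `(s₀, b s₀)`.
-/

set_option autoImplicit false
set_option linter.unusedVariables false

namespace Pool.ACA

open Set Filter Topology

private theorem corr_point {p : MvPolynomial (Fin 2) ℝ} {Ω : Set (ℝ × ℝ)}
    (A B : Fam p Ω) (z : ℝ × ℝ) (hz : ¬ A.has z) (s t : ℝ) (h : Corr A B z s t) :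
    s ∈ A.U ∧ s - z.1 ≠ 0 ∧
      ((A.φ s - z.2) / (s - z.1), ev z ((A.φ s - z.2) / (s - z.1))) ∈ Ω ∧
      A.par ((A.φ s - z.2) / (s - z.1), ev z ((A.φ s - z.2) / (s - z.1))) = s ∧
      B.par ((A.φ s - z.2) / (s - z.1), ev z ((A.φ s - z.2) / (s - z.1))) = t := by
  obtain ⟨X, hX, h1, h2, h3⟩ := h
  have hU : s ∈ A.U := h2 ▸ A.mem X hX
  have hi := A.inc X hX
  rw [h2] at hi
  have hi' : A.φ s - s * X.1 = z.2 - z.1 * X.1 := by
    have e1 : A.φ s - s * X.1 = X.2 := hi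
    have e2 : z.2 - z.1 * X.1 = X.2 := h1
    rw [e1, e2]
  have hne : s - z.1 ≠ 0 := by
    intro h0
    apply hz
    have hs : s = z.1 := by linarith
    refine ⟨hs ▸ hU, ?_⟩
    rw [← hs] at hi' ⊢
    linarith
  have hx : (A.φ s - z.2) / (s - z.1) = X.1 := by
    rw [div_eq_iff hne]
    linarith
  have hXe : (X.1, ev z X.1) = X := by
    rw [h1]
  rw [hx, hXe]
  exact ⟨hU, hne, hX, h2, h3⟩

theorem corr_analytic {p : MvPolynomial (Fin 2) ℝ} {Ω : Set (ℝ × ℝ)} (hΩ : IsOpen Ω)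
    (A B : Fam p Ω) (z : ℝ × ℝ) (hz : ¬ A.has z) (l r : ℝ) (a b : ℝ → ℝ)
    (ha : AnalyticOnNhd ℝ a (Ioo l r)) (h : ∀ s ∈ Ioo l r, Corr A B z (a s) (b s)) :
    AnalyticOnNhd ℝ b (Ioo l r) ∧ ∃ ξ : ℝ → ℝ, AnalyticOnNhd ℝ ξ (Ioo l r) ∧
      ∀ s ∈ Ioo l r, (ξ s, ev z (ξ s)) ∈ Ω ∧ A.par (ξ s, ev z (ξ s)) = a s ∧
        B.par (ξ s, ev z (ξ s)) = b s := by
  have key : ∀ s ∈ Ioo l r, _ := fun s hs => corr_point A B z hz (a s) (b s) (h s hs)
  have hξ : AnalyticOnNhd ℝ (fun s => (A.φ (a s) - z.2) / (a s - z.1)) (Ioo l r) := by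
    intro s hs
    obtain ⟨hU, hne, -⟩ := key s hs
    have h1 : AnalyticAt ℝ (fun s => A.φ (a s)) s := (A.an (a s) hU).comp (ha s hs)
    exact (h1.sub analyticAt_const).div ((ha s hs).sub analyticAt_const) hne
  refine ⟨?_, fun s => (A.φ (a s) - z.2) / (a s - z.1), hξ, fun s hs => (key s hs).2.2⟩
  intro s₀ hs₀
  set ξ : ℝ → ℝ := fun s => (A.φ (a s) - z.2) / (a s - z.1) with hξdef
  have hk : ∀ s ∈ Ioo l r, (ξ s, ev z (ξ s)) ∈ Ω ∧ A.par (ξ s, ev z (ξ s)) = a s ∧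
        B.par (ξ s, ev z (ξ s)) = b s := fun s hs => (key s hs).2.2
  have hξa : AnalyticAt ℝ ξ s₀ := hξ s₀ hs₀
  have hnhd : Ioo l r ∈ 𝓝 s₀ := isOpen_Ioo.mem_nhds hs₀
  have hevc : Continuous (fun x : ℝ => ev z x) := by
    unfold ev
    fun_prop
  have hXc : ContinuousAt (fun s => (ξ s, ev z (ξ s))) s₀ :=
    hξa.continuousAt.prodMk (hevc.continuousAt.comp hξa.continuousAt)
  have hBc : ContinuousAt B.par (ξ s₀, ev z (ξ s₀)) :=
    B.cont.continuousAt (hΩ.mem_nhds (hk s₀ hs₀).1)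
  have hbc : ContinuousAt b s₀ := by
    have h1 : ContinuousAt (fun s => B.par (ξ s, ev z (ξ s))) s₀ :=
      ContinuousAt.comp (f := fun s => (ξ s, ev z (ξ s))) (g := B.par) hBc hXc
    refine h1.congr ?_
    filter_upwards [hnhd] with s hs
    exact (hk s hs).2.2
  have hbU : b s₀ ∈ B.U := by
    have := B.mem _ (hk s₀ hs₀).1
    rwa [(hk s₀ hs₀).2.2] at this
  refine ift (fun q : ℝ × ℝ => B.φ q.2 - q.2 * ξ q.1 - ev z (ξ q.1)) b s₀ ?_ hbc ?_ ?_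
  · have e1 : AnalyticAt ℝ (fun q : ℝ × ℝ => B.φ q.2) (s₀, b s₀) :=
      AnalyticAt.comp (g := B.φ) (f := fun q : ℝ × ℝ => q.2) (B.an _ hbU) analyticAt_snd
    have e2 : AnalyticAt ℝ (fun q : ℝ × ℝ => ξ q.1) (s₀, b s₀) :=
      AnalyticAt.comp (g := ξ) (f := fun q : ℝ × ℝ => q.1) hξa analyticAt_fst
    unfold ev
    exact (e1.sub (analyticAt_snd.mul e2)).sub (analyticAt_const.sub (analyticAt_const.mul e2))
  · filter_upwards [hnhd] with s hs
    have hi := B.inc _ (hk s hs).1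
    rw [(hk s hs).2.2] at hi
    have hi' : B.φ (b s) - b s * ξ s = ev z (ξ s) := hi
    show B.φ (b s) - b s * ξ s - ev z (ξ s) = 0
    rw [hi', sub_self]
  · have hφ : HasDerivAt B.φ (deriv B.φ (b s₀)) (b s₀) :=
      (B.an _ hbU).differentiableAt.hasDerivAt
    have hd : HasDerivAt (fun y => B.φ y - y * ξ s₀ - ev z (ξ s₀))
        (deriv B.φ (b s₀) - 1 * ξ s₀) (b s₀) :=
      (hφ.sub ((hasDerivAt_id (b s₀)).mul_const (ξ s₀))).sub_const _
    have hne : deriv B.φ (b s₀) ≠ ξ s₀ := by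
      have := B.der _ (hk s₀ hs₀).1
      rwa [(hk s₀ hs₀).2.2] at this
    have : deriv (fun y => B.φ y - y * ξ s₀ - ev z (ξ s₀)) (b s₀)
        = deriv B.φ (b s₀) - 1 * ξ s₀ := hd.deriv
    show deriv (fun y => B.φ y - y * ξ s₀ - ev z (ξ s₀)) (b s₀) ≠ 0
    rw [this, one_mul]
    exact sub_ne_zero.mpr hne

theorem corr_continuous {p : MvPolynomial (Fin 2) ℝ} {Ω : Set (ℝ × ℝ)} (hΩ : IsOpen Ω)
    (A B : Fam p Ω) (z : ℝ × ℝ) (hz : ¬ A.has z) (l r : ℝ) (a b : ℝ → ℝ)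
    (ha : ContinuousOn a (Icc l r)) (h : ∀ s ∈ Icc l r, Corr A B z (a s) (b s)) :
    ContinuousOn b (Icc l r) := by
  have key : ∀ s ∈ Icc l r, _ := fun s hs => corr_point A B z hz (a s) (b s) (h s hs)
  have hφc : ContinuousOn (fun s => A.φ (a s)) (Icc l r) :=
    ContinuousOn.comp (g := A.φ) A.an.continuousOn ha (fun s hs => (key s hs).1)
  have hξ : ContinuousOn (fun s => (A.φ (a s) - z.2) / (a s - z.1)) (Icc l r) :=
    (hφc.sub continuousOn_const).div (ha.sub continuousOn_const) (fun s hs => (key s hs).2.1)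
  have hevc : Continuous (fun x : ℝ => ev z x) := by
    unfold ev
    fun_prop
  have hX : ContinuousOn (fun s => (((A.φ (a s) - z.2) / (a s - z.1)),
      ev z ((A.φ (a s) - z.2) / (a s - z.1)))) (Icc l r) :=
    hξ.prodMk (hevc.comp_continuousOn hξ)
  have h1 := ContinuousOn.comp (g := B.par) B.cont hX (fun s hs => (key s hs).2.2.1)
  refine h1.congr ?_
  intro s hs
  exact ((key s hs).2.2.2.2).symm

end Pool.ACA
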