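import Pool.Agent.Lib.MP_aca35e_co.Defs

/-!
# MP_aca35e_co, row Z2

Algebraic relation. With `z = (α, β)`: `H = p (u, β + ξ (u - α))` as a polynomial in `u` (outer variable) with coefficients polynomials in `ξ`: e.g.
`H = MvPolynomial.aeval ![X, C (C β) + C X * (X - C (C α))] p : Polynomial (Polynomial ℝ)`. `natDegree ≤ D`; all coefficients have `natDegree ≤ D` (a monomial
`u^i v^j`, `i + j ≤ D`, becomes `u^i (β + ξ (u - α))^j`). `H ≠ 0`: otherwise `pv p (u, v) = 0` whenever `u ≠ α` (take `ξ = (v - β)/(u - α)`), so by continuity `pv p = 0`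
everywhere and `p = 0` (`MvPolynomial.funext`). On the line: `v - u ξ = β - α ξ`, so `v = β + ξ (u - α)` for `u = a s`, `v = A.φ (a s)`, and `pv p (u, v) = 0`.
-/

set_option autoImplicit false
set_option linter.unusedVariables false

namespace Pool.ACA

open Set Filter Topology

private def Cd (k : ℕ) (F : Polynomial (Polynomial ℝ)) : Prop := ∀ i, (F.coeff i).natDegree ≤ k

private lemma Cd.mono {k l : ℕ} {F : Polynomial (Polynomial ℝ)} (h : Cd k F) (hkl : k ≤ l) :
    Cd l F := fun i => (h i).trans hkl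

private lemma Cd.mul {k l : ℕ} {F G : Polynomial (Polynomial ℝ)} (hF : Cd k F) (hG : Cd l G) :
    Cd (k + l) (F * G) := by
  intro i
  rw [Polynomial.coeff_mul]
  refine Polynomial.natDegree_sum_le_of_forall_le _ _ fun x _ => ?_
  refine Polynomial.natDegree_mul_le.trans ?_
  exact add_le_add (hF _) (hG _)

private lemma Cd.add {k : ℕ} {F G : Polynomial (Polynomial ℝ)} (hF : Cd k F) (hG : Cd k G) :
    Cd k (F + G) := by
  intro i
  rw [Polynomial.coeff_add]
  exact (Polynomial.natDegree_add_le _ _).trans (max_le (hF i) (hG i))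

private lemma Cd.C0 (r : ℝ) : Cd 0 (Polynomial.C (Polynomial.C r)) := by
  intro i
  rw [Polynomial.coeff_C]
  split_ifs <;> simp

private lemma Cd.X0 : Cd 0 (Polynomial.X : Polynomial (Polynomial ℝ)) := by
  intro i
  rw [Polynomial.coeff_X]
  split_ifs <;> simp

private lemma Cd.CX : Cd 1 (Polynomial.C (Polynomial.X : Polynomial ℝ)) := by
  intro i
  rw [Polynomial.coeff_C]
  split_ifs <;> simp

private lemma Cd.pow {k : ℕ} {F : Polynomial (Polynomial ℝ)} (hF : Cd k F) (n : ℕ) :
    Cd (n * k) (F ^ n) := by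
  induction n with
  | zero =>
    intro i
    rw [pow_zero, Polynomial.coeff_one]
    split_ifs <;> simp
  | succ n ih =>
    rw [pow_succ, show (n + 1) * k = n * k + k by ring]
    exact ih.mul hF

private lemma Cd.sum {ι : Type} {k : ℕ} (s : Finset ι) (F : ι → Polynomial (Polynomial ℝ))
    (hF : ∀ i ∈ s, Cd k (F i)) : Cd k (∑ i ∈ s, F i) := by
  intro i
  rw [Polynomial.finsetSum_coeff]
  exact Polynomial.natDegree_sum_le_of_forall_le _ _ fun x hx => hF x hx i

private noncomputable def VV (α β : ℝ) : Polynomial (Polynomial ℝ) :=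
  Polynomial.C (Polynomial.C β) +
    Polynomial.C Polynomial.X * (Polynomial.X + Polynomial.C (Polynomial.C (-α)))

private lemma VV_cd (α β : ℝ) : Cd 1 (VV α β) := by
  unfold VV
  refine ((Cd.C0 β).mono (by omega)).add ?_
  have := Cd.CX.mul (Cd.X0.add (Cd.C0 (-α)))
  exact this.mono (by omega)

private lemma VV_deg (α β : ℝ) : (VV α β).natDegree ≤ 1 := by
  unfold VV
  refine (Polynomial.natDegree_add_le _ _).trans (max_le ?_ ?_)
  · rw [Polynomial.natDegree_C]
    omega
  · refine Polynomial.natDegree_mul_le.trans ?_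
    rw [Polynomial.natDegree_C, zero_add]
    refine (Polynomial.natDegree_add_le _ _).trans (max_le ?_ ?_)
    · exact Polynomial.natDegree_X_le
    · rw [Polynomial.natDegree_C]
      omega

private noncomputable def HH (p : MvPolynomial (Fin 2) ℝ) (α β : ℝ) : Polynomial (Polynomial ℝ) :=
  ∑ m ∈ p.support, Polynomial.C (Polynomial.C (p.coeff m)) *
    (Polynomial.X ^ (m 0) * (VV α β) ^ (m 1))

private lemma HH_eval (p : MvPolynomial (Fin 2) ℝ) (α β x u : ℝ) :
    ((HH p α β).map (Polynomial.evalRingHom x)).eval u = pv p (u, β + x * (u - α)) := by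
  unfold HH pv
  rw [Polynomial.map_sum, Polynomial.eval_finsetSum, MvPolynomial.eval_eq']
  refine Finset.sum_congr rfl fun m _ => ?_
  rw [Fin.prod_univ_two]
  simp [VV, sub_eq_add_neg]

private lemma supp_le {D : ℕ} {p : MvPolynomial (Fin 2) ℝ} (hdeg : p.totalDegree ≤ D)
    (m : Fin 2 →₀ ℕ) (hm : m ∈ p.support) : m 0 + m 1 ≤ D := by
  have h := (MvPolynomial.le_totalDegree hm).trans hdeg
  rw [Finsupp.sum_fintype _ _ (by simp), Fin.sum_univ_two] at h
  exact h

theorem corr_alg {D : ℕ} {p : MvPolynomial (Fin 2) ℝ} (hp : p ≠ 0) (hdeg : p.totalDegree ≤ D)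
    {Ω : Set (ℝ × ℝ)} (A : Fam p Ω) (z : ℝ × ℝ) (J : Set ℝ) (ξ a : ℝ → ℝ)
    (h : ∀ s ∈ J, (ξ s, ev z (ξ s)) ∈ Ω ∧ A.par (ξ s, ev z (ξ s)) = a s) :
    AlgDep D J ξ a := by
  refine ⟨HH p z.1 z.2, ?_, ?_, ?_, ?_⟩
  · intro h0
    apply hp
    have h1 : ∀ x u : ℝ, pv p (u, z.2 + x * (u - z.1)) = 0 := by
      intro x u
      rw [← HH_eval, h0]
      simp
    have h2 : ∀ u v : ℝ, u ≠ z.1 → pv p (u, v) = 0 := by
      intro u v hu
      have h3 : u - z.1 ≠ 0 := sub_ne_zero.2 hu
      have h4 := h1 ((v - z.2) / (u - z.1)) u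
      rw [div_mul_cancel₀ _ h3, add_sub_cancel] at h4
      exact h4
    have hcont : ∀ v : ℝ, Continuous fun u : ℝ => pv p (u, v) := by
      intro v
      unfold pv
      have h5 : Continuous fun u : ℝ => (![u, v] : Fin 2 → ℝ) := by
        refine continuous_pi fun i => ?_
        fin_cases i
        · exact continuous_id
        · exact continuous_const
      exact (MvPolynomial.continuous_eval p).comp h5
    have h6 : ∀ u v : ℝ, pv p (u, v) = 0 := by
      intro u v
      have h7 : (fun u : ℝ => pv p (u, v)) = fun _ => 0 :=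
        Continuous.ext_on (dense_compl_singleton z.1) (hcont v) continuous_const
          (fun u hu => h2 u v hu)
      exact congrFun h7 u
    refine MvPolynomial.funext fun w => ?_
    have h8 := h6 (w 0) (w 1)
    unfold pv at h8
    rw [map_zero]
    have h9 : (![w 0, w 1] : Fin 2 → ℝ) = w := by
      ext i
      fin_cases i <;> rfl
    rw [← h9]
    exact h8
  · unfold HH
    refine Polynomial.natDegree_sum_le_of_forall_le _ _ fun m hm => ?_
    have h1 := supp_le hdeg m hm
    refine Polynomial.natDegree_mul_le.trans ?_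
    rw [Polynomial.natDegree_C, zero_add]
    refine Polynomial.natDegree_mul_le.trans ?_
    have h2 : ((Polynomial.X : Polynomial (Polynomial ℝ)) ^ (m 0)).natDegree ≤ m 0 := by
      rw [Polynomial.natDegree_X_pow]
    have h3 : ((VV z.1 z.2) ^ (m 1)).natDegree ≤ m 1 * 1 :=
      Polynomial.natDegree_pow_le_of_le _ (VV_deg _ _)
    omega
  · have h0 : Cd D (HH p z.1 z.2) := by
      unfold HH
      refine Cd.sum _ _ fun m hm => ?_
      have h1 := supp_le hdeg m hm
      have h2 := (Cd.C0 (p.coeff m)).mul ((Cd.X0.pow (m 0)).mul ((VV_cd z.1 z.2).pow (m 1)))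
      exact h2.mono (by omega)
    exact h0
  · intro s hs
    obtain ⟨h1, h2⟩ := h s hs
    rw [HH_eval]
    have h3 := A.mem _ h1
    have h4 := A.inc _ h1
    have h5 := A.zero _ h3
    rw [h2] at h4 h5
    have h6 : A.φ (a s) = z.2 + ξ s * (a s - z.1) := by
      simp only [ev] at h4
      linarith
    rw [← h6]
    exact h5

end Pool.ACA
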