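import Pool.Agent.Lib.MP_aca35e_co.Defs

/-!
# MP_aca35e_co, row Z3

Algebraic dependence is closed under linear combinations (dimension count). Let `H, H'` be the relations of `(m, a)` and `(m, b)`, degrees `≤ N`; since `m` is
injective it takes infinitely many values, so a nonzero polynomial in `m` is not identically zero on `J = (l, r)`. So the degrees `e, e'` of `H, H'` in the
second variable are `≥ 1` and `L(m) a^e = - Σ_{i<e} H_i(m) a^i`, `L = leadingCoeff H`, and the same for `b` with `L'`. By induction `(L(m) L'(m))^{k} m^i a^j b^l` (`j, l ≤ k`) is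
a real linear combination of the functions `m^x a^y b^w` on `J` with `y, w < N + 1`, `x ≤ i + 2 N k`. Let `g₁, g₂` be the two linear combinations. For
`K` large the `(K+1)²` functions `(L L')(m)^{2K} g₁^i g₂^j`, `i, j ≤ K`, lie in the span of the `(N+1)² (2K + 4 N K + 1)` functions `m^x a^y b^w`, `x ≤ 2K + 4NK`, `y, w ≤ N`; for
`K = 100 (N+1)^3` say, `(K+1)²` is larger, so there is a nontrivial relation `Σ c_ij (L L')(m)^{2K} g₁^i g₂^j = 0` on `J`. The analytic function `(LL')(m)` is not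
identically zero, so its zeros are isolated (`AnalyticOnNhd.eqOn_zero_of_preconnected_of_frequently_eq_zero`), and `Σ c_ij g₁^i g₂^j = 0` on `J` by
analyticity (product of two analytic functions `= 0`). `N' = K`. It is fine to split into private lemmas. `algDep_mono`, `algDep_symm` are trivial
(`symm`: swap the two variables of the polynomial, e.g. `Polynomial.Bivariate.swap`).
-/

set_option autoImplicit false
set_option linter.unusedVariables false

namespace Pool.ACA

open Set Filter Topology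

private noncomputable def z3P (c : ℕ → ℕ → ℝ) (K : ℕ) : Polynomial (Polynomial ℝ) :=
  ∑ j ∈ Finset.range (K + 1), Polynomial.monomial j
    (∑ i ∈ Finset.range (K + 1), Polynomial.monomial i (c i j))

private theorem z3P_coeff (c : ℕ → ℕ → ℝ) (K i j : ℕ) :
    ((z3P c K).coeff j).coeff i = if j < K + 1 then (if i < K + 1 then c i j else 0) else 0 := by
  unfold z3P
  rw [Polynomial.finsetSum_coeff]
  simp only [Polynomial.coeff_monomial]
  rw [Finset.sum_ite_eq' (Finset.range (K + 1)) j]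
  simp only [Finset.mem_range]
  split_ifs with h1 h2
  · rw [Polynomial.finsetSum_coeff]
    simp only [Polynomial.coeff_monomial]
    rw [Finset.sum_ite_eq' (Finset.range (K + 1)) i]
    simp [h2]
  · rw [Polynomial.finsetSum_coeff]
    simp only [Polynomial.coeff_monomial]
    rw [Finset.sum_ite_eq' (Finset.range (K + 1)) i]
    simp [h2]
  · simp

private theorem z3P_deg (c : ℕ → ℕ → ℝ) (K : ℕ) : (z3P c K).natDegree ≤ K := by
  rw [Polynomial.natDegree_le_iff_coeff_eq_zero]
  intro n hn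
  ext i
  rw [z3P_coeff]
  simp
  omega

private theorem z3P_deg' (c : ℕ → ℕ → ℝ) (K j : ℕ) : ((z3P c K).coeff j).natDegree ≤ K := by
  rw [Polynomial.natDegree_le_iff_coeff_eq_zero]
  intro n hn
  rw [z3P_coeff]
  split_ifs with h1 h2
  · omega
  · rfl
  · rfl

private theorem z3P_ne (c : ℕ → ℕ → ℝ) (K i j : ℕ) (hi : i < K + 1) (hj : j < K + 1)
    (h : c i j ≠ 0) : z3P c K ≠ 0 := by
  intro h0
  apply h
  have := z3P_coeff c K i j
  rw [h0, if_pos hj, if_pos hi] at this
  simpa using this.symm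

private theorem z3P_eval (c : ℕ → ℕ → ℝ) (K : ℕ) (x y : ℝ) :
    ((z3P c K).map (Polynomial.evalRingHom x)).eval y =
      ∑ j ∈ Finset.range (K + 1), (∑ i ∈ Finset.range (K + 1), c i j * x ^ i) * y ^ j := by
  unfold z3P
  rw [Polynomial.map_sum, Polynomial.eval_finsetSum]
  refine Finset.sum_congr rfl fun j _ => ?_
  rw [Polynomial.map_monomial, Polynomial.eval_monomial, map_sum]
  congr 1
  refine Finset.sum_congr rfl fun i _ => ?_
  simp [Polynomial.eval_monomial]

private theorem z3_eval (H : Polynomial (Polynomial ℝ)) (N : ℕ) (h1 : H.natDegree ≤ N)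
    (h2 : ∀ i, (H.coeff i).natDegree ≤ N) (x y : ℝ) :
    (H.map (Polynomial.evalRingHom x)).eval y =
      ∑ j ∈ Finset.range (N + 1), (∑ i ∈ Finset.range (N + 1), (H.coeff j).coeff i * x ^ i) *
        y ^ j := by
  have hH : H = z3P (fun i j => (H.coeff j).coeff i) N := by
    ext j i
    rw [z3P_coeff]
    split_ifs with h3 h4
    · rfl
    · exact Polynomial.coeff_eq_zero_of_natDegree_lt (by have := h2 j; omega)
    · rw [Polynomial.coeff_eq_zero_of_natDegree_lt (show H.natDegree < j by omega)]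
      simp
  conv_lhs => rw [hH]
  exact z3P_eval _ _ _ _

theorem algDep_mono {N N' : ℕ} (h : N ≤ N') {J : Set ℝ} {a b : ℝ → ℝ} (hab : AlgDep N J a b) :
    AlgDep N' J a b := by
  obtain ⟨H, h0, h1, h2, h3⟩ := hab
  exact ⟨H, h0, h1.trans h, fun i => (h2 i).trans h, h3⟩

theorem algDep_symm {N : ℕ} {J : Set ℝ} {a b : ℝ → ℝ} (hab : AlgDep N J a b) :
    AlgDep N J b a := by
  obtain ⟨H, h0, h1, h2, h3⟩ := hab
  have h4 : ∃ j i, (H.coeff j).coeff i ≠ 0 := by
    by_contra hcon
    push Not at hcon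
    apply h0
    ext j i
    simpa using hcon j i
  obtain ⟨j, i, hji⟩ := h4
  have hj : j < N + 1 := by
    by_contra hcon
    apply hji
    rw [Polynomial.coeff_eq_zero_of_natDegree_lt (show H.natDegree < j by omega)]
    simp
  have hi : i < N + 1 := by
    by_contra hcon
    apply hji
    exact Polynomial.coeff_eq_zero_of_natDegree_lt (by have := h2 j; omega)
  refine ⟨z3P (fun a b => (H.coeff a).coeff b) N, z3P_ne _ N j i hj hi hji, z3P_deg _ _,
    z3P_deg' _ _, ?_⟩
  intro s hs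
  have h5 := h3 s hs
  rw [z3_eval H N h1 h2] at h5
  rw [z3P_eval, ← h5]
  simp only [Finset.sum_mul]
  rw [Finset.sum_comm]
  refine Finset.sum_congr rfl fun _ _ => Finset.sum_congr rfl fun _ _ => ?_
  ring

section alg

variable {R : Type*} [CommRing R] [Algebra ℝ R]

open Classical in
private noncomputable def z3gen (M A B : R) (N x : ℕ) : Finset R :=
  (Finset.range (x + 1) ×ˢ (Finset.range (N + 1) ×ˢ Finset.range (N + 1))).image
    (fun p => M ^ p.1 * A ^ p.2.1 * B ^ p.2.2)

private noncomputable def z3V (M A B : R) (N x : ℕ) : Submodule ℝ R :=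
  Submodule.span ℝ (z3gen M A B N x : Set R)

private theorem z3V_mem (M A B : R) (N x i j k : ℕ) (hi : i ≤ x) (hj : j ≤ N) (hk : k ≤ N) :
    M ^ i * A ^ j * B ^ k ∈ z3V M A B N x := by
  apply Submodule.subset_span
  unfold z3gen
  simp only [Finset.coe_image, Set.mem_image, Finset.mem_coe, Finset.mem_product,
    Finset.mem_range]
  exact ⟨(i, j, k), ⟨by simp; omega, by simp; omega, by simp; omega⟩, rfl⟩

private theorem z3V_ind (M A B : R) (N x : ℕ) (P : R → Prop)
    (hg : ∀ i j k, i ≤ x → j ≤ N → k ≤ N → P (M ^ i * A ^ j * B ^ k))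
    (h0 : P 0) (hadd : ∀ u v, P u → P v → P (u + v)) (hs : ∀ (c : ℝ) u, P u → P (c • u))
    (v : R) (hv : v ∈ z3V M A B N x) : P v := by
  unfold z3V at hv
  induction hv using Submodule.span_induction with
  | mem u hu =>
    unfold z3gen at hu
    simp only [Finset.coe_image, Set.mem_image, Finset.mem_coe, Finset.mem_product,
      Finset.mem_range] at hu
    obtain ⟨⟨i, j, k⟩, ⟨h1, h2, h3⟩, rfl⟩ := hu
    simp only at h1 h2 h3
    exact hg i j k (by omega) (by omega) (by omega)
  | zero => exact h0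
  | add u v _ _ hu hv => exact hadd u v hu hv
  | smul c u _ hu => exact hs c u hu

private theorem z3V_finrank (M A B : R) (N x : ℕ) :
    Module.finrank ℝ (z3V M A B N x) ≤ (x + 1) * ((N + 1) * (N + 1)) := by
  have h1 : Module.finrank ℝ (z3V M A B N x) ≤ (z3gen M A B N x).card :=
    finrank_span_finset_le_card (z3gen M A B N x)
  refine h1.trans ?_
  classical
  unfold z3gen
  refine Finset.card_image_le.trans ?_
  simp

private instance z3V_fd (M A B : R) (N x : ℕ) : FiniteDimensional ℝ (z3V M A B N x) :=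
  FiniteDimensional.span_finset ℝ (z3gen M A B N x)

private theorem z3V_mono (M A B : R) (N x y : ℕ) (hxy : x ≤ y) (v : R)
    (hv : v ∈ z3V M A B N x) : v ∈ z3V M A B N y := by
  refine z3V_ind M A B N x (fun v => v ∈ z3V M A B N y) ?_ ?_ ?_ ?_ v hv
  · intro i j k hi hj hk
    exact z3V_mem M A B N y i j k (hi.trans hxy) hj hk
  · exact Submodule.zero_mem _
  · intro u v hu hv
    exact Submodule.add_mem _ hu hv
  · intro c u hu
    exact Submodule.smul_mem _ c hu

private theorem z3V_poly (M A B : R) (N x n : ℕ) (q : Polynomial ℝ) (hq : q.natDegree ≤ n)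
    (v : R) (hv : v ∈ z3V M A B N x) : Polynomial.aeval M q * v ∈ z3V M A B N (x + n) := by
  refine z3V_ind M A B N x (fun v => Polynomial.aeval M q * v ∈ z3V M A B N (x + n))
    ?_ ?_ ?_ ?_ v hv
  · intro i j k hi hj hk
    rw [Polynomial.aeval_eq_sum_range, Finset.sum_mul]
    refine Submodule.sum_mem _ fun t ht => ?_
    rw [Finset.mem_range] at ht
    have : q.coeff t • M ^ t * (M ^ i * A ^ j * B ^ k) =
        q.coeff t • (M ^ (t + i) * A ^ j * B ^ k) := by
      rw [smul_mul_assoc]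
      congr 1
      ring
    rw [this]
    exact Submodule.smul_mem _ _ (z3V_mem M A B N _ _ _ _ (by omega) hj hk)
  · simp
  · intro u v hu hv
    rw [mul_add]
    exact Submodule.add_mem _ hu hv
  · intro c u hu
    rw [mul_smul_comm]
    exact Submodule.smul_mem _ c hu

/-- reduction of the power `N + 1` -/
private theorem z3red (M A : R) (N : ℕ) (H : Polynomial (Polynomial ℝ)) (h1 : H.natDegree ≤ N)
    (h : H.eval₂ (Polynomial.aeval M : Polynomial ℝ →ₐ[ℝ] R).toRingHom A = 0) :
    Polynomial.aeval M H.leadingCoeff * A ^ (N + 1) =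
      - ∑ i ∈ Finset.range H.natDegree,
        Polynomial.aeval M (H.coeff i) * A ^ (i + (N + 1 - H.natDegree)) := by
  rw [Polynomial.eval₂_eq_sum_range, Finset.sum_range_succ] at h
  have h2 : A ^ (N + 1) = A ^ H.natDegree * A ^ (N + 1 - H.natDegree) := by
    rw [← pow_add]
    congr 1
    omega
  have h3 : Polynomial.aeval M H.leadingCoeff * A ^ H.natDegree =
      - ∑ i ∈ Finset.range H.natDegree, Polynomial.aeval M (H.coeff i) * A ^ i := by
    rw [eq_neg_iff_add_eq_zero, add_comm]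
    exact h
  rw [h2, ← mul_assoc, h3, neg_mul, Finset.sum_mul]
  congr 1
  refine Finset.sum_congr rfl fun i _ => ?_
  rw [pow_add]
  ring

private theorem z3stepM (M A B : R) (N x : ℕ) (v : R) (hv : v ∈ z3V M A B N x) :
    M * v ∈ z3V M A B N (x + 1) := by
  have := z3V_poly M A B N x 1 Polynomial.X (by simp) v hv
  simpa using this

private theorem z3stepA (M A B : R) (N x : ℕ) (H : Polynomial (Polynomial ℝ))
    (h1 : H.natDegree ≤ N) (h2 : ∀ i, (H.coeff i).natDegree ≤ N)
    (h : H.eval₂ (Polynomial.aeval M : Polynomial ℝ →ₐ[ℝ] R).toRingHom A = 0)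
    (v : R) (hv : v ∈ z3V M A B N x) :
    Polynomial.aeval M H.leadingCoeff * (A * v) ∈ z3V M A B N (x + N) := by
  refine z3V_ind M A B N x
    (fun v => Polynomial.aeval M H.leadingCoeff * (A * v) ∈ z3V M A B N (x + N))
    ?_ ?_ ?_ ?_ v hv
  · intro i j k hi hj hk
    rcases Nat.lt_or_ge j N with hjN | hjN
    · have h3 : A * (M ^ i * A ^ j * B ^ k) = M ^ i * A ^ (j + 1) * B ^ k := by ring
      rw [h3]
      exact z3V_poly M A B N x N _ (h2 _) _ (z3V_mem M A B N x i (j + 1) k hi (by omega) hk)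
    · have hjN' : j = N := le_antisymm hj hjN
      subst hjN'
      have h3 : Polynomial.aeval M H.leadingCoeff * (A * (M ^ i * A ^ j * B ^ k)) =
          Polynomial.aeval M H.leadingCoeff * A ^ (j + 1) * (M ^ i * B ^ k) := by ring
      rw [h3, z3red M A j H h1 h, neg_mul, Finset.sum_mul]
      refine Submodule.neg_mem _ (Submodule.sum_mem _ fun t ht => ?_)
      rw [Finset.mem_range] at ht
      have h4 : Polynomial.aeval M (H.coeff t) * A ^ (t + (j + 1 - H.natDegree)) *
          (M ^ i * B ^ k) = Polynomial.aeval M (H.coeff t) *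
            (M ^ i * A ^ (t + (j + 1 - H.natDegree)) * B ^ k) := by ring
      rw [h4]
      exact z3V_poly M A B j x j _ (h2 _) _ (z3V_mem M A B j x i _ k hi (by omega) hk)
  · simp
  · intro u v hu hv
    rw [mul_add, mul_add]
    exact Submodule.add_mem _ hu hv
  · intro c u hu
    rw [mul_smul_comm, mul_smul_comm]
    exact Submodule.smul_mem _ c hu

private theorem z3V_swap (M A B : R) (N x : ℕ) (v : R) (hv : v ∈ z3V M A B N x) :
    v ∈ z3V M B A N x := by
  refine z3V_ind M A B N x (fun v => v ∈ z3V M B A N x) ?_ ?_ ?_ ?_ v hv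
  · intro i j k hi hj hk
    have := z3V_mem M B A N x i k j hi hk hj
    have h2 : M ^ i * A ^ j * B ^ k = M ^ i * B ^ k * A ^ j := by ring
    rw [h2]
    exact this
  · exact Submodule.zero_mem _
  · intro u v hu hv
    exact Submodule.add_mem _ hu hv
  · intro c u hu
    exact Submodule.smul_mem _ c hu

private theorem z3step (M A B : R) (N x : ℕ) (H H' : Polynomial (Polynomial ℝ))
    (h1 : H.natDegree ≤ N) (h2 : ∀ i, (H.coeff i).natDegree ≤ N)
    (h : H.eval₂ (Polynomial.aeval M : Polynomial ℝ →ₐ[ℝ] R).toRingHom A = 0)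
    (h1' : H'.natDegree ≤ N) (h2' : ∀ i, (H'.coeff i).natDegree ≤ N)
    (h' : H'.eval₂ (Polynomial.aeval M : Polynomial ℝ →ₐ[ℝ] R).toRingHom B = 0)
    (c : Fin 3 → ℝ) (v : R) (hv : v ∈ z3V M A B N x) :
    Polynomial.aeval M (H.leadingCoeff * H'.leadingCoeff) *
      ((c 0 • M + c 1 • A + c 2 • B) * v) ∈ z3V M A B N (x + (2 * N + 1)) := by
  have e : Polynomial.aeval M (H.leadingCoeff * H'.leadingCoeff) *
      ((c 0 • M + c 1 • A + c 2 • B) * v) =
      c 0 • (Polynomial.aeval M (H.leadingCoeff * H'.leadingCoeff) * (M * v)) +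
      c 1 • (Polynomial.aeval M H'.leadingCoeff * (Polynomial.aeval M H.leadingCoeff * (A * v))) +
      c 2 • (Polynomial.aeval M H.leadingCoeff *
        (Polynomial.aeval M H'.leadingCoeff * (B * v))) := by
    simp only [map_mul, Algebra.smul_def]
    ring
  rw [e]
  have hL := h2 H.natDegree
  have hL' := h2' H'.natDegree
  refine Submodule.add_mem _ (Submodule.add_mem _ ?_ ?_) ?_
  · refine Submodule.smul_mem _ _ ?_
    have := z3V_poly M A B N (x + 1) (2 * N) (H.leadingCoeff * H'.leadingCoeff)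
      (Polynomial.natDegree_mul_le.trans (by
        unfold Polynomial.leadingCoeff
        omega)) _ (z3stepM M A B N x v hv)
    exact z3V_mono M A B N _ _ (by omega) _ this
  · refine Submodule.smul_mem _ _ ?_
    have := z3V_poly M A B N (x + N) N H'.leadingCoeff hL' _ (z3stepA M A B N x H h1 h2 h v hv)
    exact z3V_mono M A B N _ _ (by omega) _ this
  · refine Submodule.smul_mem _ _ ?_
    have := z3V_poly M A B N (x + N) N H.leadingCoeff hL _
      (z3V_swap M B A N _ _ (z3stepA M B A N x H' h1' h2' h' v (z3V_swap M A B N _ _ hv)))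
    exact z3V_mono M A B N _ _ (by omega) _ this

private theorem z3pow (M A B : R) (N : ℕ) (D g₁ g₂ : R) (w : ℕ)
    (h0 : ∀ x v, v ∈ z3V M A B N x → D * v ∈ z3V M A B N (x + w))
    (h1 : ∀ x v, v ∈ z3V M A B N x → D * (g₁ * v) ∈ z3V M A B N (x + w))
    (h2 : ∀ x v, v ∈ z3V M A B N x → D * (g₂ * v) ∈ z3V M A B N (x + w)) (K : ℕ)
    (i j : ℕ) (hi : i ≤ K) (hj : j ≤ K) :
    D ^ (2 * K) * (g₁ ^ i * g₂ ^ j) ∈ z3V M A B N (2 * K * w) := by
  have a0 : ∀ n, D ^ n ∈ z3V M A B N (n * w) := by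
    intro n
    induction n with
    | zero =>
      have := z3V_mem M A B N 0 0 0 0 le_rfl (Nat.zero_le _) (Nat.zero_le _)
      simpa using this
    | succ n ih =>
      have := h0 _ _ ih
      have e : (n + 1) * w = n * w + w := by ring
      rw [e, pow_succ']
      exact this
  have a1 : ∀ i n, D ^ (n + i) * g₁ ^ i ∈ z3V M A B N ((n + i) * w) := by
    intro i
    induction i with
    | zero =>
      intro n
      simpa using a0 n
    | succ i ih =>
      intro n
      have := h1 _ _ (ih n)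
      have e : (n + (i + 1)) * w = (n + i) * w + w := by ring
      rw [e]
      have e2 : D ^ (n + (i + 1)) * g₁ ^ (i + 1) = D * (g₁ * (D ^ (n + i) * g₁ ^ i)) := by ring
      rw [e2]
      exact this
  have a2 : ∀ j i n, D ^ (n + i + j) * (g₁ ^ i * g₂ ^ j) ∈ z3V M A B N ((n + i + j) * w) := by
    intro j
    induction j with
    | zero =>
      intro i n
      simpa using a1 i n
    | succ j ih =>
      intro i n
      have := h2 _ _ (ih i n)
      have e : (n + i + (j + 1)) * w = (n + i + j) * w + w := by ring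
      rw [e]
      have e2 : D ^ (n + i + (j + 1)) * (g₁ ^ i * g₂ ^ (j + 1)) =
        D * (g₂ * (D ^ (n + i + j) * (g₁ ^ i * g₂ ^ j))) := by ring
      rw [e2]
      exact this
  have := a2 j i (2 * K - i - j)
  have e : 2 * K - i - j + i + j = 2 * K := by omega
  rw [e] at this
  exact this

/-- dimension count -/
private theorem z3rel (M A B : R) (N : ℕ) (D g₁ g₂ : R) (w : ℕ)
    (h0 : ∀ x v, v ∈ z3V M A B N x → D * v ∈ z3V M A B N (x + w))
    (h1 : ∀ x v, v ∈ z3V M A B N x → D * (g₁ * v) ∈ z3V M A B N (x + w))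
    (h2 : ∀ x v, v ∈ z3V M A B N x → D * (g₂ * v) ∈ z3V M A B N (x + w)) (K : ℕ)
    (hK : (2 * K * w + 1) * ((N + 1) * (N + 1)) < (K + 1) * (K + 1)) :
    ∃ c : Fin (K + 1) × Fin (K + 1) → ℝ, c ≠ 0 ∧
      ∑ q, c q • (D ^ (2 * K) * (g₁ ^ (q.1 : ℕ) * g₂ ^ (q.2 : ℕ))) = 0 := by
  let f : (Fin (K + 1) × Fin (K + 1) → ℝ) →ₗ[ℝ] z3V M A B N (2 * K * w) :=
    ∑ q : Fin (K + 1) × Fin (K + 1), (LinearMap.proj q : _ →ₗ[ℝ] ℝ).smulRight
      (⟨D ^ (2 * K) * (g₁ ^ (q.1 : ℕ) * g₂ ^ (q.2 : ℕ)),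
        z3pow M A B N D g₁ g₂ w h0 h1 h2 K _ _ (by omega) (by omega)⟩ :
        z3V M A B N (2 * K * w))
  have hf : LinearMap.ker f ≠ ⊥ := by
    apply LinearMap.ker_ne_bot_of_finrank_lt
    refine lt_of_le_of_lt (z3V_finrank M A B N (2 * K * w)) (lt_of_lt_of_le hK ?_)
    simp
  obtain ⟨c, hc, hc0⟩ := Submodule.exists_mem_ne_zero_of_ne_bot hf
  refine ⟨c, hc0, ?_⟩
  rw [LinearMap.mem_ker] at hc
  have h3 := congrArg (Subtype.val) hc
  simpa [f, LinearMap.sum_apply] using h3

end alg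

private theorem z3ringhom {J : Set ℝ} (m a : ℝ → ℝ) (H : Polynomial (Polynomial ℝ))
    (h : ∀ s ∈ J, (H.map (Polynomial.evalRingHom (m s))).eval (a s) = 0) :
    H.eval₂ (Polynomial.aeval (fun s : J => m s) : Polynomial ℝ →ₐ[ℝ] (J → ℝ)).toRingHom
      (fun s : J => a s) = 0 := by
  funext s
  have h1 := Polynomial.hom_eval₂ H
    (Polynomial.aeval (fun s : J => m s) : Polynomial ℝ →ₐ[ℝ] (J → ℝ)).toRingHom
    (Pi.evalRingHom (fun _ : J => ℝ) s) (fun s : J => a s)
  have h2 : (Pi.evalRingHom (fun _ : J => ℝ) s).comp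
      (Polynomial.aeval (fun s : J => m s) : Polynomial ℝ →ₐ[ℝ] (J → ℝ)).toRingHom =
      Polynomial.evalRingHom (m s) := by
    ext x
    · simp
    · simp
  rw [h2] at h1
  have h3 := h s.1 s.2
  simp only [Pi.evalRingHom_apply] at h1
  rw [h1, Polynomial.eval₂_eq_eval_map]
  exact h3

private theorem z3aeval {J : Set ℝ} (m : ℝ → ℝ) (q : Polynomial ℝ) (s : J) :
    (Polynomial.aeval (fun s : J => m s) q : J → ℝ) s = q.eval (m s) := by
  have h1 := Polynomial.hom_eval₂ q (algebraMap ℝ (J → ℝ))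
    (Pi.evalRingHom (fun _ : J => ℝ) s) (fun s : J => m s)
  have h2 : (Pi.evalRingHom (fun _ : J => ℝ) s).comp (algebraMap ℝ (J → ℝ)) =
      RingHom.id ℝ := by
    ext x
    simp
  rw [h2] at h1
  simp only [Pi.evalRingHom_apply] at h1
  rw [Polynomial.aeval_def, h1]
  rfl

private theorem z3lead {l r : ℝ} (hlr : l < r) (m : ℝ → ℝ) (hinj : InjOn m (Ioo l r))
    (q : Polynomial ℝ) (h : ∀ s ∈ Ioo l r, q.eval (m s) = 0) : q = 0 := by
  have h1 : (m '' Ioo l r).Infinite := (Ioo_infinite hlr).image hinj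
  refine Polynomial.eq_zero_of_infinite_isRoot q (h1.mono ?_)
  rintro _ ⟨s, hs, rfl⟩
  exact h s hs

theorem alg_comb (N : ℕ) : ∃ N', ∀ (l r : ℝ) (m a b : ℝ → ℝ), l < r →
    AnalyticOnNhd ℝ m (Ioo l r) → AnalyticOnNhd ℝ a (Ioo l r) → AnalyticOnNhd ℝ b (Ioo l r) →
    InjOn m (Ioo l r) → AlgDep N (Ioo l r) m a → AlgDep N (Ioo l r) m b →
    ∀ c₁ c₂ : Fin 3 → ℝ, AlgDep N' (Ioo l r) (fun s => c₁ 0 * m s + c₁ 1 * a s + c₁ 2 * b s)
      (fun s => c₂ 0 * m s + c₂ 1 * a s + c₂ 2 * b s) := by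
  refine ⟨2 * (2 * N + 1) * ((N + 1) * (N + 1)), ?_⟩
  intro l r m a b hlr hm ha hb hinj hma hmb c₁ c₂
  obtain ⟨H, h0, h1, h2, h3⟩ := hma
  obtain ⟨H', h0', h1', h2', h3'⟩ := hmb
  set K := 2 * (2 * N + 1) * ((N + 1) * (N + 1)) with hK
  have hKlt : (2 * K * (2 * N + 1) + 1) * ((N + 1) * (N + 1)) < (K + 1) * (K + 1) := by
    have e1 : 2 * K * (2 * N + 1) + 1 ≤ (K + 1) * (2 * (2 * N + 1)) := by nlinarith
    have e2 : (2 * K * (2 * N + 1) + 1) * ((N + 1) * (N + 1)) ≤
        (K + 1) * (2 * (2 * N + 1)) * ((N + 1) * (N + 1)) := Nat.mul_le_mul_right _ e1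
    have e3 : (K + 1) * (2 * (2 * N + 1)) * ((N + 1) * (N + 1)) = (K + 1) * K := by
      rw [hK]
      ring
    rw [e3] at e2
    nlinarith
  have hH := z3ringhom m a H h3
  have hH' := z3ringhom m b H' h3'
  set M : Ioo l r → ℝ := fun s => m s with hM
  set A : Ioo l r → ℝ := fun s => a s with hA
  set B : Ioo l r → ℝ := fun s => b s with hB
  set Dp : Polynomial ℝ := H.leadingCoeff * H'.leadingCoeff with hDp
  obtain ⟨c, hc0, hc⟩ := z3rel M A B N (Polynomial.aeval M Dp)
    (c₁ 0 • M + c₁ 1 • A + c₁ 2 • B) (c₂ 0 • M + c₂ 1 • A + c₂ 2 • B) (2 * N + 1)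
    (by
      intro x v hv
      have := z3V_poly M A B N x (2 * N) Dp (Polynomial.natDegree_mul_le.trans (by
        have := h2 H.natDegree
        have := h2' H'.natDegree
        unfold Polynomial.leadingCoeff
        omega)) v hv
      exact z3V_mono M A B N _ _ (by omega) _ this)
    (fun x v hv => z3step M A B N x H H' h1 h2 hH h1' h2' hH' c₁ v hv)
    (fun x v hv => z3step M A B N x H H' h1 h2 hH h1' h2' hH' c₂ v hv) K hKlt
  obtain ⟨q, hq⟩ : ∃ q, c q ≠ 0 := by
    by_contra hcon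
    push Not at hcon
    exact hc0 (funext hcon)
  let c' : ℕ → ℕ → ℝ := fun i j => if h : i < K + 1 ∧ j < K + 1 then c (⟨i, h.1⟩, ⟨j, h.2⟩) else 0
  have hc' : ∀ i j : Fin (K + 1), c' i j = c (i, j) := by
    intro i j
    simp only [c']
    rw [dif_pos ⟨i.2, j.2⟩]
  have hg₁ : AnalyticOnNhd ℝ (fun s => c₁ 0 * m s + c₁ 1 * a s + c₁ 2 * b s) (Ioo l r) := by
    intro s hs
    exact ((analyticAt_const.mul (hm s hs)).add (analyticAt_const.mul (ha s hs))).add
      (analyticAt_const.mul (hb s hs))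
  have hg₂ : AnalyticOnNhd ℝ (fun s => c₂ 0 * m s + c₂ 1 * a s + c₂ 2 * b s) (Ioo l r) := by
    intro s hs
    exact ((analyticAt_const.mul (hm s hs)).add (analyticAt_const.mul (ha s hs))).add
      (analyticAt_const.mul (hb s hs))
  refine ⟨z3P c' K, z3P_ne c' K q.1 q.2 q.1.2 q.2.2 (by rw [hc']; exact hq), z3P_deg _ _,
    z3P_deg' _ _, ?_⟩
  have hDan : AnalyticOnNhd ℝ (fun s => (Dp.eval (m s)) ^ (2 * K)) (Ioo l r) := by
    intro s hs
    refine AnalyticAt.pow ?_ _
    have := AnalyticAt.aeval_polynomial (hm s hs) Dp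
    simpa [Polynomial.aeval_def, Polynomial.eval₂_eq_eval_map] using this
  have hPan : AnalyticOnNhd ℝ (fun s => ∑ j ∈ Finset.range (K + 1),
      (∑ i ∈ Finset.range (K + 1), c' i j * (c₁ 0 * m s + c₁ 1 * a s + c₁ 2 * b s) ^ i) *
        (c₂ 0 * m s + c₂ 1 * a s + c₂ 2 * b s) ^ j) (Ioo l r) := by
    intro s hs
    refine Finset.analyticAt_fun_sum _ fun j _ => ?_
    refine AnalyticAt.mul ?_ ((hg₂ s hs).pow j)
    refine Finset.analyticAt_fun_sum _ fun i _ => ?_
    exact analyticAt_const.mul ((hg₁ s hs).pow i)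
  have hprod : ∀ s ∈ Ioo l r, (fun s => (Dp.eval (m s)) ^ (2 * K)) s *
      (fun s => ∑ j ∈ Finset.range (K + 1),
      (∑ i ∈ Finset.range (K + 1), c' i j * (c₁ 0 * m s + c₁ 1 * a s + c₁ 2 * b s) ^ i) *
        (c₂ 0 * m s + c₂ 1 * a s + c₂ 2 * b s) ^ j) s = 0 := by
    intro s hs
    have h5 := congrFun hc ⟨s, hs⟩
    rw [Finset.sum_apply] at h5
    simp only [Pi.smul_apply, Pi.mul_apply, Pi.pow_apply, Pi.add_apply, smul_eq_mul,
      Pi.zero_apply] at h5
    rw [z3aeval, Fintype.sum_prod_type, Finset.sum_comm] at h5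
    simp only
    rw [← h5, Finset.mul_sum, Finset.sum_range]
    refine Finset.sum_congr rfl fun j _ => ?_
    rw [Finset.sum_range, Finset.sum_mul, Finset.mul_sum]
    refine Finset.sum_congr rfl fun i _ => ?_
    rw [hc']
    simp only [hM, hA, hB]
    ring
  have hpre : IsPreconnected (Ioo l r) := isPreconnected_Ioo
  rcases AnalyticOnNhd.eq_zero_or_eq_zero_of_mul_eq_zero hDan hPan hprod hpre with h6 | h6
  · exfalso
    have h7 : Dp = 0 := by
      refine z3lead hlr m hinj Dp fun s hs => ?_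
      exact eq_zero_of_pow_eq_zero (h6 s hs)
    rw [hDp, mul_eq_zero, Polynomial.leadingCoeff_eq_zero, Polynomial.leadingCoeff_eq_zero] at h7
    exact h7.elim h0 h0'
  · intro s hs
    rw [z3P_eval]
    exact h6 s hs

end Pool.ACA
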