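import Pool.Agent.Lib.MP_aca35e_co.Defs

/-!
# MP_aca35e_co, row Z4

Zero count. Write the relation `H` of `(id, h)` as `H = X^k H₁` (outer variable) with `H₁.coeff 0 ≠ 0`. If `h` is not identically zero on `(l, r)` then, by
analyticity (`h^k * (H₁(s, h s)) = 0` for all `s`), `H₁(s, h s) = 0` on `(l, r)`. At a zero `s` of `h`: `(H₁.coeff 0).eval s = 0`. So the number of zeros is
`≤ natDegree ≤ N`.
-/

set_option autoImplicit false
set_option linter.unusedVariables false

namespace Pool.ACA

open Set Filter Topology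

theorem zero_count {N : ℕ} {l r : ℝ} (hlr : l < r) {h : ℝ → ℝ} (hh : AnalyticOnNhd ℝ h (Ioo l r))
    (ha : AlgDep N (Ioo l r) id h) (P : Finset ℝ) (hP : ∀ s ∈ P, s ∈ Ioo l r ∧ h s = 0)
    (hcard : N < P.card) : ∀ s ∈ Ioo l r, h s = 0 := by
  classical
  obtain ⟨H, hH0, -, hHc, hHs⟩ := ha
  obtain ⟨q, hq, hq0⟩ := Polynomial.exists_eq_pow_rootMultiplicity_mul_and_not_dvd H hH0 0
  set k := Polynomial.rootMultiplicity 0 H with hk
  rw [Polynomial.C_0, sub_zero] at hq hq0
  have hc0 : q.coeff 0 ≠ 0 := fun h0 => hq0 (Polynomial.X_dvd_iff.mpr h0)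
  have hck : H.coeff k = q.coeff 0 := by
    have h1 := Polynomial.coeff_X_pow_mul q k 0
    rw [← hq, zero_add] at h1
    exact h1
  have hdeg : (q.coeff 0).natDegree ≤ N := by
    rw [← hck]; exact hHc k
  by_contra hne
  push Not at hne
  obtain ⟨s₁, hs₁, hhs₁⟩ := hne
  -- the zeros are isolated
  have hiso : ∀ s ∈ Ioo l r, ∀ᶠ z in 𝓝[≠] s, h z ≠ 0 := by
    intro s hs
    by_contra hcon
    rw [Filter.not_eventually] at hcon
    simp only [ne_eq, not_not] at hcon
    exact hhs₁ (hh.eqOn_zero_of_preconnected_of_frequently_eq_zero isPreconnected_Ioo hs hcon hs₁)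
  -- the function `G`
  set G : ℝ → ℝ := fun s => ∑ i ∈ Finset.range (q.natDegree + 1), (q.coeff i).eval s * h s ^ i
    with hG
  have hGs : ∀ s ∈ Ioo l r, h s ^ k * G s = 0 := by
    intro s hs
    have h1 := hHs s hs
    rw [hq, Polynomial.map_mul, Polynomial.map_pow, Polynomial.map_X, Polynomial.eval_mul,
      Polynomial.eval_pow, Polynomial.eval_X, Polynomial.eval_map,
      Polynomial.eval₂_eq_sum_range] at h1
    simpa [hG] using h1
  have hroot : ∀ s ∈ P, (q.coeff 0).IsRoot s := by
    intro s hs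
    obtain ⟨hs1, hs2⟩ := hP s hs
    have hcont : ContinuousAt G s := by
      have hhc : ContinuousAt h s := (hh s hs1).continuousAt
      refine tendsto_finsetSum _ fun i _ => ?_
      exact ((q.coeff i).continuous.continuousAt).mul (hhc.pow i)
    have hev : ∀ᶠ z in 𝓝[≠] s, G z = 0 := by
      have h1 : ∀ᶠ z in 𝓝[≠] s, z ∈ Ioo l r := nhdsWithin_le_nhds (Ioo_mem_nhds hs1.1 hs1.2)
      filter_upwards [h1, hiso s hs1] with z hz1 hz2
      exact (mul_eq_zero.mp (hGs z hz1)).resolve_left (pow_ne_zero _ hz2)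
    have hG0 : G s = 0 := by
      have h1 : Tendsto G (𝓝[≠] s) (𝓝 (G s)) := hcont.tendsto.mono_left nhdsWithin_le_nhds
      have h2 : Tendsto G (𝓝[≠] s) (𝓝 0) :=
        tendsto_const_nhds.congr' (hev.mono fun z hz => hz.symm)
      exact tendsto_nhds_unique h1 h2
    rw [Polynomial.IsRoot.def, ← hG0]
    simp only [hG, hs2]
    rw [Finset.sum_eq_single 0]
    · simp
    · intro i _ hi
      simp [hi]
    · intro h0
      exact absurd (Finset.mem_range.mpr (Nat.succ_pos _)) h0
  have hle : P.card ≤ (q.coeff 0).natDegree := by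
    have h1 : P ⊆ (q.coeff 0).roots.toFinset := by
      intro s hs
      rw [Multiset.mem_toFinset, Polynomial.mem_roots hc0]
      exact hroot s hs
    exact (Finset.card_le_card h1).trans
      ((Multiset.toFinset_card_le _).trans (Polynomial.card_roots' _))
  omega

end Pool.ACA
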