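import Pool.Agent.Lib.MP_aca35e_co.Defs
import Pool.Agent.Lib.MP_aca35e_co.P1
import Pool.Agent.Lib.MP_aca35e_co.Z1
import Pool.Agent.Lib.MP_aca35e_co.Z2
import Pool.Agent.Lib.MP_aca35e_co.Z3
import Pool.Agent.Lib.MP_aca35e_co.Z4

/-!
# MP_aca35e_co, row Z5: the zero bound
-/

set_option autoImplicit false
set_option linter.unusedVariables false

namespace Pool.ACA

open Set Filter Topology

private lemma corr_swap {p : MvPolynomial (Fin 2) ℝ} {Ω : Set (ℝ × ℝ)} {A B : Fam p Ω}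
    {z : ℝ × ℝ} {s t : ℝ} (h : Corr A B z s t) : Corr B A z t s := by
  obtain ⟨X, h1, h2, h3, h4⟩ := h
  exact ⟨X, h1, h2, h4, h3⟩

private lemma par_injOn {p : MvPolynomial (Fin 2) ℝ} {Ω : Set (ℝ × ℝ)} (hΩ : Convex ℝ Ω)
    (A : Fam p Ω) (y : ℝ × ℝ) (hy : ¬ A.has y) :
    InjOn (fun t => A.par (t, ev y t)) {t | (t, ev y t) ∈ Ω} := by
  rcases par_mono hΩ A y hy with h | h
  · exact h.injOn
  · exact h.injOn

/-- One correspondence: analytic, continuous, and algebraic over the parameter. -/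
private lemma one (D N₁ N₂ : ℕ)
    (h₁ : ∀ (l r : ℝ) (m a b : ℝ → ℝ), l < r →
      AnalyticOnNhd ℝ m (Ioo l r) → AnalyticOnNhd ℝ a (Ioo l r) → AnalyticOnNhd ℝ b (Ioo l r) →
      InjOn m (Ioo l r) → AlgDep D (Ioo l r) m a → AlgDep D (Ioo l r) m b →
      ∀ c₁ c₂ : Fin 3 → ℝ, AlgDep N₁ (Ioo l r) (fun s => c₁ 0 * m s + c₁ 1 * a s + c₁ 2 * b s)
        (fun s => c₂ 0 * m s + c₂ 1 * a s + c₂ 2 * b s))
    (h₂ : ∀ (l r : ℝ) (m a b : ℝ → ℝ), l < r →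
      AnalyticOnNhd ℝ m (Ioo l r) → AnalyticOnNhd ℝ a (Ioo l r) → AnalyticOnNhd ℝ b (Ioo l r) →
      InjOn m (Ioo l r) → AlgDep N₁ (Ioo l r) m a → AlgDep N₁ (Ioo l r) m b →
      ∀ c₁ c₂ : Fin 3 → ℝ, AlgDep N₂ (Ioo l r) (fun s => c₁ 0 * m s + c₁ 1 * a s + c₁ 2 * b s)
        (fun s => c₂ 0 * m s + c₂ 1 * a s + c₂ 2 * b s))
    (p : MvPolynomial (Fin 2) ℝ) (hp : p ≠ 0) (hdeg : p.totalDegree ≤ D)
    (Ω : Set (ℝ × ℝ)) (hΩ : IsOpen Ω) (hc : Convex ℝ Ω) (A B : Fam p Ω) (z z' : ℝ × ℝ)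
    (hzA : ¬ A.has z) (hzB : ¬ B.has z) (hzB' : ¬ B.has z')
    (l r : ℝ) (hlr : l < r) (b τ : ℝ → ℝ)
    (h : ∀ s ∈ Icc l r, Corr A B z s (b s) ∧ Corr A B z' (τ s) (b s)) :
    AnalyticOnNhd ℝ τ (Ioo l r) ∧ ContinuousOn τ (Icc l r) ∧ AlgDep N₂ (Ioo l r) id τ := by
  have hsub : Ioo l r ⊆ Icc l r := Ioo_subset_Icc_self
  have hid : AnalyticOnNhd ℝ (id : ℝ → ℝ) (Ioo l r) := analyticOnNhd_id
  obtain ⟨hb, ξ, hξ, hξ'⟩ := corr_analytic hΩ A B z hzA l r id b hid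
    (fun s hs => (h s (hsub hs)).1)
  obtain ⟨hτ, η, hη, hη'⟩ := corr_analytic hΩ B A z' hzB' l r b τ hb
    (fun s hs => corr_swap (h s (hsub hs)).2)
  have hbc : ContinuousOn b (Icc l r) := corr_continuous hΩ A B z hzA l r id b continuousOn_id
    (fun s hs => (h s hs).1)
  have hτc : ContinuousOn τ (Icc l r) := corr_continuous hΩ B A z' hzB' l r b τ hbc
    (fun s hs => corr_swap (h s hs).2)
  have iξ : InjOn ξ (Ioo l r) := by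
    intro s hs t ht hst
    have e1 := (hξ' s hs).2.1
    have e2 := (hξ' t ht).2.1
    rw [hst, e2] at e1
    exact e1.symm
  have ib : InjOn b (Ioo l r) := by
    intro s hs t ht hst
    apply iξ hs ht
    apply par_injOn hc B z hzB (hξ' s hs).1 (hξ' t ht).1
    show B.par (ξ s, ev z (ξ s)) = B.par (ξ t, ev z (ξ t))
    rw [(hξ' s hs).2.2, (hξ' t ht).2.2, hst]
  have iη : InjOn η (Ioo l r) := by
    intro s hs t ht hst
    apply ib hs ht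
    have e1 := (hη' s hs).2.1
    have e2 := (hη' t ht).2.1
    rw [hst, e2] at e1
    exact e1.symm
  have a1 : AlgDep D (Ioo l r) ξ id := corr_alg hp hdeg A z (Ioo l r) ξ id
    (fun s hs => ⟨(hξ' s hs).1, (hξ' s hs).2.1⟩)
  have a2 : AlgDep D (Ioo l r) ξ b := corr_alg hp hdeg B z (Ioo l r) ξ b
    (fun s hs => ⟨(hξ' s hs).1, (hξ' s hs).2.2⟩)
  have a3 : AlgDep D (Ioo l r) η b := corr_alg hp hdeg B z' (Ioo l r) η b
    (fun s hs => ⟨(hη' s hs).1, (hη' s hs).2.1⟩)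
  have a4 : AlgDep D (Ioo l r) η τ := corr_alg hp hdeg A z' (Ioo l r) η τ
    (fun s hs => ⟨(hη' s hs).1, (hη' s hs).2.2⟩)
  have b1 : AlgDep N₁ (Ioo l r) b id := by
    have := h₁ l r ξ id b hlr hξ hid hb iξ a1 a2 ![0, 0, 1] ![0, 1, 0]
    have e1 : (fun s => (![0, 0, 1] : Fin 3 → ℝ) 0 * ξ s + (![0, 0, 1] : Fin 3 → ℝ) 1 * id s +
        (![0, 0, 1] : Fin 3 → ℝ) 2 * b s) = b := by
      funext s
      simp
    have e2 : (fun s => (![0, 1, 0] : Fin 3 → ℝ) 0 * ξ s + (![0, 1, 0] : Fin 3 → ℝ) 1 * id s +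
        (![0, 1, 0] : Fin 3 → ℝ) 2 * b s) = id := by
      funext s
      simp
    rwa [e1, e2] at this
  have b2 : AlgDep N₁ (Ioo l r) b τ := by
    have := h₁ l r η b τ hlr hη hb hτ iη a3 a4 ![0, 1, 0] ![0, 0, 1]
    have e1 : (fun s => (![0, 1, 0] : Fin 3 → ℝ) 0 * η s + (![0, 1, 0] : Fin 3 → ℝ) 1 * b s +
        (![0, 1, 0] : Fin 3 → ℝ) 2 * τ s) = b := by
      funext s
      simp
    have e2 : (fun s => (![0, 0, 1] : Fin 3 → ℝ) 0 * η s + (![0, 0, 1] : Fin 3 → ℝ) 1 * b s +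
        (![0, 0, 1] : Fin 3 → ℝ) 2 * τ s) = τ := by
      funext s
      simp
    rwa [e1, e2] at this
  refine ⟨hτ, hτc, ?_⟩
  have := h₂ l r b id τ hlr hb hid hτ ib b1 b2 ![0, 1, 0] ![0, 0, 1]
  have e1 : (fun s => (![0, 1, 0] : Fin 3 → ℝ) 0 * b s + (![0, 1, 0] : Fin 3 → ℝ) 1 * id s +
      (![0, 1, 0] : Fin 3 → ℝ) 2 * τ s) = id := by
    funext s
    simp
  have e2 : (fun s => (![0, 0, 1] : Fin 3 → ℝ) 0 * b s + (![0, 0, 1] : Fin 3 → ℝ) 1 * id s +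
      (![0, 0, 1] : Fin 3 → ℝ) 2 * τ s) = τ := by
    funext s
    simp
  rwa [e1, e2] at this

theorem zero_bound (D : ℕ) : ∃ Z : ℕ, ∀ (p : MvPolynomial (Fin 2) ℝ), p ≠ 0 → p.totalDegree ≤ D →
    ∀ (Ω : Set (ℝ × ℝ)), IsOpen Ω → Convex ℝ Ω → ∀ (A B : Fam p Ω) (z₁ z₁' z₂ z₂' : ℝ × ℝ),
    ¬ A.has z₁ → ¬ A.has z₁' → ¬ A.has z₂ → ¬ A.has z₂' →
    ¬ B.has z₁ → ¬ B.has z₁' → ¬ B.has z₂ → ¬ B.has z₂' →
    ∀ (l r : ℝ), l < r → ∀ (b₁ b₂ τ₁ τ₂ : ℝ → ℝ),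
    (∀ s ∈ Icc l r, Corr A B z₁ s (b₁ s) ∧ Corr A B z₁' (τ₁ s) (b₁ s)) →
    (∀ s ∈ Icc l r, Corr A B z₂ s (b₂ s) ∧ Corr A B z₂' (τ₂ s) (b₂ s)) →
    ∀ P : Finset ℝ, Z < P.card → (∀ s ∈ P, s ∈ Icc l r ∧ τ₁ s = τ₂ s) →
      ∀ s ∈ Icc l r, τ₁ s = τ₂ s := by
  classical
  obtain ⟨N₁, h₁⟩ := alg_comb D
  obtain ⟨N₂, h₂⟩ := alg_comb N₁
  obtain ⟨N₃, h₃⟩ := alg_comb N₂
  refine ⟨N₃ + 2, ?_⟩
  intro p hp hdeg Ω hΩ hc A B z₁ z₁' z₂ z₂' a1 a2 a3 a4 c1 c2 c3 c4 l r hlr b₁ b₂ τ₁ τ₂ hh₁ hh₂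
    P hP hPz
  obtain ⟨t1, t2, t3⟩ := one D N₁ N₂ h₁ h₂ p hp hdeg Ω hΩ hc A B z₁ z₁' a1 c1 c2 l r hlr b₁ τ₁ hh₁
  obtain ⟨u1, u2, u3⟩ := one D N₁ N₂ h₁ h₂ p hp hdeg Ω hΩ hc A B z₂ z₂' a3 c3 c4 l r hlr b₂ τ₂ hh₂
  have hid : AnalyticOnNhd ℝ (id : ℝ → ℝ) (Ioo l r) := analyticOnNhd_id
  have key : AlgDep N₃ (Ioo l r) id (fun s => τ₁ s - τ₂ s) := by
    have := h₃ l r id τ₁ τ₂ hlr hid t1 u1 (injOn_id _) t3 u3 ![1, 0, 0] ![0, 1, -1]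
    have e1 : (fun s => (![1, 0, 0] : Fin 3 → ℝ) 0 * id s + (![1, 0, 0] : Fin 3 → ℝ) 1 * τ₁ s +
        (![1, 0, 0] : Fin 3 → ℝ) 2 * τ₂ s) = id := by
      funext s
      simp
    have e2 : (fun s => (![0, 1, -1] : Fin 3 → ℝ) 0 * id s + (![0, 1, -1] : Fin 3 → ℝ) 1 * τ₁ s +
        (![0, 1, -1] : Fin 3 → ℝ) 2 * τ₂ s) = fun s => τ₁ s - τ₂ s := by
      funext s
      simp
      ring
    rwa [e1, e2] at this
  have hz : ∀ s ∈ Ioo l r, τ₁ s - τ₂ s = 0 := by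
    refine zero_count hlr (t1.sub u1) key (P.filter fun s => s ∈ Ioo l r) ?_ ?_
    · intro s hs
      rw [Finset.mem_filter] at hs
      exact ⟨hs.2, sub_eq_zero.2 (hPz s hs.1).2⟩
    · have hsub : P ⊆ (P.filter fun s => s ∈ Ioo l r) ∪ {l, r} := by
        intro s hs
        rw [Finset.mem_union, Finset.mem_filter]
        by_cases h : s ∈ Ioo l r
        · exact Or.inl ⟨hs, h⟩
        · right
          have h1 := (hPz s hs).1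
          simp only [mem_Ioo, not_and, not_lt] at h
          rcases eq_or_lt_of_le h1.1 with h2 | h2
          · simp [h2]
          · have h3 := le_antisymm h1.2 (h h2)
            simp [h3]
      have h1 := Finset.card_le_card hsub
      have h2 := Finset.card_union_le (P.filter fun s => s ∈ Ioo l r) {l, r}
      have h3 : ({l, r} : Finset ℝ).card ≤ 2 := Finset.card_le_two
      omega
  have hEq : EqOn τ₁ τ₂ (Ioo l r) := fun s hs => sub_eq_zero.1 (hz s hs)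
  have := hEq.of_subset_closure t2 u2 Ioo_subset_Icc_self (by rw [closure_Ioo hlr.ne])
  exact fun s hs => this hs

end Pool.ACA
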