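import Pool.Agent.Lib.MP_aca35e_co.Defs
import Pool.Agent.Lib.MP_aca35e_co.GDefs
import Pool.Agent.Lib.MP_aca35e_co.P1
import Pool.Agent.Lib.MP_aca35e_co.G1
import Pool.Agent.Lib.MP_aca35e_co.G2
import Pool.Agent.Lib.MP_aca35e_co.G5
import Pool.Agent.Lib.MP_aca35e_co.Z5

/-!
# MP_aca35e_co, row G6

From the bipartite pattern to the perfect grid (assembly). `Z` from `zero_bound` (Z5), `S` from `iterate` (G5). Given `k : KGrid p M S'` with `S' = max S 2`: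
`imin, imax, jmin, jmax` = min and max of `I`, `J`. `rect` (G1) for the four corners (from `inc`, first point), `F_facts` (G2): `F`. `Mono2`. `ZB F ... Z`: given `t, t', v, v'`, the
lines `z = (t, C.φ t)` etc. are in `C` (`mem`), so not in `A`, `B` (`Disj`); `Corr A B z s (F s t)` by `F_facts`, and `F (τ₁ s) t' = F s t` gives
`Corr A B z' (τ₁ s) (F s t)`. Use Z5. `ZB` of the flipped function: the same with `(C, B)` and lines `(s, A.φ s)`. The identity for `i ∈ I`, `b ∈ J`: the second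
point `Y` of `inc` has `A.par Y = s (i + δ)`, `C.par Y = t (b+ε)`, so `B.par Y = F ..` by `par_inj`, and `s (i+δ) ∈ [s imin, s imax]` etc. by monotonicity.
Grid: `x a = (x a, A.φ (x a))`, `z c = (z c, C.φ (z c))`, `y e = (y e, B.φ (y e))`, `Q a c` = the point with parameters `(x a, z c)`; `par_of_has` (P1) gives the
incidences. For `y e` with `|e| ≤ n`: write `e = c - a` with `a, c ≤ n`, `y e = F (x a) (z c) ∈ B.U`.
-/

set_option autoImplicit false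
set_option linter.unusedVariables false

namespace Pool.ACA

open Set Filter Topology

private theorem has_of_par {p : MvPolynomial (Fin 2) ℝ} {Ω : Set (ℝ × ℝ)} (A : Fam p Ω) {u : ℝ}
    (h : ∃ X ∈ Ω, A.par X = u) : A.has (u, A.φ u) := by
  obtain ⟨X, hX, rfl⟩ := h
  exact ⟨A.mem X hX, rfl⟩

private theorem zb_aux {p : MvPolynomial (Fin 2) ℝ} {Ω : Set (ℝ × ℝ)} {D Z : ℕ}
    (hZ : ∀ (p : MvPolynomial (Fin 2) ℝ), p ≠ 0 → p.totalDegree ≤ D →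
      ∀ (Ω : Set (ℝ × ℝ)), IsOpen Ω → Convex ℝ Ω → ∀ (A B : Fam p Ω) (z₁ z₁' z₂ z₂' : ℝ × ℝ),
      ¬ A.has z₁ → ¬ A.has z₁' → ¬ A.has z₂ → ¬ A.has z₂' →
      ¬ B.has z₁ → ¬ B.has z₁' → ¬ B.has z₂ → ¬ B.has z₂' →
      ∀ (l r : ℝ), l < r → ∀ (b₁ b₂ τ₁ τ₂ : ℝ → ℝ),
      (∀ s ∈ Icc l r, Corr A B z₁ s (b₁ s) ∧ Corr A B z₁' (τ₁ s) (b₁ s)) →
      (∀ s ∈ Icc l r, Corr A B z₂ s (b₂ s) ∧ Corr A B z₂' (τ₂ s) (b₂ s)) →
      ∀ P : Finset ℝ, Z < P.card → (∀ s ∈ P, s ∈ Icc l r ∧ τ₁ s = τ₂ s) →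
        ∀ s ∈ Icc l r, τ₁ s = τ₂ s)
    (hp : p ≠ 0) (hD : p.totalDegree ≤ D) (ho : IsOpen Ω) (hc : Convex ℝ Ω)
    (A B C : Fam p Ω) (hAC : A.Disj C) (hBC : B.Disj C) (F : ℝ → ℝ → ℝ) (s₁ s₂ t₁ t₂ : ℝ)
    (hs : s₁ ≤ s₂)
    (hF : ∀ s ∈ Icc s₁ s₂, ∀ t ∈ Icc t₁ t₂,
      ∃ X ∈ Ω, A.par X = s ∧ C.par X = t ∧ B.par X = F s t) :
    ZB F s₁ s₂ t₁ t₂ Z := by
  intro a b ha hab hb t ht t' ht' v hv v' hv' τ₁ τ₂ h1 h2 P hP hPeq
  have hC : ∀ t ∈ Icc t₁ t₂, C.has (t, C.φ t) := by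
    intro t ht
    obtain ⟨X, hX, _, h2, _⟩ := hF s₁ ⟨le_refl _, hs⟩ t ht
    exact has_of_par C ⟨X, hX, h2⟩
  have hnA : ∀ t ∈ Icc t₁ t₂, ¬ A.has (t, C.φ t) := fun t ht h => hAC _ ⟨h, hC t ht⟩
  have hnB : ∀ t ∈ Icc t₁ t₂, ¬ B.has (t, C.φ t) := fun t ht h => hBC _ ⟨h, hC t ht⟩
  have hcorr : ∀ s ∈ Icc s₁ s₂, ∀ t ∈ Icc t₁ t₂, Corr A B (t, C.φ t) s (F s t) := by
    intro s hs t ht
    obtain ⟨X, hX, h1, h2, h3⟩ := hF s hs t ht
    refine ⟨X, hX, ?_, h1, h3⟩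
    have := C.inc X hX
    rw [h2] at this
    exact this
  have hsub : ∀ s ∈ Icc a b, s ∈ Icc s₁ s₂ := fun s hs => ⟨ha.trans hs.1, hs.2.trans hb⟩
  refine hZ p hp hD Ω ho hc A B (t, C.φ t) (t', C.φ t') (v, C.φ v) (v', C.φ v')
    (hnA t ht) (hnA t' ht') (hnA v hv) (hnA v' hv') (hnB t ht) (hnB t' ht') (hnB v hv)
    (hnB v' hv') a b hab (fun s => F s t) (fun s => F s v) τ₁ τ₂ ?_ ?_ P hP hPeq
  · intro s hs
    refine ⟨hcorr s (hsub s hs) t ht, ?_⟩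
    have h := hcorr (τ₁ s) (h1 s hs).1 t' ht'
    rw [(h1 s hs).2] at h
    exact h
  · intro s hs
    refine ⟨hcorr s (hsub s hs) v hv, ?_⟩
    have h := hcorr (τ₂ s) (h2 s hs).1 v' hv'
    rw [(h2 s hs).2] at h
    exact h

private theorem grid_aux {p : MvPolynomial (Fin 2) ℝ} {Ω : Set (ℝ × ℝ)} (A B C : Fam p Ω)
    (F : ℝ → ℝ → ℝ) (s₁ s₂ t₁ t₂ : ℝ) (n : ℕ)
    (hF : ∀ s ∈ Icc s₁ s₂, ∀ t ∈ Icc t₁ t₂,
      ∃ X ∈ Ω, A.par X = s ∧ C.par X = t ∧ B.par X = F s t)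
    (x z : ℕ → ℝ) (y : ℤ → ℝ) (hx : ∀ a ≤ n, x a ∈ Icc s₁ s₂) (hz : ∀ c ≤ n, z c ∈ Icc t₁ t₂)
    (xi : ∀ a ≤ n, ∀ a' ≤ n, x a = x a' → a = a') (zi : ∀ c ≤ n, ∀ c' ≤ n, z c = z c' → c = c')
    (yi : ∀ e e' : ℤ, |e| ≤ n → |e'| ≤ n → y e = y e' → e = e')
    (hy : ∀ a ≤ n, ∀ c ≤ n, F (x a) (z c) = y ((c : ℤ) - a)) : Nonempty (Grid p n) := by
  classical
  have hQ : ∀ a c : ℕ, ∃ X : ℝ × ℝ, a ≤ n → c ≤ n →
      X ∈ Ω ∧ A.par X = x a ∧ C.par X = z c ∧ B.par X = y ((c : ℤ) - a) := by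
    intro a c
    by_cases h : a ≤ n ∧ c ≤ n
    · obtain ⟨X, hX, h1, h2, h3⟩ := hF (x a) (hx a h.1) (z c) (hz c h.2)
      exact ⟨X, fun _ _ => ⟨hX, h1, h2, h3.trans (hy a h.1 c h.2)⟩⟩
    · exact ⟨0, fun h1 h2 => absurd ⟨h1, h2⟩ h⟩
  choose Q hQ using hQ
  have hA : ∀ a ≤ n, A.has (x a, A.φ (x a)) := fun a ha =>
    has_of_par A ⟨Q a 0, (hQ a 0 ha (Nat.zero_le _)).1, (hQ a 0 ha (Nat.zero_le _)).2.1⟩
  have hC : ∀ c ≤ n, C.has (z c, C.φ (z c)) := fun c hc =>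
    has_of_par C ⟨Q 0 c, (hQ 0 c (Nat.zero_le _) hc).1, (hQ 0 c (Nat.zero_le _) hc).2.2.1⟩
  have hB : ∀ e : ℤ, |e| ≤ n → B.has (y e, B.φ (y e)) := by
    intro e he
    have hex : ∃ a ≤ n, ∃ c ≤ n, e = (c : ℤ) - (a : ℤ) := by
      rcases le_total 0 e with h0 | h0
      · rw [abs_of_nonneg h0] at he
        refine ⟨0, Nat.zero_le _, e.toNat, ?_, ?_⟩
        · omega
        · push_cast
          omega
      · rw [abs_of_nonpos h0] at he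
        refine ⟨(-e).toNat, ?_, 0, Nat.zero_le _, ?_⟩
        · omega
        · push_cast
          omega
    obtain ⟨a, ha, c, hc, rfl⟩ := hex
    exact has_of_par B ⟨Q a c, (hQ a c ha hc).1, (hQ a c ha hc).2.2.2⟩
  refine ⟨⟨fun a => (x a, A.φ (x a)), fun e => (y e, B.φ (y e)), fun c => (z c, C.φ (z c)), Q,
    ?_, ?_, ?_, ?_, ?_, ?_⟩⟩
  · intro a ha
    exact A.zero _ (hA a ha).1
  · intro e he
    exact B.zero _ (hB e he).1
  · intro c hc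
    exact C.zero _ (hC c hc).1
  · intro a ha c hc a' ha'
    have h := hQ a c ha hc
    rw [par_of_has A (Q a c) _ h.1 (hA a' ha'), h.2.1]
    constructor
    · intro h'
      exact (xi a ha a' ha' h').symm
    · rintro rfl
      rfl
  · intro a ha c hc c' hc'
    have h := hQ a c ha hc
    rw [par_of_has C (Q a c) _ h.1 (hC c' hc'), h.2.2.1]
    constructor
    · intro h'
      exact (zi c hc c' hc' h').symm
    · rintro rfl
      rfl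
  · intro a ha c hc e he
    have h := hQ a c ha hc
    rw [par_of_has B (Q a c) _ h.1 (hB e he), h.2.2.2]
    constructor
    · intro h'
      refine (yi _ _ ?_ he h').symm
      rw [abs_le]
      constructor <;> omega
    · rintro rfl
      rfl

theorem kgrid_grid (D n M : ℕ) : ∃ S, ∀ (p : MvPolynomial (Fin 2) ℝ), p ≠ 0 →
    p.totalDegree ≤ D → KGrid p M S → Nonempty (Grid p n) := by
  obtain ⟨Z, hZ⟩ := zero_bound D
  obtain ⟨S, hS⟩ := iterate Z n M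
  refine ⟨max S 1, fun p hp hD k => ?_⟩
  have hIne : k.I.Nonempty := Finset.card_pos.1 (lt_of_lt_of_le (by omega) k.cardI)
  have hJne : k.J.Nonempty := Finset.card_pos.1 (lt_of_lt_of_le (by omega) k.cardJ)
  obtain ⟨imin, himin, himin'⟩ : ∃ i ∈ k.I, ∀ j ∈ k.I, i ≤ j :=
    ⟨k.I.min' hIne, Finset.min'_mem _ _, fun j hj => Finset.min'_le _ _ hj⟩
  obtain ⟨imax, himax, himax'⟩ : ∃ i ∈ k.I, ∀ j ∈ k.I, j ≤ i :=
    ⟨k.I.max' hIne, Finset.max'_mem _ _, fun j hj => Finset.le_max' _ _ hj⟩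
  obtain ⟨jmin, hjmin, hjmin'⟩ : ∃ i ∈ k.J, ∀ j ∈ k.J, i ≤ j :=
    ⟨k.J.min' hJne, Finset.min'_mem _ _, fun j hj => Finset.min'_le _ _ hj⟩
  obtain ⟨jmax, hjmax, hjmax'⟩ : ∃ i ∈ k.J, ∀ j ∈ k.J, j ≤ i :=
    ⟨k.J.max' hJne, Finset.max'_mem _ _, fun j hj => Finset.le_max' _ _ hj⟩
  have sm : ∀ i j, i ≤ j → j ≤ k.r → k.s i ≤ k.s j := by
    intro i j hij hj
    rcases hij.lt_or_eq with h | h
    · exact (k.smono i j h hj).le
    · rw [h]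
  have tm : ∀ i j, i ≤ j → j ≤ k.q → k.t i ≤ k.t j := by
    intro i j hij hj
    rcases hij.lt_or_eq with h | h
    · exact (k.tmono i j h hj).le
    · rw [h]
  have himr : imax ≤ k.r := by
    have := k.hI imax himax
    omega
  have hjmq : jmax ≤ k.q := (k.hJ jmax hjmax).1
  have corner : ∀ i ∈ k.I, ∀ b ∈ k.J, ∃ X ∈ k.Ω, k.A.par X = k.s i ∧ k.C.par X = k.t b := by
    intro i hi b hb
    obtain ⟨X, hX, _, _, h1, h2, _⟩ := k.inc i hi b hb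
    exact ⟨X, hX, h1, h2⟩
  have hs12 : k.s imin ≤ k.s imax := sm _ _ (himin' _ himax) himr
  have ht12 : k.t jmin ≤ k.t jmax := tm _ _ (hjmin' _ hjmax) hjmq
  have hr := rect k.convex_Ω k.A k.C k.AC (k.s imin) (k.s imax) (k.t jmin) (k.t jmax) hs12 ht12
    (corner _ himin _ hjmin) (corner _ himin _ hjmax) (corner _ himax _ hjmin)
    (corner _ himax _ hjmax)
  obtain ⟨F, hF, hF2, hF3⟩ := F_facts k.convex_Ω k.A k.B k.C k.AB k.AC k.BC (k.s imin)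
    (k.s imax) (k.t jmin) (k.t jmax) hr
  have hZ1 : ZB F (k.s imin) (k.s imax) (k.t jmin) (k.t jmax) Z :=
    zb_aux hZ hp hD k.open_Ω k.convex_Ω k.A k.B k.C k.AC k.BC F _ _ _ _ hs12 hF
  have hZ2 : ZB (fun t s => F s t) (k.t jmin) (k.t jmax) (k.s imin) (k.s imax) Z := by
    refine zb_aux hZ hp hD k.open_Ω k.convex_Ω k.C k.B k.A (fun w hw => k.AC w hw.symm)
      (fun w hw => k.AB w hw.symm) (fun t s => F s t) _ _ _ _ ht12 ?_
    intro t ht s hs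
    obtain ⟨X, hX, h1, h2, h3⟩ := hF s hs t ht
    exact ⟨X, hX, h2, h1, h3⟩
  have hFpar : ∀ X ∈ k.Ω, k.A.par X ∈ Icc (k.s imin) (k.s imax) →
      k.C.par X ∈ Icc (k.t jmin) (k.t jmax) → k.B.par X = F (k.A.par X) (k.C.par X) := by
    intro X hX h1 h2
    obtain ⟨X', hX', h1', h2', h3'⟩ := hF _ h1 _ h2
    have : X' = X := par_inj k.A k.C k.AC X' X hX' hX h1' h2'
    rw [this] at h3'
    exact h3'
  have hid : ∀ i ∈ k.I, ∀ b ∈ k.J, i + k.δ ≤ imax → (jmin : ℤ) ≤ b + k.ε →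
      (b : ℤ) + k.ε ≤ jmax →
      F (k.s i) (k.t b) = F (k.s (i + k.δ)) (k.t ((b : ℤ) + k.ε).toNat) := by
    intro i hi b hb h1 h2 h3
    obtain ⟨X, hX, Y, hY, e1, e2, e3, e4, e5⟩ := k.inc i hi b hb
    have hii := himin' i hi
    have hii' := himax' i hi
    have hbb := hjmin' b hb
    have hbb' := hjmax' b hb
    have a1 : k.A.par X ∈ Icc (k.s imin) (k.s imax) := by
      rw [e1]
      exact ⟨sm _ _ hii (by omega), sm _ _ hii' himr⟩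
    have a2 : k.C.par X ∈ Icc (k.t jmin) (k.t jmax) := by
      rw [e2]
      exact ⟨tm _ _ hbb (by omega), tm _ _ hbb' hjmq⟩
    have a3 : k.A.par Y ∈ Icc (k.s imin) (k.s imax) := by
      rw [e3]
      exact ⟨sm _ _ (by omega) (by omega), sm _ _ h1 himr⟩
    have a4 : k.C.par Y ∈ Icc (k.t jmin) (k.t jmax) := by
      rw [e4]
      exact ⟨tm _ _ (by omega) (by omega), tm _ _ (by omega) hjmq⟩
    have b1 := hFpar X hX a1 a2
    have b2 := hFpar Y hY a3 a4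
    rw [e1, e2] at b1
    rw [e3, e4] at b2
    rw [← b1, ← b2, e5]
  obtain ⟨x, z, y, hx, hz, xi, zi, yi, hy⟩ := hS F k.s k.t k.r k.q k.δ k.ε k.I k.J imin imax
    jmin jmax (le_trans (le_max_left _ _) k.cardI) (le_trans (le_max_left _ _) k.cardJ) himin himax
    (fun i hi => ⟨himin' i hi, himax' i hi⟩) hjmin hjmax (fun b hb => ⟨hjmin' b hb, hjmax' b hb⟩)
    k.smono k.tmono k.hδ k.hδM k.hε k.hεM k.hI k.hJ ⟨hF2, hF3⟩ hZ1 hZ2 hid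
  exact grid_aux k.A k.B k.C F _ _ _ _ n hF x z y hx hz xi zi yi hy

end Pool.ACA
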