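import Pool.Agent.Lib.MP_aca35e_co.Defs

/-!
# MP_aca35e_co, row H1

Chasles' theorem. `ℓ i` and `m j` are the six lines `{w | ev w (ℓ i).1 = (ℓ i).2}` of the dual plane (affine functions `λ i w = ev w (ℓ i).1 - (ℓ i).2`, `μ j`); the nine
points `P i j` are `ℓ i ∩ m j`, and `P i j` is on no other of the six lines. The cubic `q` vanishes at eight of them. Proof: `λ 0` and `μ 0` are different lines
meeting in `P 0 0`, so they have different slopes and `(λ 0, μ 0)` are affine coordinates `(X, Y)` of the plane. Let `L = λ 0 λ 1 λ 2`, `M = μ 0 μ 1 μ 2`. On the line `X = 0` the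
cubic `q` is a polynomial of degree `≤ 3` in `Y` with the three zeros of `M` (the points `P 0 j`), so `q = β M` there; on `Y = 0`: `q = α L`. So
`h = q - α L - β M` vanishes on `X Y = 0`; as a polynomial of degree `≤ 3` in `X, Y`: `h = X Y (k₀ + k₁ X + k₂ Y)`. `h` vanishes at `P 1 1`, `P 1 2`, `P 2 1`, where `X Y ≠ 0`,
and these are not collinear (`P 1 1, P 1 2` on `ℓ 1`, `P 2 1` not), so `k = 0`, `h = 0`, and `q (P 2 2) = 0`. (Coordinates: `q` as a polynomial in `X, Y`: substitute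
`w = w(X, Y)` affine; write it with its ten coefficients.)
-/

set_option autoImplicit false
set_option linter.unusedVariables false

namespace Pool.ACA

open Set Filter Topology

/-- functions of two variables which are polynomials of degree at most three -/
private def Cub (g : ℝ → ℝ → ℝ) : Prop :=
  ∃ c0 c1 c2 c3 c4 c5 c6 c7 c8 c9 : ℝ, ∀ x y, g x y = c0 + c1 * x + c2 * y + c3 * (x * x) +
    c4 * (x * y) + c5 * (y * y) + c6 * (x * x * x) + c7 * (x * x * y) + c8 * (x * y * y) +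
    c9 * (y * y * y)

private theorem cub_zero : Cub (fun _ _ => 0) :=
  ⟨0, 0, 0, 0, 0, 0, 0, 0, 0, 0, fun x y => by ring⟩

private theorem cub_add {g h : ℝ → ℝ → ℝ} (hg : Cub g) (hh : Cub h) :
    Cub (fun x y => g x y + h x y) := by
  obtain ⟨c0, c1, c2, c3, c4, c5, c6, c7, c8, c9, hc⟩ := hg
  obtain ⟨d0, d1, d2, d3, d4, d5, d6, d7, d8, d9, hd⟩ := hh
  refine ⟨c0 + d0, c1 + d1, c2 + d2, c3 + d3, c4 + d4, c5 + d5, c6 + d6, c7 + d7, c8 + d8,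
    c9 + d9, fun x y => ?_⟩
  simp only [hc, hd]
  ring

private theorem cub_mon (a : ℝ) (i j : ℕ) (hij : i + j ≤ 3) :
    Cub (fun x y => a * (x ^ i * y ^ j)) := by
  have hi : i ≤ 3 := by omega
  have hj : j ≤ 3 := by omega
  interval_cases i <;> interval_cases j <;> try omega
  · exact ⟨a, 0, 0, 0, 0, 0, 0, 0, 0, 0, fun x y => by ring⟩
  · exact ⟨0, 0, a, 0, 0, 0, 0, 0, 0, 0, fun x y => by ring⟩
  · exact ⟨0, 0, 0, 0, 0, a, 0, 0, 0, 0, fun x y => by ring⟩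
  · exact ⟨0, 0, 0, 0, 0, 0, 0, 0, 0, a, fun x y => by ring⟩
  · exact ⟨0, a, 0, 0, 0, 0, 0, 0, 0, 0, fun x y => by ring⟩
  · exact ⟨0, 0, 0, 0, a, 0, 0, 0, 0, 0, fun x y => by ring⟩
  · exact ⟨0, 0, 0, 0, 0, 0, 0, 0, a, 0, fun x y => by ring⟩
  · exact ⟨0, 0, 0, a, 0, 0, 0, 0, 0, 0, fun x y => by ring⟩
  · exact ⟨0, 0, 0, 0, 0, 0, 0, a, 0, 0, fun x y => by ring⟩
  · exact ⟨0, 0, 0, 0, 0, 0, a, 0, 0, 0, fun x y => by ring⟩

private theorem cub_pv (q : MvPolynomial (Fin 2) ℝ) (hq : q.totalDegree ≤ 3) :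
    Cub (fun x y => pv q (x, y)) := by
  have h1 : ∀ S : Finset (Fin 2 →₀ ℕ), S ⊆ q.support →
      Cub (fun x y => ∑ d ∈ S, MvPolynomial.coeff d q * (x ^ (d 0) * y ^ (d 1))) := by
    intro S
    induction S using Finset.induction_on with
    | empty => intro _; simpa using cub_zero
    | insert d S hd ih =>
      intro hS
      have h2 := ih (fun e he => hS (Finset.mem_insert_of_mem he))
      have h3 : d ∈ q.support := hS (Finset.mem_insert_self _ _)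
      have h4 := MvPolynomial.le_totalDegree h3
      have h5 : d 0 + d 1 ≤ 3 := by
        have : (d.sum fun _ e => e) = d 0 + d 1 := by
          rw [Finsupp.sum_fintype _ _ (fun _ => rfl)]
          simp
        omega
      have h6 := cub_add (cub_mon (MvPolynomial.coeff d q) (d 0) (d 1) h5) h2
      simpa only [Finset.sum_insert hd] using h6
  have h2 := h1 q.support (Finset.Subset.refl _)
  have h3 : (fun x y => pv q (x, y)) =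
      fun x y => ∑ d ∈ q.support, MvPolynomial.coeff d q * (x ^ (d 0) * y ^ (d 1)) := by
    funext x y
    unfold pv
    rw [MvPolynomial.eval_eq']
    simp
  rw [h3]
  exact h2

private theorem cub_subst {g : ℝ → ℝ → ℝ} (hg : Cub g) (p q r s t u : ℝ) :
    Cub (fun x y => g (p * x + q * y + r) (s * x + t * y + u)) := by
  obtain ⟨c0, c1, c2, c3, c4, c5, c6, c7, c8, c9, hc⟩ := hg
  refine ⟨c0 + c1*r + c2*u + c3*r*r + c4*r*u + c5*u*u + c6*r*r*r + c7*r*r*u + c8*r*u*u + c9*u*u*u,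
c1*p + c2*s + 2*c3*p*r + c4*p*u + c4*r*s + 2*c5*s*u + 3*c6*p*r*r + 2*c7*p*r*u + c7*r*r*s + c8*p*u*u + 2*c8*r*s*u + 3*c9*s*u*u,
c1*q + c2*t + 2*c3*q*r + c4*q*u + c4*r*t + 2*c5*t*u + 3*c6*q*r*r + 2*c7*q*r*u + c7*r*r*t + c8*q*u*u + 2*c8*r*t*u + 3*c9*t*u*u,
c3*p*p + c4*p*s + c5*s*s + 3*c6*p*p*r + c7*p*p*u + 2*c7*p*r*s + 2*c8*p*s*u + c8*r*s*s + 3*c9*s*s*u,
2*c3*p*q + c4*p*t + c4*q*s + 2*c5*s*t + 6*c6*p*q*r + 2*c7*p*q*u + 2*c7*p*r*t + 2*c7*q*r*s + 2*c8*p*t*u + 2*c8*q*s*u + 2*c8*r*s*t + 6*c9*s*t*u,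
c3*q*q + c4*q*t + c5*t*t + 3*c6*q*q*r + c7*q*q*u + 2*c7*q*r*t + 2*c8*q*t*u + c8*r*t*t + 3*c9*t*t*u,
c6*p*p*p + c7*p*p*s + c8*p*s*s + c9*s*s*s,
3*c6*p*p*q + c7*p*p*t + 2*c7*p*q*s + 2*c8*p*s*t + c8*q*s*s + 3*c9*s*s*t,
3*c6*p*q*q + 2*c7*p*q*t + c7*q*q*s + c8*p*t*t + 2*c8*q*s*t + 3*c9*s*t*t,
c6*q*q*q + c7*q*q*t + c8*q*t*t + c9*t*t*t, fun x y => ?_⟩
  simp only [hc]
  ring

private theorem core {g : ℝ → ℝ → ℝ} (hg : Cub g)
    {x1 x2 y1 y2 s1 t1 u1 s2 t2 u2 p1 q1 r1 p2 q2 r2 a1 b1 a2 b2 a3 b3 a4 b4 : ℝ}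
    (g0 : g 0 0 = 0) (gx1 : g x1 0 = 0) (gx2 : g x2 0 = 0) (gy1 : g 0 y1 = 0) (gy2 : g 0 y2 = 0)
    (hx1 : x1 ≠ 0) (hx2 : x2 ≠ 0) (hx : x1 ≠ x2) (hy1 : y1 ≠ 0) (hy2 : y2 ≠ 0) (hy : y1 ≠ y2)
    (l1 : s1 * x1 + u1 = 0) (l2 : s2 * x2 + u2 = 0) (hu1 : u1 ≠ 0) (hu2 : u2 ≠ 0)
    (m1 : q1 * y1 + r1 = 0) (m2 : q2 * y2 + r2 = 0) (hr1 : r1 ≠ 0) (hr2 : r2 ≠ 0)
    (ha1 : a1 ≠ 0) (hb1 : b1 ≠ 0) (ha2 : a2 ≠ 0) (hb2 : b2 ≠ 0) (ha3 : a3 ≠ 0) (hb3 : b3 ≠ 0)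
    (L1 : s1 * a1 + t1 * b1 + u1 = 0) (L2 : s1 * a2 + t1 * b2 + u1 = 0)
    (L3 : s1 * a3 + t1 * b3 + u1 ≠ 0) (L3' : s2 * a3 + t2 * b3 + u2 = 0)
    (L4 : s2 * a4 + t2 * b4 + u2 = 0)
    (M1 : p1 * a1 + q1 * b1 + r1 = 0) (M2 : p1 * a2 + q1 * b2 + r1 ≠ 0)
    (M2' : p2 * a2 + q2 * b2 + r2 = 0) (M3 : p1 * a3 + q1 * b3 + r1 = 0)
    (M4 : p2 * a4 + q2 * b4 + r2 = 0)
    (G1 : g a1 b1 = 0) (G2 : g a2 b2 = 0) (G3 : g a3 b3 = 0) : g a4 b4 = 0 := by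
  obtain ⟨k0, k1, k2, k3, k4, k5, k6, k7, k8, k9, hk⟩ := hg
  have hs1 : s1 ≠ 0 := by rintro rfl; apply hu1; linarith
  have hs2 : s2 ≠ 0 := by rintro rfl; apply hu2; linarith
  have hq1 : q1 ≠ 0 := by rintro rfl; apply hr1; linarith
  have hq2 : q2 ≠ 0 := by rintro rfl; apply hr2; linarith
  rw [hk] at g0 gx1 gx2 gy1 gy2
  have e0 : k0 = 0 := by linarith
  have ex1 : k1 + k3 * x1 + k6 * (x1 * x1) = 0 := by
    apply mul_left_cancel₀ hx1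
    linear_combination gx1 - e0
  have ex2 : k1 + k3 * x2 + k6 * (x2 * x2) = 0 := by
    apply mul_left_cancel₀ hx2
    linear_combination gx2 - e0
  have e3 : k3 + k6 * (x1 + x2) = 0 := by
    apply mul_left_cancel₀ (sub_ne_zero.2 hx)
    linear_combination ex1 - ex2
  have e1 : k1 = k6 * (x1 * x2) := by linear_combination ex1 - x1 * e3
  have ey1 : k2 + k5 * y1 + k9 * (y1 * y1) = 0 := by
    apply mul_left_cancel₀ hy1
    linear_combination gy1 - e0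
  have ey2 : k2 + k5 * y2 + k9 * (y2 * y2) = 0 := by
    apply mul_left_cancel₀ hy2
    linear_combination gy2 - e0
  have e5 : k5 + k9 * (y1 + y2) = 0 := by
    apply mul_left_cancel₀ (sub_ne_zero.2 hy)
    linear_combination ey1 - ey2
  have e2 : k2 = k9 * (y1 * y2) := by linear_combination ey1 - y1 * e5
  obtain ⟨α, hα⟩ : ∃ α, α * (s1 * s2) = k6 := ⟨k6 / (s1 * s2), by field_simp⟩
  obtain ⟨β, hβ⟩ : ∃ β, β * (q1 * q2) = k9 := ⟨k9 / (q1 * q2), by field_simp⟩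
  obtain ⟨c0, hc0⟩ : ∃ c, c = k4 - α * (t1 * u2 + t2 * u1) - β * (p1 * r2 + p2 * r1) := ⟨_, rfl⟩
  obtain ⟨c1, hc1⟩ : ∃ c, c = k7 - α * (s1 * t2 + s2 * t1) - β * (p1 * p2) := ⟨_, rfl⟩
  obtain ⟨c2, hc2⟩ : ∃ c, c = k8 - α * (t1 * t2) - β * (p1 * q2 + p2 * q1) := ⟨_, rfl⟩
  have eu1 : u1 = - s1 * x1 := by linarith
  have eu2 : u2 = - s2 * x2 := by linarith
  have er1 : r1 = - q1 * y1 := by linarith
  have er2 : r2 = - q2 * y2 := by linarith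
  have key : ∀ x y, g x y = α * (x * (s1 * x + t1 * y + u1) * (s2 * x + t2 * y + u2)) +
      β * (y * (p1 * x + q1 * y + r1) * (p2 * x + q2 * y + r2)) +
      x * y * (c0 + c1 * x + c2 * y) := by
    intro x y
    have e3' : k3 = - (k6 * (x1 + x2)) := by linarith
    have e5' : k5 = - (k9 * (y1 + y2)) := by linarith
    rw [hk, hc0, hc1, hc2, e0, e1, e2, e3', e5', ← hα, ← hβ, eu1, eu2, er1, er2]
    ring
  have f1 : c0 + c1 * a1 + c2 * b1 = 0 := by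
    have h := key a1 b1
    rw [G1, L1, M1] at h
    have h2 : (a1 * b1) * (c0 + c1 * a1 + c2 * b1) = 0 := by linear_combination -h
    exact (mul_eq_zero.1 h2).resolve_left (mul_ne_zero ha1 hb1)
  have f2 : c0 + c1 * a2 + c2 * b2 = 0 := by
    have h := key a2 b2
    rw [G2, L2, M2'] at h
    have h2 : (a2 * b2) * (c0 + c1 * a2 + c2 * b2) = 0 := by linear_combination -h
    exact (mul_eq_zero.1 h2).resolve_left (mul_ne_zero ha2 hb2)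
  have f3 : c0 + c1 * a3 + c2 * b3 = 0 := by
    have h := key a3 b3
    rw [G3, L3', M3] at h
    have h2 : (a3 * b3) * (c0 + c1 * a3 + c2 * b3) = 0 := by linear_combination -h
    exact (mul_eq_zero.1 h2).resolve_left (mul_ne_zero ha3 hb3)
  have hD : (a1 - a3) * (b2 - b3) - (a2 - a3) * (b1 - b3) ≠ 0 := by
    intro hD
    have hA : a1 - a2 = 0 := by
      apply mul_left_cancel₀ L3
      linear_combination (a1 - a2) * L1 + (-a1 + a3) * L1 + (a1 - a3) * L2 - t1 * hD + 0 * L3'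
    have hB : b1 - b2 = 0 := by
      apply mul_left_cancel₀ L3
      linear_combination (b1 - b2) * L1 + (-b1 + b3) * L1 + (b1 - b3) * L2 + s1 * hD
    apply M2
    have e1 : a2 = a1 := by linarith
    have e2 : b2 = b1 := by linarith
    rw [e1, e2]
    exact M1
  have z1 : c1 = 0 := by
    apply mul_left_cancel₀ hD
    linear_combination (b2 - b3) * (f1 - f3) - (b1 - b3) * (f2 - f3)
  have z2 : c2 = 0 := by
    apply mul_left_cancel₀ hD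
    linear_combination (a1 - a3) * (f2 - f3) - (a2 - a3) * (f1 - f3)
  have z0 : c0 = 0 := by
    rw [z1, z2] at f1
    linarith
  rw [key a4 b4, L4, M4, z0, z1, z2]
  ring

theorem chasles (q : MvPolynomial (Fin 2) ℝ) (hq : q.totalDegree ≤ 3) (ℓ m : Fin 3 → ℝ × ℝ)
    (P : Fin 3 → Fin 3 → ℝ × ℝ)
    (hℓ : ∀ i j i', ev (P i j) (ℓ i').1 = (ℓ i').2 ↔ i' = i)
    (hm : ∀ i j j', ev (P i j) (m j').1 = (m j').2 ↔ j' = j)
    (h : ∀ i j, (i, j) ≠ (2, 2) → pv q (P i j) = 0) : pv q (P 2 2) = 0 := by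
  unfold ev at hℓ hm
  -- different slopes
  have hne : (ℓ 0).1 ≠ (m 0).1 := by
    intro he
    have h1 := (hℓ 0 0 0).2 rfl
    have h2 := (hm 0 0 0).2 rfl
    have h3 := (hℓ 0 1 0).2 rfl
    have h4 : ¬ ((P 0 1).2 - (P 0 1).1 * (m 0).1 = (m 0).2) := by
      intro h5
      have := (hm 0 1 0).1 h5
      exact absurd this (by decide)
    apply h4
    rw [← he, ← h2, ← he]
    linarith
  have hd : (ℓ 0).1 - (m 0).1 ≠ 0 := sub_ne_zero.2 hne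
  obtain ⟨κ, hκ⟩ : ∃ κ : ℝ, κ * ((m 0).1 - (ℓ 0).1) = 1 :=
    ⟨1 / ((m 0).1 - (ℓ 0).1), by
      have : (m 0).1 - (ℓ 0).1 ≠ 0 := sub_ne_zero.2 hne.symm
      field_simp⟩
  -- coordinates
  obtain ⟨X, hX⟩ : ∃ X : Fin 3 → Fin 3 → ℝ,
      ∀ i j, X i j = (P i j).2 - (P i j).1 * (ℓ 0).1 - (ℓ 0).2 := ⟨_, fun _ _ => rfl⟩
  obtain ⟨Y, hY⟩ : ∃ Y : Fin 3 → Fin 3 → ℝ,
      ∀ i j, Y i j = (P i j).2 - (P i j).1 * (m 0).1 - (m 0).2 := ⟨_, fun _ _ => rfl⟩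
  -- `w₁ = κ X - κ Y + κ (b - d)`, `w₂ = X + a w₁ + b`
  have hP1 : ∀ i j, (P i j).1 = κ * X i j + (-κ) * Y i j + κ * ((ℓ 0).2 - (m 0).2) := by
    intro i j
    rw [hX, hY]
    linear_combination -(P i j).1 * hκ
  have hP2 : ∀ i j, (P i j).2 = (1 + (ℓ 0).1 * κ) * X i j + (-(ℓ 0).1 * κ) * Y i j +
      ((ℓ 0).1 * κ * ((ℓ 0).2 - (m 0).2) + (ℓ 0).2) := by
    intro i j
    rw [hX, hY]
    linear_combination -(ℓ 0).1 * (P i j).1 * hκ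
  have hg := cub_subst (cub_pv q hq) κ (-κ) (κ * ((ℓ 0).2 - (m 0).2))
    (1 + (ℓ 0).1 * κ) (-(ℓ 0).1 * κ) ((ℓ 0).1 * κ * ((ℓ 0).2 - (m 0).2) + (ℓ 0).2)
  obtain ⟨g, hgdef⟩ : ∃ g : ℝ → ℝ → ℝ, g = fun x y => pv q
    (κ * x + (-κ) * y + κ * ((ℓ 0).2 - (m 0).2), (1 + (ℓ 0).1 * κ) * x + (-(ℓ 0).1 * κ) * y +
      ((ℓ 0).1 * κ * ((ℓ 0).2 - (m 0).2) + (ℓ 0).2)) := ⟨_, rfl⟩
  have hgc : Cub g := by rw [hgdef]; exact hg
  have hgP : ∀ i j, g (X i j) (Y i j) = pv q (P i j) := by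
    intro i j
    rw [hgdef]
    show pv q _ = _
    rw [← hP1, ← hP2]
  have hX0 : ∀ j, X 0 j = 0 := by
    intro j; have := (hℓ 0 j 0).2 rfl; rw [hX]; linarith
  have hY0 : ∀ i, Y i 0 = 0 := by
    intro i; have := (hm i 0 0).2 rfl; rw [hY]; linarith
  have hXne : ∀ i j, i ≠ 0 → X i j ≠ 0 := by
    intro i j hi h0
    rw [hX] at h0
    exact hi ((hℓ i j 0).1 (by linarith)).symm
  have hYne : ∀ i j, j ≠ 0 → Y i j ≠ 0 := by
    intro i j hj h0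
    rw [hY] at h0
    exact hj ((hm i j 0).1 (by linarith)).symm
  -- the other lines in the coordinates
  have hLam : ∀ k i j, (P i j).2 - (P i j).1 * (ℓ k).1 - (ℓ k).2 =
      (1 + (ℓ 0).1 * κ - κ * (ℓ k).1) * X i j + (-(ℓ 0).1 * κ + κ * (ℓ k).1) * Y i j +
      ((ℓ 0).1 * κ * ((ℓ 0).2 - (m 0).2) + (ℓ 0).2 - κ * ((ℓ 0).2 - (m 0).2) * (ℓ k).1 -
        (ℓ k).2) := by
    intro k i j
    rw [hP1 i j, hP2 i j]
    ring
  have hMu : ∀ k i j, (P i j).2 - (P i j).1 * (m k).1 - (m k).2 =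
      (1 + (ℓ 0).1 * κ - κ * (m k).1) * X i j + (-(ℓ 0).1 * κ + κ * (m k).1) * Y i j +
      ((ℓ 0).1 * κ * ((ℓ 0).2 - (m 0).2) + (ℓ 0).2 - κ * ((ℓ 0).2 - (m 0).2) * (m k).1 -
        (m k).2) := by
    intro k i j
    rw [hP1 i j, hP2 i j]
    ring
  obtain ⟨S, hS⟩ : ∃ S : Fin 3 → ℝ, ∀ k, S k = 1 + (ℓ 0).1 * κ - κ * (ℓ k).1 := ⟨_, fun _ => rfl⟩
  obtain ⟨T, hT⟩ : ∃ T : Fin 3 → ℝ, ∀ k, T k = -(ℓ 0).1 * κ + κ * (ℓ k).1 := ⟨_, fun _ => rfl⟩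
  obtain ⟨U, hU⟩ : ∃ U : Fin 3 → ℝ, ∀ k, U k = (ℓ 0).1 * κ * ((ℓ 0).2 - (m 0).2) + (ℓ 0).2 -
    κ * ((ℓ 0).2 - (m 0).2) * (ℓ k).1 - (ℓ k).2 := ⟨_, fun _ => rfl⟩
  obtain ⟨S', hS'⟩ : ∃ S : Fin 3 → ℝ, ∀ k, S k = 1 + (ℓ 0).1 * κ - κ * (m k).1 := ⟨_, fun _ => rfl⟩
  obtain ⟨T', hT'⟩ : ∃ T : Fin 3 → ℝ, ∀ k, T k = -(ℓ 0).1 * κ + κ * (m k).1 := ⟨_, fun _ => rfl⟩
  obtain ⟨U', hU'⟩ : ∃ U : Fin 3 → ℝ, ∀ k, U k = (ℓ 0).1 * κ * ((ℓ 0).2 - (m 0).2) + (ℓ 0).2 -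
    κ * ((ℓ 0).2 - (m 0).2) * (m k).1 - (m k).2 := ⟨_, fun _ => rfl⟩
  have hLam' : ∀ k i j, S k * X i j + T k * Y i j + U k = 0 ↔ k = i := by
    intro k i j
    rw [hS, hT, hU, ← hLam, ← hℓ i j k]
    constructor
    · intro h1; linarith
    · intro h1; linarith
  have hMu' : ∀ k i j, S' k * X i j + T' k * Y i j + U' k = 0 ↔ k = j := by
    intro k i j
    rw [hS', hT', hU', ← hMu, ← hm i j k]
    constructor
    · intro h1; linarith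
    · intro h1; linarith
  have hXd : X 1 0 ≠ X 2 0 := by
    intro he
    have h1 := (hLam' 1 1 0).2 rfl
    have h2 : ¬ (S 1 * X 2 0 + T 1 * Y 2 0 + U 1 = 0) := by
      rw [hLam']; decide
    apply h2
    rw [← he, hY0 2]
    rw [hY0 1] at h1
    exact h1
  have hYd : Y 0 1 ≠ Y 0 2 := by
    intro he
    have h1 := (hMu' 1 0 1).2 rfl
    have h2 : ¬ (S' 1 * X 0 2 + T' 1 * Y 0 2 + U' 1 = 0) := by
      rw [hMu']; decide
    apply h2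
    rw [← he, hX0 2]
    rw [hX0 1] at h1
    exact h1
  have gz : ∀ i j, (i, j) ≠ ((2 : Fin 3), (2 : Fin 3)) → g (X i j) (Y i j) = 0 := by
    intro i j hij
    rw [hgP, h i j hij]
  have G00 := gz 0 0 (by decide)
  have G10 := gz 1 0 (by decide)
  have G20 := gz 2 0 (by decide)
  have G01 := gz 0 1 (by decide)
  have G02 := gz 0 2 (by decide)
  rw [hX0, hY0] at G00
  rw [hY0] at G10 G20
  rw [hX0] at G01 G02
  have l1 := (hLam' 1 1 0).2 rfl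
  have l2 := (hLam' 2 2 0).2 rfl
  rw [hY0] at l1 l2
  have m1 := (hMu' 1 0 1).2 rfl
  have m2 := (hMu' 2 0 2).2 rfl
  rw [hX0] at m1 m2
  have hu1 : U 1 ≠ 0 := by
    intro h0
    have : ¬ (S 1 * X 0 0 + T 1 * Y 0 0 + U 1 = 0) := by rw [hLam']; decide
    apply this
    rw [hX0, hY0, h0]; ring
  have hu2 : U 2 ≠ 0 := by
    intro h0
    have : ¬ (S 2 * X 0 0 + T 2 * Y 0 0 + U 2 = 0) := by rw [hLam']; decide
    apply this
    rw [hX0, hY0, h0]; ring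
  have hr1 : U' 1 ≠ 0 := by
    intro h0
    have : ¬ (S' 1 * X 0 0 + T' 1 * Y 0 0 + U' 1 = 0) := by rw [hMu']; decide
    apply this
    rw [hX0, hY0, h0]; ring
  have hr2 : U' 2 ≠ 0 := by
    intro h0
    have : ¬ (S' 2 * X 0 0 + T' 2 * Y 0 0 + U' 2 = 0) := by rw [hMu']; decide
    apply this
    rw [hX0, hY0, h0]; ring
  rw [← hgP]
  exact core hgc (x1 := X 1 0) (x2 := X 2 0) (y1 := Y 0 1) (y2 := Y 0 2)
    (s1 := S 1) (t1 := T 1) (u1 := U 1) (s2 := S 2) (t2 := T 2) (u2 := U 2)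
    (p1 := S' 1) (q1 := T' 1) (r1 := U' 1) (p2 := S' 2) (q2 := T' 2) (r2 := U' 2)
    (a1 := X 1 1) (b1 := Y 1 1) (a2 := X 1 2) (b2 := Y 1 2) (a3 := X 2 1) (b3 := Y 2 1)
    (a4 := X 2 2) (b4 := Y 2 2) G00 G10 G20 G01 G02
    (hXne 1 0 (by decide)) (hXne 2 0 (by decide)) hXd (hYne 0 1 (by decide))
    (hYne 0 2 (by decide)) hYd (by linarith) (by linarith) hu1 hu2 (by linarith) (by linarith)
    hr1 hr2 (hXne 1 1 (by decide)) (hYne 1 1 (by decide)) (hXne 1 2 (by decide))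
    (hYne 1 2 (by decide)) (hXne 2 1 (by decide)) (hYne 2 1 (by decide))
    ((hLam' 1 1 1).2 rfl) ((hLam' 1 1 2).2 rfl) (by rw [Ne, hLam']; decide)
    ((hLam' 2 2 1).2 rfl) ((hLam' 2 2 2).2 rfl)
    ((hMu' 1 1 1).2 rfl) (by rw [Ne, hMu']; decide) ((hMu' 2 1 2).2 rfl)
    ((hMu' 1 2 1).2 rfl) ((hMu' 2 2 2).2 rfl)
    (gz 1 1 (by decide)) (gz 1 2 (by decide)) (gz 2 1 (by decide))

end Pool.ACA
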