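import Pool.Agent.Lib.MP_aca35e_co.Defs

/-!
# MP_aca35e_co: definitions for the cubic (rows H1 - H4)
-/

set_option autoImplicit false

namespace Pool.ACA

/-- Three families of points `P a, Q b, R c` (indices in `[-k, k]`) of the dual plane such that `P a, Q b, R c` are
collinear iff `a + b + c = 0`; `T a b` is the line (a point of the chart) through `P a, Q b, R (-a-b)`. -/
structure TGrid (k : ℤ) where
  P : ℤ → ℝ × ℝ
  Q : ℤ → ℝ × ℝ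
  R : ℤ → ℝ × ℝ
  T : ℤ → ℤ → ℝ × ℝ
  hP : ∀ a b, |a| ≤ k → |b| ≤ k → |a + b| ≤ k → ∀ a', |a'| ≤ k →
    (ev (P a') (T a b).1 = (T a b).2 ↔ a' = a)
  hQ : ∀ a b, |a| ≤ k → |b| ≤ k → |a + b| ≤ k → ∀ b', |b'| ≤ k →
    (ev (Q b') (T a b).1 = (T a b).2 ↔ b' = b)
  hR : ∀ a b, |a| ≤ k → |b| ≤ k → |a + b| ≤ k → ∀ c', |c'| ≤ k →
    (ev (R c') (T a b).1 = (T a b).2 ↔ c' = -a - b)

end Pool.ACA
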