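import Pool.Agent.Lib.MP_aca35e_co.Defs
import Pool.Agent.Lib.MP_aca35e_co.HDefs
import Pool.Agent.Lib.MP_aca35e_co.H1

/-!
# MP_aca35e_co, row H2

The configuration: rows `(P a1, Q b1, R c1)`, `(Q b2, R c2, P a2)`, `(R c3, P a3, Q b3)` and columns `(P a1, Q b2, R c3)`, `(Q b1, R c2, P a3)`, `(R c1, P a2, Q b3)`, all of
sum `0`. `ℓ = (T a1 b1, T a2 b2, T a3 b3)`, `m = (T a1 b2, T a3 b1, T a2 b3)`. The nine points in the array `P i j` of `chasles` (H1); permute rows and columns so that the point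
in question is in position `(2, 2)` (or use `chasles` with `Fin 3` permutations: prove first the version of H1 with any missing position `(i₀, j₀)` by reindexing).
Here the unknown point is `P a3` (first theorem) and the others follow by symmetry of `TGrid` (`TGrid.rot`, `TGrid.neg` below).
-/

set_option autoImplicit false
set_option linter.unusedVariables false

namespace Pool.ACA

open Set Filter Topology

/-- cyclic rotation of the three families -/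
theorem TGrid.rot {k : ℤ} (t : TGrid k) : ∃ t' : TGrid k, t'.P = t.Q ∧ t'.Q = t.R ∧ t'.R = t.P := by
  have hs : ∀ a b : ℤ, |b| ≤ k → |(-a - b) + a| ≤ k := by
    intro a b hb
    have : (-a - b) + a = -b := by ring
    rw [this, abs_neg]
    exact hb
  have hn : ∀ a b : ℤ, |a + b| ≤ k → |(-a - b)| ≤ k := by
    intro a b hab
    have : -a - b = -(a + b) := by ring
    rw [this, abs_neg]
    exact hab
  refine ⟨⟨t.Q, t.R, t.P, fun a b => t.T (-a - b) a, ?_, ?_, ?_⟩, rfl, rfl, rfl⟩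
  · intro a b ha hb hab a' ha'
    exact t.hQ (-a - b) a (hn a b hab) ha (hs a b hb) a' ha'
  · intro a b ha hb hab b' hb'
    rw [t.hR (-a - b) a (hn a b hab) ha (hs a b hb) b' hb']
    constructor
    · intro h; linarith
    · intro h; linarith
  · intro a b ha hb hab c' hc'
    exact t.hP (-a - b) a (hn a b hab) ha (hs a b hb) c' hc'

/-- change of sign of the indices -/
theorem TGrid.neg {k : ℤ} (t : TGrid k) :
    ∃ t' : TGrid k, (t'.P = fun a => t.P (-a)) ∧ (t'.Q = fun a => t.Q (-a)) ∧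
      (t'.R = fun a => t.R (-a)) := by
  have hn : ∀ a : ℤ, |a| ≤ k → |(-a)| ≤ k := by
    intro a ha
    rw [abs_neg]
    exact ha
  have hs : ∀ a b : ℤ, |a + b| ≤ k → |(-a) + (-b)| ≤ k := by
    intro a b hab
    have : -a + -b = -(a + b) := by ring
    rw [this, abs_neg]
    exact hab
  refine ⟨⟨fun a => t.P (-a), fun a => t.Q (-a), fun a => t.R (-a),
    fun a b => t.T (-a) (-b), ?_, ?_, ?_⟩, rfl, rfl, rfl⟩
  · intro a b ha hb hab a' ha'
    rw [t.hP (-a) (-b) (hn a ha) (hn b hb) (hs a b hab) (-a') (hn a' ha')]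
    exact neg_inj
  · intro a b ha hb hab b' hb'
    rw [t.hQ (-a) (-b) (hn a ha) (hn b hb) (hs a b hab) (-b') (hn b' hb')]
    exact neg_inj
  · intro a b ha hb hab c' hc'
    rw [t.hR (-a) (-b) (hn a ha) (hn b hb) (hs a b hab) (-c') (hn c' hc')]
    constructor
    · intro h; linarith
    · intro h; linarith

/-- exchange of two families -/
theorem TGrid.swap {k : ℤ} (t : TGrid k) : ∃ t' : TGrid k, t'.P = t.P ∧ t'.Q = t.R ∧ t'.R = t.Q := by
  have hn : ∀ a b : ℤ, |a + b| ≤ k → |(-a - b)| ≤ k := by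
    intro a b hab
    have : -a - b = -(a + b) := by ring
    rw [this, abs_neg]
    exact hab
  have hs : ∀ a b : ℤ, |b| ≤ k → |a + (-a - b)| ≤ k := by
    intro a b hb
    have : a + (-a - b) = -b := by ring
    rw [this, abs_neg]
    exact hb
  refine ⟨⟨t.P, t.R, t.Q, fun a b => t.T a (-a - b), ?_, ?_, ?_⟩, rfl, rfl, rfl⟩
  · intro a b ha hb hab a' ha'
    exact t.hP a (-a - b) ha (hn a b hab) (hs a b hb) a' ha'
  · intro a b ha hb hab b' hb'
    rw [t.hR a (-a - b) ha (hn a b hab) (hs a b hb) b' hb']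
    constructor
    · intro h; linarith
    · intro h; linarith
  · intro a b ha hb hab c' hc'
    exact t.hQ a (-a - b) ha (hn a b hab) (hs a b hb) c' hc'

theorem TGrid.ninth {k : ℤ} (t : TGrid k) (q : MvPolynomial (Fin 2) ℝ) (hq : q.totalDegree ≤ 3)
    (a1 a2 a3 b1 b2 b3 c1 c2 c3 : ℤ)
    (ha : |a1| ≤ k ∧ |a2| ≤ k ∧ |a3| ≤ k) (hb : |b1| ≤ k ∧ |b2| ≤ k ∧ |b3| ≤ k)
    (hc : |c1| ≤ k ∧ |c2| ≤ k ∧ |c3| ≤ k)
    (h1 : a1 + b1 + c1 = 0) (h2 : a2 + b2 + c2 = 0) (h3 : a3 + b3 + c3 = 0)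
    (h4 : a1 + b2 + c3 = 0) (h5 : a3 + b1 + c2 = 0) (h6 : a2 + b3 + c1 = 0)
    (da : a1 ≠ a2 ∧ a1 ≠ a3 ∧ a2 ≠ a3) (db : b1 ≠ b2 ∧ b1 ≠ b3 ∧ b2 ≠ b3)
    (dc : c1 ≠ c2 ∧ c1 ≠ c3 ∧ c2 ≠ c3)
    (p1 : pv q (t.P a1) = 0) (p2 : pv q (t.P a2) = 0)
    (q1 : pv q (t.Q b1) = 0) (q2 : pv q (t.Q b2) = 0) (q3 : pv q (t.Q b3) = 0)
    (r1 : pv q (t.R c1) = 0) (r2 : pv q (t.R c2) = 0) (r3 : pv q (t.R c3) = 0) :
    pv q (t.P a3) = 0 := by
  obtain ⟨ha1, ha2, ha3⟩ := ha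
  obtain ⟨hb1, hb2, hb3⟩ := hb
  obtain ⟨hc1, hc2, hc3⟩ := hc
  obtain ⟨da12, da13, da23⟩ := da
  obtain ⟨db12, db13, db23⟩ := db
  obtain ⟨dc12, dc13, dc23⟩ := dc
  have hsum : ∀ a b c : ℤ, |c| ≤ k → a + b + c = 0 → |a + b| ≤ k := by
    intro a b c hc h
    have : a + b = -c := by linarith
    rw [this, abs_neg]
    exact hc
  have Lp : ∀ (a b c : ℤ), |a| ≤ k → |b| ≤ k → |c| ≤ k → a + b + c = 0 → ∀ x : ℤ, |x| ≤ k →
      (ev (t.P x) (t.T a b).1 = (t.T a b).2 ↔ x = a) := by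
    intro a b c ha hb hc h x hx
    exact t.hP a b ha hb (hsum a b c hc h) x hx
  have Lq : ∀ (a b c : ℤ), |a| ≤ k → |b| ≤ k → |c| ≤ k → a + b + c = 0 → ∀ x : ℤ, |x| ≤ k →
      (ev (t.Q x) (t.T a b).1 = (t.T a b).2 ↔ x = b) := by
    intro a b c ha hb hc h x hx
    exact t.hQ a b ha hb (hsum a b c hc h) x hx
  have Lr : ∀ (a b c : ℤ), |a| ≤ k → |b| ≤ k → |c| ≤ k → a + b + c = 0 → ∀ x : ℤ, |x| ≤ k →
      (ev (t.R x) (t.T a b).1 = (t.T a b).2 ↔ x = c) := by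
    intro a b c ha hb hc h x hx
    rw [t.hR a b ha hb (hsum a b c hc h) x hx]
    constructor
    · intro h'; linarith
    · intro h'; linarith
  -- the six lines
  have L1 := Lp a1 b1 c1 ha1 hb1 hc1 h1
  have L2 := Lp a2 b2 c2 ha2 hb2 hc2 h2
  have L3 := Lp a3 b3 c3 ha3 hb3 hc3 h3
  have L4 := Lp a1 b2 c3 ha1 hb2 hc3 h4
  have L5 := Lp a3 b1 c2 ha3 hb1 hc2 h5
  have L6 := Lp a2 b3 c1 ha2 hb3 hc1 h6
  have M1 := Lq a1 b1 c1 ha1 hb1 hc1 h1
  have M2 := Lq a2 b2 c2 ha2 hb2 hc2 h2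
  have M3 := Lq a3 b3 c3 ha3 hb3 hc3 h3
  have M4 := Lq a1 b2 c3 ha1 hb2 hc3 h4
  have M5 := Lq a3 b1 c2 ha3 hb1 hc2 h5
  have M6 := Lq a2 b3 c1 ha2 hb3 hc1 h6
  have N1 := Lr a1 b1 c1 ha1 hb1 hc1 h1
  have N2 := Lr a2 b2 c2 ha2 hb2 hc2 h2
  have N3 := Lr a3 b3 c3 ha3 hb3 hc3 h3
  have N4 := Lr a1 b2 c3 ha1 hb2 hc3 h4
  have N5 := Lr a3 b1 c2 ha3 hb1 hc2 h5
  have N6 := Lr a2 b3 c1 ha2 hb3 hc1 h6
  have key := chasles q hq ![t.T a1 b1, t.T a2 b2, t.T a3 b3] ![t.T a1 b2, t.T a2 b3, t.T a3 b1]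
    ![![t.P a1, t.R c1, t.Q b1], ![t.Q b2, t.P a2, t.R c2], ![t.R c3, t.Q b3, t.P a3]] ?_ ?_ ?_
  · exact key
  · intro i j i'
    fin_cases i <;> fin_cases j <;> fin_cases i' <;>
      simp [L1, L2, L3, M1, M2, M3, N1, N2, N3, ha1, ha2, ha3, hb1, hb2, hb3, hc1, hc2, hc3,
        da12, da13, da23, db12, db13, db23, dc12, dc13, dc23,
        da12.symm, da13.symm, da23.symm, db12.symm, db13.symm, db23.symm, dc12.symm, dc13.symm,
        dc23.symm]
  · intro i j i'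
    fin_cases i <;> fin_cases j <;> fin_cases i' <;>
      simp [L4, L5, L6, M4, M5, M6, N4, N5, N6, ha1, ha2, ha3, hb1, hb2, hb3, hc1, hc2, hc3,
        da12, da13, da23, db12, db13, db23, dc12, dc13, dc23,
        da12.symm, da13.symm, da23.symm, db12.symm, db13.symm, db23.symm, dc12.symm, dc13.symm,
        dc23.symm]
  · intro i j hij
    fin_cases i <;> fin_cases j <;> simp_all

end Pool.ACA
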