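import Pool.Agent.Lib.MP_aca35e_co.Defs
import Pool.Agent.Lib.MP_aca35e_co.HDefs
import Pool.Agent.Lib.MP_aca35e_co.H2

/-!
# MP_aca35e_co, row H3

Propagation. Base: `q` vanishes at `P, Q, R` of index `-1, 0, 1` and at `P 2`. Configurations `(a1 b1 c1 | b2 c2 a2 | c3 a3 b3)` (rows of the 3x3 array), each giving one new point:
`Q (-2)`: (0 -1 1 | 0 -1 1 | 0 2 -2); `R 2`: (-1 -1 2 | 0 0 0 | 1 1 -2); `P (-2)`: (-2 0 2 | 1 0 -1 | 1 0 -1); `Q 2`: (-2 0 2 | 2 -1 -1 | 0 1 -1);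
`R (-2)`: (-2 0 2 | 2 -2 0 | 0 2 -2). Step `k ≥ 2`, all indices `|.| ≤ k` known, new `P (k+1)`: `a = (1-k, 0, k+1)`, `b = (-1, k, -k)`, `c = (k, -k, -1)` (all sums are 0, entries
different). The other new points `Q, R (k+1)`, `P, Q, R (-(k+1))` by the symmetries `rot`, `neg`, `swap` of H2 (apply `ninth` to the transformed grid; for the unknown point `Q` or `R`
in the base steps also transform so that the unknown point is `P a3`).
-/

set_option autoImplicit false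
set_option linter.unusedVariables false

namespace Pool.ACA

open Set Filter Topology

/-- `q` vanishes at all points of index at most `m` -/
private def Sv {k : ℤ} (q : MvPolynomial (Fin 2) ℝ) (t : TGrid k) (m : ℤ) : Prop :=
  ∀ a : ℤ, |a| ≤ m → pv q (t.P a) = 0 ∧ pv q (t.Q a) = 0 ∧ pv q (t.R a) = 0

private theorem Sv.rot {k m : ℤ} {q : MvPolynomial (Fin 2) ℝ} {t t' : TGrid k} (h : Sv q t m)
    (h' : t'.P = t.Q ∧ t'.Q = t.R ∧ t'.R = t.P) : Sv q t' m := by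
  intro a ha
  rw [h'.1, h'.2.1, h'.2.2]
  exact ⟨(h a ha).2.1, (h a ha).2.2, (h a ha).1⟩

private theorem Sv.neg {k m : ℤ} {q : MvPolynomial (Fin 2) ℝ} {t t' : TGrid k} (h : Sv q t m)
    (h' : (t'.P = fun a => t.P (-a)) ∧ (t'.Q = fun a => t.Q (-a)) ∧
      (t'.R = fun a => t.R (-a))) : Sv q t' m := by
  intro a ha
  rw [h'.1, h'.2.1, h'.2.2]
  exact h (-a) (by rwa [abs_neg])

private theorem Sv.swap {k m : ℤ} {q : MvPolynomial (Fin 2) ℝ} {t t' : TGrid k} (h : Sv q t m)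
    (h' : t'.P = t.P ∧ t'.Q = t.R ∧ t'.R = t.Q) : Sv q t' m := by
  intro a ha
  rw [h'.1, h'.2.1, h'.2.2]
  exact ⟨(h a ha).1, (h a ha).2.2, (h a ha).2.1⟩

/-- the basic configuration -/
private theorem base1 {k : ℤ} (hk : 2 ≤ k) (t : TGrid k) (q : MvPolynomial (Fin 2) ℝ)
    (hq : q.totalDegree ≤ 3) (h0 : Sv q t 1) (h2 : pv q (t.P 2) = 0) :
    pv q (t.Q (-2)) = 0 := by
  obtain ⟨t1, h1⟩ := t.rot
  obtain ⟨t2, h3⟩ := t1.swap
  have e1 : t2.P = t.Q := h3.1.trans h1.1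
  have e2 : t2.Q = t.P := h3.2.1.trans h1.2.2
  have e3 : t2.R = t.R := h3.2.2.trans h1.2.1
  have ab : ∀ x : ℤ, -2 ≤ x → x ≤ 2 → |x| ≤ k := fun x h h' =>
    abs_le.2 ⟨by omega, by omega⟩
  have ab1 : ∀ x : ℤ, -1 ≤ x → x ≤ 1 → |x| ≤ 1 := fun x h h' => abs_le.2 ⟨by omega, by omega⟩
  rw [← e1]
  refine t2.ninth q hq 0 (-1) (-2) 1 0 2 (-1) 1 0 ?_ ?_ ?_ (by norm_num) (by norm_num)
    (by norm_num) (by norm_num) (by norm_num) (by norm_num) (by norm_num) (by norm_num)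
    (by norm_num) ?_ ?_ ?_ ?_ ?_ ?_ ?_ ?_
  · exact ⟨ab _ (by norm_num) (by norm_num), ab _ (by norm_num) (by norm_num),
      ab _ (by norm_num) (by norm_num)⟩
  · exact ⟨ab _ (by norm_num) (by norm_num), ab _ (by norm_num) (by norm_num),
      ab _ (by norm_num) (by norm_num)⟩
  · exact ⟨ab _ (by norm_num) (by norm_num), ab _ (by norm_num) (by norm_num),
      ab _ (by norm_num) (by norm_num)⟩
  · rw [e1]
    exact (h0 0 (ab1 _ (by norm_num) (by norm_num))).2.1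
  · rw [e1]
    exact (h0 (-1) (ab1 _ (by norm_num) (by norm_num))).2.1
  · rw [e2]
    exact (h0 1 (ab1 _ (by norm_num) (by norm_num))).1
  · rw [e2]
    exact (h0 0 (ab1 _ (by norm_num) (by norm_num))).1
  · rw [e2]
    exact h2
  · rw [e3]
    exact (h0 (-1) (ab1 _ (by norm_num) (by norm_num))).2.2
  · rw [e3]
    exact (h0 1 (ab1 _ (by norm_num) (by norm_num))).2.2
  · rw [e3]
    exact (h0 0 (ab1 _ (by norm_num) (by norm_num))).2.2

/-- index `2` -/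
private theorem base2 {k : ℤ} (hk : 2 ≤ k) (t : TGrid k) (q : MvPolynomial (Fin 2) ℝ)
    (hq : q.totalDegree ≤ 3) (h0 : Sv q t 1) (h2 : pv q (t.P 2) = 0) : Sv q t 2 := by
  -- the transformed grids
  obtain ⟨ts, hs⟩ := t.swap
  obtain ⟨tr, hr⟩ := t.rot
  obtain ⟨trn, hrn⟩ := tr.neg
  obtain ⟨trr, hrr⟩ := tr.rot
  obtain ⟨trrs, hrrs⟩ := trr.swap
  obtain ⟨trrsn, hrrsn⟩ := trrs.neg
  obtain ⟨trs, hrs⟩ := tr.swap
  have q1 : pv q (t.Q (-2)) = 0 := base1 hk t q hq h0 h2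
  have r1 : pv q (t.R (-2)) = 0 := by
    have := base1 hk ts q hq (h0.swap hs) (by rw [hs.1]; exact h2)
    rwa [hs.2.1] at this
  have r2 : pv q (t.R 2) = 0 := by
    have := base1 hk trn q hq ((h0.rot hr).neg hrn) (by
      rw [hrn.1, hr.1]
      exact q1)
    rw [hrn.2.1, hr.2.1] at this
    simpa using this
  have q2 : pv q (t.Q 2) = 0 := by
    have := base1 hk trrsn q hq ((((h0.rot hr).rot hrr).swap hrrs).neg hrrsn) (by
      rw [hrrsn.1, hrrs.1, hrr.1, hr.2.1]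
      exact r1)
    rw [hrrsn.2.1, hrrs.2.1, hrr.2.2, hr.1] at this
    simpa using this
  have p2 : pv q (t.P (-2)) = 0 := by
    have := base1 hk trs q hq ((h0.rot hr).swap hrs) (by
      rw [hrs.1, hr.1]
      exact q2)
    rwa [hrs.2.1, hr.2.2] at this
  intro a ha
  have ha' := abs_le.1 ha
  have h3 : a = -2 ∨ a = 2 ∨ |a| ≤ 1 := by
    by_cases h4 : a = -2
    · exact Or.inl h4
    by_cases h5 : a = 2
    · exact Or.inr (Or.inl h5)
    · exact Or.inr (Or.inr (abs_le.2 ⟨by omega, by omega⟩))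
  rcases h3 with rfl | rfl | h3
  · exact ⟨p2, q1, r1⟩
  · exact ⟨h2, q2, r2⟩
  · exact h0 a h3

/-- one more point -/
private theorem step1 {k m : ℤ} (hm : 2 ≤ m) (hk : m + 1 ≤ k) (t : TGrid k)
    (q : MvPolynomial (Fin 2) ℝ) (hq : q.totalDegree ≤ 3) (h0 : Sv q t m) :
    pv q (t.P (m + 1)) = 0 := by
  have ab : ∀ x : ℤ, -m - 1 ≤ x → x ≤ m + 1 → |x| ≤ k := fun x h h' =>
    abs_le.2 ⟨by omega, by omega⟩
  have ab1 : ∀ x : ℤ, -m ≤ x → x ≤ m → |x| ≤ m := fun x h h' => abs_le.2 ⟨by omega, by omega⟩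
  refine t.ninth q hq (1 - m) 0 (m + 1) (-1) m (-m) m (-m) (-1) ?_ ?_ ?_ (by ring) (by ring)
    (by ring) (by ring) (by ring) (by ring) ⟨by omega, by omega, by omega⟩
    ⟨by omega, by omega, by omega⟩ ⟨by omega, by omega, by omega⟩ ?_ ?_ ?_ ?_ ?_ ?_ ?_ ?_
  · exact ⟨ab _ (by omega) (by omega), ab _ (by omega) (by omega), ab _ (by omega) (by omega)⟩
  · exact ⟨ab _ (by omega) (by omega), ab _ (by omega) (by omega), ab _ (by omega) (by omega)⟩
  · exact ⟨ab _ (by omega) (by omega), ab _ (by omega) (by omega), ab _ (by omega) (by omega)⟩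
  · exact (h0 _ (ab1 _ (by omega) (by omega))).1
  · exact (h0 _ (ab1 _ (by omega) (by omega))).1
  · exact (h0 _ (ab1 _ (by omega) (by omega))).2.1
  · exact (h0 _ (ab1 _ (by omega) (by omega))).2.1
  · exact (h0 _ (ab1 _ (by omega) (by omega))).2.1
  · exact (h0 _ (ab1 _ (by omega) (by omega))).2.2
  · exact (h0 _ (ab1 _ (by omega) (by omega))).2.2
  · exact (h0 _ (ab1 _ (by omega) (by omega))).2.2

private theorem step2 {k m : ℤ} (hm : 2 ≤ m) (hk : m + 1 ≤ k) (t : TGrid k)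
    (q : MvPolynomial (Fin 2) ℝ) (hq : q.totalDegree ≤ 3) (h0 : Sv q t m) :
    pv q (t.P (m + 1)) = 0 ∧ pv q (t.Q (m + 1)) = 0 ∧ pv q (t.R (m + 1)) = 0 := by
  obtain ⟨tr, hr⟩ := t.rot
  obtain ⟨trr, hrr⟩ := tr.rot
  refine ⟨step1 hm hk t q hq h0, ?_, ?_⟩
  · have := step1 hm hk tr q hq (h0.rot hr)
    rwa [hr.1] at this
  · have := step1 hm hk trr q hq ((h0.rot hr).rot hrr)
    rwa [hrr.1, hr.2.1] at this

private theorem step3 {k m : ℤ} (hm : 2 ≤ m) (hk : m + 1 ≤ k) (t : TGrid k)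
    (q : MvPolynomial (Fin 2) ℝ) (hq : q.totalDegree ≤ 3) (h0 : Sv q t m) :
    Sv q t (m + 1) := by
  obtain ⟨tn, hn⟩ := t.neg
  have h1 := step2 hm hk t q hq h0
  have h2 := step2 hm hk tn q hq (h0.neg hn)
  rw [hn.1, hn.2.1, hn.2.2] at h2
  intro a ha
  have ha' := abs_le.1 ha
  by_cases h4 : a = m + 1
  · rw [h4]
    exact h1
  by_cases h5 : a = -(m + 1)
  · rw [h5]
    exact h2
  · exact h0 a (abs_le.2 ⟨by omega, by omega⟩)

theorem TGrid.propagate {k : ℤ} (t : TGrid k) (q : MvPolynomial (Fin 2) ℝ)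
    (hq : q.totalDegree ≤ 3)
    (h0 : ∀ a : ℤ, |a| ≤ 1 → pv q (t.P a) = 0 ∧ pv q (t.Q a) = 0 ∧ pv q (t.R a) = 0)
    (h2 : pv q (t.P 2) = 0) :
    ∀ a : ℤ, |a| ≤ k → pv q (t.P a) = 0 ∧ pv q (t.Q a) = 0 ∧ pv q (t.R a) = 0 := by
  by_cases hk : 2 ≤ k
  · have h3 : Sv q t 2 := base2 hk t q hq h0 h2
    have h4 : ∀ n : ℕ, (n : ℤ) + 2 ≤ k → Sv q t ((n : ℤ) + 2) := by
      intro n
      induction n with
      | zero =>
        intro _
        simpa using h3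
      | succ n ih =>
        intro hn
        push_cast at hn ⊢
        have := step3 (m := (n : ℤ) + 2) (by omega) (by omega) t q hq (ih (by omega))
        rwa [show (n : ℤ) + 1 + 2 = (n : ℤ) + 2 + 1 by ring]
    have h5 := h4 (k - 2).toNat (by omega)
    rwa [show (((k - 2).toNat : ℕ) : ℤ) + 2 = k by omega] at h5
  · intro a ha
    exact h0 a (ha.trans (by omega))

end Pool.ACA
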