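import Pool.Agent.Lib.MP_aca35e_co.Defs
import Pool.Agent.Lib.MP_aca35e_co.HDefs
import Pool.Agent.Lib.MP_aca35e_co.H2
import Pool.Agent.Lib.MP_aca35e_co.H3

/-!
# MP_aca35e_co, row H4

The cubic and the end. `exists_cubic`: the space of polynomials of degree `≤ 3` has dimension 10 (the ten monomials), nine evaluations: a nonzero element of the kernel
(e.g. `Matrix.exists_mulVec_eq_zero_iff` / `LinearMap.exists_ne_zero...` / `exists_nontrivial_relation_of_finrank_lt_card` applied to the ten vectors `(monomial (w))_{w ∈ S}` of `S → ℝ`).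
In `grid_false` apply it to the nine points `P (-1), P 0, Q (-1), Q 0, Q 1, R (-1), R 0, R 1` and `P 2`; then `P 1` is the ninth point (H2 `ninth`) of the configuration
`(a1 b1 c1 | b2 c2 a2 | c3 a3 b3) = (-1 0 1 | 1 -1 0 | 0 1 -1)`. H3 then gives all points of index `|.| ≤ k`.
`grid_tgrid`: `P a = x (k + a)`, `R c = z (k - c)`, `Q b = y b`, `T a b = Q (k + a) (k + a + b)`, for `n = 2 k`.
`grid_false`: the `2 k + 1` points `Q b = y b` are different, on the curve and on the cubic, so `2 k + 1 ≤ D * totalDegree q ≤ 3 D` by `Curve.bz` (`totalDegree q ≤ 3 < D`);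
take `k = 2 D`, `n = 4 D`.
-/

set_option autoImplicit false
set_option linter.unusedVariables false

namespace Pool.ACA

open Set Filter Topology

private abbrev I10 : Type := {m : Fin 4 × Fin 4 // (m.1 : ℕ) + m.2 ≤ 3}

private noncomputable def mo (m : I10) : Fin 2 →₀ ℕ :=
  Finsupp.single 0 (m.1.1 : ℕ) + Finsupp.single 1 (m.1.2 : ℕ)

private lemma mo_inj : Function.Injective mo := by
  intro m m' h
  have h0 := DFunLike.congr_fun h 0
  have h1 := DFunLike.congr_fun h 1
  simp only [mo, Finsupp.add_apply, Finsupp.single_apply] at h0 h1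
  simp at h0 h1
  apply Subtype.ext
  exact Prod.ext (Fin.ext h0) (Fin.ext h1)

private noncomputable def poly (c : I10 → ℝ) : MvPolynomial (Fin 2) ℝ :=
  ∑ m, MvPolynomial.monomial (mo m) (c m)

private lemma poly_coeff (c : I10 → ℝ) (m : I10) : (poly c).coeff (mo m) = c m := by
  unfold poly
  rw [MvPolynomial.coeff_sum, Finset.sum_eq_single m]
  · simp
  · intro b _ hb
    rw [MvPolynomial.coeff_monomial, if_neg]
    intro h
    exact hb (mo_inj h)
  · simp

private lemma poly_deg (c : I10 → ℝ) : (poly c).totalDegree ≤ 3 := by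
  unfold poly
  refine (MvPolynomial.totalDegree_finsetSum _ _).trans ?_
  refine Finset.sup_le fun m _ => ?_
  refine (MvPolynomial.totalDegree_monomial_le _ _).trans ?_
  have h := m.2
  have h2 : (mo m).sum (fun _ e => e) = (m.1.1 : ℕ) + m.1.2 := by
    unfold mo
    rw [Finsupp.sum_add_index' (by simp) (by simp)]
    simp
  exact h2.le.trans h

private lemma poly_pv (c : I10 → ℝ) (w : ℝ × ℝ) :
    pv (poly c) w = ∑ m : I10, c m * (w.1 ^ (m.1.1 : ℕ) * w.2 ^ (m.1.2 : ℕ)) := by
  unfold pv poly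
  rw [map_sum]
  refine Finset.sum_congr rfl fun m _ => ?_
  rw [MvPolynomial.eval_monomial]
  congr 1
  unfold mo
  rw [Finsupp.prod_add_index' (by simp) (by intros; rw [pow_add])]
  simp

theorem exists_cubic (S : Finset (ℝ × ℝ)) (hS : S.card ≤ 9) :
    ∃ q : MvPolynomial (Fin 2) ℝ, q ≠ 0 ∧ q.totalDegree ≤ 3 ∧ ∀ w ∈ S, pv q w = 0 := by
  let f : (I10 → ℝ) →ₗ[ℝ] (S → ℝ) :=
    { toFun := fun c w => ∑ m : I10, c m * (w.1.1 ^ (m.1.1 : ℕ) * w.1.2 ^ (m.1.2 : ℕ))
      map_add' := by
        intro a b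
        ext w
        simp [add_mul, Finset.sum_add_distrib]
      map_smul' := by
        intro r a
        ext w
        simp [Finset.mul_sum, mul_assoc] }
  have hcard : Fintype.card I10 = 10 := by decide
  have hk : LinearMap.ker f ≠ ⊥ := by
    apply LinearMap.ker_ne_bot_of_finrank_lt
    rw [Module.finrank_fintype_fun_eq_card, Module.finrank_fintype_fun_eq_card, hcard,
      Fintype.card_coe]
    omega
  obtain ⟨c, hc, hc0⟩ := (Submodule.ne_bot_iff _).1 hk
  refine ⟨poly c, ?_, poly_deg c, ?_⟩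
  · intro h
    apply hc0
    ext m
    rw [← poly_coeff c m, h]
    simp
  · intro w hw
    rw [poly_pv]
    have := congrFun (LinearMap.mem_ker.1 hc) ⟨w, hw⟩
    exact this

theorem grid_tgrid {p : MvPolynomial (Fin 2) ℝ} (k : ℕ) (g : Grid p (2 * k)) :
    ∃ t : TGrid (k : ℤ), ∀ b : ℤ, |b| ≤ k → t.Q b = g.y b := by
  refine ⟨⟨fun a => g.x (k + a).toNat, fun b => g.y b, fun c => g.z (k - c).toNat,
    fun a b => g.Q (k + a).toNat (k + a + b).toNat, ?_, ?_, ?_⟩, fun b _ => rfl⟩
  · intro a b ha hb hab a' ha'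
    rw [abs_le] at ha hb hab ha'
    have h := g.xQ (k + a).toNat (by omega) (k + a + b).toNat (by omega) (k + a').toNat (by omega)
    rw [h]
    omega
  · intro a b ha hb hab b' hb'
    rw [abs_le] at ha hb hab
    have hb2 : |b'| ≤ ((2 * k : ℕ) : ℤ) := by
      push_cast
      linarith [abs_nonneg b']
    have h := g.yQ (k + a).toNat (by omega) (k + a + b).toNat (by omega) b' hb2
    rw [h]
    omega
  · intro a b ha hb hab c' hc'
    rw [abs_le] at ha hb hab hc'
    have h := g.zQ (k + a).toNat (by omega) (k + a + b).toNat (by omega) (k - c').toNat (by omega)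
    rw [h]
    omega

theorem grid_false {D : ℕ} {p : MvPolynomial (Fin 2) ℝ} (hD : 4 ≤ D) (hc : Curve D p)
    (g : Grid p (4 * D)) : False := by
  classical
  have h4 : 4 * D = 2 * (2 * D) := by ring
  obtain ⟨g', hg'⟩ : ∃ g' : Grid p (2 * (2 * D)), ∀ b, g'.y b = g.y b := by
    rw [← h4]
    exact ⟨g, fun _ => rfl⟩
  obtain ⟨t, ht⟩ := grid_tgrid (2 * D) g'
  have hk : (2 : ℤ) ≤ ((2 * D : ℕ) : ℤ) := by push_cast; linarith [(by exact_mod_cast hD : (4:ℤ) ≤ D)]
  obtain ⟨q, hq0, hq3, hqS⟩ := exists_cubic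
    {t.P (-1), t.P 0, t.P 2, t.Q (-1), t.Q 0, t.Q 1, t.R (-1), t.R 0, t.R 1} (by
      refine (Finset.card_insert_le _ _).trans ?_
      refine Nat.succ_le_succ ((Finset.card_insert_le _ _).trans ?_)
      refine Nat.succ_le_succ ((Finset.card_insert_le _ _).trans ?_)
      refine Nat.succ_le_succ ((Finset.card_insert_le _ _).trans ?_)
      refine Nat.succ_le_succ ((Finset.card_insert_le _ _).trans ?_)
      refine Nat.succ_le_succ ((Finset.card_insert_le _ _).trans ?_)
      refine Nat.succ_le_succ ((Finset.card_insert_le _ _).trans ?_)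
      refine Nat.succ_le_succ ((Finset.card_insert_le _ _).trans ?_)
      simp)
  have ab : ∀ a : ℤ, |a| ≤ 2 → |a| ≤ ((2 * D : ℕ) : ℤ) := fun a h => h.trans hk
  have a1 : |(-1 : ℤ)| ≤ ((2 * D : ℕ) : ℤ) := ab _ (by norm_num)
  have a0 : |(0 : ℤ)| ≤ ((2 * D : ℕ) : ℤ) := ab _ (by norm_num)
  have a1' : |(1 : ℤ)| ≤ ((2 * D : ℕ) : ℤ) := ab _ (by norm_num)
  have hP1 : pv q (t.P 1) = 0 :=
    t.ninth q hq3 (-1) 0 1 0 1 (-1) 1 (-1) 0 ⟨a1, a0, a1'⟩ ⟨a0, a1', a1⟩ ⟨a1', a1, a0⟩
      (by norm_num) (by norm_num) (by norm_num) (by norm_num) (by norm_num) (by norm_num)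
      (by norm_num) (by norm_num) (by norm_num)
      (hqS _ (by simp)) (hqS _ (by simp)) (hqS _ (by simp)) (hqS _ (by simp)) (hqS _ (by simp))
      (hqS _ (by simp)) (hqS _ (by simp)) (hqS _ (by simp))
  have hall := t.propagate q hq3 (by
    intro a ha
    rw [abs_le] at ha
    have h3 : a = -1 ∨ a = 0 ∨ a = 1 := by omega
    rcases h3 with rfl | rfl | rfl
    · exact ⟨hqS _ (by simp), hqS _ (by simp), hqS _ (by simp)⟩
    · exact ⟨hqS _ (by simp), hqS _ (by simp), hqS _ (by simp)⟩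
    · exact ⟨hP1, hqS _ (by simp), hqS _ (by simp)⟩) (hqS _ (by simp))
  set S : Finset (ℝ × ℝ) := (Finset.Icc (-(2 * D : ℤ)) (2 * D)).image t.Q with hSdef
  have hcard : S.card = 4 * D + 1 := by
    rw [hSdef, Finset.card_image_of_injOn]
    · rw [Int.card_Icc]
      omega
    · intro b hb b' hb' h
      rw [Finset.coe_Icc, Set.mem_Icc] at hb hb'
      have hb1 : |b| ≤ ((2 * D : ℕ) : ℤ) := by
        rw [abs_le]; push_cast; exact hb
      have hb2 : |b'| ≤ ((2 * D : ℕ) : ℤ) := by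
        rw [abs_le]; push_cast; exact hb'
      have h1 := t.hQ 0 b a0 hb1 (by simpa using hb1) b hb1
      have h2 := t.hQ 0 b a0 hb1 (by simpa using hb1) b' hb2
      have h3 : t.Q b = t.Q b' := h
      have h5 := h1.2 rfl
      rw [h3] at h5
      exact (h2.1 h5).symm
  have hbz := hc.bz q hq0 (by omega) S (by
    intro w hw
    rw [hSdef, Finset.mem_image] at hw
    obtain ⟨b, hb, rfl⟩ := hw
    rw [Finset.mem_Icc] at hb
    have hb1 : |b| ≤ ((2 * D : ℕ) : ℤ) := by
      rw [abs_le]; push_cast; exact hb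
    refine ⟨?_, (hall b hb1).2.1⟩
    rw [ht b hb1]
    apply g'.py
    refine hb1.trans ?_
    push_cast
    linarith [(by exact_mod_cast hD : (4:ℤ) ≤ D)])
  rw [hcard] at hbz
  have : D * q.totalDegree ≤ D * 3 := Nat.mul_le_mul_left _ hq3
  omega

end Pool.ACA
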