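import Pool.Agent.Lib.MP_aca35e_co.Defs

/-!
# MP_aca35e_co, row L1

Linear change of variables. `p' (w') = p (A⁻¹ w')`: take `p' = MvPolynomial.bind₁ ![..] p` with the two
linear forms of the inverse matrix `(1/det) [[d', -b], [-c, a]]`. Degrees do not increase under
`bind₁` with linear forms (totalDegree of `aeval`), and the inverse substitution gives back `p`
(for `bz`: pull `q` back by the forward substitution `bind₁`, of the same degree, nonzero).
`pv (bind₁ f p) w = pv p (eval (f 0), eval (f 1))`. For `V1`: `on (A w) X ↔ on w (Aᵀ X)`; the map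
`X ↦ Aᵀ X` is a linear bijection, so it preserves open segments, `∃!`, and so on.
`fin`: if `|A w| ≥ ε` in one coordinate then `|w|≥ ε / (2 M)` in one coordinate, `M` = max of `|entries|`.
-/

set_option autoImplicit false
set_option linter.unusedVariables false

namespace Pool.ACA

open Set Filter Topology

/-- the substitution by the linear map `(a b; c d)` -/
private noncomputable def sub (a b c d : ℝ) (p : MvPolynomial (Fin 2) ℝ) :
    MvPolynomial (Fin 2) ℝ :=
  MvPolynomial.bind₁ ![MvPolynomial.C a * MvPolynomial.X 0 + MvPolynomial.C b * MvPolynomial.X 1,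
    MvPolynomial.C c * MvPolynomial.X 0 + MvPolynomial.C d * MvPolynomial.X 1] p

private theorem pv_sub (a b c d : ℝ) (p : MvPolynomial (Fin 2) ℝ) (w : ℝ × ℝ) :
    pv (sub a b c d p) w = pv p (a * w.1 + b * w.2, c * w.1 + d * w.2) := by
  unfold pv sub
  rw [← MvPolynomial.coe_aeval_eq_eval, ← MvPolynomial.coe_aeval_eq_eval]
  show MvPolynomial.aeval _ (MvPolynomial.bind₁ _ p) = MvPolynomial.aeval _ p
  rw [MvPolynomial.aeval_bind₁]
  have : (fun i => MvPolynomial.aeval ![w.1, w.2]
      ((![MvPolynomial.C a * MvPolynomial.X 0 + MvPolynomial.C b * MvPolynomial.X 1,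
        MvPolynomial.C c * MvPolynomial.X 0 + MvPolynomial.C d * MvPolynomial.X 1] :
        Fin 2 → MvPolynomial (Fin 2) ℝ) i)) =
      (![a * w.1 + b * w.2, c * w.1 + d * w.2] : Fin 2 → ℝ) := by
    funext i
    fin_cases i <;> simp
  rw [this]

private theorem lin_deg (a b : ℝ) :
    (MvPolynomial.C a * MvPolynomial.X 0 + MvPolynomial.C b * MvPolynomial.X 1 :
      MvPolynomial (Fin 2) ℝ).totalDegree ≤ 1 := by
  refine (MvPolynomial.totalDegree_add _ _).trans (max_le ?_ ?_)
  · refine (MvPolynomial.totalDegree_mul _ _).trans ?_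
    simp
  · refine (MvPolynomial.totalDegree_mul _ _).trans ?_
    simp

private theorem deg_sub (a b c d : ℝ) (p : MvPolynomial (Fin 2) ℝ) :
    (sub a b c d p).totalDegree ≤ p.totalDegree := by
  unfold sub
  conv_lhs => rw [p.as_sum, map_sum]
  refine (MvPolynomial.totalDegree_finsetSum _ _).trans (Finset.sup_le fun m hm => ?_)
  rw [MvPolynomial.bind₁_monomial]
  refine (MvPolynomial.totalDegree_mul _ _).trans ?_
  rw [MvPolynomial.totalDegree_C, zero_add]
  refine (MvPolynomial.totalDegree_finsetProd _ _).trans ?_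
  refine le_trans ?_ (MvPolynomial.le_totalDegree hm)
  rw [Finsupp.sum]
  refine Finset.sum_le_sum fun i hi => ?_
  refine (MvPolynomial.totalDegree_pow _ _).trans ?_
  have : (![MvPolynomial.C a * MvPolynomial.X 0 + MvPolynomial.C b * MvPolynomial.X 1,
    MvPolynomial.C c * MvPolynomial.X 0 + MvPolynomial.C d * MvPolynomial.X 1] i :
      MvPolynomial (Fin 2) ℝ).totalDegree ≤ 1 := by
    fin_cases i
    · exact lin_deg a b
    · exact lin_deg c d
  exact (Nat.mul_le_mul_left _ this).trans (by simp)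

private theorem eq_zero_of_pv {q : MvPolynomial (Fin 2) ℝ} (h : ∀ w, pv q w = 0) : q = 0 := by
  refine MvPolynomial.funext fun x => ?_
  have := h (x 0, x 1)
  unfold pv at this
  have hx : ![x 0, x 1] = x := by
    ext i
    fin_cases i <;> rfl
  simp only at this
  rw [hx] at this
  rw [this, map_zero]

theorem Setup.lin {D : ℕ} {p : MvPolynomial (Fin 2) ℝ} {W : Set (ℝ × ℝ)} (h : Setup D p W)
    (a b c d : ℝ) (hdet : a * d - b * c ≠ 0) :
    ∃ p' : MvPolynomial (Fin 2) ℝ,
      Setup D p' ((fun w : ℝ × ℝ => (a * w.1 + b * w.2, c * w.1 + d * w.2)) '' W) := by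
  set A : ℝ × ℝ → ℝ × ℝ := fun w => (a * w.1 + b * w.2, c * w.1 + d * w.2) with hA
  set δ : ℝ := a * d - b * c with hδ
  set B : ℝ × ℝ → ℝ × ℝ :=
    fun w => ((d / δ) * w.1 + (-b / δ) * w.2, (-c / δ) * w.1 + (a / δ) * w.2) with hB
  have hBA : ∀ w, B (A w) = w := by
    intro w
    simp only [hA, hB]
    ext
    · show (d / δ) * (a * w.1 + b * w.2) + (-b / δ) * (c * w.1 + d * w.2) = w.1
      field_simp
      rw [hδ]; ring
    · show (-c / δ) * (a * w.1 + b * w.2) + (a / δ) * (c * w.1 + d * w.2) = w.2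
      field_simp
      rw [hδ]; ring
  have hAB : ∀ w, A (B w) = w := by
    intro w
    simp only [hA, hB]
    ext
    · show a * ((d / δ) * w.1 + (-b / δ) * w.2) + b * ((-c / δ) * w.1 + (a / δ) * w.2) = w.1
      field_simp
      rw [hδ]; ring
    · show c * ((d / δ) * w.1 + (-b / δ) * w.2) + d * ((-c / δ) * w.1 + (a / δ) * w.2) = w.2
      field_simp
      rw [hδ]; ring
  have hinj : Function.Injective A := fun x y e => by
    have := congrArg B e
    rwa [hBA, hBA] at this
  have hBinj : Function.Injective B := fun x y e => by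
    have := congrArg A e
    rwa [hAB, hAB] at this
  -- the transposed map
  set T : ℝ × ℝ → ℝ × ℝ := fun X => (a * X.1 + c * X.2, b * X.1 + d * X.2) with hT
  have hon : ∀ w X, on (A w) X ↔ on w (T X) := by
    intro w X
    simp only [on, hA, hT]
    constructor
    · intro e; linarith
    · intro e; linarith
  have hTinj : Function.Injective T := by
    intro X Y e
    simp only [hT, Prod.mk.injEq] at e
    obtain ⟨e1, e2⟩ := e
    have h1 : δ * (X.1 - Y.1) = 0 := by rw [hδ]; linear_combination d * e1 - c * e2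
    have h2 : δ * (X.2 - Y.2) = 0 := by rw [hδ]; linear_combination a * e2 - b * e1
    have h1' : X.1 - Y.1 = 0 := by
      rcases mul_eq_zero.mp h1 with h | h
      · exact absurd h hdet
      · exact h
    have h2' : X.2 - Y.2 = 0 := by
      rcases mul_eq_zero.mp h2 with h | h
      · exact absurd h hdet
      · exact h
    exact Prod.ext (by linarith) (by linarith)
  have hTadd : ∀ (s t : ℝ) (X Y : ℝ × ℝ), T (s • X + t • Y) = s • T X + t • T Y := by
    intro s t X Y
    simp only [hT]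
    ext <;> simp <;> ring
  have hpv : ∀ q w, pv (sub (d / δ) (-b / δ) (-c / δ) (a / δ) q) w = pv q (B w) := by
    intro q w
    rw [pv_sub]
  have hpv' : ∀ q w, pv (sub a b c d q) w = pv q (A w) := by
    intro q w
    rw [pv_sub]
  refine ⟨sub (d / δ) (-b / δ) (-c / δ) (a / δ) p, ?_⟩
  refine ⟨h.hD, ⟨(deg_sub _ _ _ _ _).trans h.cur.deg, ?_⟩, ?_, ?_, ?_, ?_, ?_⟩
  · intro q hq hqD S hS
    have hq0 : sub a b c d q ≠ 0 := by
      intro e
      apply hq
      apply eq_zero_of_pv
      intro w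
      have := hpv' q (B w)
      rw [hAB, e] at this
      rw [← this]
      simp [pv]
    have hdeg := deg_sub a b c d q
    have := h.cur.bz (sub a b c d q) hq0 (lt_of_le_of_lt hdeg hqD) (S.image B) (by
      intro w hw
      obtain ⟨w', hw', rfl⟩ := Finset.mem_image.mp hw
      obtain ⟨h1, h2⟩ := hS w' hw'
      rw [hpv] at h1
      refine ⟨h1, ?_⟩
      rw [hpv', hAB]
      exact h2)
    rw [Finset.card_image_of_injective _ hBinj] at this
    exact this.trans (Nat.mul_le_mul_left _ hdeg)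
  · rintro _ ⟨w, hw, rfl⟩
    rw [hpv, hBA]
    exact h.zero w hw
  · exact h.inf.image hinj.injOn
  · rintro ⟨w, hw, e⟩
    have h0 : A (0, 0) = (0, 0) := by simp [hA]
    have : w = (0, 0) := hinj (e.trans h0.symm)
    rw [this] at hw
    exact h.ne hw
  · intro ε hε
    set M : ℝ := |a| + |b| + |c| + |d| + 1 with hM
    have hM0 : 0 < M := by positivity
    refine ((h.fin (ε / M) (by positivity)).image A).subset ?_
    rintro _ ⟨⟨w, hw, rfl⟩, hlarge⟩
    refine ⟨w, ⟨hw, ?_⟩, rfl⟩
    by_contra hcon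
    push Not at hcon
    obtain ⟨h1, h2⟩ := hcon
    have hεM : 0 < ε / M := by positivity
    have e1 : |a * w.1 + b * w.2| ≤ |a| * (ε / M) + |b| * (ε / M) := by
      refine (abs_add_le _ _).trans ?_
      rw [abs_mul, abs_mul]
      gcongr
    have e2 : |c * w.1 + d * w.2| ≤ |c| * (ε / M) + |d| * (ε / M) := by
      refine (abs_add_le _ _).trans ?_
      rw [abs_mul, abs_mul]
      gcongr
    have e3 : M * (ε / M) = ε := by field_simp
    have ha := mul_nonneg (abs_nonneg a) hεM.le
    have hb := mul_nonneg (abs_nonneg b) hεM.le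
    have hc := mul_nonneg (abs_nonneg c) hεM.le
    have hd := mul_nonneg (abs_nonneg d) hεM.le
    have e4 : |a| * (ε / M) + |b| * (ε / M) + |c| * (ε / M) + |d| * (ε / M) + ε / M = ε := by
      calc |a| * (ε / M) + |b| * (ε / M) + |c| * (ε / M) + |d| * (ε / M) + ε / M
          = (|a| + |b| + |c| + |d| + 1) * (ε / M) := by ring
        _ = ε := e3
    rcases hlarge with h3 | h3
    · have h3' : ε ≤ |a * w.1 + b * w.2| := h3
      linarith
    · have h3' : ε ≤ |c * w.1 + d * w.2| := h3
      linarith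
  · rintro _ ⟨w, hw, rfl⟩ X Y hXY hX hY hX1 hY1
    have hex : ∀ X, (∃! w₁, w₁ ∈ A '' W ∧ w₁ ≠ A w ∧ on w₁ X) →
        ∃! w₁, w₁ ∈ W ∧ w₁ ≠ w ∧ on w₁ (T X) := by
      rintro X ⟨w₁', ⟨⟨w₁, hw₁, rfl⟩, h2, h3⟩, h4⟩
      refine ⟨w₁, ⟨hw₁, fun e => h2 (by rw [e]), (hon _ _).mp h3⟩, ?_⟩
      rintro y ⟨hy1, hy2, hy3⟩
      exact hinj (h4 (A y) ⟨⟨y, hy1, rfl⟩, fun e => hy2 (hinj e), (hon _ _).mpr hy3⟩)
    obtain ⟨Z, ⟨s, t, hs, ht, hst, rfl⟩, w', hw', hne, hon'⟩ :=
      h.v1 w hw (T X) (T Y) (fun e => hXY (hTinj e)) ((hon _ _).mp hX) ((hon _ _).mp hY)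
        (hex X hX1) (hex Y hY1)
    refine ⟨s • X + t • Y, ⟨s, t, hs, ht, hst, rfl⟩, A w', ⟨w', hw', rfl⟩,
      fun e => hne (hinj e), ?_⟩
    rw [hon, hTadd]
    exact hon'

end Pool.ACA
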