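import Pool.Agent.Lib.MP_aca35e_co.Defs
import Pool.Agent.Lib.MP_aca35e_co.C1
import Pool.Agent.Lib.MP_aca35e_co.L1

/-!
# MP_aca35e_co, row L2

After a linear change (swap `(u,v) ↦ (v,u)`, reflection `(u,-v)`, point reflection `(-u,-v)`) `N2` holds.
Proof: (1) one of `{w ∈ W | |w.2| ≤ |w.1|}`, `{w ∈ W | |w.1| ≤ |w.2|}` is infinite; swap (L1) so that the
first one, `W₁`, is infinite. All `w ∈ W₁` have `w.1 ≠ 0` (as `(0,0) ∉ W`) and slope `w.2 / w.1 ∈ [-1,1]`.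
(2) There is `m ∈ [-1,1]` such that for all `ε > 0` infinitely many `w ∈ W₁` have slope in `(m-ε, m+ε)`
(Bolzano-Weierstrass: bisection, or compactness of `[-1,1]`: otherwise cover by finitely many
neighbourhoods each with finitely many `w`). (3) only finitely many `w` have slope exactly `m` (`fin_line`
of C1: line `-m u + v = 0`). (4) either for all `ε` infinitely many slopes in `(m, m+ε)`, or for all `ε`
infinitely many in `(m-ε, m)` (two bad `ε`: take the min); in the second case apply the reflection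
`(u,-v)`, `m ↦ -m`. (5) the same pigeonhole for the sign of `u`; if `u > 0` apply `(-u,-v)`.
For `u < 0`: slope in `(m, m+ε)` iff `w.2 < m * w.1 ∧ (m+ε) * w.1 < w.2`.
-/

set_option autoImplicit false
set_option linter.unusedVariables false

namespace Pool.ACA

open Set Filter Topology

private theorem L2_line {D : ℕ} {p : MvPolynomial (Fin 2) ℝ} {W : Set (ℝ × ℝ)}
    (h : Setup D p W) (m : ℝ) : {w ∈ W | w.2 = m * w.1}.Finite := by
  by_contra hinf
  obtain ⟨S, hS, hcard⟩ := Set.Infinite.exists_subset_card_eq hinf (D + 1)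
  have h4 := h.hD
  have := fin_line h.cur (by omega) (-m) 1 0 (Or.inr one_ne_zero) S (fun w hw => by
    obtain ⟨h1, h2⟩ := hS hw
    exact ⟨h.zero w h1, by rw [h2]; ring⟩)
  omega

private theorem L2_acc {W : Set (ℝ × ℝ)} {f : ℝ × ℝ → ℝ} (hinf : W.Infinite)
    (hf : ∀ w ∈ W, f w ∈ Icc (-1 : ℝ) 1) :
    ∃ m : ℝ, ∀ ε > 0, {w ∈ W | |f w - m| < ε}.Infinite := by
  have hne : (cofinite ⊓ 𝓟 W).NeBot := cofinite_inf_principal_neBot_iff.2 hinf
  have hle : Filter.map f (cofinite ⊓ 𝓟 W) ≤ 𝓟 (Icc (-1 : ℝ) 1) := by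
    rw [Filter.le_principal_iff, Filter.mem_map]
    exact Filter.mem_of_superset (Filter.mem_inf_of_right (Filter.mem_principal_self W)) hf
  obtain ⟨m, -, hm⟩ := isCompact_Icc (a := (-1 : ℝ)) (b := 1) hle
  refine ⟨m, fun ε hε hfin => ?_⟩
  have hU : Metric.ball m ε ∈ 𝓝 m := Metric.ball_mem_nhds m hε
  have hV : f '' (W \ {w ∈ W | |f w - m| < ε}) ∈ Filter.map f (cofinite ⊓ 𝓟 W) := by
    rw [Filter.mem_map]
    have h1 : {w ∈ W | |f w - m| < ε}ᶜ ∩ W ∈ cofinite ⊓ 𝓟 W :=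
      Filter.inter_mem_inf hfin.compl_mem_cofinite (Filter.mem_principal_self W)
    refine Filter.mem_of_superset h1 ?_
    rintro w ⟨hw1, hw2⟩
    exact ⟨w, ⟨hw2, hw1⟩, rfl⟩
  obtain ⟨y, hy1, ⟨w, ⟨hw1, hw2⟩, rfl⟩⟩ := (clusterPt_iff_nonempty.1 hm) hU hV
  apply hw2
  refine ⟨hw1, ?_⟩
  rwa [Metric.mem_ball, Real.dist_eq] at hy1

private theorem L2_core {D : ℕ} {p : MvPolynomial (Fin 2) ℝ} {W : Set (ℝ × ℝ)}
    (h : Setup D p W) (hinf : {w ∈ W | |w.2| ≤ |w.1|}.Infinite) :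
    ∃ (p' : MvPolynomial (Fin 2) ℝ) (W' : Set (ℝ × ℝ)) (m : ℝ), Setup D p' W' ∧ N2 W' m := by
  have hne : ∀ w ∈ {w ∈ W | |w.2| ≤ |w.1|}, w.1 ≠ 0 := by
    rintro ⟨u, v⟩ ⟨hw, hle⟩ h0
    simp only at h0 hle
    subst h0
    rw [abs_zero] at hle
    have hv : v = 0 := abs_eq_zero.1 (le_antisymm hle (abs_nonneg v))
    subst hv
    exact h.ne hw
  obtain ⟨m, hm⟩ := L2_acc (f := fun w => w.2 / w.1) hinf (fun w hw => by
    have h1 := hne w hw
    have h2 : |w.2 / w.1| ≤ 1 := by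
      rw [abs_div]
      exact div_le_one_of_le₀ hw.2 (abs_nonneg _)
    exact abs_le.1 h2)
  have key : ∃ σ : ℝ, (σ = 1 ∨ σ = -1) ∧ ∃ τ : ℝ, (τ = 1 ∨ τ = -1) ∧ ∀ ε > 0,
      {w ∈ {w ∈ W | |w.2| ≤ |w.1|} | σ * w.1 < 0 ∧ 0 < τ * (w.2 / w.1 - m) ∧
        τ * (w.2 / w.1 - m) < ε}.Infinite := by
    by_contra hcon
    have hall : ∀ σ : ℝ, (σ = 1 ∨ σ = -1) → ∀ τ : ℝ, (τ = 1 ∨ τ = -1) → ∃ ε > 0,
      {w ∈ {w ∈ W | |w.2| ≤ |w.1|} | σ * w.1 < 0 ∧ 0 < τ * (w.2 / w.1 - m) ∧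
        τ * (w.2 / w.1 - m) < ε}.Finite := by
      intro σ hσ τ hτ
      by_contra hc
      apply hcon
      refine ⟨σ, hσ, τ, hτ, fun ε hε hfin => hc ⟨ε, hε, hfin⟩⟩
    obtain ⟨e1, he1, f1⟩ := hall 1 (Or.inl rfl) 1 (Or.inl rfl)
    obtain ⟨e2, he2, f2⟩ := hall 1 (Or.inl rfl) (-1) (Or.inr rfl)
    obtain ⟨e3, he3, f3⟩ := hall (-1) (Or.inr rfl) 1 (Or.inl rfl)
    obtain ⟨e4, he4, f4⟩ := hall (-1) (Or.inr rfl) (-1) (Or.inr rfl)
    have hpos : 0 < min (min e1 e2) (min e3 e4) :=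
      lt_min (lt_min he1 he2) (lt_min he3 he4)
    apply hm _ hpos
    refine (((f1.union f2).union (f3.union f4)).union (L2_line h m)).subset ?_
    rintro w ⟨hw, hlt⟩
    have h0 := hne w hw
    have l1 := lt_of_lt_of_le hlt ((min_le_left _ _).trans (min_le_left _ _))
    have l2 := lt_of_lt_of_le hlt ((min_le_left _ _).trans (min_le_right _ _))
    have l3 := lt_of_lt_of_le hlt ((min_le_right _ _).trans (min_le_left _ _))
    have l4 := lt_of_lt_of_le hlt ((min_le_right _ _).trans (min_le_right _ _))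
    rcases lt_trichotomy (w.2 / w.1 - m) 0 with hs | hs | hs
    · rw [abs_of_neg hs] at l1 l2 l3 l4
      rcases lt_or_gt_of_ne h0 with hu | hu
      · refine Or.inl (Or.inl (Or.inr ⟨hw, by linarith, by linarith, by linarith⟩))
      · refine Or.inl (Or.inr (Or.inr ⟨hw, by linarith, by linarith, by linarith⟩))
    · refine Or.inr ⟨hw.1, ?_⟩
      have : w.2 / w.1 = m := by linarith
      rw [div_eq_iff h0] at this
      exact this
    · rw [abs_of_pos hs] at l1 l2 l3 l4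
      rcases lt_or_gt_of_ne h0 with hu | hu
      · refine Or.inl (Or.inl (Or.inl ⟨hw, by linarith, by linarith, by linarith⟩))
      · refine Or.inl (Or.inr (Or.inl ⟨hw, by linarith, by linarith, by linarith⟩))
  obtain ⟨σ, hσ, τ, hτ, hk⟩ := key
  have hσ0 : σ ≠ 0 := by rcases hσ with rfl | rfl <;> norm_num
  have hτ0 : τ ≠ 0 := by rcases hτ with rfl | rfl <;> norm_num
  obtain ⟨p', hp'⟩ := h.lin σ 0 0 (σ * τ) (by
    rw [zero_mul, sub_zero]
    exact mul_ne_zero hσ0 (mul_ne_zero hσ0 hτ0))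
  refine ⟨p', _, τ * m, hp', fun ε hε => ?_⟩
  have hinj : Function.Injective
      (fun w : ℝ × ℝ => (σ * w.1 + 0 * w.2, 0 * w.1 + σ * τ * w.2)) := by
    rintro ⟨u, v⟩ ⟨u', v'⟩ he
    simp only [zero_mul, add_zero, zero_add, Prod.mk.injEq] at he
    exact Prod.ext (mul_left_cancel₀ hσ0 he.1) (mul_left_cancel₀ (mul_ne_zero hσ0 hτ0) he.2)
  refine ((hk ε hε).image (hinj.injOn)).mono ?_
  rintro _ ⟨w, ⟨hw, hu, hs1, hs2⟩, rfl⟩
  refine ⟨⟨w, hw.1, rfl⟩, ?_, ?_, ?_⟩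
  · simpa using hu
  · have h0 := hne w hw
    have hw2 : w.2 = (w.2 / w.1) * w.1 := by field_simp
    have hmul := mul_neg_of_pos_of_neg hs1 hu
    simp only [zero_mul, add_zero, zero_add]
    have e : σ * τ * w.2 = σ * τ * ((w.2 / w.1) * w.1) := by rw [← hw2]
    rw [e]
    nlinarith [hmul]
  · have h0 := hne w hw
    have hw2 : w.2 = (w.2 / w.1) * w.1 := by field_simp
    have hmul : 0 < (τ * (w.2 / w.1 - m) - ε) * (σ * w.1) :=
      mul_pos_of_neg_of_neg (by linarith) hu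
    simp only [zero_mul, add_zero, zero_add]
    have e : σ * τ * w.2 = σ * τ * ((w.2 / w.1) * w.1) := by rw [← hw2]
    rw [e]
    nlinarith [hmul]

theorem Setup.n2 {D : ℕ} {p : MvPolynomial (Fin 2) ℝ} {W : Set (ℝ × ℝ)} (h : Setup D p W) :
    ∃ (p' : MvPolynomial (Fin 2) ℝ) (W' : Set (ℝ × ℝ)) (m : ℝ), Setup D p' W' ∧ N2 W' m := by
  by_cases h1 : {w ∈ W | |w.2| ≤ |w.1|}.Infinite
  · exact L2_core h h1
  · have h1' : {w ∈ W | |w.2| ≤ |w.1|}.Finite := by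
      rwa [Set.not_infinite] at h1
    have h2 : {w ∈ W | |w.1| ≤ |w.2|}.Infinite := by
      intro hf
      apply h.inf
      refine (h1'.union hf).subset fun w hw => ?_
      rcases le_total |w.2| |w.1| with h' | h'
      · exact Or.inl ⟨hw, h'⟩
      · exact Or.inr ⟨hw, h'⟩
    obtain ⟨p', hp'⟩ := h.lin 0 1 1 0 (by norm_num)
    apply L2_core hp'
    have hinj : Function.Injective
        (fun w : ℝ × ℝ => (0 * w.1 + 1 * w.2, 1 * w.1 + 0 * w.2)) := by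
      rintro ⟨u, v⟩ ⟨u', v'⟩ he
      simp only [zero_mul, add_zero, zero_add, one_mul, Prod.mk.injEq] at he
      exact Prod.ext he.2 he.1
    refine (h2.image (hinj.injOn)).mono ?_
    rintro _ ⟨w, ⟨hw, hle⟩, rfl⟩
    refine ⟨⟨w, hw, rfl⟩, ?_⟩
    simpa using hle

end Pool.ACA
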