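import Pool.Agent.Lib.MP_aca35e_co.Defs

/-!
# MP_aca35e_co, row W1

Markers. Sort `B` (`Finset.orderEmbOfFin`), `b 0 < b 1 < ...`. Put `mr 0 ∈ (c, b 0) ∖ E`, `mr i ∈ (b (i m - 1), b (i m)) ∖ E`, and
`mr K ∈ (b (K m - 1), c') ∖ E` (an interval minus a finite set is nonempty). `m = 0`: arbitrary increasing points.
-/

set_option autoImplicit false
set_option linter.unusedVariables false

namespace Pool.ACA

open Set Filter Topology

private theorem above (c c' : ℝ) (hc : c < c') (B : Finset ℝ) (hB : ∀ b ∈ B, c < b) :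
    ∃ t, c < t ∧ t < c' ∧ ∀ b ∈ B, t < b := by
  classical
  have hne : (insert c' B).Nonempty := Finset.insert_nonempty _ _
  have hx : c < (insert c' B).min' hne := by
    rw [Finset.lt_min'_iff]
    intro y hy
    rcases Finset.mem_insert.mp hy with h | h
    · rw [h]
      exact hc
    · exact hB y h
  obtain ⟨t, ht1, ht2⟩ := exists_between hx
  refine ⟨t, ht1, ht2.trans_le (Finset.min'_le _ _ (Finset.mem_insert_self _ _)),
    fun b hb => ht2.trans_le (Finset.min'_le _ _ (Finset.mem_insert_of_mem hb))⟩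

private theorem split (c c' : ℝ) (hc : c < c') (B : Finset ℝ) (hB : ∀ b ∈ B, c < b ∧ b < c')
    (j : ℕ) (hj : j ≤ B.card) : ∃ t, c < t ∧ t < c' ∧ j ≤ (B.filter (fun b => b < t)).card ∧
      B.card ≤ j + (B.filter (fun b => t < b)).card := by
  classical
  induction j with
  | zero =>
    obtain ⟨t, h1, h2, h3⟩ := above c c' hc B (fun b hb => (hB b hb).1)
    refine ⟨t, h1, h2, Nat.zero_le _, ?_⟩
    rw [Finset.filter_true_of_mem h3, zero_add]
  | succ j ih =>
    obtain ⟨t, h1, h2, h3, h4⟩ := ih (by omega)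
    have hne : (B.filter (fun b => t < b)).Nonempty := by
      rw [← Finset.card_pos]
      omega
    obtain ⟨b₀, hb₀, hmin⟩ := Finset.exists_min_image (B.filter (fun b => t < b)) id hne
    obtain ⟨hb₀B, hb₀t⟩ := Finset.mem_filter.mp hb₀
    obtain ⟨t', k1, k2, k3⟩ := above b₀ c' (hB b₀ hb₀B).2 (B.filter (fun b => b₀ < b))
      (fun b hb => (Finset.mem_filter.mp hb).2)
    refine ⟨t', (hB b₀ hb₀B).1.trans k1, k2, ?_, ?_⟩
    · have hsub : insert b₀ (B.filter (fun b => b < t)) ⊆ B.filter (fun b => b < t') := by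
        intro b hb
        rcases Finset.mem_insert.mp hb with h | h
        · rw [h]
          exact Finset.mem_filter.mpr ⟨hb₀B, k1⟩
        · obtain ⟨h5, h6⟩ := Finset.mem_filter.mp h
          exact Finset.mem_filter.mpr ⟨h5, by linarith⟩
      have hni : b₀ ∉ B.filter (fun b => b < t) := by
        intro h
        have := (Finset.mem_filter.mp h).2
        linarith
      have := Finset.card_le_card hsub
      rw [Finset.card_insert_of_notMem hni] at this
      omega
    · have hsub : B.filter (fun b => t < b) ⊆ insert b₀ (B.filter (fun b => t' < b)) := by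
        intro b hb
        have h5 := hmin b hb
        obtain ⟨h6, h7⟩ := Finset.mem_filter.mp hb
        rcases eq_or_lt_of_le h5 with h | h
        · exact Finset.mem_insert.mpr (Or.inl h.symm)
        · refine Finset.mem_insert_of_mem (Finset.mem_filter.mpr ⟨h6, ?_⟩)
          exact k3 b (Finset.mem_filter.mpr ⟨h6, h⟩)
      have h8 := Finset.card_le_card hsub
      have h9 := Finset.card_insert_le b₀ (B.filter (fun b => t' < b))
      omega

private theorem avoid (c t : ℝ) (h : c < t) (E : Set ℝ) (hE : E.Finite) :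
    ∃ x, c < x ∧ x < t ∧ x ∉ E := by
  obtain ⟨x, hx⟩ := ((Set.Ioo_infinite h).diff hE).nonempty
  exact ⟨x, hx.1.1, hx.1.2, hx.2⟩

theorem markers (c c' : ℝ) (hc : c < c') (K m : ℕ) (B : Finset ℝ) (hB : ∀ b ∈ B, c < b ∧ b < c')
    (hcard : K * m ≤ B.card) (E : Set ℝ) (hE : E.Finite) :
    ∃ mr : ℕ → ℝ, c < mr 0 ∧ mr K < c' ∧ (∀ i < K, mr i < mr (i + 1)) ∧ (∀ i ≤ K, mr i ∉ E) ∧
      ∀ i < K, m ≤ (B.filter (fun b => mr i < b ∧ b < mr (i + 1))).card := by
  classical
  induction K generalizing c B with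
  | zero =>
    obtain ⟨x, h1, h2, h3⟩ := avoid c c' hc E hE
    exact ⟨fun _ => x, h1, h2, fun i hi => absurd hi (Nat.not_lt_zero i), fun _ _ => h3,
      fun i hi => absurd hi (Nat.not_lt_zero i)⟩
  | succ K ih =>
    rw [Nat.succ_mul] at hcard
    obtain ⟨t, h1, h2, h3, h4⟩ := split c c' hc B hB m (by omega)
    obtain ⟨mr, k1, k2, k3, k4, k5⟩ := ih t h2 (B.filter (fun b => t < b))
      (fun b hb => ⟨(Finset.mem_filter.mp hb).2, (hB b (Finset.mem_filter.mp hb).1).2⟩) (by omega)
    obtain ⟨t₁, l1, l2, l3⟩ := above c t h1 B (fun b hb => (hB b hb).1)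
    obtain ⟨x, x1, x2, x3⟩ := avoid c t₁ l1 E hE
    refine ⟨fun i => Nat.casesOn i x mr, x1, k2, ?_, ?_, ?_⟩
    · intro i hi
      cases i with
      | zero => exact (x2.trans l2).trans k1
      | succ i => exact k3 i (by omega)
    · intro i hi
      cases i with
      | zero => exact x3
      | succ i => exact k4 i (by omega)
    · intro i hi
      cases i with
      | zero =>
        refine h3.trans (Finset.card_le_card ?_)
        intro b hb
        obtain ⟨h5, h6⟩ := Finset.mem_filter.mp hb
        exact Finset.mem_filter.mpr ⟨h5, x2.trans (l3 b h5), h6.trans k1⟩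
      | succ i =>
        refine (k5 i (by omega)).trans (Finset.card_le_card ?_)
        intro b hb
        obtain ⟨h5, h6⟩ := Finset.mem_filter.mp hb
        exact Finset.mem_filter.mpr ⟨(Finset.mem_filter.mp h5).1, h6⟩

end Pool.ACA
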