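import Pool.Agent.Lib.MP_aca35e_co.Defs
import Pool.Agent.Lib.MP_aca35e_co.C5

/-!
# MP_aca35e_co, row W2

Construction of a family. `U = {u | t₀ < s u < t₁}` is an open interval not containing `0`. For `X ∈ reg` the function
`g u = ev (u, φ u) X.1 - X.2 = φ u - u X.1 - X.2` has derivative `deriv φ u - X.1`, of sign `σ ≠ 0` at all zeros of `g`
in `U`: so it has at most one zero in `U` (between two consecutive zeros, or: the set of zeros is discrete, and at two
zeros `u < u'` with derivative of the same sign there is a third zero between; take the sup of zeros...; simplest: if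
`g u = g u' = 0`, `u < u'`, `σ = 1`: `g > 0` just right of `u`; let `v = sInf {y ∈ (u, u'] | g y ≤ 0}`, then `g v = 0` and `g ≥ 0`
left of `v`, so `deriv g v ≤ 0`). `par X` := the zero (`hex`). `cont`: `ContDiffAt.implicitFunction` for
`f (X, u) = φ u - u X.1 - X.2` at `(X₀, par X₀)` gives a continuous local solution with values in `U` near `X₀`, and by
uniqueness it is `par`. Outside `reg` let `par X = 0`.
-/

set_option autoImplicit false
set_option linter.unusedVariables false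

namespace Pool.ACA

open Set Filter Topology

private theorem sign_near (h : ℝ → ℝ) (h' a : ℝ) (hh : HasDerivAt h h' a) (h0 : h a = 0)
    (hp : 0 < h') : ∃ η > 0, ∀ y, |y - a| < η → (a < y → 0 < h y) ∧ (y < a → h y < 0) := by
  rw [hasDerivAt_iff_tendsto_slope] at hh
  have h1 : ∀ᶠ y in 𝓝[≠] a, 0 < slope h a y := hh.eventually_const_lt hp
  rw [eventually_nhdsWithin_iff, Metric.eventually_nhds_iff] at h1
  obtain ⟨η, hη, h2⟩ := h1
  refine ⟨η, hη, fun y hy => ?_⟩
  rw [← Real.dist_eq] at hy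
  constructor
  · intro hay
    have h3 := h2 hy (ne_of_gt hay)
    rw [slope_def_field, h0, sub_zero] at h3
    have h4 : 0 < y - a := by linarith
    by_contra hc
    have h5 : h y / (y - a) ≤ 0 := div_nonpos_of_nonpos_of_nonneg (not_lt.mp hc) h4.le
    linarith
  · intro hay
    have h3 := h2 hy (ne_of_lt hay)
    rw [slope_def_field, h0, sub_zero] at h3
    have h4 : y - a < 0 := by linarith
    by_contra hc
    have h5 : h y / (y - a) ≤ 0 := div_nonpos_of_nonneg_of_nonpos (not_lt.mp hc) h4.le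
    linarith

/-- a function with positive derivative at its zeros has at most one zero -/
private theorem uniq_zero (h : ℝ → ℝ) (a b : ℝ) (hab : a < b)
    (hc : ContinuousOn h (Icc a b)) (ha : h a = 0) (hb : h b = 0)
    (hd : ∀ u ∈ Icc a b, h u = 0 → ∃ h', HasDerivAt h h' u ∧ 0 < h') : False := by
  obtain ⟨ha', k1, k2⟩ := hd a ⟨le_refl a, hab.le⟩ ha
  obtain ⟨η, hη, k3⟩ := sign_near h ha' a k1 ha k2
  -- a point `c` right of `a`
  obtain ⟨c, hac, hcb, hpos⟩ : ∃ c, a < c ∧ c < b ∧ 0 < h c := by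
    have hm : 0 < min (η / 2) ((b - a) / 2) := lt_min (by linarith) (by linarith)
    have hm1 := min_le_left (η / 2) ((b - a) / 2)
    have hm2 := min_le_right (η / 2) ((b - a) / 2)
    refine ⟨a + min (η / 2) ((b - a) / 2), by linarith, by linarith, ?_⟩
    refine (k3 _ ?_).1 (by linarith)
    rw [add_sub_cancel_left, abs_of_pos hm]
    linarith
  have hcc : ContinuousOn h (Icc c b) := hc.mono (Icc_subset_Icc_left hac.le)
  have hclosed : IsClosed (Icc c b ∩ h ⁻¹' (Iic 0)) :=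
    hcc.preimage_isClosed_of_isClosed isClosed_Icc isClosed_Iic
  have hcomp : IsCompact (Icc c b ∩ h ⁻¹' (Iic 0)) :=
    isCompact_Icc.of_isClosed_subset hclosed inter_subset_left
  have hne : (Icc c b ∩ h ⁻¹' (Iic 0)).Nonempty :=
    ⟨b, ⟨hcb.le, le_refl b⟩, by
      change h b ≤ 0
      exact hb.le⟩
  obtain ⟨v, hv⟩ := hcomp.exists_isLeast hne
  have hvS := hv.1
  have hcv : c < v := by
    rcases hvS.1.1.eq_or_lt with h1 | h1
    · exfalso
      have h2 : h v ≤ 0 := hvS.2
      rw [← h1] at h2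
      linarith
    · exact h1
  have hleft : ∀ y, c ≤ y → y < v → 0 < h y := by
    intro y hy hyv
    by_contra hn
    have := hv.2 ⟨⟨hy, hyv.le.trans hvS.1.2⟩, not_lt.mp hn⟩
    linarith
  have hv0 : h v = 0 := by
    refine le_antisymm hvS.2 ?_
    by_contra hn
    have hn' : h v < 0 := not_le.mp hn
    have hIvt := intermediate_value_Ioo' hcv.le (hcc.mono (Icc_subset_Icc_right hvS.1.2))
    obtain ⟨y, hy, hy0⟩ := hIvt ⟨hn', hpos⟩
    have := hleft y hy.1.le hy.2
    linarith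
  obtain ⟨hv', q1, q2⟩ := hd v ⟨by linarith, hvS.1.2⟩ hv0
  obtain ⟨η', hη', q3⟩ := sign_near h hv' v q1 hv0 q2
  have hm : 0 < min (η' / 2) ((v - c) / 2) := lt_min (by linarith) (by linarith)
  have hm1 := min_le_left (η' / 2) ((v - c) / 2)
  have hm2 := min_le_right (η' / 2) ((v - c) / 2)
  have e1 := (q3 (v - min (η' / 2) ((v - c) / 2)) (by
    rw [show v - min (η' / 2) ((v - c) / 2) - v = -(min (η' / 2) ((v - c) / 2)) by ring, abs_neg,
      abs_of_pos hm]
    linarith)).2 (by linarith)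
  have e2 := hleft (v - min (η' / 2) ((v - c) / 2)) (by linarith) (by linarith)
  linarith

theorem mkFam (p : MvPolynomial (Fin 2) ℝ) (φ : ℝ → ℝ) (s t₀ t₁ x₀ x₁ ρ σ : ℝ)
    (hs : s = 1 ∨ s = -1) (ht₀ : 0 ≤ t₀) (hσ : σ = 1 ∨ σ = -1)
    (han : AnalyticOnNhd ℝ φ {u | t₀ < s * u ∧ s * u < t₁})
    (hz : ∀ u, t₀ < s * u → s * u < t₁ → pv p (u, φ u) = 0)
    (hex : ∀ X ∈ reg x₀ x₁ ρ, ∃ u, t₀ < s * u ∧ s * u < t₁ ∧ ev (u, φ u) X.1 = X.2)
    (hd : ∀ X ∈ reg x₀ x₁ ρ, ∀ u, t₀ < s * u → s * u < t₁ → ev (u, φ u) X.1 = X.2 →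
      0 < σ * (deriv φ u - X.1)) :
    ∃ f : Fam p (reg x₀ x₁ ρ), f.U = {u | t₀ < s * u ∧ s * u < t₁} ∧ f.φ = φ := by
  classical
  set U : Set ℝ := {u | t₀ < s * u ∧ s * u < t₁} with hU
  have hUo : IsOpen U := by
    have h : U = (fun u => s * u) ⁻¹' (Ioo t₀ t₁) := rfl
    rw [h]
    exact isOpen_Ioo.preimage (by fun_prop)
  have hUc : ∀ a ∈ U, ∀ b ∈ U, Icc a b ⊆ U := by
    intro a ha b hb y hy
    rcases hs with rfl | rfl
    · exact ⟨by have := ha.1; have := hy.1; linarith, by have := hb.2; have := hy.2; linarith⟩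
    · exact ⟨by have := hb.1; have := hy.2; linarith, by have := ha.2; have := hy.1; linarith⟩
  have hσσ : σ * σ = 1 := by rcases hσ with rfl | rfl <;> norm_num
  -- the function `h X u`
  have hder : ∀ X : ℝ × ℝ, ∀ u ∈ U,
      HasDerivAt (fun y => σ * (ev (y, φ y) X.1 - X.2)) (σ * (deriv φ u - X.1)) u := by
    intro X u hu
    have h1 : HasDerivAt φ (deriv φ u) u := (han u hu).differentiableAt.hasDerivAt
    have h2 := ((h1.sub ((hasDerivAt_id u).mul_const X.1)).sub_const X.2).const_mul σ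
    simp only [id, one_mul] at h2
    exact h2
  have hcont : ∀ X : ℝ × ℝ, ContinuousOn (fun y => σ * (ev (y, φ y) X.1 - X.2)) U := fun X u hu =>
    (hder X u hu).continuousAt.continuousWithinAt
  have hzero : ∀ X : ℝ × ℝ, ∀ u, σ * (ev (u, φ u) X.1 - X.2) = 0 ↔ ev (u, φ u) X.1 = X.2 := by
    intro X u
    constructor
    · intro h
      have : σ * (σ * (ev (u, φ u) X.1 - X.2)) = 0 := by rw [h, mul_zero]
      rw [← mul_assoc, hσσ, one_mul] at this
      linarith
    · intro h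
      rw [h, sub_self, mul_zero]
  have huniq : ∀ X ∈ reg x₀ x₁ ρ, ∀ u ∈ U, ∀ u' ∈ U, ev (u, φ u) X.1 = X.2 →
      ev (u', φ u') X.1 = X.2 → ¬ u < u' := by
    intro X hX u hu u' hu' e1 e2 hlt
    refine uniq_zero (fun y => σ * (ev (y, φ y) X.1 - X.2)) u u' hlt
      ((hcont X).mono (hUc u hu u' hu')) ((hzero X u).mpr e1) ((hzero X u').mpr e2) ?_
    intro y hy hy0
    have hyU := hUc u hu u' hu' hy
    exact ⟨_, hder X y hyU, hd X hX y hyU.1 hyU.2 ((hzero X y).mp hy0)⟩
  have huniq' : ∀ X ∈ reg x₀ x₁ ρ, ∀ u ∈ U, ∀ u' ∈ U, ev (u, φ u) X.1 = X.2 →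
      ev (u', φ u') X.1 = X.2 → u = u' := by
    intro X hX u hu u' hu' e1 e2
    exact le_antisymm (not_lt.mp (huniq X hX u' hu' u hu e2 e1))
      (not_lt.mp (huniq X hX u hu u' hu' e1 e2))
  have hex' : ∀ X : ℝ × ℝ, ∃ u, X ∈ reg x₀ x₁ ρ → u ∈ U ∧ ev (u, φ u) X.1 = X.2 := by
    intro X
    by_cases hX : X ∈ reg x₀ x₁ ρ
    · obtain ⟨u, h1, h2, h3⟩ := hex X hX
      exact ⟨u, fun _ => ⟨⟨h1, h2⟩, h3⟩⟩
    · exact ⟨0, fun h => (hX h).elim⟩
  choose par hpar using hex'
  have hreg : IsOpen (reg x₀ x₁ ρ) := isOpen_Ioo.prod isOpen_Ioo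
  have hcp : ContinuousOn par (reg x₀ x₁ ρ) := by
    intro X₀ hX₀
    apply ContinuousAt.continuousWithinAt
    obtain ⟨hu0, he0⟩ := hpar X₀ hX₀
    rw [Metric.continuousAt_iff']
    intro ε hε
    obtain ⟨η, hη, k⟩ := sign_near _ _ (par X₀) (hder X₀ (par X₀) hu0)
      ((hzero X₀ (par X₀)).mpr he0) (hd X₀ hX₀ _ hu0.1 hu0.2 he0)
    obtain ⟨r, hr, hrU⟩ := Metric.isOpen_iff.mp hUo (par X₀) hu0
    obtain ⟨e, he, he1, he2, he3⟩ : ∃ e > 0, e < ε ∧ e < η ∧ e < r := by
      have h1 : 0 < min ε (min η r) := lt_min hε (lt_min hη hr)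
      refine ⟨min ε (min η r) / 2, by linarith, ?_, ?_, ?_⟩
      · have := min_le_left ε (min η r)
        linarith
      · have := (min_le_right ε (min η r)).trans (min_le_left η r)
        linarith
      · have := (min_le_right ε (min η r)).trans (min_le_right η r)
        linarith
    have hR : σ * (ev (par X₀ + e, φ (par X₀ + e)) X₀.1 - X₀.2) > 0 :=
      (k (par X₀ + e) (by rw [add_sub_cancel_left, abs_of_pos he]; exact he2)).1 (by linarith)
    have hL : σ * (ev (par X₀ - e, φ (par X₀ - e)) X₀.1 - X₀.2) < 0 :=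
      (k (par X₀ - e) (by
        rw [show par X₀ - e - par X₀ = -e by ring, abs_neg, abs_of_pos he]; exact he2)).2
        (by linarith)
    have hUL : par X₀ - e ∈ U := hrU (by
      rw [Metric.mem_ball, Real.dist_eq, show par X₀ - e - par X₀ = -e by ring, abs_neg,
        abs_of_pos he]
      exact he3)
    have hUR : par X₀ + e ∈ U := hrU (by
      rw [Metric.mem_ball, Real.dist_eq, add_sub_cancel_left, abs_of_pos he]
      exact he3)
    have cR : ContinuousAt
        (fun X : ℝ × ℝ => σ * (ev (par X₀ + e, φ (par X₀ + e)) X.1 - X.2)) X₀ := by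
      unfold ev
      fun_prop
    have cL : ContinuousAt
        (fun X : ℝ × ℝ => σ * (ev (par X₀ - e, φ (par X₀ - e)) X.1 - X.2)) X₀ := by
      unfold ev
      fun_prop
    filter_upwards [cR.eventually_const_lt hR, cL.eventually_lt_const hL, hreg.mem_nhds hX₀]
      with X hXR hXL hX
    have hcX : ContinuousOn (fun y => σ * (ev (y, φ y) X.1 - X.2))
        (Icc (par X₀ - e) (par X₀ + e)) := (hcont X).mono (hUc _ hUL _ hUR)
    obtain ⟨y, hy, hy0⟩ := intermediate_value_Ioo (by linarith) hcX ⟨hXL, hXR⟩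
    have hyU : y ∈ U := hUc _ hUL _ hUR ⟨hy.1.le, hy.2.le⟩
    have hpy : par X = y := huniq' X hX _ (hpar X hX).1 _ hyU (hpar X hX).2 ((hzero X y).mp hy0)
    rw [hpy, Real.dist_eq, abs_lt]
    exact ⟨by have := hy.1; linarith, by have := hy.2; linarith⟩
  refine ⟨{
    U := U
    φ := φ
    par := par
    isOpen := hUo
    mem := fun X hX => (hpar X hX).1
    inc := fun X hX => (hpar X hX).2
    uniq := fun X hX u hu he => huniq' X hX u hu _ (hpar X hX).1 he (hpar X hX).2
    zero := fun u hu => hz u hu.1 hu.2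
    an := han
    der := ?_
    cont := hcp }, rfl, rfl⟩
  intro X hX h
  have := hd X hX (par X) (hpar X hX).1.1 (hpar X hX).1.2 (hpar X hX).2
  rw [h, sub_self, mul_zero] at this
  exact lt_irrefl _ this

end Pool.ACA
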