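import Pool.Agent.Lib.MP_aca35e_co.Defs
import Pool.Agent.Lib.MP_aca35e_co.W2

/-!
# MP_aca35e_co, row W3

Far families. Case `s = 1`: `ev (u, φ u) x = u (φ u / u - x) > 0` for `x ≤ c'`; derivative in `u`: `deriv φ u - x > 0`, so increasing in
`u = |u|`. Case `s = -1`: `u < 0`, `φ u / u < c ≤ x`, so `u (φ u / u - x) > 0`; derivative `deriv φ u - x < 0`, decreasing in `u`,
increasing in `|u|`. `ρ₀ = min_{x ∈ {c, c'}} ev (s u₃/2, φ (s u₃/2)) x` (affine in `x`). `hex` of W2 for `X = (x, r)`, `0 < r < ρ ≤ ρ₀`: IVT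
between `u → 0` (`ev → 0` by `hlim`) and `u = s u₃/2` (`ev ≥ ρ₀ > r`). W2 with `t₀ = 0`, `σ = s`.
-/

set_option autoImplicit false
set_option linter.unusedVariables false

namespace Pool.ACA

open Set Filter Topology

private theorem w3_pos (φ : ℝ → ℝ) (s u₃ c c' : ℝ)
    (hfar : (s = 1 ∧ ∀ u ∈ dom s u₃, c' < φ u / u ∧ c' < deriv φ u) ∨
      (s = -1 ∧ ∀ u ∈ dom s u₃, φ u / u < c ∧ deriv φ u < c)) :
    ∀ u ∈ dom s u₃, ∀ x ∈ Icc c c', 0 < ev (u, φ u) x ∧ 0 < s * (deriv φ u - x) := by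
  intro u hu x hx
  unfold ev
  simp only
  rcases hfar with ⟨rfl, hf⟩ | ⟨rfl, hf⟩
  · have hu0 : 0 < u := by have := hu.1; linarith
    obtain ⟨h1, h2⟩ := hf u hu
    rw [lt_div_iff₀ hu0] at h1
    constructor
    · nlinarith [mul_le_mul_of_nonneg_left hx.2 hu0.le]
    · linarith [hx.2]
  · have hu0 : u < 0 := by have := hu.1; linarith
    obtain ⟨h1, h2⟩ := hf u hu
    rw [div_lt_iff_of_neg hu0] at h1
    constructor
    · nlinarith [mul_le_mul_of_nonpos_left hx.1 hu0.le]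
    · linarith [hx.1]

theorem far_fam (p : MvPolynomial (Fin 2) ℝ) (φ : ℝ → ℝ) (s u₃ c c' : ℝ)
    (hs : s = 1 ∨ s = -1) (hu₃ : 0 < u₃) (hcc : c ≤ c') (han : AnalyticOnNhd ℝ φ (dom s u₃))
    (hz : ∀ u ∈ dom s u₃, pv p (u, φ u) = 0) (hlim : Tendsto φ (𝓝[dom s u₃] 0) (𝓝 0))
    (hfar : (s = 1 ∧ ∀ u ∈ dom s u₃, c' < φ u / u ∧ c' < deriv φ u) ∨
      (s = -1 ∧ ∀ u ∈ dom s u₃, φ u / u < c ∧ deriv φ u < c)) :
    (∀ u ∈ dom s u₃, ∀ x ∈ Icc c c', 0 < ev (u, φ u) x) ∧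
    (∀ u ∈ dom s u₃, ∀ u' ∈ dom s u₃, |u| < |u'| → ∀ x ∈ Icc c c',
      ev (u, φ u) x < ev (u', φ u') x) ∧
    ∃ ρ₀ > 0, ∀ ρ, 0 < ρ → ρ ≤ ρ₀ → ∀ x₀ x₁, c ≤ x₀ → x₁ ≤ c' →
      ∃ f : Fam p (reg x₀ x₁ ρ), f.U = dom s u₃ ∧ f.φ = φ := by
  have hF := w3_pos φ s u₃ c c' hfar
  have hss : s * s = 1 := by rcases hs with rfl | rfl <;> norm_num
  have hmem : ∀ t ∈ Ioo 0 u₃, s * t ∈ dom s u₃ := by
    intro t ht
    have e : s * (s * t) = t := by linear_combination t * hss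
    exact ⟨by rw [e]; exact ht.1, by rw [e]; exact ht.2⟩
  have hback : ∀ u : ℝ, s * (s * u) = u := fun u => by linear_combination u * hss
  have habs : ∀ u ∈ dom s u₃, |u| = s * u := by
    intro u hu
    have h1 : |s * u| = s * u := abs_of_pos hu.1
    have h2 : |s| = 1 := by rcases hs with rfl | rfl <;> simp
    rw [abs_mul, h2, one_mul] at h1
    exact h1
  have hder : ∀ x : ℝ, ∀ t ∈ Ioo 0 u₃,
      HasDerivAt (fun y => ev (s * y, φ (s * y)) x) (s * (deriv φ (s * t) - x)) t := by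
    intro x t ht
    have h1 : HasDerivAt φ (deriv φ (s * t)) (s * t) :=
      (han _ (hmem t ht)).differentiableAt.hasDerivAt
    have h2 : HasDerivAt (fun y : ℝ => s * y) (s * 1) t := (hasDerivAt_id t).const_mul s
    have h3 := h1.comp t h2
    have h4 := h3.sub (h2.mul_const x)
    have e : deriv φ (s * t) * (s * 1) - s * 1 * x = s * (deriv φ (s * t) - x) := by ring
    rw [e] at h4
    exact h4
  have hmono : ∀ x ∈ Icc c c', StrictMonoOn (fun y => ev (s * y, φ (s * y)) x) (Ioo 0 u₃) := by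
    intro x hx
    refine strictMonoOn_of_deriv_pos (convex_Ioo 0 u₃) ?_ ?_
    · exact fun t ht => (hder x t ht).continuousAt.continuousWithinAt
    · intro t ht
      rw [interior_Ioo] at ht
      rw [(hder x t ht).deriv]
      exact (hF _ (hmem t ht) x hx).2
  refine ⟨fun u hu x hx => (hF u hu x hx).1, ?_, ?_⟩
  · intro u hu u' hu' hlt x hx
    rw [habs u hu, habs u' hu'] at hlt
    have := hmono x hx (a := s * u) ⟨hu.1, hu.2⟩ (b := s * u') ⟨hu'.1, hu'.2⟩ hlt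
    simp only [hback] at this
    exact this
  · have hh : u₃ / 2 ∈ Ioo 0 u₃ := ⟨by linarith, by linarith⟩
    have hp1 := (hF _ (hmem _ hh) c ⟨le_rfl, hcc⟩).1
    have hp2 := (hF _ (hmem _ hh) c' ⟨hcc, le_rfl⟩).1
    refine ⟨min (ev (s * (u₃ / 2), φ (s * (u₃ / 2))) c) (ev (s * (u₃ / 2), φ (s * (u₃ / 2))) c'),
      lt_min hp1 hp2, ?_⟩
    intro ρ hρ hρ' x₀ x₁ hx₀ hx₁
    have hX : ∀ X ∈ reg x₀ x₁ ρ, X.1 ∈ Icc c c' := by
      intro X hX
      exact ⟨hx₀.trans hX.1.1.le, hX.1.2.le.trans hx₁⟩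
    refine mkFam p φ s 0 u₃ x₀ x₁ ρ s hs le_rfl hs han (fun u h1 h2 => hz u ⟨h1, h2⟩) ?_ ?_
    · intro X hXr
      have hx := hX X hXr
      have hr0 : 0 < X.2 := hXr.2.1
      have hr1 : X.2 < ρ := hXr.2.2
      -- upper value
      have hup : X.2 < ev (s * (u₃ / 2), φ (s * (u₃ / 2))) X.1 := by
        have h1 : ρ ≤ ev (s * (u₃ / 2), φ (s * (u₃ / 2))) c := hρ'.trans (min_le_left _ _)
        have h2 : ρ ≤ ev (s * (u₃ / 2), φ (s * (u₃ / 2))) c' := hρ'.trans (min_le_right _ _)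
        unfold ev at h1 h2 ⊢
        simp only at h1 h2 ⊢
        rcases le_total 0 (s * (u₃ / 2)) with hw | hw
        · nlinarith [mul_le_mul_of_nonneg_left hx.2 hw]
        · nlinarith [mul_le_mul_of_nonpos_left hx.1 hw]
      -- lower value
      have hto : Tendsto (fun u => ev (u, φ u) X.1) (𝓝[dom s u₃] 0) (𝓝 0) := by
        have h1 : Tendsto (fun u : ℝ => u * X.1) (𝓝[dom s u₃] 0) (𝓝 (0 * X.1)) :=
          (tendsto_nhdsWithin_of_tendsto_nhds tendsto_id).mul_const X.1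
        have h2 := hlim.sub h1
        simp only [zero_mul, sub_zero] at h2
        exact h2
      have hev : ∀ᶠ u in 𝓝[dom s u₃] 0, ev (u, φ u) X.1 < X.2 := hto.eventually_lt_const hr0
      rw [eventually_nhdsWithin_iff, Metric.eventually_nhds_iff] at hev
      obtain ⟨η, hη, hη'⟩ := hev
      obtain ⟨t, ht0, ht1, ht2⟩ : ∃ t, 0 < t ∧ t < η ∧ t < u₃ / 2 := by
        refine ⟨min (η / 2) (u₃ / 4), lt_min (by linarith) (by linarith), ?_, ?_⟩
        · exact (min_le_left _ _).trans_lt (by linarith)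
        · exact (min_le_right _ _).trans_lt (by linarith)
      have htm : t ∈ Ioo 0 u₃ := ⟨ht0, by linarith⟩
      have hlow : ev (s * t, φ (s * t)) X.1 < X.2 := by
        apply hη' _ (hmem t htm)
        rw [Real.dist_eq, sub_zero, habs _ (hmem t htm), hback]
        exact ht1
      have hcon : ContinuousOn (fun y => ev (s * y, φ (s * y)) X.1) (Icc t (u₃ / 2)) := by
        intro y hy
        exact (hder X.1 y ⟨ht0.trans_le hy.1, hy.2.trans_lt (by linarith)⟩).continuousAt.continuousWithinAt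
      obtain ⟨y, hy, hye⟩ := intermediate_value_Icc ht2.le hcon ⟨hlow.le, hup.le⟩
      have hym := hmem y ⟨ht0.trans_le hy.1, hy.2.trans_lt (by linarith)⟩
      exact ⟨s * y, hym.1, hym.2, hye⟩
    · intro X hXr u h1 h2 _
      exact (hF u ⟨h1, h2⟩ X.1 (hX X hXr)).2

theorem far_neg (φ : ℝ → ℝ) (s u₃ c c' : ℝ) (hcc : c ≤ c')
    (hfar : (s = 1 ∧ ∀ u ∈ dom s u₃, φ u / u < c) ∨ (s = -1 ∧ ∀ u ∈ dom s u₃, c' < φ u / u)) :
    ∀ u ∈ dom s u₃, ∀ x ∈ Icc c c', ev (u, φ u) x < 0 := by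
  intro u hu x hx
  unfold ev
  simp only
  rcases hfar with ⟨rfl, hf⟩ | ⟨rfl, hf⟩
  · have hu0 : 0 < u := by have := hu.1; linarith
    have h1 := hf u hu
    rw [div_lt_iff₀ hu0] at h1
    nlinarith [mul_le_mul_of_nonneg_left hx.1 hu0.le]
  · have hu0 : u < 0 := by have := hu.1; linarith
    have h1 := hf u hu
    rw [lt_div_iff_of_neg hu0] at h1
    nlinarith [mul_le_mul_of_nonpos_left hx.2 hu0.le]

end Pool.ACA
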