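import Pool.Agent.Lib.MP_aca35e_co.Defs
import Pool.Agent.Lib.MP_aca35e_co.W2

/-!
# MP_aca35e_co, row W4

Fixed families. `psi t = φ (s t) / (s t)`, derivative `(deriv φ u - φ u / u) / t` (`u = s t`), `≥ 0` by monotonicity and `≠ 0` by `hrad`;
so `κ = min (deriv φ u - φ u / u) > 0` over the compact set `a ≤ s u ≤ b`. If `ev (u, φ u) x = r`, `0 < r < ρ`, then `x = φ u / u - r / u`,
so `deriv φ u - x = deriv φ u - φ u / u + r / u ≥ κ - ρ / a > 0` for `ρ < κ a` (`σ = 1`). Existence: `(φ u - r) / u = psi t - r / u`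
is `< x` at `t = a` if `ρ / a < x₀ - c`, and `> x` at `t = b` if `ρ / a < c' - x₁`; IVT on `(a, b)`. `ρ₀ = a * min (κ/2) ...`. W2 with
`t₀ = a`, `t₁ = b`.
-/

set_option autoImplicit false
set_option linter.unusedVariables false

namespace Pool.ACA

open Set Filter Topology

private lemma dom_mem (s u₁ t : ℝ) (hs : s = 1 ∨ s = -1) (h0 : 0 < t) (h1 : t < u₁) :
    s * t ∈ dom s u₁ := by
  have hss : s * (s * t) = t := by
    rcases hs with h | h <;> subst h <;> ring
  change 0 < s * (s * t) ∧ s * (s * t) < u₁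
  rw [hss]; exact ⟨h0, h1⟩

private lemma slope_pos (φ : ℝ → ℝ) (s u₁ : ℝ) (hs : s = 1 ∨ s = -1)
    (han : AnalyticOnNhd ℝ φ (dom s u₁))
    (mono : StrictMonoOn (fun t => φ (s * t) / (s * t)) (Ioo 0 u₁))
    (hrad : ∀ u ∈ dom s u₁, deriv φ u * u ≠ φ u) (t : ℝ) (h0 : 0 < t) (h1 : t < u₁) :
    0 < deriv φ (s * t) - φ (s * t) / (s * t) := by
  have hu := dom_mem s u₁ t hs h0 h1
  have hs0 : s ≠ 0 := by rcases hs with h | h <;> subst h <;> norm_num
  have hst : s * t ≠ 0 := mul_ne_zero hs0 h0.ne'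
  have hd1 : HasDerivAt φ (deriv φ (s * t)) (s * t) := (han _ hu).differentiableAt.hasDerivAt
  have hd2 : HasDerivAt (fun t : ℝ => s * t) s t := by
    simpa using (hasDerivAt_id t).const_mul s
  have hd3 : HasDerivAt (fun t : ℝ => φ (s * t)) (deriv φ (s * t) * s) t := hd1.comp t hd2
  have hd4 : HasDerivAt (fun t : ℝ => φ (s * t) / (s * t))
      ((deriv φ (s * t) * s * (s * t) - φ (s * t) * s) / (s * t) ^ 2) t := hd3.div hd2 hst
  have hnn : 0 ≤ derivWithin (fun t : ℝ => φ (s * t) / (s * t)) (Ioo 0 u₁) t :=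
    mono.monotoneOn.derivWithin_nonneg
  rw [derivWithin_of_isOpen isOpen_Ioo ⟨h0, h1⟩, hd4.deriv] at hnn
  have hsq : 0 < (s * t) ^ 2 := by positivity
  have h2 : 0 ≤ deriv φ (s * t) * s * (s * t) - φ (s * t) * s := by
    by_contra hcon
    push Not at hcon
    have : (deriv φ (s * t) * s * (s * t) - φ (s * t) * s) / (s * t) ^ 2 < 0 :=
      div_neg_of_neg_of_pos hcon hsq
    linarith
  have hss : s * s = 1 := by rcases hs with h | h <;> subst h <;> norm_num
  have h3 : deriv φ (s * t) * s * (s * t) - φ (s * t) * s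
      = t * (deriv φ (s * t) - φ (s * t) / (s * t)) := by
    have h4 : φ (s * t) * s = t * (φ (s * t) / (s * t)) := by
      have h5 : t * (φ (s * t) / (s * t)) = φ (s * t) / s := by
        field_simp
      rw [h5, eq_div_iff hs0, mul_assoc, hss, mul_one]
    rw [h4]
    have h6 : deriv φ (s * t) * s * (s * t) = t * deriv φ (s * t) * (s * s) := by ring
    rw [h6, hss]; ring
  rw [h3] at h2
  have h7 : 0 ≤ deriv φ (s * t) - φ (s * t) / (s * t) := nonneg_of_mul_nonneg_right h2 h0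
  refine lt_of_le_of_ne h7 (fun h8 => hrad _ hu ?_)
  have h9 : deriv φ (s * t) = φ (s * t) / (s * t) := by linarith
  rw [h9, div_mul_cancel₀ _ hst]

theorem fixed_fam (p : MvPolynomial (Fin 2) ℝ) (φ : ℝ → ℝ) (s u₁ c c' a b : ℝ)
    (hs : s = 1 ∨ s = -1) (han : AnalyticOnNhd ℝ φ (dom s u₁))
    (hz : ∀ u ∈ dom s u₁, pv p (u, φ u) = 0) (h0a : 0 < a) (hab : a < b) (hb1 : b < u₁)
    (mono : StrictMonoOn (fun t => φ (s * t) / (s * t)) (Ioo 0 u₁))
    (hrad : ∀ u ∈ dom s u₁, deriv φ u * u ≠ φ u)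
    (ha : φ (s * a) / (s * a) = c) (hb : φ (s * b) / (s * b) = c') (x₀ x₁ : ℝ) (h₀ : c < x₀)
    (h₁ : x₁ < c') :
    ∃ ρ₀ > 0, ∀ ρ, 0 < ρ → ρ ≤ ρ₀ →
      ∃ f : Fam p (reg x₀ x₁ ρ), f.U = {u | a < s * u ∧ s * u < b} ∧ f.φ = φ := by
  have hs0 : s ≠ 0 := by rcases hs with h | h <;> subst h <;> norm_num
  have hss : s * s = 1 := by rcases hs with h | h <;> subst h <;> norm_num
  have habs : |s| = 1 := by rcases hs with h | h <;> subst h <;> norm_num
  have hmem : ∀ t ∈ Icc a b, s * t ∈ dom s u₁ := fun t ht =>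
    dom_mem s u₁ t hs (h0a.trans_le ht.1) (ht.2.trans_lt hb1)
  have hcφ : ContinuousOn (fun t : ℝ => φ (s * t)) (Icc a b) := by
    refine ContinuousOn.comp (t := dom s u₁) han.continuousOn ?_ (fun t ht => hmem t ht)
    exact (continuous_const.mul continuous_id).continuousOn
  have hcd : ContinuousOn (fun t : ℝ => deriv φ (s * t)) (Icc a b) := by
    refine ContinuousOn.comp (t := dom s u₁) han.deriv.continuousOn ?_ (fun t ht => hmem t ht)
    exact (continuous_const.mul continuous_id).continuousOn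
  have hne : ∀ t ∈ Icc a b, s * t ≠ 0 := fun t ht =>
    mul_ne_zero hs0 (h0a.trans_le ht.1).ne'
  have hcl : ContinuousOn (fun t : ℝ => s * t) (Icc a b) :=
    (continuous_const.mul continuous_id).continuousOn
  have hcE : ContinuousOn (fun t : ℝ => deriv φ (s * t) - φ (s * t) / (s * t)) (Icc a b) :=
    hcd.sub (hcφ.div hcl hne)
  obtain ⟨tm, htm, hmin⟩ := isCompact_Icc.exists_isMinOn (nonempty_Icc.2 hab.le) hcE
  set κ : ℝ := deriv φ (s * tm) - φ (s * tm) / (s * tm) with hκ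
  have hκ0 : 0 < κ := slope_pos φ s u₁ hs han mono hrad tm (h0a.trans_le htm.1)
    (htm.2.trans_lt hb1)
  have hκle : ∀ t ∈ Icc a b, κ ≤ deriv φ (s * t) - φ (s * t) / (s * t) := fun t ht => hmin ht
  refine ⟨a * min (κ / 2) (min (x₀ - c) (c' - x₁)), ?_, ?_⟩
  · have : 0 < min (κ / 2) (min (x₀ - c) (c' - x₁)) :=
      lt_min (by linarith) (lt_min (by linarith) (by linarith))
    positivity
  intro ρ hρ hρle
  have hρa : ρ / a ≤ min (κ / 2) (min (x₀ - c) (c' - x₁)) := by
    rw [div_le_iff₀ h0a]; linarith [mul_comm a (min (κ / 2) (min (x₀ - c) (c' - x₁)))]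
  have hρ1 : ρ / a ≤ κ / 2 := hρa.trans (min_le_left _ _)
  have hρ2 : ρ / a ≤ x₀ - c := hρa.trans ((min_le_right _ _).trans (min_le_left _ _))
  have hρ3 : ρ / a ≤ c' - x₁ := hρa.trans ((min_le_right _ _).trans (min_le_right _ _))
  -- the error term
  have herr : ∀ t, a ≤ t → ∀ r, 0 < r → r < ρ → |r / (s * t)| < ρ / a := by
    intro t ht r hr hrρ
    have ht0 : 0 < t := h0a.trans_le ht
    rw [abs_div, abs_mul, habs, one_mul, abs_of_pos hr, abs_of_pos ht0]
    calc r / t ≤ r / a := by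
          apply div_le_div_of_nonneg_left hr.le h0a ht
      _ < ρ / a := by
          apply div_lt_div_of_pos_right hrρ h0a
  have hsu : ∀ u : ℝ, u = s * (s * u) := fun u => by rw [← mul_assoc, hss, one_mul]
  refine mkFam p φ s a b x₀ x₁ ρ 1 hs h0a.le (Or.inl rfl) ?_ ?_ ?_ ?_
  · intro u hu
    refine han u ⟨h0a.trans hu.1, hu.2.trans hb1⟩
  · intro u hu1 hu2
    exact hz u ⟨h0a.trans hu1, hu2.trans hb1⟩
  · intro X hX
    obtain ⟨hX1, hX2⟩ := hX
    set g : ℝ → ℝ := fun t => φ (s * t) / (s * t) - X.2 / (s * t) with hg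
    have hgc : ContinuousOn g (Icc a b) :=
      (hcφ.div hcl hne).sub (continuousOn_const.div hcl hne)
    have hga : g a < X.1 := by
      have h1 := herr a le_rfl X.2 hX2.1 hX2.2
      have h2 := (abs_lt.1 h1).1
      have h3 : g a = c - X.2 / (s * a) := by simp only [hg]; rw [ha]
      rw [h3]; linarith [hX1.1]
    have hgb : X.1 < g b := by
      have h1 := herr b hab.le X.2 hX2.1 hX2.2
      have h2 := (abs_lt.1 h1).2
      have h3 : g b = c' - X.2 / (s * b) := by simp only [hg]; rw [hb]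
      rw [h3]; linarith [hX1.2]
    obtain ⟨t, ht, hte⟩ := intermediate_value_Icc hab.le hgc ⟨hga.le, hgb.le⟩
    have hta : a < t := by
      rcases eq_or_lt_of_le ht.1 with h | h
      · exfalso; rw [← h] at hte; linarith
      · exact h
    have htb : t < b := by
      rcases eq_or_lt_of_le ht.2 with h | h
      · exfalso; rw [h] at hte; linarith
      · exact h
    refine ⟨s * t, ?_, ?_, ?_⟩
    · rw [← hsu t]; exact hta
    · rw [← hsu t]; exact htb
    · have h1 : (φ (s * t) - X.2) / (s * t) = X.1 := by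
        rw [sub_div]; exact hte
      rw [div_eq_iff (hne t ht)] at h1
      change φ (s * t) - s * t * X.1 = X.2
      linarith [mul_comm X.1 (s * t)]
  · intro X hX u hu1 hu2 hev
    obtain ⟨hX1, hX2⟩ := hX
    have ht : s * u ∈ Icc a b := ⟨hu1.le, hu2.le⟩
    have hκu := hκle (s * u) ht
    rw [← hsu u] at hκu
    have hu0 : u ≠ 0 := by
      intro h; rw [h, mul_zero] at hu1; linarith
    have h1 : φ u - u * X.1 = X.2 := hev
    have h2 : X.1 = φ u / u - X.2 / u := by
      rw [← sub_div, eq_div_iff hu0]; linarith [mul_comm X.1 u]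
    have h3 := herr (s * u) hu1.le X.2 hX2.1 hX2.2
    rw [← hsu u] at h3
    have h4 := (abs_lt.1 h3).1
    rw [one_mul, h2]
    linarith

end Pool.ACA
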