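import Pool.Agent.Lib.MP_aca35e_co.Defs

/-!
# MP_aca35e_co, row W5

Choice of `ρ`. Finitely many positive conditions. First: for `w ∈ E` positive on `[c, c']` the minimum over `[c, c']` is at an
endpoint (affine). Third: two different lines `w ≠ w'` of `F` meet (if at all) at one point `x` (`(w.1 - w'.1) x = w.2 - w'.2`);
take `ρ₀ ≤ ev w x` for all pairs with `w.1 ≠ w'.1` and `0 < ev w x` at this `x`.
-/

set_option autoImplicit false
set_option linter.unusedVariables false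

namespace Pool.ACA

open Set Filter Topology

private theorem w5_small (a : ℝ) (ha : 0 < a) : ∀ᶠ ρ in 𝓝[>] (0 : ℝ), ρ < a := by
  have h : Iio a ∈ 𝓝 (0 : ℝ) := Iio_mem_nhds ha
  exact mem_nhdsWithin_of_mem_nhds h

private theorem w5_one (c c' : ℝ) (w : ℝ × ℝ) (hc : c < c') :
    ∀ᶠ ρ in 𝓝[>] (0 : ℝ), ((∀ x ∈ Icc c c', 0 < ev w x) → ∀ x ∈ Icc c c', ρ ≤ ev w x) := by
  by_cases h : ∀ x ∈ Icc c c', 0 < ev w x
  · have h1 : 0 < ev w c := h c ⟨le_rfl, hc.le⟩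
    have h2 : 0 < ev w c' := h c' ⟨hc.le, le_rfl⟩
    filter_upwards [w5_small _ h1, w5_small _ h2] with ρ hρ1 hρ2 _ x hx
    unfold ev at *
    rcases le_total 0 w.1 with hw | hw
    · nlinarith [mul_le_mul_of_nonneg_left hx.2 hw]
    · nlinarith [mul_le_mul_of_nonpos_left hx.1 hw]
  · exact Eventually.of_forall fun ρ h' => absurd h' h

private theorem w5_three (w w' : ℝ × ℝ) :
    ∀ᶠ ρ in 𝓝[>] (0 : ℝ), ∀ x, ev w x = ev w' x → 0 < ev w x → ev w x < ρ → w = w' := by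
  by_cases h1 : w.1 = w'.1
  · refine Eventually.of_forall fun ρ x hx _ _ => ?_
    unfold ev at hx
    rw [h1] at hx
    exact Prod.ext h1 (by linarith)
  · have hne : w.1 - w'.1 ≠ 0 := sub_ne_zero.2 h1
    by_cases h2 : 0 < ev w ((w.2 - w'.2) / (w.1 - w'.1))
    · filter_upwards [w5_small _ h2] with ρ hρ x hx h0 hlt
      have hxe : x = (w.2 - w'.2) / (w.1 - w'.1) := by
        rw [eq_div_iff hne]
        unfold ev at hx
        linarith
      rw [← hxe] at hρ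
      exact absurd hlt (not_lt.2 hρ.le)
    · refine Eventually.of_forall fun ρ x hx h0 hlt => ?_
      have hxe : x = (w.2 - w'.2) / (w.1 - w'.1) := by
        rw [eq_div_iff hne]
        unfold ev at hx
        linarith
      rw [← hxe] at h2
      exact absurd h0 h2

theorem rho_exists (c c' : ℝ) (hc : c < c') (E F : Set (ℝ × ℝ)) (hE : E.Finite) (hF : F.Finite)
    (mr : ℕ → ℝ) (K : ℕ) (hmr : ∀ k ≤ K, ∀ w ∈ F, ev w (mr k) ≠ 0) :
    ∃ ρ₀ > 0, (∀ w ∈ E, (∀ x ∈ Icc c c', 0 < ev w x) → ∀ x ∈ Icc c c', ρ₀ ≤ ev w x) ∧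
      (∀ w ∈ F, ∀ k ≤ K, ρ₀ ≤ |ev w (mr k)|) ∧
      ∀ w ∈ F, ∀ w' ∈ F, ∀ x, ev w x = ev w' x → 0 < ev w x → ev w x < ρ₀ → w = w' := by
  have e1 : ∀ᶠ ρ in 𝓝[>] (0 : ℝ),
      ∀ w ∈ E, (∀ x ∈ Icc c c', 0 < ev w x) → ∀ x ∈ Icc c c', ρ ≤ ev w x :=
    (Filter.eventually_all_finite hE).2 fun w _ => w5_one c c' w hc
  have e2 : ∀ᶠ ρ in 𝓝[>] (0 : ℝ), ∀ w ∈ F, ∀ k ≤ K, ρ ≤ |ev w (mr k)| := by
    refine (Filter.eventually_all_finite hF).2 fun w hw => ?_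
    refine (Filter.eventually_all_finite (Set.finite_Iic K)).2 fun k hk => ?_
    filter_upwards [w5_small _ (abs_pos.2 (hmr k hk w hw))] with ρ hρ
    exact hρ.le
  have e3 : ∀ᶠ ρ in 𝓝[>] (0 : ℝ),
      ∀ w ∈ F, ∀ w' ∈ F, ∀ x, ev w x = ev w' x → 0 < ev w x → ev w x < ρ → w = w' := by
    refine (Filter.eventually_all_finite hF).2 fun w hw => ?_
    exact (Filter.eventually_all_finite hF).2 fun w' hw' => w5_three w w'
  have e0 : ∀ᶠ ρ in 𝓝[>] (0 : ℝ), 0 < ρ := self_mem_nhdsWithin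
  obtain ⟨ρ, h0, h1, h2, h3⟩ := (e0.and (e1.and (e2.and e3))).exists
  exact ⟨ρ, h0, h1, h2, h3⟩

end Pool.ACA
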