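import Pool.Agent.Lib.MP_aca35e_co.Defs
import Pool.Agent.Lib.MP_aca35e_co.C1
import Pool.Agent.Lib.MP_aca35e_co.W1
import Pool.Agent.Lib.MP_aca35e_co.W3
import Pool.Agent.Lib.MP_aca35e_co.W4
import Pool.Agent.Lib.MP_aca35e_co.W5

/-!
# MP_aca35e_co, row W6

Existence of the web (assembly). `K = N`. Let `S ⊆ W` be the set of `Sector.many` (`m₀ ≥ D N m`), `B` its set of slopes `w.2 / w.1`:
at most `D` elements of `W` have the same slope (`fin_line`, C1), so `N m ≤ B.card`. `F = {w ∈ W | ∃ x ∈ Icc c c', ev w x = 0}` is finite: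
by `Sector.fixed` `|w.1| ≥ min a i > 0`, `Setup.fin`. Markers: W1 with `E` = slopes of `F` (so `ev w (mr k) ≠ 0` for `w ∈ F`). Far labels:
the `i` with the positive alternative (`s = 1` and first, or `s = -1` and second alternative of `Sector.far`) and
`{w ∈ W | w.1 ∈ dom (s i) u₃ ∧ w.2 = φ i w.1}` infinite. Fixed labels: the `i` with `H i`. Index type `{i // far}` `⊕` `{i // H}` ≃ `Fin n`, `n ≤ 2 N`
(`Fintype.equivFin`). `E` = the `w ∈ W` with `¬ (0 < |w.1| < u₃ ∧ |w.2| < δ)` (finite: `Setup.fin`, and finitely many with `w.1 = 0` by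
`fin_line`) together with the finitely many `w ∈ W` on positive labels with finitely many lines. `ρ` = min of the `ρ₀`'s of W3 (each far
label), W4 (each `i` with `H i`, `x₀ = mr 0`, `x₁ = mr K`) and W5.
`cover`: `w ∈ W`, `0 < ev w x < ρ`: if `w ∈ F`: `Sector.fixed`. Otherwise `ev w` has no zero in `[c, c']`, so it is positive there,
`w ∉ E` by W5, `G.cover` gives `i` with `w.1 ∈ dom (s i) u₃`, positive alternative by `far_neg` (W3), and the label is far since `w ∉ E`.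
`farne`: otherwise the infinite set `Sector.pos` is contained in `E`. `disj`: different germs: `G.ne`; far and fixed label of the same germ:
slope `< c` or `> c'` against slope in `(c, c')` (`mono`, `ha`, `hb`). `fixedmk`, `fixedcross`: the lines are in `F` (slope in `(c,c')`), W5.
`many`: for each slope `b ∈ B` between two markers choose `w ∈ S` of slope `b`; `ev w x = w.1 (b - x)` changes sign.
It is fine to split this row into several private lemmas. `farmono`: W3. `farsign`: sign `s i`.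
-/

set_option autoImplicit false
set_option linter.unusedVariables false

namespace Pool.ACA

open Set Filter Topology

private theorem w6_min {ι : Type} [Finite ι] (r : ι → ℝ) (hr : ∀ i, 0 < r i) :
    ∃ ρ > 0, ∀ i, ρ ≤ r i := by
  classical
  cases nonempty_fintype ι
  have key : ∀ s : Finset ι, ∃ ρ > 0, ∀ i ∈ s, ρ ≤ r i := by
    intro s
    induction s using Finset.induction_on with
    | empty => exact ⟨1, one_pos, by simp⟩
    | insert a s ha ih =>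
      obtain ⟨ρ, hρ, h⟩ := ih
      refine ⟨min ρ (r a), lt_min hρ (hr a), ?_⟩
      intro i hi
      rcases Finset.mem_insert.1 hi with rfl | hi
      · exact min_le_right _ _
      · exact (min_le_left _ _).trans (h i hi)
  obtain ⟨ρ, hρ, h⟩ := key Finset.univ
  exact ⟨ρ, hρ, fun i => h i (Finset.mem_univ i)⟩

private theorem w6_slope (w : ℝ × ℝ) (hw : w.1 ≠ 0) (x : ℝ) : ev w x = w.1 * (w.2 / w.1 - x) := by
  unfold ev
  field_simp

/-- the lines with slope in `[c, c']` -/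
private def w6F (W : Set (ℝ × ℝ)) (c c' : ℝ) : Set (ℝ × ℝ) :=
  {w ∈ W | ∃ x ∈ Icc c c', ev w x = 0}

/-- lines of `W` of germ `i` -/
private def w6S {p : MvPolynomial (Fin 2) ℝ} {N : ℕ} (W : Set (ℝ × ℝ)) (G : Germs p N) (u₃ : ℝ)
    (i : Fin N) : Set (ℝ × ℝ) := {w ∈ W | w.1 ∈ dom (G.s i) u₃ ∧ w.2 = G.φ i w.1}

/-- exceptional lines -/
private def w6E {p : MvPolynomial (Fin 2) ℝ} {N : ℕ} (W : Set (ℝ × ℝ)) (G : Germs p N) (u₃ : ℝ) :
    Set (ℝ × ℝ) :=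
  {w ∈ W | ¬ (w.1 ≠ 0 ∧ |w.1| < u₃ ∧ |w.2| < G.δ)} ∪
    ⋃ i : {i : Fin N // (w6S W G u₃ i).Finite}, w6S W G u₃ i.1

/-- positive labels -/
private def w6P {p : MvPolynomial (Fin 2) ℝ} {N : ℕ} (W : Set (ℝ × ℝ)) (G : Germs p N) (u₃ c c' : ℝ)
    (i : Fin N) : Prop :=
  ((G.s i = 1 ∧ ∀ u ∈ dom (G.s i) u₃, c' < G.φ i u / u ∧ c' < deriv (G.φ i) u) ∨
    (G.s i = -1 ∧ ∀ u ∈ dom (G.s i) u₃, G.φ i u / u < c ∧ deriv (G.φ i) u < c)) ∧
    (w6S W G u₃ i).Infinite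

private theorem w6_Ffin {D : ℕ} {p : MvPolynomial (Fin 2) ℝ} {W : Set (ℝ × ℝ)} (h : Setup D p W)
    {N : ℕ} (G : Germs p N) (m₀ : ℕ) (sec : Sector W G m₀) : (w6F W sec.c sec.c').Finite := by
  have hfin : (⋃ i : {i : Fin N // sec.H i},
      {w ∈ W | sec.a i.1 ≤ |w.1| ∨ sec.a i.1 ≤ |w.2|}).Finite :=
    Set.finite_iUnion (fun i => h.fin _ (sec.hab i.1 i.2).1)
  refine hfin.subset ?_
  rintro w ⟨hw, hx⟩
  obtain ⟨i, hi, h1, h2, h3⟩ := sec.fixed w hw hx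
  refine mem_iUnion.2 ⟨⟨i, hi⟩, hw, Or.inl ?_⟩
  show sec.a i ≤ |w.1|
  rcases G.hs i with hs | hs
  · rw [hs, one_mul] at h1
    exact h1.le.trans (le_abs_self _)
  · rw [hs] at h1
    have : -w.1 ≤ |w.1| := neg_le_abs _
    linarith

private theorem w6_Efin {D : ℕ} {p : MvPolynomial (Fin 2) ℝ} {W : Set (ℝ × ℝ)} (h : Setup D p W)
    {N : ℕ} (G : Germs p N) (u₃ : ℝ) (hu₃ : 0 < u₃) : (w6E W G u₃).Finite := by
  refine Set.Finite.union ?_ (Set.finite_iUnion (fun i => i.2))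
  have h0 : {w ∈ W | w.1 = 0}.Finite := by
    by_contra hinf
    obtain ⟨S, hS, hcard⟩ := Set.Infinite.exists_subset_card_eq (s := {w ∈ W | w.1 = 0}) hinf (D + 1)
    have := fin_line h.cur (by have := h.hD; omega) 1 0 0 (Or.inl one_ne_zero) S (by
      intro w hw
      have hw' := hS hw
      exact ⟨h.zero w hw'.1, by rw [hw'.2]; ring⟩)
    omega
  refine ((h0.union (h.fin u₃ hu₃)).union (h.fin G.δ G.hδ)).subset ?_
  rintro w ⟨hw, hn⟩
  by_cases h1 : w.1 = 0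
  · exact Or.inl (Or.inl ⟨hw, h1⟩)
  by_cases h2 : |w.1| < u₃
  · by_cases h3 : |w.2| < G.δ
    · exact absurd ⟨h1, h2, h3⟩ hn
    · exact Or.inr ⟨hw, Or.inr (not_lt.1 h3)⟩
  · exact Or.inl (Or.inr ⟨hw, Or.inl (not_lt.1 h2)⟩)

private theorem w6_key {D : ℕ} {p : MvPolynomial (Fin 2) ℝ} {W : Set (ℝ × ℝ)} (h : Setup D p W)
    {N : ℕ} (G : Germs p N) (m₀ : ℕ) (sec : Sector W G m₀) (w : ℝ × ℝ) (hw : w ∈ W)
    (hE : w ∉ w6E W G sec.u₃) (x : ℝ) (hx : x ∈ Icc sec.c sec.c') (hpos : 0 < ev w x) :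
    ∃ i, w6P W G sec.u₃ sec.c sec.c' i ∧ w ∈ w6S W G sec.u₃ i := by
  have h1 : w.1 ≠ 0 ∧ |w.1| < sec.u₃ ∧ |w.2| < G.δ := by
    by_contra hn
    exact hE (Or.inl ⟨hw, hn⟩)
  obtain ⟨i, hi1, hi2⟩ := G.cover w (h.zero w hw) h1.1 (h1.2.1.trans_le sec.hu₃') h1.2.2
  have hd : w.1 ∈ dom (G.s i) sec.u₃ := by
    refine ⟨hi1.1, ?_⟩
    refine lt_of_le_of_lt ?_ h1.2.1
    rcases G.hs i with hs | hs
    · rw [hs, one_mul]; exact le_abs_self _
    · rw [hs]; have := neg_le_abs w.1; linarith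
  have hwS : w ∈ w6S W G sec.u₃ i := ⟨hw, hd, hi2⟩
  have hinf : (w6S W G sec.u₃ i).Infinite := by
    intro hf
    exact hE (Or.inr (mem_iUnion.2 ⟨⟨i, hf⟩, hwS⟩))
  have hev : ev (w.1, G.φ i w.1) x = ev w x := by
    unfold ev; rw [hi2]
  refine ⟨i, ⟨?_, hinf⟩, hwS⟩
  rcases G.hs i with hs | hs <;> rcases sec.far i with hf | hf
  · exact Or.inl ⟨hs, hf⟩
  · exfalso
    have := far_neg (G.φ i) (G.s i) sec.u₃ sec.c sec.c' sec.hc.le
      (Or.inl ⟨hs, fun u hu => (hf u hu).1⟩) w.1 hd x hx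
    rw [hev] at this
    linarith
  · exfalso
    have := far_neg (G.φ i) (G.s i) sec.u₃ sec.c sec.c' sec.hc.le
      (Or.inr ⟨hs, fun u hu => (hf u hu).1⟩) w.1 hd x hx
    rw [hev] at this
    linarith
  · exact Or.inr ⟨hs, hf⟩

/-- a line without zero in the interval does not change sign -/
private theorem w6_sign (w : ℝ × ℝ) (c c' x : ℝ) (hx : x ∈ Icc c c') (hpos : 0 < ev w x)
    (hn : ¬ ∃ y ∈ Icc c c', ev w y = 0) : ∀ y ∈ Icc c c', 0 < ev w y := by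
  intro y hy
  by_contra hle
  rw [not_lt] at hle
  have hcont : ContinuousOn (ev w) (uIcc y x) := by
    unfold ev
    fun_prop
  have hsub := intermediate_value_uIcc hcont
  have h0 : (0 : ℝ) ∈ uIcc (ev w y) (ev w x) := by
    rw [uIcc_of_le (hle.trans hpos.le)]
    exact ⟨hle, hpos.le⟩
  obtain ⟨z, hz, hz0⟩ := hsub h0
  refine hn ⟨z, ?_, hz0⟩
  exact (ordConnected_Icc.uIcc_subset hy hx) hz

private theorem w6_Fmem {p : MvPolynomial (Fin 2) ℝ} {W : Set (ℝ × ℝ)} {N : ℕ} (G : Germs p N)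
    (m₀ : ℕ) (sec : Sector W G m₀) (i : Fin N) (hi : sec.H i) (w : ℝ × ℝ)
    (h1 : sec.a i < G.s i * w.1) (h2 : G.s i * w.1 < sec.b i) (h3 : w.2 = G.φ i w.1) :
    w.1 ≠ 0 ∧ sec.c < w.2 / w.1 ∧ w.2 / w.1 < sec.c' := by
  obtain ⟨ha, hab, hb⟩ := sec.hab i hi
  have hs2 : G.s i * (G.s i * w.1) = w.1 := by
    rcases G.hs i with hs | hs <;> rw [hs] <;> ring
  have hne : w.1 ≠ 0 := by
    intro h0
    rw [h0, mul_zero] at h1
    linarith
  have hpsi : psi G i (G.s i * w.1) = w.2 / w.1 := by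
    unfold psi
    rw [hs2, h3]
  have hmem : G.s i * w.1 ∈ Ioo 0 G.u₁ := ⟨ha.trans h1, h2.trans hb⟩
  have m1 := sec.mono i hi ⟨ha, hab.trans hb⟩ hmem h1
  have m2 := sec.mono i hi hmem ⟨ha.trans hab, hb⟩ h2
  rw [sec.ha i hi, hpsi] at m1
  rw [sec.hb i hi, hpsi] at m2
  exact ⟨hne, m1, m2⟩

private theorem w6_Fmem' {p : MvPolynomial (Fin 2) ℝ} {W : Set (ℝ × ℝ)} {N : ℕ} (G : Germs p N)
    (m₀ : ℕ) (sec : Sector W G m₀) (i : Fin N) (hi : sec.H i) (w : ℝ × ℝ) (hw : w ∈ W)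
    (h1 : sec.a i < G.s i * w.1) (h2 : G.s i * w.1 < sec.b i) (h3 : w.2 = G.φ i w.1) :
    w ∈ w6F W sec.c sec.c' := by
  obtain ⟨hne, m1, m2⟩ := w6_Fmem G m₀ sec i hi w h1 h2 h3
  refine ⟨hw, w.2 / w.1, ⟨m1.le, m2.le⟩, ?_⟩
  rw [w6_slope w hne]
  ring

private theorem w6_slopes {D : ℕ} {p : MvPolynomial (Fin 2) ℝ} {W : Set (ℝ × ℝ)} (h : Setup D p W)
    (n m₀ : ℕ) (hm : D * n ≤ m₀) (S : Finset (ℝ × ℝ)) (hS : m₀ ≤ S.card)
    (hW : ∀ w ∈ S, w ∈ W ∧ w.1 ≠ 0) : n ≤ (S.image (fun w : ℝ × ℝ => w.2 / w.1)).card := by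
  classical
  have hD := h.hD
  have h1 : S.card ≤ D * (S.image (fun w : ℝ × ℝ => w.2 / w.1)).card := by
    refine Finset.card_le_mul_card_image S D ?_
    intro b hb
    refine fin_line h.cur (by omega) b (-1) 0 (Or.inr (by norm_num)) _ ?_
    intro w hw
    rw [Finset.mem_filter] at hw
    obtain ⟨hwS, hwb⟩ := hw
    obtain ⟨hwW, hw0⟩ := hW w hwS
    refine ⟨h.zero w hwW, ?_⟩
    rw [← hwb]
    field_simp
    ring
  have h2 : D * n ≤ D * (S.image (fun w : ℝ × ℝ => w.2 / w.1)).card := (hm.trans hS).trans h1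
  exact Nat.le_of_mul_le_mul_left h2 (by omega)

/-- transport of the index type -/
private theorem w6_web {p : MvPolynomial (Fin 2) ℝ} {W : Set (ℝ × ℝ)} {K m : ℕ}
    (P H : Fin K → Prop) (mr : ℕ → ℝ) (mono : ∀ i < K, mr i < mr (i + 1)) (ρ : ℝ) (hρ : 0 < ρ)
    (A : ∀ i, P i → Fam p (reg (mr 0) (mr K) ρ)) (B : ∀ i, H i → Fam p (reg (mr 0) (mr K) ρ))
    (dAA : ∀ i j hi hj, i ≠ j → (A i hi).Disj (A j hj))
    (dBB : ∀ i j hi hj, i ≠ j → (B i hi).Disj (B j hj))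
    (dAB : ∀ i j hi hj, (A i hi).Disj (B j hj))
    (cover : ∀ w ∈ W, ∀ x ∈ Ioo (mr 0) (mr K), 0 < ev w x → ev w x < ρ →
      (∃ i hi, (A i hi).has w) ∨ ∃ i hi, (B i hi).has w)
    (farne : ∃ i, P i)
    (farpos : ∀ i hi, ∀ w, (A i hi).has w → ∀ x ∈ Icc (mr 0) (mr K), 0 < ev w x)
    (farmono : ∀ i hi, ∀ w w', (A i hi).has w → (A i hi).has w' → |w.1| < |w'.1| →
      ∀ x ∈ Icc (mr 0) (mr K), ev w x < ev w' x)
    (farsign : ∀ i hi, (∀ u ∈ (A i hi).U, 0 < u) ∨ (∀ u ∈ (A i hi).U, u < 0))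
    (farinf : ∀ i hi, {w ∈ W | (A i hi).has w}.Infinite)
    (fixedmk : ∀ i hi, ∀ w ∈ W, (B i hi).has w → ∀ k ≤ K, ρ ≤ |ev w (mr k)|)
    (fixedcross : ∀ i j hi hj, ∀ w ∈ W, ∀ w' ∈ W, (B i hi).has w → (B j hj).has w' →
      ∀ x ∈ Ioo (mr 0) (mr K), 0 < ev w x → ev w x < ρ → ev w x = ev w' x → w = w')
    (fixedfin : {w ∈ W | ∃ i hi, (B i hi).has w}.Finite)
    (many : ∀ k < K, ∃ S : Finset (ℝ × ℝ), m ≤ S.card ∧
      ∀ w ∈ S, w ∈ W ∧ (∃ i hi, (B i hi).has w) ∧ ev w (mr k) * ev w (mr (k + 1)) < 0) :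
    Nonempty (Web p W K m) := by
  classical
  let ι : Type := {i : Fin K // P i} ⊕ {i : Fin K // H i}
  let e : ι ≃ Fin (Fintype.card ι) := Fintype.equivFin ι
  let f : ι → Fam p (reg (mr 0) (mr K) ρ) := Sum.elim (fun i => A i.1 i.2) (fun i => B i.1 i.2)
  have hfr : ∀ i hi, (B i hi) = f (Sum.inr ⟨i, hi⟩) := fun i hi => rfl
  refine ⟨{
    n := Fintype.card ι
    n_le := ?_
    far := fun i => (e.symm i).isLeft = true
    far_le := ?_
    mr := mr
    mono := mono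
    ρ := ρ
    hρ := hρ
    fam := fun i => f (e.symm i)
    disj := ?_
    cover := ?_
    farne := ?_
    farpos := ?_
    farmono := ?_
    farsign := ?_
    farinf := ?_
    fixedmk := ?_
    fixedcross := ?_
    fixedfin := ?_
    many := ?_ }⟩
  · have h1 : Fintype.card {i : Fin K // P i} ≤ K := by
      simpa using Fintype.card_subtype_le P
    have h2 : Fintype.card {i : Fin K // H i} ≤ K := by
      simpa using Fintype.card_subtype_le H
    have h3 : Fintype.card ι = Fintype.card {i : Fin K // P i} + Fintype.card {i : Fin K // H i} :=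
      Fintype.card_sum
    omega
  · have h1 : Nat.card {i : Fin (Fintype.card ι) // (e.symm i).isLeft = true} ≤
        Nat.card (Fin K) := by
      refine Nat.card_le_card_of_injective
        (fun i => ((e.symm i.1).getLeft i.2).1) ?_
      rintro ⟨i, hi⟩ ⟨j, hj⟩ hij
      have h2 : (e.symm i).getLeft hi = (e.symm j).getLeft hj := Subtype.ext hij
      have h3 : e.symm i = e.symm j := by
        rw [← Sum.inl_getLeft (e.symm i) hi, ← Sum.inl_getLeft (e.symm j) hj, h2]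
      exact Subtype.ext (e.symm.injective h3)
    simpa using h1
  · intro i j hij
    have hne : e.symm i ≠ e.symm j := fun h => hij (e.symm.injective h)
    generalize e.symm i = a at hne
    generalize e.symm j = b at hne
    rcases a with a | a <;> rcases b with b | b
    · exact dAA _ _ _ _ (fun h => hne (congrArg Sum.inl (Subtype.ext h)))
    · exact dAB _ _ _ _
    · intro w hw
      exact dAB _ _ _ _ w ⟨hw.2, hw.1⟩
    · exact dBB _ _ _ _ (fun h => hne (congrArg Sum.inr (Subtype.ext h)))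
  · intro w hw x hx h1 h2
    rcases cover w hw x hx h1 h2 with ⟨i, hi, h3⟩ | ⟨i, hi, h3⟩
    · refine ⟨e (Sum.inl ⟨i, hi⟩), ?_⟩
      rw [e.symm_apply_apply]
      exact h3
    · refine ⟨e (Sum.inr ⟨i, hi⟩), ?_⟩
      rw [e.symm_apply_apply]
      exact h3
  · obtain ⟨i, hi⟩ := farne
    refine ⟨e (Sum.inl ⟨i, hi⟩), ?_⟩
    simp
  · intro i hi
    generalize e.symm i = a at hi
    rcases a with a | a
    · exact farpos a.1 a.2
    · simp at hi
  · intro i hi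
    generalize e.symm i = a at hi
    rcases a with a | a
    · exact farmono a.1 a.2
    · simp at hi
  · intro i hi
    generalize e.symm i = a at hi
    rcases a with a | a
    · exact farsign a.1 a.2
    · simp at hi
  · intro i hi
    generalize e.symm i = a at hi
    rcases a with a | a
    · exact farinf a.1 a.2
    · simp at hi
  · intro i hi
    generalize e.symm i = a at hi
    rcases a with a | a
    · simp at hi
    · exact fixedmk a.1 a.2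
  · intro i j hi hj
    generalize e.symm i = a at hi
    generalize e.symm j = b at hj
    rcases a with a | a
    · simp at hi
    rcases b with b | b
    · simp at hj
    exact fixedcross a.1 b.1 a.2 b.2
  · refine fixedfin.subset ?_
    rintro w ⟨hw, i, hi, h1⟩
    refine ⟨hw, ?_⟩
    generalize e.symm i = a at hi h1
    rcases a with a | a
    · simp at hi
    · exact ⟨a.1, a.2, h1⟩
  · intro k hk
    obtain ⟨S, hS, h1⟩ := many k hk
    refine ⟨S, hS, ?_⟩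
    intro w hw
    obtain ⟨h2, ⟨i, hi, h3⟩, h4⟩ := h1 w hw
    refine ⟨h2, ⟨e (Sum.inr ⟨i, hi⟩), ?_, ?_⟩, h4⟩
    · simp
    · rw [e.symm_apply_apply]
      exact h3

theorem web_exists {D : ℕ} {p : MvPolynomial (Fin 2) ℝ} {W : Set (ℝ × ℝ)} (h : Setup D p W)
    {N : ℕ} (G : Germs p N) (m m₀ : ℕ) (hm : D * (N * m) ≤ m₀) (hm1 : 1 ≤ m) (sec : Sector W G m₀) :
    Nonempty (Web p W N m) := by
  classical
  obtain ⟨S, hScard, hS⟩ := sec.many
  have hF := w6_Ffin h G m₀ sec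
  have hE := w6_Efin h G sec.u₃ sec.hu₃
  obtain ⟨mr, hmr0, hmrN, hmono, hmrE, hmany⟩ := markers sec.c sec.c' sec.hc N m
    (S.image (fun w : ℝ × ℝ => w.2 / w.1)) (by
      intro b hb
      obtain ⟨w, hw, rfl⟩ := Finset.mem_image.1 hb
      exact (hS w hw).2.2) (w6_slopes h (N * m) m₀ hm S hScard (fun w hw => ⟨(hS w hw).1, (hS w hw).2.1⟩))
    ((fun w : ℝ × ℝ => w.2 / w.1) '' w6F W sec.c sec.c') (hF.image _)
  have hF1 : ∀ w ∈ w6F W sec.c sec.c', ∃ i, sec.H i ∧ sec.a i < G.s i * w.1 ∧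
      G.s i * w.1 < sec.b i ∧ w.2 = G.φ i w.1 := fun w hw => sec.fixed w hw.1 hw.2
  have hF2 : ∀ w ∈ w6F W sec.c sec.c', w.1 ≠ 0 := by
    intro w hw
    obtain ⟨i, hi, h1, h2, h3⟩ := hF1 w hw
    exact (w6_Fmem G m₀ sec i hi w h1 h2 h3).1
  have hFmr : ∀ k ≤ N, ∀ w ∈ w6F W sec.c sec.c', ev w (mr k) ≠ 0 := by
    intro k hk w hw h0
    rw [w6_slope w (hF2 w hw)] at h0
    rcases mul_eq_zero.1 h0 with h1 | h1
    · exact hF2 w hw h1
    · exact hmrE k hk ⟨w, hw, by simpa using (sub_eq_zero.1 h1)⟩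
  obtain ⟨ρ₀, hρ₀, hρ1, hρ2, hρ3⟩ := rho_exists sec.c sec.c' sec.hc (w6E W G sec.u₃)
    (w6F W sec.c sec.c') hE hF mr N hFmr
  -- increasing markers
  have hmrmono : ∀ k ≤ N, mr 0 ≤ mr k ∧ mr k ≤ mr N := by
    have h1 : ∀ k ≤ N, mr 0 ≤ mr k := by
      intro k hk
      induction k with
      | zero => exact le_rfl
      | succ k ih => exact (ih (by omega)).trans (hmono k (by omega)).le
    have h2 : ∀ j k, k + j = N → mr k ≤ mr N := by
      intro j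
      induction j with
      | zero => intro k hk; rw [← hk]; exact le_rfl
      | succ j ih => intro k hk; exact (hmono k (by omega)).le.trans (ih (k + 1) (by omega))
    intro k hk
    exact ⟨h1 k hk, h2 (N - k) k (by omega)⟩
  have hsub : ∀ x ∈ Icc (mr 0) (mr N), x ∈ Icc sec.c sec.c' :=
    fun x hx => ⟨hmr0.le.trans hx.1, hx.2.trans hmrN.le⟩
  have hdomsub : ∀ i, dom (G.s i) sec.u₃ ⊆ dom (G.s i) G.u₁ :=
    fun i u hu => ⟨hu.1, hu.2.trans_le sec.hu₃'⟩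
  -- far families
  have hfar : ∀ i : {i : Fin N // w6P W G sec.u₃ sec.c sec.c' i}, _ := fun i =>
    far_fam p (G.φ i.1) (G.s i.1) sec.u₃ sec.c sec.c' (G.hs i.1) sec.hu₃ sec.hc.le
      ((G.an i.1).mono (hdomsub i.1)) (fun u hu => G.zero i.1 u (hdomsub i.1 hu))
      ((G.lim i.1).mono_left (nhdsWithin_mono _ (hdomsub i.1))) i.2.1
  have hfix : ∀ i : {i : Fin N // sec.H i}, _ := fun i =>
    fixed_fam p (G.φ i.1) (G.s i.1) G.u₁ sec.c sec.c' (sec.a i.1) (sec.b i.1) (G.hs i.1)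
      (G.an i.1) (G.zero i.1) (sec.hab i.1 i.2).1 (sec.hab i.1 i.2).2.1 (sec.hab i.1 i.2).2.2
      (sec.mono i.1 i.2) (G.rad i.1) (sec.ha i.1 i.2) (sec.hb i.1 i.2) (mr 0) (mr N) hmr0 hmrN
  choose r₁ hr₁ hr₁' using fun i => (hfar i).2.2
  choose r₂ hr₂ hr₂' using hfix
  obtain ⟨ρ₁, hρ₁, hρ₁'⟩ := w6_min r₁ hr₁
  obtain ⟨ρ₂, hρ₂, hρ₂'⟩ := w6_min r₂ hr₂
  obtain ⟨ρ, hρ, hle0, hle1, hle2⟩ : ∃ ρ > 0, ρ ≤ ρ₀ ∧ ρ ≤ ρ₁ ∧ ρ ≤ ρ₂ :=
    ⟨min ρ₀ (min ρ₁ ρ₂), lt_min hρ₀ (lt_min hρ₁ hρ₂), min_le_left _ _,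
      (min_le_right _ _).trans (min_le_left _ _), (min_le_right _ _).trans (min_le_right _ _)⟩
  choose A hAU hAφ using fun i => hr₁' i ρ hρ (hle1.trans (hρ₁' i)) (mr 0) (mr N) hmr0.le hmrN.le
  choose B hBU hBφ using fun i => hr₂' i ρ hρ (hle2.trans (hρ₂' i))
  have hAhas : ∀ i w, (A i).has w ↔ w.1 ∈ dom (G.s i.1) sec.u₃ ∧ w.2 = G.φ i.1 w.1 := by
    intro i w
    unfold Fam.has
    rw [hAU, hAφ]
  have hBhas : ∀ i w, (B i).has w ↔ (sec.a i.1 < G.s i.1 * w.1 ∧ G.s i.1 * w.1 < sec.b i.1) ∧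
      w.2 = G.φ i.1 w.1 := by
    intro i w
    unfold Fam.has
    rw [hBU, hBφ]
    rfl
  have hBF : ∀ i w, w ∈ W → (B i).has w → w ∈ w6F W sec.c sec.c' := by
    intro i w hw hB
    obtain ⟨⟨h1, h2⟩, h3⟩ := (hBhas i w).1 hB
    exact w6_Fmem' G m₀ sec i.1 i.2 w hw h1 h2 h3
  have hFB : ∀ w ∈ w6F W sec.c sec.c', ∃ i, (B i).has w := by
    intro w hw
    obtain ⟨i, hi, h1, h2, h3⟩ := hF1 w hw
    exact ⟨⟨i, hi⟩, (hBhas _ w).2 ⟨⟨h1, h2⟩, h3⟩⟩
  have hBdom : ∀ i w, (B i).has w → w.1 ∈ dom (G.s i.1) G.u₁ := by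
    intro i w hB
    obtain ⟨⟨h1, h2⟩, h3⟩ := (hBhas i w).1 hB
    obtain ⟨ha, hab, hb⟩ := sec.hab i.1 i.2
    exact ⟨ha.trans h1, h2.trans hb⟩
  refine w6_web (w6P W G sec.u₃ sec.c sec.c') sec.H mr hmono ρ hρ (fun i hi => A ⟨i, hi⟩)
    (fun i hi => B ⟨i, hi⟩) ?_ ?_ ?_ ?_ ?_ ?_ ?_ ?_ ?_ ?_ ?_ ?_ ?_
  · intro i j hi hj hij w hw
    obtain ⟨h1, h2⟩ := (hAhas _ w).1 hw.1
    obtain ⟨h3, h4⟩ := (hAhas _ w).1 hw.2
    exact G.ne i j hij w.1 (hdomsub i h1) (hdomsub j h3) (h2.symm.trans h4)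
  · intro i j hi hj hij w hw
    obtain ⟨_, h2⟩ := (hBhas _ w).1 hw.1
    obtain ⟨_, h4⟩ := (hBhas _ w).1 hw.2
    exact G.ne i j hij w.1 (hBdom _ w hw.1) (hBdom _ w hw.2) (h2.symm.trans h4)
  · intro i j hi hj w hw
    obtain ⟨h1, h2⟩ := (hAhas _ w).1 hw.1
    obtain ⟨⟨h5, h6⟩, h4⟩ := (hBhas _ w).1 hw.2
    by_cases hij : i = j
    · subst hij
      obtain ⟨hne, h7, h8⟩ := w6_Fmem G m₀ sec i hj w h5 h6 h4
      rw [h4] at h7 h8
      rcases hi.1 with ⟨_, h9⟩ | ⟨_, h9⟩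
      · exact absurd (h9 w.1 h1).1 (not_lt.2 h8.le)
      · exact absurd (h9 w.1 h1).1 (not_lt.2 h7.le)
    · exact G.ne i j hij w.1 (hdomsub i h1) (hBdom _ w hw.2) (h2.symm.trans h4)
  · intro w hw x hx h1 h2
    have hxc : x ∈ Icc sec.c sec.c' := hsub x (Ioo_subset_Icc_self hx)
    by_cases hwF : w ∈ w6F W sec.c sec.c'
    · obtain ⟨i, hi⟩ := hFB w hwF
      exact Or.inr ⟨i.1, i.2, hi⟩
    · have hpos := w6_sign w sec.c sec.c' x hxc h1 (fun h => hwF ⟨hw, h⟩)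
      have hnE : w ∉ w6E W G sec.u₃ := by
        intro hwE
        have := hρ1 w hwE hpos x hxc
        linarith
      obtain ⟨i, hi, hwS⟩ := w6_key h G m₀ sec w hw hnE x hxc h1
      exact Or.inl ⟨i, hi, (hAhas _ w).2 hwS.2⟩
  · obtain ⟨w, hw, hnE⟩ := sec.pos.exists_notMem_finite hE
    have hcm : sec.c ∈ Icc sec.c sec.c' := left_mem_Icc.2 sec.hc.le
    obtain ⟨i, hi, _⟩ := w6_key h G m₀ sec w hw.1 hnE sec.c hcm (hw.2 _ hcm)
    exact ⟨i, hi⟩
  · intro i hi w hw x hx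
    obtain ⟨h1, h2⟩ := (hAhas _ w).1 hw
    have h3 := (hfar ⟨i, hi⟩).1 w.1 h1 x (hsub x hx)
    have hev : ev (w.1, G.φ i w.1) x = ev w x := by unfold ev; rw [h2]
    rw [hev] at h3
    exact h3
  · intro i hi w w' hw hw' hlt x hx
    obtain ⟨h1, h2⟩ := (hAhas _ w).1 hw
    obtain ⟨h1', h2'⟩ := (hAhas _ w').1 hw'
    have h3 := (hfar ⟨i, hi⟩).2.1 w.1 h1 w'.1 h1' hlt x (hsub x hx)
    have hev : ev (w.1, G.φ i w.1) x = ev w x := by unfold ev; rw [h2]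
    have hev' : ev (w'.1, G.φ i w'.1) x = ev w' x := by unfold ev; rw [h2']
    rw [hev, hev'] at h3
    exact h3
  · intro i hi
    rcases G.hs i with hs | hs
    · left
      intro u hu
      rw [hAU] at hu
      have := hu.1
      simp only [hs, one_mul] at this
      exact this
    · right
      intro u hu
      rw [hAU] at hu
      have := hu.1
      simp only [hs] at this
      linarith
  · intro i hi
    have h1 : {w ∈ W | (A ⟨i, hi⟩).has w} = w6S W G sec.u₃ i := by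
      ext w
      simp only [w6S, mem_setOf_eq, hAhas]
    rw [h1]
    exact hi.2
  · intro i hi w hw hB k hk
    exact hle0.trans (hρ2 w (hBF _ w hw hB) k hk)
  · intro i j hi hj w hw w' hw' hB hB' x hx h1 h2 h3
    exact hρ3 w (hBF _ w hw hB) w' (hBF _ w' hw' hB') x h3 h1 (h2.trans_le hle0)
  · refine hF.subset ?_
    rintro w ⟨hw, i, hi, hB⟩
    exact hBF _ w hw hB
  · intro k hk
    refine ⟨S.filter (fun w => mr k < w.2 / w.1 ∧ w.2 / w.1 < mr (k + 1)), ?_, ?_⟩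
    · refine (hmany k hk).trans ?_
      have h1 : (S.image (fun w : ℝ × ℝ => w.2 / w.1)).filter (fun b => mr k < b ∧ b < mr (k + 1)) ⊆
          (S.filter (fun w => mr k < w.2 / w.1 ∧ w.2 / w.1 < mr (k + 1))).image
            (fun w : ℝ × ℝ => w.2 / w.1) := by
        intro b hb
        rw [Finset.mem_filter] at hb
        obtain ⟨hb1, hb2⟩ := hb
        obtain ⟨w, hw, rfl⟩ := Finset.mem_image.1 hb1
        exact Finset.mem_image.2 ⟨w, Finset.mem_filter.2 ⟨hw, hb2⟩, rfl⟩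
      exact (Finset.card_le_card h1).trans Finset.card_image_le
    · intro w hw
      rw [Finset.mem_filter] at hw
      obtain ⟨hwS, h1, h2⟩ := hw
      obtain ⟨hwW, hw0, h3, h4⟩ := hS w hwS
      have hwF : w ∈ w6F W sec.c sec.c' := ⟨hwW, w.2 / w.1, ⟨h3.le, h4.le⟩, by
        rw [w6_slope w hw0]; ring⟩
      obtain ⟨i, hi⟩ := hFB w hwF
      refine ⟨hwW, ⟨i.1, i.2, hi⟩, ?_⟩
      rw [w6_slope w hw0, w6_slope w hw0]
      have h5 : 0 < w.1 ^ 2 := by positivity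
      have h6 : 0 < (w.2 / w.1 - mr k) * (mr (k + 1) - w.2 / w.1) :=
        mul_pos (by linarith) (by linarith)
      nlinarith [mul_pos h5 h6]

end Pool.ACA
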