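import Pool.Agent.Lib.MP_aca35e_co.L2
import Pool.Agent.Lib.MP_aca35e_co.C7
import Pool.Agent.Lib.MP_aca35e_co.D3
import Pool.Agent.Lib.MP_aca35e_co.W6
import Pool.Agent.Lib.MP_aca35e_co.E4
import Pool.Agent.Lib.MP_aca35e_co.F6
import Pool.Agent.Lib.MP_aca35e_co.G6
import Pool.Agent.Lib.MP_aca35e_co.H4

/-!
# MP_aca35e_co: Theorem M
-/

set_option autoImplicit false

namespace Pool.ACA

open Set Filter Topology

theorem setup_false {D : ℕ} {p : MvPolynomial (Fin 2) ℝ} {W : Set (ℝ × ℝ)}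
    (h : Setup D p W) : False := by
  obtain ⟨p, W, m, h, hN⟩ := h.n2
  obtain ⟨w₀, hw₀⟩ := h.inf.nonempty
  have hne : w₀ ≠ (0, 0) := fun hh => h.ne (hh ▸ hw₀)
  have hD : 2 ≤ D := le_trans (by norm_num) h.hD
  obtain ⟨N, ⟨G⟩⟩ := germs_exist h.cur hD w₀ (h.zero w₀ hw₀) hne
  have hp : p ≠ 0 := by
    intro h0
    obtain ⟨t, _, ht⟩ := no_line h.cur hD w₀ 1 0 (Or.inl one_ne_zero)
    exact ht (by rw [h0]; simp [pv])
  obtain ⟨M, hM⟩ := kgrid_exists D N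
  obtain ⟨S, hS⟩ := kgrid_grid D (4 * D) M
  obtain ⟨d₀, hd₀⟩ := hM S
  obtain ⟨sec⟩ := sector_exists h hN G (D * (N * (d₀ + 128 * N + 1)))
  obtain ⟨w⟩ := web_exists h G (d₀ + 128 * N + 1) _ le_rfl (by omega) sec
  have hN1 : 1 ≤ N := by
    by_contra hN0
    have h0 : N = 0 := by omega
    obtain ⟨i, hi⟩ := w.farne
    have := w.n_le
    have := i.2
    omega
  obtain ⟨win⟩ := window_exists h w d₀ (by omega) (by omega) hN1
  obtain ⟨k⟩ := hd₀ p W _ w h win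
  obtain ⟨g⟩ := hS p hp h.cur.deg k
  exact grid_false h.hD h.cur g

end Pool.ACA
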