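import Pool.Agent.Lib.MP_aca35e_co.Defs
import Pool.Agent.Lib.MP_aca35e_co.TDefs

/-!
# MP_aca35e_co, row T4

Shear so that no line is horizontal. `W` is countable (`Aff.fin`, `ne`); choose `l` outside the countable set of the `- w.1 / w.2`. `W' = {(w.1 + l w.2, w.2)}`. `on (w.1 + l w.2, w.2) (X.1, X.2 - l X.1) ↔ on w X`; the map
`X ↦ (X.1, X.2 - l X.1)` is linear with determinant 1: it preserves `tri`, `cr`, and so `InTri`, `InStrip`. `fin`: `|w.1 + l w.2| ≥ ε` implies `|w.1| ≥ ε/2` or `|w.2| ≥ ε / (2 (|l| + 1))`. `par`: `w'·v = w·(v.1, l v.1 + v.2)`.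
-/

set_option autoImplicit false
set_option linter.unusedVariables false

namespace Pool.ACA

open Set Filter Topology

private lemma countable_of_fin {W : Set (ℝ × ℝ)} (h0 : (0, 0) ∉ W)
    (hf : ∀ ε > 0, {w ∈ W | ε ≤ |w.1| ∨ ε ≤ |w.2|}.Finite) : W.Countable := by
  have h1 : W ⊆ ⋃ n : ℕ, {w ∈ W | (1 / ((n : ℝ) + 1)) ≤ |w.1| ∨ (1 / ((n : ℝ) + 1)) ≤ |w.2|} := by
    intro w hw
    rw [mem_iUnion]
    have hne : w.1 ≠ 0 ∨ w.2 ≠ 0 := by
      by_contra hcon
      push Not at hcon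
      apply h0
      have : w = (0, 0) := Prod.ext hcon.1 hcon.2
      rw [← this]; exact hw
    rcases hne with h | h
    · obtain ⟨n, hn⟩ := exists_nat_one_div_lt (abs_pos.2 h)
      exact ⟨n, hw, Or.inl hn.le⟩
    · obtain ⟨n, hn⟩ := exists_nat_one_div_lt (abs_pos.2 h)
      exact ⟨n, hw, Or.inr hn.le⟩
  refine Countable.mono h1 (countable_iUnion fun n => (hf _ ?_).countable)
  positivity

/-- the shear on the dual plane -/
private def sg (l : ℝ) (w : ℝ × ℝ) : ℝ × ℝ := (w.1 + l * w.2, w.2)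

/-- the shear on the plane -/
private def ta (l : ℝ) (X : ℝ × ℝ) : ℝ × ℝ := (X.1, X.2 - l * X.1)

private lemma on_sg (l : ℝ) (w X : ℝ × ℝ) : on (sg l w) (ta l X) ↔ on w X := by
  unfold on sg ta
  constructor
  · intro h
    simp only at h
    linarith
  · intro h
    simp only
    linarith

private lemma ta_ta (l : ℝ) (X : ℝ × ℝ) : ta l (ta (-l) X) = X := by
  unfold ta
  apply Prod.ext
  · rfl
  · simp

private lemma sg_sg (l : ℝ) (X : ℝ × ℝ) : sg l (sg (-l) X) = X := by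
  unfold sg
  apply Prod.ext
  · simp
  · rfl

private lemma sg_sg' (l : ℝ) (X : ℝ × ℝ) : sg (-l) (sg l X) = X := by
  unfold sg
  apply Prod.ext
  · simp
  · rfl

private lemma ta_tri (l : ℝ) (a b c X : ℝ × ℝ) (h : X ∈ tri a b c) :
    ta l X ∈ tri (ta l a) (ta l b) (ta l c) := by
  obtain ⟨r, s, t, hr, hs, ht, h1, hX⟩ := h
  refine ⟨r, s, t, hr, hs, ht, h1, ?_⟩
  subst hX
  unfold ta
  apply Prod.ext
  · simp
  · simp
    ring

private lemma ta_cr (l : ℝ) (a b c : ℝ × ℝ) :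
    cr (ta l b - ta l a) (ta l c - ta l a) = cr (b - a) (c - a) := by
  unfold cr ta
  simp
  ring

theorem S3.nohor {W : Set (ℝ × ℝ)} (h : S3 W) : ∃ W' : Set (ℝ × ℝ), S3 W' ∧ ∀ w ∈ W', w.1 ≠ 0 := by
  have hc : W.Countable := countable_of_fin h.aff.ne h.aff.fin
  obtain ⟨l, hl⟩ : ∃ l : ℝ, l ∉ (fun w : ℝ × ℝ => - w.1 / w.2) '' W := by
    have hd := (hc.image (fun w : ℝ × ℝ => - w.1 / w.2)).dense_compl ℝ
    obtain ⟨l, hl⟩ := hd.nonempty
    exact ⟨l, hl⟩
  have hW' : ∀ w' : ℝ × ℝ, w' ∈ sg l '' W ↔ sg (-l) w' ∈ W := by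
    intro w'
    constructor
    · rintro ⟨w, hw, rfl⟩
      rw [sg_sg']; exact hw
    · intro hw
      exact ⟨_, hw, sg_sg l w'⟩
  have hon : ∀ w' X' : ℝ × ℝ, on w' X' ↔ on (sg (-l) w') (ta (-l) X') := by
    intro w' X'
    exact (on_sg (-l) w' X').symm
  have htri : ∀ X', (∀ w' ∈ sg l '' W, ¬ on w' X') → InTri (sg l '' W) X' := by
    intro X' hX'
    have h1 : ∀ w ∈ W, ¬ on w (ta (-l) X') := by
      intro w hw hcon
      apply hX' (sg l w) ⟨w, hw, rfl⟩
      rw [hon, sg_sg']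
      exact hcon
    obtain ⟨a, b, c, hmem, hcr, hfree, wa, hwa, wb, hwb, wc, hwc, e1, e2, e3, e4, e5, e6⟩ := h.tri _ h1
    refine ⟨ta l a, ta l b, ta l c, ?_, ?_, ?_, sg l wa, ⟨wa, hwa, rfl⟩, sg l wb, ⟨wb, hwb, rfl⟩, sg l wc,
      ⟨wc, hwc, rfl⟩, (on_sg l _ _).2 e1, (on_sg l _ _).2 e2, (on_sg l _ _).2 e3, (on_sg l _ _).2 e4,
      (on_sg l _ _).2 e5, (on_sg l _ _).2 e6⟩
    · have h2 := ta_tri l a b c _ hmem
      rw [ta_ta] at h2
      exact h2
    · rw [ta_cr]; exact hcr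
    · intro w' hw' Y' hY' hcon
      have h3 := ta_tri (-l) _ _ _ _ hY'
      have h4 : ∀ X, ta (-l) (ta l X) = X := by
        intro X
        have h5 := ta_ta (-l) X
        rw [neg_neg] at h5
        exact h5
      rw [h4, h4, h4] at h3
      exact hfree _ ((hW' w').1 hw') _ h3 ((hon w' Y').1 hcon)
  refine ⟨sg l '' W, ⟨⟨?_, ?_, fun X hX => Or.inl (htri X hX)⟩, htri, ?_, ?_⟩, ?_⟩
  · intro h0
    rw [hW'] at h0
    have : sg (-l) (0, 0) = (0, 0) := by
      unfold sg; simp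
    rw [this] at h0
    exact h.aff.ne h0
  · intro ε hε
    have hpos : 0 < ε / (1 + |l|) := by positivity
    refine Set.Finite.subset ((h.aff.fin _ hpos).image (sg l)) ?_
    rintro w' ⟨hw', hor⟩
    obtain ⟨w, hw, rfl⟩ := hw'
    refine ⟨w, ⟨hw, ?_⟩, rfl⟩
    by_contra hcon
    push Not at hcon
    obtain ⟨hc1, hc2⟩ := hcon
    have hle : ε / (1 + |l|) ≤ ε := by
      apply div_le_self hε.le
      have := abs_nonneg l
      linarith
    rcases hor with h1 | h1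
    · have h2 : |w.1 + l * w.2| ≤ |w.1| + |l| * |w.2| := by
        rw [← abs_mul]; exact abs_add_le _ _
      have h3 : |l| * |w.2| ≤ |l| * (ε / (1 + |l|)) := mul_le_mul_of_nonneg_left hc2.le (abs_nonneg l)
      have h4 : ε / (1 + |l|) + |l| * (ε / (1 + |l|)) = ε := by
        have : (1 + |l|) ≠ 0 := by positivity
        field_simp
      have h5 : ε ≤ |w.1 + l * w.2| := h1
      linarith
    · have h5 : ε ≤ |w.2| := h1
      linarith
  · intro X S hS
    have h1 := h.mul (ta (-l) X) (S.image (sg (-l))) (by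
      intro w hw
      rw [Finset.mem_image] at hw
      obtain ⟨w', hw', rfl⟩ := hw
      exact ⟨(hW' w').1 (hS w' hw').1, (hon w' X).1 (hS w' hw').2⟩)
    rwa [Finset.card_image_of_injective] at h1
    intro x y hxy
    have := congrArg (sg l) hxy
    rwa [sg_sg, sg_sg] at this
  · intro v hv
    have hv' : ((v.1, l * v.1 + v.2) : ℝ × ℝ) ≠ 0 := by
      intro h0
      apply hv
      have h1 : v.1 = 0 := congrArg Prod.fst h0
      have h2 : l * v.1 + v.2 = 0 := congrArg Prod.snd h0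
      rw [h1] at h2
      apply Prod.ext h1
      simpa using h2
    refine Set.Finite.subset ((h.par _ hv').image (sg l)) ?_
    rintro w' ⟨hw', h1⟩
    obtain ⟨w, hw, rfl⟩ := hw'
    refine ⟨w, ⟨hw, ?_⟩, rfl⟩
    have h2 : (w.1 + l * w.2) * v.1 + w.2 * v.2 = 0 := h1
    show w.1 * v.1 + w.2 * (l * v.1 + v.2) = 0
    linarith
  · rintro w' ⟨w, hw, rfl⟩ h0
    have h1 : w.1 + l * w.2 = 0 := h0
    by_cases h2 : w.2 = 0
    · rw [h2] at h1
      have h3 : w.1 = 0 := by linarith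
      apply h.aff.ne
      have : w = (0, 0) := Prod.ext h3 h2
      rw [← this]; exact hw
    · apply hl
      refine ⟨w, hw, ?_⟩
      show - w.1 / w.2 = l
      rw [div_eq_iff h2]
      linarith

end Pool.ACA
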